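import Pool.Agent.P.MP_746f10_nt.AP.Base

/-! The exceptional numbers are rare. -/

namespace Pool.Agent.P.MP_746f10_nt.AP

open Finset Filter

namespace BadP

/-- the upper bound sieve with a given constant -/
def Up (C : ℝ) : Prop := ∀ z Y : ℕ, 2 ≤ z → ∑ l ∈ Icc 1 Y, rr z l ≤ 1 + C * Y / Real.log z

variable {C : ℝ}

lemma log_pos' {z : ℕ} (hz : 2 ≤ z) : 0 < Real.log z :=
  Real.log_pos (by exact_mod_cast hz)

lemma nn (m d z : ℕ) : 0 ≤ dd m d * rr z m := mul_nonneg (dd_bd _ _).1 (rr_bd _ _).1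

lemma mult (hC : 0 < C) (h : Up C) {z d : ℕ} (hz : 2 ≤ z) (hd : 1 ≤ d) (M : ℕ) :
    ∑ m ∈ Ico 1 M, dd m d * rr z m ≤ rr z d * (1 + C * M / (d * Real.log z)) := by
  have hL := log_pos' hz
  have h1 : ∑ m ∈ Ico 1 M, dd m d * rr z m = ∑ m ∈ (Ico 1 M).filter (d ∣ ·), rr z m := by
    rw [sum_filter]
    refine sum_congr rfl fun m _ => ?_
    unfold dd
    split_ifs <;> simp
  have h2 : (Ico 1 M).filter (d ∣ ·) ⊆ (Icc 1 (M / d)).image (d * ·) := by
    intro m hm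
    obtain ⟨hm, l, rfl⟩ := mem_filter.1 hm
    have hm' := mem_Ico.1 hm
    refine mem_image.2 ⟨l, mem_Icc.2 ⟨?_, ?_⟩, rfl⟩
    · rcases Nat.eq_zero_or_pos l with rfl | h0
      · simp at hm'
      · exact h0
    · exact (Nat.le_div_iff_mul_le hd).2 (by rw [mul_comm]; exact hm'.2.le)
  rw [h1]
  refine (sum_le_sum_of_subset_of_nonneg h2 fun _ _ _ => (rr_bd _ _).1).trans ?_
  rw [sum_image fun a _ b _ hab => Nat.eq_of_mul_eq_mul_left hd hab]
  simp only [rr_mul]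
  rw [← mul_sum]
  refine mul_le_mul_of_nonneg_left ((h z _ hz).trans ?_) (rr_bd _ _).1
  have h3 : ((M / d : ℕ) : ℝ) ≤ M / d := Nat.cast_div_le
  have hd' : (0 : ℝ) < d := by exact_mod_cast hd
  calc 1 + C * ((M / d : ℕ) : ℝ) / Real.log z ≤ 1 + C * (M / d) / Real.log z := by gcongr
    _ = _ := by field_simp

lemma win (hC : 0 < C) (h : Up C) {z : ℕ} (hz : 2 ≤ z) (a : ℕ) : ∀ t : ℕ,
    ∑ d ∈ Ioc (2 ^ a) (2 ^ (a + t)), rr z d / d ≤ t * (1 / 2 ^ a + 2 * C / Real.log z)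
  | 0 => by simp
  | t + 1 => by
    have hL := log_pos' hz
    have h1 : 2 ^ a ≤ 2 ^ (a + t) := Nat.pow_le_pow_right (by norm_num) (by omega)
    have h2 : 2 ^ (a + t) ≤ 2 ^ (a + (t + 1)) := Nat.pow_le_pow_right (by norm_num) (by omega)
    rw [← sum_Ioc_consecutive _ h1 h2]
    have h3 : ∑ d ∈ Ioc (2 ^ (a + t)) (2 ^ (a + (t + 1))), rr z d / d ≤
        1 / 2 ^ a + 2 * C / Real.log z := by
      calc _ ≤ ∑ d ∈ Ioc (2 ^ (a + t)) (2 ^ (a + (t + 1))), rr z d / 2 ^ (a + t) := by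
            refine sum_le_sum fun d hd => ?_
            have : (2 : ℝ) ^ (a + t) ≤ d := by exact_mod_cast (mem_Ioc.1 hd).1.le
            exact div_le_div_of_nonneg_left (rr_bd _ _).1 (by positivity) this
        _ ≤ ∑ d ∈ Icc 1 (2 ^ (a + (t + 1))), rr z d / 2 ^ (a + t) := by
            refine sum_le_sum_of_subset_of_nonneg (fun d hd => ?_) fun _ _ _ =>
              div_nonneg (rr_bd _ _).1 (by positivity)
            have := mem_Ioc.1 hd
            exact mem_Icc.2 ⟨Nat.zero_lt_of_lt this.1, this.2⟩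
        _ ≤ (1 + C * ((2 ^ (a + (t + 1)) : ℕ) : ℝ) / Real.log z) / 2 ^ (a + t) := by
            rw [← sum_div]
            exact div_le_div_of_nonneg_right (h z _ hz) (by positivity)
        _ = 1 / 2 ^ (a + t) + 2 * C / Real.log z := by
            push_cast
            rw [← add_assoc, pow_succ]
            field_simp
        _ ≤ _ := by
            have : (2 : ℝ) ^ a ≤ 2 ^ (a + t) := by exact_mod_cast h1
            gcongr
    have := win hC h hz a t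
    push_cast
    linarith

lemma box_card (hC : 0 < C) (h : Up C) {j : ℕ} (hj : 1 ≤ j) :
    ((box j).card : ℝ) ≤ (1 + 4 * C) * 2 ^ j / j := by
  have hz : 2 ≤ 2 ^ j := Nat.le_self_pow (by omega) 2
  have h1 : ((box j).card : ℝ) ≤ ∑ l ∈ Icc 1 (2 ^ (j + 1)), rr (2 ^ j) l := by
    calc ((box j).card : ℝ) = ∑ p ∈ box j, rr (2 ^ j) p := by
          rw [card_eq_sum_ones, Nat.cast_sum]
          refine sum_congr rfl fun p hp => ?_
          obtain ⟨h1, -, h3⟩ := mem_PP.1 hp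
          rw [rr_of_rough fun q hq hd => by rwa [(Nat.prime_dvd_prime_iff_eq hq h3).1 hd]]
          simp
      _ ≤ _ := by
          refine sum_le_sum_of_subset_of_nonneg (fun p hp => ?_) fun _ _ _ => (rr_bd _ _).1
          obtain ⟨-, h2, h3⟩ := mem_PP.1 hp
          exact mem_Icc.2 ⟨h3.pos, h2⟩
  refine (h1.trans (h _ _ hz)).trans ?_
  have hj' : (0 : ℝ) < j := by exact_mod_cast hj
  have h2 : (j : ℝ) ≤ 2 ^ j := by exact_mod_cast (Nat.lt_two_pow_self (n := j)).le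
  have h3 := Real.log_two_gt_d9
  push_cast
  rw [Real.log_pow]
  calc 1 + C * 2 ^ (j + 1) / (j * Real.log 2) ≤ 2 ^ j / j + C * 2 ^ (j + 1) / (j * (1 / 2)) := by
        gcongr
        · rwa [le_div_iff₀ hj', one_mul]
        · linarith
    _ = _ := by rw [pow_succ]; field_simp; ring

/-- the size conditions on `g` -/
structure Big (u g : ℕ) : Prop where
  h1 : 2 * u ≤ g
  h2 : g ^ 2 ≤ 2 ^ g
  h3 : 1 ≤ Nat.sqrt g
  h4 : g ≤ 2 ^ Nat.sqrt g
  h5 : 10 * Nat.sqrt g ≤ g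

variable {u Q : ℕ}

lemma div_ge (hu : 1 ≤ u) {g : ℕ} (hg : 2 * u ≤ g) : (g : ℝ) ≤ 2 * u * (g / u : ℕ) := by
  have h1 := Nat.div_add_mod g u
  have h2 := Nat.mod_lt g hu
  have h3 : 1 ≤ g / u := (Nat.le_div_iff_mul_le hu).2 (by omega)
  have h4 : u ≤ u * (g / u) := Nat.le_mul_of_pos_right u h3
  have h5 : g ≤ 2 * u * (g / u) := by rw [mul_assoc]; omega
  exact_mod_cast h5

lemma two_le_zz (hu : 1 ≤ u) (B : Big u (lg Q)) : 2 ≤ zz u Q :=
  Nat.le_self_pow (by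
    have : 1 ≤ lg Q / u := (Nat.le_div_iff_mul_le hu).2 (by have := B.h1; omega)
    omega) 2

lemma inv_log (hu : 1 ≤ u) (B : Big u (lg Q)) : 1 / Real.log (zz u Q) ≤ 4 * u / lg Q := by
  have hL := log_pos' (two_le_zz hu B)
  have hg : (0 : ℝ) < lg Q := by have := B.h1; exact_mod_cast (by omega : 0 < lg Q)
  rw [div_le_div_iff₀ hL hg]
  have h1 := div_ge hu B.h1
  have h3 := Real.log_two_gt_d9
  unfold zz
  push_cast
  rw [Real.log_pow]
  have : (0 : ℝ) ≤ u * (lg Q / u : ℕ) := by positivity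
  nlinarith

lemma window (hC : 0 < C) (h : Up C) (hu : 1 ≤ u) (hQ : 1 ≤ Q) (B : Big u (lg Q)) {a t : ℕ}
    (ha : Nat.sqrt (lg Q) ≤ a) (hat : a + t ≤ lg Q + 2) (ht : t ≤ 4 * Nat.sqrt (lg Q)) :
    ∑ d ∈ Ioc (2 ^ a) (2 ^ (a + t)), ∑ m ∈ Ico 1 (4 * Q ^ 2), dd m d * rr (zz u Q) m ≤
      (4 + 64 * C * u * (1 + 8 * C * u)) * Nat.sqrt (lg Q) * (Q : ℝ) ^ 2 / (lg Q : ℝ) ^ 2 := by
  have hz := two_le_zz hu B
  have hL := log_pos' hz
  have hi := inv_log hu B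
  have hg : (0 : ℝ) < lg Q := by have := B.h1; exact_mod_cast (by omega : 0 < lg Q)
  have hs : (1 : ℝ) ≤ Nat.sqrt (lg Q) := by exact_mod_cast B.h3
  have hgQ : (lg Q : ℝ) ^ 2 ≤ Q := by exact_mod_cast B.h2.trans (two_pow_lg_le hQ)
  have hga : (lg Q : ℝ) ≤ 2 ^ a := by
    exact_mod_cast B.h4.trans (Nat.pow_le_pow_right (by norm_num) ha)
  have ht' : (t : ℝ) ≤ 4 * Nat.sqrt (lg Q) := by exact_mod_cast ht
  have hc : ((Ioc (2 ^ a) (2 ^ (a + t))).card : ℝ) ≤ 4 * Q := by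
    have h1 : 2 ^ (a + t) ≤ 2 ^ (lg Q + 2) := Nat.pow_le_pow_right (by norm_num) hat
    have h2 := two_pow_lg_le hQ
    have h3 : (Ioc (2 ^ a) (2 ^ (a + t))).card ≤ 4 * Q := by
      rw [pow_add 2 (lg Q)] at h1
      rw [Nat.card_Ioc]
      exact (Nat.sub_le _ _).trans (h1.trans (by omega))
    exact_mod_cast h3
  calc _ ≤ ∑ d ∈ Ioc (2 ^ a) (2 ^ (a + t)),
        (1 + 4 * C * (Q : ℝ) ^ 2 * (1 / Real.log (zz u Q)) * (rr (zz u Q) d / d)) := by
        refine sum_le_sum fun d hd => ?_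
        have hd1 : 1 ≤ d := Nat.zero_lt_of_lt (mem_Ioc.1 hd).1
        refine (mult hC h hz hd1 _).trans ?_
        have hd' : (0 : ℝ) < d := by exact_mod_cast hd1
        rw [mul_add, mul_one]
        refine add_le_add (rr_bd _ _).2 (le_of_eq ?_)
        push_cast
        field_simp
    _ ≤ 4 * Q + 4 * C * (Q : ℝ) ^ 2 * (1 / Real.log (zz u Q)) *
        (t * (1 / 2 ^ a + 2 * C * (1 / Real.log (zz u Q)))) := by
        rw [sum_add_distrib, ← mul_sum, sum_const, nsmul_eq_mul, mul_one, mul_one_div (2 * C)]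
        exact add_le_add hc (mul_le_mul_of_nonneg_left (win hC h hz a t) (by positivity))
    _ ≤ 4 * (Nat.sqrt (lg Q) * (Q : ℝ) ^ 2 / (lg Q : ℝ) ^ 2) + 4 * C * (Q : ℝ) ^ 2 * (4 * u / lg Q) *
        (4 * Nat.sqrt (lg Q) * (1 / lg Q + 2 * C * (4 * u / lg Q))) := by
        gcongr
        rw [le_div_iff₀ (by positivity)]
        have hQ' : (0 : ℝ) ≤ Q := by positivity
        calc (Q : ℝ) * (lg Q : ℝ) ^ 2 ≤ Q * Q := by gcongr
          _ = 1 * (Q : ℝ) ^ 2 := by ring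
          _ ≤ _ := by gcongr
    _ = _ := by field_simp; ring

lemma pairs (hC : 0 < C) (h : Up C) (hu : 1 ≤ u) (hQ : 1 ≤ Q) (B : Big u (lg Q)) :
    ∑ j ∈ Ico (lg Q / u) (lg Q + 2), ∑ p ∈ box j, ∑ p' ∈ box j,
      ∑ m ∈ Ico 1 (4 * Q ^ 2), dd m (p * p') * rr (zz u Q) m ≤
      4 * (1 + 4 * C) ^ 2 * u ^ 2 * (16 + 32 * C * u) * (Q : ℝ) ^ 2 / (lg Q : ℝ) ^ 2 := by
  have hz := two_le_zz hu B
  have hL := log_pos' hz
  have hi := inv_log hu B
  have hg : (0 : ℝ) < lg Q := by have := B.h1; exact_mod_cast (by omega : 0 < lg Q)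
  have hu' : (0 : ℝ) < u := by exact_mod_cast hu
  have hgu : 1 ≤ lg Q / u := (Nat.le_div_iff_mul_le hu).2 (by have := B.h1; omega)
  have h4 : ∑ j ∈ Ico (lg Q / u) (lg Q + 2), (4 : ℝ) ^ j ≤ 16 * (Q : ℝ) ^ 2 := by
    have h1 : ∀ n : ℕ, ∑ j ∈ range n, (4 : ℝ) ^ j ≤ 4 ^ n := fun n => by
      induction n with
      | zero => simp
      | succ n ih =>
        rw [sum_range_succ, pow_succ]
        have : (0 : ℝ) ≤ 4 ^ n := by positivity
        linarith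
    have h2 : (2 : ℝ) ^ lg Q ≤ Q := by exact_mod_cast two_pow_lg_le hQ
    calc _ ≤ ∑ j ∈ range (lg Q + 2), (4 : ℝ) ^ j :=
          sum_le_sum_of_subset_of_nonneg (fun j hj => mem_range.2 (mem_Ico.1 hj).2)
            fun _ _ _ => by positivity
      _ ≤ 4 ^ (lg Q + 2) := h1 _
      _ = 16 * (2 ^ lg Q) ^ 2 := by rw [← pow_mul, mul_comm (lg Q), pow_mul]; ring
      _ ≤ _ := by gcongr
  have hc : ((Ico (lg Q / u) (lg Q + 2)).card : ℝ) ≤ 2 * lg Q := by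
    have : (Ico (lg Q / u) (lg Q + 2)).card ≤ 2 * lg Q := by
      rw [Nat.card_Ico]; have := B.h1; omega
    exact_mod_cast this
  calc _ ≤ ∑ j ∈ Ico (lg Q / u) (lg Q + 2), ((1 + 4 * C) * (2 * u / lg Q)) ^ 2 *
        (4 ^ j + 4 * C * (Q : ℝ) ^ 2 * (4 * u / lg Q)) := by
        refine sum_le_sum fun j hj => ?_
        have hj1 : lg Q / u ≤ j := (mem_Ico.1 hj).1
        have hj0 : (0 : ℝ) < j := by exact_mod_cast (by omega : 0 < j)
        have hb : ((box j).card : ℝ) ≤ (1 + 4 * C) * (2 * u / lg Q) * 2 ^ j := by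
          refine (box_card hC h (by omega)).trans ?_
          have h1 : (lg Q : ℝ) ≤ 2 * u * j := by
            refine (div_ge hu B.h1).trans ?_
            have : ((lg Q / u : ℕ) : ℝ) ≤ j := by exact_mod_cast hj1
            gcongr
          have h2 : 1 / (j : ℝ) ≤ 2 * u / lg Q := by
            rw [div_le_div_iff₀ hj0 hg]; linarith
          calc _ = (1 + 4 * C) * (1 / (j : ℝ)) * 2 ^ j := by ring
            _ ≤ _ := by gcongr
        calc _ ≤ ∑ p ∈ box j, ∑ p' ∈ box j,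
              (1 + 4 * C * (Q : ℝ) ^ 2 * (4 * u / lg Q) / (2 ^ j * 2 ^ j)) := by
              refine sum_le_sum fun p hp => sum_le_sum fun p' hp' => ?_
              obtain ⟨a1, -, a3⟩ := mem_PP.1 hp
              obtain ⟨b1, -, b3⟩ := mem_PP.1 hp'
              have a4 : (2 : ℝ) ^ j ≤ p := by exact_mod_cast a1.le
              have b4 : (2 : ℝ) ^ j ≤ p' := by exact_mod_cast b1.le
              have a5 : (0 : ℝ) < p := by exact_mod_cast a3.pos
              have b5 : (0 : ℝ) < p' := by exact_mod_cast b3.pos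
              refine (mult hC h hz (Nat.mul_pos a3.pos b3.pos) _).trans ?_
              refine (mul_le_of_le_one_left (by positivity) (rr_bd _ _).2).trans ?_
              calc _ = 1 + 4 * C * (Q : ℝ) ^ 2 * (1 / Real.log (zz u Q)) / (p * p') := by
                    push_cast; field_simp
                _ ≤ _ := by gcongr
          _ = ((box j).card : ℝ) ^ 2 *
              (1 + 4 * C * (Q : ℝ) ^ 2 * (4 * u / lg Q) / (2 ^ j * 2 ^ j)) := by
              simp only [sum_const, nsmul_eq_mul]; ring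
          _ ≤ ((1 + 4 * C) * (2 * u / lg Q) * 2 ^ j) ^ 2 *
              (1 + 4 * C * (Q : ℝ) ^ 2 * (4 * u / lg Q) / (2 ^ j * 2 ^ j)) := by gcongr
          _ = _ := by
              rw [show (4 : ℝ) ^ j = 2 ^ j * 2 ^ j by rw [← mul_pow]; norm_num]
              field_simp
    _ ≤ ((1 + 4 * C) * (2 * u / lg Q)) ^ 2 *
        (16 * (Q : ℝ) ^ 2 + 2 * lg Q * (4 * C * (Q : ℝ) ^ 2 * (4 * u / lg Q))) := by
        rw [← mul_sum, sum_add_distrib, sum_const, nsmul_eq_mul]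
        gcongr
    _ = _ := by field_simp; ring

lemma point (B : Big u (lg Q)) {m : ℕ} (hm : m ∈ Ico 1 (4 * Q ^ 2)) :
    bad u Q m ≤ ∑ j ∈ Ico (lg Q / u) (lg Q + 2), ∑ p ∈ box j, ∑ p' ∈ box j,
        dd m (p * p') * rr (zz u Q) m +
      ∑ d ∈ Ioc (2 ^ (7 * lg Q / 10 - Nat.sqrt (lg Q)))
        (2 ^ (7 * lg Q / 10 - Nat.sqrt (lg Q) + Nat.sqrt (lg Q))), dd m d * rr (zz u Q) m +
      ∑ d ∈ Ioc (2 ^ (lg Q - 2 * Nat.sqrt (lg Q)))
        (2 ^ (lg Q - 2 * Nat.sqrt (lg Q) + (2 * Nat.sqrt (lg Q) + 2))), dd m d * rr (zz u Q) m := by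
  have hm' := mem_Ico.1 hm
  have h5 := B.h5
  have one : ∀ d, rough (zz u Q) m → d ∣ m → dd m d * rr (zz u Q) m = 1 := fun d h1 h2 => by
    rw [rr_of_rough h1, dd, if_pos h2, one_mul]
  have s1 : ∀ s : Finset ℕ, 0 ≤ ∑ d ∈ s, dd m d * rr (zz u Q) m :=
    fun s => sum_nonneg fun _ _ => nn _ _ _
  have s2 : ∀ (j p : ℕ), 0 ≤ ∑ p' ∈ box j, dd m (p * p') * rr (zz u Q) m :=
    fun j p => sum_nonneg fun _ _ => nn _ _ _
  have s3 : ∀ j : ℕ, 0 ≤ ∑ p ∈ box j, ∑ p' ∈ box j, dd m (p * p') * rr (zz u Q) m :=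
    fun j => sum_nonneg fun _ _ => s2 _ _
  have s4 : 0 ≤ ∑ j ∈ Ico (lg Q / u) (lg Q + 2), ∑ p ∈ box j, ∑ p' ∈ box j,
      dd m (p * p') * rr (zz u Q) m := sum_nonneg fun _ _ => s3 _
  unfold bad
  split_ifs with hb
  swap
  · exact add_nonneg (add_nonneg s4 (s1 _)) (s1 _)
  obtain ⟨hr, ⟨j, p, p', hp, hp', hd⟩ | ⟨d, hd, ⟨h1, h2⟩ | ⟨h1, h2⟩⟩⟩ := hb
  · obtain ⟨a1, a2, a3⟩ := mem_PP.1 hp
    obtain ⟨b1, -, -⟩ := mem_PP.1 hp'
    have hj : j ∈ Ico (lg Q / u) (lg Q + 2) := by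
      refine mem_Ico.2 ⟨?_, ?_⟩
      · have h1 : 2 ^ (lg Q / u) < 2 ^ (j + 1) :=
          (hr p a3 ((dvd_mul_right p p').trans hd)).trans_le a2
        have := (Nat.pow_lt_pow_iff_right (by norm_num)).1 h1
        omega
      · have h1 := Nat.le_of_dvd hm'.1 hd
        have h2 := lt_two_pow_lg Q
        have h3 : 2 ^ (2 * j) < 2 ^ (2 * (lg Q + 2)) :=
          calc 2 ^ (2 * j) = 2 ^ j * 2 ^ j := by ring
            _ ≤ p * p' := Nat.mul_le_mul a1.le b1.le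
            _ < 4 * Q ^ 2 := h1.trans_lt hm'.2
            _ ≤ 4 * (2 ^ (lg Q + 1)) ^ 2 := by gcongr
            _ = _ := by ring
        have := (Nat.pow_lt_pow_iff_right (by norm_num)).1 h3
        omega
    refine le_add_of_le_of_nonneg (le_add_of_le_of_nonneg ?_ (s1 _)) (s1 _)
    refine le_trans ?_ (single_le_sum (fun j _ => s3 j) hj)
    refine le_trans ?_ (single_le_sum (fun p _ => s2 j p) hp)
    exact (one _ hr hd).ge.trans
      (single_le_sum (f := fun p' => dd m (p * p') * rr (zz u Q) m) (fun _ _ => nn _ _ _) hp')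
  · refine le_add_of_le_of_nonneg (le_add_of_nonneg_of_le s4 ?_) (s1 _)
    have e : 7 * lg Q / 10 - Nat.sqrt (lg Q) + Nat.sqrt (lg Q) = 7 * lg Q / 10 := by omega
    refine (one _ hr hd).ge.trans
      (single_le_sum (f := fun d => dd m d * rr (zz u Q) m) (fun _ _ => nn _ _ _)
        (mem_Ioc.2 ⟨?_, by rw [e]; exact h2⟩))
    unfold DD om at h1
    rw [← e, pow_add] at h1
    exact lt_of_mul_lt_mul_right h1 (Nat.zero_le _)
  · refine le_add_of_nonneg_of_le (add_nonneg s4 (s1 _)) ?_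
    have e : lg Q - 2 * Nat.sqrt (lg Q) + Nat.sqrt (lg Q) * 2 = lg Q := by omega
    refine (one _ hr hd).ge.trans
      (single_le_sum (f := fun d => dd m d * rr (zz u Q) m) (fun _ _ => nn _ _ _)
        (mem_Ioc.2 ⟨?_, h2.trans (Nat.pow_le_pow_right (by norm_num) (by omega))⟩))
    unfold om at h1
    have h3 : 2 ^ lg Q = 2 ^ (lg Q - 2 * Nat.sqrt (lg Q)) * (2 ^ Nat.sqrt (lg Q)) ^ 2 := by
      rw [← pow_mul, ← pow_add, e]
    rw [h3] at h1
    exact lt_of_mul_lt_mul_right h1 (Nat.zero_le _)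

end BadP

open BadP in
theorem pBad (h : S_Up) : S_Bad := by
  obtain ⟨C, hC, h⟩ := h
  intro u ε hu hε
  set K1 : ℝ := 4 * (1 + 4 * C) ^ 2 * u ^ 2 * (16 + 32 * C * u) with hK1
  set K2 : ℝ := 4 + 64 * C * u * (1 + 8 * C * u) with hK2
  have hK1' : 0 ≤ K1 := by positivity
  have hK2' : 0 ≤ K2 := by positivity
  obtain ⟨c, hc⟩ := exists_nat_ge ((K1 + 2 * K2) / ε)
  rw [div_le_iff₀ hε] at hc
  have ev : ∀ᶠ g : ℕ in atTop, Big u g ∧ c * Nat.sqrt g ≤ g := by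
    filter_upwards [eventually_ge_atTop (2 * u), ev_pow_le_two_pow 1 2,
      tendsto_sqrt.eventually_ge_atTop 1, ev_pow_le_sqrt 1 1, ev_mul_sqrt_le 10,
      ev_mul_sqrt_le c] with g h1 h2 h3 h4 h5 h6
    exact ⟨⟨h1, by simpa using h2, h3, by simpa using h4, h5⟩, h6⟩
  obtain ⟨Q0, hQ0⟩ := ev_lg ev
  refine ⟨max Q0 1, fun Q hQ => ?_⟩
  obtain ⟨B, hcs⟩ := hQ0 Q (le_of_max_le_left hQ)
  have hQ1 : 1 ≤ Q := le_of_max_le_right hQ
  have h3 := B.h3
  have h5 := B.h5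
  have hg : (0 : ℝ) < lg Q := by have := B.h1; exact_mod_cast (by omega : 0 < lg Q)
  have hs : (1 : ℝ) ≤ Nat.sqrt (lg Q) := by exact_mod_cast h3
  have hcs' : (c : ℝ) * Nat.sqrt (lg Q) ≤ lg Q := by exact_mod_cast hcs
  refine (sum_le_sum fun m hm => point B hm).trans ?_
  rw [sum_add_distrib, sum_add_distrib, sum_comm, sum_comm (s := Ico 1 (4 * Q ^ 2)),
    sum_comm (s := Ico 1 (4 * Q ^ 2))]
  have e : ∀ j, ∑ m ∈ Ico 1 (4 * Q ^ 2), ∑ p ∈ box j, ∑ p' ∈ box j,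
      dd m (p * p') * rr (zz u Q) m = ∑ p ∈ box j, ∑ p' ∈ box j,
        ∑ m ∈ Ico 1 (4 * Q ^ 2), dd m (p * p') * rr (zz u Q) m := fun j => by
    rw [sum_comm]
    exact sum_congr rfl fun p _ => sum_comm
  simp only [e]
  refine (add_le_add (add_le_add (pairs hC h hu hQ1 B)
    (window hC h hu hQ1 B (by omega) (by omega) (by omega)))
    (window hC h hu hQ1 B (by omega) (by omega) (by omega))).trans ?_
  rw [← hK1, ← hK2]
  have k : K1 + 2 * K2 * Nat.sqrt (lg Q) ≤ ε * lg Q :=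
    calc _ ≤ (K1 + 2 * K2) * Nat.sqrt (lg Q) := by nlinarith
      _ ≤ c * ε * Nat.sqrt (lg Q) := by gcongr
      _ ≤ _ := by nlinarith
  calc _ = (K1 + 2 * K2 * Nat.sqrt (lg Q)) * (Q : ℝ) ^ 2 / (lg Q : ℝ) ^ 2 := by ring
    _ ≤ ε * lg Q * (Q : ℝ) ^ 2 / (lg Q : ℝ) ^ 2 := by gcongr
    _ = _ := by field_simp

end Pool.Agent.P.MP_746f10_nt.AP
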