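import Pool.Agent.P.MP_746f10_nt.AP.Base

/-! The inequality of Cauchy and windows for the bilinear form. -/

namespace Pool.Agent.P.MP_746f10_nt.AP

open Finset ComplexConjugate

namespace CSWP

/-- sums over full periods -/
lemma sum_period (a T : ℕ) [NeZero a] (g : ZMod a → ℝ) :
    ∑ y ∈ range (a * T), g y = T * ∑ y : ZMod a, g y := by
  have h1 : ∑ b ∈ range a, g b = ∑ y : ZMod a, g y :=
    sum_nbij' (fun b => (b : ZMod a)) (fun y => y.val) (fun _ _ => mem_univ _)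
      (fun y _ => mem_range.2 (ZMod.val_lt y)) (fun b hb => ZMod.val_cast_of_lt (mem_range.1 hb))
      (fun y _ => ZMod.natCast_zmod_val y) (fun _ _ => rfl)
  have h2 := sum_rows a 0 T (Nat.zero_le T) (fun m => g m)
  rw [mul_zero, ← range_eq_Ico, ← range_eq_Ico] at h2
  rw [← h2]
  have h3 : ∀ n ∈ range T, ∑ b ∈ range a, g ((a * n + b : ℕ) : ZMod a) = ∑ y : ZMod a, g y := by
    intro n _
    rw [← h1]
    refine sum_congr rfl fun b _ => ?_
    push_cast
    rw [ZMod.natCast_self, zero_mul, zero_add]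
  rw [sum_congr rfl h3, sum_const, card_range, nsmul_eq_mul]

/-- shifting a sum whose terms vanish at both ends -/
lemma sum_shift (W : ℕ → ℂ) (L J j : ℕ) (hj : j < J) (h1 : ∀ l, l < J → W l = 0)
    (h2 : ∀ l, L ≤ l → W l = 0) : ∑ y ∈ range L, W (y + j) = ∑ l ∈ range L, W l := by
  have e1 := sum_range_add W L j
  have e2 := sum_range_add W j L
  rw [sum_eq_zero (fun i _ => h2 _ (Nat.le_add_right L i)), add_zero] at e1
  rw [sum_eq_zero (fun i hi => h1 i ((mem_range.1 hi).trans hj)), zero_add, add_comm j L, e1] at e2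
  rw [e2]
  exact sum_congr rfl fun y _ => by rw [add_comm]

lemma nr_bd {a : ℕ} (Y : ℕ) (x : ZMod a) : 0 ≤ nr Y x := by unfold nr; split_ifs <;> norm_num

variable {a : ℕ} [Fact a.Prime]

/-- a window that meets two rows lies near a multiple of the modulus -/
lemma nr_one {k K2 J y j0 j : ℕ} (hk : k ≤ K2) (h0 : j0 < J) (hj : j < J)
    (h : k * (y + j0) / a ≠ k * y / a) :
    nr (K2 * J) ((k : ZMod a) * ((y : ZMod a) + (j : ZMod a))) = 1 := by
  have ha : 0 < a := (Fact.out : a.Prime).pos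
  have e : (k : ZMod a) * ((y : ZMod a) + (j : ZMod a)) = ((k * y % a + k * j : ℕ) : ZMod a) := by
    push_cast; rw [ZMod.natCast_mod]; push_cast; ring
  have hr : k * y % a < a := Nat.mod_lt _ ha
  have h1 : k * j0 ≤ K2 * J := Nat.mul_le_mul hk h0.le
  have h2 : k * j ≤ K2 * J := Nat.mul_le_mul hk hj.le
  have h3 : a ≤ k * y % a + k * j0 := by
    by_contra h4
    apply h
    have e2 : k * (y + j0) = a * (k * y / a) + (k * y % a + k * j0) := by
      rw [← add_assoc, Nat.div_add_mod, mul_add]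
    rw [e2, Nat.mul_add_div ha, Nat.div_eq_of_lt (not_le.1 h4), add_zero]
  unfold nr
  rw [if_pos]
  rw [e, ZMod.val_natCast]
  rcases lt_or_ge (k * y % a + k * j) a with h5 | h5
  · right; rw [Nat.mod_eq_of_lt h5]; omega
  · left
    rw [Nat.mod_eq_sub_mod h5]
    exact (Nat.mod_le _ _).trans (by omega)

/-- the bound for one window -/
lemma window (f : ZMod a → ℂ) (t : ℕ → ℂ) (ht : ∀ n, ‖t n‖ ≤ 1) {k k' K2 : ℕ} (J y : ℕ)
    (hk : k ≤ K2) (hk' : k' ≤ K2) :
    ‖∑ j ∈ range J, t (k * (y + j) / a) * f ((k * (y + j) : ℕ) : ZMod a) *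
        conj (t (k' * (y + j) / a) * f ((k' * (y + j) : ℕ) : ZMod a))‖ ≤
      ‖∑ j ∈ range J, f (k * (y + j)) * conj (f (k' * (y + j)))‖ +
        ∑ j ∈ range J, ‖f (k * (y + j))‖ * ‖f (k' * (y + j))‖ *
          (nr (a := a) (K2 * J) (k * (y + j)) + nr (a := a) (K2 * J) (k' * (y + j))) := by
  by_cases hc : ∀ j, j < J → k * (y + j) / a = k * y / a ∧ k' * (y + j) / a = k' * y / a
  · have e : ∑ j ∈ range J, t (k * (y + j) / a) * f ((k * (y + j) : ℕ) : ZMod a) *
        conj (t (k' * (y + j) / a) * f ((k' * (y + j) : ℕ) : ZMod a)) =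
        t (k * y / a) * conj (t (k' * y / a)) *
          ∑ j ∈ range J, f (k * (y + j)) * conj (f (k' * (y + j))) := by
      rw [mul_sum]
      refine sum_congr rfl fun j hj => ?_
      rw [(hc j (mem_range.1 hj)).1, (hc j (mem_range.1 hj)).2, map_mul]
      push_cast; ring
    rw [e, norm_mul, norm_mul, Complex.norm_conj]
    refine le_trans (mul_le_of_le_one_left (norm_nonneg _)
      (mul_le_one₀ (ht _) (norm_nonneg _) (ht _))) (le_add_of_nonneg_right ?_)
    exact sum_nonneg fun j _ => mul_nonneg (by positivity) (add_nonneg (nr_bd _ _) (nr_bd _ _))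
  · refine le_trans ?_ (le_add_of_nonneg_left (norm_nonneg _))
    refine (norm_sum_le _ _).trans (sum_le_sum fun j hj => ?_)
    have h1 : 1 ≤ nr (a := a) (K2 * J) (k * (y + j)) + nr (a := a) (K2 * J) (k' * (y + j)) := by
      push Not at hc
      obtain ⟨j0, h0, h1⟩ := hc
      by_cases h2 : k * (y + j0) / a = k * y / a
      · rw [nr_one hk' h0 (mem_range.1 hj) (h1 h2)]
        exact le_add_of_nonneg_left (nr_bd _ _)
      · rw [nr_one hk h0 (mem_range.1 hj) h2]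
        exact le_add_of_nonneg_right (nr_bd _ _)
    refine le_trans ?_ (le_mul_of_one_le_right (by positivity) h1)
    rw [norm_mul, Complex.norm_conj, norm_mul, norm_mul]
    push_cast
    exact mul_le_mul (mul_le_of_le_one_left (norm_nonneg _) (ht _))
      (mul_le_of_le_one_left (norm_nonneg _) (ht _)) (by positivity) (norm_nonneg _)

lemma Hf_nonneg (f : ZMod a → ℂ) (Y : ℕ) (x : ZMod a) : 0 ≤ Hf f Y x :=
  mul_nonneg (by positivity) (sum_nonneg fun _ _ => mul_nonneg (by positivity) (nr_bd _ _))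

/-- change of variables in the error term -/
lemma sum_H (f : ZMod a → ℂ) (Y : ℕ) (x : ZMod a) {x' : ZMod a} (hx : x' ≠ 0) (s : ZMod a) :
    ∑ y : ZMod a, ‖f (x * (y + s))‖ * ‖f (x' * (y + s))‖ * nr Y (x * (y + s)) =
      a * Hf f Y (x * x'⁻¹) := by
  have ha : (a : ℝ) ≠ 0 := by exact_mod_cast (Fact.out : a.Prime).ne_zero
  unfold Hf
  rw [← mul_assoc, mul_one_div_cancel ha, one_mul]
  refine Fintype.sum_equiv ((Equiv.addRight s).trans (Equiv.mulLeft₀ x' hx)) _ _ fun y => ?_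
  have e : x * x'⁻¹ * (x' * (y + s)) = x * (y + s) := by field_simp
  simp only [Equiv.trans_apply, Equiv.coe_addRight, Equiv.mulLeft₀_apply, e]

/-- the mean of the window averages -/
lemma sum_G (f : ZMod a → ℂ) (J k k' : ℕ) :
    ∑ y : ZMod a, ‖1 / (J : ℂ) * ∑ j ∈ range J, f (k * (y + j)) * conj (f (k' * (y + j)))‖ ≤
      a * √(Gf f J k k') := by
  have ha : (0 : ℝ) < a := by exact_mod_cast (Fact.out : a.Prime).pos
  have h1 := sq_sum_le_card_mul_sum_sq (s := (univ : Finset (ZMod a))) (f := fun y =>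
    ‖1 / (J : ℂ) * ∑ j ∈ range J, f (k * (y + j)) * conj (f (k' * (y + j)))‖)
  rw [card_univ, ZMod.card] at h1
  have h0 : 0 ≤ Gf f J k k' := mul_nonneg (by positivity) (sum_nonneg fun _ _ => by positivity)
  refine abs_le_of_sq_le_sq' ?_ (by positivity) |>.2
  rw [mul_pow, Real.sq_sqrt h0]
  refine h1.trans (le_of_eq ?_)
  unfold Gf
  rw [← mul_assoc, sq (a : ℝ), mul_assoc (a : ℝ), mul_one_div_cancel ha.ne', mul_one]

/-- the bound for one pair -/
lemma pair (f : ZMod a → ℂ) (t : ℕ → ℂ) (ht : ∀ n, ‖t n‖ ≤ 1) {k k' K2 J T : ℕ} (hJ : 1 ≤ J)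
    (hk : k ≤ K2) (hk' : k' ≤ K2) (h0 : (k : ZMod a) ≠ 0) (h0' : (k' : ZMod a) ≠ 0)
    (h1 : ∀ l, l < J → t (k * l / a) = 0) (h2 : ∀ l, a * T ≤ l → t (k * l / a) = 0) :
    ‖∑ l ∈ range (a * T), t (k * l / a) * f ((k * l : ℕ) : ZMod a) *
        conj (t (k' * l / a) * f ((k' * l : ℕ) : ZMod a))‖ ≤
      a * T * (√(Gf f J k k') + Hf f (K2 * J) ((k : ZMod a) * (k' : ZMod a)⁻¹) +
        Hf f (K2 * J) ((k' : ZMod a) * (k : ZMod a)⁻¹)) := by
  have hJ' : (0 : ℝ) < J := by exact_mod_cast hJ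
  have hJc : (J : ℂ) ≠ 0 := by exact_mod_cast hJ'.ne'
  set W : ℕ → ℂ := fun l => t (k * l / a) * f ((k * l : ℕ) : ZMod a) *
    conj (t (k' * l / a) * f ((k' * l : ℕ) : ZMod a)) with hW
  have e1 : (J : ℂ) * ∑ l ∈ range (a * T), W l =
      ∑ y ∈ range (a * T), ∑ j ∈ range J, W (y + j) := by
    rw [sum_comm, sum_congr rfl fun j hj => sum_shift W (a * T) J j (mem_range.1 hj)
      (fun l hl => by simp only [hW, h1 l hl, zero_mul])
      (fun l hl => by simp only [hW, h2 l hl, zero_mul]), sum_const, card_range, nsmul_eq_mul]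
  set g : ZMod a → ℝ := fun y => ‖∑ j ∈ range J, f (k * (y + j)) * conj (f (k' * (y + j)))‖ +
    ∑ j ∈ range J, ‖f (k * (y + j))‖ * ‖f (k' * (y + j))‖ *
      (nr (a := a) (K2 * J) (k * (y + j)) + nr (a := a) (K2 * J) (k' * (y + j))) with hg
  have h3 : (J : ℝ) * ‖∑ l ∈ range (a * T), W l‖ ≤ T * ∑ y : ZMod a, g y := by
    rw [← sum_period, ← Complex.norm_natCast J, ← norm_mul, e1]
    exact (norm_sum_le _ _).trans (sum_le_sum fun y _ => window f t ht J y hk hk')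
  have h4 : ∑ y : ZMod a, ‖∑ j ∈ range J, f (k * (y + j)) * conj (f (k' * (y + j)))‖ ≤
      J * (a * √(Gf f J k k')) := by
    refine le_trans (le_of_eq ?_) (mul_le_mul_of_nonneg_left (sum_G f J k k') hJ'.le)
    rw [mul_sum]
    refine sum_congr rfl fun y _ => ?_
    rw [← Complex.norm_natCast J, ← norm_mul, ← mul_assoc, mul_one_div_cancel hJc, one_mul]
  have h5 : ∑ y : ZMod a, ∑ j ∈ range J, ‖f (k * (y + j))‖ * ‖f (k' * (y + j))‖ *
      (nr (a := a) (K2 * J) (k * (y + j)) + nr (a := a) (K2 * J) (k' * (y + j))) =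
      J * (a * Hf f (K2 * J) ((k : ZMod a) * (k' : ZMod a)⁻¹) +
        a * Hf f (K2 * J) ((k' : ZMod a) * (k : ZMod a)⁻¹)) := by
    rw [sum_comm, sum_congr rfl fun j _ => ?_, sum_const, card_range, nsmul_eq_mul]
    rw [← sum_H f _ _ h0' j, ← sum_H f _ _ h0 j, ← sum_add_distrib]
    exact sum_congr rfl fun y _ => by ring
  have h6 : ∑ y : ZMod a, g y ≤ J * (a * (√(Gf f J k k') +
      Hf f (K2 * J) ((k : ZMod a) * (k' : ZMod a)⁻¹) +
        Hf f (K2 * J) ((k' : ZMod a) * (k : ZMod a)⁻¹))) := by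
    rw [hg, sum_add_distrib, h5]
    linarith
  refine le_of_mul_le_mul_left (h3.trans ?_) hJ'
  refine (mul_le_mul_of_nonneg_left h6 (Nat.cast_nonneg T)).trans (le_of_eq ?_)
  ring

/-- the bilinear form as a double sum -/
lemma Bf_eq {N K K2 : ℕ} (α β u : ℕ → ℂ) (f : ZMod a → ℂ) (hK : 1 ≤ K) (hN : K ≤ N)
    (hα : ∀ k, α k ≠ 0 → K < k ∧ k ≤ K2) (hf : f 0 = 0) :
    Bf a N (cv α β) u (fun b => f b) = ∑ l ∈ range (a * (2 * N / K + 1)), β l *
      ∑ k ∈ Icc 1 K2, α k * ((if k * l / a ∈ Ico N (2 * N) then u (k * l / a) else 0) *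
        f ((k * l : ℕ) : ZMod a)) := by
  have ha : 0 < a := (Fact.out : a.Prime).pos
  set φ : ℕ → ℂ := fun m => (if m / a ∈ Ico N (2 * N) then u (m / a) else 0) * f (m : ZMod a)
    with hφ
  have e1 : Bf a N (cv α β) u (fun b => f b) =
      ∑ m ∈ Ico (a * N) (a * (2 * N)), cv α β m * φ m := by
    rw [← sum_rows a N (2 * N) (by omega)]
    refine sum_congr rfl fun n hn => ?_
    have e0 : ∀ b, ((a * n + b : ℕ) : ZMod a) = b := fun b => by
      push_cast; rw [ZMod.natCast_self, zero_mul, zero_add]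
    rw [range_eq_Ico, sum_eq_sum_Ico_succ_bot ha]
    simp only [hφ, e0, Nat.cast_zero, hf, mul_zero, zero_add]
    refine sum_congr rfl fun b hb => ?_
    rw [row_div hb, if_pos hn, mul_assoc]
  set S := Icc 1 K2 ×ˢ range (a * (2 * N / K + 1)) with hS
  have e2 : ∑ l ∈ range (a * (2 * N / K + 1)), β l * ∑ k ∈ Icc 1 K2, α k * φ (k * l) =
      ∑ x ∈ S, α x.1 * β x.2 * φ (x.1 * x.2) := by
    rw [hS, sum_product_right]
    refine sum_congr rfl fun l _ => ?_
    rw [mul_sum]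
    exact sum_congr rfl fun k _ => by ring
  rw [e1]
  refine Eq.trans ?_ e2.symm
  rw [← sum_filter_of_ne (p := fun x : ℕ × ℕ => x.1 * x.2 ∈ Ico (a * N) (a * (2 * N))),
    ← sum_fiberwise_eq_sum_filter]
  · refine sum_congr rfl fun m hm => ?_
    have hm' := mem_Ico.1 hm
    have hm0 : m ≠ 0 := by
      have : 0 < a * N := Nat.mul_pos ha (by omega)
      omega
    unfold cv
    rw [sum_mul]
    symm
    refine sum_subset_zero_on_sdiff (fun x hx => ?_) (fun x hx => ?_) (fun x hx => ?_)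
    · exact Nat.mem_divisorsAntidiagonal.2 ⟨(mem_filter.1 hx).2, hm0⟩
    · obtain ⟨h1, h2⟩ := mem_sdiff.1 hx
      have h3 := (Nat.mem_divisorsAntidiagonal.1 h1).1
      by_contra h4
      have h5 := hα x.1 (left_ne_zero_of_mul (left_ne_zero_of_mul h4))
      refine h2 (mem_filter.2 ⟨mem_product.2 ⟨mem_Icc.2 ⟨by omega, h5.2⟩, mem_range.2 ?_⟩, h3⟩)
      have h6 : 2 * N < K * (2 * N / K + 1) := Nat.lt_mul_div_succ _ hK
      refine lt_of_mul_lt_mul_left (a := K) ?_ (Nat.zero_le K)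
      calc K * x.2 ≤ x.1 * x.2 := Nat.mul_le_mul_right _ h5.1.le
        _ < a * (2 * N) := h3 ▸ hm'.2
        _ ≤ a * (K * (2 * N / K + 1)) := Nat.mul_le_mul_left _ h6.le
        _ = _ := by ring
    · rw [(mem_filter.1 hx).2]
  · intro x _ h
    have h1 : x.1 * x.2 / a ∈ Ico N (2 * N) := by
      by_contra h2
      exact h (by simp only [hφ, if_neg h2, zero_mul, mul_zero])
    rw [mem_Ico] at h1 ⊢
    exact ⟨by rw [mul_comm a]; exact (Nat.le_div_iff_mul_le ha).1 h1.1,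
      by rw [mul_comm a]; exact (Nat.div_lt_iff_lt_mul ha).1 h1.2⟩

end CSWP

open CSWP in
theorem pCSW : S_CSW := by
  intro a _ N K K2 J α β u f hK hN hK2 hJ hKJ hα hβ hu hs hf
  have ha : 0 < a := (Fact.out : a.Prime).pos
  rw [Bf_eq α β u f hK hN hs hf]
  set T := 2 * N / K + 1 with hT
  set t : ℕ → ℂ := fun n => if n ∈ Ico N (2 * N) then u n else 0 with ht
  have ht1 : ∀ n, ‖t n‖ ≤ 1 := fun n => by
    simp only [ht]; split_ifs
    exacts [hu n, by simp]
  set φ : ℕ → ℂ := fun m => t (m / a) * f (m : ZMod a) with hφ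
  set H : ℕ → ℕ → ℝ := fun k k' => Hf f (K2 * J) ((k : ZMod a) * (k' : ZMod a)⁻¹) with hH
  change ‖∑ l ∈ range (a * T), β l * ∑ k ∈ Icc 1 K2, α k * φ (k * l)‖ ^ 2 ≤
    _ * ∑ k ∈ Icc 1 K2, ∑ k' ∈ Icc 1 K2, (√(Gf f J k k') + 2 * H k k')
  have hH0 : ∀ k k', 0 ≤ H k k' := fun _ _ => Hf_nonneg _ _ _
  have h1 : ‖∑ l ∈ range (a * T), β l * ∑ k ∈ Icc 1 K2, α k * φ (k * l)‖ ^ 2 ≤
      (a * T : ℝ) * ∑ l ∈ range (a * T), ‖∑ k ∈ Icc 1 K2, α k * φ (k * l)‖ ^ 2 := by
    have h := sq_sum_le_card_mul_sum_sq (s := range (a * T))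
      (f := fun l => ‖∑ k ∈ Icc 1 K2, α k * φ (k * l)‖)
    rw [card_range, Nat.cast_mul] at h
    refine le_trans (pow_le_pow_left₀ (norm_nonneg _) ?_ 2) h
    refine (norm_sum_le _ _).trans (sum_le_sum fun l _ => ?_)
    rw [norm_mul]
    exact mul_le_of_le_one_left (norm_nonneg _) (hβ l)
  have e2 : ((∑ l ∈ range (a * T), ‖∑ k ∈ Icc 1 K2, α k * φ (k * l)‖ ^ 2 : ℝ) : ℂ) =
      ∑ k ∈ Icc 1 K2, ∑ k' ∈ Icc 1 K2, α k * conj (α k') *
        ∑ l ∈ range (a * T), φ (k * l) * conj (φ (k' * l)) := by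
    push_cast
    simp_rw [← Complex.mul_conj', map_sum, sum_mul_sum, mul_sum]
    rw [sum_comm]
    refine sum_congr rfl fun k _ => ?_
    rw [sum_comm]
    refine sum_congr rfl fun k' _ => sum_congr rfl fun l _ => ?_
    rw [map_mul]; ring
  have hz : ∀ k, K < k → k ≤ K2 → (k : ZMod a) ≠ 0 := fun k h1 h2 h3 => by
    have := Nat.le_of_dvd (by omega) ((ZMod.natCast_eq_zero_iff k a).1 h3)
    omega
  have h3 : ∀ k k', ‖α k * conj (α k') * ∑ l ∈ range (a * T), φ (k * l) * conj (φ (k' * l))‖ ≤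
      a * T * (√(Gf f J k k') + H k k' + H k' k) := by
    intro k k'
    have hp : (0 : ℝ) ≤ a * T * (√(Gf f J k k') + H k k' + H k' k) :=
      mul_nonneg (by positivity) (add_nonneg (add_nonneg (Real.sqrt_nonneg _) (hH0 _ _)) (hH0 _ _))
    by_cases hk : α k = 0
    · rw [hk, zero_mul, zero_mul, norm_zero]; exact hp
    by_cases hk' : α k' = 0
    · rw [hk', map_zero, mul_zero, zero_mul, norm_zero]; exact hp
    have h4 := hs k hk
    have h5 := hs k' hk'
    rw [norm_mul, norm_mul, Complex.norm_conj]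
    refine (mul_le_of_le_one_left (norm_nonneg _)
      (mul_le_one₀ (hα k) (norm_nonneg _) (hα k'))).trans ?_
    refine pair f t ht1 hJ h4.2 h5.2 (hz k h4.1 h4.2) (hz k' h5.1 h5.2) (fun l hl => ?_)
      (fun l hl => ?_)
    · have h6 : k * l < a := by
        calc k * l < k * J := Nat.mul_lt_mul_of_pos_left hl (by omega)
          _ ≤ K2 * J := Nat.mul_le_mul_right _ h4.2
          _ ≤ a := hKJ
      rw [Nat.div_eq_of_lt h6]
      exact if_neg fun h => by have := (mem_Ico.1 h).1; omega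
    · refine if_neg fun h => absurd (mem_Ico.1 h).2 (not_lt.2 ?_)
      have h6 : 2 * N < K * T := Nat.lt_mul_div_succ _ hK
      refine (Nat.le_div_iff_mul_le ha).2 ?_
      calc 2 * N * a ≤ K * T * a := Nat.mul_le_mul_right _ h6.le
        _ = K * (a * T) := by ring
        _ ≤ k * l := Nat.mul_le_mul h4.1.le hl
  have h4 : ∑ l ∈ range (a * T), ‖∑ k ∈ Icc 1 K2, α k * φ (k * l)‖ ^ 2 ≤
      a * T * ∑ k ∈ Icc 1 K2, ∑ k' ∈ Icc 1 K2, (√(Gf f J k k') + 2 * H k k') := by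
    refine (le_abs_self _).trans ?_
    rw [← Real.norm_eq_abs, ← Complex.norm_real, e2]
    refine (norm_sum_le _ _).trans ((sum_le_sum fun k _ => (norm_sum_le _ _).trans
      (sum_le_sum fun k' _ => h3 k k')).trans (le_of_eq ?_))
    simp_rw [← mul_sum, two_mul, ← add_assoc, sum_add_distrib]
    rw [sum_comm (f := fun k k' => H k' k)]
  have hK' : (0 : ℝ) < K := by exact_mod_cast hK
  have h5 : (a * T : ℝ) ≤ 3 * a * N / K := by
    have h6 : (T : ℝ) * K ≤ 3 * N := by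
      have h7 : T * K ≤ 3 * N := by
        have := Nat.div_mul_le_self (2 * N) K
        rw [hT, add_mul]; omega
      exact_mod_cast h7
    rw [le_div_iff₀ hK', mul_assoc]
    calc (a : ℝ) * (T * K) ≤ a * (3 * N) := by gcongr
      _ = _ := by ring
  have h7 : 0 ≤ ∑ k ∈ Icc 1 K2, ∑ k' ∈ Icc 1 K2, (√(Gf f J k k') + 2 * H k k') :=
    sum_nonneg fun k _ => sum_nonneg fun k' _ =>
      add_nonneg (Real.sqrt_nonneg _) (mul_nonneg zero_le_two (hH0 _ _))
  calc _ ≤ _ := h1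
    _ ≤ (a * T : ℝ) * (a * T * ∑ k ∈ Icc 1 K2, ∑ k' ∈ Icc 1 K2, (√(Gf f J k k') + 2 * H k k')) :=
      mul_le_mul_of_nonneg_left h4 (by positivity)
    _ = (a * T : ℝ) ^ 2 * ∑ k ∈ Icc 1 K2, ∑ k' ∈ Icc 1 K2, (√(Gf f J k k') + 2 * H k k') := by ring
    _ ≤ _ := mul_le_mul_of_nonneg_right (pow_le_pow_left₀ (by positivity) h5 2) h7

end Pool.Agent.P.MP_746f10_nt.AP
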