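import Pool.Agent.P.MP_746f10_nt.AP.Base

/-! Products of one prime from each dyadic box. -/

namespace Pool.Agent.P.MP_746f10_nt.AP

open Finset

namespace CSfP

/-- `m` is a product of one prime from each box of `S` -/
def Rp (S : Finset ℕ) (m : ℕ) : Prop := ∃ p : ℕ → ℕ, (∀ j ∈ S, p j ∈ box j) ∧ m = ∏ j ∈ S, p j

lemma box_prime {j p : ℕ} (h : p ∈ box j) : p.Prime := PP_prime h

lemma box_uniq {i j p : ℕ} (hi : p ∈ box i) (hj : p ∈ box j) : i = j := by
  obtain ⟨a1, a2, -⟩ := mem_PP.1 hi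
  obtain ⟨b1, b2, -⟩ := mem_PP.1 hj
  have h1 := (Nat.pow_lt_pow_iff_right (a := 2) (by norm_num)).1 (a1.trans_le b2)
  have h2 := (Nat.pow_lt_pow_iff_right (a := 2) (by norm_num)).1 (b1.trans_le a2)
  omega

lemma prime_dvd {S : Finset ℕ} {p : ℕ → ℕ} (hp : ∀ j ∈ S, p j ∈ box j) {q : ℕ} (hq : q.Prime)
    (h : q ∣ ∏ j ∈ S, p j) : ∃ j ∈ S, q = p j := by
  obtain ⟨j, hj, hd⟩ := (Prime.dvd_finsetProd_iff hq.prime _).1 h
  exact ⟨j, hj, (Nat.prime_dvd_prime_iff_eq hq (box_prime (hp j hj))).1 hd⟩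

open Classical in
lemma CS_eq (S : Finset ℕ) : ∀ m, CS S m = if Rp S m then 1 else 0 := by
  induction S using Finset.induction_on with
  | empty =>
    intro m
    have : Rp ∅ m ↔ m = 1 := ⟨fun ⟨_, _, h⟩ => by simpa using h, fun h => ⟨id, by simp, by simpa⟩⟩
    simp only [CS, prod_empty, ArithmeticFunction.one_apply, this]
  | insert j S hj ih =>
    intro m
    have e : CS (insert j S) m =
        ∑ x ∈ m.divisorsAntidiagonal, if x.1 ∈ box j ∧ Rp S x.2 then (1 : ℝ) else 0 := by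
      rw [CS, prod_insert hj, ArithmeticFunction.mul_apply]
      refine sum_congr rfl fun x _ => ?_
      have := ih x.2
      rw [CS] at this
      rw [this]
      change (if x.1 ∈ box j then (1 : ℝ) else 0) * _ = _
      by_cases h1 : x.1 ∈ box j <;> by_cases h2 : Rp S x.2 <;> simp [h1, h2]
    rw [e]
    split_ifs with h
    · obtain ⟨p, hp, hm⟩ := h
      rw [prod_insert hj] at hm
      have hpj := hp j (mem_insert_self j S)
      have hpS : ∀ i ∈ S, p i ∈ box i := fun i hi => hp i (mem_insert_of_mem hi)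
      have h0 : m ≠ 0 := by
        rw [hm]
        exact mul_ne_zero (box_prime hpj).ne_zero
          (prod_ne_zero_iff.2 fun i hi => (box_prime (hpS i hi)).ne_zero)
      rw [sum_eq_single (p j, ∏ i ∈ S, p i)]
      · rw [if_pos ⟨hpj, p, hpS, rfl⟩]
      · rintro ⟨x, y⟩ hxy hne
        rw [if_neg]
        rintro ⟨hx, -⟩
        have hxy' : x * y = m := (Nat.mem_divisorsAntidiagonal.1 hxy).1
        have hd : x ∣ p j * ∏ i ∈ S, p i := hm ▸ Dvd.intro _ hxy'
        have hx1 : x = p j := by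
          rcases (Nat.Prime.dvd_mul (box_prime hx)).1 hd with h | h
          · exact (Nat.prime_dvd_prime_iff_eq (box_prime hx) (box_prime hpj)).1 h
          · obtain ⟨i, hi, hxi⟩ := prime_dvd hpS (box_prime hx) h
            have : i = j := box_uniq (hpS i hi) (hxi ▸ hx)
            exact absurd (this ▸ hi) hj
        apply hne
        rw [hm, hx1] at hxy'
        rw [hx1, Nat.eq_of_mul_eq_mul_left (box_prime hpj).pos hxy']
      · intro hn
        exact absurd (Nat.mem_divisorsAntidiagonal.2 ⟨hm.symm, h0⟩) hn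
    · refine sum_eq_zero fun x hx => if_neg ?_
      rintro ⟨h1, p, hp, h2⟩
      have hne : ∀ i ∈ S, i ≠ j := fun i hi e => hj (e ▸ hi)
      refine h ⟨Function.update p j x.1, fun i hi => ?_, ?_⟩
      · rcases mem_insert.1 hi with rfl | hi
        · rwa [Function.update_self]
        · rw [Function.update_of_ne (hne i hi)]
          exact hp i hi
      · rw [prod_insert hj, Function.update_self, ← (Nat.mem_divisorsAntidiagonal.1 hx).1, h2]
        congr 1
        exact prod_congr rfl fun i hi => (Function.update_of_ne (hne i hi) _ _).symm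

lemma ne_iff (S : Finset ℕ) (m : ℕ) : CS S m ≠ 0 ↔ Rp S m := by
  rw [CS_eq]
  split_ifs with h <;> simp [h]

lemma Rp.rough {S : Finset ℕ} {m j0 : ℕ} (h : Rp S m) (hj : ∀ j ∈ S, j0 ≤ j) :
    rough (2 ^ j0) m := by
  obtain ⟨p, hp, rfl⟩ := h
  intro q hq hd
  obtain ⟨j, hjS, rfl⟩ := prime_dvd hp hq hd
  exact (Nat.pow_le_pow_right (by norm_num) (hj j hjS)).trans_lt (mem_PP.1 (hp j hjS)).1

lemma Rp.prod_pf {S : Finset ℕ} {m : ℕ} (h : Rp S m) : ∏ q ∈ m.primeFactors, q = m := by
  obtain ⟨p, hp, rfl⟩ := h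
  have e : ∏ q ∈ S.image p, q = ∏ j ∈ S, p j :=
    prod_image fun i hi j hj e => box_uniq (hp i hi) (e ▸ hp j hj)
  rw [← e, Nat.primeFactors_prod]
  intro q hq
  obtain ⟨j, hj, rfl⟩ := mem_image.1 hq
  exact box_prime (hp j hj)

end CSfP

open CSfP in
theorem pCS : S_CS := by
  classical
  refine ⟨fun S m => ?_, fun S m => ne_iff S m, fun S m h => ?_, fun S j0 n m h1 hj hm => ?_,
    fun S T m h => ?_⟩
  · rw [CS_eq]
    split_ifs <;> simp
  · have h' := (ne_iff S m).1 h
    refine ⟨?_, ?_, fun j0 hj => h'.rough hj⟩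
    · obtain ⟨p, hp, rfl⟩ := h'
      intro hS
      rw [← prod_pow_eq_pow_sum]
      exact prod_lt_prod_of_nonempty (fun j _ => by positivity)
        (fun j hj => (mem_PP.1 (hp j hj)).1) hS
    · obtain ⟨p, hp, rfl⟩ := h'
      rw [card_eq_sum_ones, ← sum_add_distrib, ← prod_pow_eq_pow_sum]
      exact prod_le_prod' fun j hj => (mem_PP.1 (hp j hj)).2.1
  · rcases eq_or_ne m 0 with rfl | h0
    · simp
    have hw : 2 ≤ 2 ^ j0 := by
      calc 2 = 2 ^ 1 := rfl
        _ ≤ 2 ^ j0 := Nat.pow_le_pow_right (by norm_num) h1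
    have hc := card_PP_dvd_le (R := m) h0 hw (by rw [← pow_mul]; exact hm)
    simp only [CS_eq, sum_boole]
    have hle : (m.divisors.filter (Rp S)).card ≤
        ((PP (2 ^ j0) m).filter (· ∣ m)).powerset.card := by
      refine card_le_card_of_injOn Nat.primeFactors (fun k hk => ?_) fun k hk l hl e => ?_
      · obtain ⟨hk1, hk2⟩ := mem_filter.1 (mem_coe.1 hk)
        refine mem_coe.2 (mem_powerset.2 fun q hq => ?_)
        have hq1 := Nat.prime_of_mem_primeFactors hq
        have hq2 := Nat.dvd_of_mem_primeFactors hq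
        have hq3 := hq2.trans (Nat.dvd_of_mem_divisors hk1)
        exact mem_filter.2 ⟨mem_PP.2 ⟨hk2.rough hj q hq1 hq2,
          Nat.le_of_dvd (Nat.pos_of_ne_zero h0) hq3, hq1⟩, hq3⟩
      · rw [← (mem_filter.1 (mem_coe.1 hk)).2.prod_pf, ← (mem_filter.1 (mem_coe.1 hl)).2.prod_pf, e]
    rw [card_powerset] at hle
    exact_mod_cast hle.trans (Nat.pow_le_pow_right (by norm_num) hc)
  · rw [CS, prod_union h, ArithmeticFunction.mul_apply]
    rfl

end Pool.Agent.P.MP_746f10_nt.AP
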