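import Pool.Agent.P.MP_746f10_nt.AP.Base

/-! Package Diff: the difference of a bilinear term and its model has small cut norm. -/

namespace Pool.Agent.P.MP_746f10_nt.AP

open Finset Filter

namespace DiffP

lemma Bf_split {ι : Type} (a N : ℕ) (c u v f : ℕ → ℂ) (L : Finset ι) (cf : ι → ℂ)
    (φ : ι → ℕ → ℂ) (h : ∀ b ∈ Ico 1 a, v b = f b + ∑ i ∈ L, cf i * φ i b) :
    Bf a N c u v = Bf a N c u f + ∑ i ∈ L, cf i * Bf a N c u (φ i) := by
  unfold Bf
  simp only [mul_sum]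
  rw [sum_comm (s := L), ← sum_add_distrib]
  refine sum_congr rfl fun n _ => ?_
  rw [sum_comm (s := L), ← sum_add_distrib]
  refine sum_congr rfl fun b hb => ?_
  rw [h b hb, mul_add, mul_sum]
  congr 1
  exact sum_congr rfl fun i _ => by ring

lemma card_le (a g B : ℕ) (hg : 1 ≤ g) : ((Xi a (g ^ B)).card : ℝ) ≤ 3 * (g : ℝ) ^ (2 * B) := by
  have h1 := card_Xi_le a (g ^ B)
  have h2 : 1 ≤ g ^ B := Nat.one_le_pow _ _ hg
  have h3 : (Xi a (g ^ B)).card ≤ 3 * g ^ (2 * B) := by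
    rw [two_mul B, pow_add]
    nlinarith
  exact_mod_cast h3

end DiffP

open DiffP

theorem pDiff (h1 : S_Split) (h2 : S_Minor) (h3 : S_Major) (h4 : S_Match) : S_Diff := by
  intro u A hu
  obtain ⟨B, Cτ, h2⟩ := h2 (A + 1) (3 * u)
  obtain ⟨Q1, h2⟩ := h2 (2 * B + 2 * Cτ + 1)
  obtain ⟨A', CL, Q2, h3⟩ := h3 u (A + 1 + (2 * B + 2 * Cτ + 1)) B hu
  obtain ⟨Q3, h5⟩ := ev_lg ((ev_pow_le_div 12 (2 * B + 3 * Cτ) 2 (by norm_num)).and
    (eventually_ge_atTop 4))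
  refine ⟨A', B, CL, max Q1 (max Q2 (max Q3 1)), fun Q a w d L' hQ ha a1 a2 hG hw l1 l2 U v hU hv => ?_⟩
  simp only [max_le_iff] at hQ
  obtain ⟨q1, q2, q3, q4⟩ := hQ
  obtain ⟨g1, g2⟩ := h5 Q q3
  have : Fact a.Prime := ⟨ha⟩
  have g4 : (4 : ℝ) ≤ lg Q := by exact_mod_cast g2
  have g0 : (0 : ℝ) < lg Q := by linarith
  have hX := card_le a (lg Q) B (by omega)
  have hs : (2 : ℝ) ^ (lg Q / 2) ≤ √a := by
    refine Real.le_sqrt_of_sq_le ?_
    have : (2 ^ (lg Q / 2)) ^ 2 ≤ a := by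
      rw [← pow_mul]
      exact (Nat.pow_le_pow_right (by norm_num) (by omega)).trans ((two_pow_lg_le q4).trans a1)
    exact_mod_cast this
  obtain ⟨L, cf, f, s1, s2, s3, s4⟩ := h1 a (fun y => if y = 0 then 0 else v y.val)
    (Xi a (lg Q ^ B)) (1 / (lg Q : ℝ) ^ Cτ) (by positivity)
    (by rw [div_le_one (by positivity)]; exact one_le_pow₀ (by linarith))
    (fun y => by split_ifs; simp; exact hv _) (if_pos rfl) (by
      have e : (12 : ℝ) * (lg Q : ℝ) ^ (2 * B + 3 * Cτ) ≤ 2 ^ (lg Q / 2) := by exact_mod_cast g1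
      rw [div_pow, one_pow, ← pow_mul, one_div_mul_eq_div, le_div_iff₀ (by positivity)]
      refine le_trans ?_ (e.trans hs)
      rw [pow_add, mul_comm Cτ 3, ← mul_assoc]
      exact mul_le_mul_of_nonneg_right (by linarith) (by positivity))
  have hL : 1 + (L.card : ℝ) ≤ (lg Q : ℝ) ^ (2 * B + 2 * Cτ + 1) := by
    rw [div_pow, one_pow, ← pow_mul, div_div_eq_mul_div, div_one, mul_comm Cτ 2] at s2
    have e1 : (1 : ℝ) ≤ (lg Q : ℝ) ^ (2 * B + 2 * Cτ) := one_le_pow₀ (by linarith)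
    have e2 : (L.card : ℝ) ≤ 3 * (lg Q : ℝ) ^ (2 * B + 2 * Cτ) := by
      rw [pow_add, ← mul_assoc]
      exact s2.trans (by gcongr)
    rw [pow_succ]
    nlinarith
  have m := (h4 d.be w 0 0 L' d.be01).2.1
  have b1 := h2 Q a d.K (fun k => (d.al k : ℂ)) (fun l => (ga d.be w L' l : ℂ)) U f q1 a1 a2 d.hK
    d.hK' (fun k => by
      rw [Complex.norm_real, Real.norm_of_nonneg (d.al01 k).1]
      exact (d.al01 k).2.trans (rr_bd w k).2)
    (fun l => by
      rw [Complex.norm_real]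
      exact (m l).trans (rr_bd w l).2) hU
    (fun k hk => d.alS k fun e => hk (by simp [e])) (s4.mono hL)
  simp only [← funext (cv_ofReal d.al (ga d.be w L'))] at b1
  rw [Bf_split a Q _ U v (fun b => f b) L cf (fun φ b => ch φ.1 φ.2 b) fun b hb => by
    have hb' := mem_Ico.1 hb
    have e : ((b : ZMod a)).val = b := ZMod.val_cast_of_lt hb'.2
    have := s3 b
    rwa [if_neg (fun z => by rw [z, ZMod.val_zero] at e; omega), e] at this]
  refine (norm_add_le _ _).trans ?_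
  have b2 : ‖∑ φ ∈ L, cf φ * Bf a Q (fun m => ((cv d.al (ga d.be w L') m : ℝ) : ℂ)) U
      (fun b => ch φ.1 φ.2 b)‖ ≤
      L.card * (a * Q / (lg Q : ℝ) ^ (A + 1 + (2 * B + 2 * Cτ + 1))) := by
    rw [← nsmul_eq_mul]
    refine (norm_sum_le _ _).trans (sum_le_card_nsmul _ _ _ fun φ hφ => ?_)
    rw [norm_mul]
    exact (mul_le_of_le_one_left (norm_nonneg _) (s1 φ hφ).2).trans
      (h3 Q a w d L' φ.1 φ.2 U q2 a1 a2 hG hw l1 l2 (s1 φ hφ).1 hU)
  have b3 : L.card * (a * Q / (lg Q : ℝ) ^ (A + 1 + (2 * B + 2 * Cτ + 1))) ≤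
      a * Q / (lg Q : ℝ) ^ (A + 1) := by
    rw [pow_add _ (A + 1), ← div_div, ← mul_div_assoc, div_le_iff₀ (by positivity), mul_comm]
    gcongr
    linarith
  have b4 : (a : ℝ) * Q / (lg Q : ℝ) ^ (A + 1) ≤ 1 / (lg Q : ℝ) ^ A * a * Q / 2 := by
    rw [pow_succ, ← div_div, mul_assoc, one_div_mul_eq_div]
    gcongr
    linarith
  linarith

end Pool.Agent.P.MP_746f10_nt.AP
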