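import Pool.Agent.P.MP_746f10_nt.AP.Base

/-! The number of exceptional moduli. -/

namespace Pool.Agent.P.MP_746f10_nt.AP

open Finset Filter
open Pool.Agent.P.MP_a14ce1_nt.Ch (nit)

namespace ExcP

open Classical in
/-- the moduli with a large character sum on one box with given coefficients -/
noncomputable def Ex (A Q j : ℕ) (c : ℕ → ℂ) : Finset ℕ :=
  (range (2 * Q + 1)).filter fun a => a.Prime ∧ ∃ (χ : DirichletCharacter ℂ a) (t : ℝ), χ ≠ 1 ∧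
    |t| ≤ 4 * (Q : ℝ) ^ 2 ∧
    1 / (lg Q : ℝ) ^ A ≤ ‖∑ p ∈ box j, χ p * c p / (p : ℂ) * nit t p‖

lemma num (u A : ℕ) (hu : 1 ≤ u) : ∃ Q0 : ℕ, ∀ Q, Q0 ≤ Q → 1 ≤ lg Q ∧ ∀ j, lg Q / u ≤ j →
    (14 * u) ^ (14 * u) * (8 * Q ^ 2 * (1 + 2 * (4 * Q ^ 2) * (14 * u))) *
      (lg Q ^ A) ^ (2 * (14 * u)) ≤ (2 ^ j) ^ (14 * u) := by
  obtain ⟨Q0, hQ0⟩ := ev_lg ((ev_pow_le_div ((14 * u) ^ (14 * u) * (72 * (14 * u) * 16))
    (A * (2 * (14 * u))) 1 le_rfl).and (eventually_ge_atTop (2 * u)))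
  refine ⟨max Q0 1, fun Q hQ => ?_⟩
  obtain ⟨h1, h2⟩ := hQ0 Q (le_of_max_le_left hQ)
  have hQ1 : 1 ≤ Q := le_of_max_le_right hQ
  refine ⟨by omega, fun j hj => ?_⟩
  set g := lg Q with hg
  rw [Nat.div_one] at h1
  have h3 : Q ≤ 2 ^ (g + 1) := (lt_two_pow_lg Q).le
  have h4 : 1 + 2 * (4 * Q ^ 2) * (14 * u) ≤ 9 * (14 * u) * Q ^ 2 := by
    have : 1 ≤ Q ^ 2 * u := Nat.mul_pos (pow_pos hQ1 2) hu
    nlinarith
  have h5 : Q ^ 4 ≤ 16 * 2 ^ (4 * g) := by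
    calc Q ^ 4 ≤ (2 ^ (g + 1)) ^ 4 := Nat.pow_le_pow_left h3 4
      _ = _ := by ring
  have h6 : 5 * g ≤ j * (14 * u) := by
    have h7 : g < (g / u + 1) * u := by
      have := Nat.div_add_mod g u
      have := Nat.mod_lt g (show 0 < u from hu)
      nlinarith
    have h8 : (g / u + 1) * u ≤ (j + 1) * u := Nat.mul_le_mul_right _ (by omega)
    nlinarith
  calc _ ≤ (14 * u) ^ (14 * u) * (8 * Q ^ 2 * (9 * (14 * u) * Q ^ 2)) *
        (g ^ A) ^ (2 * (14 * u)) := by gcongr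
    _ = (14 * u) ^ (14 * u) * (72 * (14 * u)) * g ^ (A * (2 * (14 * u))) * Q ^ 4 := by
        rw [← pow_mul]; ring
    _ ≤ (14 * u) ^ (14 * u) * (72 * (14 * u)) * g ^ (A * (2 * (14 * u))) *
        (16 * 2 ^ (4 * g)) := by gcongr
    _ = (14 * u) ^ (14 * u) * (72 * (14 * u) * 16) * g ^ (A * (2 * (14 * u))) * 2 ^ (4 * g) := by
        ring
    _ ≤ 2 ^ g * 2 ^ (4 * g) := by gcongr
    _ = 2 ^ (5 * g) := by ring
    _ ≤ 2 ^ (j * (14 * u)) := Nat.pow_le_pow_right (by norm_num) h6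
    _ = _ := by rw [pow_mul]

lemma card_Ex (h : S_HM) (u A : ℕ) (hu : 1 ≤ u) : ∃ Q0 : ℕ, ∀ Q, Q0 ≤ Q → ∀ (j : ℕ) (c : ℕ → ℂ),
    lg Q / u ≤ j → (∀ p, ‖c p‖ ≤ 1) →
    (Ex A Q j c).card ≤ 2 * (2 * (14 * u)) ^ (14 * u) * (lg Q ^ A) ^ (2 * (14 * u)) := by
  obtain ⟨Q0, hQ0⟩ := num u A hu
  refine ⟨Q0, fun Q hQ j c hj hc => ?_⟩
  obtain ⟨h1, h2⟩ := hQ0 Q hQ
  have hg : (0 : ℝ) < lg Q := by exact_mod_cast h1
  have key : ∀ a : ℕ, ∃ (χ : DirichletCharacter ℂ a) (t : ℝ), a ∈ Ex A Q j c → χ ≠ 1 ∧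
      |t| ≤ 4 * (Q : ℝ) ^ 2 ∧
      1 / (lg Q : ℝ) ^ A ≤ ‖∑ p ∈ box j, χ p * c p / (p : ℂ) * nit t p‖ := by
    intro a
    by_cases ha : a ∈ Ex A Q j c
    · classical
      obtain ⟨χ, t, H⟩ := (mem_filter.1 ha).2.2
      exact ⟨χ, t, fun _ => H⟩
    · exact ⟨1, 0, fun H => absurd H ha⟩
  choose χ t H using key
  have hV : (0 : ℝ) < 1 / (lg Q : ℝ) ^ A := by positivity
  have h3 := h Q (2 ^ j) (14 * u) (4 * (Q : ℝ) ^ 2) (1 / (lg Q : ℝ) ^ A) c (Ex A Q j c) χ t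
    (by omega) (Nat.two_pow_pos j) hV (by positivity) hc (fun a ha => by
      classical
      have h4 := mem_filter.1 ha
      have h5 := H a ha
      refine ⟨h4.2.1, by have := mem_range.1 h4.1; omega, h5.1, h5.2.1, ?_⟩
      have e : box j = PP (2 ^ j) (2 * 2 ^ j) := by unfold box; rw [pow_succ']
      rw [← e]; exact h5.2.2) (by
      have h6 : (((14 * u) ^ (14 * u) * (8 * Q ^ 2 * (1 + 2 * (4 * Q ^ 2) * (14 * u))) *
          (lg Q ^ A) ^ (2 * (14 * u)) : ℕ) : ℝ) ≤ (((2 ^ j) ^ (14 * u) : ℕ) : ℝ) := by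
        exact_mod_cast h2 j hj
      rw [one_div, inv_pow, inv_mul_eq_div, le_div_iff₀ (by positivity)]
      push_cast at h6 ⊢
      exact h6)
  rw [one_div, inv_pow, div_inv_eq_mul] at h3
  exact_mod_cast h3

end ExcP

theorem pExc (h : S_HM) : S_Exc := by
  classical
  intro u A B hu
  obtain ⟨Q0, hQ0⟩ := ExcP.card_Ex h u A hu
  obtain ⟨Q1, hQ1⟩ := ev_lg (eventually_ge_atTop (max 2 (2 * (2 * (14 * u)) ^ (14 * u))))
  refine ⟨2 + B + B + 1 + A * (2 * (14 * u)), max Q0 Q1, fun Q hQ => ?_⟩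
  have h1 := hQ0 Q (le_of_max_le_left hQ)
  have h2 := hQ1 Q (le_of_max_le_right hQ)
  have h3 : 2 ≤ lg Q := le_of_max_le_left h2
  have h4 : 2 * (2 * (14 * u)) ^ (14 * u) ≤ lg Q := le_of_max_le_right h2
  refine ⟨(Icc (lg Q / u) (lg Q)).biUnion fun j => (range (lg Q ^ B)).biUnion fun q =>
    (univ : Finset (DirichletCharacter ℂ (q + 1))).biUnion fun ψ =>
      ExcP.Ex A Q j (fun p => ψ p), ?_, ?_⟩
  · have h5 : ∀ j ∈ Icc (lg Q / u) (lg Q), ((range (lg Q ^ B)).biUnion fun q =>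
        (univ : Finset (DirichletCharacter ℂ (q + 1))).biUnion fun ψ =>
          ExcP.Ex A Q j (fun p => ψ p)).card ≤
        lg Q ^ B * (lg Q ^ B * (lg Q * (lg Q ^ A) ^ (2 * (14 * u)))) := by
      intro j hj
      refine (card_biUnion_le_card_mul _ _ _ fun q hq => ?_).trans (by rw [card_range])
      refine (card_biUnion_le_card_mul _ _ (lg Q * (lg Q ^ A) ^ (2 * (14 * u)))
        fun ψ _ => ?_).trans (Nat.mul_le_mul_right _ ?_)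
      · exact (h1 j _ (mem_Icc.1 hj).1 fun p => ψ.norm_le_one _).trans
          (Nat.mul_le_mul_right _ h4)
      · rw [card_univ, ← Nat.card_eq_fintype_card,
          DirichletCharacter.card_eq_totient_of_hasEnoughRootsOfUnity ℂ (q + 1)]
        exact (Nat.totient_le _).trans (mem_range.1 hq)
    refine (card_biUnion_le_card_mul _ _ _ h5).trans ?_
    have h6 : (Icc (lg Q / u) (lg Q)).card ≤ lg Q ^ 2 := by
      rw [Nat.card_Icc]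
      exact (Nat.sub_le _ _).trans (by nlinarith)
    calc _ ≤ lg Q ^ 2 * (lg Q ^ B * (lg Q ^ B * (lg Q * (lg Q ^ A) ^ (2 * (14 * u))))) :=
          Nat.mul_le_mul_right _ h6
      _ = _ := by rw [← pow_mul]; ring
  · intro a ha h5 h6 χ hχ j hj hj' q _ ψ hq t ht
    by_contra h7
    apply h6
    obtain ⟨q, rfl⟩ : ∃ q', q = q' + 1 := ⟨q - 1, by have := NeZero.pos q; omega⟩
    refine mem_biUnion.2 ⟨j, mem_Icc.2 ⟨hj, hj'⟩, mem_biUnion.2 ⟨q, mem_range.2 hq,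
      mem_biUnion.2 ⟨ψ, mem_univ _, ?_⟩⟩⟩
    exact mem_filter.2 ⟨mem_range.2 (by omega), ha, χ, t, hχ, ht, (not_le.1 h7).le⟩

end Pool.Agent.P.MP_746f10_nt.AP
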