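import Pool.Agent.P.MP_746f10_nt.AP.Base

/-! Fourier expansion of the window averages. -/

namespace Pool.Agent.P.MP_746f10_nt.AP

open Finset ComplexConjugate
open Pool.Agent.P.MP_0ad054_nt (e dn geom_range four_dn_le norm_e)

namespace FourP

variable {a : ℕ} [Fact a.Prime]

/-- the Fourier coefficient -/
noncomputable def co (W : ZMod a → ℂ) (r : ZMod a) : ℂ :=
  1 / (a : ℂ) * ∑ y : ZMod a, W y * ZMod.stdAddChar (-(r * y))

lemma conj_psi (x : ZMod a) : conj (ZMod.stdAddChar x) = ZMod.stdAddChar (-x) := by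
  rw [AddChar.map_neg_eq_conj]

lemma parseval (W : ZMod a → ℂ) :
    1 / (a : ℝ) * ∑ y : ZMod a, ‖W y‖ ^ 2 = ∑ r : ZMod a, ‖co W r‖ ^ 2 := by
  have ha : (a : ℂ) ≠ 0 := Nat.cast_ne_zero.2 (Fact.out : a.Prime).ne_zero
  have key : ∀ r, co W r * conj (co W r) = (1 / (a : ℂ)) ^ 2 *
      ∑ y : ZMod a, ∑ z : ZMod a, W y * conj (W z) * ZMod.stdAddChar (r * (z - y)) := by
    intro r
    unfold co
    rw [map_mul, map_sum, map_div₀, map_one, map_natCast, mul_mul_mul_comm, sum_mul_sum, sq]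
    congr 1
    refine sum_congr rfl fun y _ => sum_congr rfl fun z _ => ?_
    rw [map_mul, conj_psi, neg_neg, mul_mul_mul_comm, ← AddChar.map_add_eq_mul]
    congr 2
    ring
  apply Complex.ofReal_injective
  push_cast
  simp only [← Complex.mul_conj', key]
  rw [← mul_sum, sum_comm, sq, mul_assoc]
  congr 1
  rw [mul_sum]
  refine sum_congr rfl fun y _ => ?_
  rw [sum_comm]
  simp only [← mul_sum, AddChar.sum_mulShift _ (ZMod.isPrimitive_stdAddChar a), sub_eq_zero]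
  simp only [Nat.cast_ite, mul_ite, Nat.cast_zero, mul_zero, sum_ite_eq', mem_univ, if_true,
    ZMod.card]
  field_simp

/-- the multiplier of the window average -/
noncomputable def Dk (J : ℕ) (r : ZMod a) : ℂ :=
  1 / (J : ℂ) * ∑ j ∈ range J, ZMod.stdAddChar (r * (j : ZMod a))

lemma co_avg (W : ZMod a → ℂ) (J : ℕ) (r : ZMod a) :
    co (fun y : ZMod a => 1 / (J : ℂ) * ∑ j ∈ range J, W (y + (j : ZMod a))) r = Dk J r * co W r := by
  have h : ∀ j : ℕ, ∑ y : ZMod a, W (y + (j : ZMod a)) * ZMod.stdAddChar (-(r * y)) =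
      ZMod.stdAddChar (r * (j : ZMod a)) * ∑ y : ZMod a, W y * ZMod.stdAddChar (-(r * y)) := by
    intro j
    rw [mul_sum, ← Equiv.sum_comp (Equiv.addRight (j : ZMod a))
      (fun y => ZMod.stdAddChar (r * (j : ZMod a)) * (W y * ZMod.stdAddChar (-(r * y))))]
    refine sum_congr rfl fun y _ => ?_
    rw [Equiv.coe_addRight, mul_left_comm, ← AddChar.map_add_eq_mul]
    congr 2
    ring
  unfold co Dk
  simp only [mul_assoc, sum_mul, ← mul_sum]
  rw [sum_comm]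
  simp only [h, ← sum_mul]
  ring

lemma Dk_le_one {J : ℕ} (hJ : 1 ≤ J) (r : ZMod a) : ‖Dk J r‖ ≤ 1 := by
  have h0 : (0 : ℝ) < J := by exact_mod_cast hJ
  unfold Dk
  rw [norm_mul, norm_div, norm_one, Complex.norm_natCast, one_div, inv_mul_le_iff₀ h0, mul_one]
  refine (norm_sum_le _ _).trans ?_
  simp [AddChar.norm_apply]

lemma abs_le_dn {x : ℝ} (hx : |x| ≤ 1 / 2) : |x| ≤ dn x := by
  unfold dn
  by_cases h : round x = 0
  · simp [h]
  have h1 : (1 : ℝ) ≤ |(round x : ℝ)| := by exact_mod_cast Int.one_le_abs h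
  have h2 := abs_sub_abs_le_abs_sub (round x : ℝ) x
  rw [abs_sub_comm] at h2
  linarith

lemma Dk_le {J R1 : ℕ} (hJ : 1 ≤ J) (hR : 1 ≤ R1) (r : ZMod a) (hr : (R1 : ℤ) ≤ |r.valMinAbs|) :
    ‖Dk J r‖ ≤ a / (2 * J * R1) := by
  have h0 : (0 : ℝ) < J := by exact_mod_cast hJ
  have h0' : (0 : ℝ) < R1 := by exact_mod_cast hR
  have ha : (0 : ℝ) < a := by exact_mod_cast (Fact.out : a.Prime).pos
  set x : ℝ := r.valMinAbs / a with hx
  have h1 : ∀ j : ℕ, ZMod.stdAddChar (r * (j : ZMod a)) = e (x * j) := by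
    intro j
    have : r * (j : ZMod a) = ((r.valMinAbs * j : ℤ) : ZMod a) := by
      rw [Int.cast_mul, ZMod.coe_valMinAbs, Int.cast_natCast]
    rw [this, ZMod.stdAddChar_coe, e, hx]
    congr 1
    push_cast
    ring
  have h2 : |x| ≤ 1 / 2 := by
    rw [hx, abs_div, abs_of_pos ha, div_le_div_iff₀ ha two_pos, one_mul]
    have h3 := ZMod.natAbs_valMinAbs_le r
    have h4 : |r.valMinAbs| * 2 ≤ (a : ℤ) := by
      rw [← Int.natCast_natAbs]
      omega
    exact_mod_cast h4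
  have h3 : (R1 : ℝ) / a ≤ dn x := by
    refine le_trans ?_ (abs_le_dn h2)
    rw [hx, abs_div, abs_of_pos ha]
    gcongr
    exact_mod_cast hr
  have h4 : ‖∑ j ∈ range J, e (x * j)‖ * ‖e x - 1‖ ≤ 2 := by
    rw [← norm_mul, geom_range]
    refine (norm_sub_le _ _).trans ?_
    rw [norm_e, norm_one]
    norm_num
  have h5 : ‖∑ j ∈ range J, e (x * j)‖ * (4 * (R1 / a)) ≤ 2 :=
    le_trans (mul_le_mul_of_nonneg_left (by linarith [four_dn_le x]) (norm_nonneg _)) h4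
  unfold Dk
  simp only [h1]
  rw [norm_mul, norm_div, norm_one, Complex.norm_natCast, one_div, inv_mul_le_iff₀ h0]
  rw [← le_div_iff₀ (by positivity)] at h5
  refine h5.trans (le_of_eq ?_)
  field_simp
  norm_num

lemma subst (F : ZMod a → ZMod a → ZMod a → ℂ) (k k' r : ZMod a) (h : k' ≠ 0) :
    ∑ y, F (k * y) (k' * y) (r * y) = ∑ y, F (k * k'⁻¹ * y) y (r * k'⁻¹ * y) := by
  rw [← Equiv.sum_comp (Equiv.mulLeft₀ k' h) (fun y => F (k * k'⁻¹ * y) y (r * k'⁻¹ * y))]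
  refine sum_congr rfl fun y _ => ?_
  rw [Equiv.mulLeft₀_apply, mul_assoc, mul_assoc, inv_mul_cancel_left₀ h]

end FourP

open FourP in
theorem pFour : S_Four := by
  intro a _ f J R1 k k' hJ hR hk
  set x : ZMod a := (k : ZMod a) * (k' : ZMod a)⁻¹ with hx
  let W : ZMod a → ℂ := fun y => f (k * y) * conj (f (k' * y))
  have h1 : ∀ r, ‖co W r‖ ^ 2 = Gam f x (r * (k' : ZMod a)⁻¹) := fun r => by
    unfold co Gam
    rw [subst (fun u v w => f u * conj (f v) * ZMod.stdAddChar (-w)) k k' r hk]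
  have h2 : ∑ r, ‖co W r‖ ^ 2 = Pf f x := by
    rw [← parseval]
    unfold Pf
    congr 1
    apply Complex.ofReal_injective
    have := subst (fun u v _ => ((‖f u‖ ^ 2 * ‖f v‖ ^ 2 : ℝ) : ℂ)) k k' 0 hk
    rw [Complex.ofReal_sum, Complex.ofReal_sum, ← this]
    refine sum_congr rfl fun y _ => ?_
    rw [norm_mul, RCLike.norm_conj, mul_pow]
  have h3 : Gf f J k k' = ∑ r, ‖Dk J r‖ ^ 2 * ‖co W r‖ ^ 2 := by
    unfold Gf
    rw [parseval fun y : ZMod a => 1 / (J : ℂ) * ∑ j ∈ range J, W (y + (j : ZMod a))]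
    exact sum_congr rfl fun r _ => by rw [co_avg, norm_mul, mul_pow]
  have h4 : ∑ r ∈ univ.filter (fun r : ZMod a => |r.valMinAbs| ≤ R1), ‖co W r‖ ^ 2 ≤
      ∑ r ∈ Icc (-(R1 : ℤ)) R1, Gam f x ((r : ZMod a) * (k' : ZMod a)⁻¹) := by
    simp only [← h1]
    refine le_trans (le_of_eq ?_) (sum_le_sum_of_subset_of_nonneg
      (s := (univ.filter (fun r : ZMod a => |r.valMinAbs| ≤ R1)).image ZMod.valMinAbs)
      (fun r hr => ?_) fun _ _ _ => by positivity)
    · rw [sum_image fun r _ s _ h => ZMod.injective_valMinAbs h]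
      simp only [ZMod.coe_valMinAbs]
    · obtain ⟨s, hs, rfl⟩ := mem_image.1 hr
      exact mem_Icc.2 (abs_le.1 (mem_filter.1 hs).2)
  rw [h3, ← h2, mul_sum, sum_filter] at *
  refine le_trans ?_ (add_le_add_left h4 _)
  rw [← sum_add_distrib]
  refine sum_le_sum fun r _ => ?_
  split_ifs with h
  · have := pow_le_one₀ (n := 2) (norm_nonneg _) (Dk_le_one hJ r)
    have h5 : ‖Dk J r‖ ^ 2 * ‖co W r‖ ^ 2 ≤ ‖co W r‖ ^ 2 :=
      mul_le_of_le_one_left (by positivity) this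
    have h6 : 0 ≤ (a / (2 * J * R1) : ℝ) ^ 2 * ‖co W r‖ ^ 2 := by positivity
    linarith
  · rw [zero_add]
    gcongr
    exact Dk_le hJ hR r (not_le.1 h).le

end Pool.Agent.P.MP_746f10_nt.AP
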