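import Pool.Agent.P.MP_746f10_nt.AP.Base

/-! The approximation of the primes by a function that is close to the model in cut norm. -/

namespace Pool.Agent.P.MP_746f10_nt.AP

open Finset Filter

namespace GP

lemma abs_sg_le (Q : ℕ) (S : Finset ℕ) : |sg Q S| ≤ 2 ^ S.card := by
  unfold sg
  refine (abs_sum_le_sum_abs _ _).trans ?_
  simp only [abs_pow, abs_neg, abs_one, one_pow, sum_const, nsmul_eq_mul, mul_one]
  have := (card_filter_le S.powerset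
    (fun T => ∑ j ∈ T, j + T.card ≤ 7 * lg Q / 10)).trans (card_powerset S).le
  exact_mod_cast this

lemma card_Pats (u Q : ℕ) (hg : 5 ≤ lg Q) :
    (Pats u Q).card ≤ (3 * u + 1) * (3 * lg Q) ^ (3 * u) := by
  have hs : Pats u Q ⊆ (range (3 * u + 1)).biUnion
      fun i => powersetCard i (Icc (lg Q / u) (2 * lg Q + 4)) := by
    intro S hS
    unfold Pats at hS
    rw [mem_filter, mem_powerset] at hS
    exact mem_biUnion.2 ⟨S.card, mem_range.2 (by have := hS.2.1; omega),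
      mem_powersetCard.2 ⟨hS.1, rfl⟩⟩
  refine (card_le_card hs).trans (card_biUnion_le.trans ?_)
  refine (sum_le_card_nsmul _ _ ((3 * lg Q) ^ (3 * u)) fun i hi => ?_).trans (by simp)
  rw [card_powersetCard]
  have hn : (Icc (lg Q / u) (2 * lg Q + 4)).card ≤ 3 * lg Q := by
    rw [Nat.card_Icc]
    exact (Nat.sub_le _ _).trans (by omega)
  have hi' := mem_range.1 hi
  calc _ ≤ (Icc (lg Q / u) (2 * lg Q + 4)).card ^ i := Nat.choose_le_pow _ _
    _ ≤ (3 * lg Q) ^ i := Nat.pow_le_pow_left hn _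
    _ ≤ _ := Nat.pow_le_pow_right (by omega) (by omega)

lemma total (u A P g : ℕ) (hg : 2 * (3 * u + 1) * 6 ^ (3 * u) ≤ g) (h2 : 2 ≤ g)
    (hP : P ≤ (3 * u + 1) * (3 * g) ^ (3 * u)) :
    1 / (g : ℝ) ^ (A + 1) + P * (2 ^ (3 * u) * (1 / (g : ℝ) ^ (A + 3 * u + 1))) ≤
      1 / (g : ℝ) ^ A := by
  have h0 : (2 : ℝ) ≤ g := by exact_mod_cast h2
  have hp : (0 : ℝ) < g := by linarith
  have h3 : 2 * (P * 2 ^ (3 * u)) ≤ g ^ (3 * u + 1) := by
    calc 2 * (P * 2 ^ (3 * u)) ≤ 2 * ((3 * u + 1) * (3 * g) ^ (3 * u) * 2 ^ (3 * u)) := by gcongr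
      _ = 2 * (3 * u + 1) * 6 ^ (3 * u) * g ^ (3 * u) := by
        rw [show (6 : ℕ) = 3 * 2 by norm_num, mul_pow, mul_pow]; ring
      _ ≤ g * g ^ (3 * u) := by gcongr
      _ = _ := by ring
  have h4 : 2 * ((P : ℝ) * 2 ^ (3 * u)) ≤ (g : ℝ) ^ (3 * u + 1) := by exact_mod_cast h3
  have h5 : 1 / (g : ℝ) ^ (A + 1) ≤ 1 / 2 * (1 / (g : ℝ) ^ A) := by
    rw [pow_succ, one_div_mul_one_div, mul_comm (2 : ℝ)]
    gcongr
  have h6 : P * (2 ^ (3 * u) * (1 / (g : ℝ) ^ (A + 3 * u + 1))) ≤ 1 / 2 * (1 / (g : ℝ) ^ A) := by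
    rw [← mul_assoc, mul_one_div, one_div_mul_one_div, div_le_div_iff₀ (by positivity)
      (by positivity), add_assoc, pow_add]
    have : (0 : ℝ) < (g : ℝ) ^ A := by positivity
    nlinarith
  linarith

end GP

open GP

theorem pG (h1 : S_Ident) (h2 : S_Bad) (h3 : S_A) (h4 : S_TIM) (h5 : S_II) : S_G := by
  intro ε A hε
  obtain ⟨u, hu, hA⟩ := h3 (ε / 2) (by positivity)
  obtain ⟨C1, hT⟩ := h4 (A + 1)
  obtain ⟨C, Ch, C2, hI⟩ := h5 u (A + 3 * u + 1) hu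
  obtain ⟨QA, hA⟩ := hA (C1 + C2 + 1)
  obtain ⟨QT, hT⟩ := hT (C1 + C2 + 1)
  obtain ⟨QI, hI⟩ := hI (C1 + C2 + 1)
  obtain ⟨Q1, hd⟩ := h1 u hu
  obtain ⟨Q2, hb⟩ := h2 u (ε / 2 / (3 * 2 ^ (3 * u))) hu (by positivity)
  obtain ⟨Q3, hg⟩ := ev_lg ((eventually_ge_atTop (2 * (3 * u + 1) * 6 ^ (3 * u))).and
    (eventually_ge_atTop 5))
  refine ⟨C, Ch, C1 + C2 + 1, QA + QT + QI + Q1 + Q2 + Q3 + 1, fun Q hQ => ?_⟩
  obtain ⟨hg1, hg5⟩ := hg Q (by omega)
  set w := lg Q ^ (C1 + C2 + 1) with hw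
  have hw2 : 2 ≤ w := le_trans (by omega) (Nat.le_self_pow (by omega) (lg Q))
  obtain ⟨E, hE, hI⟩ := hI Q (by omega)
  obtain ⟨D2, lam, err, hD, hl, hr, he0, hes, he⟩ := hA Q w (by omega) hw2 le_rfl
  refine ⟨E, w, fun m => rr w m * ∑ g ∈ Icc 1 D2, lam g * dd m g +
    ∑ S ∈ Pats u Q, -sg Q S * CS S m, fun m => 3 * 2 ^ (3 * u) * bad u Q m + err m, hE, hw2, le_rfl,
    fun m => add_nonneg (mul_nonneg (by positivity) (bad_bd u Q m).1) (he0 m), ?_,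
    fun m hm hm' => ?_, fun a ha hQa ha2 haE => ?_⟩
  · rw [sum_add_distrib, ← mul_sum]
    have h6 := hb Q (by omega)
    have h7 : (3 * 2 ^ (3 * u) : ℝ) * ∑ m ∈ Ico 1 (4 * Q ^ 2), bad u Q m ≤
        ε / 2 * (Q : ℝ) ^ 2 / lg Q := by
      calc _ ≤ (3 * 2 ^ (3 * u) : ℝ) * (ε / 2 / (3 * 2 ^ (3 * u)) * (Q : ℝ) ^ 2 / lg Q) := by
            gcongr
        _ = _ := by field_simp
    calc _ ≤ ε / 2 * (Q : ℝ) ^ 2 / lg Q + ε / 2 * (Q : ℝ) ^ 2 / lg Q := add_le_add h7 hes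
      _ = _ := by ring
  · have h6 := hd Q m (by omega) hm hm'
    have h7 := he m (le_trans (Nat.one_le_pow _ _ (by omega)) hm)
    simp only [neg_mul, sum_neg_distrib]
    refine le_trans (le_of_eq ?_) ((abs_add_le _ _).trans (add_le_add h6 h7))
    congr 1
    ring
  · have hT' := hT Q a w D2 lam (by omega) ha hQa ha2
      (Nat.pow_le_pow_right (by omega) (by omega)) le_rfl hD hl hr
    have a1 : Approx a Q w (Q / lg Q ^ Ch) (fun m => rr w m * ∑ g ∈ Icc 1 D2, lam g * dd m g)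
        (1 / (lg Q : ℝ) ^ (A + 1)) :=
      ⟨fun _ => ∑ g ∈ Icc 1 D2, lam g * (1 / g), hT'.congr fun n _ b _ => by
        simp only [mul_sub, sum_sub_distrib]
        ring⟩
    have a2 := approx_sum (a := a) (N := Q) (w := w) (h := Q / lg Q ^ Ch) (Pats u Q)
      (fun S m => -sg Q S * CS S m)
      (fun _ => 2 ^ (3 * u) * (1 / (lg Q : ℝ) ^ (A + 3 * u + 1))) fun S hS => by
        refine (hI a w S ha hQa ha2 haE (Nat.pow_le_pow_right (by omega) (by omega)) le_rfl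
          hS).smul (by positivity) ?_
        rw [abs_neg]
        refine (abs_sg_le Q S).trans (pow_le_pow_right₀ one_le_two ?_)
        unfold Pats at hS
        exact (mem_filter.1 hS).2.1
    refine (a1.add a2).mono ?_
    rw [sum_const, nsmul_eq_mul]
    exact total u A _ _ hg1 (by omega) (card_Pats u Q hg5)

end Pool.Agent.P.MP_746f10_nt.AP
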