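import Pool.Agent.P.MP_746f10_nt.AP.Base

/-! The sum of the matrix coefficients over a box of triples. -/

namespace Pool.Agent.P.MP_746f10_nt.AP

open Finset

namespace GamP

/-- splitting of a sum of nonnegative terms into three classes -/
lemma split3 {ι κ : Type*} (T : Finset ι) (D : Finset κ) (A : ι → Prop) (B : κ → ι → Prop)
    [DecidablePred A] [∀ d, DecidablePred (B d)]
    [DecidablePred fun t => ¬ A t ∧ ∀ d ∈ D, ¬ B d t] (W : ι → ℝ) (hW : ∀ t, 0 ≤ W t) :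
    ∑ t ∈ T, W t ≤ ∑ t ∈ T.filter A, W t + ∑ d ∈ D, ∑ t ∈ T.filter (B d), W t +
      ∑ t ∈ T.filter (fun t => ¬ A t ∧ ∀ d ∈ D, ¬ B d t), W t := by
  simp only [sum_filter]
  rw [sum_comm, ← sum_add_distrib, ← sum_add_distrib]
  refine sum_le_sum fun t _ => ?_
  have h0 : ∀ (p : Prop) [Decidable p], 0 ≤ if p then W t else 0 := fun p _ => by
    split_ifs
    exacts [hW t, le_rfl]
  have h1 : 0 ≤ ∑ d ∈ D, if B d t then W t else 0 := sum_nonneg fun d _ => h0 _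
  by_cases hA : A t
  · rw [if_pos hA]
    have := h0 (¬ A t ∧ ∀ d ∈ D, ¬ B d t)
    linarith
  · rw [if_neg hA]
    by_cases hB : ∀ d ∈ D, ¬ B d t
    · rw [if_pos ⟨hA, hB⟩]
      linarith
    · rw [if_neg fun h => hB h.2]
      push Not at hB
      obtain ⟨d, hd, hB⟩ := hB
      have := single_le_sum (f := fun d => if B d t then W t else 0) (fun d _ => h0 _) hd
      rw [if_pos hB] at this
      linarith

lemma pairs_le (S : Finset (ℕ × ℕ)) (I : Finset ℤ) (W : (ℕ × ℕ) × ℤ → ℝ) (B : ℝ)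
    (Q : ℕ × ℕ → Prop) [DecidablePred Q] (h : ∀ p ∈ S, ∑ r ∈ I, W (p, r) ≤ B) :
    ∑ t ∈ (S ×ˢ I).filter (fun t => Q t.1), W t ≤ (S.filter Q).card * B := by
  rw [filter_product_left, sum_product]
  have := sum_le_card_nsmul (S.filter Q) (fun p => ∑ r ∈ I, W (p, r)) B
    fun p hp => h p (mem_filter.1 hp).1
  rwa [nsmul_eq_mul] at this

lemma graph_le (S : Finset (ℕ × ℕ)) (I : Finset ℤ) (W : (ℕ × ℕ) × ℤ → ℝ) (h : ℕ × ℕ → ℝ)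
    (Q : (ℕ × ℕ) × ℤ → Prop) [DecidablePred Q] (h0 : ∀ p, 0 ≤ h p)
    (h1 : ∀ p ∈ S, ∀ r, Q (p, r) → W (p, r) = h p)
    (h2 : ∀ p r s, Q (p, r) → Q (p, s) → r = s) :
    ∑ t ∈ (S ×ˢ I).filter Q, W t ≤ ∑ p ∈ S, h p := by
  rw [sum_filter, sum_product]
  refine sum_le_sum fun p hp => ?_
  rw [← sum_filter, sum_congr rfl (fun r hr => h1 p hp r (mem_filter.1 hr).2), sum_const,
    nsmul_eq_mul]
  have : ((I.filter fun r => Q (p, r)).card : ℝ) ≤ 1 := by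
    exact_mod_cast card_le_one.2 fun r hr s hs =>
      h2 p r s (mem_filter.1 hr).2 (mem_filter.1 hs).2
  exact mul_le_of_le_one_left (h0 p) this

lemma line_card (K : ℕ) (d1 d2 : ℤ) (hd : d1 ≠ 0 ∨ d2 ≠ 0) :
    ((Icc 1 K ×ˢ Icc 1 K).filter
      (fun p : ℕ × ℕ => d1 * (p.1 : ℤ) + d2 * (p.2 : ℤ) = 0)).card ≤ K := by
  have : (Icc 1 K).card = K := by simp
  refine le_trans (card_le_card_of_injOn (t := Icc 1 K) Prod.snd ?_ ?_) this.le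
  · intro p hp
    exact (mem_product.1 (mem_filter.1 (mem_coe.1 hp)).1).2
  · intro p hp q hq hpq
    obtain ⟨hp1, hp2⟩ := mem_filter.1 (mem_coe.1 hp)
    obtain ⟨-, hq2⟩ := mem_filter.1 (mem_coe.1 hq)
    have h1 := (mem_Icc.1 (mem_product.1 hp1).2).1
    have h2 : d1 ≠ 0 := by
      rintro rfl
      have h3 : d2 ≠ 0 := hd.resolve_left (by simp)
      rw [zero_mul, zero_add, mul_eq_zero] at hp2
      rcases hp2 with h | h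
      · exact h3 h
      · omega
    have h3 : (p.1 : ℤ) = q.1 := by
      refine mul_left_cancel₀ h2 ?_
      have : (p.2 : ℤ) = q.2 := by exact_mod_cast hpq
      rw [this] at hp2
      linarith
    exact Prod.ext (by exact_mod_cast h3) hpq

/-- the embedding of the triples -/
def em (t : (ℕ × ℕ) × ℤ) : ℤ × ℤ × ℤ := ((t.1.1 : ℤ), (t.1.2 : ℤ), t.2)

lemma em_inj : Function.Injective em := by
  rintro ⟨⟨k, k'⟩, r⟩ ⟨⟨l, l'⟩, s⟩ h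
  simp only [em, Prod.mk.injEq, Nat.cast_inj] at h
  obtain ⟨rfl, rfl, rfl⟩ := h
  rfl

lemma par_inj {t0 t s : (ℕ × ℕ) × ℤ} (h1 : 1 ≤ t0.1.1) (h2 : 1 ≤ t0.1.2) (h3 : 1 ≤ t.1.1)
    (ht : par (em t0) (em t)) (hs : par (em t0) (em s))
    (hg : Nat.gcd t.1.1 t.1.2 = Nat.gcd s.1.1 s.1.2) : t = s := by
  obtain ⟨⟨k0, k0'⟩, r0⟩ := t0
  obtain ⟨⟨k, k'⟩, r⟩ := t
  obtain ⟨⟨l, l'⟩, s⟩ := s
  simp only [par, em] at *
  obtain ⟨a1, -, a3⟩ := ht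
  obtain ⟨b1, -, b3⟩ := hs
  have e1 : k * l' = k' * l := by
    have : (k0 : ℤ) * (k * l') = k0 * (k' * l) := by linear_combination (k : ℤ) * b1 - (l : ℤ) * a1
    have := mul_left_cancel₀ (by omega : (k0 : ℤ) ≠ 0) this
    exact_mod_cast this
  have e2 : k * Nat.gcd l l' = l * Nat.gcd k k' := by
    rw [← Nat.gcd_mul_left, ← Nat.gcd_mul_left, e1, mul_comm k l, mul_comm k' l]
  have hpos : 0 < Nat.gcd k k' := Nat.gcd_pos_of_pos_left _ h3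
  rw [← hg] at e2
  have e3 : k = l := Nat.eq_of_mul_eq_mul_right hpos e2
  subst e3
  have e4 : l' = k' := Nat.eq_of_mul_eq_mul_left h3 (by rw [e1, mul_comm])
  subst e4
  have e5 : r = s := mul_left_cancel₀ (by omega : (k0' : ℤ) ≠ 0) (a3.trans b3.symm)
  rw [e5]

open Classical in
lemma par_card (S : Finset ((ℕ × ℕ) × ℤ)) (g : ℕ)
    (hS : ∀ t ∈ S, 1 ≤ t.1.1 ∧ 1 ≤ t.1.2 ∧ Nat.gcd t.1.1 t.1.2 ≤ g) :
    ∀ p0 ∈ S.image em, ((S.image em).filter (fun p => par p0 p)).card ≤ g := by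
  intro p0 hp0
  obtain ⟨t0, ht0, rfl⟩ := mem_image.1 hp0
  rw [filter_image, card_image_of_injective _ em_inj]
  have : (Icc 1 g).card = g := by simp
  refine le_trans (card_le_card_of_injOn (t := Icc 1 g) (fun t => Nat.gcd t.1.1 t.1.2) ?_ ?_)
    this.le
  · intro t ht
    have h := hS t (mem_filter.1 (mem_coe.1 ht)).1
    exact mem_coe.2 (mem_Icc.2 ⟨Nat.gcd_pos_of_pos_left _ h.1, h.2.2⟩)
  · intro t ht s hs hg
    obtain ⟨ht1, ht2⟩ := mem_filter.1 (mem_coe.1 ht)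
    obtain ⟨-, hs2⟩ := mem_filter.1 (mem_coe.1 hs)
    exact par_inj (hS t0 ht0).1 (hS t0 ht0).2.1 (hS t ht1).1 ht2 hs2 hg

variable {a : ℕ} [Fact a.Prime]

lemma Gam_nonneg (f : ZMod a → ℂ) (x lam : ZMod a) : 0 ≤ Gam f x lam := sq_nonneg _

lemma cast_ne {k : ℤ} (h1 : k ≠ 0) (h2 : |k| < a) : (k : ZMod a) ≠ 0 := by
  rw [Ne, ZMod.intCast_zmod_eq_zero_iff_dvd]
  exact fun h => h1 (Int.eq_zero_of_abs_lt_dvd h h2)

lemma ncast_ne {k : ℕ} (h1 : 1 ≤ k) (h2 : k < a) : (k : ZMod a) ≠ 0 := by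
  rw [Ne, ZMod.natCast_eq_zero_iff]
  exact Nat.not_dvd_of_pos_of_lt h1 h2

lemma row_le (f : ZMod a → ℂ) {R : ℕ} (hR : 2 * R < a) (x c : ZMod a) (hc : c ≠ 0) :
    ∑ r ∈ Icc (-(R : ℤ)) R, Gam f x ((r : ZMod a) * c) ≤ ∑ lam, Gam f x lam := by
  classical
  have hi : Set.InjOn (fun r : ℤ => (r : ZMod a) * c) (Icc (-(R : ℤ)) R : Finset ℤ) := by
    intro r hr s hs h
    have h1 := mem_Icc.1 (mem_coe.1 hr)
    have h2 := mem_Icc.1 (mem_coe.1 hs)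
    have h3 : (r : ZMod a) = s := mul_right_cancel₀ hc h
    by_contra h4
    refine cast_ne (a := a) (sub_ne_zero.2 h4) (abs_lt.2 ⟨by omega, by omega⟩) ?_
    push_cast
    rw [h3, sub_self]
  rw [← sum_image (f := fun lam => Gam f x lam) hi]
  exact sum_le_sum_of_subset_of_nonneg (subset_univ _) fun _ _ _ => Gam_nonneg _ _ _

/-- the point of the affine group attached to a triple -/
noncomputable def ph (a : ℕ) [Fact a.Prime] (t : (ℕ × ℕ) × ℤ) : ZMod a × ZMod a :=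
  ((t.1.1 : ZMod a) * (t.1.2 : ZMod a)⁻¹, (t.2 : ZMod a) * (t.1.2 : ZMod a)⁻¹)

lemma fib_le (f : ZMod a → ℂ) (S : Finset ((ℕ × ℕ) × ℤ)) (B : ℝ)
    (h : ∀ z, ((S.filter (fun t => ph a t = z)).card : ℝ) ≤ B) :
    ∑ t ∈ S, Gam f (ph a t).1 (ph a t).2 ≤ B * ∑ x, ∑ lam, Gam f x lam := by
  rw [← sum_fiberwise S (ph a), ← Fintype.sum_prod_type', mul_sum]
  refine sum_le_sum fun z _ => ?_
  rw [sum_congr rfl (fun t ht => by rw [(mem_filter.1 ht).2]), sum_const, nsmul_eq_mul]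
  exact mul_le_mul_of_nonneg_right (h z) (Gam_nonneg _ _ _)

lemma plane_id {k k' : ℕ} {r d1 d2 d3 : ℤ} (hk : (k' : ZMod a) ≠ 0) (hd : (d3 : ZMod a) ≠ 0)
    (h : d1 * (k : ℤ) + d2 * (k' : ℤ) + d3 * r = 0) :
    (r : ZMod a) * (k' : ZMod a)⁻¹ =
      -(d1 * ((k : ZMod a) * (k' : ZMod a)⁻¹) + d2) * (d3 : ZMod a)⁻¹ := by
  have h1 : (d1 : ZMod a) * k + d2 * k' + d3 * r = 0 := by exact_mod_cast congrArg (Int.cast : ℤ → ZMod a) h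
  field_simp
  linear_combination h1

/-- the weight of a triple -/
noncomputable def Wt (f : ZMod a → ℂ) (t : (ℕ × ℕ) × ℤ) : ℝ := Gam f (ph a t).1 (ph a t).2

/-- the plane with normal vector `d` -/
def Pl (d : ℤ × ℤ × ℤ) (t : (ℕ × ℕ) × ℤ) : Prop :=
  d.1 * (t.1.1 : ℤ) + d.2.1 * (t.1.2 : ℤ) + d.2.2 * t.2 = 0

/-- the short nonzero vectors -/
noncomputable def Dv (ρ : ℕ) : Finset (ℤ × ℤ × ℤ) :=
  (Icc (-(ρ : ℤ)) ρ ×ˢ Icc (-(ρ : ℤ)) ρ ×ˢ Icc (-(ρ : ℤ)) ρ).erase 0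

lemma mem_Dv {ρ : ℕ} {d : ℤ × ℤ × ℤ} :
    d ∈ Dv ρ ↔ d ≠ 0 ∧ |d.1| ≤ ρ ∧ |d.2.1| ≤ ρ ∧ |d.2.2| ≤ ρ := by
  simp only [Dv, mem_erase, mem_product, mem_Icc, abs_le]

lemma card_Dv {ρ : ℕ} (h : 1 ≤ ρ) : (Dv ρ).card ≤ 27 * ρ ^ 3 := by
  have c1 : (Icc (-(ρ : ℤ)) ρ).card ≤ 3 * ρ := by rw [Int.card_Icc]; omega
  refine card_erase_le.trans ?_
  rw [card_product, card_product]
  calc _ ≤ (3 * ρ) * ((3 * ρ) * (3 * ρ)) := Nat.mul_le_mul c1 (Nat.mul_le_mul c1 c1)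
    _ = _ := by ring

lemma sq_mem {K : ℕ} {p : ℕ × ℕ} (hp : p ∈ Icc 1 K ×ˢ Icc 1 K) :
    (1 ≤ p.1 ∧ p.1 ≤ K) ∧ 1 ≤ p.2 ∧ p.2 ≤ K :=
  ⟨mem_Icc.1 (mem_product.1 hp).1, mem_Icc.1 (mem_product.1 hp).2⟩

lemma sq_ne {K : ℕ} (hK : K < a) {p : ℕ × ℕ} (hp : p ∈ Icc 1 K ×ˢ Icc 1 K) :
    (p.2 : ZMod a) ≠ 0 :=
  ncast_ne (sq_mem hp).2.1 (lt_of_le_of_lt (sq_mem hp).2.2 hK)

lemma row_bd {f : ZMod a → ℂ} {B : ℝ} (hB : ∀ x, ∑ lam, Gam f x lam ≤ B) {K R : ℕ} (hK : K < a)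
    (hR : 2 * R < a) : ∀ p ∈ Icc 1 K ×ˢ Icc 1 K, ∑ r ∈ Icc (-(R : ℤ)) R, Wt f (p, r) ≤ B := by
  intro p hp
  simp only [Wt, ph]
  exact (row_le f hR ((p.1 : ZMod a) * (p.2 : ZMod a)⁻¹) (p.2 : ZMod a)⁻¹
    (inv_ne_zero (sq_ne hK hp))).trans (hB _)

open Classical in
lemma plane_bd (h2 : S_Pair) (h4 : S_Plane) {f : ZMod a → ℂ} {τ F : ℝ} {ρ K R g : ℕ}
    (hM : Mn f (Xi a ρ) τ F) (hB : ∀ x, ∑ lam, Gam f x lam ≤ F ^ 4) (hK : K < a) (hR : 2 * R < a)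
    (hρ : ρ < a) (hg : 1 ≤ g) {d : ℤ × ℤ × ℤ} (hd : d ∈ Dv ρ) :
    ∑ t ∈ ((Icc 1 K ×ˢ Icc 1 K) ×ˢ Icc (-(R : ℤ)) R).filter (Pl d), Wt f t ≤
      64 * ((g * a + (K : ℝ) ^ 2) * τ ^ 2 + (K : ℝ) ^ 2 * F ^ 4 / g + K * F ^ 4) := by
  obtain ⟨d1, d2, d3⟩ := d
  obtain ⟨hd0, hd1, -, hd3⟩ := mem_Dv.1 hd
  have hF : 0 ≤ F ^ 4 := by positivity
  have ha0 : (0 : ℝ) < a := by exact_mod_cast (by omega : 0 < a)
  have t1 : 0 ≤ (g * a + (K : ℝ) ^ 2) * τ ^ 2 := by positivity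
  have t2 : 0 ≤ (K : ℝ) ^ 2 * F ^ 4 / g := by positivity
  have t3 : 0 ≤ (K : ℝ) * F ^ 4 := by positivity
  by_cases h0 : d3 = 0
  · subst h0
    have h5 : d1 ≠ 0 ∨ d2 ≠ 0 := by
      by_contra h5
      push Not at h5
      exact hd0 (by rw [h5.1, h5.2]; rfl)
    have h6 : (((Icc 1 K ×ˢ Icc 1 K).filter
        (fun p : ℕ × ℕ => d1 * (p.1 : ℤ) + d2 * (p.2 : ℤ) = 0)).card : ℝ) ≤ K := by
      exact_mod_cast line_card K d1 d2 h5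
    have h7 := pairs_le _ _ (Wt f) _ (fun p => d1 * (p.1 : ℤ) + d2 * (p.2 : ℤ) = 0)
      (row_bd hB hK hR)
    have h8 := mul_le_mul_of_nonneg_right h6 hF
    rw [filter_congr (q := fun t : (ℕ × ℕ) × ℤ => d1 * (t.1.1 : ℤ) + d2 * (t.1.2 : ℤ) = 0)
      fun t _ => by simp only [Pl, zero_mul, add_zero]]
    linarith
  · have h6 : (d3 : ZMod a) ≠ 0 := cast_ne h0 (lt_of_le_of_lt hd3 (by exact_mod_cast hρ))
    obtain ⟨h, hh⟩ : ∃ h : ZMod a → ℝ,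
        ∀ x, h x = Gam f x (-(d1 * x + d2) * (d3 : ZMod a)⁻¹) := ⟨_, fun _ => rfl⟩
    have hb : ∀ x, 0 ≤ h x ∧ h x ≤ F ^ 4 := fun x => by
      rw [hh]
      exact ⟨Gam_nonneg _ _ _, (single_le_sum (f := fun lam => Gam f x lam)
        (fun _ _ => Gam_nonneg _ _ _) (mem_univ _)).trans (hB x)⟩
    refine (graph_le _ _ (Wt f) (fun p => h ((p.1 : ZMod a) * (p.2 : ZMod a)⁻¹)) _
      (fun _ => (hb _).1) (fun p hp r hr => ?_) (fun p r s hr hs => ?_)).trans ?_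
    · simp only [Wt, ph, hh]
      rw [plane_id (sq_ne hK hp) h6 hr]
    · simp only [Pl] at hr hs
      exact mul_left_cancel₀ h0 (by linarith)
    · rw [sum_product]
      refine (h2 a K g h (F ^ 4) hK hg hb).2.trans ?_
      have h7 : ∑ x, h x ≤ 4 * τ ^ 2 * a := by
        rw [sum_congr rfl fun x _ => hh x]
        exact h4 a f ρ τ F d1 d2 d3 hM hd1 h0 hd3
      have h8 : (g + 16 * (K : ℝ) ^ 2 / a) * ∑ x, h x ≤
          (g + 16 * (K : ℝ) ^ 2 / a) * (4 * τ ^ 2 * a) :=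
        mul_le_mul_of_nonneg_left h7 (by positivity)
      have h9 : (g + 16 * (K : ℝ) ^ 2 / a) * (4 * τ ^ 2 * a) =
          64 * ((g * a + (K : ℝ) ^ 2) * τ ^ 2) - 60 * (g * a * τ ^ 2) := by
        field_simp
        ring
      have h10 : 0 ≤ (g : ℝ) * a * τ ^ 2 := by positivity
      have h11 : (K : ℝ) ^ 2 / g * F ^ 4 = (K : ℝ) ^ 2 * F ^ 4 / g := by ring
      linarith

open Classical in
lemma rest_bd (h1 : S_L3) : ∃ C : ℝ, 0 < C ∧ ∀ (a : ℕ) [Fact a.Prime] (ρ K R g : ℕ)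
    (T : Finset ((ℕ × ℕ) × ℤ)), 2 ≤ ρ → K ≤ R → K < a → 3 * ρ * R < a →
    (∀ t ∈ T, t.1 ∈ Icc 1 K ×ˢ Icc 1 K ∧ t.2 ∈ Icc (-(R : ℤ)) R ∧ Nat.gcd t.1.1 t.1.2 ≤ g ∧
      ∀ d ∈ Dv ρ, ¬ Pl d t) → ∀ z, ((T.filter (fun t => ph a t = z)).card : ℝ) ≤
      g + C * ((R : ℝ) ^ 2 / (a * ρ) + R * (a : ℝ) ^ (1 / 3 : ℝ) / a + (R : ℝ) ^ 3 / (a : ℝ) ^ 2) := by
  obtain ⟨C, hC, h1⟩ := h1
  refine ⟨C, hC, fun a _ ρ K R g T hρ hKR hK ha hT z => ?_⟩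
  rw [← card_image_of_injective _ em_inj]
  refine h1 a z.1 z.2 R ρ g _ hρ ha (fun p hp => ?_) (fun p hp d hd d1 d2 d3 => ?_) ?_
  · obtain ⟨t, ht, rfl⟩ := mem_image.1 hp
    obtain ⟨ht', rfl⟩ := mem_filter.1 ht
    obtain ⟨u1, u2, -⟩ := hT t ht'
    have u3 := sq_mem u1
    have u4 := sq_ne hK u1
    refine ⟨abs_le.2 ⟨?_, ?_⟩, abs_le.2 ⟨?_, ?_⟩, abs_le.2 (mem_Icc.1 u2), ?_, ?_⟩
    · simp only [em]; omega
    · simp only [em]; omega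
    · simp only [em]; omega
    · simp only [em]; omega
    · simp only [em, ph, Int.cast_natCast]
      rw [inv_mul_cancel_right₀ u4]
    · simp only [em, ph, Int.cast_natCast]
      rw [inv_mul_cancel_right₀ u4]
  · obtain ⟨t, ht, rfl⟩ := mem_image.1 hp
    exact (hT t (mem_filter.1 ht).1).2.2.2 d (mem_Dv.2 ⟨hd, d1, d2, d3⟩)
  · refine par_card _ g fun t ht => ?_
    obtain ⟨u1, -, u2, -⟩ := hT t (mem_filter.1 ht).1
    exact ⟨(sq_mem u1).1.1, (sq_mem u1).2.1, u2⟩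

lemma fin_ineq {C M P G Z : ℝ} (hC : 0 < C) (hMP : M ≤ P) (hP : 0 ≤ P) (hG : 0 ≤ G) (hZ : 0 ≤ Z) :
    M + 1728 * P + (G + C * Z) ≤ (1729 + C) * (P + G + Z) := by
  nlinarith [mul_nonneg hC.le hP, mul_nonneg hC.le hG]

end GamP

open GamP

theorem pGam (h1 : S_L3) (h2 : S_Pair) (h3 : S_Mass) (h4 : S_Plane) : S_Gam := by
  classical
  obtain ⟨C, hC, h1⟩ := rest_bd h1
  refine ⟨1729 + C, by positivity, fun a _ f τ F ρ K R g hM hρ hg hK hKR ha => ?_⟩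
  have ha2 : 2 * R < a := by nlinarith
  have haK : K < a := by omega
  have haρ : ρ < a := by nlinarith
  have ha0 : (0 : ℝ) < a := by exact_mod_cast (by omega : 0 < a)
  have hρ0 : (1 : ℝ) ≤ ρ := by exact_mod_cast (by omega : 1 ≤ ρ)
  obtain ⟨m1, m2, m3, -⟩ := h3 a f _ τ F hM
  have hB : ∀ x, ∑ lam, Gam f x lam ≤ F ^ 4 := fun x => (m1 x).le.trans (m2 x)
  have hF : 0 ≤ F ^ 4 := by positivity
  have t1 : 0 ≤ (g * a + (K : ℝ) ^ 2) * τ ^ 2 := by positivity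
  have t2 : 0 ≤ (K : ℝ) ^ 2 * F ^ 4 / g := by positivity
  have t3 : 0 ≤ (K : ℝ) * F ^ 4 := by positivity
  have b2 := fun d => plane_bd h2 h4 hM hB haK ha2 haρ hg (d := d)
  obtain ⟨M, hMd⟩ : ∃ M : ℝ,
    M = (g * a + (K : ℝ) ^ 2) * τ ^ 2 + (K : ℝ) ^ 2 * F ^ 4 / g + K * F ^ 4 := ⟨_, rfl⟩
  rw [← hMd] at b2 ⊢
  have hM0 : 0 ≤ M := by linarith
  have e0 : ∑ k ∈ Icc 1 K, ∑ k' ∈ Icc 1 K, ∑ r ∈ Icc (-(R : ℤ)) R,
      Gam f ((k : ZMod a) * (k' : ZMod a)⁻¹) ((r : ZMod a) * (k' : ZMod a)⁻¹) =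
      ∑ t ∈ (Icc 1 K ×ˢ Icc 1 K) ×ˢ Icc (-(R : ℤ)) R, Wt f t := by
    rw [sum_product, sum_product]
    rfl
  rw [e0]
  have hsp := split3 ((Icc 1 K ×ˢ Icc 1 K) ×ˢ Icc (-(R : ℤ)) R) (Dv ρ)
    (fun t => g < Nat.gcd t.1.1 t.1.2) Pl (Wt f) fun _ => Gam_nonneg _ _ _
  obtain ⟨Z, hZ⟩ : ∃ Z : ℝ,
    Z = (R : ℝ) ^ 2 / ρ + R * (a : ℝ) ^ (1 / 3 : ℝ) + (R : ℝ) ^ 3 / a := ⟨_, rfl⟩
  have hZ0 : 0 ≤ Z := by rw [hZ]; positivity
  have c3 : (ρ : ℝ) ^ 3 * M + g * a + (R : ℝ) ^ 2 / ρ + R * (a : ℝ) ^ (1 / 3 : ℝ) +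
      (R : ℝ) ^ 3 / a = (ρ : ℝ) ^ 3 * M + g * a + Z := by rw [hZ]; ring
  rw [c3]
  refine hsp.trans (le_trans (add_le_add (add_le_add ?_ ?_) ?_) (fin_ineq (M := M) hC
    (le_mul_of_one_le_left hM0 (one_le_pow₀ hρ0)) (by positivity) (by positivity) hZ0))
  · refine (pairs_le _ _ (Wt f) _ (fun p => g < Nat.gcd p.1 p.2) (row_bd hB haK ha2)).trans ?_
    have h5 := (h2 a K g (fun _ => 0) 0 haK hg fun _ => ⟨le_rfl, le_rfl⟩).1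
    have h6 : (K : ℝ) ^ 2 / g * F ^ 4 ≤ M := by
      have : (K : ℝ) ^ 2 / g * F ^ 4 = (K : ℝ) ^ 2 * F ^ 4 / g := by ring
      linarith
    exact le_trans (mul_le_mul_of_nonneg_right h5 hF) h6
  · refine (sum_le_card_nsmul _ _ _ b2).trans ?_
    rw [nsmul_eq_mul]
    have c3 : ((Dv ρ).card : ℝ) ≤ 27 * (ρ : ℝ) ^ 3 := by
      exact_mod_cast card_Dv (by omega : 1 ≤ ρ)
    calc _ ≤ 27 * (ρ : ℝ) ^ 3 * (64 * M) := mul_le_mul_of_nonneg_right c3 (by positivity)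
      _ = _ := by ring
  · refine (fib_le f _ _ (h1 a ρ K R g _ hρ hKR haK ha fun t ht => ?_)).trans ?_
    · obtain ⟨u1, u2, u3⟩ := mem_filter.1 ht
      exact ⟨(mem_product.1 u1).1, (mem_product.1 u1).2, not_lt.1 u2, u3⟩
    · have hs : ∑ x, ∑ lam, Gam f x lam ≤ a := by
        rw [sum_congr rfl fun x _ => m1 x]
        exact m3
      refine (mul_le_mul_of_nonneg_left hs (by positivity)).trans (le_of_eq ?_)
      rw [hZ]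
      field_simp

end Pool.Agent.P.MP_746f10_nt.AP
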