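import Pool.Agent.P.MP_746f10_nt.AP.Base

/-! The bilinear terms are close to the model. -/

namespace Pool.Agent.P.MP_746f10_nt.AP

open Finset Filter

namespace IIP

lemma cs_bd (h0 : S_CS) (S : Finset ℕ) (m : ℕ) : 0 ≤ CS S m ∧ CS S m ≤ 1 := by
  rcases h0.1 S m with h | h <;> rw [h] <;> norm_num

lemma cs_rr (h0 : S_CS) {S : Finset ℕ} {j0 w : ℕ} (hS : ∀ j ∈ S, j0 ≤ j) (hw : w ≤ 2 ^ j0)
    (m : ℕ) : 0 ≤ CS S m ∧ CS S m ≤ rr w m := by
  refine ⟨(cs_bd h0 S m).1, ?_⟩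
  by_cases h : CS S m = 0
  · rw [h]; exact (rr_bd w m).1
  · rw [rr_of_rough (rough_anti hw ((h0.2.2.1 S m h).2.2 j0 hS))]
    exact (cs_bd h0 S m).2

lemma cs_supp (h0 : S_CS) {S : Finset ℕ} {n : ℕ} (hS : S.Nonempty) (hc : S.card ≤ n) (m : ℕ)
    (h : CS S m ≠ 0) : 2 ^ (∑ j ∈ S, j) < m ∧ m ≤ 2 ^ n * 2 ^ (∑ j ∈ S, j) := by
  obtain ⟨h1, h2, -⟩ := h0.2.2.1 S m h
  refine ⟨h1 hS, h2.trans ?_⟩
  rw [← pow_add]
  exact Nat.pow_le_pow_right (by norm_num) (by omega)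

/-- the data of a pattern -/
lemma exists_T2 (h0 : S_CS) {u Q w : ℕ} {S : Finset ℕ} (hu : 1 ≤ u) (hg : 3 * u + 3 ≤ lg Q)
    (hw : w ≤ 2 ^ (lg Q / u)) (hS : S ∈ Pats u Q) :
    ∃ d : T2 u Q w, 2 ^ lg Q ≤ d.L ∧ ∀ m, CS S m = cv d.al d.be m := by
  classical
  have hQ : 1 ≤ Q := by
    rcases Nat.eq_zero_or_pos Q with rfl | h
    · simp [lg] at hg
    · exact h
  have hlo := two_pow_lg_le hQ
  have hhi := (lt_two_pow_lg Q).le
  unfold Pats at hS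
  obtain ⟨hsub, hcard, hs1, hs2, S1, hS1, hs3, hs4⟩ := mem_filter.1 hS
  rw [mem_powerset] at hsub
  have hjS : ∀ j ∈ S, lg Q / u ≤ j := fun j hj => (mem_Icc.1 (hsub hj)).1
  have hsum : ∑ j ∈ S \ S1, j + ∑ j ∈ S1, j = ∑ j ∈ S, j := sum_sdiff hS1
  have hne1 : S1.Nonempty := by
    rcases S1.eq_empty_or_nonempty with rfl | h
    · rw [sum_empty] at hs3; omega
    · exact h
  have hne2 : (S \ S1).Nonempty := by
    rcases (S \ S1).eq_empty_or_nonempty with h | h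
    · rw [h, sum_empty] at hsum; omega
    · exact h
  obtain ⟨j, hj⟩ := hne1
  have hjle : j ≤ ∑ i ∈ S1, i := single_le_sum (f := fun i => i) (fun _ _ => Nat.zero_le _) hj
  have hj0 : 1 ≤ lg Q / u := (Nat.le_div_iff_mul_le hu).2 (by omega)
  have hdv : ∀ m, m ≤ 16 * Q ^ 2 → m ≤ 2 ^ (lg Q / u * (3 * u)) := by
    intro m hm
    have e1 := Nat.div_add_mod (lg Q) u
    have e2 := Nat.mod_lt (lg Q) hu
    have e3 : lg Q / u * (3 * u) = 3 * (u * (lg Q / u)) := by ring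
    calc m ≤ 16 * (2 ^ (lg Q + 1)) ^ 2 := hm.trans (by gcongr)
      _ = 2 ^ (2 * lg Q + 6) := by ring
      _ ≤ _ := Nat.pow_le_pow_right (by norm_num) (by omega)
  have hc1 : S1.card ≤ 3 * u := (card_le_card hS1).trans hcard
  have hc2 : (S \ S1).card ≤ 3 * u := (card_le_card sdiff_subset).trans hcard
  refine ⟨{ j := j
            K := 2 ^ (∑ i ∈ S1, i)
            L := 2 ^ (∑ i ∈ S \ S1, i)
            al := CS S1
            al' := CS (S1.erase j)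
            be := CS (S \ S1)
            fac := fun m => ?_
            al01 := cs_rr h0 (fun i hi => hjS i (hS1 hi)) hw
            al'01 := cs_bd h0 _
            be01 := cs_rr h0 (fun i hi => hjS i (sdiff_subset hi)) hw
            alS := cs_supp h0 ⟨j, hj⟩ hc1
            beS := cs_supp h0 hne2 hc2
            dv := fun m hm => ?_
            dv' := fun m hm => ?_
            hj := hjS j (hS1 hj)
            hj' := ?_
            hK := ?_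
            hK' := ?_
            hKL := ?_
            hKL' := ?_ }, ?_, fun m => ?_⟩
  · have e : S1 = {j} ∪ S1.erase j := by
      rw [← insert_eq, insert_erase hj]
    have e2 : CS {j} = bx j := prod_singleton _ _
    conv_lhs => rw [e]
    rw [h0.2.2.2.2 _ _ m (disjoint_singleton_left.2 (notMem_erase j S1)), e2]
  · have := h0.2.2.2.1 S1 _ (3 * u) m hj0 (fun i hi => hjS i (hS1 hi)) (hdv m hm)
    exact_mod_cast this
  · have := h0.2.2.2.1 (S1.erase j) _ (3 * u) m hj0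
      (fun i hi => hjS i (hS1 (mem_of_mem_erase hi))) (hdv m hm)
    exact_mod_cast this
  · unfold om
    rw [← pow_add]
    exact (Nat.pow_le_pow_right (by norm_num) (by omega)).trans hlo
  · calc Q ^ 3 ≤ (2 ^ (lg Q + 1)) ^ 3 := by gcongr
      _ = 2 ^ (3 * lg Q + 3) := by ring
      _ ≤ 2 ^ (5 * (∑ i ∈ S1, i) + 10) := Nat.pow_le_pow_right (by norm_num) (by omega)
      _ = _ := by ring
  · unfold om
    rw [← pow_add, ← pow_add]
    exact (Nat.pow_le_pow_right (by norm_num) (by omega)).trans hlo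
  · calc Q ^ 2 ≤ (2 ^ (lg Q + 1)) ^ 2 := by gcongr
      _ = 2 ^ (2 * lg Q + 2) := by ring
      _ ≤ 2 ^ (2 + 3 * u + (∑ i ∈ S1, i + ∑ i ∈ S \ S1, i)) :=
        Nat.pow_le_pow_right (by norm_num) (by omega)
      _ = _ := by ring
  · calc 2 ^ (∑ i ∈ S1, i) * 2 ^ (∑ i ∈ S \ S1, i) = 2 ^ (∑ i ∈ S1, i + ∑ i ∈ S \ S1, i) := by ring
      _ ≤ 2 ^ (2 * lg Q + 4) := Nat.pow_le_pow_right (by norm_num) (by omega)
      _ = 16 * (2 ^ lg Q) ^ 2 := by ring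
      _ ≤ _ := by gcongr
  · exact Nat.pow_le_pow_right (by norm_num) (by omega)
  · have e : S = S1 ∪ S \ S1 := (union_sdiff_of_subset hS1).symm
    conv_lhs => rw [e]
    exact h0.2.2.2.2 _ _ m disjoint_sdiff

end IIP

theorem pII (h0 : S_CS) (h1 : S_Diff) (h2 : S_Mod2) (h3 : S_Exc) (h4 : S_Match) : S_II := by
  intro u A hu
  obtain ⟨A', B, CL, Q1, h1⟩ := h1 u (A + 1) hu
  obtain ⟨Ch, Cw0, h2⟩ := h2 u (A + 1) (CL + 1)
  obtain ⟨C, Q3, h3⟩ := h3 u A' B hu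
  refine ⟨C, Ch, max B Cw0, fun Cw => ?_⟩
  obtain ⟨Q2, h2⟩ := h2 Cw
  obtain ⟨Q4, h5⟩ := ev_lg (p := fun g => (3 * u + 3 ≤ g ∧ 8 * 2 ^ (3 * u) ≤ g) ∧
      1 * g ^ Cw ≤ 2 ^ (g / u) ∧ 1 * g ^ CL ≤ 2 ^ g)
    (((eventually_ge_atTop _).and (eventually_ge_atTop _)).and
      ((ev_pow_le_div 1 Cw u hu).and (ev_pow_le_two_pow 1 CL)))
  refine ⟨max (max Q1 Q2) (max Q3 Q4), fun Q hQ => ?_⟩
  simp only [max_le_iff] at hQ
  obtain ⟨⟨hQ1, hQ2⟩, hQ3, hQ4⟩ := hQ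
  obtain ⟨E, hE, h3⟩ := h3 Q hQ3
  obtain ⟨⟨hg1, hg2⟩, hg3, hg4⟩ := h5 Q hQ4
  rw [one_mul] at hg3 hg4
  refine ⟨E, hE, fun a w S ha hQa haQ haE hw0 hw hS => ?_⟩
  obtain ⟨d, hL, hd⟩ := IIP.exists_T2 h0 hu hg1 (hw.trans hg3) hS
  have hgp : 1 ≤ lg Q := by omega
  have hpow : 0 < lg Q ^ CL := Nat.pow_pos hgp
  set L' := d.L / lg Q ^ CL with hL'
  have hL1 : 1 ≤ L' := (Nat.le_div_iff_mul_le hpow).2 (by rw [one_mul]; exact hg4.trans hL)
  have hL2 : L' * lg Q ^ CL ≤ d.L := Nat.div_mul_le_self _ _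
  have hL3 : d.L ≤ 2 * (L' * lg Q ^ CL) := by
    have e1 : d.L < lg Q ^ CL * (L' + 1) := Nat.lt_mul_div_succ _ hpow
    nlinarith
  have hKL : Q ^ 2 ≤ d.K * L' * lg Q ^ (CL + 1) := by
    calc Q ^ 2 ≤ 4 * 2 ^ (3 * u) * (d.K * d.L) := d.hKL
      _ ≤ 4 * 2 ^ (3 * u) * (d.K * (2 * (L' * lg Q ^ CL))) := by gcongr
      _ = d.K * L' * (lg Q ^ CL * (8 * 2 ^ (3 * u))) := by ring
      _ ≤ d.K * L' * (lg Q ^ CL * lg Q) := by gcongr
      _ = _ := by ring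
  have hB : lg Q ^ B ≤ w := (Nat.pow_le_pow_right hgp (le_max_left _ _)).trans hw0
  have hC0 : lg Q ^ Cw0 ≤ w := (Nat.pow_le_pow_right hgp (le_max_right _ _)).trans hw0
  have t1 := h1 Q a w d L' hQ1 ha hQa haQ (h3 a ha haQ haE) hB hL1 hL2
  have t2 := h2 Q a w d.K L' d.al (cb d.be w L') hQ2 ha hQa haQ hC0 hw d.al01 d.alS d.hK d.hK'
    (h4 d.be w d.L (2 ^ (3 * u)) L' d.be01).1 hKL
  refine ((t1.approx.add t2).congr fun n _ b _ => ?_).mono ?_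
  · rw [hd, ← cv_add]
    exact cv_congr (fun _ _ => rfl) (fun l _ => by unfold ga; ring) _
  · have hg : (2 : ℝ) ≤ lg Q := by exact_mod_cast (by omega : 2 ≤ lg Q)
    rw [← add_div, pow_succ, div_le_div_iff₀ (by positivity) (by positivity)]
    have : (0 : ℝ) < (lg Q : ℝ) ^ A := by positivity
    nlinarith

end Pool.Agent.P.MP_746f10_nt.AP
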