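import Pool.Agent.P.MP_746f10_nt.AP.Base

/-! The combinatorial identity for the indicator of the primes. -/

namespace Pool.Agent.P.MP_746f10_nt.AP

open Finset Filter
open scoped ArithmeticFunction.Moebius

namespace IdentP

/-- the index of the box -/
def ix (p : ℕ) : ℕ := Nat.log 2 (p - 1)

/-- the boxes of the prime factors -/
def tau (d : ℕ) : Finset ℕ := d.primeFactors.image ix

lemma mem_box {j p : ℕ} : p ∈ box j ↔ p.Prime ∧ ix p = j := by
  rw [box, mem_PP]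
  refine ⟨fun ⟨a, b, c⟩ => ⟨c, Nat.log_eq_of_pow_le_of_lt_pow (by omega) (by have := c.pos; omega)⟩,
    fun ⟨a, b⟩ => ?_⟩
  have := a.two_le
  have := (Nat.log_eq_iff (Or.inr ⟨one_lt_two, (by omega : p - 1 ≠ 0)⟩)).1 b
  exact ⟨by omega, by omega, a⟩

lemma bd {p : ℕ} (h : p.Prime) : 2 ^ ix p < p ∧ p ≤ 2 ^ (ix p + 1) :=
  let ⟨a, b, _⟩ := mem_PP.1 (mem_box.2 ⟨h, rfl⟩); ⟨a, b⟩

lemma pw {a b : ℕ} : 2 ^ a ≤ 2 ^ b ↔ a ≤ b := Nat.pow_le_pow_iff_right one_lt_two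

lemma pw' {a b : ℕ} : 2 ^ a < 2 ^ b ↔ a < b := Nat.pow_lt_pow_iff_right one_lt_two

lemma uniq (h : S_CS) {S : Finset ℕ} {m : ℕ} (hS : CS S m ≠ 0) : S = tau m := by
  obtain ⟨p, h1, rfl⟩ := (h.2.1 S m).1 hS
  have h2 := fun j hj => mem_box.1 (h1 j hj)
  ext j
  simp only [tau, mem_image, Nat.mem_primeFactors]
  refine ⟨fun hj => ⟨p j, ⟨(h2 j hj).1, dvd_prod_of_mem _ hj,
    prod_ne_zero_iff.2 fun i hi => (h2 i hi).1.ne_zero⟩, (h2 j hj).2⟩, fun ⟨q, ⟨a, b, _⟩, c⟩ => ?_⟩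
  obtain ⟨i, hi, d⟩ := (Prime.dvd_finsetProd_iff a.prime _).1 b
  rwa [← c, (Nat.prime_dvd_prime_iff_eq a (h2 i hi).1).1 d, (h2 i hi).2]

lemma sum_eq (h : S_CS) (P : Finset (Finset ℕ)) (f : Finset ℕ → ℝ) (m : ℕ) :
    ∑ S ∈ P, f S * CS S m = if tau m ∈ P then f (tau m) * CS (tau m) m else 0 := by
  rw [← sum_ite_eq' P (tau m) fun S => f S * CS S m]
  refine sum_congr rfl fun S _ => ?_
  split_ifs with h1
  · rw [h1]
  · rw [of_not_not (mt (uniq h) h1), mul_zero]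

section good

variable {m : ℕ} (h0 : m ≠ 0) (hb : ∀ j p p', p ∈ box j → p' ∈ box j → ¬ p * p' ∣ m)
include hb

lemma sqf : Squarefree m := Nat.squarefree_iff_prime_squarefree.2 fun p hp =>
  hb _ p p (mem_box.2 ⟨hp, rfl⟩) (mem_box.2 ⟨hp, rfl⟩)

lemma inj : Set.InjOn ix m.primeFactors := fun p hp q hq e => by
  have hp := Nat.mem_primeFactors.1 hp
  have hq := Nat.mem_primeFactors.1 hq
  by_contra h
  exact hb _ p q (mem_box.2 ⟨hp.1, e⟩) (mem_box.2 ⟨hq.1, rfl⟩)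
    (((Nat.coprime_primes hp.1 hq.1).2 h).mul_dvd_of_dvd_of_dvd hp.2.1 hq.2.1)

include h0

lemma tau_bd {d : ℕ} (hd : d ∣ m) : 2 ^ (∑ j ∈ tau d, j) ≤ d ∧
    d ≤ 2 ^ (∑ j ∈ tau d, j + (tau d).card) ∧ (μ d : ℝ) = (-1) ^ (tau d).card := by
  have h1 := (inj hb).mono (coe_subset.2 (Nat.primeFactors_mono hd h0))
  have h2 := (sqf hb).squarefree_of_dvd hd
  have h3 := Nat.prod_primeFactors_of_squarefree h2
  rw [tau, sum_image h1, card_image_of_injOn h1]
  refine ⟨?_, ?_, ?_⟩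
  · rw [← prod_pow_eq_pow_sum]
    exact (prod_le_prod' fun p hp => (bd (Nat.prime_of_mem_primeFactors hp)).1.le).trans h3.le
  · rw [card_eq_sum_ones, ← sum_add_distrib, ← prod_pow_eq_pow_sum]
    exact h3.ge.trans (prod_le_prod' fun p hp => (bd (Nat.prime_of_mem_primeFactors hp)).2)
  · rw [ArithmeticFunction.moebius_apply_of_squarefree h2,
      ← (ArithmeticFunction.cardDistinctFactors_eq_cardFactors_iff_squarefree h2.ne_zero).2 h2,
      ArithmeticFunction.cardDistinctFactors_apply, ← List.card_toFinset]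
    push_cast
    rfl

omit hb in
lemma tau_sub {d : ℕ} (hd : d ∣ m) : tau d ⊆ tau m :=
  image_subset_image (Nat.primeFactors_mono hd h0)

omit hb h0 in
lemma tau_surj {T : Finset ℕ} (hT : T ⊆ tau m) : ∃ d, d ∣ m ∧ tau d = T := by
  obtain ⟨T', h1, rfl⟩ := subset_image_iff.1 hT
  exact ⟨∏ p ∈ T', p, (prod_dvd_prod_of_subset _ _ _ h1).trans (Nat.prod_primeFactors_dvd m), by
    rw [tau, Nat.primeFactors_prod fun p hp => Nat.prime_of_mem_primeFactors (h1 hp)]⟩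

lemma tau_inj {d d' : ℕ} (hd : d ∣ m) (hd' : d' ∣ m) (e : tau d = tau d') : d = d' := by
  have h1 := ((inj hb).image_eq_image_iff (coe_subset.2 (Nat.primeFactors_mono hd h0))
    (coe_subset.2 (Nat.primeFactors_mono hd' h0))).1 (by rwa [← coe_image, ← coe_image, coe_inj])
  rw [← Nat.prod_primeFactors_of_squarefree ((sqf hb).squarefree_of_dvd hd), coe_inj.1 h1,
    Nat.prod_primeFactors_of_squarefree ((sqf hb).squarefree_of_dvd hd')]

omit h0 in
lemma cs_one (h : S_CS) : CS (tau m) m = 1 := by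
  refine (h.1 _ _).resolve_left ((h.2.1 _ _).2 ⟨Function.invFunOn ix m.primeFactors,
    fun j hj => ?_, ?_⟩)
  · have h1 : ∃ p ∈ (m.primeFactors : Set ℕ), ix p = j := by simpa [tau] using hj
    exact mem_box.2 ⟨Nat.prime_of_mem_primeFactors (Function.invFunOn_mem h1),
      Function.invFunOn_eq h1⟩
  · rw [tau, prod_image (inj hb), prod_congr rfl fun p hp => (inj hb).leftInvOn_invFunOn hp,
      Nat.prod_primeFactors_of_squarefree (sqf hb)]

lemma sig_eq {Q : ℕ} (hc : (tau m).card ≤ Nat.sqrt (lg Q))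
    (hw : ∀ d, d ∣ m → d ≤ DD Q → d * om Q ≤ DD Q) : sigD Q m = sg Q (tau m) := by
  have key : ∀ d, d ∣ m → (d ≤ DD Q ↔ ∑ j ∈ tau d, j + (tau d).card ≤ 7 * lg Q / 10) :=
    fun d hd => by
      obtain ⟨a, b, -⟩ := tau_bd h0 hb hd
      refine ⟨fun h => ?_, fun h => b.trans (pw.2 h)⟩
      have h1 := (Nat.mul_le_mul_right _ a).trans (hw d hd h)
      rw [om, DD, ← pow_add, pw] at h1
      have := card_le_card (tau_sub h0 hd)
      omega
  refine sum_nbij tau (fun d hd => ?_) (fun d hd d' hd' => ?_) (fun T hT => ?_) fun d hd => ?_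
  · obtain ⟨a, b⟩ := mem_filter.1 hd
    have a := Nat.dvd_of_mem_divisors a
    exact mem_filter.2 ⟨mem_powerset.2 (tau_sub h0 a), (key d a).1 b⟩
  · exact tau_inj h0 hb (Nat.dvd_of_mem_divisors (mem_filter.1 hd).1)
      (Nat.dvd_of_mem_divisors (mem_filter.1 hd').1)
  · obtain ⟨a, b⟩ := mem_filter.1 hT
    obtain ⟨d, hd, rfl⟩ := tau_surj (mem_powerset.1 a)
    exact ⟨d, mem_filter.2 ⟨Nat.mem_divisors.2 ⟨hd, h0⟩, (key d hd).2 b⟩, rfl⟩
  · exact (tau_bd h0 hb (Nat.dvd_of_mem_divisors (mem_filter.1 hd).1)).2.2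

end good

/-- no divisor in the middle range: the truncated sum vanishes -/
lemma van {m A D : ℕ} (hp : ¬ m.Prime) (h1 : 1 ≤ A) (hA : A ≤ D) (h3 : A ^ 3 < m) (hD : D * A < m)
    (h : ∀ d e, m = d * e → d ≤ A ∨ e ≤ A) : ∑ d ∈ m.divisors.filter (· ≤ D), (μ d : ℝ) = 0 := by
  have h0 : m ≠ 0 := by omega
  obtain ⟨d, hd, hmax⟩ := exists_max_image (m.divisors.filter (· ≤ A)) id ⟨1, by simp [h0, h1]⟩
  obtain ⟨hd1, hd2⟩ := mem_filter.1 hd
  obtain ⟨e, he⟩ := Nat.dvd_of_mem_divisors hd1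
  have hA3 : A ≤ A ^ 3 := Nat.le_self_pow (by norm_num) A
  obtain ⟨p, hp1, f, rfl⟩ := Nat.exists_prime_and_dvd (n := e) (by rintro rfl; omega)
  have hd0 : 0 < d := Nat.pos_of_mem_divisors hd1
  have hf : f ≤ A := (h (d * p) f (by rw [he, mul_assoc])).resolve_left fun hle => by
    have : d * p ≤ d := hmax _ (mem_filter.2 ⟨Nat.mem_divisors.2 ⟨⟨f, by rw [he, mul_assoc]⟩, h0⟩,
      hle⟩)
    nlinarith [hp1.two_le]
  have he' : m = p * (d * f) := by rw [he]; ring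
  have hm : d * f ≤ A := (h p _ he').resolve_left fun hle => by
    have : p * (d * f) ≤ A * (A * A) := Nat.mul_le_mul hle (Nat.mul_le_mul hd2 hf)
    have e3 : A * (A * A) = A ^ 3 := by ring
    omega
  have hpD : D < p := lt_of_not_ge fun hle => by
    have := Nat.mul_le_mul hle hm
    omega
  generalize d * f = n at he' hm
  have hn0 : n ≠ 0 := by rintro rfl; omega
  have hn1 : n ≠ 1 := by rintro rfl; exact hp (by rwa [he', mul_one])
  have h4 : m.divisors.filter (· ≤ D) = n.divisors := by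
    ext x
    simp only [mem_filter, Nat.mem_divisors]
    refine ⟨fun ⟨⟨a, _⟩, b⟩ => ⟨Nat.Coprime.dvd_of_dvd_mul_left (Nat.coprime_of_lt_prime
      (ne_zero_of_dvd_ne_zero h0 a) (by omega) hp1).symm (he' ▸ a), hn0⟩, fun ⟨a, _⟩ =>
      ⟨⟨he' ▸ a.mul_left p, h0⟩, (Nat.le_of_dvd (by omega) a).trans (hm.trans hA)⟩⟩
  have h5 := congrArg (· n) (ArithmeticFunction.coe_moebius_mul_coe_zeta (R := ℝ))
  simp only [ArithmeticFunction.coe_mul_zeta_apply, ArithmeticFunction.one_apply_ne hn1] at h5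
  rw [h4]
  exact h5

lemma abs_sg (Q : ℕ) (S : Finset ℕ) : |sg Q S| ≤ 2 ^ S.card := by
  refine (abs_sum_le_sum_abs _ _).trans ?_
  simp only [abs_pow, abs_neg, abs_one, one_pow, sum_const, nsmul_eq_mul, mul_one]
  exact_mod_cast (card_filter_le _ _).trans (card_powerset S).le

lemma abs_sig (Q m : ℕ) : |sigD Q m| ≤ m.divisors.card := by
  refine (abs_sum_le_sum_abs _ _).trans ((sum_le_card_nsmul _ _ 1 fun d _ => ?_).trans ?_)
  · exact_mod_cast ArithmeticFunction.abs_moebius_le_one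
  · simpa using card_filter_le _ _

end IdentP

open IdentP in
theorem pIdent (h : S_CS) : S_Ident := by
  intro u hu
  obtain ⟨Q0, hQ0⟩ := ev_lg ((eventually_ge_atTop (100 * u)).and
    (tendsto_sqrt.eventually_ge_atTop (3 * u)))
  refine ⟨Q0, fun Q m hQ hm1 hm2 => ?_⟩
  obtain ⟨hg, hs⟩ := hQ0 Q hQ
  have hQ1 : 1 ≤ Q := Nat.pos_of_ne_zero (by rintro rfl; simp [lg] at hg; omega)
  have l1 : 2 ^ (2 * lg Q) ≤ m := by
    rw [mul_comm, pow_mul]
    exact (Nat.pow_le_pow_left (two_pow_lg_le hQ1) 2).trans hm1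
  have l2 : m < 2 ^ (2 * lg Q + 4) := by
    have := Nat.pow_le_pow_left (lt_two_pow_lg Q).le 2
    rw [← pow_mul] at this
    rw [show 2 * lg Q + 4 = (lg Q + 1) * 2 + 2 by ring, pow_add]
    omega
  have h0 : m ≠ 0 := by have := Nat.two_pow_pos (2 * lg Q); omega
  have l3 : 2 * lg Q + 4 ≤ lg Q / u * (3 * u) := by
    have := Nat.div_add_mod (lg Q) u
    have := Nat.mod_lt (lg Q) hu
    rw [mul_left_comm, mul_comm _ u]
    omega
  have l4 : lg Q / u ≤ lg Q := Nat.div_le_self _ _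
  have big : ∀ a, a < 2 * lg Q → 2 ^ a < m := fun a ha => (pw'.2 ha).trans_le l1
  have hP : ∀ S, S ∈ Pats u Q ↔ S ⊆ Icc (lg Q / u) (2 * lg Q + 4) ∧ S.card ≤ 3 * u ∧
      2 * lg Q ≤ ∑ j ∈ S, j + S.card ∧ ∑ j ∈ S, j ≤ 2 * lg Q + 4 ∧ ∃ S1 ⊆ S,
        3 * lg Q / 5 ≤ ∑ j ∈ S1, j ∧ ∑ j ∈ S1, j + 3 * u + Nat.sqrt (lg Q) ≤ lg Q := fun S => by
    rw [Pats, mem_filter, mem_powerset]
  rw [sum_eq h]
  by_cases hr : rough (zz u Q) m
  swap
  · have h1 : ¬ m.Prime := fun hp => hr fun p hp' hd => by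
      rw [(Nat.prime_dvd_prime_iff_eq hp' hp).1 hd]
      exact big _ (by omega)
    have h2 : (if tau m ∈ Pats u Q then sg Q (tau m) * CS (tau m) m else 0) = 0 := by
      split_ifs with h3
      · rw [of_not_not fun h4 => hr ((h.2.2.1 _ _ h4).2.2 _ fun j hj =>
          (mem_Icc.1 (((hP _).1 h3).1 hj)).1), mul_zero]
      · rfl
    rw [h2, pr1, rr, if_neg h1, if_neg hr, zero_mul, sub_zero, add_zero, abs_zero]
    exact mul_nonneg (by positivity) (bad_bd _ _ _).1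
  rw [rr_of_rough hr, one_mul, bad]
  split_ifs with h1 h2 h2
  any_goals
    have a1 : |sigD Q m| ≤ 2 ^ (3 * u) := (abs_sig Q m).trans (by
      exact_mod_cast card_divisors_le_of_rough _ m h0 hr (by
        rw [zz, ← pow_mul, mul_add]
        exact l2.le.trans (pw.2 (by omega))))
    have a2 : (1 : ℝ) ≤ 2 ^ (3 * u) := one_le_pow₀ one_le_two
    have a3 := pr1_bd m
    have a4 := abs_le.1 a1
  · have a5 := abs_le.1 ((abs_sg Q (tau m)).trans (pow_le_pow_right₀ one_le_two ((hP _).1 h1).2.1))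
    rcases h.1 (tau m) m with e | e <;> rw [e, abs_le] <;> constructor <;> linarith
  on_goal 2 => rw [abs_le]; constructor <;> linarith
  all_goals
    rw [and_iff_right hr, not_or] at h2
    have hb : ∀ j p p', p ∈ box j → p' ∈ box j → ¬ p * p' ∣ m := fun j p p' a b c =>
      h2.1 ⟨j, p, p', a, b, c⟩
    have hlo : ∀ j ∈ tau m, lg Q / u ≤ j := fun j hj => by
      obtain ⟨p, hp, rfl⟩ := mem_image.1 hj
      have hp := Nat.mem_primeFactors.1 hp
      exact Nat.lt_succ_iff.1 (pw'.1 ((hr p hp.1 hp.2.1).trans_le (bd hp.1).2))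
    obtain ⟨b1, b2, -⟩ := tau_bd h0 hb (dvd_refl m)
    have b3 := pw'.1 (b1.trans_lt l2)
    have b4 : (tau m).card ≤ 3 * u := by
      have := card_nsmul_le_sum _ _ _ hlo
      rw [smul_eq_mul, mul_comm] at this
      exact (Nat.lt_of_mul_lt_mul_left (a := lg Q / u) (by omega)).le
    rw [mul_zero, abs_nonpos_iff, pr1]
  · rw [cs_one hb h, sig_eq h0 hb (b4.trans hs) fun d hd hle => le_of_not_gt fun hlt =>
      h2.2 ⟨d, hd, Or.inl ⟨hlt, hle⟩⟩, if_neg fun hp => ?_]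
    · ring
    obtain ⟨S1, c1, c2, c3⟩ := ((hP _).1 h1).2.2.2.2
    obtain ⟨d, hd, rfl⟩ := tau_surj c1
    rcases (Nat.dvd_prime hp).1 hd with rfl | rfl
    · simp [tau] at c2
      omega
    · exact (big _ (by omega)).not_ge b2
  rw [add_zero, sub_eq_zero, sigD]
  split_ifs with hp
  · rw [hp.divisors, filter_insert, if_pos (show 1 ≤ DD Q from Nat.one_le_two_pow),
      filter_singleton, if_neg (show ¬ m ≤ DD Q from (big _ (by omega)).not_ge)]
    simp
  have c1 : ∀ d, d ∣ m → d ≤ 2 ^ (lg Q + 2) → d ≤ 2 ^ (3 * lg Q / 5 + 3 * u) := fun d hd hle => by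
    obtain ⟨c2, c3, -⟩ := tau_bd h0 hb hd
    have c4 := (Nat.mul_le_mul_right _ c2).trans (le_of_not_gt fun hlt =>
      h2.2 ⟨d, hd, Or.inr ⟨hlt, hle⟩⟩)
    rw [om, ← pow_mul, ← pow_add, pw] at c4
    have c5 := card_le_card (tau_sub h0 hd)
    refine c3.trans (pw.2 (Nat.add_le_add (le_of_not_gt fun c6 => h1 ((hP _).2
      ⟨fun j hj => mem_Icc.2 ⟨hlo j hj, (single_le_sum (f := fun j => j)
        (fun _ _ => Nat.zero_le _) hj).trans b3.le⟩, b4, pw.1 (l1.trans b2), b3.le, tau d,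
        tau_sub h0 hd, c6.le, by omega⟩)) (c5.trans b4)))
  refine (van hp Nat.one_le_two_pow (pw.2 (by omega)) ?_ ?_ fun d e he =>
    Or.imp (c1 d ⟨e, he⟩) (c1 e ⟨d, he.trans (mul_comm _ _)⟩) ?_).symm
  · rw [← pow_mul]
    exact big _ (by omega)
  · rw [← pow_add]
    exact big _ (by omega)
  · by_contra hc
    rw [not_or, not_le, not_le] at hc
    have := Nat.mul_le_mul hc.1.le hc.2.le
    rw [← pow_add, ← he, show lg Q + 2 + (lg Q + 2) = 2 * lg Q + 4 by ring] at this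
    omega

end Pool.Agent.P.MP_746f10_nt.AP
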