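import Pool.Agent.P.MP_746f10_nt.AP.Base

/-! Rough numbers in intervals. -/

namespace Pool.Agent.P.MP_746f10_nt.AP

open Finset

namespace IntP

lemma dd_eq (q m : ℕ) : dd m q = if m ≡ 0 [MOD q] then (1 : ℝ) else 0 := by
  unfold dd
  exact if_congr Nat.modEq_zero_iff_dvd.symm rfl rfl

lemma ex_root (s Y : ℕ) (hs : s ≠ 0) : ∃ w : ℕ, w ^ s ≤ Y ∧ Y < (w + 1) ^ s := by
  induction Y with
  | zero => exact ⟨0, by simp [hs], by simp⟩
  | succ n ih =>
    obtain ⟨w, h1, h2⟩ := ih
    rcases Nat.lt_or_ge (n + 1) ((w + 1) ^ s) with h | h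
    · exact ⟨w, by omega, h⟩
    · refine ⟨w + 1, h, ?_⟩
      have := Nat.pow_lt_pow_left (Nat.lt_succ_self (w + 1)) hs
      simp only [Nat.succ_eq_add_one] at this
      omega

lemma small (z Y : ℕ) (h : Y ≤ z) : ∑ l ∈ Icc 1 Y, rr z l ≤ 1 := by
  have h1 : ∀ l ∈ Icc 1 Y, rr z l ≤ if l = 1 then 1 else 0 := by
    intro l hl
    split_ifs with h1
    · exact (rr_bd z l).2
    · by_contra h2
      have h3 : rough z l := rough_of_rr fun h4 => h2 h4.le
      have h4 := mem_Icc.1 hl
      have h5 := h3 l.minFac (Nat.minFac_prime h1) (Nat.minFac_dvd l)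
      have h6 := Nat.minFac_le (n := l) (by omega)
      omega
  refine (sum_le_sum h1).trans ?_
  rw [sum_ite_eq']
  split_ifs <;> norm_num

end IntP

open IntP

theorem pInt : S_Int := by
  obtain ⟨k0, hk⟩ := exists_sieve 1 zero_le_one
  refine ⟨k0, fun mm w x y hw => ?_⟩
  obtain ⟨s⟩ := hk mm w (PP 0 w) hw fun p hp => ⟨PP_prime hp, (mem_PP.1 hp).2.1⟩
  have h := s.two_sided (fun p hp => PP_prime hp) (Ico x (x + y)) (fun _ => 1) dd
    (fun p => 1 / (p : ℝ)) y 1 (Nat.cast_nonneg y) zero_le_one (fun _ _ => zero_le_one)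
    (fun a _ p _ => dd_bd a p)
    (fun p hp => by
      have := PP_two hp
      refine ⟨by positivity, le_rfl, ?_⟩
      rw [div_le_iff₀ (by linarith)]; linarith)
    (fun T hT _ => by
      have hT' : ∀ p ∈ T, p.Prime := fun p hp => PP_prime (hT hp)
      have hq : 0 < ∏ p ∈ T, p := prod_pos fun p hp => (hT' p hp).pos
      have h1 := count_class hq 0 (Nat.le_add_right x y)
      simp only [one_mul, prod_dd hT']
      simp only [dd_eq]
      convert h1 using 3
      rw [prod_div_distrib, prod_const_one]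
      push_cast
      ring)
  simp only [one_mul, prod_one_sub_dd] at h
  refine h.trans (le_of_eq ?_)
  unfold VV
  push_cast
  ring

theorem pUp (h : S_Int) : S_Up := by
  obtain ⟨k0, hk⟩ := h
  obtain ⟨D, hD⟩ : ∃ D, D = 4 * (k0 + 0) + 6 := ⟨_, rfl⟩
  have hD1 : 1 ≤ D := by omega
  have hD1' : (1 : ℝ) ≤ D := by exact_mod_cast hD1
  refine ⟨12 * D, by linarith, fun z Y hz => ?_⟩
  have hz' : (2 : ℝ) ≤ z := by exact_mod_cast hz
  have hl : 0 < Real.log z := Real.log_pos (by linarith)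
  have hY0 : (0 : ℝ) ≤ Y := Nat.cast_nonneg Y
  rcases le_or_gt Y z with hY | hY
  · refine (small z Y hY).trans (le_add_of_nonneg_right (by positivity))
  refine le_trans ?_ (le_add_of_nonneg_left zero_le_one)
  rw [le_div_iff₀ hl]
  obtain ⟨v, h1, h2⟩ := ex_root (2 * D) Y (by omega)
  have h3 : Real.log z ≤ 2 * D * Real.log (v + 1) := by
    have h4 : (z : ℝ) ≤ (v + 1) ^ (2 * D) := by exact_mod_cast (hY.trans h2).le
    have h5 := Real.log_le_log (by linarith) h4
    rw [Real.log_pow] at h5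
    exact_mod_cast h5
  rcases Nat.lt_or_ge v 2 with hv | hv
  · have h4 : Real.log (v + 1) ≤ 1 := by
      have h5 : (v : ℝ) ≤ 1 := by exact_mod_cast Nat.lt_succ_iff.1 hv
      have := Real.log_le_sub_one_of_pos (x := (v : ℝ) + 1) (by positivity)
      linarith
    have h5 : ∑ l ∈ Icc 1 Y, rr z l ≤ Y := by
      have := sum_le_card_nsmul (Icc 1 Y) (rr z) 1 fun l _ => (rr_bd z l).2
      simpa using this
    have h6 : Real.log z ≤ 12 * D := by nlinarith
    calc _ ≤ (Y : ℝ) * (12 * D) := mul_le_mul h5 h6 hl.le hY0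
      _ = _ := by ring
  · have hv' : (2 : ℝ) ≤ v := by exact_mod_cast hv
    have h4 : Real.log (v + 1) ≤ 2 * Real.log v := by
      have h5 : (v : ℝ) + 1 ≤ v ^ 2 := by nlinarith
      have h6 := Real.log_le_log (by linarith) h5
      rw [Real.log_pow] at h6
      exact_mod_cast h6
    have h5 : Real.log z ≤ 4 * D * Real.log v := by nlinarith
    obtain ⟨w, hw⟩ : ∃ w, w = min z v := ⟨_, rfl⟩
    have hw2 : 2 ≤ w := by omega
    have hwz : w ≤ z := by omega
    have hwv : w ≤ v := by omega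
    have h6 : Real.log z ≤ 4 * D * Real.log w := by
      rcases min_choice z v with h7 | h7
      · rw [hw, h7]; nlinarith
      · rw [hw, h7]; exact h5
    have h7 := hk 0 w 1 Y hw2
    rw [← hD, pow_zero, div_one, add_comm 1 Y, Ico_add_one_right_eq_Icc] at h7
    have h8 : ∑ l ∈ Icc 1 Y, rr z l ≤ 2 * (Y * VV w) + (v : ℝ) ^ D := by
      have h9 : ∑ l ∈ Icc 1 Y, rr z l ≤ ∑ l ∈ Icc 1 Y, rr w l :=
        sum_le_sum fun l _ => rr_anti hwz l
      have h10 : (w : ℝ) ^ D ≤ (v : ℝ) ^ D := by gcongr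
      have := (abs_le.1 h7).2
      linarith
    have h9 : VV w * Real.log z ≤ 4 * D := by
      have h10 := VV_mul_log_le' w
      have h11 := mul_le_mul_of_nonneg_left h6 (VV_pos w).le
      nlinarith
    have h10 : (v : ℝ) ^ D * Real.log z ≤ 4 * D * Y := by
      have h11 : Real.log v ≤ (v : ℝ) ^ D := by
        have h12 := Real.log_le_sub_one_of_pos (x := (v : ℝ)) (by linarith)
        have h13 : (v : ℝ) ≤ v ^ D := le_self_pow₀ (by linarith) (by omega)
        linarith
      have h12 : (v : ℝ) ^ D * v ^ D ≤ Y := by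
        rw [← pow_add, ← two_mul]; exact_mod_cast h1
      have h13 : (0 : ℝ) ≤ v ^ D := by positivity
      calc _ ≤ (v : ℝ) ^ D * (4 * D * v ^ D) := by
            refine mul_le_mul_of_nonneg_left (h5.trans ?_) h13
            gcongr
        _ = 4 * D * (v ^ D * v ^ D) := by ring
        _ ≤ _ := by gcongr
    have h11 := mul_le_mul_of_nonneg_right h8 hl.le
    have h12 := mul_le_mul_of_nonneg_left h9 hY0
    nlinarith

end Pool.Agent.P.MP_746f10_nt.AP
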