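import Pool.Agent.P.MP_746f10_nt.AP.Base

/-! The primes dominate the model in cut norm. -/

namespace Pool.Agent.P.MP_746f10_nt.AP

open Finset Filter

namespace KPP

variable {a Q w hh : ℕ} {G err ν : ℕ → ℝ} {δ : ℝ}

/-- the block model against the primes -/
lemma model_sub (hQa : Q ≤ a) (ha : a ≤ 2 * Q)
    (hG : ∀ m, Q ^ 2 ≤ m → m < 4 * Q ^ 2 → |pr1 m - G m| ≤ err m)
    (hs : SmallR a Q (fun m => G m - ν (m / a / hh) * rr w m) δ) {u v : ℕ → ℝ}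
    (hu : ∀ n, 0 ≤ u n ∧ u n ≤ 1) (hv : ∀ b, 0 ≤ v b ∧ v b ≤ 1) :
    |∑ n ∈ Ico Q (2 * Q), ∑ b ∈ Ico 1 a, ν (n / hh) * rr w (a * n + b) * u n * v b -
        Br a Q pr1 u v| ≤
      δ * a * Q + ∑ n ∈ Ico Q (2 * Q), u n * ∑ b ∈ Ico 1 a, err (a * n + b) := by
  have h1 := hs.real (u := u) (v := v) (fun n => abs_le.2 ⟨by linarith [(hu n).1], (hu n).2⟩)
    (fun b => abs_le.2 ⟨by linarith [(hv b).1], (hv b).2⟩)
  have h2 : |∑ n ∈ Ico Q (2 * Q), ∑ b ∈ Ico 1 a, (pr1 (a * n + b) - G (a * n + b)) * u n * v b| ≤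
      ∑ n ∈ Ico Q (2 * Q), u n * ∑ b ∈ Ico 1 a, err (a * n + b) := by
    refine (abs_sum_le_sum_abs _ _).trans (sum_le_sum fun n hn => ?_)
    rw [mul_sum]
    refine (abs_sum_le_sum_abs _ _).trans (sum_le_sum fun b hb => ?_)
    have hn' := mem_Ico.1 hn
    have hb' := mem_Ico.1 hb
    have h3 := hG (a * n + b) (by nlinarith [Nat.mul_le_mul hQa hn'.1]) (by
      have : a * (n + 1) ≤ 2 * Q * (2 * Q) := Nat.mul_le_mul ha (by omega)
      nlinarith)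
    rw [abs_mul, abs_mul, abs_of_nonneg (hu n).1, abs_of_nonneg (hv b).1]
    have h4 : |pr1 (a * n + b) - G (a * n + b)| * u n ≤ err (a * n + b) * u n :=
      mul_le_mul_of_nonneg_right h3 (hu n).1
    calc _ ≤ |pr1 (a * n + b) - G (a * n + b)| * u n :=
          mul_le_of_le_one_right (mul_nonneg (abs_nonneg _) (hu n).1) (hv b).2
      _ ≤ _ := by rw [mul_comm (u n)]; exact h4
  have e : ∑ n ∈ Ico Q (2 * Q), ∑ b ∈ Ico 1 a, ν (n / hh) * rr w (a * n + b) * u n * v b -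
        Br a Q pr1 u v = -Br a Q (fun m => G m - ν (m / a / hh) * rr w m) u v -
      ∑ n ∈ Ico Q (2 * Q), ∑ b ∈ Ico 1 a, (pr1 (a * n + b) - G (a * n + b)) * u n * v b := by
    unfold Br
    rw [← sum_neg_distrib, ← sum_sub_distrib, ← sum_sub_distrib]
    refine sum_congr rfl fun n _ => ?_
    rw [← sum_neg_distrib, ← sum_sub_distrib, ← sum_sub_distrib]
    refine sum_congr rfl fun b hb => ?_
    simp only [row_div hb]
    ring
  rw [e]
  have := abs_le.1 h1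
  have := abs_le.1 h2
  exact abs_le.2 ⟨by linarith, by linarith⟩

/-- a sum over a union of blocks -/
lemma sum_blocks {F : ℕ → ℝ} {B : ℝ} {M : ℕ} (hB : 0 ≤ B) (hpos : 1 ≤ hh) (hM : 2 * Q ≤ M * hh)
    (hF : ∀ n1 n2, Q ≤ n1 → n1 ≤ n2 → n2 ≤ 2 * Q → ∑ n ∈ Ico n1 n2, F n ≤ B) {z : ℕ → ℝ}
    (hz : ∀ s, 0 ≤ z s ∧ z s ≤ 1) : ∑ n ∈ Ico Q (2 * Q), z (n / hh) * F n ≤ M * B := by
  have hmap : ∀ n ∈ Ico Q (2 * Q), n / hh ∈ range M := fun n hn =>
    mem_range.2 ((Nat.div_lt_iff_lt_mul hpos).2 (lt_of_lt_of_le (mem_Ico.1 hn).2 hM))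
  rw [← sum_fiberwise_of_maps_to hmap]
  have key : ∀ s ∈ range M,
      ∑ n ∈ (Ico Q (2 * Q)).filter (fun n => n / hh = s), z (n / hh) * F n ≤ B := by
    intro s _
    have e1 : (Ico Q (2 * Q)).filter (fun n => n / hh = s) =
        Ico (max Q (s * hh)) (min (2 * Q) ((s + 1) * hh)) := by
      ext n
      rw [mem_filter, mem_Ico, mem_Ico, max_le_iff, lt_min_iff, le_antisymm_iff,
        Nat.le_div_iff_mul_le hpos, ← Nat.lt_succ_iff (m := n / hh), Nat.div_lt_iff_lt_mul hpos]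
      tauto
    have e2 : ∑ n ∈ (Ico Q (2 * Q)).filter (fun n => n / hh = s), z (n / hh) * F n =
        z s * ∑ n ∈ (Ico Q (2 * Q)).filter (fun n => n / hh = s), F n := by
      rw [mul_sum]
      exact sum_congr rfl fun n hn => by rw [(mem_filter.1 hn).2]
    have e3 : ∑ n ∈ (Ico Q (2 * Q)).filter (fun n => n / hh = s), F n ≤ B := by
      rw [e1]
      rcases le_or_gt (max Q (s * hh)) (min (2 * Q) ((s + 1) * hh)) with h | h
      · exact hF _ _ (le_max_left _ _) h (min_le_left _ _)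
      · rw [Ico_eq_empty_of_le h.le, sum_empty]
        exact hB
    rw [e2]
    calc _ ≤ z s * B := mul_le_mul_of_nonneg_left e3 (hz s).1
      _ ≤ B := mul_le_of_le_one_left hB (hz s).2
  refine (sum_le_sum key).trans (le_of_eq ?_)
  rw [sum_const, card_range, nsmul_eq_mul]

/-- the total deficiency of the block densities -/
lemma defic {κ c B : ℝ} {M : ℕ} (hQa : Q ≤ a) (ha : a ≤ 2 * Q) (he : ∀ m, 0 ≤ err m)
    (hG : ∀ m, Q ^ 2 ≤ m → m < 4 * Q ^ 2 → |pr1 m - G m| ≤ err m)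
    (hs : SmallR a Q (fun m => G m - ν (m / a / hh) * rr w m) δ) (hB : 0 ≤ B) (hpos : 1 ≤ hh)
    (hM : 2 * Q ≤ M * hh) (hrow : ∀ n, Q ≤ n → κ * ∑ b ∈ Ico 1 a, rr w (a * n + b) ≤ c)
    (hF : ∀ n1 n2, Q ≤ n1 → n1 ≤ n2 → n2 ≤ 2 * Q →
      ∑ n ∈ Ico n1 n2, (c - ∑ b ∈ Ico 1 a, pr1 (a * n + b)) ≤ B) :
    ∑ n ∈ Ico Q (2 * Q), max (κ - ν (n / hh)) 0 * ∑ b ∈ Ico 1 a, rr w (a * n + b) ≤
      M * B + δ * a * Q + ∑ n ∈ Ico Q (2 * Q), ∑ b ∈ Ico 1 a, err (a * n + b) := by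
  let z : ℕ → ℝ := fun s => if ν s < κ then 1 else 0
  have hz : ∀ s, 0 ≤ z s ∧ z s ≤ 1 := fun s => by
    simp only [z]
    split_ifs <;> norm_num
  have h1 := sum_blocks hB hpos hM hF hz
  have h2 := (abs_le.1 (model_sub hQa ha hG hs (u := fun n => z (n / hh)) (v := fun _ => 1)
    (fun n => hz _) fun _ => ⟨zero_le_one, le_rfl⟩)).1
  have h3 : ∑ n ∈ Ico Q (2 * Q), z (n / hh) * ∑ b ∈ Ico 1 a, err (a * n + b) ≤
      ∑ n ∈ Ico Q (2 * Q), ∑ b ∈ Ico 1 a, err (a * n + b) :=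
    sum_le_sum fun n _ => mul_le_of_le_one_left (sum_nonneg fun _ _ => he _) (hz _).2
  have h4 : ∑ n ∈ Ico Q (2 * Q), max (κ - ν (n / hh)) 0 * ∑ b ∈ Ico 1 a, rr w (a * n + b) ≤
      ∑ n ∈ Ico Q (2 * Q), z (n / hh) * (c - ∑ b ∈ Ico 1 a, pr1 (a * n + b)) -
      (∑ n ∈ Ico Q (2 * Q), ∑ b ∈ Ico 1 a, ν (n / hh) * rr w (a * n + b) * z (n / hh) * 1 -
        Br a Q pr1 (fun n => z (n / hh)) fun _ => 1) := by
    unfold Br
    rw [← sum_sub_distrib, ← sum_sub_distrib]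
    refine sum_le_sum fun n hn => ?_
    have h5 := hrow n (mem_Ico.1 hn).1
    simp only [mul_one]
    rw [← sum_mul, ← sum_mul, ← mul_sum]
    by_cases h : ν (n / hh) < κ
    · have e : z (n / hh) = 1 := if_pos h
      rw [e, max_eq_left (by linarith)]
      linarith
    · have e : z (n / hh) = 0 := if_neg h
      rw [e, max_eq_right (by linarith)]
      simp
  linarith

/-- the main inequality -/
lemma main_le {κ : ℝ} (hQa : Q ≤ a) (ha : a ≤ 2 * Q)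
    (hG : ∀ m, Q ^ 2 ≤ m → m < 4 * Q ^ 2 → |pr1 m - G m| ≤ err m)
    (hs : SmallR a Q (fun m => G m - ν (m / a / hh) * rr w m) δ) {u v : ℕ → ℝ}
    (hu : ∀ n, 0 ≤ u n ∧ u n ≤ 1) (hv : ∀ b, 0 ≤ v b ∧ v b ≤ 1) :
    κ * Br a Q (rr w) u v ≤ Br a Q pr1 u v + δ * a * Q + ∑ n ∈ Ico Q (2 * Q), u n *
      (∑ b ∈ Ico 1 a, err (a * n + b) +
        max (κ - ν (n / hh)) 0 * ∑ b ∈ Ico 1 a, rr w (a * n + b)) := by
  have h2 := (abs_le.1 (model_sub hQa ha hG hs hu hv)).2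
  have h4 : κ * Br a Q (rr w) u v ≤
      ∑ n ∈ Ico Q (2 * Q), ∑ b ∈ Ico 1 a, ν (n / hh) * rr w (a * n + b) * u n * v b +
      ∑ n ∈ Ico Q (2 * Q), u n * (max (κ - ν (n / hh)) 0 * ∑ b ∈ Ico 1 a, rr w (a * n + b)) := by
    unfold Br
    rw [mul_sum, ← sum_add_distrib]
    refine sum_le_sum fun n _ => ?_
    rw [mul_sum, mul_sum, mul_sum, ← sum_add_distrib]
    refine sum_le_sum fun b _ => ?_
    have h5 : 0 ≤ rr w (a * n + b) * u n := mul_nonneg (rr_bd _ _).1 (hu n).1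
    have h6 : (κ - ν (n / hh)) * (rr w (a * n + b) * u n * v b) ≤
        max (κ - ν (n / hh)) 0 * (rr w (a * n + b) * u n * v b) :=
      mul_le_mul_of_nonneg_right (le_max_left _ _) (mul_nonneg h5 (hv b).1)
    have h7 : max (κ - ν (n / hh)) 0 * (rr w (a * n + b) * u n * v b) ≤
        max (κ - ν (n / hh)) 0 * (rr w (a * n + b) * u n) :=
      mul_le_mul_of_nonneg_left (mul_le_of_le_one_right h5 (hv b).2) (le_max_right _ _)
    linarith
  simp only [mul_add, sum_add_distrib]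
  linarith

end KPP

open KPP in
theorem pKP (h1 : S_G) (h2 : S_Rows) (h3 : S_Blk) : S_KP := by
  intro ε A hε
  obtain ⟨C, Ch, Cw, Q1, h1⟩ := h1 (ε / 4) (A + 2) (by positivity)
  obtain ⟨_, -, h2⟩ := h2
  obtain ⟨Q2, h2⟩ := h2 Cw
  obtain ⟨Q3, h3⟩ := h3 (Ch + 2)
  obtain ⟨Q4, h4⟩ := ev_lg ((ev_pow_le_two_pow 1 Ch).and
    ((eventually_ge_atTop 1).and (eventually_ge_atTop ⌈16 / ε⌉₊)))
  refine ⟨C, Cw, max (max (max Q1 Q2) (max Q3 Q4)) 1, fun Q hQ => ?_⟩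
  simp only [max_le_iff] at hQ
  obtain ⟨⟨⟨hQ1, hQ2⟩, hQ3, hQ4⟩, hQ⟩ := hQ
  obtain ⟨E, w, G, err, hE, hw, hw', he, hsum, hG, hap⟩ := h1 Q hQ1
  refine ⟨E, w, hE, hw, hw', fun a hp hQa ha haE => ?_⟩
  obtain ⟨ν, hν⟩ := hap a hp hQa ha haE
  obtain ⟨hg1, hg2, hg3⟩ := h4 Q hQ4
  set g := lg Q with hg
  have hgR : (1 : ℝ) ≤ g := by exact_mod_cast hg2
  have hgε : 16 / ε ≤ g := Nat.ceil_le.1 hg3
  have hQR : (0 : ℝ) < Q := by exact_mod_cast hQ
  have haR : (Q : ℝ) ≤ a := by exact_mod_cast hQa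
  have haQ : 0 ≤ (a : ℝ) * Q := by positivity
  have hgC : 0 < g ^ Ch := by positivity
  have hpos : 1 ≤ Q / g ^ Ch :=
    (Nat.one_le_div_iff hgC).2 (by have := two_pow_lg_le hQ; rw [← hg] at this; omega)
  have hM : 2 * Q ≤ 4 * g ^ Ch * (Q / g ^ Ch) := by
    have := Nat.lt_mul_div_succ Q hgC
    nlinarith
  have herr : ∑ n ∈ Ico Q (2 * Q), ∑ b ∈ Ico 1 a, err (a * n + b) ≤ ε / 4 * (a * Q) / g := by
    refine (sum_rows_le a Q (2 * Q) (by omega) he).trans (le_trans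
      (sum_le_sum_of_subset_of_nonneg (Ico_subset_Ico ?_ ?_) fun _ _ _ => he _) (hsum.trans ?_))
    · exact Nat.mul_pos hp.pos hQ
    · nlinarith
    · gcongr
      nlinarith
  refine ⟨fun n => ∑ b ∈ Ico 1 a, err (a * n + b) +
    max (kap Q w - ν (n / (Q / g ^ Ch))) 0 * ∑ b ∈ Ico 1 a, rr w (a * n + b), fun n => ?_, ?_,
    fun u v hu hv => ?_⟩
  · exact add_nonneg (sum_nonneg fun _ _ => he _)
      (mul_nonneg (le_max_right _ _) (sum_nonneg fun _ _ => (rr_bd _ _).1))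
  · have hd := defic (κ := kap Q w) (c := a / (2 * g)) (B := a * Q / (g : ℝ) ^ (Ch + 2))
      hQa ha he hG hν (by positivity) hpos hM (fun n hn => ?_) fun n1 n2 k1 k2 k3 => ?_
    · rw [sum_add_distrib]
      have hinv : 1 / (g : ℝ) ≤ ε / 16 := by
        rw [div_le_iff₀ hε] at hgε
        rw [div_le_div_iff₀ (by linarith) (by norm_num)]
        linarith
      have e1 : ((4 * g ^ Ch : ℕ) : ℝ) * (a * Q / (g : ℝ) ^ (Ch + 2)) =
          4 * (1 / g) * (a * Q / g) := by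
        push_cast
        field_simp
        ring
      have e2 : 1 / (g : ℝ) ^ (A + 2) * a * Q ≤ 1 / g * (a * Q / g) := by
        have : 1 / (g : ℝ) ^ (A + 2) ≤ 1 / (g : ℝ) ^ 2 :=
          one_div_le_one_div_of_le (by positivity) (pow_le_pow_right₀ hgR (by omega))
        calc _ = 1 / (g : ℝ) ^ (A + 2) * (a * Q) := by ring
          _ ≤ 1 / (g : ℝ) ^ 2 * (a * Q) := by gcongr
          _ = _ := by field_simp
      have e3 : 1 / (g : ℝ) * (a * Q / g) ≤ ε / 16 * (a * Q / g) := by gcongr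
      have e4 : ε / 4 * (a * Q) / g = ε / 4 * (a * Q / g) := by ring
      have e5 : ε * a * Q / g = ε * (a * Q / g) := by ring
      have e6 : 0 ≤ ε * (a * Q / g) := by positivity
      rw [e1] at hd
      rw [e4] at herr
      rw [e5]
      linarith
    · have hV := VV_pos w
      have k := ((h2 Q w hQ2 hw hw').2 a n hQa hn).1
      calc kap Q w * _ ≤ kap Q w * (5 / 4 * VV w * a) :=
            mul_le_mul_of_nonneg_left k (by unfold kap; positivity)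
        _ = 5 / 8 * (a / (2 * g)) := by
            unfold kap
            rw [← hg]
            field_simp
            ring
        _ ≤ _ := mul_le_of_le_one_left (by positivity) (by norm_num)
    · have k := h3 Q a n1 n2 hQ3 hQa ha k1 k2 k3
      rw [sum_sub_distrib, sum_const, Nat.card_Ico, nsmul_eq_mul, Nat.cast_sub k2]
      have e : ((n2 : ℝ) - n1) * (a / (2 * g)) = a * (n2 - n1) / (2 * g) := by ring
      rw [e]
      linarith
  · have hm := main_le (κ := kap Q w) hQa ha hG hν hu hv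
    have e2 : 1 / (g : ℝ) ^ (A + 2) * a * Q ≤ a * Q / (g : ℝ) ^ A := by
      have : 1 / (g : ℝ) ^ (A + 2) ≤ 1 / (g : ℝ) ^ A :=
        one_div_le_one_div_of_le (by positivity) (pow_le_pow_right₀ hgR (by omega))
      calc _ = 1 / (g : ℝ) ^ (A + 2) * (a * Q) := by ring
        _ ≤ 1 / (g : ℝ) ^ A * (a * Q) := by gcongr
        _ = _ := by ring
    linarith

end Pool.Agent.P.MP_746f10_nt.AP
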