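import Pool.Agent.P.MP_746f10_nt.AP.Defs

namespace Pool.Agent.P.MP_746f10_nt.AP

namespace L2P

/-- Separated integer values in a symmetric interval. -/
theorem sep {α : Type*} (Q : Finset α) (f : α → ℤ) (l B : ℤ) (hl : 0 < l) (hB : 0 ≤ B)
    (hb : ∀ p ∈ Q, |f p| ≤ B) (hs : ∀ p ∈ Q, ∀ q ∈ Q, p ≠ q → l ≤ |f p - f q|) :
    (Q.card : ℝ) ≤ 1 + 2 * (B : ℝ) / l := by
  have h1 : Q.card ≤ (Finset.Icc (0 : ℤ) (2 * B / l)).card := by
    refine Finset.card_le_card_of_injOn (fun p => (f p + B) / l) ?_ ?_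
    · intro p hp
      have hp' := abs_le.1 (hb p hp)
      simp only [Finset.coe_Icc, Set.mem_Icc]
      exact ⟨Int.ediv_nonneg (by omega) hl.le, Int.ediv_le_ediv hl (by omega)⟩
    · intro p hp q hq hpq
      by_contra hne
      have h := hs p hp q hq hne
      have e1 := Int.emod_add_mul_ediv (f p + B) l
      have e2 := Int.emod_add_mul_ediv (f q + B) l
      have n1 := Int.emod_nonneg (f p + B) hl.ne'
      have n2 := Int.emod_nonneg (f q + B) hl.ne'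
      have l1 := Int.emod_lt_of_pos (f p + B) hl
      have l2 := Int.emod_lt_of_pos (f q + B) hl
      have hpq' : (f p + B) / l = (f q + B) / l := hpq
      rw [hpq'] at e1
      have : |f p - f q| < l := abs_lt.2 ⟨by omega, by omega⟩
      omega
  have h0 : 0 ≤ 2 * B / l := Int.ediv_nonneg (by omega) hl.le
  have h2 : ((Finset.Icc (0 : ℤ) (2 * B / l)).card : ℤ) = 2 * B / l + 1 := by
    rw [Int.card_Icc]
    omega
  have h3 : (Q.card : ℤ) ≤ 2 * B / l + 1 := by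
    rw [← h2]; exact_mod_cast h1
  have h4 : (2 * B / l) * l ≤ 2 * B := Int.ediv_mul_le _ hl.ne'
  have hl' : (0 : ℝ) < l := by exact_mod_cast hl
  have h5 : ((2 * B / l : ℤ) : ℝ) ≤ 2 * (B : ℝ) / l := by
    rw [le_div_iff₀ hl']
    exact_mod_cast h4
  have h6 : (Q.card : ℝ) ≤ ((2 * B / l : ℤ) : ℝ) + 1 := by exact_mod_cast h3
  linarith

/-- Height of a lattice point. -/
def H (p : ℤ × ℤ) : ℤ := max |p.1| |p.2|

theorem H_pos {p : ℤ × ℤ} (hp : p ≠ 0) : 0 < H p := by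
  unfold H
  by_contra h
  apply hp
  have h1 : |p.1| ≤ 0 := le_trans (le_max_left _ _) (not_lt.1 h)
  have h2 : |p.2| ≤ 0 := le_trans (le_max_right _ _) (not_lt.1 h)
  exact Prod.ext (abs_nonpos_iff.1 h1) (abs_nonpos_iff.1 h2)

theorem exmin (L : AddSubgroup (ℤ × ℤ)) (h : ∃ p ∈ L, p ≠ 0) :
    ∃ p0 ∈ L, p0 ≠ 0 ∧ ∀ p ∈ L, p ≠ 0 → H p0 ≤ H p := by
  classical
  have hex : ∃ n : ℕ, ∃ p ∈ L, p ≠ 0 ∧ (H p).toNat = n := by
    obtain ⟨p, hp, hp0⟩ := h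
    exact ⟨_, p, hp, hp0, rfl⟩
  obtain ⟨p0, hp0, hne, hv⟩ := Nat.find_spec hex
  refine ⟨p0, hp0, hne, fun p hp hp' => ?_⟩
  have h1 : Nat.find hex ≤ (H p).toNat := Nat.find_min' hex ⟨p, hp, hp', rfl⟩
  have h2 := H_pos hne
  have h3 := H_pos hp'
  omega

/-- A set of points whose differences lie in `L` and are parallel to the shortest vector. -/
theorem fib (L : AddSubgroup (ℤ × ℤ)) (p0 : ℤ × ℤ) (hne : p0 ≠ 0)
    (hmin : ∀ p ∈ L, p ≠ 0 → H p0 ≤ H p) (E : ℕ) (Q : Finset (ℤ × ℤ))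
    (hb : ∀ p ∈ Q, |p.1| ≤ E ∧ |p.2| ≤ E) (hL : ∀ p ∈ Q, ∀ q ∈ Q, p - q ∈ L)
    (hpar : ∀ p ∈ Q, ∀ q ∈ Q, p0.1 * (p.2 - q.2) = p0.2 * (p.1 - q.1)) :
    (Q.card : ℝ) ≤ 1 + 2 * (E : ℝ) / (H p0 : ℝ) := by
  have hpos := H_pos hne
  have key : ∀ p ∈ Q, ∀ q ∈ Q, |p0.1| * |p.2 - q.2| = |p0.2| * |p.1 - q.1| := by
    intro p hp q hq
    rw [← abs_mul, ← abs_mul, hpar p hp q hq]
  rcases le_total |p0.2| |p0.1| with h | h
  · have hH : H p0 = |p0.1| := max_eq_left h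
    have := sep Q (fun p => p.1) (H p0) E hpos (by positivity) (fun p hp => (hb p hp).1) ?_
    · exact_mod_cast this
    intro p hp q hq hpq
    have h1 := hmin _ (hL p hp q hq) (sub_ne_zero.2 hpq)
    have h2 : |p.2 - q.2| ≤ |p.1 - q.1| := by
      have h3 : |p0.1| * |p.2 - q.2| ≤ |p0.1| * |p.1 - q.1| := by
        rw [key p hp q hq]
        exact mul_le_mul_of_nonneg_right h (abs_nonneg _)
      exact le_of_mul_le_mul_left h3 (hH ▸ hpos)
    have h4 : H (p - q) = |p.1 - q.1| := max_eq_left h2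
    rw [← h4]
    exact h1
  · have hH : H p0 = |p0.2| := max_eq_right h
    have := sep Q (fun p => p.2) (H p0) E hpos (by positivity) (fun p hp => (hb p hp).2) ?_
    · exact_mod_cast this
    intro p hp q hq hpq
    have h1 := hmin _ (hL p hp q hq) (sub_ne_zero.2 hpq)
    have h2 : |p.1 - q.1| ≤ |p.2 - q.2| := by
      have h3 : |p0.2| * |p.1 - q.1| ≤ |p0.2| * |p.2 - q.2| := by
        rw [← key p hp q hq]
        exact mul_le_mul_of_nonneg_right h (abs_nonneg _)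
      exact le_of_mul_le_mul_left h3 (hH ▸ hpos)
    have h4 : H (p - q) = |p.2 - q.2| := max_eq_right h2
    rw [← h4]
    exact h1

theorem det_le (p0 : ℤ × ℤ) (a b B : ℤ) (ha : |a| ≤ B) (hb : |b| ≤ B) :
    |p0.1 * b - p0.2 * a| ≤ 2 * H p0 * B := by
  have h1 : |p0.1| ≤ H p0 := le_max_left _ _
  have h2 : |p0.2| ≤ H p0 := le_max_right _ _
  have h0 : 0 ≤ H p0 := le_trans (abs_nonneg _) h1
  have h3 : |p0.1 * b| ≤ H p0 * B := by
    rw [abs_mul]; exact mul_le_mul h1 hb (abs_nonneg _) h0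
  have h4 : |p0.2 * a| ≤ H p0 * B := by
    rw [abs_mul]; exact mul_le_mul h2 ha (abs_nonneg _) h0
  have h5 := abs_sub (p0.1 * b) (p0.2 * a)
  linarith

/-- Multiples of `m` in a symmetric interval. -/
theorem vals (V : Finset ℤ) (m : ℕ) (hm : 1 ≤ m) (B : ℤ) (hB : 0 ≤ B)
    (hb : ∀ v ∈ V, |v| ≤ B) (hd : ∀ v ∈ V, (m : ℤ) ∣ v) :
    (V.card : ℝ) ≤ 1 + 2 * (B : ℝ) / m := by
  have := sep V (fun v => v) (m : ℤ) B (by exact_mod_cast hm) hB hb ?_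
  · exact_mod_cast this
  intro p hp q hq hpq
  have h1 : (m : ℤ) ∣ |p - q| := (dvd_abs _ _).2 (dvd_sub (hd p hp) (hd q hq))
  exact Int.le_of_dvd (abs_pos.2 (sub_ne_zero.2 hpq)) h1

theorem card_le_mul (P : Finset (ℤ × ℤ)) (D : ℤ × ℤ → ℤ) (c : ℝ)
    (h : ∀ v, ((P.filter (fun p => D p = v)).card : ℝ) ≤ c) :
    (P.card : ℝ) ≤ ((P.image D).card : ℝ) * c := by
  rw [Finset.card_eq_sum_card_image D P]
  push_cast
  calc ∑ v ∈ P.image D, ((P.filter (fun p => D p = v)).card : ℝ) ≤ ∑ _v ∈ P.image D, c :=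
        Finset.sum_le_sum fun v _ => h v
    _ = _ := by rw [Finset.sum_const, nsmul_eq_mul]

theorem partA (L : AddSubgroup (ℤ × ℤ)) (m E : ℕ) (lam : ℝ) (P : Finset (ℤ × ℤ)) (hm : 1 ≤ m)
    (hlam : 0 < lam) (hd : ∀ p ∈ L, ∀ q ∈ L, (m : ℤ) ∣ p.1 * q.2 - p.2 * q.1)
    (hl : ∀ p ∈ L, p ≠ 0 → lam ≤ ((max |p.1| |p.2| : ℤ) : ℝ))
    (hb : ∀ p ∈ P, |p.1| ≤ E ∧ |p.2| ≤ E) (hL : ∀ p ∈ P, ∀ q ∈ P, p - q ∈ L) :
    (P.card : ℝ) ≤ 1 + 2 * E / lam + 32 * (E : ℝ) ^ 2 / m := by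
  have hm' : (0 : ℝ) < m := by exact_mod_cast hm
  by_cases hc : P.card ≤ 1
  · have h1 : (P.card : ℝ) ≤ 1 := by exact_mod_cast hc
    have h2 : (0 : ℝ) ≤ 2 * E / lam := by positivity
    have h3 : (0 : ℝ) ≤ 32 * (E : ℝ) ^ 2 / m := by positivity
    linarith
  obtain ⟨o, ho, o', ho', hoo⟩ := Finset.one_lt_card.1 (not_le.1 hc)
  obtain ⟨p0, hp0, hne, hmin⟩ := exmin L ⟨o - o', hL o ho o' ho', sub_ne_zero.2 hoo⟩
  have hpos := H_pos hne
  have hdiff : ∀ p ∈ P, ∀ q ∈ P, |p.1 - q.1| ≤ 2 * E ∧ |p.2 - q.2| ≤ 2 * E := by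
    intro p hp q hq
    have a1 := abs_le.1 (hb p hp).1
    have a2 := abs_le.1 (hb p hp).2
    have a3 := abs_le.1 (hb q hq).1
    have a4 := abs_le.1 (hb q hq).2
    exact ⟨abs_le.2 ⟨by omega, by omega⟩, abs_le.2 ⟨by omega, by omega⟩⟩
  have hH : H p0 ≤ 2 * E :=
    le_trans (hmin _ (hL o ho o' ho') (sub_ne_zero.2 hoo))
      (max_le (hdiff o ho o' ho').1 (hdiff o ho o' ho').2)
  set D : ℤ × ℤ → ℤ := fun p => p0.1 * (p.2 - o.2) - p0.2 * (p.1 - o.1) with hD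
  have h1 := card_le_mul P D (1 + 2 * (E : ℝ) / (H p0 : ℝ)) (fun v => by
    refine fib L p0 hne hmin E _ (fun p hp => hb p (Finset.mem_filter.1 hp).1)
      (fun p hp q hq => hL p (Finset.mem_filter.1 hp).1 q (Finset.mem_filter.1 hq).1) ?_
    intro p hp q hq
    have e1 : p0.1 * (p.2 - o.2) - p0.2 * (p.1 - o.1) = v := (Finset.mem_filter.1 hp).2
    have e2 : p0.1 * (q.2 - o.2) - p0.2 * (q.1 - o.1) = v := (Finset.mem_filter.1 hq).2
    linear_combination e1 - e2)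
  have h2 := vals (P.image D) m hm (2 * H p0 * (2 * E)) (by positivity) (fun v hv => by
    obtain ⟨p, hp, rfl⟩ := Finset.mem_image.1 hv
    exact det_le p0 _ _ _ (hdiff p hp o ho).1 (hdiff p hp o ho).2) (fun v hv => by
    obtain ⟨p, hp, rfl⟩ := Finset.mem_image.1 hv
    exact hd p0 hp0 (p - o) (hL p hp o ho))
  have hlH : lam ≤ (H p0 : ℝ) := hl p0 hp0 hne
  have hH' : (H p0 : ℝ) ≤ 2 * E := by exact_mod_cast hH
  have hpos' : (0 : ℝ) < (H p0 : ℝ) := by exact_mod_cast hpos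
  push_cast at h2
  generalize (H p0 : ℝ) = l at *
  have hE : (0 : ℝ) ≤ E := by positivity
  have h3 : ((P.image D).card : ℝ) * (1 + 2 * (E : ℝ) / l) ≤
      (1 + 2 * (2 * l * (2 * E)) / m) * (1 + 2 * (E : ℝ) / l) :=
    mul_le_mul_of_nonneg_right h2 (by positivity)
  have h4 : (1 + 2 * (2 * l * (2 * E)) / m) * (1 + 2 * (E : ℝ) / l) =
      1 + 2 * E / l + (8 * l * E + 16 * (E : ℝ) ^ 2) / m := by
    field_simp
    ring
  have h5 : 2 * (E : ℝ) / l ≤ 2 * E / lam := div_le_div_of_nonneg_left (by positivity) hlam hlH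
  have h6 : (8 * l * E + 16 * (E : ℝ) ^ 2) / m ≤ 32 * (E : ℝ) ^ 2 / m :=
    div_le_div_of_nonneg_right (by nlinarith) hm'.le
  linarith

theorem partB (L : AddSubgroup (ℤ × ℤ)) (m E : ℕ) (P : Finset (ℤ × ℤ)) (hm : 1 ≤ m)
    (hd : ∀ p ∈ L, ∀ q ∈ L, (m : ℤ) ∣ p.1 * q.2 - p.2 * q.1)
    (hb : ∀ p ∈ P, |p.1| ≤ E ∧ |p.2| ≤ E) (g : ℕ) (hL : ∀ p ∈ P, p ∈ L)
    (hg : ∀ p0 : ℤ × ℤ, p0 ≠ 0 → (P.filter (fun p => p0.1 * p.2 = p0.2 * p.1)).card ≤ g) :
    (P.card : ℝ) ≤ g + 16 * (E : ℝ) ^ 2 / m := by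
  have hm' : (0 : ℝ) < m := by exact_mod_cast hm
  by_cases hc : ∀ p ∈ P, p = 0
  · have h1 := hg (1, 0) (by simp)
    rw [Finset.filter_true_of_mem (fun p hp => by rw [hc p hp]; simp)] at h1
    have h2 : (P.card : ℝ) ≤ g := by exact_mod_cast h1
    have h3 : (0 : ℝ) ≤ 16 * (E : ℝ) ^ 2 / m := by positivity
    linarith
  obtain ⟨o, ho⟩ := not_forall.1 hc
  obtain ⟨ho, hoo⟩ := Classical.not_imp.1 ho
  obtain ⟨p0, hp0, hne, hmin⟩ := exmin L ⟨o, hL o ho, hoo⟩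
  have hpos := H_pos hne
  have hH : H p0 ≤ E := le_trans (hmin _ (hL o ho) hoo) (max_le (hb o ho).1 (hb o ho).2)
  set D : ℤ × ℤ → ℤ := fun p => p0.1 * p.2 - p0.2 * p.1 with hD
  set P' := P.filter (fun p => ¬ p0.1 * p.2 = p0.2 * p.1) with hP'
  have hsub : ∀ p ∈ P', p ∈ P := fun p hp => (Finset.mem_filter.1 hp).1
  have h0 : (P.filter (fun p => p0.1 * p.2 = p0.2 * p.1)).card + P'.card = P.card :=
    Finset.card_filter_add_card_filter_not _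
  have h1 := card_le_mul P' D (1 + 2 * (E : ℝ) / (H p0 : ℝ)) (fun v => by
    refine fib L p0 hne hmin E _ (fun p hp => hb p (hsub p (Finset.mem_filter.1 hp).1))
      (fun p hp q hq => L.sub_mem (hL p (hsub p (Finset.mem_filter.1 hp).1))
        (hL q (hsub q (Finset.mem_filter.1 hq).1))) ?_
    intro p hp q hq
    have e1 : p0.1 * p.2 - p0.2 * p.1 = v := (Finset.mem_filter.1 hp).2
    have e2 : p0.1 * q.2 - p0.2 * q.1 = v := (Finset.mem_filter.1 hq).2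
    linear_combination e1 - e2)
  have hn : (0 : ℤ) ∉ P'.image D := by
    intro h
    obtain ⟨p, hp, e⟩ := Finset.mem_image.1 h
    exact (Finset.mem_filter.1 hp).2 (sub_eq_zero.1 e)
  have h2 := vals (insert 0 (P'.image D)) m hm (2 * H p0 * E) (by positivity) (fun v hv => by
    rcases Finset.mem_insert.1 hv with rfl | hv
    · rw [abs_zero]; positivity
    obtain ⟨p, hp, rfl⟩ := Finset.mem_image.1 hv
    exact det_le p0 _ _ _ (hb p (hsub p hp)).1 (hb p (hsub p hp)).2) (fun v hv => by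
    rcases Finset.mem_insert.1 hv with rfl | hv
    · exact dvd_zero _
    obtain ⟨p, hp, rfl⟩ := Finset.mem_image.1 hv
    exact hd p0 hp0 p (hL p (hsub p hp)))
  rw [Finset.card_insert_of_notMem hn] at h2
  have hg0 := hg p0 hne
  have hg1 : (P.card : ℝ) ≤ g + (P'.card : ℝ) := by
    have : P.card ≤ g + P'.card := by omega
    exact_mod_cast this
  have hH' : (H p0 : ℝ) ≤ E := by exact_mod_cast hH
  have hpos' : (0 : ℝ) < (H p0 : ℝ) := by exact_mod_cast hpos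
  push_cast at h2
  generalize (H p0 : ℝ) = l at *
  have hE : (0 : ℝ) ≤ E := by positivity
  have h3 : ((P'.image D).card : ℝ) * (1 + 2 * (E : ℝ) / l) ≤
      (2 * (2 * l * E) / m) * (1 + 2 * (E : ℝ) / l) :=
    mul_le_mul_of_nonneg_right (by linarith) (by positivity)
  have h4 : (2 * (2 * l * E) / m) * (1 + 2 * (E : ℝ) / l) =
      (4 * l * E + 8 * (E : ℝ) ^ 2) / m := by
    field_simp
    ring
  have h6 : (4 * l * E + 8 * (E : ℝ) ^ 2) / m ≤ 16 * (E : ℝ) ^ 2 / m :=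
    div_le_div_of_nonneg_right (by nlinarith) hm'.le
  linarith

end L2P

theorem pL2 : S_L2 := fun L m E lam P hm hlam hd hl hb =>
  ⟨L2P.partA L m E lam P hm hlam hd hl hb, fun g => L2P.partB L m E P hm hd hb g⟩

end Pool.Agent.P.MP_746f10_nt.AP
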