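import Pool.Agent.P.MP_746f10_nt.AP.Defs

/-! Points of a three dimensional lattice in a box. -/

namespace Pool.Agent.P.MP_746f10_nt.AP

open Finset

namespace L3P

theorem pig {A : Type} [AddCommGroup A] (φ : (Fin 3 → ℤ) → A) (hφ : ∀ x y, φ (x - y) = φ x - φ y)
    (d : ℕ) (T : Finset A) (hT : ∀ x : Fin 3 → ℤ, (∀ l, |x l| < d) → φ x ∈ T)
    (h : T.card < d ^ 3) : ∃ x, x ≠ 0 ∧ φ x = 0 ∧ ∀ l, |x l| < d := by
  have h1 : ∀ x ∈ Fintype.piFinset fun _ : Fin 3 => Ico (0 : ℤ) d, ∀ l, 0 ≤ x l ∧ x l < d :=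
    fun x hx l => mem_Ico.1 (Fintype.mem_piFinset.1 hx l)
  obtain ⟨x, hx, y, hy, h2, h3⟩ := exists_ne_map_eq_of_card_lt_of_maps_to
    (s := Fintype.piFinset fun _ : Fin 3 => Ico (0 : ℤ) d) (t := T) (f := φ) (by simpa using h)
    fun x hx => hT x fun l => by rw [abs_of_nonneg (h1 x hx l).1]; exact (h1 x hx l).2
  refine ⟨x - y, sub_ne_zero.2 h2, by rw [hφ, h3, sub_self], fun l => ?_⟩
  have := h1 x hx l
  have := h1 y hy l
  rw [Pi.sub_apply, abs_lt]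
  omega

theorem dot_le {x y : Fin 3 → ℤ} {s t : ℤ} (hx : ∀ l, |x l| ≤ s) (hy : ∀ l, |y l| ≤ t) :
    |x ⬝ᵥ y| ≤ 3 * (s * t) := by
  refine (abs_sum_le_sum_abs _ _).trans
    ((sum_le_card_nsmul _ _ (s * t) fun l _ => ?_).trans (by simp))
  rw [abs_mul]
  exact mul_le_mul (hx l) (hy l) (abs_nonneg _) ((abs_nonneg _).trans (hx l))

theorem core (h : S_L2) {α : Type} (P : Finset α) (c : α → Fin 3 → ℤ) (hc : Function.Injective c)
    (a d E g : ℕ) (Λ : AddSubgroup (Fin 3 → ℤ)) (Δ : Fin 3 → ℤ) (i : Fin 3) (ha : 0 < a)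
    (hd : 0 < d) (had : a.Coprime d) (h1 : ∀ l, |Δ l| ≤ d) (h2 : |Δ i| = d)
    (h3 : univ.gcd Δ ∣ 1) (h4 : ∀ p ∈ Λ, (a : ℤ) ∣ Δ ⬝ᵥ p)
    (h5 : ∀ p ∈ Λ, ∀ q ∈ Λ, ∀ l l', (a : ℤ) ∣ p l * q l' - p l' * q l)
    (h6 : ∀ p ∈ Λ, p ≠ 0 → Δ ⬝ᵥ p = 0 → ∀ s : ℤ, (∀ l, |p l| ≤ s) → (d : ℤ) ^ 2 ≤ 7 * s)
    (h7 : ∀ p ∈ P, c p ∈ Λ ∧ ∀ l, |c p l| ≤ E)
    (h8 : ∀ p ∈ P, ∀ S ⊆ P, (∀ q ∈ S, ∀ l l', c p l * c q l' = c p l' * c q l) → S.card ≤ g) :
    (P.card : ℝ) ≤ g + 16 * (E : ℝ) ^ 2 / (a * d) +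
      6 * d * E / a * (1 + 28 * E / d ^ 2 + 32 * (E : ℝ) ^ 2 / (a * d)) := by
  classical
  obtain ⟨j, k, e1, e2⟩ : ∃ j k : Fin 3, (∀ l, l = i ∨ l = j ∨ l = k) ∧
      ∀ p : Fin 3 → ℤ, Δ ⬝ᵥ p = Δ i * p i + Δ j * p j + Δ k * p k := by
    refine ⟨i + 1, i + 2, (by decide : ∀ i l : Fin 3, l = i ∨ l = i + 1 ∨ l = i + 2) i,
      fun p => ?_⟩
    rw [dotProduct, Fin.sum_univ_three]
    fin_cases i <;> simp <;> ring
  have i0 : Δ i ≠ 0 := fun e => by rw [e] at h2; simp at h2; omega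
  let L : AddSubgroup (ℤ × ℤ) :=
    { carrier := {z | ∃ p ∈ Λ, Δ ⬝ᵥ p = 0 ∧ z = (p j, p k)}
      add_mem' := by
        rintro _ _ ⟨p, p1, p2, rfl⟩ ⟨q, q1, q2, rfl⟩
        exact ⟨p + q, Λ.add_mem p1 q1, by rw [dotProduct_add, p2, q2, add_zero], rfl⟩
      zero_mem' := ⟨0, Λ.zero_mem, dotProduct_zero _, rfl⟩
      neg_mem' := by
        rintro _ ⟨p, p1, p2, rfl⟩
        exact ⟨-p, Λ.neg_mem p1, by rw [dotProduct_neg, p2, neg_zero], rfl⟩ }
  have w : ∀ p q : Fin 3 → ℤ, Δ ⬝ᵥ p = 0 → Δ ⬝ᵥ q = 0 →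
      (p j * q k - p k * q j) * Δ j = Δ i * (p k * q i - p i * q k) ∧
      (p j * q k - p k * q j) * Δ k = Δ i * (p i * q j - p j * q i) := fun p q hp hq => by
    rw [e2] at hp hq
    exact ⟨by linear_combination q k * hp - p k * hq, by linear_combination p j * hq - q j * hp⟩
  have hL := fun S (hS : S ⊆ P) => h L (a * d) E ((d : ℝ) ^ 2 / 14)
    (S.image fun p => (c p j, c p k)) (Nat.mul_pos ha hd) (by positivity) ?_ ?_ (fun z hz => by
      obtain ⟨p, hp, rfl⟩ := mem_image.1 hz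
      exact ⟨(h7 p (hS hp)).2 j, (h7 p (hS hp)).2 k⟩)
  rotate_left
  · rintro _ ⟨p, p1, p2, rfl⟩ _ ⟨q, q1, q2, rfl⟩
    have h9 : Δ i ∣ univ.gcd fun l => (p j * q k - p k * q j) * Δ l := dvd_gcd fun l _ => by
      rcases e1 l with rfl | rfl | rfl
      exacts [dvd_mul_left _ _, ⟨_, (w p q p2 q2).1⟩, ⟨_, (w p q p2 q2).2⟩]
    rw [Finset.gcd_mul_left] at h9
    have h10 := h9.trans (mul_dvd_mul_left _ h3)
    rw [mul_one, dvd_normalize_iff, ← abs_dvd, h2] at h10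
    rw [Nat.cast_mul]
    exact (Nat.isCoprime_iff_coprime.2 had).mul_dvd (h5 p p1 q q1 j k) h10
  · rintro _ ⟨p, p1, p2, rfl⟩ hp
    have b1 := le_max_left |p j| |p k|
    have b2 := le_max_right |p j| |p k|
    have h9 := h6 p p1 (fun e => hp (by rw [e]; rfl)) p2 (2 * max |p j| |p k|) fun l => by
      have := abs_nonneg (p j)
      rcases e1 l with rfl | rfl | rfl
      · rw [e2] at p2
        have b3 : |Δ l * p l| ≤ |Δ j * p j| + |Δ k * p k| := by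
          rw [show Δ l * p l = -(Δ j * p j + Δ k * p k) by linarith, abs_neg]
          exact abs_add_le _ _
        simp only [abs_mul, h2] at b3
        have b4 := mul_le_mul (h1 j) b1 (abs_nonneg _) (by positivity)
        have b5 := mul_le_mul (h1 k) b2 (abs_nonneg _) (by positivity)
        exact le_of_mul_le_mul_left (a := (d : ℤ)) (by linarith) (by positivity)
      · omega
      · omega
    have h10 : ((d : ℝ)) ^ 2 ≤ 7 * (2 * ((max |p j| |p k| : ℤ) : ℝ)) := by exact_mod_cast h9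
    linarith
  have hi : ∀ s : ℤ, ((P.filter fun p => Δ ⬝ᵥ c p / a = s).image fun p => (c p j, c p k)).card =
      (P.filter fun p => Δ ⬝ᵥ c p / a = s).card ∧ ∀ p ∈ P.filter fun p => Δ ⬝ᵥ c p / a = s,
        Δ ⬝ᵥ c p = s * a := fun s => by
    have b1 : ∀ p ∈ P.filter fun p => Δ ⬝ᵥ c p / a = s, Δ ⬝ᵥ c p = s * a := fun p hp => by
      rw [← (mem_filter.1 hp).2, Int.ediv_mul_cancel (h4 _ (h7 p (mem_filter.1 hp).1).1)]
    refine ⟨card_image_of_injOn fun p hp q hq e => hc (funext fun l => ?_), b1⟩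
    obtain ⟨b2, b3⟩ := Prod.mk.inj e
    have b4 := (b1 p hp).trans (b1 q hq).symm
    rw [e2, e2, b2, b3] at b4
    rcases e1 l with rfl | rfl | rfl
    exacts [mul_left_cancel₀ i0 (by linarith), b2, b3]
  set S := 3 * (d * E) / a with hS
  have hS' : (S : ℝ) ≤ 3 * (d * E) / a := by exact_mod_cast Nat.cast_div_le (α := ℝ)
  rw [card_eq_sum_card_fiberwise (f := fun p => Δ ⬝ᵥ c p / a) (t := Icc (-(S : ℤ)) S)
    fun p hp => ?_, ← add_sum_erase _ _ (a := 0) (by simp), Nat.cast_add, Nat.cast_sum]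
  · refine add_le_add ?_ ((sum_le_card_nsmul _ _
      (1 + 28 * E / d ^ 2 + 32 * (E : ℝ) ^ 2 / (a * d)) fun s _ => ?_).trans ?_)
    · rw [← (hi 0).1, ← Nat.cast_mul]
      refine (hL _ (filter_subset _ _)).2 g (fun z hz => ?_) fun z hz => ?_
      · obtain ⟨p, hp, rfl⟩ := mem_image.1 hz
        exact ⟨_, (h7 p (mem_filter.1 hp).1).1, ((hi 0).2 p hp).trans (zero_mul _), rfl⟩
      rw [filter_image]
      refine card_image_le.trans ?_
      rcases eq_empty_or_nonempty ((P.filter fun p => Δ ⬝ᵥ c p / a = 0).filter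
        fun p => z.1 * c p k = z.2 * c p j) with e | ⟨p, hp⟩
      · exact (congrArg card e).trans_le (Nat.zero_le _)
      refine h8 p (mem_filter.1 (mem_filter.1 hp).1).1 _
        ((filter_subset _ _).trans (filter_subset _ _)) fun q hq l l' => ?_
      obtain ⟨p1, p2⟩ := mem_filter.1 hp
      obtain ⟨q1, q2⟩ := mem_filter.1 hq
      have b1 : c p j * c q k - c p k * c q j = 0 := by
        by_cases e : z.1 = 0
        · exact mul_left_cancel₀ (a := z.2) (fun e' => hz (Prod.ext e e'))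
            (by linear_combination c p k * q2 - c q k * p2)
        · exact mul_left_cancel₀ e (by linear_combination c p j * q2 - c q j * p2)
      obtain ⟨b2, b3⟩ := w _ _ (((hi 0).2 p p1).trans (zero_mul _))
        (((hi 0).2 q q1).trans (zero_mul _))
      rw [b1, zero_mul, eq_comm, mul_eq_zero_iff_left i0] at b2 b3
      rcases e1 l with rfl | rfl | rfl <;> rcases e1 l' with rfl | rfl | rfl <;> linarith
    · rw [← (hi s).1, ← Nat.cast_mul]
      refine ((hL _ (filter_subset _ _)).1 fun z hz z' hz' => ?_).trans (le_of_eq ?_)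
      · obtain ⟨p, hp, rfl⟩ := mem_image.1 hz
        obtain ⟨q, hq, rfl⟩ := mem_image.1 hz'
        exact ⟨c p - c q, Λ.sub_mem (h7 p (mem_filter.1 hp).1).1 (h7 q (mem_filter.1 hq).1).1, by
          rw [dotProduct_sub, (hi s).2 p hp, (hi s).2 q hq, sub_self], rfl⟩
      · field_simp
        ring
    · rw [card_erase_of_mem (by simp), Int.card_Icc, show ((S : ℤ) + 1 - -S).toNat - 1 = 2 * S by
        omega, nsmul_eq_mul]
      refine mul_le_mul_of_nonneg_right ?_ (by positivity)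
      rw [show (6 : ℝ) * d * E / a = 2 * (3 * (d * E) / a) by ring]
      push_cast
      linarith
  · obtain ⟨s, hs⟩ := h4 _ (h7 p hp).1
    have b1 := dot_le h1 (h7 p hp).2
    have a0 : (0 : ℤ) < a := by exact_mod_cast ha
    rw [hs, abs_mul, abs_of_pos a0] at b1
    have b2 : |s| ≤ S := by
      rw [hS]
      push_cast
      exact Int.le_ediv_of_mul_le a0 (by linarith)
    simp only [coe_Icc, Set.mem_Icc, hs, Int.mul_ediv_cancel_left _ a0.ne']
    exact abs_le.1 b2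

end L3P

open L3P in
theorem pL3 (h : S_L2) : S_L3 := by
  classical
  refine ⟨200, by norm_num, fun a ha x lam E ρ g P hρ hE h1 h2 h3 => ?_⟩
  rcases P.eq_empty_or_nonempty with rfl | ⟨p₀, hp₀⟩
  · rw [card_empty, Nat.cast_zero]; positivity
  let v : Fin 3 → ZMod a := ![x, 1, lam]
  let φ : (Fin 3 → ℤ) → ZMod a := fun Δ => ∑ l, (Δ l : ZMod a) * v l
  let c : ℤ × ℤ × ℤ → Fin 3 → ℤ := fun p => ![p.1, p.2.1, p.2.2]
  let Λ : AddSubgroup (Fin 3 → ℤ) :=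
    { carrier := {p | ∀ l, (p l : ZMod a) = v l * p 1}
      add_mem' := fun hp hq l => by
        rw [Pi.add_apply, Pi.add_apply, Int.cast_add, Int.cast_add, hp l, hq l, mul_add]
      zero_mem' := fun l => by simp
      neg_mem' := fun hp l => by
        rw [Pi.neg_apply, Pi.neg_apply, Int.cast_neg, Int.cast_neg, hp l, mul_neg] }
  have hφ : ∀ Δ, ∀ p ∈ Λ, ((Δ ⬝ᵥ p : ℤ) : ZMod a) = φ Δ * p 1 := fun Δ p hp => by
    rw [dotProduct, Int.cast_sum, sum_mul]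
    exact sum_congr rfl fun l _ => by rw [Int.cast_mul, hp l, mul_assoc]
  have hP : ∀ p ∈ P, c p ∈ Λ ∧ ∀ l, |c p l| ≤ E := fun p hp => by
    obtain ⟨b1, b2, b3, b4, b5⟩ := h1 p hp
    refine ⟨fun l => ?_, fun l => ?_⟩ <;> fin_cases l
    exacts [b4, (one_mul _).symm, b5, b1, b2, b3]
  have a0 := ha.out.pos
  have ex : ∃ d : ℕ, ∃ Δ, Δ ≠ 0 ∧ φ Δ = 0 ∧ ∀ l, |Δ l| ≤ d :=
    ⟨a, fun _ => a, fun e => a0.ne' (Int.natCast_eq_zero.1 (congrFun e 0)), by simp [φ], by simp⟩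
  obtain ⟨Δ, d1, d2, d3⟩ := Nat.find_spec ex
  have hm : ¬∃ Δ', Δ' ≠ 0 ∧ φ Δ' = 0 ∧ ∀ l, |Δ' l| < Nat.find ex := fun ⟨Δ', b1, b2, b3⟩ => by
    have b4 := (abs_nonneg _).trans_lt (b3 0)
    exact Nat.find_min ex (m := Nat.find ex - 1) (by omega)
      ⟨Δ', b1, b2, fun l => by have := b3 l; omega⟩
  generalize Nat.find ex = d at d3 hm
  obtain ⟨i, hi⟩ : ∃ i, |Δ i| = d := by_contra fun e =>
    hm ⟨Δ, d1, d2, fun l => (d3 l).lt_of_ne fun e' => e ⟨l, e'⟩⟩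
  have h4 : ∀ p ∈ Λ, (a : ℤ) ∣ Δ ⬝ᵥ p := fun p hp =>
    (ZMod.intCast_zmod_eq_zero_iff_dvd _ _).1 (by rw [hφ _ p hp, d2, zero_mul])
  have d4 : d ^ 3 ≤ a := not_lt.1 fun e => hm (pig φ (fun x y => by
    simp only [φ, Pi.sub_apply, Int.cast_sub, sub_mul, sum_sub_distrib]) d univ
    (fun _ _ => mem_univ _) (by rwa [card_univ, ZMod.card]))
  have d5 : ρ < d := not_le.1 fun e => by
    have b1 : ∀ l, |Δ l| ≤ ρ := fun l => (d3 l).trans (by exact_mod_cast e)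
    have b2 := dot_le b1 (hP p₀ hp₀).2
    have b3 := Int.eq_zero_of_abs_lt_dvd (h4 _ (hP p₀ hp₀).1)
      (b2.trans_lt (by exact_mod_cast (by rwa [← mul_assoc] : 3 * (ρ * E) < a)))
    refine h2 p₀ hp₀ (Δ 0, Δ 1, Δ 2) (fun e => d1 (funext fun l => ?_)) (b1 0) (b1 1) (b1 2)
      (by rwa [dotProduct, Fin.sum_univ_three] at b3)
    simp only [Prod.mk_eq_zero] at e
    fin_cases l
    exacts [e.1, e.2.1, e.2.2]
  have d6 : d < a := lt_of_lt_of_le (by
    calc d = d ^ 1 := (pow_one d).symm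
      _ < d ^ 3 := Nat.pow_lt_pow_right (by omega) (by omega)) d4
  have h5 := core h P c (fun p q e => Prod.ext (congrFun e 0) (Prod.ext (congrFun e 1)
    (congrFun e 2))) a d E g Λ Δ i a0 (by omega)
    ((Nat.coprime_of_lt_prime (by omega) d6 ha.out)) d3 hi ?_ h4 (fun p hp q hq l l' => ?_)
    (fun p hp p0 p1 s hs => ?_) hP fun p hp S hS hS' => ?_
  · refine h5.trans ?_
    have b1 : (ρ : ℝ) ≤ d := by exact_mod_cast d5.le
    have b2 : (0 : ℝ) < ρ := by exact_mod_cast (by omega : 0 < ρ)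
    have b3 : (d : ℝ) ≤ (a : ℝ) ^ (1 / 3 : ℝ) := by
      rw [one_div, Real.le_rpow_inv_iff_of_pos (by positivity) (by positivity) (by norm_num)]
      exact_mod_cast d4
    have b4 : (E : ℝ) ^ 2 / (a * d) ≤ (E : ℝ) ^ 2 / (a * ρ) := by gcongr
    have b5 : E * (d : ℝ) / a ≤ E * (a : ℝ) ^ (1 / 3 : ℝ) / a := by gcongr
    have b6 : 0 < (d : ℝ) := by linarith
    have b7 : 0 ≤ (E : ℝ) ^ 2 / (a * d) := by positivity
    have b8 : 0 ≤ E * (d : ℝ) / a := by positivity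
    have b9 : 0 ≤ (E : ℝ) ^ 3 / (a : ℝ) ^ 2 := by positivity
    have e : g + 16 * (E : ℝ) ^ 2 / (a * d) +
        6 * d * E / a * (1 + 28 * E / d ^ 2 + 32 * (E : ℝ) ^ 2 / (a * d)) =
        g + (184 * ((E : ℝ) ^ 2 / (a * d)) + 6 * (E * d / a) + 192 * (E ^ 3 / a ^ 2)) := by
      field_simp
      ring
    rw [e]
    linarith
  · choose Δ' e using fun l => gcd_dvd (s := univ) (f := Δ) (mem_univ l)
    generalize univ.gcd Δ = t at e
    have b1 : ∀ l, |Δ l| = |t| * |Δ' l| := fun l => by rw [e l, abs_mul]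
    have b2 : t ≠ 0 := fun e' => d1 (funext fun l => by rw [e l, e', zero_mul]; rfl)
    have b3 := abs_pos.2 b2
    have b4 : |t| < a := by
      have := Int.le_of_dvd (by omega : 0 < |Δ i|) (abs_dvd_abs _ _ |>.2 ⟨_, e i⟩)
      omega
    by_contra b5
    have b6 : 2 ≤ |t| := by_contra fun b6 => b5 (by
      rw [← abs_dvd, show |t| = 1 by omega])
    refine hm ⟨Δ', fun e' => d1 (funext fun l => by rw [e l, e']; simp), ?_, fun l => ?_⟩
    · refine mul_left_cancel₀ (a := (t : ZMod a)) (fun e' => b2 (Int.eq_zero_of_abs_lt_dvd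
        ((ZMod.intCast_zmod_eq_zero_iff_dvd _ _).1 e') b4)) ?_
      rw [mul_zero, ← d2, mul_sum]
      exact sum_congr rfl fun l _ => by rw [e l, Int.cast_mul, mul_assoc]
    · have := d3 l
      have b7 : (2 : ℤ) < d := by omega
      nlinarith [b1 l, abs_nonneg (Δ' l)]
  · refine (ZMod.intCast_zmod_eq_zero_iff_dvd _ _).1 ?_
    rw [Int.cast_sub, Int.cast_mul, Int.cast_mul, hp l, hp l', hq l, hq l']
    ring
  · obtain ⟨l, hl⟩ := Function.ne_iff.1 p0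
    have b1 : 0 < s := (abs_pos.2 hl).trans_le (hs l)
    have b0 : (2 : ℤ) < d := by omega
    by_cases e : (p 1 : ZMod a) = 0
    · have b2 := Int.le_of_dvd (abs_pos.2 hl) ((dvd_abs _ _).2
        ((ZMod.intCast_zmod_eq_zero_iff_dvd _ _).1 (by rw [hp l, e, mul_zero])))
      have b3 : (d : ℤ) ^ 3 ≤ a := by exact_mod_cast d4
      nlinarith [hs l]
    · by_contra b2
      obtain ⟨Δ', b3, b4, b5⟩ := pig (· ⬝ᵥ p) (fun x y => sub_dotProduct _ _ _) d
        (Icc (-(3 * (d * s))) (3 * (d * s)))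
        (fun x hx => mem_Icc.2 (abs_le.1 (dot_le (fun l => (hx l).le) hs))) (by
          rw [Int.card_Icc, Int.toNat_lt (by nlinarith)]
          push_cast
          nlinarith)
      exact hm ⟨Δ', b3, (mul_eq_zero.1 ((hφ Δ' p hp).symm.trans (by
        rw [b4, Int.cast_zero]))).resolve_right e, b5⟩
  · exact (card_le_card fun q hq => mem_filter.2 ⟨hS hq, hS' q hq 0 1, hS' q hq 0 2,
      hS' q hq 1 2⟩).trans (h3 p hp)

end Pool.Agent.P.MP_746f10_nt.AP
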