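import Pool.Agent.P.MP_746f10_nt.AP.Base

/-! The major part of the bilinear sums. -/

namespace Pool.Agent.P.MP_746f10_nt.AP

open Finset Filter
open Pool.Agent.P.MP_a14ce1_nt.Ch (nit sm)

namespace MajorP

lemma smP (h3 : S_SmLe) {P : ℕ} (hP : 1 ≤ P) {pp c : ℕ → ℂ} (he : ∀ p ∈ PP P (2 * P), pp p = c p)
    (hc : ∀ p, ‖pp p‖ ≤ 1) {t T ε : ℝ} (hT : 0 < T)
    (h : ∀ t' : ℝ, |t' - t| ≤ T → ‖∑ p ∈ PP P (2 * P), c p / (p : ℂ) * nit t' p‖ ≤ ε) :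
    sm (PP P (2 * P)) (fun p => pp p / p) t ≤ Real.pi * ε ^ 2 + 2 / T := by
  refine (h3 _ _ t T ε hT fun t' ht => ?_).trans ?_
  · rw [sum_congr rfl fun p hp => by rw [he p hp]]
    exact h t' ht
  have P0 : (0 : ℝ) < P := by exact_mod_cast hP
  have h1 : ∑ p ∈ PP P (2 * P), ‖pp p / (p : ℂ)‖ ≤ 1 := by
    refine (sum_le_card_nsmul _ _ (1 / (P : ℝ)) fun p hp => ?_).trans ?_
    · have : (P : ℝ) ≤ p := by exact_mod_cast (mem_PP.1 hp).1.le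
      rw [norm_div, Complex.norm_natCast]
      gcongr
      exact hc p
    · have : (PP P (2 * P)).card ≤ P := (card_filter_le _ _).trans (by rw [Nat.card_Ioc]; omega)
      rw [nsmul_eq_mul, mul_one_div, div_le_one P0]
      exact_mod_cast this
  have h2 : (∑ p ∈ PP P (2 * P), ‖pp p / (p : ℂ)‖) ^ 2 ≤ 1 :=
    pow_le_one₀ (sum_nonneg fun _ _ => norm_nonneg _) h1
  have h4 := mul_le_of_le_one_right (a := 2 / T) (by positivity) h2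
  linarith

lemma smL (h3 : S_SmLe) {Y : ℕ} {gm : ℕ → ℂ} (hc : ∀ p, ‖gm p‖ ≤ 1) {t T ε G : ℝ} (hT : 0 < T)
    (hG : 1 + Real.log Y ≤ G ^ 2)
    (h : ∀ t' : ℝ, |t' - t| ≤ T → ‖∑ l ∈ Icc 1 Y, gm l / (l : ℂ) * nit t' l‖ ≤ ε) :
    sm (Icc 1 Y) (fun l => gm l / l) t ≤ Real.pi * ε ^ 2 + 2 / T * G ^ 4 := by
  refine (h3 _ _ t T ε hT h).trans ?_
  have h1 : ∑ l ∈ Icc 1 Y, ‖gm l / (l : ℂ)‖ ≤ G ^ 2 := by
    refine le_trans (sum_le_sum fun l _ => ?_) ((sum_inv_le_log Y).trans hG)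
    rw [norm_div, Complex.norm_natCast, ← one_div]
    gcongr
    exact hc l
  have h2 := pow_le_pow_left₀ (sum_nonneg fun _ _ => norm_nonneg _) h1 2
  rw [← pow_mul] at h2
  gcongr

lemma num1 {G D T : ℝ} (hG : 4 ≤ G) (hD : 1 ≤ D) (hT : 2 * D ^ 2 ≤ T) :
    Real.pi * (1 / (D * G)) ^ 2 + 2 / T ≤ 2 / D ^ 2 := by
  have h1 : Real.pi * (1 / (D * G)) ^ 2 ≤ 1 / D ^ 2 := by
    rw [div_pow, mul_pow, one_pow, mul_one_div, div_le_div_iff₀ (by positivity) (by positivity)]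
    have := Real.pi_le_four
    have h2 : Real.pi ≤ G ^ 2 := by nlinarith
    nlinarith [mul_le_mul_of_nonneg_left h2 (sq_nonneg D)]
  have h2 : 2 / T ≤ 1 / D ^ 2 := by
    rw [div_le_div_iff₀ (by nlinarith) (by positivity)]
    linarith
  have : 2 / D ^ 2 = 1 / D ^ 2 + 1 / D ^ 2 := by ring
  linarith

lemma num2 {G D T W : ℝ} (hG : 4 ≤ G) (hD : 1 ≤ D) (hT : 1 ≤ T) (hW : 0 ≤ W) (hW' : W ≤ G ^ 2) :
    2 * T * W ^ 2 * (Real.pi * (1 / (T * D * G ^ 4)) ^ 2 + 2 / (T * D ^ 2 * G ^ 8) * G ^ 4) ≤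
      5 / D ^ 2 := by
  have G0 : 0 < G := by linarith
  have h1 : W ^ 2 ≤ G ^ 4 := (pow_le_pow_left₀ hW hW' 2).trans_eq (by ring)
  have h2 : 8 ≤ T * G ^ 4 := by
    have := pow_le_pow_left₀ (by norm_num) hG 4
    nlinarith
  calc _ ≤ 2 * T * G ^ 4 * (4 * (1 / (T * D * G ^ 4)) ^ 2 + 2 / (T * D ^ 2 * G ^ 8) * G ^ 4) := by
        gcongr
        exact Real.pi_le_four
    _ = 8 / (T * G ^ 4) / D ^ 2 + 4 / D ^ 2 := by field_simp; ring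
    _ ≤ 1 / D ^ 2 + 4 / D ^ 2 := by
        gcongr
        exact (div_le_one (by positivity)).2 h2
    _ = _ := by ring

lemma num3 {G D T Λ L L' a W s : ℝ} (hG : 4 ≤ G) (hD : 1 ≤ D) (hT : 1 ≤ T) (hΛ : 128 * Λ ≤ G)
    (h0 : 0 ≤ Λ) (hL' : 0 < L') (hL : L' * (T ^ 2 * D ^ 3 * G ^ 13) ≤ L)
    (ha : T ^ 2 * D ^ 3 * G ^ 13 ≤ a) (hW' : W ≤ G ^ 2) (hs : s ≤ 2 * T + T * D ^ 2 * G ^ 8) :
    16 * Λ * (1 + s) * L' / L + W / a ≤ 1 / (T * D * G ^ 4) := by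
  have G1 : 1 ≤ G := by linarith
  have e1 : 1 ≤ D ^ 2 * G ^ 8 := one_le_mul_of_one_le_of_one_le (one_le_pow₀ hD) (one_le_pow₀ G1)
  have e2 : 1 + s ≤ 4 * (T * D ^ 2 * G ^ 8) := by nlinarith
  have e3 : 2 ≤ T * D ^ 2 * G ^ 7 := by
    have := pow_le_pow_left₀ (by norm_num) hG 7
    have h4 : 1 ≤ T * D ^ 2 := one_le_mul_of_one_le_of_one_le hT (one_le_pow₀ hD)
    nlinarith
  calc _ ≤ 16 * (G / 128) * (4 * (T * D ^ 2 * G ^ 8)) * L' / (L' * (T ^ 2 * D ^ 3 * G ^ 13)) +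
        G ^ 2 / (T ^ 2 * D ^ 3 * G ^ 13) := by
        have : 16 * Λ * (1 + s) ≤ 16 * (G / 128) * (4 * (T * D ^ 2 * G ^ 8)) :=
          (mul_le_mul_of_nonneg_left e2 (by positivity)).trans (by gcongr; linarith)
        gcongr
    _ = (1 / 2 + 1 / (T * D ^ 2 * G ^ 7)) * (1 / (T * D * G ^ 4)) := by field_simp; ring
    _ ≤ (1 / 2 + 1 / 2) * (1 / (T * D * G ^ 4)) := by gcongr
    _ = _ := by ring

lemma num4 {G D a Q R ρ GA Cv Cr B0 E : ℝ} (hG : 4 ≤ G) (hD : D = GA * ρ * G ^ 2) (h1 : 0 < GA)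
    (hρ : 0 < ρ) (hQ : D ≤ Q) (ha : D ^ 4 ≤ a) (D1 : 1 ≤ D) (hR : R * D ≤ a) (hR' : a ≤ 2 * D * R)
    (hv : 0 < Cv) (hr : 0 < Cr) (hB : 0 < B0) (hC : (6 * Cv + Cr) * B0 ≤ G) (hE : E ≤ 7 / D ^ 2) :
    ρ * (Cv * B0 * (R * (a * Q) * √(E + 1 / (a / D ^ 2)) + a / D ^ 2 * (a * Q) + R ^ 2)) / R +
      Cr * B0 * ρ * R * Q ≤ a * Q / GA := by
  have D0 : 0 < D := by linarith
  have a0 : 0 < a := (pow_pos D0 4).trans_le ha
  have R0 : 0 < R := by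
    by_contra h
    nlinarith [mul_nonneg D0.le (neg_nonneg.2 (not_lt.1 h))]
  have Q0 : 0 < Q := by linarith
  have e1 : √(E + 1 / (a / D ^ 2)) ≤ 3 / D := by
    refine Real.sqrt_le_iff.2 ⟨by positivity, ?_⟩
    have : 1 / (a / D ^ 2) ≤ 1 / D ^ 2 := by
      gcongr
      rw [le_div_iff₀ (by positivity)]
      linarith
    calc _ ≤ 7 / D ^ 2 + 1 / D ^ 2 := by linarith
      _ = 8 / D ^ 2 := by ring
      _ ≤ 9 / D ^ 2 := by gcongr; norm_num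
      _ = _ := by ring
  have e2 : a / D ^ 2 ≤ 2 * R / D := by
    rw [div_le_div_iff₀ (by positivity) D0]
    nlinarith
  have e3 : R ≤ a / D := (le_div_iff₀ D0).2 hR
  have e4 : R ^ 2 ≤ R * (a * Q / D) := by
    rw [sq]
    gcongr
    refine e3.trans ?_
    gcongr
    nlinarith
  calc _ ≤ ρ * (Cv * B0 * (R * (a * Q) * (3 / D) + 2 * R / D * (a * Q) + R * (a * Q / D))) / R +
        Cr * B0 * ρ * (a / D) * Q := by gcongr
    _ = (6 * Cv + Cr) * B0 / G ^ 2 * (a * Q / GA) := by rw [hD]; field_simp; ring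
    _ ≤ 1 * (a * Q / GA) := by
        gcongr
        rw [div_le_one (by positivity)]
        nlinarith
    _ = _ := one_mul _

lemma char_one {q n : ℕ} (h : n.Coprime q) : (1 : DirichletCharacter ℂ q) n = 1 :=
  MulChar.one_apply ((ZMod.isUnit_iff_coprime n q).2 h)

lemma cop_rough {q w l : ℕ} (h : rough w l) (h0 : q ≠ 0) (hq : q ≤ w) : l.Coprime q :=
  Nat.coprime_of_dvd fun p hp h1 h2 => by
    have := h p hp h1
    have := Nat.le_of_dvd (Nat.pos_of_ne_zero h0) h2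
    omega

lemma logX {Q a : ℕ} {G : ℝ} (hQ : 16 ≤ Q) (ha : Q ≤ a) (ha' : a ≤ 2 * Q) (hG : 4 ≤ G)
    (h : Real.log Q ≤ G) : 1 + Real.log ((8 * (a * Q) : ℕ) : ℝ) ≤ G ^ 2 ∧
      1 + Real.log ((a * Q : ℕ) : ℝ) ≤ G ^ 2 := by
  have e0 : 0 < a * Q := Nat.mul_pos (by omega) (by omega)
  have e1 : 8 * (a * Q) ≤ Q ^ 3 := by
    nlinarith [Nat.mul_le_mul_right Q ha', Nat.mul_le_mul_right (Q * Q) hQ]
  have e2 : ((8 * (a * Q) : ℕ) : ℝ) ≤ (Q : ℝ) ^ 3 := by exact_mod_cast e1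
  have e3 := Real.log_le_log (by exact_mod_cast (by omega : 0 < 8 * (a * Q))) e2
  have e4 : Real.log ((a * Q : ℕ) : ℝ) ≤ Real.log ((8 * (a * Q) : ℕ) : ℝ) :=
    Real.log_le_log (by exact_mod_cast e0) (by exact_mod_cast (by omega : a * Q ≤ 8 * (a * Q)))
  rw [Real.log_pow, Nat.cast_ofNat] at e3
  constructor <;> nlinarith

lemma rng {Q a t t' T : ℝ} (hQ : 0 ≤ Q) (ha : a ≤ 2 * Q) (ht : |t| ≤ a * Q) (hT : T ≤ a * Q)
    (h : |t' - t| ≤ T) : |t'| ≤ 4 * Q ^ 2 := by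
  have := abs_sub_abs_le_abs_sub t' t
  nlinarith

lemma natf {Q a P o K L L' Λ : ℕ} (hQ : 1 ≤ Q) (ha : Q ≤ a) (ha' : a ≤ 2 * Q) (hP : 1 ≤ P)
    (ho : 2 ≤ o) (h : 2 * P * o ≤ Q) (hK : Q ^ 3 ≤ (4 * K) ^ 5) (hΛ : (8 * (Λ + 1)) ^ 5 ≤ Q)
    (hKL : K * L ≤ 16 * Q ^ 2) (hL : 2 * L' ≤ L) :
    2 * P < Q ∧ P * o ≤ a ∧ 8 * (a * Q) ≤ 16 * Q ^ 2 ∧ 2 ≤ a * Q ∧ Λ * L + L' ≤ 8 * (a * Q) := by
  have K1 : 2 * (Λ + 1) ≤ K := by
    by_contra hn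
    have e1 : (4 * K) ^ 5 < (8 * (Λ + 1)) ^ 5 := Nat.pow_lt_pow_left (by omega) (by norm_num)
    have e3 : Q ≤ Q ^ 3 := Nat.le_self_pow (by norm_num) Q
    omega
  have e6 := Nat.mul_le_mul_right L K1
  have e7 : 2 * P < Q := by nlinarith
  exact ⟨e7, by nlinarith, by nlinarith, by nlinarith, by nlinarith⟩

lemma natg {g u j : ℕ} (hu : 1 ≤ u) (hg : 2 * u ≤ g) (hj : g / u ≤ j) : g + 1 ≤ j * (2 * u) := by
  have e3 := Nat.lt_mul_div_succ g (b := u) hu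
  have e4 := Nat.mul_le_mul_left u hj
  nlinarith

lemma natd {a D : ℕ} (hD : 0 < D) (h : 1 ≤ a / D) : a ≤ 2 * D * (a / D) := by
  have e1 := Nat.lt_mul_div_succ a hD
  nlinarith

end MajorP

open MajorP in
theorem pMajor (h1 : S_Row) (h2 : S_Var) (h3 : S_SmLe) (h4 : S_Match) (h5 : S_Box)
    (_h6 : Pool.Agent.P.MP_a14ce1_nt.Ch.S_SmReg) : S_Major := by
  intro u A B hu
  obtain ⟨Cr, hr, h1⟩ := h1
  obtain ⟨Cv, hv, h2⟩ := h2
  obtain ⟨n1, hn1⟩ : ∃ n1, n1 = A + B + 2 := ⟨_, rfl⟩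
  obtain ⟨A2, Q1, h5⟩ := h5 (B + 1) (n1 + 2) (2 * u) (by omega)
  obtain ⟨A3, hA3⟩ : ∃ A3, A3 = A2 + 2 * n1 + 1 := ⟨_, rfl⟩
  obtain ⟨CL, hCL⟩ : ∃ CL, CL = 2 * A3 + 3 * n1 + 13 := ⟨_, rfl⟩
  obtain ⟨Q2, hQ2⟩ := ev_lg (p := fun g => (g ^ CL ≤ 2 ^ g ∧ g ^ (2 * n1) ≤ 2 ^ Nat.sqrt g) ∧
      (16 ≤ g ∧ 128 * 2 ^ (3 * u) ≤ g ∧ 2 ^ (n1 + 2) ≤ g ∧ 2 * u ≤ g ∧
        (8 * (2 ^ (3 * u) + 1)) ^ 5 ≤ g) ∧ (6 * Cv + Cr) * 2 ^ (3 * u) ≤ (g : ℝ)) (by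
    filter_upwards [ev_pow_le_two_pow 1 CL, ev_pow_le_sqrt 1 (2 * n1), eventually_ge_atTop 16,
      eventually_ge_atTop (128 * 2 ^ (3 * u)), eventually_ge_atTop (2 ^ (n1 + 2)),
      eventually_ge_atTop (2 * u), eventually_ge_atTop ((8 * (2 ^ (3 * u) + 1)) ^ 5),
      tendsto_natCast_atTop_atTop.eventually_ge_atTop ((6 * Cv + Cr) * 2 ^ (3 * u))]
      with g a b c d e f i j
    exact ⟨⟨by simpa using a, by simpa using b⟩, ⟨c, d, e, f, i⟩, j⟩)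
  refine ⟨n1 + 1, CL, max (max Q1 Q2) 1, ?_⟩
  intro Q a hap w d L' χ ξ v hQ ha ha' hGd hw hL1 hL hξ hv1
  obtain ⟨⟨p1, p2⟩, ⟨g16, gΛ, gn, gu, gK⟩, gC⟩ := hQ2 Q (by omega)
  replace h5 := h5 Q (by omega)
  have Q1' : 1 ≤ Q := by omega
  have l1 := lg_le_log Q1'
  have l2 := log_le_lg (Q := Q) (by omega)
  have t1 := two_pow_lg_le Q1'
  have t2 := lt_two_pow_lg Q
  have hj := d.hj
  have hj' := d.hj'
  have hom : lg Q ^ (2 * n1) ≤ om Q := p2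
  unfold Gd at hGd
  generalize lg Q = g at *
  have gQ : g ≤ Q := (Nat.lt_two_pow_self).le.trans t1
  have pw : ∀ n, n ≤ CL → g ^ n ≤ Q := fun n hn =>
    (Nat.pow_le_pow_right (by omega) hn).trans (p1.trans t1)
  have om2 : 2 ≤ om Q := le_trans (by omega) ((Nat.le_self_pow (by omega) g).trans hom)
  have P1 : 2 * 2 ^ d.j * om Q ≤ Q := by rwa [← pow_succ']
  have gCL : 2 ≤ g ^ CL := le_trans (by omega) (Nat.le_self_pow (by omega) g)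
  have L2 : 2 * L' ≤ d.L := by
    rw [mul_comm]
    exact (Nat.mul_le_mul_left _ gCL).trans hL
  obtain ⟨P2, P3, X16, X2, Y1⟩ :=
    natf Q1' ha ha' Nat.one_le_two_pow om2 P1 d.hK (gK.trans gQ) d.hKL' L2
  have jg : d.j ≤ g := by
    have : 2 ^ d.j < 2 ^ (g + 1) := by omega
    have := (Nat.pow_lt_pow_iff_right (by norm_num)).1 this
    omega
  have hbox : box d.j = PP (2 ^ d.j) (2 * 2 ^ d.j) := by rw [box, pow_succ']
  obtain ⟨-, m2, m3⟩ := h4 d.be w d.L (2 ^ (3 * u)) L' d.be01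
  have ga1 : ∀ l, |ga d.be w L' l| ≤ 1 := fun l => (m2 l).trans (rr_bd w l).2
  have garough : ∀ l, ga d.be w L' l ≠ 0 → rough w l := fun l h =>
    rough_of_rr fun h0 => h (abs_nonpos_iff.1 (h0 ▸ m2 l))
  -- real quantities
  obtain ⟨G, hG⟩ : ∃ G : ℝ, G = g := ⟨_, rfl⟩
  obtain ⟨D, hD⟩ : ∃ D : ℝ, D = G ^ n1 := ⟨_, rfl⟩
  obtain ⟨T0, hT0⟩ : ∃ T0 : ℝ, T0 = G ^ A3 := ⟨_, rfl⟩
  have G4 : (4 : ℝ) ≤ G := by rw [hG]; exact_mod_cast (by omega : 4 ≤ g)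
  have G1 : (1 : ℝ) ≤ G := by linarith only [G4]
  have D1 : 1 ≤ D := hD ▸ one_le_pow₀ G1
  have T1 : 1 ≤ T0 := hT0 ▸ one_le_pow₀ G1
  have pwR : ∀ n, n ≤ CL → G ^ n ≤ Q := fun n hn => by rw [hG]; exact_mod_cast pw n hn
  have aR : (Q : ℝ) ≤ a := by exact_mod_cast ha
  have aR' : (a : ℝ) ≤ 2 * Q := by exact_mod_cast ha'
  have QR : (1 : ℝ) ≤ Q := by exact_mod_cast Q1'
  have QX : (Q : ℝ) ≤ a * Q := le_mul_of_one_le_left (by positivity) (QR.trans aR)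
  have eCL : G ^ CL = T0 ^ 2 * D ^ 3 * G ^ 13 := by rw [hT0, hD, hCL]; ring
  have TD : 2 * D ^ 2 ≤ T0 := by
    have : G ^ (2 * n1 + 1) ≤ T0 := hT0 ▸ pow_le_pow_right₀ G1 (by omega)
    rw [pow_succ, pow_mul', ← hD, mul_comm] at this
    exact (mul_le_mul_of_nonneg_right (by linarith only [G4]) (sq_nonneg D)).trans this
  have TX : T0 ≤ a * Q := (hT0 ▸ pwR A3 (by omega)).trans QX
  obtain ⟨lX, lX'⟩ := logX (g16.trans gQ) ha ha' G4 (hG ▸ l2)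
  have lX0 := Real.log_natCast_nonneg (a * Q)
  have R1 : 1 ≤ a / g ^ n1 := (Nat.le_div_iff_mul_le (by positivity)).2 (by
    have := pw n1 (by omega); omega)
  have R2 : ((a / g ^ n1 : ℕ) : ℝ) * D ≤ a := by
    rw [hD, hG]; exact_mod_cast Nat.div_mul_le_self a _
  have R3 : (a : ℝ) ≤ 2 * D * (a / g ^ n1 : ℕ) := by
    rw [hD, hG]; exact_mod_cast natd (by positivity) R1
  have cb0 : ∀ m, m ≤ 8 * (a * Q) → ‖((cv d.al (ga d.be w L') m : ℝ) : ℂ)‖ ≤ 2 ^ (3 * u) :=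
    fun m hm => by
    rw [Complex.norm_real, Real.norm_eq_abs]
    exact (abs_cv_le (fun k => (d.al01 k).1) ga1 m).trans (d.dv m (by omega))
  have key := h1 a Q w (g ^ B) (a / g ^ n1) _ v (2 ^ (3 * u)) (Cv * 2 ^ (3 * u) *
      ((a / g ^ n1 : ℕ) * (a * Q) * √(7 / D ^ 2 + 1 / (a / D ^ 2)) + a / D ^ 2 * (a * Q) +
        ((a / g ^ n1 : ℕ) : ℝ) ^ 2)) χ ξ hξ hw
    ((Nat.pow_lt_pow_right (by omega) (Nat.lt_succ_self B)).trans_le
      ((pw (B + 1) (by omega)).trans ha))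
    Q1' R1 (Nat.div_le_self _ _) hv1 cb0
    (fun m hm => by
      obtain ⟨k, l, rfl, e1, e2⟩ := cv_ne_zero (Complex.ofReal_ne_zero.1 hm)
      exact rough_mul.2 ⟨rough_of_le_rr (d.al01 k) e1, garough l e2⟩) ?_
  · refine key.trans ?_
    push_cast
    rw [← hG] at gC ⊢
    exact num4 G4 (by rw [hD, hn1]; ring) (by positivity) (by positivity)
      (hD ▸ pwR n1 (by omega)) (by
        rw [hD, ← pow_mul]; exact (pwR _ (by omega)).trans aR) D1 (by exact_mod_cast R2)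
      (by exact_mod_cast R3) hv hr (by positivity) gC le_rfl
  intro q _ ψ hq
  have hφ : ∀ k l : ℕ, χ (k * l : ℕ) * ψ (k * l : ℕ) = χ k * ψ k * (χ l * ψ l) := fun k l => by
    rw [Nat.cast_mul, Nat.cast_mul, map_mul, map_mul]; ring
  have nφ : ∀ (x : ℝ) (y : ℝ) (k : ℕ), |x| ≤ y → ‖(x : ℂ) * (χ k * ψ k)‖ ≤ y := fun x y k h => by
    rw [norm_mul, norm_mul, Complex.norm_real, Real.norm_eq_abs]
    exact (mul_le_of_le_one_right (abs_nonneg x)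
      (mul_le_one₀ (χ.norm_le_one _) (norm_nonneg _) (ψ.norm_le_one _))).trans h
  have npp : ∀ p, ‖((bx d.j p : ℝ) : ℂ) * (χ p * ψ p)‖ ≤ 1 := fun p => nφ _ _ _ (by
    change |if p ∈ box d.j then (1 : ℝ) else 0| ≤ 1
    split_ifs <;> simp)
  have epp : ∀ p ∈ PP (2 ^ d.j) (2 * 2 ^ d.j), ((bx d.j p : ℝ) : ℂ) * (χ p * ψ p) = χ p * ψ p :=
    fun p hp => by
    change ((if p ∈ box d.j then (1 : ℝ) else 0 : ℝ) : ℂ) * _ = _
    rw [hbox, if_pos hp, Complex.ofReal_one, one_mul]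
  suffices H : ∃ T1 ε1 ε2 : ℝ, 0 ≤ T1 ∧ 0 ≤ ε1 ∧ 0 ≤ ε2 ∧
      (∀ t : ℝ, T1 ≤ |t| → |t| ≤ (a * Q : ℕ) → sm (PP (2 ^ d.j) (2 * 2 ^ d.j))
        (fun p => ((bx d.j p : ℝ) : ℂ) * (χ p * ψ p) / p) t ≤ ε1) ∧
      (∀ t : ℝ, |t| < T1 → sm (Icc 1 (8 * (a * Q)))
        (fun l => ((ga d.be w L' l : ℝ) : ℂ) * (χ l * ψ l) / l) t ≤ ε2) ∧
      ε1 + T1 * (1 + Real.log (a * Q : ℕ)) ^ 2 * ε2 ≤ 7 / D ^ 2 by
    obtain ⟨T1, ε1, ε2, b1, b2, b3, b4, b5, b6⟩ := H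
    have D2 : 1 ≤ D ^ 2 := one_le_pow₀ D1
    have := h2 (a * Q) (2 ^ d.j) (a / g ^ n1) (a / D ^ 2) T1 ε1 ε2 (2 ^ (3 * u))
      (fun m => ((cv d.al (ga d.be w L') m : ℝ) : ℂ) * (χ m * ψ m))
      (fun p => ((bx d.j p : ℝ) : ℂ) * (χ p * ψ p))
      (fun m => ((cv d.al' (ga d.be w L') m : ℝ) : ℂ) * (χ m * ψ m))
      (fun k => ((d.al k : ℝ) : ℂ) * (χ k * ψ k))
      (fun l => ((ga d.be w L' l : ℝ) : ℂ) * (χ l * ψ l)) X2 Nat.one_le_two_pow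
      (by
        rw [le_div_iff₀ (by positivity), hD, ← pow_mul', hG]
        exact_mod_cast (Nat.mul_le_mul_left (2 ^ d.j) hom).trans P3)
      (by
        push_cast
        exact (div_le_self (by positivity) D2).trans (le_mul_of_one_le_right (by positivity) QR))
      ((Nat.div_le_self _ _).trans (Nat.le_mul_of_pos_right _ Q1')) b1 b2 b3
      (one_le_pow₀ one_le_two)
      (fun n => by
        rw [show d.al = cv (bx d.j) d.al' from funext d.fac, cv_assoc, cv_ofReal,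
          cv_twist _ _ (fun k => χ k * ψ k) hφ])
      (fun n => by rw [cv_ofReal, cv_twist _ _ (fun k => χ k * ψ k) hφ])
      (fun p hp => by
        by_contra hn
        refine hp ?_
        change ((if p ∈ box d.j then (1 : ℝ) else 0 : ℝ) : ℂ) * _ = _
        rw [hbox, if_neg hn, Complex.ofReal_zero, zero_mul])
      npp (fun k => nφ _ _ _ (by
        rw [abs_of_nonneg (d.al01 k).1]
        exact (d.al01 k).2.trans (rr_bd w k).2))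
      (fun n hn => ⟨nφ _ _ _ ((abs_cv_le (fun k => (d.al'01 k).1) ga1 n).trans (d.dv' n (by omega))),
        nφ _ _ _ ((abs_cv_le (fun k => (d.al01 k).1) ga1 n).trans (d.dv n (by omega)))⟩) b4 b5
    refine le_trans (le_of_eq (by simp only [mul_assoc])) (this.trans ?_)
    push_cast at b6 ⊢
    gcongr
  have eD : (g : ℝ) ^ (n1 + 1) = D * G := by rw [hD, hG, pow_succ]
  have easy : (∀ t' : ℝ, |t'| ≤ 4 * (Q : ℝ) ^ 2 →
      ‖∑ p ∈ PP (2 ^ d.j) (2 * 2 ^ d.j), χ p * ψ p / (p : ℂ) * nit t' p‖ ≤ 1 / (D * G)) →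
      ∀ t : ℝ, |t| ≤ (a * Q : ℕ) → sm (PP (2 ^ d.j) (2 * 2 ^ d.j))
        (fun p => ((bx d.j p : ℝ) : ℂ) * (χ p * ψ p) / p) t ≤ 2 / D ^ 2 := fun h t ht => by
    push_cast at ht
    refine (smP h3 Nat.one_le_two_pow epp npp (T := a * Q) (by linarith only [QR, QX])
      fun t' ht' => h t' ?_).trans (num1 G4 D1 (TD.trans TX))
    exact rng (by positivity) aR' ht le_rfl ht'
  have d27 : 2 / D ^ 2 ≤ 7 / D ^ 2 := by gcongr; norm_num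
  by_cases hχ : χ = 1
  swap
  · exact ⟨0, 2 / D ^ 2, 0, le_rfl, by positivity, le_rfl, fun t _ => easy (fun t' ht' => by
      rw [← hbox, ← eD]
      exact hGd χ hχ d.j hj jg q ψ hq t' ht') t, fun t ht => absurd ht (not_lt.2 (abs_nonneg t)),
      by simpa using d27⟩
  subst hχ
  have boxb : ∀ t' : ℝ, |t'| ≤ 4 * (Q : ℝ) ^ 2 → (ψ ≠ 1 ∨ Real.log Q ^ A2 ≤ |t'|) →
      ‖∑ p ∈ PP (2 ^ d.j) (2 * 2 ^ d.j),
        (1 : DirichletCharacter ℂ a) p * ψ p / (p : ℂ) * nit t' p‖ ≤ 1 / (D * G) := by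
    intro t' ht hor
    have e1 : ∀ n, n ≤ n1 + 2 → ∀ m, m + 1 = n → G ^ m ≤ Real.log Q ^ n := by
      rintro n hn m rfl
      have e2 : (2 : ℝ) ^ (m + 1) ≤ G := by
        rw [hG]; exact_mod_cast (Nat.pow_le_pow_right (by norm_num) hn).trans gn
      calc G ^ m ≤ (G / 2) ^ (m + 1) := by
            rw [div_pow, le_div_iff₀ (by positivity), pow_succ G]
            gcongr
        _ ≤ _ := by rw [hG]; gcongr
    rw [sum_congr rfl fun p hp => by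
      rw [char_one ((Nat.coprime_primes (PP_prime hp) hap.out).2 (by
        have := (mem_PP.1 hp).2.1; omega)), one_mul]]
    refine (h5 q ψ (2 ^ d.j) t' (le_trans ?_ (e1 _ (by omega) B rfl)) ?_ P2.le ht hor).trans ?_
    · rw [hG]; exact_mod_cast hq
    · refine t2.le.trans ?_
      rw [← pow_mul]
      exact Nat.pow_le_pow_right (by norm_num) (natg hu gu hj)
    · rw [← eD, ← hG]
      exact one_div_le_one_div_of_le (by positivity) (e1 _ le_rfl _ rfl)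
  by_cases hψ : ψ = 1
  swap
  · exact ⟨0, 2 / D ^ 2, 0, le_rfl, by positivity, le_rfl,
      fun t _ => easy (fun t' ht' => boxb t' ht' (Or.inl hψ)) t,
      fun t ht => absurd ht (not_lt.2 (abs_nonneg t)), by simpa using d27⟩
  refine ⟨2 * T0, 2 / D ^ 2, Real.pi * (1 / (T0 * D * G ^ 4)) ^ 2 +
    2 / (T0 * D ^ 2 * G ^ 8) * G ^ 4, by positivity, by positivity, by positivity,
    fun t ht ht2 => ?_, fun t ht => ?_, ?_⟩
  · push_cast at ht2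
    refine (smP h3 Nat.one_le_two_pow epp npp (T := T0) (by positivity) fun t' ht' =>
      boxb t' ?_ (Or.inr ?_)).trans (num1 G4 D1 TD)
    · exact rng (by positivity) aR' ht2 TX ht'
    · have e1 := abs_sub_abs_le_abs_sub t t'
      rw [abs_sub_comm t t'] at e1
      calc Real.log Q ^ A2 ≤ G ^ A2 :=
            pow_le_pow_left₀ (Real.log_natCast_nonneg Q) (hG ▸ l2) _
        _ ≤ T0 := hT0 ▸ pow_le_pow_right₀ G1 (by omega)
        _ ≤ _ := by linarith only [e1, ht, ht']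
  · refine smL h3 (fun l => nφ _ _ _ (ga1 l)) (by positivity) lX fun t' ht' => ?_
    have e4 := m3 a (8 * (a * Q)) t' hap.out d.beS hL1 L2 Y1
    rw [sum_congr rfl fun l _ => show ((ga d.be w L' l : ℝ) : ℂ) *
        ((1 : DirichletCharacter ℂ a) l * ψ l) / l * nit t' l =
        ((ga d.be w L' l : ℝ) : ℂ) * (1 : DirichletCharacter ℂ a) l / l * nit t' l by
      by_cases h0 : ga d.be w L' l = 0
      · simp [h0]
      · rw [hψ, char_one (cop_rough (garough l h0) (NeZero.ne q) (hq.trans hw)), mul_one]]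
    refine e4.trans (num3 G4 D1 T1 ?_ (by positivity) (by exact_mod_cast hL1) ?_
      (eCL ▸ (pwR CL le_rfl).trans aR) lX ?_)
    · rw [hG]; exact_mod_cast gΛ
    · rw [← eCL, hG]; exact_mod_cast hL
    · linarith only [abs_sub_abs_le_abs_sub t' t, ht, ht']
  · have := num2 (W := 1 + Real.log (a * Q : ℕ)) G4 D1 T1 (by linarith only [lX0]) lX'
    have e : 7 / D ^ 2 = 2 / D ^ 2 + 5 / D ^ 2 := by ring
    linarith only [this, e]

end Pool.Agent.P.MP_746f10_nt.AP
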