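import Pool.Agent.P.MP_746f10_nt.AP.Base

/-! The model has the same block masses, so its twisted Dirichlet polynomial is close. -/

namespace Pool.Agent.P.MP_746f10_nt.AP

open Finset
open Pool.Agent.P.MP_a14ce1_nt.Ch (nit ex norm_nit norm_ex ex_add)

namespace MatchP

lemma ex_lip (x y : ℝ) : ‖ex x - ex y‖ ≤ |x - y| := by
  have h : ex x - ex y = ex y * (ex (x - y) - 1) := by
    rw [mul_sub, ← ex_add, mul_one]; congr 2; ring
  rw [h, norm_mul, norm_ex, one_mul]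
  have h2 := Real.norm_exp_I_mul_ofReal_sub_one_le (x := x - y)
  rw [Real.norm_eq_abs] at h2
  unfold ex
  rw [mul_comm]
  exact h2

/-- the weight function -/
noncomputable def ph (t y : ℝ) : ℂ := 1 / (y : ℂ) * nit t y

lemma ph_lip (t : ℝ) {x y d : ℝ} (hx : 0 < x) (hxy : x ≤ y) (hd : y - x ≤ d) :
    ‖ph t y - ph t x‖ ≤ (1 + |t|) * d / x ^ 2 := by
  have hy : 0 < y := lt_of_lt_of_le hx hxy
  have hd0 : 0 ≤ d := le_trans (by linarith) hd
  have e1 : ph t y - ph t x = ((1 / y - 1 / x : ℝ) : ℂ) * nit t y +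
      ((1 / x : ℝ) : ℂ) * (nit t y - nit t x) := by
    unfold ph; push_cast; ring
  have b1 : |1 / y - 1 / x| ≤ d / x ^ 2 := by
    have : 1 / y - 1 / x = -((y - x) / (x * y)) := by field_simp; ring
    rw [this, abs_neg, abs_of_nonneg (div_nonneg (by linarith) (by positivity))]
    apply div_le_div₀ hd0 hd (by positivity)
    nlinarith
  have b2 : ‖nit t y - nit t x‖ ≤ |t| * (d / x) := by
    unfold nit
    refine (ex_lip _ _).trans ?_
    have : -(t * Real.log y) - -(t * Real.log x) = -(t * Real.log (y / x)) := by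
      rw [Real.log_div hy.ne' hx.ne']; ring
    rw [this, abs_neg, abs_mul]
    apply mul_le_mul_of_nonneg_left _ (abs_nonneg t)
    have h1 : 1 ≤ y / x := (one_le_div hx).2 hxy
    rw [abs_of_nonneg (Real.log_nonneg h1)]
    refine (Real.log_le_sub_one_of_pos (by positivity)).trans ?_
    rw [div_sub_one hx.ne']
    exact div_le_div_of_nonneg_right hd hx.le
  rw [e1]
  refine (norm_add_le _ _).trans ?_
  rw [norm_mul, norm_mul, norm_nit, mul_one, Complex.norm_real, Complex.norm_real,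
    Real.norm_eq_abs, Real.norm_eq_abs, abs_of_pos (by positivity : (0 : ℝ) < 1 / x)]
  have b3 : 1 / x * ‖nit t y - nit t x‖ ≤ 1 / x * (|t| * (d / x)) :=
    mul_le_mul_of_nonneg_left b2 (by positivity)
  have e2 : (1 + |t|) * d / x ^ 2 = d / x ^ 2 + 1 / x * (|t| * (d / x)) := by
    field_simp
  rw [e2]; linarith

lemma mem_blk {L' i l : ℕ} (h : 1 ≤ L') : l ∈ Ico (i * L') ((i + 1) * L') ↔ l / L' = i := by
  rw [mem_Ico, Nat.div_eq_iff (by omega)]
  constructor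
  · rintro ⟨h1, h2⟩
    refine ⟨h1, ?_⟩
    have : (i + 1) * L' = i * L' + L' := by ring
    omega
  · rintro ⟨h1, h2⟩
    refine ⟨h1, ?_⟩
    have : (i + 1) * L' = i * L' + L' := by ring
    omega

variable {β : ℕ → ℝ} {w L' : ℕ}

lemma cb_bd (hβ : ∀ l, 0 ≤ β l ∧ β l ≤ rr w l) (i : ℕ) :
    0 ≤ cb β w L' i ∧ cb β w L' i ≤ 1 := by
  unfold cb
  have h1 : 0 ≤ ∑ l ∈ Ico (i * L') ((i + 1) * L'), β l := sum_nonneg fun l _ => (hβ l).1
  have h2 : ∑ l ∈ Ico (i * L') ((i + 1) * L'), β l ≤ ∑ l ∈ Ico (i * L') ((i + 1) * L'), rr w l :=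
    sum_le_sum fun l _ => (hβ l).2
  exact ⟨div_nonneg h1 (h1.trans h2), div_le_one_of_le₀ h2 (h1.trans h2)⟩

lemma ga_bd (hβ : ∀ l, 0 ≤ β l ∧ β l ≤ rr w l) (l : ℕ) : |ga β w L' l| ≤ rr w l := by
  unfold ga
  have h1 := cb_bd (L' := L') hβ (l / L')
  have h2 := hβ l
  have h3 := rr_bd w l
  have h4 : 0 ≤ rr w l * cb β w L' (l / L') := mul_nonneg h3.1 h1.1
  have h5 : rr w l * cb β w L' (l / L') ≤ rr w l := mul_le_of_le_one_right h3.1 h1.2
  rw [abs_le]; constructor <;> linarith [h2.1, h2.2]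

lemma blk_sum (hβ : ∀ l, 0 ≤ β l ∧ β l ≤ rr w l) (h : 1 ≤ L') (i : ℕ) :
    ∑ l ∈ Ico (i * L') ((i + 1) * L'), ga β w L' l = 0 := by
  have e : ∑ l ∈ Ico (i * L') ((i + 1) * L'), ga β w L' l =
      ∑ l ∈ Ico (i * L') ((i + 1) * L'), β l -
        (∑ l ∈ Ico (i * L') ((i + 1) * L'), rr w l) * cb β w L' i := by
    rw [sum_mul, ← sum_sub_distrib]
    refine sum_congr rfl fun l hl => ?_
    unfold ga
    rw [(mem_blk h).1 hl]
  rw [e]
  unfold cb
  have h1 : 0 ≤ ∑ l ∈ Ico (i * L') ((i + 1) * L'), β l := sum_nonneg fun l _ => (hβ l).1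
  have h2 : ∑ l ∈ Ico (i * L') ((i + 1) * L'), β l ≤ ∑ l ∈ Ico (i * L') ((i + 1) * L'), rr w l :=
    sum_le_sum fun l _ => (hβ l).2
  by_cases h0 : ∑ l ∈ Ico (i * L') ((i + 1) * L'), rr w l = 0
  · rw [h0] at h2 ⊢; rw [zero_mul]; linarith
  · field_simp; ring

lemma supp (h : 1 ≤ L') {l : ℕ} (hl : ga β w L' l ≠ 0) : ∃ l', β l' ≠ 0 ∧ l' / L' = l / L' := by
  by_contra hc
  push Not at hc
  apply hl
  unfold ga cb
  have h1 : β l = 0 := by
    by_contra h1; exact hc l h1 rfl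
  have h2 : ∑ m ∈ Ico (l / L' * L') ((l / L' + 1) * L'), β m = 0 := by
    refine sum_eq_zero fun m hm => ?_
    by_contra h2; exact hc m h2 ((mem_blk h).1 hm)
  rw [h1, h2]; simp

lemma blk_range {L Λ : ℕ} (hs : ∀ l, β l ≠ 0 → L < l ∧ l ≤ Λ * L) (h : 1 ≤ L') {l : ℕ}
    (hl : ga β w L' l ≠ 0) : L < (l / L' + 1) * L' ∧ l / L' * L' ≤ Λ * L := by
  obtain ⟨l', h1, h2⟩ := supp h hl
  obtain ⟨h3, h4⟩ := hs l' h1
  have h5 := mem_Ico.1 ((mem_blk h).2 h2)
  omega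

lemma sum_zero {L Λ Y : ℕ} (hβ : ∀ l, 0 ≤ β l ∧ β l ≤ rr w l)
    (hs : ∀ l, β l ≠ 0 → L < l ∧ l ≤ Λ * L) (h : 1 ≤ L') (hL : 2 * L' ≤ L) (hY : Λ * L + L' ≤ Y)
    (F : ℕ → ℂ) : ∑ l ∈ Icc 1 Y, (ga β w L' l : ℂ) * F (l / L') = 0 := by
  rw [← sum_fiberwise_of_maps_to (s := Icc 1 Y) (t := range (Y + 1)) (g := fun l => l / L')
    (fun l hl => mem_range.2 (lt_of_le_of_lt (Nat.div_le_self _ _)
      (Nat.lt_succ_of_le (mem_Icc.1 hl).2)))]
  refine sum_eq_zero fun i _ => ?_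
  have e : ∑ l ∈ Icc 1 Y with l / L' = i, (ga β w L' l : ℂ) * F (l / L') =
      ∑ l ∈ Ico (i * L') ((i + 1) * L'), (ga β w L' l : ℂ) * F i := by
    rw [sum_congr rfl (g := fun l => (ga β w L' l : ℂ) * F i)
      (fun l hl => by rw [(mem_filter.1 hl).2])]
    refine sum_subset (fun l hl => (mem_blk h).2 (mem_filter.1 hl).2) ?_
    intro l hl hn
    have h1 := (mem_blk h).1 hl
    have h0 : ga β w L' l = 0 := by
      by_contra h0
      apply hn
      obtain ⟨h2, h3⟩ := blk_range hs h h0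
      rw [h1] at h2 h3
      have h4 := mem_Ico.1 hl
      have h5 : (i + 1) * L' = i * L' + L' := by ring
      exact mem_filter.2 ⟨mem_Icc.2 ⟨by omega, by omega⟩, h1⟩
    rw [h0]; simp
  rw [e, ← sum_mul, ← Complex.ofReal_sum, blk_sum hβ h]; simp

lemma main {L Λ Y : ℕ} (hβ : ∀ l, 0 ≤ β l ∧ β l ≤ rr w l)
    (hs : ∀ l, β l ≠ 0 → L < l ∧ l ≤ Λ * L) (h : 1 ≤ L') (hL : 2 * L' ≤ L) (hY : Λ * L + L' ≤ Y)
    (t : ℝ) : ‖∑ l ∈ Icc 1 Y, (ga β w L' l : ℂ) * ph t l‖ ≤ 16 * Λ * (1 + |t|) * L' / L := by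
  have hL0 : (0 : ℝ) < L := by exact_mod_cast (by omega : 0 < L)
  have e : ∑ l ∈ Icc 1 Y, (ga β w L' l : ℂ) * ph t l =
      ∑ l ∈ Icc 1 Y, (ga β w L' l : ℂ) * (ph t l - ph t ((l / L' * L' : ℕ) : ℝ)) := by
    have := sum_zero hβ hs h hL hY fun i => ph t ((i * L' : ℕ) : ℝ)
    simp only [mul_sub, sum_sub_distrib]
    rw [this, sub_zero]
  rw [e]
  refine (norm_sum_le _ _).trans ?_
  set c : ℝ := 4 * (1 + |t|) * L' / (L : ℝ) ^ 2 with hc
  have hc0 : 0 ≤ c := by positivity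
  have hb : ∀ l ∈ Icc 1 Y, ‖(ga β w L' l : ℂ) * (ph t l - ph t ((l / L' * L' : ℕ) : ℝ))‖ ≤
      if l ∈ range (2 * Λ * L) then c else 0 := by
    intro l _
    by_cases h0 : ga β w L' l = 0
    · rw [h0]; simp only [Complex.ofReal_zero, zero_mul, norm_zero]; split_ifs <;> [exact hc0; rfl]
    obtain ⟨h2, h3⟩ := blk_range hs h h0
    have h4 := mem_Ico.1 ((mem_blk (l := l) h).2 rfl)
    have h5 : (l / L' + 1) * L' = l / L' * L' + L' := by ring
    have hΛ : 1 ≤ Λ := by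
      rcases Nat.eq_zero_or_pos Λ with h6 | h6
      · rw [h6] at h3; omega
      · exact h6
    have h7 : L ≤ Λ * L := Nat.le_mul_of_pos_left L hΛ
    have h8 : 2 * Λ * L = Λ * L + Λ * L := by ring
    rw [if_pos (mem_range.2 (by omega)), norm_mul, Complex.norm_real, Real.norm_eq_abs]
    set x := l / L' * L' with hx
    have hx1 : (L : ℝ) ≤ 2 * x := by exact_mod_cast (by omega : L ≤ 2 * x)
    have hx0 : (0 : ℝ) < x := by linarith
    have hx2 : (x : ℝ) ≤ l := by exact_mod_cast h4.1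
    have hx3 : (l : ℝ) - x ≤ L' := by
      have : (l : ℝ) ≤ x + L' := by exact_mod_cast (by omega : l ≤ x + L')
      linarith
    have b1 := ph_lip t hx0 hx2 hx3
    have b2 : (1 + |t|) * L' / (x : ℝ) ^ 2 ≤ c := by
      rw [hc, div_le_div_iff₀ (by positivity) (by positivity)]
      have : (L : ℝ) ^ 2 ≤ 4 * (x : ℝ) ^ 2 := by nlinarith
      have h9 : 0 ≤ (1 + |t|) * L' := by positivity
      nlinarith
    have b3 : |ga β w L' l| ≤ 1 := (ga_bd hβ l).trans (rr_bd w l).2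
    calc _ ≤ 1 * c := mul_le_mul b3 (b1.trans b2) (norm_nonneg _) zero_le_one
      _ = c := one_mul c
  refine (sum_le_sum hb).trans ?_
  rw [← sum_filter, sum_const, nsmul_eq_mul]
  have hcard : ((Icc 1 Y).filter (· ∈ range (2 * Λ * L))).card ≤ 2 * Λ * L := by
    refine (card_le_card fun l hl => (mem_filter.1 hl).2).trans ?_
    rw [card_range]
  have hcard' : (((Icc 1 Y).filter (· ∈ range (2 * Λ * L))).card : ℝ) ≤ 2 * Λ * L := by
    exact_mod_cast hcard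
  refine (mul_le_mul_of_nonneg_right hcard' hc0).trans ?_
  have e2 : 2 * Λ * L * c = 8 * Λ * (1 + |t|) * L' / L := by rw [hc]; field_simp; ring
  rw [e2]
  apply div_le_div_of_nonneg_right _ hL0.le
  have : (0 : ℝ) ≤ Λ * (1 + |t|) * L' := by positivity
  nlinarith

lemma sum_mult {a : ℕ} (ha : 0 < a) (Y : ℕ) :
    ∑ l ∈ Icc 1 Y, (if a ∣ l then (l : ℝ)⁻¹ else 0) ≤ (1 + Real.log Y) / a := by
  have ha' : (0 : ℝ) < a := by exact_mod_cast ha
  rw [← sum_filter]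
  have hsub : (Icc 1 Y).filter (a ∣ ·) ⊆ (Ioc 0 Y).image (a * ·) := by
    intro l hl
    obtain ⟨h1, m, rfl⟩ := mem_filter.1 hl
    obtain ⟨h2, h3⟩ := mem_Icc.1 h1
    refine mem_image.2 ⟨m, mem_Ioc.2 ⟨Nat.pos_of_mul_pos_left h2, ?_⟩, rfl⟩
    exact (Nat.le_mul_of_pos_left m ha).trans h3
  refine (sum_le_sum_of_subset_of_nonneg hsub fun _ _ _ => by positivity).trans ?_
  rw [sum_image fun x _ y _ hxy => Nat.eq_of_mul_eq_mul_left ha hxy]
  rw [le_div_iff₀ ha', sum_mul]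
  refine le_trans (le_of_eq (sum_congr rfl fun m hm => ?_)) (sum_inv_le_log Y)
  have : (0 : ℝ) < m := by exact_mod_cast (mem_Ioc.1 hm).1
  push_cast; field_simp

end MatchP

open MatchP in
theorem pMatch : S_Match := by
  intro β w L Λ L' hβ
  refine ⟨cb_bd hβ, ga_bd hβ, ?_⟩
  intro a Y t ha hs h hL hY
  have e : ∑ l ∈ Icc 1 Y, (ga β w L' l : ℂ) * (1 : DirichletCharacter ℂ a) l / (l : ℂ) * nit t l =
      ∑ l ∈ Icc 1 Y, (ga β w L' l : ℂ) * ph t l -
        ∑ l ∈ Icc 1 Y, if a ∣ l then (ga β w L' l : ℂ) * ph t l else 0 := by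
    rw [← sum_sub_distrib]
    refine sum_congr rfl fun l _ => ?_
    split_ifs with hd
    · rw [MulChar.map_nonunit _ (by
        rw [ZMod.isUnit_iff_coprime, Nat.coprime_comm, ha.coprime_iff_not_dvd]; exact fun h => h hd)]
      simp
    · rw [MulChar.one_apply (by
        rw [ZMod.isUnit_iff_coprime, Nat.coprime_comm, ha.coprime_iff_not_dvd]; exact hd)]
      unfold ph; push_cast; ring
  rw [e]
  refine (norm_sub_le _ _).trans (add_le_add (main hβ hs h hL hY t) ?_)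
  refine (norm_sum_le _ _).trans (le_trans (sum_le_sum fun l _ => ?_) (sum_mult ha.pos Y))
  split_ifs with hd
  · have b3 : |ga β w L' l| ≤ 1 := (ga_bd hβ l).trans (rr_bd w l).2
    unfold ph
    rw [norm_mul, norm_mul, norm_nit, mul_one, Complex.norm_real, Real.norm_eq_abs, one_div,
      norm_inv, Complex.norm_real, Real.norm_eq_abs, Nat.abs_cast]
    exact mul_le_of_le_one_left (by positivity) b3
  · simp

end Pool.Agent.P.MP_746f10_nt.AP
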