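import Pool.Agent.P.MP_746f10_nt.AP.Base

/-! The bound for the minor part. -/

namespace Pool.Agent.P.MP_746f10_nt.AP

open Finset Filter

namespace MinorP

theorem gam_num {x T a F : ℝ} (hx : 1 ≤ x) (hT : 1 ≤ T) (hF : 1 ≤ F) (h1 : 4 * x * T ^ 22 ≤ a)
    (h2 : F ^ 4 * T ^ 56 * a ≤ x ^ 2) :
    (T ^ 16) ^ 3 * ((F ^ 4 * T ^ 52 * a + x ^ 2) * (1 / T ^ 26) ^ 2 +
      x ^ 2 * F ^ 4 / (F ^ 4 * T ^ 52) + x * F ^ 4) + F ^ 4 * T ^ 52 * a + (x * T ^ 6) ^ 2 / T ^ 16 +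
      x * T ^ 6 * a ^ (1 / 3 : ℝ) + (x * T ^ 6) ^ 3 / a ≤ 8 * (x ^ 2 / T ^ 4) := by
  have T0 : 0 < T := by linarith
  have x0 : 0 < x := by linarith
  have F0 : 0 < F := by linarith
  have p22 : 1 ≤ T ^ 22 := one_le_pow₀ hT
  have p4 : 1 ≤ T ^ 4 := one_le_pow₀ hT
  have xa : x * T ^ 22 ≤ a := by linarith [mul_pos x0 (pow_pos T0 22)]
  have xa' : x ≤ a := (le_mul_of_one_le_right x0.le p22).trans xa
  have a0 : 0 < a := by linarith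
  have e1 : F ^ 4 * T ^ 52 * a ≤ x ^ 2 / T ^ 4 := by
    rw [le_div_iff₀ (by positivity)]
    linarith
  have e1' : x ^ 2 / T ^ 4 ≤ x ^ 2 := div_le_self (by positivity) p4
  have e2 : (T ^ 16) ^ 3 * ((F ^ 4 * T ^ 52 * a + x ^ 2) * (1 / T ^ 26) ^ 2) ≤
      2 * (x ^ 2 / T ^ 4) := by
    calc _ ≤ (T ^ 16) ^ 3 * ((x ^ 2 + x ^ 2) * (1 / T ^ 26) ^ 2) := by
          gcongr
          exact e1.trans e1'
      _ = _ := by field_simp; ring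
  have e3 : (T ^ 16) ^ 3 * (x ^ 2 * F ^ 4 / (F ^ 4 * T ^ 52)) = x ^ 2 / T ^ 4 := by field_simp
  have e4 : (T ^ 16) ^ 3 * (x * F ^ 4) ≤ x ^ 2 / T ^ 4 := by
    rw [le_div_iff₀ (by positivity)]
    calc _ = F ^ 4 * T ^ 52 * x := by ring
      _ ≤ F ^ 4 * T ^ 52 * a := by gcongr
      _ ≤ _ := e1.trans e1'
  have e5 : (x * T ^ 6) ^ 2 / T ^ 16 = x ^ 2 / T ^ 4 := by field_simp
  have e6 : x * T ^ 6 * a ^ (1 / 3 : ℝ) ≤ x ^ 2 / T ^ 4 := by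
    have b1 : a ≤ (x / T ^ 10) ^ 3 := by
      rw [div_pow, le_div_iff₀ (by positivity)]
      calc a * (T ^ 10) ^ 3 = 1 * T ^ 30 * a := by ring
        _ ≤ F ^ 4 * T ^ 56 * a := by
          gcongr
          · exact one_le_pow₀ hF
          · norm_num
        _ ≤ x ^ 2 := h2
        _ ≤ x ^ 3 := pow_le_pow_right₀ hx (by norm_num)
    have b2 : a ^ (1 / 3 : ℝ) ≤ x / T ^ 10 := by
      refine (Real.rpow_le_rpow a0.le b1 (by norm_num)).trans_eq ?_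
      have := Real.pow_rpow_inv_natCast (x := x / T ^ 10) (n := 3) (by positivity) (by norm_num)
      rwa [Nat.cast_ofNat, ← one_div] at this
    calc _ ≤ x * T ^ 6 * (x / T ^ 10) := by gcongr
      _ = _ := by field_simp
  have e7 : (x * T ^ 6) ^ 3 / a ≤ x ^ 2 / T ^ 4 := by
    rw [div_le_div_iff₀ a0 (by positivity)]
    calc _ = x ^ 2 * (x * T ^ 22) := by ring
      _ ≤ _ := by gcongr
  rw [mul_add, mul_add, e3, e5]
  linarith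

theorem pf_num {x T a F S : ℝ} (hT : 1 ≤ T) (hF : 1 ≤ F) (a0 : 0 < a)
    (h2 : F ^ 4 * T ^ 56 * a ≤ x ^ 2) (hS : S ≤ a) :
    (F ^ 4 * T ^ 52 + 16 * x ^ 2 / a) * S + x ^ 2 / (F ^ 4 * T ^ 52) * F ^ 4 ≤ 18 * x ^ 2 := by
  have T0 : 0 < T := by linarith
  have F0 : 0 < F := by linarith
  have e1 : F ^ 4 * T ^ 52 * a ≤ F ^ 4 * T ^ 56 * a := by
    gcongr
    norm_num
  have e2 : x ^ 2 / (F ^ 4 * T ^ 52) * F ^ 4 ≤ x ^ 2 := by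
    calc _ = x ^ 2 / T ^ 52 := by field_simp
      _ ≤ _ := div_le_self (by positivity) (one_le_pow₀ hT)
  have e3 : (F ^ 4 * T ^ 52 + 16 * x ^ 2 / a) * S ≤ F ^ 4 * T ^ 52 * a + 16 * x ^ 2 := by
    calc _ ≤ (F ^ 4 * T ^ 52 + 16 * x ^ 2 / a) * a := by gcongr
      _ = _ := by field_simp
  linarith

theorem hf_num {x T a F S Y : ℝ} (hT : 1 ≤ T) (hF : 1 ≤ F) (a0 : 0 < a) (ha : T ^ 4 ≤ a)
    (h2 : F ^ 4 * T ^ 56 * a ≤ x ^ 2) (hY : Y * T ^ 4 ≤ a) (hS : S ≤ √((2 * Y + 1) * a)) :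
    (F ^ 4 * T ^ 52 + 16 * x ^ 2 / a) * S + x ^ 2 / (F ^ 4 * T ^ 52) * F ^ 2 ≤
      35 * (x ^ 2 / T ^ 2) := by
  have T0 : 0 < T := by linarith
  have F0 : 0 < F := by linarith
  have e0 : S ≤ 2 * a / T ^ 2 := by
    refine hS.trans (Real.sqrt_le_iff.2 ⟨by positivity, ?_⟩)
    rw [div_pow, le_div_iff₀ (by positivity)]
    calc _ = (2 * (Y * T ^ 4) + T ^ 4) * a := by ring
      _ ≤ (2 * a + 2 * a) * a := by
        gcongr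
        linarith
      _ = _ := by ring
  have e1 : F ^ 4 * T ^ 52 * a ≤ x ^ 2 := by
    refine le_trans ?_ h2
    gcongr
    norm_num
  have e2 : x ^ 2 / (F ^ 4 * T ^ 52) * F ^ 2 ≤ x ^ 2 / T ^ 2 := by
    calc _ = x ^ 2 / (F ^ 2 * T ^ 52) := by field_simp
      _ ≤ x ^ 2 / (1 * T ^ 2) := by
        gcongr
        · exact one_le_pow₀ hF
        · norm_num
      _ = _ := by rw [one_mul]
  have e3 : (F ^ 4 * T ^ 52 + 16 * x ^ 2 / a) * S ≤ 34 * (x ^ 2 / T ^ 2) := by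
    calc _ ≤ (F ^ 4 * T ^ 52 + 16 * x ^ 2 / a) * (2 * a / T ^ 2) := by gcongr
      _ = (2 * (F ^ 4 * T ^ 52 * a) + 32 * x ^ 2) / T ^ 2 := by field_simp; ring
      _ ≤ (2 * x ^ 2 + 32 * x ^ 2) / T ^ 2 := by gcongr
      _ = _ := by ring
  linarith

theorem sum_sqrt (n : ℕ) (G : ℕ → ℕ → ℝ) (hG : ∀ k k', 0 ≤ G k k') {D y : ℝ} (hD : 1 ≤ D)
    (hy : 0 ≤ y) (h : ∑ k ∈ Icc 1 n, ∑ k' ∈ Icc 1 n, G k k' ≤ D * y ^ 2) :
    ∑ k ∈ Icc 1 n, ∑ k' ∈ Icc 1 n, √(G k k') ≤ D * (n * y) := by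
  rw [← sum_product'] at h ⊢
  refine le_of_sq_le_sq ?_ (by positivity) |>.trans' (le_refl _)
  refine sq_sum_le_card_mul_sum_sq.trans ?_
  rw [sum_congr rfl fun p _ => Real.sq_sqrt (hG p.1 p.2), card_product, Nat.card_Icc,
    Nat.add_sub_cancel]
  push_cast
  calc _ ≤ (n : ℝ) * n * (D * y ^ 2) := by gcongr
    _ = 1 * D * (n * y) ^ 2 := by ring
    _ ≤ D * D * (n * y) ^ 2 := by gcongr
    _ = _ := by ring

theorem core (h1 : S_CSW) (h2 : S_Four) (h3 : S_Gam) (h4 : S_Pair) (h5 : S_Mass) :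
    ∃ D : ℝ, 0 < D ∧ ∀ (a : ℕ) [Fact a.Prime] (N K K2 t F : ℕ) (α β u : ℕ → ℂ) (f : ZMod a → ℂ),
      1 ≤ K → K ≤ N → 1 ≤ K2 → 2 ≤ t → 1 ≤ F → 4 * K2 * t ^ 22 ≤ a → F ^ 4 * t ^ 56 * a ≤ K2 ^ 2 →
      (∀ k, ‖α k‖ ≤ 1) → (∀ l, ‖β l‖ ≤ 1) → (∀ n, ‖u n‖ ≤ 1) → (∀ k, α k ≠ 0 → K < k ∧ k ≤ K2) →
      Mn f (Xi a (t ^ 16)) (1 / (t : ℝ) ^ 26) F →
      ‖Bf a N (cv α β) u (fun b => f b)‖ ^ 2 ≤
        (3 * a * N / K : ℝ) ^ 2 * (D * ((K2 : ℝ) ^ 2 / (t : ℝ) ^ 2)) := by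
  obtain ⟨C, hC, h3⟩ := h3
  refine ⟨8 * C + 88, by linarith, ?_⟩
  intro a _ N K K2 t F α β u f hK hKN hK2 ht hF H1 H2 hα hβ hu hs hf
  have t1 : 1 ≤ t := by omega
  have q0 : 0 < K2 * t ^ 22 := by positivity
  have q1 : K2 * t ^ 4 ≤ K2 * t ^ 22 := by gcongr; omega
  have q2 : K2 ≤ K2 * t ^ 4 := Nat.le_mul_of_pos_right _ (by positivity)
  have q3 : t ^ 4 ≤ K2 * t ^ 4 := Nat.le_mul_of_pos_left _ hK2
  rw [mul_assoc] at H1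
  obtain ⟨J, hJ⟩ : ∃ J, J = a / (K2 * t ^ 4) := ⟨_, rfl⟩
  have j1 : 1 ≤ J := hJ ▸ (Nat.le_div_iff_mul_le (by positivity)).2 (by omega)
  have j2 : K2 * t ^ 4 * J ≤ a := hJ ▸ Nat.mul_div_le a _
  have j3 : a < K2 * t ^ 4 * (J + 1) := hJ ▸ Nat.lt_mul_div_succ a (by positivity)
  have j4 : a ≤ K2 * t ^ 4 * (2 * J) := j3.le.trans (by gcongr; omega)
  have j5 : K2 * J ≤ a := (Nat.mul_le_mul_right J q2).trans j2
  have hKa : K2 < a := by omega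
  have g1 : 1 ≤ F ^ 4 * t ^ 52 := Nat.one_le_iff_ne_zero.2 (by positivity)
  have r1 : K2 ≤ K2 * t ^ 6 := Nat.le_mul_of_pos_right _ (by positivity)
  have x1 : (1 : ℝ) ≤ K2 := by exact_mod_cast hK2
  have T1 : (1 : ℝ) ≤ t := by exact_mod_cast t1
  have F1 : (1 : ℝ) ≤ F := by exact_mod_cast hF
  have a0 : (0 : ℝ) < a := by exact_mod_cast (by omega : 0 < a)
  have J0 : (0 : ℝ) < J := by exact_mod_cast j1
  have H1' : 4 * (K2 : ℝ) * (t : ℝ) ^ 22 ≤ a := by rw [mul_assoc]; exact_mod_cast H1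
  have H2' : (F : ℝ) ^ 4 * (t : ℝ) ^ 56 * a ≤ (K2 : ℝ) ^ 2 := by exact_mod_cast H2
  obtain ⟨-, m2, m3, m4⟩ := h5 a f _ _ _ hf
  have bG := h3 a f _ _ (t ^ 16) K2 (K2 * t ^ 6) (F ^ 4 * t ^ 52) hf
    (ht.trans (Nat.le_self_pow (by norm_num) t)) g1 hK2 r1 (by
      have : 3 * t ^ 16 * (K2 * t ^ 6) = 3 * (K2 * t ^ 22) := by ring
      omega)
  have bP := (h4 a K2 (F ^ 4 * t ^ 52) (Pf f) _ hKa g1 fun x => ⟨by unfold Pf; positivity, m2 x⟩).2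
  have bH := (h4 a K2 (F ^ 4 * t ^ 52) (Hf f (K2 * J)) _ hKa g1 fun x => ⟨by
    unfold Hf
    refine mul_nonneg (by positivity) (sum_nonneg fun y _ => mul_nonneg (by positivity) ?_)
    unfold nr
    split_ifs <;> norm_num, (m4 (K2 * J)).1 x⟩).2
  rw [Nat.cast_mul, Nat.cast_pow, Nat.cast_pow] at bP bH
  simp only [Nat.cast_mul, Nat.cast_pow] at bG
  replace bG := bG.trans (mul_le_mul_of_nonneg_left (gam_num x1 T1 F1 H1' H2') hC.le)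
  replace bP := bP.trans (pf_num T1 F1 a0 H2' m3)
  replace bH := bH.trans (hf_num T1 F1 a0 (by exact_mod_cast (by omega : t ^ 4 ≤ a)) H2'
    (by exact_mod_cast (by rw [mul_right_comm]; exact j2 : K2 * J * t ^ 4 ≤ a)) (m4 (K2 * J)).2)
  have w1 : (a / (2 * J * (K2 * t ^ 6 : ℕ)) : ℝ) ^ 2 ≤ (1 / (t : ℝ) ^ 2) ^ 2 := by
    refine pow_le_pow_left₀ (by positivity) ?_ 2
    push_cast
    rw [div_le_div_iff₀ (by positivity) (by positivity)]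
    have : (a : ℝ) ≤ K2 * t ^ 4 * (2 * J) := by exact_mod_cast j4
    calc _ ≤ (K2 * t ^ 4 * (2 * J) : ℝ) * t ^ 2 := by gcongr
      _ = _ := by ring
  have bF : ∑ k ∈ Icc 1 K2, ∑ k' ∈ Icc 1 K2, Gf f J k k' ≤
      (8 * C + 18) * ((K2 : ℝ) / (t : ℝ) ^ 2) ^ 2 := by
    refine (sum_le_sum fun k _ => sum_le_sum fun k' hk' =>
      (h2 a f J (K2 * t ^ 6) k k' j1 (by omega) ?_).trans (add_le_add_right
        (mul_le_mul_of_nonneg_right w1 (by unfold Pf; positivity)) _)).trans ?_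
    · rw [Ne, ZMod.natCast_eq_zero_iff]
      have := mem_Icc.1 hk'
      exact Nat.not_dvd_of_pos_of_lt (by omega) (by omega)
    · simp only [sum_add_distrib, ← mul_sum]
      calc _ ≤ C * (8 * ((K2 : ℝ) ^ 2 / (t : ℝ) ^ 4)) + (1 / (t : ℝ) ^ 2) ^ 2 * (18 * (K2 : ℝ) ^ 2) :=
            add_le_add bG (mul_le_mul_of_nonneg_left bP (by positivity))
        _ = _ := by field_simp
  have bS := sum_sqrt K2 (Gf f J) (fun k k' => by unfold Gf; positivity) (by linarith)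
    (by positivity) bF
  refine (h1 a N K K2 J α β u f hK hKN hKa j1 j5 hα hβ hu hs hf.zero).trans
    (mul_le_mul_of_nonneg_left ?_ (by positivity))
  simp only [sum_add_distrib, ← mul_sum]
  have e : (K2 : ℝ) * (K2 / (t : ℝ) ^ 2) = (K2 : ℝ) ^ 2 / (t : ℝ) ^ 2 := by ring
  rw [e] at bS
  linarith

end MinorP

open MinorP in
theorem pMinor (h1 : S_CSW) (h2 : S_Four) (h3 : S_Gam) (h4 : S_Pair) (h5 : S_Mass) : S_Minor := by
  obtain ⟨D, hD, hc⟩ := core h1 h2 h3 h4 h5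
  intro A U
  refine ⟨(A + 1) * 16, (A + 1) * 26, fun CF => ?_⟩
  obtain ⟨Q0, hQ0⟩ := ev_lg ((ev_pow_le_sqrt 4 ((A + 1) * 22)).and
    ((ev_pow_le_two_pow (32 * 4 ^ 10) ((CF * 4 + (A + 1) * 56) * 5)).and
    ((eventually_ge_atTop 2).and (eventually_ge_atTop ⌈(3 * 2 ^ U) ^ 2 * D⌉₊))))
  refine ⟨max Q0 1, ?_⟩
  intro Q a _ K α β u f hQ hQa haQ hK hK' hα hβ hu hs hf
  obtain ⟨v1, v2, v3, v4⟩ := hQ0 Q ((le_max_left _ _).trans hQ)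
  have Q1 : 1 ≤ Q := (le_max_right _ _).trans hQ
  have v5 := v2.trans (two_pow_lg_le Q1)
  change _ ≤ om Q at v1
  obtain ⟨g, hg⟩ : ∃ g, g = lg Q := ⟨_, rfl⟩
  rw [← hg] at v1 v3 v4 v5 hf ⊢
  have K1 : 1 ≤ K := by
    rcases Nat.eq_zero_or_pos K with rfl | h
    · have : 0 < Q ^ 3 := by positivity
      omega
    · exact h
  have K2 : K ≤ 2 ^ U * K := Nat.le_mul_of_pos_left _ (by positivity)
  have o1 : 2 ^ U * K ≤ 2 ^ U * K * om Q := Nat.le_mul_of_pos_right _ (by unfold om; positivity)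
  have g0 : 0 < g := by omega
  have H2 : (g ^ CF) ^ 4 * (g ^ (A + 1)) ^ 56 * a ≤ K ^ 2 := by
    rw [← pow_mul, ← pow_mul, ← pow_add]
    rw [pow_mul] at v5
    generalize g ^ (CF * 4 + (A + 1) * 56) = Z at v5 ⊢
    refine (Nat.pow_le_pow_iff_left (n := 5) (by norm_num)).1
      (le_of_mul_le_mul_left ?_ (show 0 < 4 ^ 10 by norm_num))
    calc 4 ^ 10 * (Z * a) ^ 5 ≤ 4 ^ 10 * (Z * (2 * Q)) ^ 5 := by gcongr
      _ = 32 * 4 ^ 10 * Z ^ 5 * Q ^ 5 := by ring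
      _ ≤ Q * Q ^ 5 := by gcongr
      _ = (Q ^ 3) ^ 2 := by ring
      _ ≤ ((4 * K) ^ 5) ^ 2 := by gcongr
      _ = _ := by ring
  have main := hc a Q K (2 ^ U * K) (g ^ (A + 1)) (g ^ CF) α β u f K1 (by omega) (by omega)
    (v3.trans (Nat.le_self_pow (by omega) g)) (Nat.one_le_iff_ne_zero.2 (by positivity))
    (by
      rw [← pow_mul]
      calc _ = 2 ^ U * K * (4 * g ^ ((A + 1) * 22)) := by ring
        _ ≤ 2 ^ U * K * om Q := by gcongr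
        _ ≤ a := hK'.trans hQa)
    (H2.trans (by gcongr)) hα hβ hu hs
    (by rw [Nat.cast_pow, Nat.cast_pow, ← pow_mul, ← pow_mul]; exact hf)
  have G1 : (1 : ℝ) ≤ g := by exact_mod_cast g0
  have K0 : (0 : ℝ) < K := by exact_mod_cast K1
  have G2 : (3 * 2 ^ U) ^ 2 * D ≤ (g : ℝ) ^ 2 :=
    (Nat.ceil_le.1 v4).trans (le_self_pow₀ G1 (by norm_num))
  refine le_of_sq_le_sq (main.trans ?_) (by positivity)
  push_cast
  calc _ = (a * Q / (g : ℝ) ^ A) ^ 2 * ((3 * 2 ^ U) ^ 2 * D / (g : ℝ) ^ 2) := by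
        field_simp
        ring
    _ ≤ (a * Q / (g : ℝ) ^ A) ^ 2 * 1 := by
      gcongr
      exact (div_le_one (by positivity)).2 G2
    _ = _ := mul_one _

end Pool.Agent.P.MP_746f10_nt.AP
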