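import Pool.Agent.P.MP_746f10_nt.AP.Defs

/-! Pairs with a given ratio modulo a prime. -/

namespace Pool.Agent.P.MP_746f10_nt.AP

open Finset

namespace PairP

theorem big_gcd (K2 g0 : ℕ) (hg : 1 ≤ g0) :
    ((((Icc 1 K2 ×ˢ Icc 1 K2).filter (fun p => g0 < Nat.gcd p.1 p.2)).card : ℝ) ≤
      (K2 : ℝ) ^ 2 / g0) := by
  have h1 : (Icc 1 K2 ×ˢ Icc 1 K2).filter (fun p => g0 < Nat.gcd p.1 p.2) ⊆
      (Ioc g0 (g0 + K2)).biUnion fun t =>
        (Ioc 0 K2).filter (t ∣ ·) ×ˢ (Ioc 0 K2).filter (t ∣ ·) := by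
    intro p hp
    simp only [mem_filter, mem_product, mem_Icc, mem_biUnion, mem_Ioc] at hp ⊢
    have := Nat.gcd_le_left p.2 (show 0 < p.1 by omega)
    exact ⟨_, ⟨hp.2, by omega⟩, ⟨by omega, Nat.gcd_dvd_left _ _⟩, by omega, Nat.gcd_dvd_right _ _⟩
  have h2 := (card_le_card h1).trans card_biUnion_le
  have h3 := sum_Ioc_inv_sq_le_sub (α := ℝ) (k := g0) (n := g0 + K2) (by omega) (by omega)
  have h4 : (0 : ℝ) ≤ ((g0 + K2 : ℕ) : ℝ)⁻¹ := by positivity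
  calc _ ≤ ((∑ t ∈ Ioc g0 (g0 + K2),
        ((Ioc 0 K2).filter (t ∣ ·) ×ˢ (Ioc 0 K2).filter (t ∣ ·)).card : ℕ) : ℝ) := by
        exact_mod_cast h2
    _ ≤ ∑ t ∈ Ioc g0 (g0 + K2), (K2 : ℝ) ^ 2 * ((t : ℝ) ^ 2)⁻¹ := by
        rw [Nat.cast_sum]
        refine sum_le_sum fun t _ => ?_
        rw [card_product, Nat.Ioc_filter_dvd_card_eq_div, Nat.cast_mul, ← sq, ← div_eq_mul_inv,
          ← div_pow]
        exact pow_le_pow_left₀ (Nat.cast_nonneg _) Nat.cast_div_le 2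
    _ ≤ _ := by
        rw [← mul_sum, div_eq_mul_inv]
        exact mul_le_mul_of_nonneg_left (by linarith) (sq_nonneg _)

theorem same {a b c d : ℕ} (hb : 0 < b) (h : a * d = b * c) (hg : Nat.gcd a b = Nat.gcd c d) :
    a = c ∧ b = d := by
  have h1 : Nat.gcd a b * d = b * Nat.gcd c d := by
    rw [← Nat.gcd_mul_right, ← Nat.gcd_mul_left, h]
  have h2 : d = b := by
    rw [← hg, mul_comm b] at h1
    exact Nat.eq_of_mul_eq_mul_left (Nat.gcd_pos_of_pos_right _ hb) h1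
  subst h2
  exact ⟨Nat.eq_of_mul_eq_mul_right hb (h.trans (mul_comm _ _)), rfl⟩

theorem fibre (hL : S_L2) (a : ℕ) [Fact a.Prime] (K2 g0 : ℕ) (hK : K2 < a) (x : ZMod a) :
    ((((Icc 1 K2 ×ˢ Icc 1 K2).filter (fun p => ¬ g0 < Nat.gcd p.1 p.2)).filter
      (fun p => (p.1 : ZMod a) * (p.2 : ZMod a)⁻¹ = x)).card : ℝ) ≤
        g0 + 16 * (K2 : ℝ) ^ 2 / a := by
  set S := ((Icc 1 K2 ×ˢ Icc 1 K2).filter (fun p => ¬ g0 < Nat.gcd p.1 p.2)).filter
      (fun p => (p.1 : ZMod a) * (p.2 : ZMod a)⁻¹ = x) with hS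
  have hm : ∀ p ∈ S, (1 ≤ p.1 ∧ p.1 ≤ K2) ∧ (1 ≤ p.2 ∧ p.2 ≤ K2) ∧ Nat.gcd p.1 p.2 ≤ g0 ∧
      (p.1 : ZMod a) * (p.2 : ZMod a)⁻¹ = x := fun p hp => by
    simp only [hS, mem_filter, mem_product, mem_Icc, not_lt] at hp
    exact ⟨hp.1.1.1, hp.1.1.2, hp.1.2, hp.2⟩
  let c : ℕ × ℕ → ℤ × ℤ := fun p => (p.1, p.2)
  have hc : Function.Injective c := fun p q h =>
    Prod.ext (Nat.cast_injective (congrArg Prod.fst h)) (Nat.cast_injective (congrArg Prod.snd h))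
  let L : AddSubgroup (ℤ × ℤ) :=
    { carrier := {p | (p.1 : ZMod a) = x * (p.2 : ZMod a)}
      add_mem' := fun {p q} hp hq => by
        simp only [Set.mem_ofPred_eq, Prod.fst_add, Prod.snd_add, Int.cast_add] at hp hq ⊢
        rw [hp, hq, mul_add]
      zero_mem' := by simp
      neg_mem' := fun {p} hp => by
        simp only [Set.mem_ofPred_eq, Prod.fst_neg, Prod.snd_neg, Int.cast_neg] at hp ⊢
        rw [hp, mul_neg] }
  have hl : ∀ p, p ∈ L ↔ (p.1 : ZMod a) = x * (p.2 : ZMod a) := fun p => Iff.rfl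
  rw [← card_image_of_injective S hc]
  refine (hL L a K2 1 (S.image c) (by omega) one_pos (fun p hp q hq => ?_) (fun p _ hp => ?_)
    (fun p hp => ?_)).2 g0 (fun p hp => ?_) fun p0 hp0 => ?_
  · rw [← ZMod.intCast_zmod_eq_zero_iff_dvd]
    push_cast
    rw [(hl p).1 hp, (hl q).1 hq]
    ring
  · have : (1 : ℤ) ≤ max |p.1| |p.2| := by
      by_cases h1 : p.1 = 0
      · exact le_max_of_le_right (Int.one_le_abs fun h2 => hp (Prod.ext h1 h2))
      · exact le_max_of_le_left (Int.one_le_abs h1)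
    exact_mod_cast this
  · obtain ⟨q, hq, rfl⟩ := mem_image.1 hp
    obtain ⟨h1, h2, -⟩ := hm q hq
    simp only [c, Nat.abs_cast, Nat.cast_le]
    exact ⟨h1.2, h2.2⟩
  · obtain ⟨q, hq, rfl⟩ := mem_image.1 hp
    obtain ⟨-, h2, -, h4⟩ := hm q hq
    have h5 : (q.2 : ZMod a) ≠ 0 := fun h =>
      absurd (Nat.le_of_dvd h2.1 ((ZMod.natCast_eq_zero_iff _ _).1 h)) (by omega)
    simp only [hl, c, Int.cast_natCast]
    rw [← h4, inv_mul_cancel_right₀ h5]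
  · rw [filter_image, card_image_of_injective _ hc]
    refine (card_le_card_of_injOn (t := Icc 1 g0) (fun p => Nat.gcd p.1 p.2) (fun p hp => ?_)
      fun p hp q hq e => ?_).trans (by simp)
    · obtain ⟨-, h2, h3, -⟩ := hm p (mem_filter.1 hp).1
      exact mem_coe.2 (mem_Icc.2 ⟨Nat.gcd_pos_of_pos_right _ h2.1, h3⟩)
    · have e1 : p0.1 * p.2 = p0.2 * p.1 := (mem_filter.1 hp).2
      have e2 : p0.1 * q.2 = p0.2 * q.1 := (mem_filter.1 hq).2
      have e3 : (p.1 : ℤ) * q.2 = p.2 * q.1 := by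
        by_cases h1 : p0.1 = 0
        · refine mul_left_cancel₀ (a := p0.2) (fun h2 => hp0 (Prod.ext h1 h2)) ?_
          linear_combination p.2 * e2 - q.2 * e1
        · refine mul_left_cancel₀ h1 ?_
          linear_combination p.1 * e2 - q.1 * e1
      have := same (hm p (mem_filter.1 hp).1).2.1.1 (by exact_mod_cast e3) e
      exact Prod.ext this.1 this.2

end PairP

open PairP

theorem pPair (hL : S_L2) : S_Pair := by
  intro a _ K2 g0 h B hK hg hh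
  have h1 := big_gcd K2 g0 hg
  refine ⟨h1, ?_⟩
  have hB : 0 ≤ B := (hh 0).1.trans (hh 0).2
  rw [← sum_product', ← sum_filter_add_sum_filter_not _ (fun p => g0 < Nat.gcd p.1 p.2), add_comm]
  refine add_le_add ?_ ?_
  · rw [← sum_fiberwise _ (fun p : ℕ × ℕ => (p.1 : ZMod a) * (p.2 : ZMod a)⁻¹), mul_sum]
    refine sum_le_sum fun x _ => ?_
    rw [sum_congr rfl fun p hp => congrArg h (mem_filter.1 hp).2, sum_const, nsmul_eq_mul]
    exact mul_le_mul_of_nonneg_right (fibre hL a K2 g0 hK x) (hh x).1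
  · refine (sum_le_card_nsmul _ _ B fun p _ => (hh _).2).trans ?_
    rw [nsmul_eq_mul]
    exact mul_le_mul_of_nonneg_right h1 hB

end Pool.Agent.P.MP_746f10_nt.AP
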