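import Pool.Agent.P.MP_746f10_nt.AP.Base
import Pool.Agent.P.MP_0ad054_nt.An.LS

/-! Total mass of the matrix coefficients, and their mass on a plane. -/

namespace Pool.Agent.P.MP_746f10_nt.AP

open Finset ComplexConjugate
open Pool.Agent.P.MP_0ad054_nt.An

namespace PlaneP

variable {a : ℕ} [Fact a.Prime]

lemma apos : (0 : ℝ) < a := by exact_mod_cast (Fact.out : a.Prime).pos

lemma norm_psi (x : ZMod a) : ‖(ZMod.stdAddChar x : ℂ)‖ = 1 := AddChar.norm_apply _ _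

lemma nsq (z : ℂ) : ((‖z‖ ^ 2 : ℝ) : ℂ) = z * conj z := by
  rw [Complex.mul_conj, Complex.normSq_eq_norm_sq]

/-- additive Parseval -/
lemma add_parseval (g : ZMod a → ℂ) :
    ∑ l : ZMod a, ‖∑ y, g y * ZMod.stdAddChar (-(l * y))‖ ^ 2 = a * ∑ y, ‖g y‖ ^ 2 := by
  apply Complex.ofReal_injective
  rw [Complex.ofReal_sum, Complex.ofReal_mul, Complex.ofReal_sum, mul_sum]
  simp only [nsq, map_sum, sum_mul_sum]
  rw [sum_comm]
  refine sum_congr rfl fun y _ => ?_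
  rw [sum_comm]
  have : ∀ z, ∑ l : ZMod a, g y * ZMod.stdAddChar (-(l * y)) *
      conj (g z * ZMod.stdAddChar (-(l * z))) = if z = y then a * (g y * conj (g z)) else 0 := by
    intro z
    have h1 := AddChar.sum_mulShift (z - y) (ZMod.isPrimitive_stdAddChar a)
    calc _ = (∑ l : ZMod a, (ZMod.stdAddChar (l * (z - y)) : ℂ)) * (g y * conj (g z)) := by
          rw [sum_mul]
          refine sum_congr rfl fun l _ => ?_
          rw [map_mul (starRingEnd ℂ), ← AddChar.map_neg_eq_conj, neg_neg,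
            show l * (z - y) = -(l * y) + l * z by ring, AddChar.map_add_eq_mul]
          ring
      _ = _ := by
          rw [h1]
          simp only [sub_eq_zero]
          split_ifs <;> simp
  rw [sum_congr rfl fun z _ => this z]
  simp

lemma sum_mul_right {M : Type} [AddCommMonoid M] (g : ZMod a → M) {y : ZMod a} (hy : y ≠ 0) :
    ∑ x, g (x * y) = ∑ x, g x :=
  Equiv.sum_comp (Equiv.mulRight₀ y hy) g

lemma gam_eq (f : ZMod a → ℂ) (x l : ZMod a) : Gam f x l =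
    1 / (a : ℝ) ^ 2 * ‖∑ y, f (x * y) * conj (f y) * ZMod.stdAddChar (-(l * y))‖ ^ 2 := by
  rw [Gam, norm_mul, mul_pow, norm_div, norm_one, Complex.norm_natCast, div_pow, one_pow]

omit [Fact a.Prime] in
lemma nr_bd (Y : ℕ) (x : ZMod a) : 0 ≤ nr Y x ∧ nr Y x ≤ 1 := by
  unfold nr
  split_ifs <;> norm_num

lemma sum_nr (Y : ℕ) : ∑ x : ZMod a, nr Y x ^ 2 ≤ 2 * Y + 1 := by
  have h1 : ∑ x : ZMod a, nr Y x ^ 2 =
      ((univ.filter fun x : ZMod a => x.val ≤ Y ∨ a ≤ x.val + Y).card : ℝ) := by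
    rw [card_filter]
    push_cast
    refine sum_congr rfl fun x _ => ?_
    unfold nr
    split_ifs <;> norm_num
  have h2 : (univ.filter fun x : ZMod a => x.val ≤ Y ∨ a ≤ x.val + Y).card ≤
      (range (Y + 1) ∪ Ico (a - Y) a).card :=
    card_le_card_of_injOn ZMod.val (fun x hx => by
      have := ZMod.val_lt x
      simp only [coe_filter, mem_univ, true_and, Set.mem_ofPred_eq] at hx
      simp only [coe_union, coe_range, coe_Ico, Set.mem_union, Set.mem_Iio, Set.mem_Ico]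
      omega) (ZMod.val_injective a).injOn
  have h3 := card_union_le (range (Y + 1)) (Ico (a - Y) a)
  rw [card_range, Nat.card_Ico] at h3
  rw [h1]
  exact_mod_cast (by omega : _ ≤ 2 * Y + 1)

/-- a mean over the field of terms bounded by `B` -/
lemma mean_le (g : ZMod a → ℝ) {B : ℝ} (h : ∀ y, g y ≤ B) : 1 / (a : ℝ) * ∑ y, g y ≤ B := by
  have h1 := sum_le_card_nsmul univ g B fun y _ => h y
  rw [card_univ, ZMod.card, nsmul_eq_mul] at h1
  rw [one_div, inv_mul_le_iff₀ apos]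
  exact h1

/-- the double sum over `x * y` and `y` factors -/
lemma sum_sum {R : Type} [CommSemiring R] (g h : ZMod a → R) (h0 : h 0 = 0) :
    ∑ x, ∑ y, g (x * y) * h y = (∑ z, g z) * ∑ y, h y := by
  rw [sum_comm, mul_sum]
  refine sum_congr rfl fun y _ => ?_
  rw [← sum_mul]
  rcases eq_or_ne y 0 with rfl | hy
  · rw [h0, mul_zero, mul_zero]
  · rw [sum_mul_right g hy]

lemma mem_Xi {ρ : ℕ} {d1 d3 : ℤ} (h1 : |d1| ≤ ρ) (h3 : d3 ≠ 0) (h3' : |d3| ≤ ρ) :
    -((d1 : ZMod a) * (d3 : ZMod a)⁻¹) ∈ Xi a ρ := by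
  rw [abs_le] at h1 h3'
  rcases le_total 0 d3 with h | h
  · refine mem_image.2 ⟨(-d1, d3.natAbs), by simp only [mem_product, mem_Icc]; omega, ?_⟩
    rw [← Int.cast_natCast d3.natAbs, Int.natAbs_of_nonneg h, Int.cast_neg, neg_mul]
  · refine mem_image.2 ⟨(d1, d3.natAbs), by simp only [mem_product, mem_Icc]; omega, ?_⟩
    rw [← Int.cast_natCast d3.natAbs, Int.ofNat_natAbs_of_nonpos h, Int.cast_neg, inv_neg, mul_neg]

lemma filter_le (g : ZMod a → ℝ) (hg : ∀ x, 0 ≤ g x) (p : ZMod a → Prop) [DecidablePred p] :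
    ∑ x ∈ univ.filter p, g x ≤ ∑ x, g x :=
  sum_le_sum_of_subset_of_nonneg (filter_subset _ _) fun x _ _ => hg x

/-- the multiplicative correlation of two functions -/
lemma corr (f1 f2 : ZMod a → ℂ) (h1 : f1 0 = 0) (h2 : f2 0 = 0) {B : ℝ}
    (hB : ∀ χ : DirichletCharacter ℂ a, ‖∑ z, χ⁻¹ z * f1 z‖ ≤ B) :
    ∑ x, ‖∑ y, f1 (x * y) * conj (f2 y)‖ ^ 2 ≤ B ^ 2 * ∑ y, ‖f2 y‖ ^ 2 := by
  classical
  have hφ : (0 : ℝ) < a.totient := by
    exact_mod_cast Nat.totient_pos.2 (Fact.out : a.Prime).pos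
  have e1 : ∀ χ : DirichletCharacter ℂ a, ∑ x, χ⁻¹ x * ∑ y, f1 (x * y) * conj (f2 y) =
      (∑ z, χ⁻¹ z * f1 z) * conj (∑ y, χ⁻¹ y * f2 y) := by
    intro χ
    rw [map_sum, ← sum_sum (fun z => χ⁻¹ z * f1 z) (fun y => conj (χ⁻¹ y * f2 y)) (by simp [h2])]
    refine sum_congr rfl fun x _ => ?_
    rw [mul_sum]
    refine sum_congr rfl fun y _ => ?_
    rcases eq_or_ne y 0 with rfl | hy
    · simp [h2]
    have e2 := MulChar.star_apply' χ⁻¹ y
    rw [inv_inv, RCLike.star_def] at e2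
    have e3 : χ⁻¹ y * χ y = 1 := by
      rw [← MulChar.mul_apply, inv_mul_cancel, MulChar.one_apply hy.isUnit]
    rw [map_mul χ⁻¹, map_mul (starRingEnd ℂ), e2]
    linear_combination (-(χ⁻¹ x * f1 (x * y) * conj (f2 y))) * e3
  have e4 := LSP.parseval fun x : ZMod a => ∑ y, f1 (x * y) * conj (f2 y)
  have e5 := LSP.parseval f2
  have e6 : ∑ x ∈ univ.filter IsUnit, ‖∑ y, f1 (x * y) * conj (f2 y)‖ ^ 2 =
      ∑ x : ZMod a, ‖∑ y, f1 (x * y) * conj (f2 y)‖ ^ 2 :=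
    sum_filter_of_ne fun x _ hx => isUnit_iff_ne_zero.2 fun e => hx (by simp [e, h1])
  refine le_of_mul_le_mul_left ?_ hφ
  calc _ = ∑ χ : DirichletCharacter ℂ a, ‖∑ x, χ⁻¹ x * ∑ y, f1 (x * y) * conj (f2 y)‖ ^ 2 := by
        rw [e4, ← e6]
    _ ≤ ∑ χ : DirichletCharacter ℂ a, B ^ 2 * ‖∑ y, χ⁻¹ y * f2 y‖ ^ 2 :=
        sum_le_sum fun χ _ => by
          rw [e1, norm_mul, mul_pow, Complex.norm_conj]
          exact mul_le_mul_of_nonneg_right (pow_le_pow_left₀ (norm_nonneg _) (hB χ) 2)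
            (sq_nonneg _)
    _ ≤ _ := by
        rw [← mul_sum, e5, mul_left_comm]
        exact mul_le_mul_of_nonneg_left (mul_le_mul_of_nonneg_left
          (filter_le _ (fun _ => sq_nonneg _) _) (sq_nonneg _)) hφ.le

end PlaneP

open PlaneP

theorem pMass : S_Mass := by
  intro a _ f Ξ τ F hf
  have ha := apos (a := a)
  have hF : 0 ≤ F := (norm_nonneg _).trans (hf.sup 0)
  have h2 : 0 ≤ ∑ y, ‖f y‖ ^ 2 := sum_nonneg fun _ _ => sq_nonneg _
  refine ⟨fun x => ?_, fun x => mean_le _ fun y => ?_, ?_, fun Y => ⟨fun x => mean_le _ fun y => ?_,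
    ?_⟩⟩
  · simp only [gam_eq]
    rw [← mul_sum, add_parseval fun y => f (x * y) * conj (f y), Pf]
    simp only [norm_mul, mul_pow, Complex.norm_conj]
    field_simp
  · calc _ ≤ F ^ 2 * F ^ 2 := by gcongr <;> exact hf.sup _
      _ = _ := by ring
  · simp only [Pf]
    rw [← mul_sum, sum_sum (fun z => ‖f z‖ ^ 2) (fun y => ‖f y‖ ^ 2) (by simp [hf.zero]),
      one_div, inv_mul_le_iff₀ ha]
    exact mul_le_mul hf.l2 hf.l2 h2 ha.le
  · calc _ ≤ F * F * 1 := by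
          have := nr_bd Y (x * y)
          gcongr
          exacts [this.1, hf.sup _, hf.sup _, this.2]
      _ = _ := by ring
  · simp only [Hf]
    have e : ∀ x : ZMod a, ∑ y, ‖f (x * y)‖ * ‖f y‖ * nr Y (x * y) =
        ∑ y, ‖f (x * y)‖ * nr Y (x * y) * ‖f y‖ := fun x => sum_congr rfl fun y _ => by ring
    simp only [e]
    rw [← mul_sum, sum_sum (fun z => ‖f z‖ * nr Y z) (fun y => ‖f y‖) (by simp [hf.zero]),
      one_div, inv_mul_le_iff₀ ha, mul_comm (a : ℝ)]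
    have c1 := sum_mul_sq_le_sq_mul_sq univ (fun z => ‖f z‖) (nr Y)
    have c2 := sum_mul_sq_le_sq_mul_sq univ (fun z => ‖f z‖) fun _ => 1
    simp only [mul_one, one_pow, sum_const, card_univ, ZMod.card, nsmul_eq_mul] at c2
    refine mul_le_mul (Real.le_sqrt_of_sq_le (c1.trans ?_)) (abs_le_of_sq_le_sq' (c2.trans ?_)
      ha.le).2 (sum_nonneg fun _ _ => norm_nonneg _) (Real.sqrt_nonneg _)
    · rw [mul_comm]
      exact mul_le_mul (sum_nr Y) hf.l2 h2 (by positivity)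
    · rw [sq]
      exact mul_le_mul_of_nonneg_right hf.l2 ha.le

theorem pPlane : S_Plane := by
  intro a _ f ρ τ F d1 d2 d3 hf h1 h3 h3'
  have ha := apos (a := a)
  have h := corr (fun z => f z * ZMod.stdAddChar ((d1 : ZMod a) * (d3 : ZMod a)⁻¹ * z))
    (fun y => f y * ZMod.stdAddChar (-((d2 : ZMod a) * (d3 : ZMod a)⁻¹ * y))) (by simp [hf.zero])
    (by simp [hf.zero]) (B := 2 * τ * a) fun χ => by
      refine le_of_eq_of_le (congrArg _ (sum_congr rfl fun z _ => ?_)) (hf.cf χ _ (mem_Xi h1 h3 h3'))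
      have e2 := MulChar.star_apply' χ z
      rw [RCLike.star_def] at e2
      rw [ch, map_mul (starRingEnd ℂ), e2, ← AddChar.map_neg_eq_conj, neg_mul, neg_neg]
      ring
  simp only [norm_mul, norm_psi, mul_one] at h
  simp only [gam_eq]
  have e : ∀ x y : ZMod a, f (x * y) * conj (f y) *
      ZMod.stdAddChar (-(-((d1 : ZMod a) * x + (d2 : ZMod a)) * (d3 : ZMod a)⁻¹ * y)) =
      f (x * y) * ZMod.stdAddChar ((d1 : ZMod a) * (d3 : ZMod a)⁻¹ * (x * y)) *
        conj (f y * ZMod.stdAddChar (-((d2 : ZMod a) * (d3 : ZMod a)⁻¹ * y))) := fun x y => by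
    rw [map_mul (starRingEnd ℂ), ← AddChar.map_neg_eq_conj, neg_neg,
      show -(-((d1 : ZMod a) * x + (d2 : ZMod a)) * (d3 : ZMod a)⁻¹ * y) =
        (d1 : ZMod a) * (d3 : ZMod a)⁻¹ * (x * y) + (d2 : ZMod a) * (d3 : ZMod a)⁻¹ * y by ring, AddChar.map_add_eq_mul]
    ring
  simp only [e]
  rw [← mul_sum, one_div, inv_mul_le_iff₀ (by positivity)]
  calc _ ≤ (2 * τ * a) ^ 2 * a := h.trans (mul_le_mul_of_nonneg_left hf.l2 (sq_nonneg _))
    _ = _ := by ring

end Pool.Agent.P.MP_746f10_nt.AP
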