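import Pool.Agent.P.MP_746f10_nt.AP.Base

/-! An admissible system of forms has many values without small prime factors. -/

namespace Pool.Agent.P.MP_746f10_nt.AP

open Finset Filter

namespace PosP

lemma sum_per {q : ℕ} (hq : 0 < q) {F : ℕ → ℝ} (hF : ∀ n, F (n % q) = F n)
    (h0 : ∀ n, |F n| ≤ 1) {A B : ℕ} (h : A ≤ B) :
    |∑ n ∈ Ico A B, F n - (B - A) / q * ∑ r ∈ range q, F r| ≤ q := by
  have e : ∑ n ∈ Ico A B, F n =
      ∑ r ∈ range q, F r * ∑ n ∈ Ico A B, if n ≡ r [MOD q] then (1 : ℝ) else 0 := by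
    simp only [mul_sum]
    rw [sum_comm]
    refine sum_congr rfl fun n _ => ?_
    rw [sum_eq_single (n % q) (fun r hr hne => by
      rw [if_neg fun h1 => hne (by rw [h1, Nat.mod_eq_of_lt (mem_range.1 hr)]), mul_zero])
      (fun h1 => absurd (mem_range.2 (Nat.mod_lt _ hq)) h1), if_pos (Nat.mod_modEq n q).symm,
      mul_one, hF]
  rw [e, mul_sum, ← sum_sub_distrib]
  refine (abs_sum_le_sum_abs _ _).trans ((sum_le_card_nsmul _ _ 1 fun r _ => ?_).trans (by simp))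
  rw [mul_comm _ (F r), ← mul_sub, abs_mul]
  exact mul_le_one₀ (h0 r) (abs_nonneg _) (count_class hq r h)

lemma sum_crt {q p : ℕ} (hc : q.Coprime p) (hq : 0 < q) (hp : 0 < p) {F G : ℕ → ℝ}
    (hF : ∀ n, F (n % q) = F n) (hG : ∀ n, G (n % p) = G n) :
    ∑ r ∈ range (q * p), F r * G r = (∑ r ∈ range q, F r) * ∑ r ∈ range p, G r := by
  rw [sum_mul_sum, ← sum_product']
  refine sum_nbij' (fun r => (r % q, r % p)) (fun x => Nat.chineseRemainder hc x.1 x.2)
    (fun r _ => ?_) (fun x _ => ?_) (fun r hr => ?_) (fun x hx => ?_) fun r _ => ?_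
  · simp [Nat.mod_lt _ hq, Nat.mod_lt _ hp]
  · simpa using Nat.chineseRemainder_lt_mul hc x.1 x.2 hq.ne' hp.ne'
  · have h1 := Nat.chineseRemainder_modEq_unique hc (Nat.mod_modEq r q).symm
      (Nat.mod_modEq r p).symm
    exact (h1.eq_of_lt_of_lt (mem_range.1 hr)
      (Nat.chineseRemainder_lt_mul hc _ _ hq.ne' hp.ne')).symm
  · have h1 := mem_product.1 hx
    have h2 := (Nat.chineseRemainder hc x.1 x.2).2
    exact Prod.ext (Eq.trans h2.1 (Nat.mod_eq_of_lt (mem_range.1 h1.1)))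
      (Eq.trans h2.2 (Nat.mod_eq_of_lt (mem_range.1 h1.2)))
  · rw [hF, hG]

lemma mod_of_dvd {q m : ℕ} (h : q ∣ m) {F : ℕ → ℝ} (hF : ∀ n, F (n % q) = F n) (n : ℕ) :
    F (n % m) = F n := by
  rw [← hF, Nat.mod_mod_of_dvd _ h, hF]

lemma sum_crt_prod {q : ℕ} (hq : 0 < q) {F : ℕ → ℝ} (hF : ∀ n, F (n % q) = F n)
    {x : ℕ → ℕ → ℝ} (hx : ∀ n p, x (n % p) p = x n p) (T : Finset ℕ)
    (hT : ∀ p ∈ T, p.Prime ∧ ¬p ∣ q) :
    ∑ r ∈ range (q * ∏ p ∈ T, p), F r * ∏ p ∈ T, x r p =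
      (∑ r ∈ range q, F r) * ∏ p ∈ T, ∑ r ∈ range p, x r p := by
  induction T using Finset.induction_on with
  | empty => simp
  | insert p T hp ih =>
    have h1 := hT p (mem_insert_self p T)
    have h2 : ∀ p' ∈ T, p'.Prime ∧ ¬p' ∣ q := fun p' h => hT p' (mem_insert_of_mem h)
    have hc : (q * ∏ p ∈ T, p).Coprime p := by
      refine Nat.Coprime.mul_left ((Nat.Prime.coprime_iff_not_dvd h1.1).2 h1.2).symm
        (Nat.Coprime.prod_left fun p' h => (Nat.coprime_primes (h2 p' h).1 h1.1).2 ?_)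
      rintro rfl
      exact hp h
    simp only [prod_insert hp]
    rw [mul_comm p, ← mul_assoc, mul_comm (∑ r ∈ range p, x r p), ← mul_assoc, ← ih h2,
      ← sum_crt hc (Nat.mul_pos hq (prod_pos fun p' h => (h2 p' h).1.pos)) h1.1.pos
        (G := fun r => x r p) (fun n => ?_) fun n => hx n p]
    · exact sum_congr rfl fun r _ => by ring
    · rw [mod_of_dvd (dvd_mul_right _ _) hF]
      congr 1
      exact prod_congr rfl fun p' h => mod_of_dvd ((dvd_prod_of_mem _ h).mul_left _)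
        (F := fun n => x n p') (fun n => hx n p') n

lemma exists_shift {k : ℕ} (a b : Fin k → ℕ) {Δ : ℕ} (hΔ : 0 < Δ) (h : Adm a b) :
    ∃ n0, ∀ p, p.Prime → p ∣ Δ → ∀ n, n ≡ n0 [MOD Δ] → ∀ l, ¬p ∣ a l * n + b l := by
  choose! m hm using h
  obtain ⟨t, ht⟩ := Nat.chineseRemainderOfFinset m id Δ.primeFactors
    (fun p hp => (Nat.prime_of_mem_primeFactors hp).ne_zero) fun p hp q hq hne =>
      (Nat.coprime_primes (Nat.prime_of_mem_primeFactors hp)
        (Nat.prime_of_mem_primeFactors hq)).2 hne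
  refine ⟨t, fun p hp h2 n hn l h1 => hm p hp l ?_⟩
  have h3 : n ≡ m p [MOD p] := (hn.of_dvd h2).trans (ht p (Nat.mem_primeFactors.2 ⟨hp, h2, hΔ.ne'⟩))
  exact Nat.modEq_zero_iff_dvd.1 (((h3.mul_left (a l)).add_right (b l)).symm.trans
    (Nat.modEq_zero_iff_dvd.2 h1))

open Classical in
/-- some form is divisible by `p` -/
noncomputable def xx {k : ℕ} (a b : Fin k → ℕ) (n p : ℕ) : ℝ :=
  if ∃ i, p ∣ a i * n + b i then 1 else 0

variable {k : ℕ} {a b : Fin k → ℕ}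

lemma xx_bd (n p : ℕ) : 0 ≤ xx a b n p ∧ xx a b n p ≤ 1 := by
  unfold xx
  split_ifs <;> norm_num

lemma xx_mod (n p : ℕ) : xx a b (n % p) p = xx a b n p := by
  unfold xx
  refine if_congr (exists_congr fun i => ?_) rfl rfl
  exact (((Nat.mod_modEq n p).mul_left (a i)).add_right (b i)).dvd_iff dvd_rfl

lemma rho_le {p : ℕ} (hp : p.Prime) (ha : ∀ i, ¬p ∣ a i) : ∑ r ∈ range p, xx a b r p ≤ k := by
  calc ∑ r ∈ range p, xx a b r p ≤ ∑ r ∈ range p, ∑ i, dd (a i * r + b i) p := by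
        refine sum_le_sum fun r _ => ?_
        unfold xx
        split_ifs with h
        · obtain ⟨i, hi⟩ := h
          refine le_trans ?_ (single_le_sum (f := fun i => dd (a i * r + b i) p)
            (fun i _ => (dd_bd _ _).1) (mem_univ i))
          simp [dd, hi]
        · exact sum_nonneg fun i _ => (dd_bd _ _).1
    _ ≤ ∑ _i : Fin k, (1 : ℝ) := by
        rw [sum_comm]
        refine sum_le_sum fun i _ => ?_
        unfold dd
        rw [sum_boole, Nat.cast_le_one, card_le_one]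
        intro r hr s hs
        obtain ⟨r1, r2⟩ := mem_filter.1 hr
        obtain ⟨s1, s2⟩ := mem_filter.1 hs
        have h1 : a i * r ≡ a i * s [MOD p] := Nat.ModEq.add_right_cancel' (b i)
          ((Nat.modEq_zero_iff_dvd.2 r2).trans (Nat.modEq_zero_iff_dvd.2 s2).symm)
        exact (h1.cancel_left_of_coprime ((Nat.Prime.coprime_iff_not_dvd hp).2 (ha i))).eq_of_lt_of_lt
          (mem_range.1 r1) (mem_range.1 s1)
    _ = k := by simp

lemma one_sub_ge {p : ℝ} (k : ℕ) (hp : 2 ≤ p) (h : 4 * k ≤ p) :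
    (1 - 1 / p) ^ k * Real.exp (-(2 * k ^ 2 * (1 / p ^ 2))) ≤ 1 - k / p := by
  have hp0 : 0 < p := by linarith
  obtain ⟨t, ht⟩ : ∃ t : ℝ, t = k / p := ⟨_, rfl⟩
  have t0 : 0 ≤ t := ht ▸ by positivity
  have t1 : t ≤ 1 / 4 := by rw [ht, div_le_iff₀ hp0]; linarith
  have h1 : (1 - 1 / p) ^ k ≤ Real.exp (-t) := by
    have := pow_le_pow_left₀ (one_sub_inv_pos hp).le (Real.one_sub_le_exp_neg (1 / p)) k
    rwa [← Real.exp_nat_mul, show (k : ℝ) * -(1 / p) = -t by rw [ht]; ring] at this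
  rw [show 2 * (k : ℝ) ^ 2 * (1 / p ^ 2) = 2 * t ^ 2 by rw [ht]; ring, ← ht]
  refine (mul_le_mul_of_nonneg_right h1 (Real.exp_pos _).le).trans ?_
  rw [← Real.exp_add, ← neg_add, Real.exp_neg, inv_le_iff_one_le_mul₀ (Real.exp_pos _)]
  have h2 := Real.add_one_le_exp (t + 2 * t ^ 2)
  nlinarith [mul_le_mul_of_nonneg_left h2 (show 0 ≤ 1 - t by linarith), mul_nonneg t0 t0,
    mul_nonneg (mul_nonneg t0 t0) (show 0 ≤ 1 - 2 * t by linarith)]

lemma prod_ge (k w : ℕ) {g : ℕ → ℝ} (hg : ∀ p ∈ PP (4 * k) w, g p ≤ k / p) :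
    VV w ^ k * Real.exp (-(2 * k ^ 2)) ≤ ∏ p ∈ PP (4 * k) w, (1 - g p) := by
  have h1 : VV w ≤ ∏ p ∈ PP (4 * k) w, (1 - 1 / (p : ℝ)) := by
    refine prod_le_prod_of_subset_of_le_one (fun p hp => ?_)
      (fun p hp => (one_sub_inv_pos (PP_two hp)).le) fun p _ _ => ?_
    · have := mem_PP.1 hp
      exact mem_PP.2 ⟨by omega, this.2⟩
    · have : (0 : ℝ) ≤ 1 / p := by positivity
      linarith
  have h2 : ∑ p ∈ PP (4 * k) w, 1 / (p : ℝ) ^ 2 ≤ 1 := by
    refine le_trans (sum_le_sum_of_subset_of_nonneg (fun p hp => ?_) fun _ _ _ => by positivity)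
      ((sum_PP_inv_sq_le 1 w le_rfl).trans (by simp))
    have := mem_PP.1 hp
    exact mem_PP.2 ⟨this.2.2.one_lt, this.2⟩
  calc VV w ^ k * Real.exp (-(2 * k ^ 2))
      ≤ (∏ p ∈ PP (4 * k) w, (1 - 1 / (p : ℝ))) ^ k *
        Real.exp (∑ p ∈ PP (4 * k) w, -(2 * k ^ 2 * (1 / (p : ℝ) ^ 2))) := by
        refine mul_le_mul (pow_le_pow_left₀ (VV_pos w).le h1 k) (Real.exp_le_exp.2 ?_)
          (Real.exp_pos _).le (pow_nonneg ((VV_pos w).le.trans h1) k)
        rw [sum_neg_distrib, ← mul_sum, neg_le_neg_iff]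
        exact mul_le_of_le_one_right (by positivity) h2
    _ ≤ _ := by
        rw [Real.exp_sum, ← prod_pow, ← prod_mul_distrib]
        refine prod_le_prod (fun p hp => mul_nonneg (pow_nonneg
          (one_sub_inv_pos (PP_two hp)).le k) (Real.exp_pos _).le) fun p hp => ?_
        have h3 : (4 * k : ℝ) ≤ p := by exact_mod_cast (mem_PP.1 hp).1.le
        linarith [one_sub_ge k (PP_two hp) h3, hg p hp]

end PosP

open PosP in
theorem pPos : S_Pos := by
  classical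
  intro k
  obtain ⟨k0, hk0⟩ := exists_sieve (k : ℝ) (Nat.cast_nonneg k)
  obtain ⟨W, hW⟩ : ∃ W, W = (4 * k).factorial := ⟨_, rfl⟩
  have W0 : 0 < W := hW ▸ Nat.factorial_pos _
  have W1 : (0 : ℝ) < W := by exact_mod_cast W0
  obtain ⟨E, hE⟩ : ∃ E, E = Real.exp (-(2 * (k : ℝ) ^ 2)) := ⟨_, rfl⟩
  have E0 : 0 < E := hE ▸ Real.exp_pos _
  obtain ⟨e, he⟩ : ∃ e, e = 4 * (k0 + 1) + 6 := ⟨_, rfl⟩
  refine ⟨E / (4 * W), by positivity, fun Cw => ?_⟩
  obtain ⟨c, hc⟩ := exists_nat_ge (4 * W ^ 2 * CM ^ k / E)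
  obtain ⟨Q0, hQ0⟩ := ev_lg ((ev_pow_le_two_pow c (Cw * (k + 2 * e))).and
    (ev_pow_le_two_pow 2 Cw))
  refine ⟨max Q0 1, fun Q w a b hQ hw hw' ha hadm => ?_⟩
  obtain ⟨g1, g2⟩ := hQ0 Q ((le_max_left _ _).trans hQ)
  have g3 := two_pow_lg_le ((le_max_right _ _).trans hQ)
  have hwQ : w < Q := by omega
  obtain ⟨s⟩ := hk0 1 w (PP (4 * k) w) hw fun p hp => ⟨PP_prime hp, (mem_PP.1 hp).2.1⟩
  rw [← he] at s
  obtain ⟨n0, hn0⟩ := exists_shift a b W0 hadm
  obtain ⟨μ, hμ⟩ : ∃ μ : ℕ → ℝ, μ = fun n => if n ≡ n0 [MOD W] then 1 else 0 := ⟨_, rfl⟩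
  have μ0 : ∀ n, 0 ≤ μ n ∧ μ n ≤ 1 := fun n => by
    simp only [hμ]
    split_ifs <;> norm_num
  have μ1 : ∀ n, μ (n % W) = μ n := fun n => by simp [hμ, Nat.ModEq]
  have μ2 : ∑ r ∈ range W, μ r = 1 := by
    rw [sum_eq_single (n0 % W) (fun r hr hne => by
      simp only [hμ]
      exact if_neg fun h1 => hne (by rw [← h1, Nat.mod_eq_of_lt (mem_range.1 hr)]))
      fun h1 => absurd (mem_range.2 (Nat.mod_lt _ W0)) h1]
    simp only [hμ]
    exact if_pos (Nat.mod_modEq _ _)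
  have hg : ∀ p ∈ PP (4 * k) w, (∑ r ∈ range p, xx a b r p) / p ≤ k / p := fun p hp => by
    refine div_le_div_of_nonneg_right (rho_le (PP_prime hp) fun i h => ?_) (Nat.cast_nonneg p)
    have h1 := (Nat.prime_dvd_prime_iff_eq (PP_prime hp) (ha i).1).1 h
    have h2 := (mem_PP.1 hp).2.1
    have h3 := (ha i).2
    omega
  have key := s.lower (fun p hp => PP_prime hp) (Ico Q (2 * Q)) μ (xx a b)
    (fun p => (∑ r ∈ range p, xx a b r p) / p) (Q / W) (W * (w ^ e : ℕ)) (by positivity)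
    (by positivity) (fun n _ => (μ0 n).1) (fun n _ p _ => xx_bd n p)
    (fun p hp => ⟨div_nonneg (sum_nonneg fun r _ => (xx_bd r p).1) (Nat.cast_nonneg p), hg p hp,
      (hg p hp).trans (by
        have h3 : (4 * k : ℝ) ≤ p := by exact_mod_cast (mem_PP.1 hp).1.le
        have h4 := PP_two hp
        rw [div_le_iff₀ (by linarith)]
        linarith)⟩) (fun T hT hD => by
      have h1 : ∀ p ∈ T, p.Prime ∧ ¬p ∣ W := fun p hp => ⟨PP_prime (hT hp), fun h => by
        have h2 := (PP_prime (hT hp)).dvd_factorial.1 (hW ▸ h)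
        have h3 := (mem_PP.1 (hT hp)).1
        omega⟩
      have h2 := sum_per (q := W * ∏ p ∈ T, p)
        (Nat.mul_pos W0 (prod_pos fun p hp => (h1 p hp).1.pos))
        (F := fun n => μ n * ∏ p ∈ T, xx a b n p) (fun n => by
          rw [mod_of_dvd (dvd_mul_right _ _) μ1]
          congr 1
          exact prod_congr rfl fun p h => mod_of_dvd ((dvd_prod_of_mem _ h).mul_left _)
            (F := fun n => xx a b n p) (fun n => xx_mod n p) n)
        (fun n => by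
          have h3 : 0 ≤ ∏ p ∈ T, xx a b n p := prod_nonneg fun p _ => (xx_bd n p).1
          rw [abs_of_nonneg (mul_nonneg (μ0 n).1 h3)]
          exact mul_le_one₀ (μ0 n).2 h3 (prod_le_one (fun p _ => (xx_bd n p).1)
            fun p _ => (xx_bd n p).2)) (show Q ≤ 2 * Q by omega)
      rw [sum_crt_prod W0 μ1 xx_mod T h1, μ2] at h2
      refine le_trans (le_of_eq ?_) (h2.trans ?_)
      · rw [prod_div_distrib]
        push_cast
        congr 2
        ring
      · exact_mod_cast Nat.mul_le_mul_left W hD)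
  have h1 := prod_ge k w hg
  rw [← hE] at h1
  have h2 : ∑ n ∈ Ico Q (2 * Q), μ n * ∏ p ∈ PP (4 * k) w, (1 - xx a b n p) ≤
      ∑ n ∈ Ico Q (2 * Q), ∏ i, rr w (a i * n + b i) := by
    refine sum_le_sum fun n _ => ?_
    by_cases h : μ n * ∏ p ∈ PP (4 * k) w, (1 - xx a b n p) = 0
    · rw [h]
      exact prod_nonneg fun i _ => (rr_bd _ _).1
    have h3 : n ≡ n0 [MOD W] := by
      by_contra h3
      exact left_ne_zero_of_mul h (by simp only [hμ]; exact if_neg h3)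
    rw [prod_eq_one fun i _ => rr_of_rough fun p hp hd => ?_]
    · exact mul_le_one₀ (μ0 n).2 (prod_nonneg fun p _ => by linarith [(xx_bd (a := a) (b := b) n p).2])
        (prod_le_one (fun p _ => by linarith [(xx_bd (a := a) (b := b) n p).2])
          fun p _ => by linarith [(xx_bd (a := a) (b := b) n p).1])
    by_contra h4
    by_cases h5 : p ≤ 4 * k
    · exact hn0 p hp (hW ▸ hp.dvd_factorial.2 h5) n h3 i hd
    · refine right_ne_zero_of_mul h (prod_eq_zero (mem_PP.2 ⟨by omega, by omega, hp⟩) ?_)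
      rw [xx, if_pos ⟨i, hd⟩, sub_self]
  have V0 := VV_pos w
  have w0 : (2 : ℝ) ≤ w := by exact_mod_cast hw
  have h3 : 1 ≤ CM * w * VV w := by
    have h4 := (inv_VV_le w hw).trans (mul_le_mul_of_nonneg_left
      (Real.log_le_self (Nat.cast_nonneg w)) (zero_le_one.trans one_le_CM))
    rwa [inv_le_iff_one_le_mul₀ V0] at h4
  have h4 : (c : ℝ) * (w ^ k * (w ^ e) ^ 2) ≤ Q := by
    have : c * (w ^ k * (w ^ e) ^ 2) ≤ Q := by
      refine le_trans (Nat.mul_le_mul_left c ?_) (g1.trans g3)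
      rw [← pow_mul, ← pow_add, pow_mul, mul_comm e 2]
      exact Nat.pow_le_pow_left hw' _
    exact_mod_cast this
  have h5 : (w ^ e : ℝ) * (W * w ^ e) ≤ E / (4 * W) * Q * VV w ^ k := by
    have h6 : 1 ≤ CM ^ k * w ^ k * VV w ^ k := by
      rw [← mul_pow, ← mul_pow]
      exact one_le_pow₀ h3
    rw [div_le_iff₀ E0] at hc
    rw [div_mul_eq_mul_div, div_mul_eq_mul_div, le_div_iff₀ (by positivity)]
    calc (w ^ e : ℝ) * (W * w ^ e) * (4 * W) = 4 * W ^ 2 * (w ^ e) ^ 2 * 1 := by ring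
      _ ≤ 4 * W ^ 2 * (w ^ e) ^ 2 * (CM ^ k * w ^ k * VV w ^ k) := by gcongr
      _ = 4 * W ^ 2 * CM ^ k * (w ^ k * (w ^ e) ^ 2 * VV w ^ k) := by ring
      _ ≤ c * E * (w ^ k * (w ^ e) ^ 2 * VV w ^ k) := by gcongr
      _ = E * (c * (w ^ k * (w ^ e) ^ 2)) * VV w ^ k := by ring
      _ ≤ E * Q * VV w ^ k := by gcongr
  have h6 : Q / W * (VV w ^ k * E) ≤ Q / W * ∏ p ∈ PP (4 * k) w,
      (1 - (∑ r ∈ range p, xx a b r p) / p) := mul_le_mul_of_nonneg_left h1 (by positivity)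
  have h7 : E / (4 * W) * Q * VV w ^ k = Q / W * (VV w ^ k * E) / 4 := by
    field_simp
  push_cast at key
  linarith

end Pool.Agent.P.MP_746f10_nt.AP
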