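import Pool.Agent.P.MP_746f10_nt.AP.Base

/-! Reduction of the main theorem to the comparison of primes with the model. -/

namespace Pool.Agent.P.MP_746f10_nt.AP

open Finset Filter

namespace RedP

theorem split {m : ℕ} (J : Fin (m + 1)) (s : Fin (m + 1) → Finset ℕ)
    (φ : (Fin (m + 1) → ℕ) → ℝ) : ∑ b ∈ Fintype.piFinset s, φ b =
      ∑ b ∈ Fintype.piFinset (fun i => s (J.succAbove i)), ∑ x ∈ s J, φ (J.insertNth x b) := by
  rw [← sum_product']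
  refine sum_nbij' (fun b => (J.removeNth b, b J)) (fun p => J.insertNth p.2 p.1) ?_ ?_ ?_ ?_ ?_
  · intro b hb
    exact mem_product.2 ((Fin.mem_piFinset_iff_pivot_removeNth J).1 hb).symm
  · intro p hp
    refine (Fin.mem_piFinset_iff_pivot_removeNth J).2 ?_
    rw [Fin.insertNth_apply_same, Fin.removeNth_insertNth]
    exact (mem_product.1 hp).symm
  · intro b _
    exact Fin.insertNth_self_removeNth J b
  · intro p _
    rw [Fin.insertNth_apply_same, Fin.removeNth_insertNth]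
  · intro b _
    rw [Fin.insertNth_self_removeNth]

theorem key {m : ℕ} (J : Fin (m + 1)) (a : Fin (m + 1) → ℕ) (Q : ℕ)
    (BB : Finset (Fin (m + 1) → ℕ)) (hB : BB ⊆ Fintype.piFinset fun i => Ico 1 (a i))
    (H : Fin (m + 1) → ℕ → ℝ) :
    ∑ b ∈ BB, ∑ n ∈ Ico Q (2 * Q), ∏ i, H i (a i * n + b i) =
      ∑ b ∈ Fintype.piFinset (fun i => Ico 1 (a (J.succAbove i))), Br (a J) Q (H J)
        (fun n => ∏ i, H (J.succAbove i) (a (J.succAbove i) * n + b i))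
        (fun x => if J.insertNth x b ∈ BB then 1 else 0) := by
  rw [← inter_eq_right.2 hB, ← sum_ite_mem, split J, inter_eq_right.2 hB]
  refine sum_congr rfl fun b _ => ?_
  rw [Br, sum_comm]
  refine sum_congr rfl fun x _ => ?_
  split_ifs
  · refine sum_congr rfl fun n _ => ?_
    rw [Fin.prod_univ_succAbove _ J, mul_one]
    simp only [Fin.insertNth_apply_same, Fin.insertNth_apply_succAbove]
  · simp

theorem step {m : ℕ} (J : Fin (m + 1)) (a : Fin (m + 1) → ℕ) (Q : ℕ)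
    (BB : Finset (Fin (m + 1) → ℕ)) (hB : BB ⊆ Fintype.piFinset fun i => Ico 1 (a i))
    (G G' : Fin (m + 1) → ℕ → ℝ) (Bad : ℕ → ℝ) {δ ρ η : ℝ} (hδ : 0 ≤ δ) (hρ : 0 ≤ ρ)
    (hG : ∀ i, G (J.succAbove i) = G' (J.succAbove i)) (h01 : ∀ i x, 0 ≤ G' i x ∧ G' i x ≤ 1)
    (hrow : ∀ i n, Q ≤ n → ∑ b ∈ Ico 1 (a i), G' i (a i * n + b) ≤ ρ * a i)
    (h0 : ∀ n, 0 ≤ Bad n) (h1 : ∑ n ∈ Ico Q (2 * Q), Bad n ≤ η * a J)
    (h : ∀ u v : ℕ → ℝ, (∀ n, 0 ≤ u n ∧ u n ≤ 1) → (∀ b, 0 ≤ v b ∧ v b ≤ 1) →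
      Br (a J) Q (G J) u v ≤ Br (a J) Q (G' J) u v + δ * a J + ∑ n ∈ Ico Q (2 * Q), u n * Bad n) :
    ∑ b ∈ BB, ∑ n ∈ Ico Q (2 * Q), ∏ i, G i (a i * n + b i) ≤
      ∑ b ∈ BB, ∑ n ∈ Ico Q (2 * Q), ∏ i, G' i (a i * n + b i) + (δ + η * ρ ^ m) * ∏ i, (a i : ℝ) := by
  rw [key J a Q BB hB G, key J a Q BB hB G']
  simp only [hG]
  refine (sum_le_sum fun b _ => h _ _ (fun n => ⟨prod_nonneg fun i _ => (h01 _ _).1,
    prod_le_one (fun i _ => (h01 _ _).1) fun i _ => (h01 _ _).2⟩)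
    (fun x => by split_ifs <;> norm_num)).trans ?_
  rw [sum_add_distrib, sum_add_distrib, add_assoc, Fin.prod_univ_succAbove _ J, add_mul]
  refine add_le_add le_rfl (add_le_add ?_ ?_)
  · rw [sum_const, Fintype.card_piFinset, nsmul_eq_mul, mul_comm, mul_assoc, Nat.cast_prod]
    gcongr with i
    rw [Nat.card_Ico]
    exact Nat.sub_le _ _
  · rw [sum_comm]
    calc _ ≤ ∑ n ∈ Ico Q (2 * Q), (∏ i, ρ * a (J.succAbove i)) * Bad n := by
          refine sum_le_sum fun n hn => ?_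
          rw [← sum_mul, ← prod_univ_sum (fun i => Ico 1 (a (J.succAbove i)))
            fun i x => G' (J.succAbove i) (a (J.succAbove i) * n + x)]
          exact mul_le_mul_of_nonneg_right (prod_le_prod (fun i _ => sum_nonneg fun _ _ =>
            (h01 _ _).1) fun i _ => hrow _ n (mem_Ico.1 hn).1) (h0 n)
      _ ≤ (∏ i, ρ * a (J.succAbove i)) * (η * a J) := by
          rw [← mul_sum]
          exact mul_le_mul_of_nonneg_left h1 (prod_nonneg fun i _ => by positivity)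
      _ = _ := by rw [prod_mul_distrib, prod_const, card_univ, Fintype.card_fin]; ring

/-- the hybrid factors -/
noncomputable def FF (Q w : ℕ) {k : ℕ} (j : ℕ) (i : Fin k) (m : ℕ) : ℝ :=
  if i.val < j then kap Q w * rr w m else pr1 m

theorem kap_nonneg (Q w : ℕ) : 0 ≤ kap Q w := by
  have := VV_pos w
  unfold kap
  positivity

theorem chain {k Q w : ℕ} (a : Fin k → ℕ) (BB : Finset (Fin k → ℕ))
    (hB : BB ⊆ Fintype.piFinset fun i => Ico 1 (a i)) {C ε : ℝ} (hC : 1 ≤ C) (hε : 0 ≤ ε)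
    (hg : 1 ≤ lg Q) (hk : kap Q w ≤ 1)
    (hrow : ∀ i n, Q ≤ n → ∑ b ∈ Ico 1 (a i), rr w (a i * n + b) ≤ 5 / 4 * VV w * a i ∧
      ∑ b ∈ Ico 1 (a i), pr1 (a i * n + b) ≤ C * a i / lg Q)
    (h : ∀ i, ∃ Bad : ℕ → ℝ, (∀ n, 0 ≤ Bad n) ∧
      ∑ n ∈ Ico Q (2 * Q), Bad n ≤ ε * a i * Q / lg Q ∧
      ∀ u v : ℕ → ℝ, (∀ n, 0 ≤ u n ∧ u n ≤ 1) → (∀ b, 0 ≤ v b ∧ v b ≤ 1) →
        kap Q w * Br (a i) Q (rr w) u v ≤ Br (a i) Q pr1 u v + a i * Q / (lg Q : ℝ) ^ (k + 1) +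
          ∑ n ∈ Ico Q (2 * Q), u n * Bad n) (j : ℕ) (hj : j ≤ k) :
    ∑ b ∈ BB, ∑ n ∈ Ico Q (2 * Q), ∏ i, FF Q w j i (a i * n + b i) ≤
      ∑ b ∈ BB, ∑ n ∈ Ico Q (2 * Q), ∏ i, FF Q w 0 i (a i * n + b i) +
        j * ((Q / (lg Q : ℝ) ^ k * (1 / lg Q + ε * C ^ k)) * ∏ i, (a i : ℝ)) := by
  have g0 : (0 : ℝ) < lg Q := by exact_mod_cast hg
  have v0 := VV_pos w
  have k0 := kap_nonneg Q w
  induction j with
  | zero => simp
  | succ j ih =>
    obtain ⟨m, rfl⟩ : ∃ m, k = m + 1 := ⟨k - 1, by omega⟩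
    obtain ⟨Bad, h0, h1, h2⟩ := h ⟨j, hj⟩
    have := step ⟨j, hj⟩ a Q BB hB (FF Q w (j + 1)) (FF Q w j) Bad
      (δ := Q / (lg Q : ℝ) ^ (m + 1 + 1)) (ρ := C / lg Q) (η := ε * Q / lg Q) (by positivity)
      (by positivity) (fun i => ?_) (fun i x => ?_) (fun i n hn => ?_) h0
      (h1.trans_eq (by ring)) fun u v hu hv => ?_
    · refine this.trans ((add_le_add (ih (by omega)) le_rfl).trans ?_)
      rw [add_assoc, Nat.cast_succ, add_one_mul]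
      gcongr
      have h3 : C ^ m ≤ C ^ (m + 1) := pow_le_pow_right₀ hC m.le_succ
      calc _ = Q / (lg Q : ℝ) ^ (m + 1) * (1 / lg Q + ε * C ^ m) := by
            rw [div_pow]; field_simp; ring
        _ ≤ _ := by gcongr
    · have : ((⟨j, hj⟩ : Fin (m + 1)).succAbove i).val ≠ j := fun e =>
        Fin.succAbove_ne _ i (Fin.ext e)
      funext x
      exact if_congr (by omega) rfl rfl
    · unfold FF
      split_ifs
      exacts [⟨mul_nonneg k0 (rr_bd _ _).1, mul_le_one₀ hk (rr_bd _ _).1 (rr_bd _ _).2⟩, pr1_bd _]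
    · by_cases h3 : i.val < j
      · simp only [FF, if_pos h3, ← mul_sum]
        calc _ ≤ kap Q w * (5 / 4 * VV w * a i) := by gcongr; exact (hrow i n hn).1
          _ = 5 / 16 / lg Q * a i := by unfold kap; field_simp; ring
          _ ≤ _ := by gcongr; linarith
      · simp only [FF, if_neg h3]
        exact (hrow i n hn).2.trans_eq (by ring)
    · have e1 : FF Q w (j + 1) (⟨j, hj⟩ : Fin (m + 1)) = fun x => kap Q w * rr w x :=
        funext fun x => if_pos j.lt_succ_self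
      have e2 : FF Q w j (⟨j, hj⟩ : Fin (m + 1)) = pr1 := funext fun x => if_neg (lt_irrefl j)
      rw [e1, e2]
      refine le_of_eq_of_le ?_ ((h2 u v hu hv).trans_eq (by ring))
      simp only [Br, mul_sum, mul_assoc]

end RedP

open RedP in
theorem pMain (h1 : S_KP) (h2 : S_Pos) (h3 : S_Rows) : S_Main := by
  classical
  intro k
  obtain ⟨c0, c0p, h2⟩ := h2 k
  obtain ⟨C, hC, h3⟩ := h3
  refine ⟨c0 / (2 * 8 ^ k), by positivity, fun ε hε => ?_⟩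
  obtain ⟨C1, Cw, Q1, h1⟩ := h1 (ε * c0 / (4 * 4 ^ k * (k + 1) * C ^ k)) (k + 1) (by positivity)
  obtain ⟨Q2, h2⟩ := h2 Cw
  obtain ⟨Q3, h3⟩ := h3 Cw
  obtain ⟨Q4, h4⟩ := ev_lg ((eventually_ge_atTop 4).and
    (eventually_ge_atTop ⌈4 * 4 ^ k * (k + 1) / (c0 * ε)⌉₊))
  refine ⟨2 * C1, Q1 + Q2 + Q3 + Q4 + 1, fun Q hQ => ?_⟩
  obtain ⟨E, w, e1, w2, w3, h1⟩ := h1 Q (by omega)
  obtain ⟨k1, h3⟩ := h3 Q w (by omega) w2 w3
  obtain ⟨g4, h4⟩ := h4 Q (by omega)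
  have g0 : (4 : ℝ) ≤ lg Q := by exact_mod_cast g4
  have l1 := lg_le_log (Q := Q) (by omega)
  have q0 : (0 : ℝ) < Q := by exact_mod_cast (show 0 < Q by omega)
  refine ⟨E, ?_, fun a ha => ?_⟩
  · calc (E.card : ℝ) ≤ (lg Q : ℝ) ^ C1 := by exact_mod_cast e1
      _ ≤ (Real.log Q ^ 2) ^ C1 := by gcongr; nlinarith
      _ = _ := by rw [← pow_mul]
  generalize hB : @Finset.filter (Fin k → ℕ) _ (_) _ = BB
  have h5 := chain a BB (hB ▸ filter_subset _ _) hC (by positivity) (by omega) k1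
    (fun i n hn => h3 _ n (ha i).2.1 hn)
    (fun i => h1 _ (ha i).1 (ha i).2.1 (ha i).2.2.1 (ha i).2.2.2) k le_rfl
  have v0 := VV_pos w
  have h6 : BB.card * (c0 * Q / (4 * lg Q) ^ k) ≤
      ∑ b ∈ BB, ∑ n ∈ Ico Q (2 * Q), ∏ i, FF Q w k i (a i * n + b i) := by
    rw [← nsmul_eq_mul]
    refine card_nsmul_le_sum _ _ _ fun b hb => ?_
    have := h2 Q w a b (by omega) w2 w3 (fun i => ⟨(ha i).1, (ha i).2.1⟩)
      (mem_filter.1 (hB ▸ hb)).2.1
    simp only [FF, Fin.is_lt, if_true, prod_mul_distrib, prod_const, card_univ, Fintype.card_fin,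
      ← mul_sum]
    refine le_of_eq_of_le ?_ (mul_le_mul_of_nonneg_left this (pow_nonneg (kap_nonneg Q w) k))
    rw [kap, one_div_pow, mul_right_comm 4, mul_pow _ (VV w)]
    field_simp
  have h7 : ∑ b ∈ BB, ∑ n ∈ Ico Q (2 * Q), ∏ i, FF Q w 0 i (a i * n + b i) ≤
      BB.card * (c0 * Q / (4 * lg Q) ^ k / 2) := by
    rw [← nsmul_eq_mul]
    refine sum_le_card_nsmul _ _ _ fun b hb => ?_
    have := (mem_filter.1 (hB ▸ hb)).2.2
    simp only [FF, Nat.not_lt_zero, if_false, pr1, prod_boole, mem_univ, forall_true_left, sum_boole]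
    refine le_trans (by convert this.le) ?_
    calc _ ≤ c0 / (2 * 8 ^ k) * Q / (lg Q / 2 : ℝ) ^ k := by gcongr
      _ = _ := by
        rw [show (8 : ℝ) = 4 * 2 by norm_num, mul_pow, mul_pow, div_pow]
        field_simp
  have p0 : 0 ≤ ∏ i, (a i : ℝ) := by positivity
  have h8 : 4 * 4 ^ k * (k + 1) / (c0 * ε) ≤ (lg Q : ℝ) := Nat.ceil_le.1 h4
  rw [div_le_iff₀ (by positivity)] at h8
  have h9 : (k : ℝ) * (1 / lg Q + ε * c0 / (4 * 4 ^ k * (k + 1) * C ^ k) * C ^ k) ≤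
      ε * c0 / (2 * 4 ^ k) := by
    have e : (1 : ℝ) / lg Q ≤ ε * c0 / (4 * 4 ^ k * (k + 1)) := by
      rw [div_le_div_iff₀ (by positivity) (by positivity)]
      linarith
    calc _ ≤ ((k : ℝ) + 1) * (ε * c0 / (4 * 4 ^ k * (k + 1)) +
          ε * c0 / (4 * 4 ^ k * (k + 1) * C ^ k) * C ^ k) := by gcongr; linarith
      _ = _ := by field_simp; ring
  refine le_of_mul_le_mul_right (a := c0 * Q / (4 * lg Q) ^ k / 2) ?_ (by positivity)
  calc _ ≤ k * ((Q / (lg Q : ℝ) ^ k * (1 / lg Q + ε * c0 / (4 * 4 ^ k * (k + 1) * C ^ k) * C ^ k)) *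
        ∏ i, (a i : ℝ)) := by linarith
    _ = (k * (1 / lg Q + ε * c0 / (4 * 4 ^ k * (k + 1) * C ^ k) * C ^ k)) *
        (Q / (lg Q : ℝ) ^ k * ∏ i, (a i : ℝ)) := by ring
    _ ≤ ε * c0 / (2 * 4 ^ k) * (Q / (lg Q : ℝ) ^ k * ∏ i, (a i : ℝ)) := by gcongr
    _ = _ := by rw [mul_pow]; field_simp

end Pool.Agent.P.MP_746f10_nt.AP
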