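import Pool.Agent.P.MP_746f10_nt.AP.Base

/-! Reduction of a major bilinear form to short sums twisted by characters. -/

namespace Pool.Agent.P.MP_746f10_nt.AP

open Finset
open Pool.Agent.P.MP_0ad054_nt (e e_add norm_e norm_e_sub_le)

namespace RowP

/-- expansion of a bounded function on the units into characters -/
theorem expand (q : ℕ) [NeZero q] (f : ZMod q → ℂ) (hf : ∀ y, ‖f y‖ ≤ 1) :
    ∃ co : DirichletCharacter ℂ q → ℂ, (∀ ψ, ‖co ψ‖ ≤ 1) ∧
      ∀ m : ZMod q, IsUnit m → f m = ∑ ψ, co ψ * ψ m := by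
  have h0 : 0 < q.totient := Nat.totient_pos.2 (NeZero.pos q)
  have h1 : (q.totient : ℂ) ≠ 0 := by exact_mod_cast h0.ne'
  refine ⟨fun ψ => (q.totient : ℂ)⁻¹ * ∑ y : (ZMod q)ˣ, f y * ψ (y : ZMod q)⁻¹, fun ψ => ?_, ?_⟩
  · rw [norm_mul, norm_inv, Complex.norm_natCast, inv_mul_le_iff₀ (by exact_mod_cast h0), mul_one,
      ← ZMod.card_units_eq_totient, ← card_univ, card_eq_sum_ones, Nat.cast_sum]
    refine (norm_sum_le _ _).trans (sum_le_sum fun y _ => ?_)
    rw [norm_mul, Nat.cast_one]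
    exact mul_le_one₀ (hf _) (norm_nonneg _) (ψ.norm_le_one _)
  · rintro _ ⟨m, rfl⟩
    simp only [mul_assoc, sum_mul]
    rw [← mul_sum, sum_comm]
    simp only [← mul_sum, DirichletCharacter.sum_char_inv_mul_char_eq ℂ (Units.isUnit _),
      Units.val_inj, mul_ite, mul_zero, sum_ite_eq', mem_univ, if_true]
    field_simp

theorem std_eq (q : ℕ) [NeZero q] (j : ℤ) : ZMod.stdAddChar (j : ZMod q) = e (j / q) := by
  rw [ZMod.stdAddChar_coe, e]
  congr 1
  push_cast
  ring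

/-- splitting of the additive character -/
theorem split {a q : ℕ} [Fact a.Prime] [NeZero q] (hq : q < a) (r : ℤ) : ∃ s : ZMod q, ∀ m : ℕ,
    ZMod.stdAddChar ((r : ZMod a) * (q : ZMod a)⁻¹ * (m : ZMod a)) =
      ZMod.stdAddChar (s * (m : ZMod q)) * e (r / (q * a) * m) := by
  have h0 : (q : ZMod a) ≠ 0 := fun h =>
    absurd (Nat.le_of_dvd (NeZero.pos q) ((ZMod.natCast_eq_zero_iff q a).1 h)) (by omega)
  obtain ⟨x, hx⟩ := ZMod.intCast_surjective ((r : ZMod a) * (q : ZMod a)⁻¹)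
  obtain ⟨s, hs⟩ : (a : ℤ) ∣ x * q - r := by
    rw [← ZMod.intCast_zmod_eq_zero_iff_dvd]
    push_cast
    rw [hx, inv_mul_cancel_right₀ h0, sub_self]
  refine ⟨s, fun m => ?_⟩
  have e1 := std_eq a (x * m)
  have e2 := std_eq q (s * m)
  rw [Int.cast_mul, Int.cast_natCast] at e1 e2
  rw [← hx, e1, e2, ← e_add]
  congr 1
  have h1 : (x : ℝ) * q - r = a * s := by exact_mod_cast hs
  have h2 : (q : ℝ) ≠ 0 := by exact_mod_cast NeZero.ne q
  have h3 : (a : ℝ) ≠ 0 := by exact_mod_cast NeZero.ne a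
  push_cast
  field_simp
  linear_combination m * h1

theorem part {F : ℕ → ℂ} {B : ℝ} {x j : ℕ} (h : ∀ m, m ≤ x + j → ‖F m‖ ≤ B) :
    ‖∑ i ∈ range j, F (x + i)‖ ≤ j * B := by
  have := sum_le_card_nsmul (range j) (fun i => ‖F (x + i)‖) B fun i hi =>
    h _ (by have := mem_range.1 hi; omega)
  rw [card_range, nsmul_eq_mul] at this
  exact (norm_sum_le _ _).trans this

theorem shift {F : ℕ → ℂ} {B : ℝ} {x a j : ℕ} (h : ∀ m, m ≤ x + a + j → ‖F m‖ ≤ B) :
    ‖∑ b ∈ range a, F (x + b) - ∑ b ∈ range a, F (x + b + j)‖ ≤ 2 * (j * B) := by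
  have e1 := sum_range_add (fun i => F (x + i)) a j
  have e2 := sum_range_add (fun i => F (x + i)) j a
  have e3 : ∑ b ∈ range a, F (x + b) - ∑ b ∈ range a, F (x + b + j) =
      ∑ i ∈ range j, F (x + i) - ∑ i ∈ range j, F (x + a + i) := by
    rw [add_comm j a, e1] at e2
    simp only [add_comm j, ← add_assoc] at e2
    linear_combination e2
  rw [e3]
  have h1 := part (x := x) (j := j) fun m hm => h m (by omega)
  have h2 := part (x := x + a) (j := j) h
  exact (norm_sub_le _ _).trans (by linarith)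

/-- one row -/
theorem row {G : ℕ → ℂ} {B θ ρ : ℝ} {x a R : ℕ} (h : ∀ m, m ≤ x + a + R → ‖G m‖ ≤ B)
    (hθ : |θ| * a ≤ ρ) (hρ : 1 ≤ ρ) :
    R * ‖∑ b ∈ range a, G (x + b) * e (θ * (x + b : ℕ))‖ ≤
      ∑ b ∈ range a, ‖∑ j ∈ range R, G (x + b + j)‖ + 10 * B * ρ * R ^ 2 := by
  have hB : 0 ≤ B := (norm_nonneg _).trans (h 0 (Nat.zero_le _))
  let F : ℕ → ℂ := fun m => G m * e (θ * m)
  have hF : ∀ m, m ≤ x + a + R → ‖F m‖ ≤ B := fun m hm => by
    rw [norm_mul, norm_e, mul_one]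
    exact h m hm
  have h1 : ‖∑ j ∈ range R, (∑ b ∈ range a, F (x + b) - ∑ b ∈ range a, F (x + b + j))‖ ≤
      R * (2 * (R * B)) := by
    have := sum_le_card_nsmul (range R) _ (2 * (R * B)) fun j hj =>
      (shift (F := F) (x := x) (a := a) (j := j)
        fun m hm => hF m (by have := mem_range.1 hj; omega)).trans (by
          have : (j : ℝ) ≤ R := by exact_mod_cast (mem_range.1 hj).le
          gcongr)
    rw [card_range, nsmul_eq_mul] at this
    exact (norm_sum_le _ _).trans this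
  have h2 : ∀ b ∈ range a, ‖∑ j ∈ range R, F (x + b + j)‖ ≤
      ‖∑ j ∈ range R, G (x + b + j)‖ + R * (B * (8 * (|θ| * R))) := fun b hb => by
    have h3 := sum_le_card_nsmul (range R)
      (fun j => ‖F (x + b + j) - G (x + b + j) * e (θ * (x + b : ℕ))‖) (B * (8 * (|θ| * R)))
      fun j hj => by
        have hj' := mem_range.1 hj
        have hb' := mem_range.1 hb
        rw [← mul_sub, norm_mul]
        refine mul_le_mul (h _ (by omega)) ((norm_e_sub_le _ _).trans ?_) (norm_nonneg _) hB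
        rw [← mul_sub, Nat.cast_add (x + b), add_sub_cancel_left, abs_mul, Nat.abs_cast]
        have : (j : ℝ) ≤ R := by exact_mod_cast hj'.le
        have := Real.pi_le_four
        gcongr
        linarith
    rw [card_range, nsmul_eq_mul] at h3
    have h4 := (norm_sum_le _ _).trans h3
    rw [sum_sub_distrib, ← sum_mul] at h4
    have h5 := norm_le_insert' (∑ j ∈ range R, F (x + b + j))
      ((∑ j ∈ range R, G (x + b + j)) * e (θ * (x + b : ℕ)))
    rw [norm_mul, norm_e, mul_one] at h5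
    linarith
  have h3 := (norm_sum_le _ _).trans (sum_le_sum h2)
  rw [sum_add_distrib, sum_const, card_range, nsmul_eq_mul, sum_comm] at h3
  rw [sum_sub_distrib, sum_const, card_range, nsmul_eq_mul] at h1
  have h4 := norm_le_insert' ((R : ℂ) * ∑ b ∈ range a, F (x + b))
    (∑ j ∈ range R, ∑ b ∈ range a, F (x + b + j))
  rw [norm_mul, Complex.norm_natCast] at h4
  have h5 : 0 ≤ B * (R : ℝ) ^ 2 := by positivity
  have h6 := mul_le_mul_of_nonneg_left hθ h5
  have h7 := mul_le_mul_of_nonneg_left hρ h5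
  change R * ‖∑ b ∈ range a, F (x + b)‖ ≤ _
  linarith

end RowP

open RowP

theorem pRow : S_Row := by
  refine ⟨10, by norm_num, fun a _ N w ρ R c u B0 Z χ ξ hξ hw ha hN hR hRa hu hc hr hZ => ?_⟩
  obtain ⟨⟨r, q⟩, hx, rfl⟩ := mem_image.1 hξ
  simp only [mem_product, mem_Icc] at hx
  obtain ⟨⟨r1, r2⟩, q1, q2⟩ := hx
  have : NeZero q := ⟨by omega⟩
  obtain ⟨s, hs⟩ := split (a := a) (q := q) (by omega) r
  obtain ⟨co, c1, c2⟩ := expand q (fun y => ZMod.stdAddChar (s * y)) fun y =>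
    (Circle.norm_coe _).le
  let G : ℕ → ℂ := fun m => c m * χ m * ZMod.stdAddChar (s * (m : ZMod q))
  have hG : ∀ m, G m = ∑ ψ, co ψ * (c m * χ m * ψ m) := fun m => by
    by_cases h0 : c m = 0
    · simp [G, h0]
    have hm : IsUnit (m : ZMod q) := (ZMod.isUnit_iff_coprime m q).2
      (Nat.coprime_of_dvd fun p hp h1 h2 => by
        have := hr m h0 p hp h1
        have := Nat.le_of_dvd q1 h2
        omega)
    simp only [G, c2 m hm, mul_sum]
    exact sum_congr rfl fun ψ _ => mul_left_comm _ _ _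
  have hq : (1 : ℝ) ≤ q := by exact_mod_cast q1
  have hρ : (q : ℝ) ≤ ρ := by exact_mod_cast q2
  have ha0 : (0 : ℝ) < a := by exact_mod_cast (by omega : 0 < a)
  have hR0 : (0 : ℝ) < R := by exact_mod_cast hR
  have hθ : |(r : ℝ) / (q * a)| * a ≤ ρ := by
    have h1 : |(r : ℝ)| ≤ ρ := by exact_mod_cast abs_le.2 ⟨r1, r2⟩
    rw [abs_div, abs_of_pos (show (0 : ℝ) < q * a by positivity), div_mul_eq_mul_div,
      mul_div_mul_right _ _ ha0.ne']
    exact (div_le_self (abs_nonneg _) hq).trans h1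
  have h1 : ∀ n ∈ Ico N (2 * N),
      R * ‖∑ b ∈ Ico 1 a, c (a * n + b) * u n * ch χ ((r : ZMod a) * (q : ZMod a)⁻¹) b‖ ≤
        ∑ b ∈ range a, ‖∑ j ∈ range R, G (a * n + b + j)‖ + 10 * B0 * ρ * R ^ 2 := by
    intro n hn
    have hn' := mem_Ico.1 hn
    refine le_trans (mul_le_mul_of_nonneg_left ?_ hR0.le) (row (fun m hm => ?_) hθ (hq.trans hρ))
    · have e1 : ∑ b ∈ Ico 1 a, c (a * n + b) * u n * ch χ ((r : ZMod a) * (q : ZMod a)⁻¹) b =
          u n * ∑ b ∈ range a, G (a * n + b) * e (r / (q * a) * (a * n + b : ℕ)) := by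
        have e2 : ∀ b : ℕ, ((a * n + b : ℕ) : ZMod a) = b := fun b => by simp
        rw [mul_sum, range_eq_Ico, sum_eq_sum_Ico_succ_bot (a := 0) (by omega)]
        simp only [G, mul_assoc, ← hs, e2, ch, Nat.cast_zero, MulChar.map_zero, zero_mul, mul_zero,
          zero_add]
        exact sum_congr rfl fun b _ => mul_left_comm _ _ _
      rw [e1, norm_mul]
      exact mul_le_of_le_one_left (norm_nonneg _) (hu n)
    · have h2 : a * n ≤ a * (2 * N) := Nat.mul_le_mul_left _ hn'.2.le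
      have h3 : a * 1 ≤ a * N := Nat.mul_le_mul_left _ hN
      have h4 := hc m (by rw [mul_left_comm] at h2; omega)
      simp only [G, norm_mul]
      rw [show ‖ZMod.stdAddChar (s * (m : ZMod q))‖ = 1 from Circle.norm_coe _, mul_one]
      exact (mul_le_of_le_one_right (norm_nonneg _) (χ.norm_le_one _)).trans h4
  have h2 := sum_le_sum h1
  rw [← mul_sum, sum_add_distrib, sum_const, Nat.card_Ico, nsmul_eq_mul,
    show 2 * N - N = N by omega,
    sum_rows a N (2 * N) (by omega) fun x => ‖∑ j ∈ range R, G (x + j)‖, mul_left_comm a 2] at h2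
  have hZ0 : 0 ≤ Z := (sum_nonneg fun _ _ => norm_nonneg _).trans (hZ q 1 q2)
  have h3 : ∑ x ∈ Ico (a * N) (2 * (a * N)), ‖∑ j ∈ range R, G (x + j)‖ ≤ ρ * Z := by
    have h4 := sum_le_card_nsmul univ _ Z fun (ψ : DirichletCharacter ℂ q) _ => hZ q ψ q2
    rw [card_univ, ← Nat.card_eq_fintype_card,
      DirichletCharacter.card_eq_totient_of_hasEnoughRootsOfUnity, nsmul_eq_mul, sum_comm] at h4
    have h5 : (q.totient : ℝ) ≤ ρ := by exact_mod_cast (Nat.totient_le q).trans q2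
    refine le_trans (sum_le_sum fun x _ => ?_) (h4.trans (mul_le_mul_of_nonneg_right h5 hZ0))
    simp only [hG]
    rw [sum_comm]
    refine (norm_sum_le _ _).trans (sum_le_sum fun ψ _ => ?_)
    rw [← mul_sum, norm_mul]
    exact mul_le_of_le_one_left (norm_nonneg _) (c1 ψ)
  refine le_of_mul_le_mul_left ?_ hR0
  rw [mul_add, mul_div_cancel₀ _ hR0.ne']
  have h4 := mul_le_mul_of_nonneg_left (norm_sum_le (Ico N (2 * N)) fun n =>
    ∑ b ∈ Ico 1 a, c (a * n + b) * u n * ch χ ((r : ZMod a) * (q : ZMod a)⁻¹) b) hR0.le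
  unfold Bf
  linarith

end Pool.Agent.P.MP_746f10_nt.AP
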