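import Pool.Agent.P.MP_746f10_nt.AP.Base

/-! Upper bounds on single rows and the lower bound for the primes of a block of rows. -/

namespace Pool.Agent.P.MP_746f10_nt.AP

open Finset Filter
open scoped ArithmeticFunction.vonMangoldt

namespace RowsP

lemma row_le {F : ℕ → ℝ} (hF : ∀ m, 0 ≤ F m) (a x : ℕ) :
    ∑ b ∈ Ico 1 a, F (x + b) ≤ ∑ m ∈ Ico x (x + a), F m := by
  rw [sum_Ico_eq_sum_range F x, Nat.add_sub_cancel_left]
  exact sum_le_sum_of_subset_of_nonneg (fun b hb => mem_range.2 (mem_Ico.1 hb).2)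
    fun _ _ _ => hF _

lemma inv_VV_le_g {w g : ℕ} (hw : 2 ≤ w) (h : w ≤ 2 ^ (g / ⌈CM⌉₊)) : 1 ≤ VV w * g := by
  have h1 := inv_VV_le w hw
  have hC := one_le_CM
  have hn : CM ≤ (⌈CM⌉₊ : ℝ) := Nat.le_ceil _
  have h2 : (w : ℝ) ≤ 2 ^ (g / ⌈CM⌉₊) := by exact_mod_cast h
  have h3 := Real.log_le_log (by positivity) h2
  rw [Real.log_pow] at h3
  have h4 : ((g / ⌈CM⌉₊ : ℕ) : ℝ) * ⌈CM⌉₊ ≤ g := by exact_mod_cast Nat.div_mul_le_self g ⌈CM⌉₊
  have h5 := Real.log_two_lt_d9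
  have h6 : (0 : ℝ) ≤ ((g / ⌈CM⌉₊ : ℕ) : ℝ) := Nat.cast_nonneg _
  have h7 : Real.log w ≤ ((g / ⌈CM⌉₊ : ℕ) : ℝ) := by nlinarith
  have h8 : (VV w)⁻¹ ≤ g := by
    calc (VV w)⁻¹ ≤ CM * Real.log w := h1
      _ ≤ CM * ((g / ⌈CM⌉₊ : ℕ) : ℝ) := by gcongr
      _ ≤ ⌈CM⌉₊ * ((g / ⌈CM⌉₊ : ℕ) : ℝ) := by gcongr
      _ ≤ g := by linarith
  have := VV_pos w
  rwa [inv_le_iff_one_le_mul₀' this] at h8

lemma pr1_le_rr {z m : ℕ} (h : z < m) : pr1 m ≤ rr z m := by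
  unfold pr1
  split_ifs with hp
  · rw [rr_of_rough fun p hq hd => by rwa [(Nat.prime_dvd_prime_iff_eq hq hp).1 hd]]
  · exact (rr_bd _ _).1

lemma VV_pow_le {g s : ℕ} (hs : 1 ≤ s) (hg : s ≤ g) : VV (2 ^ (g / s)) * g ≤ 4 * s := by
  have h1 := VV_mul_log_le' (2 ^ (g / s))
  push_cast at h1
  rw [Real.log_pow] at h1
  have h2 : g ≤ 2 * s * (g / s) := by
    have h3 := Nat.div_add_mod g s
    have h4 := Nat.mod_lt g hs
    have h5 : 1 ≤ g / s := (Nat.le_div_iff_mul_le hs).2 (by omega)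
    nlinarith
  have h2' : (g : ℝ) ≤ 2 * s * ((g / s : ℕ) : ℝ) := by exact_mod_cast h2
  have h5 := Real.log_two_gt_d9
  have h6 : (0 : ℝ) ≤ ((g / s : ℕ) : ℝ) := Nat.cast_nonneg _
  have h7 := VV_pos (2 ^ (g / s))
  have h8 : VV (2 ^ (g / s)) * ((g / s : ℕ) : ℝ) ≤ 2 := by
    have : 0 ≤ VV (2 ^ (g / s)) * ((g / s : ℕ) : ℝ) := by positivity
    nlinarith
  calc VV (2 ^ (g / s)) * g ≤ VV (2 ^ (g / s)) * (2 * s * ((g / s : ℕ) : ℝ)) := by gcongr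
    _ = 2 * s * (VV (2 ^ (g / s)) * ((g / s : ℕ) : ℝ)) := by ring
    _ ≤ 2 * s * 2 := by gcongr
    _ = _ := by ring

lemma theta_nat (x : ℕ) : Chebyshev.theta x = ∑ m ∈ Ioc 0 x, pr1 m * Real.log m := by
  rw [Chebyshev.theta, Nat.floor_natCast, sum_filter]
  exact sum_congr rfl fun m _ => by unfold pr1; split_ifs <;> simp

lemma psi_nat (x : ℕ) : Chebyshev.psi x = ∑ m ∈ Icc 1 x, Λ m := by
  rw [Chebyshev.psi, Nat.floor_natCast]; rfl

lemma theta_sub_le {x y : ℕ} (hx : 1 ≤ x) (hxy : x ≤ y) (hy : ¬ y.Prime) {L : ℝ}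
    (hL : Real.log y ≤ L) :
    Chebyshev.theta y - Chebyshev.theta x ≤ L * ∑ m ∈ Ico x y, pr1 m := by
  rw [theta_nat, theta_nat, ← sum_Ioc_consecutive _ (Nat.zero_le x) hxy, add_sub_cancel_left,
    mul_sum]
  have h0 : ∀ m : ℕ, 0 ≤ pr1 m * Real.log m := fun m =>
    mul_nonneg (pr1_bd m).1 (Real.log_natCast_nonneg m)
  calc ∑ m ∈ Ioc x y, pr1 m * Real.log m ≤ ∑ m ∈ Ico x (y + 1), pr1 m * Real.log m :=
        sum_le_sum_of_subset_of_nonneg (fun m hm => by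
          have := mem_Ioc.1 hm
          exact mem_Ico.2 ⟨by omega, by omega⟩) fun m _ _ => h0 m
    _ = ∑ m ∈ Ico x y, pr1 m * Real.log m := by
        rw [sum_Ico_succ_top hxy]
        simp [pr1, hy]
    _ ≤ _ := by
        refine sum_le_sum fun m hm => ?_
        have h1 := mem_Ico.1 hm
        have h2 : Real.log m ≤ Real.log y :=
          Real.log_le_log (by exact_mod_cast (by omega : 0 < m)) (by exact_mod_cast h1.2.le)
        rw [mul_comm]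
        exact mul_le_mul_of_nonneg_right (h2.trans hL) (pr1_bd m).1

lemma rows_eq {a n1 n2 : ℕ} (ha : 2 ≤ a) (h1 : 2 ≤ n1) (h : n1 ≤ n2) :
    ∑ n ∈ Ico n1 n2, ∑ b ∈ Ico 1 a, pr1 (a * n + b) = ∑ m ∈ Ico (a * n1) (a * n2), pr1 m := by
  rw [← sum_rows a n1 n2 h]
  refine sum_congr rfl fun n hn => ?_
  have h2 := mem_Ico.1 hn
  have h3 : ¬ (a * n).Prime := Nat.not_prime_mul (by omega) (by omega)
  rw [range_eq_Ico, sum_eq_sum_Ico_succ_bot (by omega : 0 < a)]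
  simp [pr1, h3]

lemma log_bds {Q x : ℕ} (hg : 5 ≤ lg Q) (h1 : Q ^ 2 ≤ x) (h2 : x ≤ 4 * Q ^ 2) :
    (lg Q : ℝ) ≤ Real.log x ∧ Real.log x ≤ 2 * lg Q := by
  have hQ : 1 ≤ Q := by
    rcases Nat.eq_zero_or_pos Q with rfl | h0
    · simp [lg] at hg
    · exact h0
  have hQ' : (0 : ℝ) < Q := by exact_mod_cast hQ
  have h3 : (Q : ℝ) ^ 2 ≤ x := by exact_mod_cast h1
  constructor
  · have h4 := Real.log_le_log (by positivity) h3
    rw [Real.log_pow] at h4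
    have := lg_le_log hQ
    push_cast at h4
    linarith
  · have h5 : x ≤ 2 ^ (2 * lg Q + 4) := by
      have := (lt_two_pow_lg Q).le
      calc x ≤ 4 * Q ^ 2 := h2
        _ ≤ 4 * (2 ^ (lg Q + 1)) ^ 2 := by gcongr
        _ = _ := by ring
    have h6 : (x : ℝ) ≤ 2 ^ (2 * lg Q + 4) := by exact_mod_cast h5
    have h7 := Real.log_le_log (lt_of_lt_of_le (by positivity) h3) h6
    rw [Real.log_pow] at h7
    have := Real.log_two_lt_d9
    have h8 : (5 : ℝ) ≤ lg Q := by exact_mod_cast hg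
    push_cast at h7
    nlinarith

end RowsP

open RowsP

theorem pRows (h : S_Int) : S_Rows := by
  obtain ⟨k0, hk⟩ := h
  set s := 2 * (4 * k0 + 6) with hs
  have hs1 : 1 ≤ s := by omega
  refine ⟨8 * s + 1, by have : (0 : ℝ) ≤ s := Nat.cast_nonneg _; linarith, fun Cw => ?_⟩
  have hC : 1 ≤ ⌈CM⌉₊ := Nat.one_le_iff_ne_zero.2 (Nat.ceil_pos.2 (by linarith [one_le_CM])).ne'
  obtain ⟨Q0, hQ0⟩ := ev_lg ((ev_pow_le_div 1 Cw _ hC).and ((ev_pow_le_two_pow 8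
    (Cw * (4 * (k0 + 3) + 6) + 1)).and ((ev_pow_le_div 1 1 2 (by norm_num)).and
    (eventually_ge_atTop s))))
  refine ⟨max Q0 2, fun Q w hQ hw hwg => ?_⟩
  obtain ⟨e1, e2, e3, e4⟩ := hQ0 Q (le_of_max_le_left hQ)
  have hQ2 : 2 ≤ Q := le_of_max_le_right hQ
  have hQg := two_pow_lg_le (Q := Q) (by omega)
  set g := lg Q with hg
  have hg0 : (0 : ℝ) < g := by exact_mod_cast (by omega : 0 < g)
  have hV := inv_VV_le_g (g := g) hw (by omega)
  have hV0 := VV_pos w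
  refine ⟨?_, fun a n ha hn => ⟨?_, ?_⟩⟩
  · unfold kap
    rw [← hg, div_le_one (by positivity)]
    nlinarith
  · refine (row_le (fun m => (rr_bd w m).1) a (a * n)).trans ?_
    have h1 := (abs_le.1 (hk 3 w (a * n) a hw)).2
    have h2 : 8 * (w ^ (4 * (k0 + 3) + 6) * g) ≤ a := by
      calc 8 * (w ^ (4 * (k0 + 3) + 6) * g) ≤ 8 * ((g ^ Cw) ^ (4 * (k0 + 3) + 6) * g) := by gcongr
        _ = 8 * g ^ (Cw * (4 * (k0 + 3) + 6) + 1) := by rw [← pow_mul, pow_succ]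
        _ ≤ a := e2.trans (hQg.trans ha)
    have h3 : 8 * ((w : ℝ) ^ (4 * (k0 + 3) + 6) * g) ≤ a := by exact_mod_cast h2
    have h4 : (0 : ℝ) ≤ (w : ℝ) ^ (4 * (k0 + 3) + 6) := by positivity
    have h5 : 8 * (w : ℝ) ^ (4 * (k0 + 3) + 6) ≤ a * VV w := by
      calc 8 * (w : ℝ) ^ (4 * (k0 + 3) + 6) ≤ 8 * (w : ℝ) ^ (4 * (k0 + 3) + 6) * (VV w * g) :=
            le_mul_of_one_le_right (by positivity) hV
        _ = 8 * ((w : ℝ) ^ (4 * (k0 + 3) + 6) * g) * VV w := by ring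
        _ ≤ _ := by gcongr
    linarith
  · set z := 2 ^ (g / s) with hz
    have hz2 : 2 ≤ z := by
      have : 1 ≤ g / s := (Nat.le_div_iff_mul_le hs1).2 (by omega)
      calc 2 = 2 ^ 1 := rfl
        _ ≤ _ := Nat.pow_le_pow_right (by norm_num) this
    have hzQ : z ≤ Q := (Nat.pow_le_pow_right (by norm_num) (Nat.div_le_self _ _)).trans hQg
    have h0 : ∑ b ∈ Ico 1 a, pr1 (a * n + b) ≤ ∑ b ∈ Ico 1 a, rr z (a * n + b) :=
      sum_le_sum fun b hb => pr1_le_rr (by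
        have := (mem_Ico.1 hb).1
        have : a ≤ a * n := Nat.le_mul_of_pos_right a (by omega)
        omega)
    refine h0.trans ((row_le (fun m => (rr_bd z m).1) a (a * n)).trans ?_)
    have h1 := (abs_le.1 (hk 0 z (a * n) a hz2)).2
    have h2 : z ^ (4 * (k0 + 0) + 6) * g ≤ a := by
      have h3 : g / s * (4 * (k0 + 0) + 6) ≤ g / 2 := by
        refine (Nat.le_div_iff_mul_le (by norm_num)).2 ?_
        calc g / s * (4 * (k0 + 0) + 6) * 2 = g / s * s := by rw [hs]; ring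
          _ ≤ g := Nat.div_mul_le_self _ _
      calc z ^ (4 * (k0 + 0) + 6) * g ≤ 2 ^ (g / 2) * 2 ^ (g / 2) := by
            refine Nat.mul_le_mul ?_ (by simpa using e3)
            rw [hz, ← pow_mul]
            exact Nat.pow_le_pow_right (by norm_num) h3
        _ ≤ 2 ^ g := by rw [← pow_add]; exact Nat.pow_le_pow_right (by norm_num) (by omega)
        _ ≤ a := hQg.trans ha
    have h3 : (z : ℝ) ^ (4 * (k0 + 0) + 6) * g ≤ a := by exact_mod_cast h2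
    have h4 : VV z * g ≤ 4 * s := VV_pow_le hs1 e4
    have ha0 : (0 : ℝ) ≤ a := Nat.cast_nonneg _
    have h5 : (a : ℝ) * (VV z * g) ≤ a * (4 * s) := by gcongr
    rw [le_div_iff₀ hg0]
    rw [pow_zero, div_one] at h1
    calc _ ≤ (2 * (a * VV z) + (z : ℝ) ^ (4 * (k0 + 0) + 6)) * g := by gcongr; linarith
      _ = 2 * (a * (VV z * g)) + (z : ℝ) ^ (4 * (k0 + 0) + 6) * g := by ring
      _ ≤ 2 * (a * (4 * s)) + a := by linarith
      _ = _ := by ring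

theorem pBlk (h : Pool.Agent.P.MP_0ad054_nt.An.S_PNT) : S_Blk := by
  intro A
  obtain ⟨C, hC, hP⟩ := h A
  obtain ⟨Q0, hQ0⟩ := ev_lg ((ev_pow_le_two_pow 8 A).and ((eventually_ge_atTop ⌈4 * C⌉₊).and
    (eventually_ge_atTop 5)))
  refine ⟨max Q0 2, fun Q a n1 n2 hQ ha ha' h1 h12 h2 => ?_⟩
  obtain ⟨e1, e2, e3⟩ := hQ0 Q (le_of_max_le_left hQ)
  have hQ2 : 2 ≤ Q := le_of_max_le_right hQ
  have hQg := two_pow_lg_le (Q := Q) (by omega)
  rw [rows_eq (by omega) (by omega) h12]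
  have hx1 : Q ^ 2 ≤ a * n1 := by rw [sq]; exact Nat.mul_le_mul ha h1
  have hxy : a * n1 ≤ a * n2 := Nat.mul_le_mul_left a h12
  have hy1 : a * n2 ≤ 2 * (a * Q) := by nlinarith
  have hy2 : a * n2 ≤ 4 * Q ^ 2 := by nlinarith
  have hx2 : 2 ≤ a * n1 := by nlinarith
  obtain ⟨l1, -⟩ := log_bds e3 hx1 (hxy.trans hy2)
  obtain ⟨l2, l3⟩ := log_bds e3 (hx1.trans hxy) hy2
  have t1 := theta_sub_le (by omega) hxy (Nat.not_prime_mul (by omega) (by omega)) l3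
  set g := lg Q with hg
  have hg0 : (0 : ℝ) < g := by exact_mod_cast (by omega : 0 < g)
  have hE : ∀ x : ℕ, 2 ≤ x → x ≤ 2 * (a * Q) → (g : ℝ) ≤ Real.log x →
      |Chebyshev.psi x - x| ≤ g / 2 * (a * Q / (g : ℝ) ^ A) := by
    intro x hx hx' hl
    rw [psi_nat]
    refine (hP x hx).trans ?_
    have h3 : (x : ℝ) ≤ 2 * (a * Q) := by exact_mod_cast hx'
    have h4 : 4 * C ≤ g := (Nat.le_ceil _).trans (by exact_mod_cast e2)
    calc C * x / Real.log x ^ A ≤ g / 4 * (2 * (a * Q)) / (g : ℝ) ^ A := by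
          gcongr; linarith
      _ = _ := by ring
  have p1 := (abs_le.1 (hE _ hx2 (hxy.trans hy1) l1)).2
  have p2 := (abs_le.1 (hE _ (hx2.trans hxy) hy1 l2)).1
  have p3 := Chebyshev.theta_le_psi ((a * n1 : ℕ) : ℝ)
  have p4 := Chebyshev.psi_sub_theta_le (x := ((a * n2 : ℕ) : ℝ))
    (by exact_mod_cast (by omega : 1 ≤ a * n2))
  have p5 : √((a * n2 : ℕ) : ℝ) ≤ 2 * Q := by
    rw [Real.sqrt_le_left (by positivity)]
    have : ((a * n2 : ℕ) : ℝ) ≤ 4 * Q ^ 2 := by exact_mod_cast hy2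
    linarith
  have p6 : 8 * (Q : ℝ) ≤ a * Q / (g : ℝ) ^ A := by
    rw [le_div_iff₀ (by positivity)]
    have h3 : 8 * (g : ℝ) ^ A ≤ a := by exact_mod_cast e1.trans (hQg.trans ha)
    calc 8 * (Q : ℝ) * g ^ A = 8 * g ^ A * Q := by ring
      _ ≤ _ := by gcongr
  have p7 : 2 * √((a * n2 : ℕ) : ℝ) * Real.log (a * n2 : ℕ) ≤ g * (a * Q / (g : ℝ) ^ A) := by
    calc _ ≤ 2 * (2 * Q) * (2 * g : ℝ) := by gcongr
      _ = g * (8 * Q) := by ring
      _ ≤ _ := by gcongr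
  rw [sub_le_iff_le_add, div_le_iff₀ (by positivity)]
  have p8 : (a : ℝ) * (n2 - n1) = ((a * n2 : ℕ) : ℝ) - ((a * n1 : ℕ) : ℝ) := by push_cast; ring
  rw [p8]
  linarith

end Pool.Agent.P.MP_746f10_nt.AP
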