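import Pool.Agent.P.MP_746f10_nt.AP.Defs
import Pool.Agent.P.MP_0ad054_nt.An.LS

/-! Removal of the large coefficients of a bounded function on a prime field. -/

namespace Pool.Agent.P.MP_746f10_nt.AP

open Finset ComplexConjugate

namespace SplitP

variable {a : ℕ} [Fact a.Prime]

/-- the scalar product -/
noncomputable def ip (g h : ZMod a → ℂ) : ℂ := ∑ y, g y * conj (h y)

theorem norm_psi (x : ZMod a) : ‖ZMod.stdAddChar x‖ = 1 := AddChar.norm_apply _ _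

theorem norm_ch (χ : DirichletCharacter ℂ a) (ξ y : ZMod a) : ‖ch χ ξ y‖ ≤ 1 := by
  rw [ch, norm_mul, norm_psi, mul_one]
  exact χ.norm_le_one y

theorem ch_zero (χ : DirichletCharacter ℂ a) (ξ : ZMod a) : ch χ ξ 0 = 0 := by
  rw [ch, χ.map_nonunit not_isUnit_zero, zero_mul]

theorem conj_ch (χ : DirichletCharacter ℂ a) (ξ y : ZMod a) :
    conj (ch χ ξ y) = χ⁻¹ y * ZMod.stdAddChar (-(ξ * y)) := by
  rw [ch, map_mul, AddChar.map_neg_eq_conj, ← MulChar.star_apply']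
  rfl

theorem ip_ch (χ χ' : DirichletCharacter ℂ a) (ξ ξ' : ZMod a) :
    ip (ch χ ξ) (ch χ' ξ') = gaussSum (χ * χ'⁻¹) (ZMod.stdAddChar.mulShift (ξ - ξ')) := by
  refine sum_congr rfl fun y _ => ?_
  rw [conj_ch, ch, MulChar.mul_apply, AddChar.mulShift_apply, sub_mul, sub_eq_add_neg,
    AddChar.map_add_eq_mul]
  ring

theorem ip_same (χ χ' : DirichletCharacter ℂ a) (ξ : ZMod a) :
    ip (ch χ ξ) (ch χ' ξ) = if χ = χ' then (a : ℂ) - 1 else 0 := by
  rw [ip_ch, sub_self, AddChar.mulShift_zero]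
  simp only [gaussSum, AddChar.one_apply, mul_one]
  split_ifs with h
  · rw [h, mul_inv_cancel, MulChar.sum_one_eq_card_units, ZMod.card_units,
      Nat.cast_pred (Fact.out : a.Prime).pos]
  · exact MulChar.sum_eq_zero_of_ne_one fun e => h (mul_inv_eq_one.1 e)

theorem ip_ne (χ χ' : DirichletCharacter ℂ a) {ξ ξ' : ZMod a} (h : ξ ≠ ξ') :
    ‖ip (ch χ ξ) (ch χ' ξ')‖ ≤ √a := by
  have h1 : ZMod.stdAddChar.mulShift (ξ - ξ') ≠ 1 :=
    ZMod.isPrimitive_stdAddChar a (sub_ne_zero.2 h)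
  rw [ip_ch]
  refine Real.le_sqrt_of_sq_le ?_
  by_cases h2 : χ * χ'⁻¹ = 1
  · rw [h2, gaussSum_one_left h1, norm_neg, norm_one, one_pow]
    exact_mod_cast (Fact.out : a.Prime).pos
  · have h3 := gaussSum_mul_gaussSum_eq_card h2 (AddChar.IsPrimitive.of_ne_one h1)
    rw [← star_gaussSum_eq, ZMod.card] at h3
    have h4 := congrArg norm h3
    rw [norm_mul, norm_star, Complex.norm_natCast, ← sq] at h4
    exact h4.le

theorem ip_self (g : ZMod a → ℂ) : ip g g = ((∑ y, ‖g y‖ ^ 2 : ℝ) : ℂ) := by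
  rw [Complex.ofReal_sum]
  exact sum_congr rfl fun y _ => by rw [Complex.mul_conj', Complex.ofReal_pow]

theorem ip_conj (g h : ZMod a → ℂ) : conj (ip g h) = ip h g := by
  rw [ip, map_sum]
  exact sum_congr rfl fun y _ => by rw [map_mul, Complex.conj_conj, mul_comm]

theorem ip_left {ι : Type} (L : Finset ι) (c : ι → ℂ) (g : ι → ZMod a → ℂ) (v h : ZMod a → ℂ) :
    ip (fun y => v y - ∑ φ ∈ L, c φ * g φ y) h = ip v h - ∑ φ ∈ L, c φ * ip (g φ) h := by
  simp only [ip, sub_mul, sum_sub_distrib, sum_mul, mul_sum, mul_assoc]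
  rw [sum_comm]

theorem l2_le {v : ZMod a → ℂ} (hv : ∀ y, ‖v y‖ ≤ 1) (h0 : v 0 = 0) :
    ∑ y, ‖v y‖ ^ 2 ≤ (a : ℝ) - 1 := by
  rw [← add_sum_erase _ _ (mem_univ (0 : ZMod a)), h0, norm_zero, zero_pow two_ne_zero, zero_add]
  refine (sum_le_card_nsmul _ _ 1 fun y _ => pow_le_one₀ (norm_nonneg _) (hv y)).trans ?_
  rw [card_erase_of_mem (mem_univ _), card_univ, ZMod.card, nsmul_eq_mul, mul_one,
    Nat.cast_pred (Fact.out : a.Prime).pos]

theorem bessel {v : ZMod a → ℂ} (hv : ∀ y, ‖v y‖ ≤ 1) (h0 : v 0 = 0) (ξ : ZMod a) :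
    ∑ χ : DirichletCharacter ℂ a, ‖ip v (ch χ ξ)‖ ^ 2 ≤ ((a : ℝ) - 1) ^ 2 := by
  have h1 := MP_0ad054_nt.An.LSP.parseval fun y => v y * ZMod.stdAddChar (-(ξ * y))
  have h2 : ∀ χ : DirichletCharacter ℂ a,
      ip v (ch χ ξ) = ∑ b, χ⁻¹ b * (v b * ZMod.stdAddChar (-(ξ * b))) := fun χ =>
    sum_congr rfl fun y _ => by rw [conj_ch]; ring
  have h3 : (1 : ℝ) ≤ a := by exact_mod_cast (Fact.out : a.Prime).pos
  simp only [h2]
  rw [h1, Nat.totient_prime Fact.out, Nat.cast_pred (Fact.out : a.Prime).pos, sq]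
  refine mul_le_mul_of_nonneg_left (le_trans ?_ (l2_le hv h0)) (by linarith)
  simp only [norm_mul, norm_psi, mul_one]
  exact sum_le_sum_of_subset_of_nonneg (subset_univ _) fun _ _ _ => sq_nonneg _

open Classical in
theorem gram (L : Finset (DirichletCharacter ℂ a × ZMod a))
    (c : DirichletCharacter ℂ a × ZMod a → ℂ) (ψ : DirichletCharacter ℂ a × ZMod a) :
    ‖∑ φ ∈ L, c φ * ip (ch φ.1 φ.2) (ch ψ.1 ψ.2) - (if ψ ∈ L then c ψ * (a - 1) else 0)‖ ≤
      √a * ∑ φ ∈ L, ‖c φ‖ := by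
  rw [← sum_ite_eq' L ψ fun φ => c φ * (a - 1), ← sum_sub_distrib, mul_sum]
  refine norm_sum_le_of_le _ fun φ _ => ?_
  by_cases h : φ.2 = ψ.2
  · have e : φ = ψ ↔ φ.1 = ψ.1 := ⟨fun e => by rw [e], fun e => Prod.ext e h⟩
    rw [h, ip_same]
    simp only [e]
    split_ifs
    · rw [sub_self, norm_zero]; positivity
    · rw [mul_zero, sub_self, norm_zero]; positivity
  · rw [if_neg fun e => h (by rw [e]), sub_zero, norm_mul, mul_comm]
    exact mul_le_mul_of_nonneg_right (ip_ne _ _ h) (norm_nonneg _)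

end SplitP

open SplitP in
theorem pSplit : S_Split := by
  classical
  intro a _ v Ξ τ hτ hτ1 hv h0 hΞ
  have ha : (2 : ℝ) ≤ a := by exact_mod_cast (Fact.out : a.Prime).two_le
  have hn : (0 : ℝ) < (a : ℝ) - 1 := by linarith
  have hnC : (a : ℂ) - 1 = ((a - 1 : ℝ) : ℂ) := by push_cast; rfl
  have hn0 : (a : ℂ) - 1 ≠ 0 := by rw [hnC]; exact_mod_cast hn.ne'
  have hnn : ‖(a : ℂ) - 1‖ = (a : ℝ) - 1 := by rw [hnC, Complex.norm_real, Real.norm_of_nonneg hn.le]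
  let c : DirichletCharacter ℂ a × ZMod a → ℂ := fun φ => ip v (ch φ.1 φ.2) / (a - 1)
  have hc : ∀ φ, c φ * (a - 1) = ip v (ch φ.1 φ.2) := fun φ => div_mul_cancel₀ _ hn0
  let L := (univ ×ˢ Ξ).filter fun φ => τ ≤ ‖c φ‖
  have hB : ∀ ξ, ∑ χ : DirichletCharacter ℂ a, ‖c (χ, ξ)‖ ^ 2 ≤ 1 := fun ξ => by
    simp only [c, norm_div, div_pow, hnn]
    rw [← sum_div, div_le_one (by positivity)]
    exact bessel hv h0 ξ
  have hc1 : ∀ φ, ‖c φ‖ ≤ 1 := fun φ => by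
    have := (single_le_sum (f := fun χ => ‖c (χ, φ.2)‖ ^ 2) (fun _ _ => sq_nonneg _)
      (mem_univ φ.1)).trans (hB φ.2)
    exact (sq_le_one_iff₀ (norm_nonneg _)).1 this
  set S := ∑ φ ∈ L, ‖c φ‖ ^ 2 with hS
  set T := ∑ φ ∈ L, ‖c φ‖ with hT
  have hS0 : 0 ≤ S := sum_nonneg fun _ _ => sq_nonneg _
  have hT0 : 0 ≤ T := sum_nonneg fun _ _ => norm_nonneg _
  have hSΞ : S ≤ #Ξ := by
    refine (sum_le_sum_of_subset_of_nonneg (filter_subset _ _) fun _ _ _ => sq_nonneg _).trans ?_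
    rw [sum_product_right]
    simpa using sum_le_card_nsmul Ξ _ 1 fun ξ _ => hB ξ
  have hTS : τ * T ≤ S := by
    rw [hT, mul_sum]
    refine sum_le_sum fun φ hφ => ?_
    rw [sq]
    exact mul_le_mul_of_nonneg_right (mem_filter.1 hφ).2 (norm_nonneg _)
  have hLS : (#L : ℝ) * τ ^ 2 ≤ S := by
    rw [← nsmul_eq_mul]
    exact card_nsmul_le_sum _ _ _ fun φ hφ => pow_le_pow_left₀ hτ.le (mem_filter.1 hφ).2 2
  have hs0 : 0 ≤ √(a : ℝ) := Real.sqrt_nonneg _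
  have hs : √(a : ℝ) * √(a : ℝ) = a := Real.mul_self_sqrt (by linarith)
  have hT1 : 4 * T ≤ τ ^ 2 * √a := by
    refine le_of_mul_le_mul_left ?_ hτ
    nlinarith
  have hT2 : 4 * (√a * T) ≤ τ ^ 2 * a := by nlinarith
  let f : ZMod a → ℂ := fun y => v y - ∑ φ ∈ L, c φ * ch φ.1 φ.2 y
  have hf : ∀ ψ : DirichletCharacter ℂ a × ZMod a,
      ‖ip f (ch ψ.1 ψ.2) - (if ψ ∈ L then 0 else c ψ * (a - 1))‖ ≤ √a * T := fun ψ => by
    refine le_of_eq_of_le ?_ (gram L c ψ)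
    rw [← norm_neg, ip_left, ← hc]
    congr 1
    split_ifs <;> ring
  refine ⟨L, c, f, fun φ hφ => ⟨(mem_product.1 (mem_filter.1 hφ).1).2, hc1 φ⟩, ?_,
    fun y => (sub_add_cancel _ _).symm, ?_, ?_, fun y => ?_, fun χ ξ hξ => ?_⟩
  · rw [le_div_iff₀ (by positivity)]
    exact hLS.trans hSΞ
  · simp only [f, h0, ch_zero, mul_zero, sum_const_zero, sub_zero]
  · have e1 : ip f f = ip v f - ∑ φ ∈ L, c φ * ip (ch φ.1 φ.2) f := ip_left L c _ v f
    have e2 : ip f v = ip v v - ∑ φ ∈ L, c φ * ip (ch φ.1 φ.2) v := ip_left L c _ v v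
    have e3 : ∑ φ ∈ L, c φ * ip (ch φ.1 φ.2) v = ((S * (a - 1) : ℝ) : ℂ) := by
      rw [hS, sum_mul, Complex.ofReal_sum]
      refine sum_congr rfl fun φ _ => ?_
      rw [← ip_conj, ← hc, map_mul, hnC, Complex.conj_ofReal, ← mul_assoc, Complex.mul_conj']
      push_cast
      rfl
    have e4 : ‖∑ φ ∈ L, c φ * ip (ch φ.1 φ.2) f‖ ≤ T * (√a * T) := by
      rw [hT, sum_mul]
      refine norm_sum_le_of_le _ fun φ hφ => ?_
      have := hf φ
      rw [if_pos hφ, sub_zero] at this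
      rw [norm_mul, ← ip_conj, Complex.norm_conj]
      exact mul_le_mul_of_nonneg_left this (norm_nonneg _)
    rw [e3, ip_self, ← Complex.ofReal_sub] at e2
    rw [← ip_conj f v, e2, Complex.conj_ofReal, ip_self] at e1
    have e5 := congrArg Complex.re e1
    rw [Complex.sub_re, Complex.ofReal_re, Complex.ofReal_re] at e5
    have e6 := (abs_le.1 ((Complex.abs_re_le_norm _).trans e4)).1
    have e7 := l2_le hv h0
    have e8 : 4 * (T * (√a * T)) ≤ S * a := by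
      calc 4 * (T * (√a * T)) = T * (4 * (√a * T)) := by ring
        _ ≤ T * (τ ^ 2 * a) := mul_le_mul_of_nonneg_left hT2 hT0
        _ = τ * T * (τ * a) := by ring
        _ ≤ S * (1 * a) := by gcongr
        _ = S * a := by ring
    nlinarith
  · refine (norm_sub_le _ _).trans (add_le_add (hv y) ?_)
    refine (norm_sum_le_of_le _ (n := fun _ => (1 : ℝ)) fun φ _ => ?_).trans (by simp)
    rw [norm_mul]
    exact mul_le_one₀ (hc1 φ) (norm_nonneg _) (norm_ch _ _ _)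
  · have e1 := hf (χ, ξ)
    have e2 : ‖if (χ, ξ) ∈ L then 0 else c (χ, ξ) * (a - 1)‖ ≤ τ * a := by
      split_ifs with h
      · rw [norm_zero]; positivity
      · have : ‖c (χ, ξ)‖ ≤ τ := le_of_not_ge fun h' =>
          h (mem_filter.2 ⟨mem_product.2 ⟨mem_univ _, hξ⟩, h'⟩)
        rw [norm_mul, hnn]
        gcongr
        linarith
    have e3 := norm_le_norm_add_norm_sub' (ip f (ch χ ξ))
      (if (χ, ξ) ∈ L then 0 else c (χ, ξ) * (a - 1))
    have e4 : τ ^ 2 * a ≤ τ * a := by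
      rw [sq, mul_assoc]
      exact mul_le_of_le_one_left (by positivity) hτ1
    have e5 : 0 ≤ τ * a := by positivity
    change ‖ip f (ch χ ξ)‖ ≤ _
    dsimp only at e1
    linarith

end Pool.Agent.P.MP_746f10_nt.AP
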