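import Pool.Agent.P.MP_746f10_nt.AP.Base

/-! The sifted truncated Moebius sum as a divisor sum of small level. -/

namespace Pool.Agent.P.MP_746f10_nt.AP

open Finset Filter
open scoped ArithmeticFunction.Moebius

namespace TAP

lemma sum_dd_mul (N : ℕ) {t : ℕ} (ht : 1 ≤ t) (F : ℕ → ℝ) :
    ∑ m ∈ Icc 1 N, dd m t * F m = ∑ l ∈ Icc 1 (N / t), F (t * l) := by
  have e : ∑ m ∈ Icc 1 N, dd m t * F m = ∑ m ∈ (Icc 1 N).filter (t ∣ ·), F m := by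
    rw [sum_filter]
    refine sum_congr rfl fun m _ => ?_
    unfold dd
    split_ifs <;> simp
  rw [e]
  refine sum_nbij' (fun m => m / t) (fun l => t * l) ?_ ?_ ?_ ?_ ?_
  · intro m hm
    obtain ⟨h1, h2⟩ := mem_filter.1 hm
    have h3 := mem_Icc.1 h1
    exact mem_Icc.2 ⟨Nat.div_pos (Nat.le_of_dvd (by omega) h2) ht, Nat.div_le_div_right h3.2⟩
  · intro l hl
    have h3 := mem_Icc.1 hl
    refine mem_filter.2 ⟨mem_Icc.2 ⟨Nat.mul_pos ht h3.1, ?_⟩, dvd_mul_right _ _⟩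
    rw [mul_comm]
    exact (Nat.le_div_iff_mul_le ht).1 h3.2
  · intro m hm
    exact Nat.mul_div_cancel' (mem_filter.1 hm).2
  · intro l _
    exact Nat.mul_div_cancel_left l ht
  · intro m hm
    rw [Nat.mul_div_cancel' (mem_filter.1 hm).2]

lemma dd_mul_rough {z d p : ℕ} (hd : rough z d) (hp : p.Prime) (hz : p ≤ z) (l : ℕ) :
    dd (d * l) p = dd l p := by
  have h : ¬ p ∣ d := fun h => absurd (hd p hp h) (by omega)
  unfold dd
  simp only [hp.dvd_mul, h, false_or]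

lemma mem_of_dvd_prod {w z p : ℕ} {T : Finset ℕ} (hT : T ⊆ PP w z) (hp : p.Prime)
    (h : p ∣ ∏ q ∈ T, q) : p ∈ T := by
  obtain ⟨q, hq, h1⟩ := (Prime.dvd_finsetProd_iff hp.prime _).1 h
  rwa [(Nat.prime_dvd_prime_iff_eq hp (PP_prime (hT hq))).1 h1]

lemma rough_prod {w z : ℕ} {T : Finset ℕ} (hT : T ⊆ PP w z) : rough w (∏ q ∈ T, q) :=
  fun _ hp h => (mem_PP.1 (hT (mem_of_dvd_prod hT hp h))).1

lemma prod_pos' {w z : ℕ} {T : Finset ℕ} (hT : T ⊆ PP w z) : 1 ≤ ∏ q ∈ T, q :=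
  prod_pos fun _ hp => (PP_prime (hT hp)).pos

lemma dd_split {w z d : ℕ} {T : Finset ℕ} (hT : T ⊆ PP w z) (hd : rough z d) (m : ℕ) :
    dd m (d * ∏ q ∈ T, q) = dd m d * ∏ q ∈ T, dd m q := by
  have hc : Nat.Coprime d (∏ q ∈ T, q) := Nat.coprime_of_dvd fun p hp h1 h2 => by
    have := hd p hp h1
    have := (mem_PP.1 (hT (mem_of_dvd_prod hT hp h2))).2.1
    omega
  rw [prod_dd fun p hp => PP_prime (hT hp)]
  unfold dd
  by_cases h1 : d ∣ m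
  · by_cases h2 : ∏ q ∈ T, q ∣ m
    · simp [h1, h2, hc.mul_dvd_of_dvd_of_dvd h1 h2]
    · rw [if_neg h2, if_neg fun h => h2 ((dvd_mul_left _ _).trans h), mul_zero]
  · rw [if_neg h1, if_neg fun h => h1 ((dvd_mul_right _ _).trans h), zero_mul]

lemma sub_of_eq {w z d d' : ℕ} {T T' : Finset ℕ} (hT : T ⊆ PP w z) (hT' : T' ⊆ PP w z)
    (hd : rough z d') (e : d * ∏ q ∈ T, q = d' * ∏ q ∈ T', q) : T ⊆ T' := by
  intro p hp
  have h0 := mem_PP.1 (hT hp)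
  have h1 : p ∣ d' * ∏ q ∈ T', q := e ▸ (dvd_prod_of_mem _ hp).mul_left _
  rcases h0.2.2.dvd_mul.1 h1 with h | h
  · exact absurd (hd p h0.2.2 h) (by omega)
  · exact mem_of_dvd_prod hT' h0.2.2 h

open Classical in
/-- the rough numbers up to `D` -/
noncomputable def AA (z D : ℕ) : Finset ℕ := (Icc 1 D).filter (rough z)

lemma mem_AA {z D d : ℕ} : d ∈ AA z D ↔ (1 ≤ d ∧ d ≤ D) ∧ rough z d := by
  simp only [AA, mem_filter, mem_Icc]

variable {w z D3 : ℕ} {η : ℝ}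

/-- the weights -/
noncomputable def lam (s : SieveW (PP w z) D3 1 η) (D n : ℕ) : ℝ :=
  ∑ x ∈ (AA z D ×ˢ (PP w z).powerset).filter (fun x => x.1 * ∏ q ∈ x.2, q = n),
    (μ x.1 : ℝ) * s.up x.2

/-- the error function -/
noncomputable def EE (s : SieveW (PP w z) D3 1 η) (m : ℕ) : ℝ :=
  rr w m * (s.U (dd m) - ∏ p ∈ PP w z, (1 - dd m p))

lemma abs_mu (d : ℕ) : |(μ d : ℝ)| ≤ 1 := by
  exact_mod_cast ArithmeticFunction.abs_moebius_le_one (n := d)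

lemma abs_lam (s : SieveW (PP w z) D3 1 η) (D n : ℕ) : |lam s D n| ≤ 1 := by
  unfold lam
  refine (abs_sum_le_sum_abs _ _).trans ((sum_le_card_nsmul _ _ 1 fun x _ => ?_).trans ?_)
  · rw [abs_mul]
    exact mul_le_one₀ (abs_mu _) (abs_nonneg _) (s.abs_up _)
  · rw [nsmul_eq_mul, mul_one, Nat.cast_le_one, card_le_one]
    intro x hx y hy
    obtain ⟨hx1, hx2⟩ := mem_filter.1 hx
    obtain ⟨hy1, hy2⟩ := mem_filter.1 hy
    obtain ⟨a1, a2⟩ := mem_product.1 hx1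
    obtain ⟨b1, b2⟩ := mem_product.1 hy1
    rw [mem_powerset] at a2 b2
    have e := hx2.trans hy2.symm
    have hT : x.2 = y.2 := Subset.antisymm (sub_of_eq a2 b2 (mem_AA.1 b1).2 e)
      (sub_of_eq b2 a2 (mem_AA.1 a1).2 e.symm)
    rw [hT] at e
    exact Prod.ext (Nat.eq_of_mul_eq_mul_right (prod_pos' b2) e) hT

lemma rough_lam (s : SieveW (PP w z) D3 1 η) (hwz : w ≤ z) {D n : ℕ} (h : lam s D n ≠ 0) :
    rough w n := by
  obtain ⟨x, hx, -⟩ := exists_ne_zero_of_sum_ne_zero h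
  obtain ⟨hx1, rfl⟩ := mem_filter.1 hx
  obtain ⟨a1, a2⟩ := mem_product.1 hx1
  exact rough_mul.2 ⟨rough_anti hwz (mem_AA.1 a1).2, rough_prod (mem_powerset.1 a2)⟩

lemma sum_lam (s : SieveW (PP w z) D3 1 η) (D m : ℕ) :
    ∑ g ∈ Icc 1 (D * D3), lam s D g * dd m g = (∑ d ∈ AA z D, (μ d : ℝ) * dd m d) * s.U (dd m) := by
  unfold lam SieveW.U
  rw [sum_mul_sum, ← sum_product']
  simp_rw [sum_mul, sum_filter]
  rw [sum_comm]
  refine sum_congr rfl fun x hx => ?_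
  obtain ⟨a1, a2⟩ := mem_product.1 hx
  rw [mem_powerset] at a2
  obtain ⟨a3, a4⟩ := mem_AA.1 a1
  rw [sum_ite_eq]
  split_ifs with h
  · rw [dd_split a2 a4]; ring
  · by_cases h0 : s.up x.2 = 0
    · rw [h0]; ring
    · exact absurd (mem_Icc.2 ⟨Nat.mul_pos a3.1 (prod_pos' a2),
        Nat.mul_le_mul a3.2 (s.supp_up _ a2 h0)⟩) h

lemma rr_sigD (z Q : ℕ) {m : ℕ} (hm : 1 ≤ m) :
    rr z m * sigD Q m = rr z m * ∑ d ∈ AA z (DD Q), (μ d : ℝ) * dd m d := by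
  by_cases h : rr z m = 0
  · rw [h, zero_mul, zero_mul]
  have hr := rough_of_rr h
  congr 1
  unfold sigD dd
  simp_rw [mul_ite, mul_one, mul_zero]
  rw [← sum_filter]
  refine sum_congr ?_ fun _ _ => rfl
  ext d
  simp only [mem_filter, Nat.mem_divisors, mem_AA]
  exact ⟨fun h => ⟨⟨⟨Nat.pos_of_dvd_of_pos h.1.1 hm, h.2⟩,
    fun p hp hd => hr p hp (hd.trans h.1.1)⟩, h.1.1⟩, fun h => ⟨⟨h.2, by omega⟩, h.1.1.2⟩⟩

lemma EE_nonneg (s : SieveW (PP w z) D3 1 η) (m : ℕ) : 0 ≤ EE s m :=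
  mul_nonneg (rr_bd _ _).1 (sub_nonneg.2 (s.le_up _ fun p _ => dd_bd m p))

lemma EE_eq (s : SieveW (PP w z) D3 1 η) (hwz : w ≤ z) (m : ℕ) :
    EE s m = rr w m * s.U (dd m) - rr z m := by
  rw [EE, rr_eq_mul_prod hwz, mul_sub]

lemma EE_mul (s : SieveW (PP w z) D3 1 η) (hwz : w ≤ z) {d : ℕ} (hd : rough z d) (l : ℕ) :
    EE s (d * l) = EE s l := by
  rw [EE_eq s hwz, EE_eq s hwz, rr_mul, rr_mul, rr_of_rough hd, rr_of_rough (rough_anti hwz hd),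
    one_mul, one_mul]
  congr 2
  refine sum_congr rfl fun T hT => ?_
  congr 1
  refine prod_congr rfl fun p hp => ?_
  have := mem_PP.1 (mem_powerset.1 hT hp)
  exact dd_mul_rough hd this.2.2 this.2.1 l

lemma pointwise (s : SieveW (PP w z) D3 1 η) (hwz : w ≤ z) (Q : ℕ) {m : ℕ} (hm : 1 ≤ m) :
    |rr z m * sigD Q m - rr w m * ∑ g ∈ Icc 1 (DD Q * D3), lam s (DD Q) g * dd m g| ≤
      ∑ d ∈ AA z (DD Q), dd m d * EE s m := by
  rw [rr_sigD z Q hm, sum_lam, ← sum_mul, abs_sub_comm, mul_left_comm, mul_comm (rr z m), ← mul_sub,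
    ← EE_eq s hwz, abs_mul, abs_of_nonneg (EE_nonneg s m)]
  refine mul_le_mul_of_nonneg_right ((abs_sum_le_sum_abs _ _).trans (sum_le_sum fun d _ => ?_))
    (EE_nonneg s m)
  rw [abs_mul, abs_of_nonneg (dd_bd m d).1]
  exact mul_le_of_le_one_left (dd_bd m d).1 (abs_mu d)

lemma sum_U_le (s : SieveW (PP w z) D3 1 η) (hwz : w ≤ z) {δ W : ℝ} (hδ : 0 ≤ δ) (hW : 0 ≤ W)
    (hI : ∀ y : ℕ, |∑ m ∈ Icc 1 y, rr w m - y * VV w| ≤ y * VV w * δ + W) (Y : ℕ) :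
    ∑ l ∈ Icc 1 Y, rr w l * s.U (dd l) ≤
      (1 + η) * (Y * VV z) + D3 * (1 + W) + Y * δ * Th w z := by
  have hP : ∀ p ∈ PP w z, p.Prime := fun p hp => PP_prime hp
  have hV := VV_pos w
  have hV1 := VV_le_one w
  have h1 : ∑ l ∈ Icc 1 Y, rr w l * s.U (dd l) =
      ∑ T ∈ (PP w z).powerset, s.up T * ∑ l ∈ Icc 1 (Y / ∏ q ∈ T, q), rr w l := by
    unfold SieveW.U
    simp_rw [mul_sum (s := (PP w z).powerset)]
    rw [sum_comm]
    refine sum_congr rfl fun T hT => ?_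
    rw [mem_powerset] at hT
    have e : ∑ l ∈ Icc 1 (Y / ∏ q ∈ T, q), rr w l =
        ∑ l ∈ Icc 1 (Y / ∏ q ∈ T, q), rr w ((∏ q ∈ T, q) * l) :=
      sum_congr rfl fun l _ => by rw [rr_mul, rr_of_rough (rough_prod hT), one_mul]
    rw [e, ← sum_dd_mul Y (prod_pos' hT), mul_sum]
    refine sum_congr rfl fun l _ => ?_
    rw [prod_dd fun p hp => hP p (hT hp)]
    ring
  have h2 : ∀ T ∈ (PP w z).powerset, s.up T * ∑ l ∈ Icc 1 (Y / ∏ q ∈ T, q), rr w l ≤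
      Y * VV w * (s.up T * ∏ p ∈ T, 1 / (p : ℝ)) + (if ∏ q ∈ T, q ≤ D3 then 1 + W else 0) +
        Y * δ * ∏ p ∈ T, 1 / (p : ℝ) := by
    intro T hT
    rw [mem_powerset] at hT
    have ht := prod_pos' hT
    have e : ∏ p ∈ T, 1 / (p : ℝ) = 1 / ((∏ q ∈ T, q : ℕ) : ℝ) := by
      rw [prod_div_distrib, prod_const_one, Nat.cast_prod]
    rw [e]
    generalize hs : s.up T = c
    have hc : |c| ≤ 1 := hs ▸ s.abs_up T
    have hc0 : c ≠ 0 → ∏ q ∈ T, q ≤ D3 := fun h => s.supp_up T hT (hs ▸ h)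
    generalize ∏ q ∈ T, q = t at ht hc0
    have ht' : (0 : ℝ) < t := by exact_mod_cast ht
    by_cases h0 : c = 0
    · rw [h0]
      have : (0 : ℝ) ≤ if t ≤ D3 then 1 + W else 0 := by split_ifs <;> positivity
      have : (0 : ℝ) ≤ Y * δ * (1 / t) := by positivity
      linarith
    rw [if_pos (hc0 h0)]
    have a1 : ((Y / t : ℕ) : ℝ) ≤ Y * (1 / t) := by rw [mul_one_div]; exact Nat.cast_div_le
    have a2 : (Y : ℝ) * (1 / t) ≤ (Y / t : ℕ) + 1 := by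
      rw [mul_one_div, div_le_iff₀ ht']
      have := Nat.lt_div_mul_add (a := Y) ht
      have : (Y : ℝ) ≤ (Y / t : ℕ) * t + t := by exact_mod_cast this.le
      linarith
    have a3 := hI (Y / t)
    generalize ∑ l ∈ Icc 1 (Y / t), rr w l = S at a3 ⊢
    have y0 : (0 : ℝ) ≤ (Y / t : ℕ) := Nat.cast_nonneg _
    generalize ((Y / t : ℕ) : ℝ) = y at a1 a2 a3 y0
    have a4 : |S - Y * (1 / t) * VV w| ≤ 1 + W + Y * δ * (1 / t) := by
      have b1 : y * VV w * δ ≤ Y * δ * (1 / t) := by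
        calc y * VV w * δ ≤ Y * (1 / t) * 1 * δ := by gcongr
          _ = _ := by ring
      have b2 : (Y * (1 / t) - y) * VV w ≤ 1 := mul_le_one₀ (by linarith) hV.le hV1
      have b3 : 0 ≤ (Y * (1 / t) - y) * VV w := mul_nonneg (by linarith) hV.le
      rw [abs_le] at a3 ⊢
      constructor <;> nlinarith [a3.1, a3.2]
    have a5 : c * (S - Y * (1 / t) * VV w) ≤ 1 + W + Y * δ * (1 / t) := by
      refine (le_abs_self _).trans ?_
      rw [abs_mul]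
      exact (mul_le_of_le_one_left (abs_nonneg _) hc).trans a4
    linarith
  rw [h1]
  refine (sum_le_sum h2).trans ?_
  rw [sum_add_distrib, sum_add_distrib, ← mul_sum, ← mul_sum, ← sum_filter, sum_const,
    nsmul_eq_mul, ← prod_one_add]
  have c1 := s.up_le (fun p => 1 / (p : ℝ)) fun p hp => ⟨by positivity, le_rfl,
    (one_div_le_one_div_of_le (by norm_num) (PP_two hp)).trans (by norm_num)⟩
  have c2 : VV z = VV w * ∏ p ∈ PP w z, (1 - 1 / (p : ℝ)) := prod_PP_split (Nat.zero_le w) hwz _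
  have c3 : (((PP w z).powerset.filter fun T => ∏ q ∈ T, q ≤ D3).card : ℝ) ≤ D3 := by
    exact_mod_cast card_level_le hP D3
  have c4 := prod_one_add_le_Th w z 1 (x := fun p => 1 / (p : ℝ)) fun p _ =>
    ⟨by positivity, by simp⟩
  rw [pow_one] at c4
  have c5 := mul_le_mul_of_nonneg_left c1 (by positivity : 0 ≤ Y * VV w)
  have c6 := mul_le_mul_of_nonneg_right c3 (by positivity : 0 ≤ 1 + W)
  have c7 := mul_le_mul_of_nonneg_left c4 (by positivity : 0 ≤ Y * δ)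
  rw [c2]
  linarith

lemma sum_err_le (s : SieveW (PP w z) D3 1 η) (hwz : w ≤ z) (hη : 0 ≤ η) {δ W W' : ℝ} (hδ : 0 ≤ δ)
    (hW : 0 ≤ W) (hW' : 0 ≤ W')
    (hI : ∀ y : ℕ, |∑ m ∈ Icc 1 y, rr w m - y * VV w| ≤ y * VV w * δ + W)
    (hI' : ∀ y : ℕ, |∑ m ∈ Icc 1 y, rr z m - y * VV z| ≤ y * VV z * η + W')
    {D Z : ℕ} (hD : D ≤ Z) (N : ℕ) :
    ∑ m ∈ Icc 1 N, ∑ d ∈ AA z D, dd m d * EE s m ≤
      N * (2 * η * VV z + δ * Th w z) * Th z Z + D * (D3 * (1 + W) + W') := by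
  have hV := VV_pos z
  have hT := one_le_Th w z
  have h1 : ∀ d ∈ AA z D, ∑ m ∈ Icc 1 N, dd m d * EE s m ≤
      N * (2 * η * VV z + δ * Th w z) * (d : ℝ)⁻¹ + (D3 * (1 + W) + W') := by
    intro d hd
    obtain ⟨a1, a2⟩ := mem_AA.1 hd
    rw [sum_dd_mul N a1.1]
    simp_rw [EE_mul s hwz a2, EE_eq s hwz]
    rw [sum_sub_distrib]
    have b1 := sum_U_le s hwz hδ hW hI (N / d)
    have b2 := (abs_le.1 (hI' (N / d))).1
    have b3 : ((N / d : ℕ) : ℝ) ≤ N * (d : ℝ)⁻¹ := Nat.cast_div_le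
    have b4 := mul_le_mul_of_nonneg_right b3 (by positivity : 0 ≤ 2 * η * VV z + δ * Th w z)
    linarith
  rw [sum_comm]
  refine (sum_le_sum h1).trans ?_
  rw [sum_add_distrib, ← mul_sum, sum_const, nsmul_eq_mul]
  have h2 : ∑ d ∈ AA z D, (d : ℝ)⁻¹ ≤ Th z Z := by
    refine (sum_inv_factored (U := PP z Z) (fun p hp => PP_prime hp) _ fun d hd => ?_).trans
      (le_of_eq ?_)
    · obtain ⟨a1, a2⟩ := mem_AA.1 hd
      refine Nat.mem_factoredNumbers'.2 fun p hp h => mem_PP.2 ⟨a2 p hp h, ?_, hp⟩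
      exact (Nat.le_of_dvd a1.1 h).trans (a1.2.trans hD)
    · simp only [Th, one_div]
  have h3 : ((AA z D).card : ℝ) ≤ D := by
    have : (AA z D).card ≤ (Icc 1 D).card := card_le_card fun d hd => mem_Icc.2 (mem_AA.1 hd).1
    rw [Nat.card_Icc] at this
    exact_mod_cast this
  gcongr

lemma ev_main (u Cw k c1 c2 : ℕ) (hu : 1 ≤ u) : ∀ᶠ g : ℕ in atTop,
    g ^ Cw ≤ 2 ^ (Nat.sqrt g / 100) ∧ k ≤ Nat.sqrt g ∧ c1 * g ^ 2 ≤ 2 ^ Nat.sqrt g ∧ 4 * u ≤ g ∧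
      g ^ Cw ≤ 2 ^ (g / u) ∧ 4 * Nat.sqrt g ≤ g ∧ c2 * g ≤ 2 ^ g := by
  filter_upwards [tendsto_sqrt.eventually (ev_pow_le_div (4 ^ Cw) (2 * Cw) 100 (by norm_num)),
    tendsto_sqrt.eventually_ge_atTop 1, tendsto_sqrt.eventually_ge_atTop k, ev_pow_le_sqrt c1 2,
    eventually_ge_atTop (4 * u), ev_pow_le_div 1 Cw u hu, ev_mul_sqrt_le 4,
    ev_pow_le_two_pow c2 1] with g h1 h2 h3 h4 h5 h6 h7 h8
  refine ⟨le_trans ?_ h1, h3, h4, h5, by simpa using h6, h7, by simpa using h8⟩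
  have h9 : g ≤ 4 * Nat.sqrt g ^ 2 := by
    have := Nat.lt_succ_sqrt g
    nlinarith
  rw [pow_mul, ← mul_pow]
  exact Nat.pow_le_pow_left h9 _

lemma final {ε u g Q V T T' η δ R : ℝ} (hε : 0 < ε) (hu : 0 < u) (hg : 0 < g) (hQ : 0 < Q)
    (hV0 : 0 ≤ V) (hT0 : 0 ≤ T) (hη : 0 ≤ η) (hδ : 0 ≤ δ)
    (hV : V ≤ 4 * u / g) (hT : T ≤ CM * g) (hT' : T' ≤ CM * u)
    (h1 : 96 * CM * u ^ 2 * η ≤ ε) (h2 : 12 * CM ^ 2 * u * g ^ 2 * δ ≤ ε) (h3 : 9 * g ≤ ε * Q)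
    (hR : R ≤ 3 * Q) : 4 * Q ^ 2 * (2 * η * V + δ * T) * T' + R ≤ ε * Q ^ 2 / g := by
  have hC := one_le_CM
  have a1 : 4 * Q ^ 2 * (2 * η * V + δ * T) * T' ≤
      4 * Q ^ 2 * (2 * η * (4 * u / g) + δ * (CM * g)) * (CM * u) :=
    (mul_le_mul_of_nonneg_left hT' (by positivity)).trans (by gcongr)
  have a2 : 4 * Q ^ 2 * (2 * η * (4 * u / g) + δ * (CM * g)) * (CM * u) =
      (96 * CM * u ^ 2 * η + 12 * CM ^ 2 * u * g ^ 2 * δ) * (Q ^ 2 / (3 * g)) := by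
    field_simp
    ring
  have a3 : (96 * CM * u ^ 2 * η + 12 * CM ^ 2 * u * g ^ 2 * δ) * (Q ^ 2 / (3 * g)) ≤
      (ε + ε) * (Q ^ 2 / (3 * g)) := by gcongr
  have a4 : 3 * Q ≤ ε * (Q ^ 2 / (3 * g)) := by
    rw [← mul_div_assoc, le_div_iff₀ (by positivity)]
    nlinarith [mul_le_mul_of_nonneg_left h3 hQ.le]
  have a5 : ε * Q ^ 2 / g = 3 * (ε * (Q ^ 2 / (3 * g))) := by field_simp
  linarith

end TAP

open TAP in
theorem pA (h : S_Int) : S_A := by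
  intro ε hε
  obtain ⟨k0, h⟩ := h
  have hI : ∀ mm w y : ℕ, 2 ≤ w → |∑ m ∈ Icc 1 y, rr w m - y * VV w| ≤
      y * VV w * (1 / 2 ^ mm) + (w : ℝ) ^ (4 * (k0 + mm) + 6) := fun mm w y hw => by
    have := h mm w 1 y hw
    rwa [add_comm 1 y, Finset.Ico_add_one_right_eq_Icc, ← mul_one_div] at this
  obtain ⟨k1, hs⟩ := exists_sieve 1 zero_le_one
  have hC := one_le_CM
  obtain ⟨c0, hc0⟩ := exists_nat_ge (96 * CM * (20 * (4 * (k0 + k1) + 10)) ^ 2 / ε)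
  obtain ⟨mm, hm1, hm2⟩ := ((ev_pow_le_two_pow c0 2).and (eventually_ge_atTop 1)).exists
  obtain ⟨u, hu⟩ : ∃ u : ℕ, u = 20 * (4 * (k0 + k1 + mm) + 6) := ⟨_, rfl⟩
  have hu1 : 1 ≤ u := by omega
  have hu0 : (0 : ℝ) < u := by exact_mod_cast hu1
  have hη : 96 * CM * (u : ℝ) ^ 2 * (1 / 2 ^ mm) ≤ ε := by
    have a1 : u ≤ 20 * (4 * (k0 + k1) + 10) * mm := by
      rw [hu]
      nlinarith [Nat.zero_le (k0 + k1), Nat.mul_le_mul_left (k0 + k1) hm2]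
    have a2 : (u : ℝ) ≤ 20 * (4 * (k0 + k1) + 10) * mm := by exact_mod_cast a1
    have a3 : (c0 : ℝ) * mm ^ 2 ≤ 2 ^ mm := by exact_mod_cast hm1
    rw [div_le_iff₀ hε] at hc0
    rw [mul_one_div, div_le_iff₀ (by positivity)]
    calc 96 * CM * (u : ℝ) ^ 2 ≤ 96 * CM * (20 * (4 * (k0 + k1) + 10) * mm) ^ 2 := by gcongr
      _ = 96 * CM * (20 * (4 * (k0 + k1) + 10)) ^ 2 * mm ^ 2 := by ring
      _ ≤ c0 * ε * mm ^ 2 := by gcongr
      _ = ε * (c0 * mm ^ 2) := by ring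
      _ ≤ _ := by gcongr
  refine ⟨u, hu1, fun Cw => ?_⟩
  obtain ⟨c1, hc1⟩ := exists_nat_ge (12 * CM ^ 2 * u / ε)
  obtain ⟨c2, hc2⟩ := exists_nat_ge (9 / ε)
  obtain ⟨Q0, hQ0⟩ := ev_lg (ev_main u Cw (4 * k0 + 6) c1 c2 hu1)
  refine ⟨max Q0 1, fun Q w hQ hw hw' => ?_⟩
  obtain ⟨e1, e2, e3, e4, e5, e6, e7⟩ := hQ0 Q (le_of_max_le_left hQ)
  have hQ1 : 1 ≤ Q := le_of_max_le_right hQ
  have hQg := two_pow_lg_le hQ1
  have hwz : w ≤ zz u Q := hw'.trans e5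
  have hz : 2 ≤ zz u Q := hw.trans hwz
  obtain ⟨s⟩ := hs mm (zz u Q) (PP w (zz u Q)) hz fun p hp => ⟨PP_prime hp, (mem_PP.1 hp).2.1⟩
  have hgu : lg Q / u * u ≤ lg Q := Nat.div_mul_le_self _ _
  have hgu' : lg Q < lg Q / u * u + u := Nat.lt_div_mul_add hu1
  have hD : ∀ k, k ≤ k0 + k1 → zz u Q ^ (4 * (k + mm) + 6) ≤ 2 ^ (lg Q / 20) := fun k hk => by
    rw [zz, ← pow_mul]
    refine Nat.pow_le_pow_right (by norm_num) ((Nat.le_div_iff_mul_le (by norm_num)).2 ?_)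
    refine le_trans ?_ hgu
    rw [mul_assoc]
    exact Nat.mul_le_mul_left _ (by omega)
  have hW : w ^ (4 * (k0 + Nat.sqrt (lg Q)) + 6) ≤ 2 ^ (lg Q / 20) := by
    refine (Nat.pow_le_pow_left (hw'.trans e1) _).trans ?_
    rw [← pow_mul]
    refine Nat.pow_le_pow_right (by norm_num) ((Nat.le_div_iff_mul_le (by norm_num)).2 ?_)
    refine le_trans ?_ (Nat.sqrt_le (lg Q))
    have := Nat.div_mul_le_self (Nat.sqrt (lg Q)) 100
    calc _ ≤ Nat.sqrt (lg Q) / 100 * (5 * Nat.sqrt (lg Q)) * 20 := by gcongr; omega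
      _ = Nat.sqrt (lg Q) / 100 * 100 * Nat.sqrt (lg Q) := by ring
      _ ≤ _ := by gcongr
  refine ⟨DD Q * _, lam s (DD Q), fun m => ∑ d ∈ AA (zz u Q) (DD Q), dd m d * EE s m, ?_,
    abs_lam s _, fun g => rough_lam s hwz,
    fun m => sum_nonneg fun d _ => mul_nonneg (dd_bd _ _).1 (EE_nonneg s m), ?_,
    fun m hm => pointwise s hwz Q hm⟩
  · refine le_trans ?_ hQg
    refine (Nat.mul_le_mul_right _ (Nat.mul_le_mul_left _ (hD k1 (by omega)))).trans ?_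
    rw [DD, om, ← pow_add, ← pow_add]
    exact Nat.pow_le_pow_right (by norm_num) (by omega)
  have hDZ : DD Q ≤ zz u Q ^ u := by
    rw [DD, zz, ← pow_mul]
    exact Nat.pow_le_pow_right (by norm_num) (by omega)
  have hg1 : 1 ≤ lg Q := by omega
  have hg : (0 : ℝ) < lg Q := by exact_mod_cast hg1
  have hlz : Real.log (zz u Q : ℕ) = (lg Q / u : ℕ) * Real.log 2 := by
    rw [zz, Nat.cast_pow, Real.log_pow, Nat.cast_ofNat]
  have l1 := Real.log_two_gt_d9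
  have l2 := Real.log_two_lt_d9
  have hV := VV_pos (zz u Q)
  refine le_trans (sum_le_sum_of_subset_of_nonneg Ico_subset_Icc_self fun m _ _ =>
    sum_nonneg fun d _ => mul_nonneg (dd_bd _ _).1 (EE_nonneg s m)) ?_
  refine (sum_err_le s hwz (by positivity) (by positivity) (by positivity) (by positivity)
    (fun y => hI (Nat.sqrt (lg Q)) w y hw) (fun y => hI mm (zz u Q) y hz) hDZ _).trans ?_
  rw [Nat.cast_mul, Nat.cast_pow, Nat.cast_ofNat]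
  refine final hε hu0 hg (by exact_mod_cast hQ1) hV.le (zero_le_one.trans (one_le_Th _ _))
    (by positivity) (by positivity) ?_ ?_ (Th_le_pow hz hu1) hη ?_ ?_ ?_
  · have a1 := VV_mul_log_le' (zz u Q)
    have a2 : lg Q ≤ 2 * (lg Q / u * u) := by omega
    have a3 : (lg Q : ℝ) ≤ 2 * ((lg Q / u : ℕ) * u) := by exact_mod_cast a2
    rw [hlz] at a1
    rw [le_div_iff₀ hg]
    have a4 : (0 : ℝ) ≤ (lg Q / u : ℕ) := Nat.cast_nonneg _
    generalize ((lg Q / u : ℕ) : ℝ) = y at a1 a3 a4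
    have a5 : VV (zz u Q) * y ≤ 2 := by nlinarith [mul_nonneg hV.le a4]
    nlinarith [mul_le_mul_of_nonneg_left a3 hV.le, mul_le_mul_of_nonneg_right a5 hu0.le]
  · refine (Th_le hwz hz).trans ?_
    have a1 : ((lg Q / u : ℕ) : ℝ) ≤ lg Q := by exact_mod_cast Nat.div_le_self _ _
    have a2 := VV_le_one w
    have a3 := VV_pos w
    rw [hlz]
    calc CM * VV w * ((lg Q / u : ℕ) * Real.log 2) ≤ CM * 1 * (lg Q * 1) := by
          gcongr
          linarith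
      _ = _ := by ring
  · have a3 : (c1 : ℝ) * lg Q ^ 2 ≤ 2 ^ Nat.sqrt (lg Q) := by exact_mod_cast e3
    rw [div_le_iff₀ hε] at hc1
    rw [mul_one_div, div_le_iff₀ (by positivity)]
    calc 12 * CM ^ 2 * u * (lg Q : ℝ) ^ 2 ≤ c1 * ε * lg Q ^ 2 := by gcongr
      _ = ε * (c1 * lg Q ^ 2) := by ring
      _ ≤ _ := by gcongr
  · have a3 : (c2 : ℝ) * lg Q ≤ Q := by exact_mod_cast e7.trans hQg
    rw [div_le_iff₀ hε] at hc2
    calc 9 * (lg Q : ℝ) ≤ c2 * ε * lg Q := by gcongr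
      _ = ε * (c2 * lg Q) := by ring
      _ ≤ _ := by gcongr
  · have a1 : DD Q * (zz u Q ^ (4 * (k1 + mm) + 6) * (1 + w ^ (4 * (k0 + Nat.sqrt (lg Q)) + 6)) +
        zz u Q ^ (4 * (k0 + mm) + 6)) ≤ 3 * Q := by
      have b1 := hD k1 (by omega)
      have b2 := hD k0 (by omega)
      have b3 : 1 ≤ 2 ^ (lg Q / 20) := Nat.one_le_two_pow
      have b4 : DD Q * (2 ^ (lg Q / 20) * 2 ^ (lg Q / 20)) ≤ Q := by
        refine le_trans ?_ hQg
        rw [DD, ← pow_add, ← pow_add]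
        exact Nat.pow_le_pow_right (by norm_num) (by omega)
      calc _ ≤ DD Q * (2 ^ (lg Q / 20) * (2 ^ (lg Q / 20) + 2 ^ (lg Q / 20)) +
            2 ^ (lg Q / 20) * 2 ^ (lg Q / 20)) := by
            gcongr
            exact b2.trans (Nat.le_mul_of_pos_right _ b3)
        _ = 3 * (DD Q * (2 ^ (lg Q / 20) * 2 ^ (lg Q / 20))) := by ring
        _ ≤ _ := by gcongr
    exact_mod_cast a1

end Pool.Agent.P.MP_746f10_nt.AP
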