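import Pool.Agent.P.MP_746f10_nt.AP.Base

/-! Linear sums against the model. -/

namespace Pool.Agent.P.MP_746f10_nt.AP

open Finset Filter

namespace TIMP

variable {w D : ℕ} {ε : ℝ}

/-- the upper weights as a function of the divisor -/
noncomputable def lam (s : SieveW (PP 0 w) D 1 ε) (d : ℕ) : ℝ :=
  ∑ T ∈ (PP 0 w).powerset.filter (fun T => ∏ p ∈ T, p = d), s.up T

lemma abs_lam (s : SieveW (PP 0 w) D 1 ε) (d : ℕ) : |lam s d| ≤ 1 := by
  have h : ((PP 0 w).powerset.filter (fun T => ∏ p ∈ T, p = d)).card ≤ 1 := by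
    refine card_le_one.2 fun T hT T' hT' => ?_
    obtain ⟨h1, h2⟩ := mem_filter.1 hT
    obtain ⟨h3, h4⟩ := mem_filter.1 hT'
    rw [← Nat.primeFactors_prod fun p hp => PP_prime (mem_powerset.1 h1 hp), h2, ← h4,
      Nat.primeFactors_prod fun p hp => PP_prime (mem_powerset.1 h3 hp)]
  calc |lam s d| ≤ ∑ T ∈ (PP 0 w).powerset.filter (fun T => ∏ p ∈ T, p = d), (1 : ℝ) :=
        (abs_sum_le_sum_abs _ _).trans (sum_le_sum fun T _ => s.abs_up T)
    _ ≤ 1 := by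
        rw [sum_const, nsmul_eq_mul, mul_one]
        exact_mod_cast h

lemma le_of_dvd {T : Finset ℕ} (hT : T ⊆ PP 0 w) {p : ℕ} (hp : p.Prime) (h : p ∣ ∏ q ∈ T, q) :
    p ≤ w := by
  obtain ⟨q, hq, h1⟩ := (hp.prime.dvd_finsetProd_iff _).1 h
  obtain ⟨_, h2, h3⟩ := mem_PP.1 (hT hq)
  exact (Nat.le_of_dvd h3.pos h1).trans h2

lemma smooth_lam (s : SieveW (PP 0 w) D 1 ε) (d : ℕ) (h : lam s d ≠ 0) (p : ℕ) (hp : p.Prime)
    (hd : p ∣ d) : p ≤ w := by
  obtain ⟨T, hT, _⟩ := exists_ne_zero_of_sum_ne_zero h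
  obtain ⟨h1, h2⟩ := mem_filter.1 hT
  exact le_of_dvd (mem_powerset.1 h1) hp (h2 ▸ hd)

lemma prod_pos' {T : Finset ℕ} (hT : T ⊆ PP 0 w) : 0 < ∏ q ∈ T, q :=
  prod_pos fun _ hq => (PP_prime (hT hq)).pos

lemma sum_lam (s : SieveW (PP 0 w) D 1 ε) (m : ℕ) :
    ∑ d ∈ Icc 1 D, lam s d * dd m d = s.U (dd m) := by
  simp only [lam, sum_filter, sum_mul, ite_mul, zero_mul]
  rw [sum_comm, SieveW.U]
  refine sum_congr rfl fun T hT => ?_
  have hT' := mem_powerset.1 hT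
  rw [sum_ite_eq, prod_dd fun p hp => PP_prime (hT' hp)]
  split_ifs with h
  · rfl
  · by_cases h0 : s.up T = 0
    · rw [h0, zero_mul]
    · exact (h (mem_Icc.2 ⟨prod_pos' hT', s.supp_up T hT' h0⟩)).elim

lemma err_nonneg (s : SieveW (PP 0 w) D 1 ε) (m : ℕ) : 0 ≤ s.U (dd m) - rr w m := by
  rw [← prod_one_sub_dd, sub_nonneg]
  exact s.le_up _ fun p _ => dd_bd m p

lemma err_sum (s : SieveW (PP 0 w) D 1 ε) (hε : 0 ≤ ε) {g : ℕ} (hg : 1 ≤ g) (hr : rough w g)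
    (x y : ℕ) : ∑ m ∈ Ico x (x + y), dd m g * (s.U (dd m) - rr w m) ≤ 2 * ε * (y / g) + 2 * D := by
  have hg' : ∀ p ∈ PP 0 w, 0 ≤ 1 / (p : ℝ) ∧ 1 / (p : ℝ) ≤ 1 / p ∧ 1 / (p : ℝ) ≤ 3 / 4 :=
    fun p hp => ⟨by positivity, le_rfl,
      (one_div_le_one_div_of_le two_pos (PP_two hp)).trans (by norm_num)⟩
  have he : ∀ T ⊆ PP 0 w, ∏ p ∈ T, p ≤ D → |∑ m ∈ Ico x (x + y), dd m g * ∏ p ∈ T, dd m p -
      (y / g : ℝ) * ∏ p ∈ T, 1 / (p : ℝ)| ≤ 1 := fun T hT _ => by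
    have hc : Nat.Coprime g (∏ p ∈ T, p) := Nat.coprime_of_dvd fun p hp h1 h2 =>
      absurd (le_of_dvd hT hp h2) (not_le.2 (hr p hp h1))
    convert count_class (Nat.mul_pos hg (prod_pos' hT)) 0 (Nat.le_add_right x y) using 3
    · refine sum_congr rfl fun m _ => ?_
      rw [prod_dd fun p hp => PP_prime (hT hp), dd, dd, ite_zero_mul_ite_zero, one_mul]
      exact if_congr (by
        rw [Nat.modEq_zero_iff_dvd]
        exact ⟨fun h => hc.mul_dvd_of_dvd_of_dvd h.1 h.2,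
          fun h => ⟨(dvd_mul_right _ _).trans h, (dvd_mul_left _ _).trans h⟩⟩) rfl rfl
    · rw [prod_div_distrib, prod_const_one]
      push_cast
      rw [add_sub_cancel_left, div_mul_div_comm, mul_one]
  have hX : (0 : ℝ) ≤ y / g := by positivity
  have h1 := s.upper (fun p hp => PP_prime hp) (Ico x (x + y)) (fun m => dd m g)
    (fun m => dd m) (fun p => 1 / (p : ℝ)) _ 1 hX zero_le_one hg' he
  have h2 := s.lower (fun p hp => PP_prime hp) (Ico x (x + y)) (fun m => dd m g)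
    (fun m => dd m) (fun p => 1 / (p : ℝ)) _ 1 hX zero_le_one (fun m _ => (dd_bd m g).1)
    (fun m _ p _ => dd_bd m p) hg' he
  simp only [prod_one_sub_dd] at h2
  simp only [mul_sub, sum_sub_distrib]
  have h3 : ε * (y / g * VV w) ≤ ε * (y / g) :=
    mul_le_mul_of_nonneg_left (mul_le_of_le_one_right hX (VV_le_one w)) hε
  rw [VV] at h3
  linarith

lemma l1 (s : SieveW (PP 0 w) D 1 ε) (hε : 0 ≤ ε) (D2 : ℕ) {lam' : ℕ → ℝ}
    (h1 : ∀ g, |lam' g| ≤ 1) (h2 : ∀ g, lam' g ≠ 0 → rough w g) (x y : ℕ) :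
    ∑ m ∈ Ico x (x + y),
      |-((s.U (dd m) - rr w m) * ∑ g ∈ Icc 1 D2, lam' g * (dd m g - 1 / g))| ≤
        4 * ε * y * (1 + Real.log D2) + 4 * D * D2 := by
  have h0 := err_sum s hε le_rfl (fun p hp h => absurd (Nat.dvd_one.1 h) hp.ne_one) x y
  simp only [dd, one_dvd, if_true, one_mul, Nat.cast_one, div_one] at h0
  calc _ ≤ ∑ m ∈ Ico x (x + y), ∑ g ∈ Icc 1 D2, |lam' g| *
          (dd m g * (s.U (dd m) - rr w m) + 1 / g * (s.U (dd m) - rr w m)) := by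
        refine sum_le_sum fun m _ => ?_
        rw [abs_neg, mul_sum]
        refine (abs_sum_le_sum_abs _ _).trans (sum_le_sum fun g _ => ?_)
        rw [abs_mul, abs_mul, abs_of_nonneg (err_nonneg s m), ← add_mul, mul_comm, mul_assoc]
        refine mul_le_mul_of_nonneg_left (mul_le_mul_of_nonneg_right ?_ (err_nonneg s m))
          (abs_nonneg _)
        have := (dd_bd m g).1
        have : (0 : ℝ) ≤ 1 / g := by positivity
        rw [abs_le]
        constructor <;> linarith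
    _ ≤ ∑ g ∈ Icc 1 D2, (4 * ε * y * (g : ℝ)⁻¹ + 4 * D) := by
        rw [sum_comm]
        refine sum_le_sum fun g hg => ?_
        have hg1 := (mem_Icc.1 hg).1
        have hg2 : (1 : ℝ) ≤ g := by exact_mod_cast hg1
        rw [← mul_sum]
        by_cases h : lam' g = 0
        · rw [h, abs_zero, zero_mul]
          positivity
        · refine (mul_le_of_le_one_left (sum_nonneg fun m _ => add_nonneg
            (mul_nonneg (dd_bd m g).1 (err_nonneg s m))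
            (mul_nonneg (by positivity) (err_nonneg s m))) (h1 g)).trans ?_
          rw [sum_add_distrib, ← mul_sum]
          have h3 := err_sum s hε hg1 (h2 g h) x y
          have h4 := mul_le_mul_of_nonneg_left h0 (show (0 : ℝ) ≤ 1 / g by positivity)
          have h5 : 1 / (g : ℝ) * D ≤ D :=
            mul_le_of_le_one_left (Nat.cast_nonneg D) ((div_le_one (by linarith)).2 hg2)
          rw [div_eq_mul_inv] at h3
          rw [one_div] at h4 h5 ⊢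
          linarith
    _ ≤ _ := by
        rw [sum_add_distrib, ← mul_sum, sum_const, Nat.card_Icc, Nat.add_sub_cancel, nsmul_eq_mul,
          mul_comm (D2 : ℝ)]
        have h3 := sum_inv_le_log D2
        rw [show Ioc 0 D2 = Icc 1 D2 from rfl] at h3
        gcongr

lemma ev_level (k0 A Cw : ℕ) : ∀ᶠ g : ℕ in atTop, ∀ w, w ≤ g ^ Cw →
    w ^ (4 * (k0 + (A + 3) * (Nat.log 2 g + 1)) + 6) * g ^ (A + 4) ≤ 2 ^ Nat.sqrt g := by
  have ht : Tendsto (fun g => lg g / 2) atTop atTop :=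
    (Nat.tendsto_div_const_atTop two_ne_zero).comp tendsto_lg
  filter_upwards [ht.eventually (ev_pow_le_two_pow (16 * (Cw * (4 * (k0 + (A + 3)) + 6) + (A + 4))) 2),
    ht.eventually (eventually_ge_atTop 1), eventually_ge_atTop 1] with g h1 h2 h3 w hw
  have h4 : 2 ^ (lg g / 2) ≤ Nat.sqrt g := by
    rw [Nat.le_sqrt, ← pow_add]
    exact (Nat.pow_le_pow_right two_pos (by omega)).trans (two_pow_lg_le h3)
  have h5 : g ≤ 2 ^ (lg g + 1) := (lt_two_pow_lg g).le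
  change w ^ (4 * (k0 + (A + 3) * (lg g + 1)) + 6) * g ^ (A + 4) ≤ _
  generalize lg g = L at *
  have h6 : (L + 1) ^ 2 ≤ (4 * (L / 2)) ^ 2 := Nat.pow_le_pow_left (by omega) 2
  have h7 : 4 * (k0 + (A + 3) * (L + 1)) + 6 ≤ (4 * (k0 + (A + 3)) + 6) * (L + 1) := by nlinarith
  calc _ ≤ ((2 ^ (L + 1)) ^ Cw) ^ ((4 * (k0 + (A + 3)) + 6) * (L + 1)) *
        (2 ^ (L + 1)) ^ ((A + 4) * (L + 1)) := by
        refine Nat.mul_le_mul ((Nat.pow_le_pow_left (hw.trans (Nat.pow_le_pow_left h5 _)) _).trans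
          (Nat.pow_le_pow_right (by positivity) h7)) ((Nat.pow_le_pow_left h5 _).trans
          (Nat.pow_le_pow_right (by positivity) (by nlinarith)))
    _ = 2 ^ ((Cw * (4 * (k0 + (A + 3)) + 6) + (A + 4)) * (L + 1) ^ 2) := by
        rw [← pow_mul, ← pow_mul, ← pow_mul, ← pow_add]
        congr 1
        ring
    _ ≤ _ := by
        refine Nat.pow_le_pow_right two_pos (le_trans ?_ (h1.trans h4))
        refine (Nat.mul_le_mul_left _ h6).trans (le_of_eq ?_)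
        ring

lemma num1 {g x : ℝ} (hg : 6 ≤ g) (hx : 0 ≤ x) (A : ℕ) :
    4 * (1 / g ^ (A + 3)) * x * (2 * g) ≤ 1 / (4 * g ^ A) * x := by
  have h0 : 0 < g := by linarith
  have h1 : 4 * (1 / g ^ (A + 3)) * x * (2 * g) = 1 / (4 * g ^ A) * x * (32 / g ^ 2) := by
    field_simp
    ring
  rw [h1]
  exact mul_le_of_le_one_right (by positivity) ((div_le_one (by positivity)).2 (by nlinarith))

lemma num2 {g x a : ℝ} (hg : 6 ≤ g) (hx : 0 ≤ x) (ha : 1 ≤ a) (A : ℕ) :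
    4 * (x / g ^ (A + 4)) ≤ 1 / (4 * g ^ A) * (a * x) := by
  have h0 : 0 < g := by linarith
  have h1 : 4 * (x / g ^ (A + 4)) = 1 / (4 * g ^ A) * (16 / g ^ 4 * x) := by
    field_simp
    ring
  have h2 : (16 : ℝ) ≤ g ^ 4 := le_trans (by norm_num) (pow_le_pow_left₀ (by norm_num) hg 4)
  rw [h1]
  have := ((div_le_one (by positivity)).2 h2).trans ha
  gcongr

lemma num3 {g C : ℝ} (hg : 6 ≤ g) (hC : 64 * C ≤ g) (A : ℕ) :
    C * (2 * g) ^ 3 * (4 * (1 / g ^ (A + 4))) ≤ 1 / (2 * g ^ A) := by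
  have h0 : 0 < g := by linarith
  have h1 : C * (2 * g) ^ 3 * (4 * (1 / g ^ (A + 4))) = 1 / (2 * g ^ A) * (64 * C / g) := by
    field_simp
    ring
  rw [h1]
  exact mul_le_of_le_one_right (by positivity) ((div_le_one h0).2 hC)

end TIMP

open TIMP

theorem pTIM (h : S_TIa) : S_TIM := by
  obtain ⟨C, hC, h⟩ := h
  obtain ⟨k0, hs⟩ := exists_sieve 1 zero_le_one
  intro A
  refine ⟨A + 4, fun Cw => ?_⟩
  obtain ⟨Q0, hQ⟩ := ev_lg ((ev_level k0 A Cw).and ((eventually_ge_atTop (⌈64 * C⌉₊ + 6)).and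
    (ev_pow_le_two_pow 1 ((A + 4) * 2))))
  refine ⟨Q0 + 1, fun Q a w D2 lam' h0 ha h1 h2 h3 h4 h5 h6 h7 => ?_⟩
  obtain ⟨e1, e2, e3⟩ := hQ Q (by omega)
  have hQ1 : 1 ≤ Q := by omega
  have hlog := log_le_lg (Q := Q) (by omega)
  have e4 := e1 w h4
  have e5 : (lg Q ^ (A + 4)) ^ 2 ≤ Q := by
    rw [← pow_mul]
    exact (by omega : _ ≤ 1 * lg Q ^ ((A + 4) * 2)).trans (e3.trans (two_pow_lg_le hQ1))
  change _ ≤ om Q at e4
  generalize lg Q = g at *
  have e6 : g ^ (A + 3) ≤ 2 ^ ((A + 3) * (Nat.log 2 g + 1)) := by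
    rw [mul_comm, pow_mul]
    exact Nat.pow_le_pow_left (lt_two_pow_lg g).le _
  have e7 : 2 ≤ g ^ (A + 4) := (by omega : 2 ≤ g).trans (Nat.le_self_pow (by omega) g)
  obtain ⟨s⟩ := hs ((A + 3) * (Nat.log 2 g + 1)) w (PP 0 w) (e7.trans h3)
    fun p hp => ⟨PP_prime hp, (mem_PP.1 hp).2.1⟩
  generalize w ^ (4 * (k0 + (A + 3) * (Nat.log 2 g + 1)) + 6) = D at *
  generalize (A + 3) * (Nat.log 2 g + 1) = mm at *
  have e8 : D * D2 * g ^ (A + 4) ≤ Q := by
    refine le_trans (le_of_eq ?_) ((Nat.mul_le_mul_left D2 e4).trans h5)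
    ring
  have e9 : D * D2 * 2 ≤ Q := (Nat.mul_le_mul_left _ e7).trans e8
  have e10 : D2 ≤ Q := (Nat.le_mul_of_pos_right D2 (Nat.two_pow_pos _)).trans h5
  have hg : (6 : ℝ) ≤ g := by exact_mod_cast (by omega : 6 ≤ g)
  have hgC : 64 * C ≤ g := (Nat.le_ceil _).trans (by exact_mod_cast (by omega : ⌈64 * C⌉₊ ≤ g))
  have hQr : (1 : ℝ) ≤ Q := by exact_mod_cast hQ1
  have har : (Q : ℝ) ≤ a := by exact_mod_cast h1
  have hl : ∀ n : ℕ, n ≤ Q → 1 + Real.log n ≤ 2 * g := fun n hn => by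
    rcases Nat.eq_zero_or_pos n with rfl | hp
    · rw [Nat.cast_zero, Real.log_zero]
      linarith
    · have : Real.log n ≤ Real.log Q :=
        Real.log_le_log (by exact_mod_cast hp) (by exact_mod_cast hn)
      linarith
  have hG : (0 : ℝ) < (g : ℝ) ^ (A + 4) := by positivity
  have hA : (0 : ℝ) < (g : ℝ) ^ A := by positivity
  have r8 : ((D * D2 : ℕ) : ℝ) ≤ Q / (g : ℝ) ^ (A + 4) := by
    rw [le_div_iff₀ hG]
    exact_mod_cast e8
  have p1 := h a Q w D D2 (lam s) lam' ha (by omega) (by omega) hQ1 (abs_lam s) h6 (smooth_lam s) h7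
  have p2 : SmallR a Q (fun m => -((s.U (dd m) - rr w m) *
      ∑ g ∈ Icc 1 D2, lam' g * (dd m g - 1 / g))) (1 / (2 * (g : ℝ) ^ A)) := by
    refine smallR_of_l1 ?_
    rw [show a * (2 * Q) = a * Q + a * Q by ring]
    refine (l1 s (by positivity) D2 h6 h7 _ _).trans ?_
    have r6 : 1 / (2 : ℝ) ^ mm ≤ 1 / (g : ℝ) ^ (A + 3) :=
      one_div_le_one_div_of_le (by positivity) (by exact_mod_cast e6)
    have r1 : 4 * (1 / (2 : ℝ) ^ mm) * (a * Q : ℕ) * (1 + Real.log D2) ≤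
        4 * (1 / (g : ℝ) ^ (A + 3)) * (a * Q : ℕ) * (2 * g) := by
      have := hl D2 e10
      have := Real.log_natCast_nonneg D2
      gcongr
    have r2 := num1 hg (Nat.cast_nonneg (a * Q)) A
    have r3 := num2 hg (Nat.cast_nonneg Q) (hQr.trans har) A
    have r4 : 1 / (2 * (g : ℝ) ^ A) = 2 * (1 / (4 * (g : ℝ) ^ A)) := by
      field_simp
      norm_num
    push_cast at r1 r2 r8 ⊢
    rw [r4]
    linarith
  refine ((p1.add p2).congr fun n _ b _ => ?_).mono ?_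
  · rw [sum_lam]
    ring
  · have q1 : 1 / (w : ℝ) ≤ 1 / (g : ℝ) ^ (A + 4) :=
      one_div_le_one_div_of_le hG (by exact_mod_cast h3)
    have q0 : (g : ℝ) ^ (A + 4) ≤ √Q := Real.le_sqrt_of_sq_le (by exact_mod_cast e5)
    have q2 : 1 / √(Q : ℝ) ≤ 1 / (g : ℝ) ^ (A + 4) := one_div_le_one_div_of_le hG q0
    have q3 : 1 / √(a : ℝ) ≤ 1 / (g : ℝ) ^ (A + 4) :=
      one_div_le_one_div_of_le hG (q0.trans (Real.sqrt_le_sqrt har))
    have q4 : ((D * D2 : ℕ) : ℝ) / √(a * Q) ≤ 1 / (g : ℝ) ^ (A + 4) := by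
      have : (Q : ℝ) ≤ √(a * Q) := Real.le_sqrt_of_sq_le (by nlinarith)
      rw [div_le_iff₀ (by linarith), one_div, ← div_eq_inv_mul]
      exact r8.trans (by gcongr)
    have q5 : C * (1 + Real.log (D * D2 : ℕ)) ^ 3 *
        (1 / w + 1 / √Q + 1 / √a + (D * D2 : ℕ) / √(a * Q)) ≤
          C * (2 * g) ^ 3 * (4 * (1 / (g : ℝ) ^ (A + 4))) := by
      have := hl (D * D2) (by omega)
      have := Real.log_natCast_nonneg (D * D2)
      gcongr
      linarith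
    have q6 := num3 hg hgC A
    have q7 : 1 / (g : ℝ) ^ A = 2 * (1 / (2 * (g : ℝ) ^ A)) := by field_simp
    rw [q7]
    linarith

end Pool.Agent.P.MP_746f10_nt.AP
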