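import Pool.Agent.P.MP_746f10_nt.AP.Base

/-! Linear sums with a smooth and a rough divisor variable. -/

namespace Pool.Agent.P.MP_746f10_nt.AP

open Finset
open Pool.Agent.P.MP_0ad054_nt (e e_int geom_range)

namespace TIaP

/-- Ramanujan sum -/
noncomputable def cq (q m : ℕ) : ℂ :=
  ∑ r ∈ (range q).filter (fun r => r.Coprime q), e ((r : ℝ) * m / q)

lemma e_eq_one {x : ℝ} (h : e x = 1) : ∃ k : ℤ, x = k := by
  unfold e at h
  obtain ⟨k, hk⟩ := Complex.exp_eq_one_iff.1 h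
  refine ⟨k, ?_⟩
  have h2 : (2 * (Real.pi : ℂ) * Complex.I) ≠ 0 := Complex.two_pi_I_ne_zero
  have h3 : (x : ℂ) = k := by
    apply mul_left_cancel₀ h2
    rw [hk]; ring
  exact_mod_cast h3

lemma sum_e {d : ℕ} (hd : 1 ≤ d) (m : ℕ) :
    ∑ r ∈ range d, e ((r : ℝ) * m / d) = (d : ℂ) * (dd m d : ℝ) := by
  have hd' : (d : ℝ) ≠ 0 := by positivity
  unfold dd
  split_ifs with h
  · obtain ⟨k, rfl⟩ := h
    have : ∀ r ∈ range d, e ((r : ℝ) * (d * k : ℕ) / d) = 1 := fun r _ => by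
      rw [← e_int ((r * k : ℕ) : ℤ)]; congr 1; push_cast; field_simp
    rw [sum_congr rfl this]; simp
  · have h1 := geom_range ((m : ℝ) / d) d
    have h2 : e ((m : ℝ) / d * d) = 1 := by
      rw [← e_int (m : ℤ)]; congr 1; push_cast; field_simp
    have h3 : e ((m : ℝ) / d) - 1 ≠ 0 := by
      intro h4
      obtain ⟨k, hk⟩ := e_eq_one (sub_eq_zero.1 h4)
      rw [div_eq_iff hd'] at hk
      have h5 : (m : ℤ) = k * d := by exact_mod_cast hk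
      exact h (Int.natCast_dvd_natCast.1 ⟨k, by rw [h5]; ring⟩)
    rw [h2, sub_self] at h1
    have h4 := (mul_eq_zero.1 h1).resolve_right h3
    rw [sum_congr rfl fun r _ => by rw [show (r : ℝ) * m / d = (m : ℝ) / d * r by ring], h4]
    simp

lemma sum_cq {d : ℕ} (hd : 1 ≤ d) (m : ℕ) :
    ∑ q ∈ d.divisors, cq q m = (d : ℂ) * (dd m d : ℝ) := by
  rw [← sum_e hd m, ← Nat.sum_div_divisors d fun q => cq q m,
    ← sum_fiberwise_of_maps_to (s := range d) (t := d.divisors) (g := fun r => d.gcd r)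
      fun r _ => Nat.mem_divisors.2 ⟨Nat.gcd_dvd_left _ _, by omega⟩]
  refine sum_congr rfl fun t ht => ?_
  obtain ⟨q, rfl⟩ := (Nat.mem_divisors.1 ht).1
  have ht0 : 0 < t := Nat.pos_of_ne_zero (by rintro rfl; simp at hd)
  rw [Nat.mul_div_cancel_left _ ht0]
  unfold cq
  refine sum_bij (fun r _ => t * r) (fun r hr => ?_) (fun r _ r' _ h => ?_) (fun r hr => ?_)
    fun r _ => ?_
  · rw [mem_filter, mem_range] at hr ⊢
    refine ⟨Nat.mul_lt_mul_of_pos_left hr.1 ht0, ?_⟩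
    rw [Nat.gcd_mul_left, Nat.Coprime.gcd_eq_one hr.2.symm, mul_one]
  · exact Nat.eq_of_mul_eq_mul_left ht0 h
  · rw [mem_filter, mem_range] at hr
    obtain ⟨s, rfl⟩ : t ∣ r := hr.2 ▸ Nat.gcd_dvd_right _ _
    refine ⟨s, mem_filter.2 ⟨mem_range.2 (Nat.lt_of_mul_lt_mul_left hr.1), ?_⟩, rfl⟩
    have h2 := hr.2
    rw [Nat.gcd_mul_left] at h2
    exact Nat.Coprime.symm (Nat.eq_of_mul_eq_mul_left ht0 (h2.trans (mul_one t).symm))
  · have : (t : ℝ) ≠ 0 := by positivity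
    congr 1
    push_cast
    rw [mul_assoc, mul_div_mul_left _ _ this]

lemma cop {w d g : ℕ} (hd : ∀ p, p.Prime → p ∣ d → p ≤ w) (hg : rough w g) : d.Coprime g :=
  Nat.coprime_of_dvd fun p hp h1 h2 => absurd (hg p hp h2) (not_lt.2 (hd p hp h1))

lemma gt_w {w d g q : ℕ} (hq0 : q ≠ 0) (hg : rough w g) (h1 : q ∣ d * g) (h2 : ¬ q ∣ d) : w < q := by
  by_contra h
  refine h2 ((cop (fun p _ hp => ?_) hg).dvd_of_dvd_mul_right h1)
  exact (Nat.le_of_dvd (Nat.pos_of_ne_zero hq0) hp).trans (not_lt.1 h)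

open Classical in
lemma term {w D d g : ℕ} (hd1 : 1 ≤ d) (hg1 : 1 ≤ g) (hD : d * g ≤ D)
    (hd : ∀ p, p.Prime → p ∣ d → p ≤ w) (hg : rough w g) (m : ℕ) :
    ((dd m d * (dd m g - 1 / g) : ℝ) : ℂ) =
      ∑ q ∈ Ioc w D, (if q ∣ d * g ∧ ¬ q ∣ d then 1 / ((d : ℂ) * g) else 0) * cq q m := by
  have hdg : 1 ≤ d * g := Nat.mul_pos hd1 hg1
  have h1 : dd m d * dd m g = dd m (d * g) := by
    unfold dd
    by_cases a1 : d ∣ m <;> by_cases a2 : g ∣ m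
    · rw [if_pos a1, if_pos a2, if_pos ((cop hd hg).mul_dvd_of_dvd_of_dvd a1 a2), mul_one]
    · rw [if_neg a2, mul_zero, if_neg fun h => a2 ((Dvd.intro_left d rfl).trans h)]
    · rw [if_neg a1, zero_mul, if_neg fun h => a1 ((Dvd.intro g rfl).trans h)]
    · rw [if_neg a1, zero_mul, if_neg fun h => a1 ((Dvd.intro g rfl).trans h)]
  have hsub : d.divisors ⊆ (d * g).divisors := Nat.divisors_subset_of_dvd (by omega) ⟨g, rfl⟩
  have h2 : (Ioc w D).filter (fun q => q ∣ d * g ∧ ¬ q ∣ d) = (d * g).divisors \ d.divisors := by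
    ext q
    simp only [mem_filter, mem_Ioc, mem_sdiff, Nat.mem_divisors]
    constructor
    · rintro ⟨_, a1, a2⟩
      exact ⟨⟨a1, by omega⟩, fun h => a2 h.1⟩
    · rintro ⟨⟨a1, _⟩, a2⟩
      have a3 : ¬ q ∣ d := fun h => a2 ⟨h, by omega⟩
      have hq : q ≠ 0 := by rintro rfl; rw [zero_dvd_iff] at a1; omega
      exact ⟨⟨gt_w hq hg a1 a3, (Nat.le_of_dvd hdg a1).trans hD⟩, a1, a3⟩
  simp only [ite_mul, zero_mul]
  rw [← sum_filter, h2, ← mul_sum, sum_sdiff_eq_sub hsub, sum_cq hdg, sum_cq hd1, mul_sub, h1]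
  have : (d : ℂ) ≠ 0 := by exact_mod_cast (by omega : d ≠ 0)
  have : (g : ℂ) ≠ 0 := by exact_mod_cast (by omega : g ≠ 0)
  push_cast
  field_simp

lemma sum_mult (q D : ℕ) :
    ∑ n ∈ (Icc 1 D).filter (fun n => q ∣ n), (1 : ℝ) / n ≤ (1 + Real.log D) * (1 / q) := by
  rcases Nat.eq_zero_or_pos q with rfl | hq
  · have : (Icc 1 D).filter (fun n => 0 ∣ n) = ∅ :=
      filter_eq_empty_iff.2 fun n hn h => by
        rw [zero_dvd_iff] at h; have := mem_Icc.1 hn; omega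
    rw [this]; simp
  have h1 : (Icc 1 D).filter (fun n => q ∣ n) ⊆ (Icc 1 D).image (fun k => q * k) := by
    intro n hn
    obtain ⟨hn, k, rfl⟩ := mem_filter.1 hn
    have := mem_Icc.1 hn
    refine mem_image.2 ⟨k, mem_Icc.2 ⟨Nat.pos_of_ne_zero ?_, ?_⟩, rfl⟩
    · rintro rfl; omega
    · exact (Nat.le_mul_of_pos_left k hq).trans this.2
  refine (sum_le_sum_of_subset_of_nonneg h1 fun _ _ _ => by positivity).trans ?_
  rw [sum_image fun k _ k' _ h => Nat.eq_of_mul_eq_mul_left hq h]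
  have h2 : ∑ k ∈ Icc 1 D, (1 : ℝ) / (q * k : ℕ) = (∑ k ∈ Icc 1 D, (1 : ℝ) / k) * (1 / q) := by
    rw [sum_mul]
    refine sum_congr rfl fun k _ => ?_
    push_cast
    rw [div_mul_div_comm, mul_one, mul_comm]
  rw [h2]
  have h3 : ∑ k ∈ Icc 1 D, (1 : ℝ) / k ≤ 1 + Real.log D := by
    have := harmonic_le_one_add_log D
    rw [harmonic_eq_sum_Icc] at this
    push_cast at this
    simpa only [one_div] using this
  gcongr

open Classical in
/-- the coefficients -/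
noncomputable def gam (D1 D2 : ℕ) (lam lam' : ℕ → ℝ) (q : ℕ) : ℂ :=
  ∑ x ∈ Icc 1 D1 ×ˢ Icc 1 D2, ((lam x.1 * lam' x.2 : ℝ) : ℂ) *
    if q ∣ x.1 * x.2 ∧ ¬ q ∣ x.1 then 1 / ((x.1 : ℂ) * x.2) else 0

lemma gam_le {w D1 D2 : ℕ} {lam lam' : ℕ → ℝ} (h1 : ∀ d, |lam d| ≤ 1) (h2 : ∀ g, |lam' g| ≤ 1)
    (h3 : ∀ d, lam d ≠ 0 → ∀ p, p.Prime → p ∣ d → p ≤ w) (h4 : ∀ g, lam' g ≠ 0 → rough w g)
    (q : ℕ) : ‖gam D1 D2 lam lam' q‖ ≤ (1 + Real.log (D1 * D2 : ℕ)) * (1 / q) := by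
  classical
  refine le_trans ?_ (sum_mult q (D1 * D2))
  set S := (Icc 1 D1 ×ˢ Icc 1 D2).filter
    (fun x => lam x.1 ≠ 0 ∧ lam' x.2 ≠ 0 ∧ q ∣ x.1 * x.2) with hS
  have hinj : Set.InjOn (fun x : ℕ × ℕ => x.1 * x.2) S := by
    intro x hx y hy hxy
    simp only [hS, coe_filter, mem_product, mem_Icc, Set.mem_ofPred_eq] at hx hy hxy
    have a1 : x.1 ∣ y.1 :=
      (cop (h3 _ hx.2.1) (h4 _ hy.2.2.1)).dvd_of_dvd_mul_right ⟨x.2, hxy.symm⟩
    have a2 : y.1 ∣ x.1 :=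
      (cop (h3 _ hy.2.1) (h4 _ hx.2.2.1)).dvd_of_dvd_mul_right ⟨y.2, hxy⟩
    have a3 := Nat.dvd_antisymm a1 a2
    rw [a3] at hxy
    exact Prod.ext a3 (Nat.eq_of_mul_eq_mul_left hy.1.1.1 hxy)
  calc ‖gam D1 D2 lam lam' q‖
      ≤ ∑ x ∈ Icc 1 D1 ×ˢ Icc 1 D2, if lam x.1 ≠ 0 ∧ lam' x.2 ≠ 0 ∧ q ∣ x.1 * x.2 then
          (1 : ℝ) / (x.1 * x.2 : ℕ) else 0 := by
        refine (norm_sum_le _ _).trans (sum_le_sum fun x _ => ?_)
        by_cases a1 : lam x.1 = 0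
        · simp [a1]
        by_cases a2 : lam' x.2 = 0
        · simp [a2]
        by_cases a3 : q ∣ x.1 * x.2
        · rw [if_pos (⟨a1, a2, a3⟩ : lam x.1 ≠ 0 ∧ lam' x.2 ≠ 0 ∧ q ∣ x.1 * x.2), norm_mul,
            Complex.norm_real, Real.norm_eq_abs, abs_mul]
          have b1 : |lam x.1| * |lam' x.2| ≤ 1 := mul_le_one₀ (h1 _) (abs_nonneg _) (h2 _)
          have b2 : ‖(if q ∣ x.1 * x.2 ∧ ¬ q ∣ x.1 then 1 / ((x.1 : ℂ) * x.2) else 0)‖ ≤
              (1 : ℝ) / (x.1 * x.2 : ℕ) := by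
            split_ifs
            · simp
            · rw [norm_zero]; positivity
          exact (mul_le_mul b1 b2 (norm_nonneg _) zero_le_one).trans (one_mul _).le
        · simp [a3]
    _ = ∑ n ∈ S.image (fun x => x.1 * x.2), (1 : ℝ) / n := by
        rw [sum_image hinj, hS, sum_filter]
    _ ≤ _ := by
        refine sum_le_sum_of_subset_of_nonneg (fun n hn => ?_) fun _ _ _ => by positivity
        obtain ⟨x, hx, rfl⟩ := mem_image.1 hn
        simp only [hS, mem_filter, mem_product, mem_Icc] at hx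
        exact mem_filter.2 ⟨mem_Icc.2 ⟨Nat.mul_pos hx.1.1.1 hx.1.2.1,
          Nat.mul_le_mul hx.1.1.2 hx.1.2.2⟩, hx.2.2.2⟩

lemma ident {w D1 D2 : ℕ} {lam lam' : ℕ → ℝ}
    (h3 : ∀ d, lam d ≠ 0 → ∀ p, p.Prime → p ∣ d → p ≤ w) (h4 : ∀ g, lam' g ≠ 0 → rough w g)
    (m : ℕ) :
    (((∑ d ∈ Icc 1 D1, lam d * dd m d) * ∑ g ∈ Icc 1 D2, lam' g * (dd m g - 1 / g) : ℝ) : ℂ) =
      ∑ q ∈ Ioc w (D1 * D2), gam D1 D2 lam lam' q * cq q m := by
  classical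
  unfold gam
  simp only [sum_mul]
  rw [sum_comm]
  simp only [mul_sum]
  rw [← sum_product', Complex.ofReal_sum]
  refine sum_congr rfl fun x hx => ?_
  simp only [mem_product, mem_Icc] at hx
  by_cases a1 : lam x.1 = 0
  · simp [a1]
  by_cases a2 : lam' x.2 = 0
  · simp [a2]
  have := term hx.1.1 hx.2.1 (Nat.mul_le_mul hx.1.2 hx.2.2) (h3 _ a1) (h4 _ a2) m
  simp only [mul_assoc]
  rw [← mul_sum, ← this]
  push_cast
  ring

end TIaP

open TIaP in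
theorem pTIa (h : S_TIb) : S_TIa := by
  obtain ⟨C, hC, h⟩ := h
  refine ⟨C, hC, fun a N w D1 D2 lam lam' ha hD hw hN h1 h2 h3 h4 => ?_⟩
  have hB : 0 < 1 + Real.log (D1 * D2 : ℕ) := by
    have := Real.log_natCast_nonneg (D1 * D2)
    linarith
  set B := 1 + Real.log (D1 * D2 : ℕ) with hBdef
  have hB' : (B : ℂ) ≠ 0 := by exact_mod_cast hB.ne'
  have h5 := h a N w (D1 * D2) (fun q => gam D1 D2 lam lam' q / B) ha hD hw hN fun q => by
    rw [norm_div, Complex.norm_real, Real.norm_of_nonneg hB.le, div_le_iff₀ hB, mul_comm]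
    exact gam_le h1 h2 h3 h4 q
  have h6 := h5.mul_row (φ := fun _ => (B : ℂ)) hB fun _ => by
    rw [Complex.norm_real, Real.norm_of_nonneg hB.le]
  refine (h6.congr fun n _ b _ => ?_).mono (le_of_eq (by ring))
  rw [ident h3 h4, mul_sum]
  refine sum_congr rfl fun q _ => ?_
  rw [← mul_assoc, mul_div_cancel₀ _ hB']
  rfl

end Pool.Agent.P.MP_746f10_nt.AP
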