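import Pool.Agent.P.MP_746f10_nt.AP.Base
import Pool.Agent.P.MP_0ad054_nt.An.LS

/-! Sums of Ramanujan sums have small cut norm. -/

namespace Pool.Agent.P.MP_746f10_nt.AP

open Finset
open Pool.Agent.P.MP_0ad054_nt (e mn dn e_add dn_add_int cs_norm)
open Pool.Agent.P.MP_0ad054_nt.An.LSP (spaced additive farey)

namespace TIbP

/-- the large sieve at the points `r a / q` -/
theorem lsv {R X a : ℕ} (hR : 1 ≤ R) (ha : ∀ q ∈ Icc 1 R, a.Coprime q) {I : Finset ℕ}
    (hI : I ⊆ Icc 1 X) {u : ℕ → ℂ} (hu : ∀ n, ‖u n‖ ≤ 1) :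
    ∑ q ∈ Icc 1 R, ∑ r ∈ (range q).filter (fun r => r.Coprime q),
      ‖∑ n ∈ I, u n * e ((r : ℝ) * a / q * n)‖ ^ 2 ≤
      6 * (X + (R : ℝ) ^ 2) * (1 + Real.log R) * I.card := by
  have hl := Real.log_natCast_nonneg R
  have key : ∀ q r : ℕ, 1 ≤ q →
      (r : ℝ) * a / q = ((r * a % q : ℕ) : ℝ) / q + ((r * a / q : ℕ) : ℝ) := fun q r hq => by
    have hq' : (q : ℝ) ≠ 0 := by positivity
    have h : ((r * a % q : ℕ) : ℝ) + q * ((r * a / q : ℕ) : ℝ) = r * a := by
      exact_mod_cast Nat.mod_add_div (r * a) q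
    rw [← h]
    field_simp
  have h1 := additive ((Icc 1 R).sigma fun q => (range q).filter fun b => b.Coprime q)
    (fun z => (z.2 : ℝ) * a / z.1) X (V := 6 * (X + (R : ℝ) ^ 2) * (1 + Real.log R))
    (by positivity)
    (fun r _ => (spaced _ _ (Q := R ^ 2) (by positivity) (Nat.cast_nonneg X) (fun s hs t ht hst => by
      rw [mem_sigma, mem_filter, mem_range] at hs ht
      have s1 := (mem_Icc.1 hs.1).1
      have t1 := (mem_Icc.1 ht.1).1
      have co : ∀ q r : ℕ, r.Coprime q → a.Coprime q → (r * a % q).Coprime q := fun q r h h' => by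
        have := (Nat.Coprime.mul_left h h').symm
        rwa [Nat.Coprime, Nat.gcd_rec] at this
      have h2 := farey hs.1 ht.1 (Nat.mod_lt (s.2 * a) s1) (Nat.mod_lt (t.2 * a) t1)
        (co _ _ hs.2.2 (ha _ hs.1)) (co _ _ ht.2.2 (ha _ ht.1)) fun h => hst (by
          obtain ⟨q, r⟩ := s
          obtain ⟨q', r'⟩ := t
          obtain ⟨h3, h4⟩ := h
          dsimp only at h3 h4 hs ht
          subst h3
          have h5 : r ≡ r' [MOD q] := Nat.ModEq.cancel_right_of_coprime (ha _ hs.1).symm h4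
          rw [Nat.ModEq.eq_of_lt_of_lt h5 hs.2.1 ht.2.1])
      rw [key _ _ s1, key _ _ t1, ← dn_add_int _ (((t.2 * a / t.1 : ℕ) : ℤ) - (s.2 * a / s.1 : ℕ))]
      convert h2 using 2
      simp only [Int.cast_sub, Int.cast_natCast]
      ring) _).trans (by
      push_cast
      rw [Real.log_pow]
      have : (0 : ℝ) ≤ X := Nat.cast_nonneg X
      push_cast
      nlinarith [mul_nonneg this hl, mul_nonneg (sq_nonneg (R : ℝ)) hl, sq_nonneg (R : ℝ)]))
    fun n => if n ∈ I then u n else 0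
  rw [sum_sigma] at h1
  simp only [ite_mul, zero_mul, sum_ite_mem, inter_eq_right.2 hI] at h1
  refine h1.trans (mul_le_mul_of_nonneg_left ?_ (by positivity))
  calc ∑ n ∈ Icc 1 X, ‖if n ∈ I then u n else 0‖ ^ 2 ≤ ∑ n ∈ Icc 1 X, if n ∈ I then (1 : ℝ) else 0 :=
        sum_le_sum fun n _ => by
          split_ifs
          · exact pow_le_one₀ (norm_nonneg _) (hu n)
          · simp
    _ = I.card := by rw [sum_ite_mem, inter_eq_right.2 hI]; simp

/-- summation by parts -/
theorem abel {s : ℕ → ℝ} {w D : ℕ} {α β γ : ℝ} (hw : 1 ≤ w) (hD : w ≤ D) (hβ : 0 ≤ β)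
    (hγ : 0 ≤ γ) (h : ∀ R, w ≤ R → R ≤ D → ∑ q ∈ Ioc w R, s q ≤ α + β * R + γ * R ^ 2) :
    ∑ q ∈ Ioc w D, s q / q ≤ α / w + β * (1 + Real.log D) + 2 * γ * D := by
  have main : ∀ R, w ≤ R → R ≤ D → ∑ q ∈ Ioc w R, s q / q - (∑ q ∈ Ioc w R, s q) / R ≤
      α / w - α / R + β * Real.log R + γ * R := by
    intro R hR
    induction R, hR using Nat.le_induction with
    | base =>
      intro _
      have := Real.log_natCast_nonneg w
      simp only [Ioc_self, sum_empty, zero_div, sub_self, zero_add]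
      positivity
    | succ R hR ih =>
      intro hRD
      have h1 := ih (by omega)
      have h2 := h R hR (by omega)
      have R0 : (0 : ℝ) < R := by exact_mod_cast (by omega : 0 < R)
      have h3 : 1 / ((R : ℝ) + 1) ≤ Real.log (R + 1) - Real.log R := by
        have := Real.log_le_sub_one_of_pos (x := R / (R + 1)) (by positivity)
        rw [Real.log_div R0.ne' (by positivity)] at this
        have e : (R : ℝ) / (R + 1) - 1 = -(1 / (R + 1)) := by field_simp; ring
        linarith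
      rw [sum_Ioc_succ_top hR, sum_Ioc_succ_top hR]
      push_cast
      set S := ∑ q ∈ Ioc w R, s q
      have h4 : S / R - S / (R + 1) ≤ α / R - α / (R + 1) + β * (1 / (R + 1)) + γ := by
        have e1 : S / R - S / (R + 1) = S / (R * (R + 1)) := by field_simp; ring
        have e2 : α / R - α / (R + 1) + β * (1 / (R + 1)) + γ =
            (α + β * R + γ * R ^ 2 + γ * R) / (R * (R + 1)) := by field_simp; ring
        rw [e1, e2]
        gcongr
        nlinarith [mul_nonneg hγ R0.le]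
      have h5 := mul_le_mul_of_nonneg_left h3 hβ
      rw [add_div]
      linarith
  have h1 := main D hD le_rfl
  have D0 : (0 : ℝ) < D := by exact_mod_cast (by omega : 0 < D)
  have h2 : (∑ q ∈ Ioc w D, s q) / D ≤ α / D + β + γ * D := by
    rw [div_le_iff₀ D0]
    refine (h D hD le_rfl).trans (le_of_eq ?_)
    field_simp
  linarith

end TIbP

open TIbP

theorem pTIb : S_TIb := by
  refine ⟨12, by norm_num, fun a N w D γ ha hD hw hN hγ u v hu hv => ?_⟩
  have hl := Real.log_natCast_nonneg D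
  rcases le_or_gt D w with hDw | hwD
  · simp only [Bf, Ioc_eq_empty_of_le hDw, sum_empty, zero_mul, sum_const_zero, norm_zero]
    positivity
  obtain ⟨x, hx, x0⟩ : ∃ x : ℝ, x ^ 2 = a ∧ 0 < x ∧ √a = x :=
    ⟨_, Real.sq_sqrt (Nat.cast_nonneg a), Real.sqrt_pos.2 (by exact_mod_cast ha.pos), rfl⟩
  obtain ⟨y, hy, y0⟩ : ∃ y : ℝ, y ^ 2 = N ∧ 0 < y ∧ √N = y :=
    ⟨_, Real.sq_sqrt (Nat.cast_nonneg N), Real.sqrt_pos.2 (by exact_mod_cast hN), rfl⟩
  obtain ⟨x0, ex⟩ := x0
  obtain ⟨y0, ey⟩ := y0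
  set U : ℕ → ℕ → ℂ := fun q r => ∑ n ∈ Ico N (2 * N), u n * e ((r : ℝ) * a / q * n) with hU
  set V : ℕ → ℕ → ℂ := fun q r => ∑ b ∈ Ico 1 a, v b * e ((r : ℝ) * (1 : ℕ) / q * b) with hV
  set s : ℕ → ℝ := fun q => ∑ r ∈ (range q).filter (fun r => r.Coprime q), ‖U q r‖ * ‖V q r‖
    with hs
  have e1 : Bf a N (fun m => ∑ q ∈ Ioc w D, γ q *
      ∑ r ∈ (range q).filter (fun r => r.Coprime q), e ((r : ℝ) * m / q)) u v =
      ∑ q ∈ Ioc w D, γ q * ∑ r ∈ (range q).filter (fun r => r.Coprime q), U q r * V q r := by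
    simp only [hU, hV, sum_mul_sum]
    simp only [Bf, mul_sum, sum_mul]
    refine (sum_congr rfl fun n _ => sum_comm).trans (sum_comm.trans ?_)
    refine sum_congr rfl fun q _ => ?_
    refine (sum_congr rfl fun n _ => sum_comm).trans (sum_comm.trans ?_)
    refine sum_congr rfl fun r _ => sum_congr rfl fun n _ => sum_congr rfl fun b _ => ?_
    have : (r : ℝ) * (a * n + b : ℕ) / q = (r : ℝ) * a / q * n + (r : ℝ) * (1 : ℕ) / q * b := by
      push_cast
      ring
    rw [this, e_add]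
    ring
  have e2 : ‖∑ q ∈ Ioc w D, γ q * ∑ r ∈ (range q).filter (fun r => r.Coprime q), U q r * V q r‖ ≤
      ∑ q ∈ Ioc w D, s q / q := by
    refine (norm_sum_le _ _).trans (sum_le_sum fun q _ => ?_)
    rw [norm_mul, div_eq_inv_mul, ← one_div]
    refine mul_le_mul (hγ q) ((norm_sum_le _ _).trans (le_of_eq ?_)) (norm_nonneg _)
      (by positivity)
    simp only [hs, norm_mul]
  set L := 1 + Real.log D with hL
  have L1 : 1 ≤ L := by linarith
  have e3 : ∀ R, w ≤ R → R ≤ D → ∑ q ∈ Ioc w R, s q ≤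
      6 * L * x * y * (2 * x * y) + 6 * L * x * y * (x + 2 * y) * R + 6 * L * x * y * R ^ 2 := by
    intro R h1 h2
    have hR : 1 ≤ R := hw.trans h1
    have R0 : (0 : ℝ) < R := by exact_mod_cast hR
    have hlR := Real.log_natCast_nonneg R
    have hLR : 1 + Real.log R ≤ L := by
      have := Real.log_le_log R0 (show (R : ℝ) ≤ D by exact_mod_cast h2)
      linarith
    have a1 := lsv (X := 2 * N) (a := a) (I := Ico N (2 * N)) hR (fun q hq =>
      Nat.coprime_of_lt_prime (by have := (mem_Icc.1 hq).1; omega)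
        (by have := (mem_Icc.1 hq).2; omega) ha)
      (fun n hn => by rw [mem_Ico] at hn; rw [mem_Icc]; omega) hu
    have a2 := lsv (X := a) (a := 1) (I := Ico 1 a) hR (fun q _ => Nat.coprime_one_left q)
      (fun n hn => by rw [mem_Ico] at hn; rw [mem_Icc]; omega) hv
    have c1 : ((Ico N (2 * N)).card : ℝ) = y ^ 2 := by
      rw [Nat.card_Ico, hy, two_mul, Nat.add_sub_cancel]
    have c2 : ((Ico 1 a).card : ℝ) ≤ x ^ 2 := by
      rw [Nat.card_Ico, hx]
      exact_mod_cast Nat.sub_le a 1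
    have b1 : 6 * (((2 * N : ℕ) : ℝ) + (R : ℝ) ^ 2) * (1 + Real.log R) * (Ico N (2 * N)).card ≤
        6 * (2 * y + R) ^ 2 * L * y ^ 2 := by
      rw [c1]
      push_cast
      rw [← hy]
      gcongr
      nlinarith [mul_pos y0 R0]
    have b2 : 6 * ((a : ℝ) + (R : ℝ) ^ 2) * (1 + Real.log R) * (Ico 1 a).card ≤
        6 * (x + R) ^ 2 * L * x ^ 2 := by
      rw [← hx]
      gcongr
      nlinarith [mul_pos x0 R0]
    have d1 := sum_mul_sq_le_sq_mul_sq
      ((Icc 1 R).sigma fun q => (range q).filter fun r => r.Coprime q)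
      (fun z => ‖U z.1 z.2‖) fun z => ‖V z.1 z.2‖
    rw [sum_sigma, sum_sigma, sum_sigma] at d1
    have d2 := d1.trans (mul_le_mul (a1.trans b1) (a2.trans b2) (by positivity) (by positivity))
    have d3 : ∑ q ∈ Ioc w R, s q ≤ ∑ q ∈ Icc 1 R, s q :=
      sum_le_sum_of_subset_of_nonneg
        (fun q hq => by rw [mem_Ioc] at hq; rw [mem_Icc]; omega) fun q _ _ => by positivity
    refine d3.trans (abs_le_of_sq_le_sq' (d2.trans (le_of_eq ?_)) (by positivity)).2
    ring
  have e4 := abel hw hwD.le (by positivity) (by positivity) e3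
  rw [e1, Real.sqrt_mul (Nat.cast_nonneg a), ex, ey, ← hx, ← hy]
  refine e2.trans (e4.trans ?_)
  have w0 : (0 : ℝ) < w := by exact_mod_cast hw
  have D0 : (0 : ℝ) ≤ D := Nat.cast_nonneg D
  have e5 : 12 * L ^ 2 * (1 / w + 1 / y + 1 / x + D / (x * y)) * x ^ 2 * y ^ 2 =
      6 * L * x * y * (L * (2 * x * y / w) + (2 * x + 2 * y) * L + L * (2 * D)) := by
    field_simp
    ring
  have e6 : 6 * L * x * y * (2 * x * y) / w + 6 * L * x * y * (x + 2 * y) * L +
      2 * (6 * L * x * y) * D = 6 * L * x * y * (2 * x * y / w + (x + 2 * y) * L + 2 * D) := by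
    ring
  rw [← hL, e5, e6]
  refine mul_le_mul_of_nonneg_left (add_le_add (add_le_add ?_ ?_) ?_) (by positivity)
  · exact le_mul_of_one_le_left (by positivity) L1
  · exact mul_le_mul_of_nonneg_right (by linarith) (by positivity)
  · exact le_mul_of_one_le_left (by positivity) L1

end Pool.Agent.P.MP_746f10_nt.AP
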