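import Pool.Agent.P.MP_746f10_nt.AP.Base
import Pool.Agent.P.MP_a14ce1_nt.Ch.ScalesB

/-! Short sums of a function with two factorisations. -/

namespace Pool.Agent.P.MP_746f10_nt.AP

open Finset MeasureTheory
open Pool.Agent.P.MP_a14ce1_nt
open Pool.Agent.P.MP_a14ce1_nt.Ch (nit sm cw psi Fx)

namespace VarP

lemma tail {T : ℝ} (hT : 0 < T) : Real.pi / 2 - Real.arctan T ≤ 1 / T := by
  rw [← Real.arctan_inv_of_pos hT, one_div]
  have h := Real.le_tan (Real.arctan_nonneg.2 (inv_pos.2 hT).le) (Real.arctan_lt_pi_div_two T⁻¹)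
  rwa [Real.tan_arctan] at h

lemma cw_one : cw 1 = fun u => (1 + u ^ 2)⁻¹ := by
  funext u; simp [cw]

/-- the smoothed polynomial of a convolution as a double sum -/
lemma Fx_cv {f α β : ℕ → ℂ} {X : ℕ} (hX : 1 ≤ X) (hf : ∀ n, f n = cv α β n) {A B : Finset ℕ}
    (hA : ∀ k ∈ A, 1 ≤ k) (hB : ∀ l ∈ B, 1 ≤ l)
    (h : ∀ k l : ℕ, 1 ≤ k → 1 ≤ l → α k ≠ 0 → (X : ℝ) / 3 < k * l → k * l ≤ 8 * X →
      k ∈ A ∧ l ∈ B) (t : ℝ) :
    Fx f X t = ∑ k ∈ A, ∑ l ∈ B, α k / k * (β l / l) *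
      ((psi (Real.log ((k * l : ℕ) : ℝ) - Real.log X) : ℝ) : ℂ) * nit t ((k * l : ℕ) : ℝ) := by
  have e : Fx f X t = ∑ n ∈ Icc 1 (8 * X), ∑ x ∈ n.divisorsAntidiagonal,
      α x.1 / x.1 * (β x.2 / x.2) * ((psi (Real.log ((x.1 * x.2 : ℕ) : ℝ) - Real.log X) : ℝ) : ℂ) *
        nit t ((x.1 * x.2 : ℕ) : ℝ) := by
    refine sum_congr rfl fun n _ => ?_
    rw [hf, cv, sum_mul, sum_mul]
    refine sum_congr rfl fun x hx => ?_
    rw [← (Nat.mem_divisorsAntidiagonal.1 hx).1]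
    push_cast
    ring
  have sp : ∀ k l : ℕ, 1 ≤ k → 1 ≤ l → α k / k * (β l / l) *
      ((psi (Real.log ((k * l : ℕ) : ℝ) - Real.log X) : ℝ) : ℂ) * nit t ((k * l : ℕ) : ℝ) ≠ 0 →
      α k ≠ 0 ∧ (X : ℝ) / 3 < k * l ∧ k * l ≤ 8 * X := by
    intro k l hk hl h0
    have := Ch.Scales.psi_supp hX (Nat.mul_pos hk hl) fun h1 => h0 (by rw [h1]; simp)
    refine ⟨fun h1 => h0 (by rw [h1]; simp), by exact_mod_cast this.1, by exact_mod_cast this.2.le⟩
  rw [e, sum_sigma', ← sum_product']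
  refine sum_bij_ne_zero (fun x _ _ => x.2) ?_ ?_ ?_ fun _ _ _ => rfl
  · intro x hx h0
    obtain ⟨h1, h2⟩ := Nat.mem_divisorsAntidiagonal.1 (mem_sigma.1 hx).2
    have hk : 1 ≤ x.2.1 := Nat.pos_of_ne_zero fun h3 => h2 (by rw [← h1, h3, zero_mul])
    have hl : 1 ≤ x.2.2 := Nat.pos_of_ne_zero fun h3 => h2 (by rw [← h1, h3, mul_zero])
    obtain ⟨a, b, c⟩ := sp _ _ hk hl h0
    exact mem_product.2 (h _ _ hk hl a b c)
  · rintro ⟨n, x⟩ hx _ ⟨n', x'⟩ hx' _ (rfl : x = x')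
    have h1 := (Nat.mem_divisorsAntidiagonal.1 (mem_sigma.1 hx).2).1
    have h2 := (Nat.mem_divisorsAntidiagonal.1 (mem_sigma.1 hx').2).1
    obtain rfl : n = n' := h1.symm.trans h2
    rfl
  · intro x hx h0
    have hk := hA _ (mem_product.1 hx).1
    have hl := hB _ (mem_product.1 hx).2
    have h1 : 1 ≤ x.1 * x.2 := Nat.mul_pos hk hl
    exact ⟨⟨x.1 * x.2, x⟩, mem_sigma.2 ⟨mem_Icc.2 ⟨h1, (sp _ _ hk hl h0).2.2⟩,
      Nat.mem_divisorsAntidiagonal.2 ⟨rfl, by dsimp only; omega⟩⟩, h0, rfl⟩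

/-- cofactors -/
noncomputable def MM (X P : ℕ) : Finset ℕ :=
  (Icc 1 (8 * X / P)).filter fun m => (X : ℝ) / (6 * P) ≤ m

lemma mom (h3 : Ch.S_Moment) {X P : ℕ} (hX : 1 ≤ X) (hP : 1 ≤ P) {b : ℕ → ℂ}
    (hb : ∀ m ∈ MM X P, ‖b m‖ ≤ 1 / (m : ℝ)) {T s : ℝ} (hT : 0 < T) (hs : 1 ≤ s)
    (hT' : T * P ≤ s * X) : ∫ t, cw T t * sm (MM X P) b t ≤ 80000 * s := by
  have hX' : (0 : ℝ) < X := by exact_mod_cast hX
  have hP' : (0 : ℝ) < P := by exact_mod_cast hP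
  have h := h3 T 1 ∅ (MM X P) 0 b ((X : ℝ) / (6 * P)) (8 * X / P) 0 hT le_rfl (by simp) (by simp)
    (by positivity) (fun m hm => ⟨(mem_filter.1 hm).2, (mem_Icc.1 (mem_filter.1 hm).1).2⟩) hb
  simp only [pow_zero, one_mul, mul_zero, mul_one, zero_add] at h
  refine h.trans ?_
  set Y : ℝ := X / (6 * P) with hY
  have hY0 : 0 < Y := by positivity
  have h1 : T ≤ 6 * s * Y := by
    rw [hY, show 6 * s * (X / (6 * (P : ℝ))) = s * X / P by field_simp, le_div_iff₀ hP']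
    exact hT'
  have h2 : ((8 * X / P : ℕ) : ℝ) ≤ 48 * Y := by
    refine Nat.cast_div_le.trans (le_of_eq ?_)
    rw [hY]; push_cast; field_simp; norm_num
  have h4 : T + 2 * ((8 * X / P : ℕ) : ℝ) ≤ 102 * s * Y := by nlinarith
  have h5 := Real.pi_pos.le
  have h6 := Real.pi_le_four
  rw [div_le_iff₀ (by positivity)]
  calc _ ≤ 4 ^ 2 * (102 * s * Y) * (48 * Y) := by gcongr
    _ = 78336 * (s * Y ^ 2) := by ring
    _ ≤ 80000 * (s * Y ^ 2) := by gcongr; norm_num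
    _ = _ := by ring

lemma norm_div_le {α : ℕ → ℂ} {k : ℕ} (h : ‖α k‖ ≤ 1) : ‖α k / k‖ ≤ 1 / (k : ℝ) := by
  rw [norm_div, Complex.norm_natCast]
  exact div_le_div_of_nonneg_right h (Nat.cast_nonneg k)

lemma sm_PP (h4 : Ch.S_SmReg) {P : ℕ} (hP : 1 ≤ P) {pp : ℕ → ℂ} (h : ∀ p, ‖pp p‖ ≤ 1) (t : ℝ) :
    sm (PP P (2 * P)) (fun p => pp p / p) t ≤ 4 := by
  have hP' : (0 : ℝ) < P := by exact_mod_cast hP
  have h1 : ∑ p ∈ PP P (2 * P), ‖pp p / p‖ ≤ 1 := by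
    calc _ ≤ ∑ _p ∈ PP P (2 * P), 1 / (P : ℝ) := sum_le_sum fun p hp =>
          (norm_div_le (h p)).trans (one_div_le_one_div_of_le hP'
            (by exact_mod_cast (mem_PP.1 hp).1.le))
      _ ≤ ∑ _p ∈ Ioc P (2 * P), 1 / (P : ℝ) :=
          sum_le_sum_of_subset_of_nonneg (filter_subset _ _) fun _ _ _ => by positivity
      _ = 1 := by
          rw [sum_const, Nat.card_Ioc, show 2 * P - P = P by omega, nsmul_eq_mul]
          field_simp
  have h2 : 0 ≤ ∑ p ∈ PP P (2 * P), ‖pp p / p‖ := by positivity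
  refine ((h4 _ _).2 t).2.trans ?_
  have := Real.pi_le_four
  calc _ ≤ 4 * (1 : ℝ) ^ 2 := by gcongr
    _ = 4 := by norm_num

lemma sm_al (h4 : Ch.S_SmReg) {X : ℕ} (hX : 1 ≤ X) {al : ℕ → ℂ} (h : ∀ k, ‖al k‖ ≤ 1) (t : ℝ) :
    sm (Icc 1 (8 * X)) (fun k => al k / k) t ≤ 64 * (1 + Real.log X) ^ 2 := by
  have hX' : (1 : ℝ) ≤ X := by exact_mod_cast hX
  have h0 := Real.log_nonneg hX'
  have h1 : ∑ k ∈ Icc 1 (8 * X), ‖al k / k‖ ≤ 4 * (1 + Real.log X) := by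
    have h2 := sum_inv_le_log (8 * X)
    have h3 : Real.log ((8 * X : ℕ) : ℝ) = 3 * Real.log 2 + Real.log X := by
      push_cast
      rw [Real.log_mul (by norm_num) (by positivity), show (8 : ℝ) = 2 ^ 3 by norm_num,
        Real.log_pow]
      norm_num
    have h5 := Real.log_two_lt_d9
    have h6 : ∑ k ∈ Icc 1 (8 * X), ‖al k / k‖ ≤ ∑ k ∈ Ioc 0 (8 * X), (k : ℝ)⁻¹ :=
      sum_le_sum fun k _ => (norm_div_le (h k)).trans (one_div _).le
    linarith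
  have h2 : 0 ≤ ∑ k ∈ Icc 1 (8 * X), ‖al k / k‖ := by positivity
  refine ((h4 _ _).2 t).2.trans ?_
  have := Real.pi_le_four
  calc _ ≤ 4 * (4 * (1 + Real.log X)) ^ 2 := by gcongr
    _ = _ := by ring

/-- the three ranges of the integral -/
lemma three {X h T1 c1 c2 c3 s1 s3 : ℝ} {G m : ℝ → ℝ} (hX : 0 < X) (hh : 1 ≤ h) (hT : 0 ≤ T1)
    (hm : Ch.Scales.BC m) (m0 : ∀ t, 0 ≤ m t) (G0 : ∀ t, 0 ≤ G t) (p1 : 0 ≤ c1) (p2 : 0 ≤ c2)
    (p3 : 0 ≤ c3) (h1 : ∀ t, T1 ≤ |t| → |t| ≤ X → G t ≤ c1 * m t) (h2 : ∀ t, |t| < T1 → G t ≤ c2)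
    (h3 : ∀ t, G t ≤ c3 * m t) (i1 : ∫ t, cw (X / h) t * m t ≤ s1) (i3 : ∫ t, cw X t * m t ≤ s3) :
    ∫ t, cw (X / h) t * G t ≤ c1 * s1 + 2 * T1 * c2 + c3 * (2 / h ^ 2) * s3 := by
  have hT0 : 0 < X / h := by positivity
  have a1 := (hm.int hT0).const_mul c1
  have a3 := (hm.int hX).const_mul (c3 * (2 / h ^ 2))
  have a2 : Integrable ((Set.Ioo (-T1) T1).indicator fun _ : ℝ => c2) :=
    (integrable_indicator_iff measurableSet_Ioo).2 (integrableOn_const (by simp))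
  refine (integral_mono_of_nonneg (Filter.Eventually.of_forall fun t =>
    mul_nonneg (Ch.cw_pos _ t).le (G0 t)) ((a1.add a2).add a3)
    (Filter.Eventually.of_forall fun t => ?_)).trans ?_
  · have b1 : 0 ≤ c1 * (cw (X / h) t * m t) := mul_nonneg p1 (mul_nonneg (Ch.cw_pos _ t).le (m0 t))
    have b3 : 0 ≤ c3 * (2 / h ^ 2) * (cw X t * m t) :=
      mul_nonneg (by positivity) (mul_nonneg (Ch.cw_pos _ t).le (m0 t))
    have b2 : 0 ≤ (Set.Ioo (-T1) T1).indicator (fun _ : ℝ => c2) t :=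
      Set.indicator_nonneg (fun _ _ => p2) t
    have c0 := (Ch.cw_pos (X / h) t).le
    change cw (X / h) t * G t ≤ c1 * (cw (X / h) t * m t) +
      (Set.Ioo (-T1) T1).indicator (fun _ : ℝ => c2) t + c3 * (2 / h ^ 2) * (cw X t * m t)
    rcases lt_or_ge |t| T1 with ht | ht
    · rw [Set.indicator_of_mem (show t ∈ Set.Ioo (-T1) T1 from abs_lt.1 ht)]
      have := mul_le_mul (Ch.cw_le_one (X / h) t) (h2 t ht) (G0 t) zero_le_one
      linarith
    rcases le_total |t| X with ht' | ht'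
    · have := mul_le_mul_of_nonneg_left (h1 t ht ht') c0
      linarith
    · have := mul_le_mul (Ch.Scales.cw_far hX hh ht') (h3 t) (G0 t)
        (mul_nonneg (by positivity) (Ch.cw_pos X t).le)
      linarith
  · rw [integral_add' (a1.add a2) a3, integral_add' a1 a2, integral_const_mul, integral_const_mul,
      integral_indicator measurableSet_Ioo, setIntegral_const, Real.volume_real_Ioo_of_le
        (by linarith), smul_eq_mul, show T1 - -T1 = 2 * T1 by ring]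
    gcongr

end VarP

theorem pSmLe : S_SmLe := by
  intro S a t T ε hT h
  set B := (∑ n ∈ S, ‖a n‖) ^ 2 with hB
  have hB0 : 0 ≤ B := by positivity
  have i0 := Ch.integrable_cw one_pos
  have a1 := i0.mul_const (ε ^ 2)
  have a2 := (i0.mul_const B).indicator (measurableSet_Ioi (a := T))
  have a3 := (i0.mul_const B).indicator (measurableSet_Iic (a := -T))
  refine (integral_mono_of_nonneg (Filter.Eventually.of_forall fun u =>
    mul_nonneg (Ch.cw_pos _ u).le (sq_nonneg _)) ((a1.add a2).add a3)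
    (Filter.Eventually.of_forall fun u => ?_)).trans ?_
  · have c0 := (Ch.cw_pos 1 u).le
    have b1 : 0 ≤ cw 1 u * ε ^ 2 := by positivity
    have b2 : ∀ s : Set ℝ, 0 ≤ s.indicator (fun u => cw 1 u * B) u := fun s =>
      Set.indicator_nonneg (fun v _ => mul_nonneg (Ch.cw_pos 1 v).le hB0) u
    have b3 : cw 1 u * ‖∑ n ∈ S, a n * nit (t + u) n‖ ^ 2 ≤ cw 1 u * B := by
      rw [hB]
      gcongr
      refine (norm_sum_le _ _).trans (le_of_eq (sum_congr rfl fun n _ => ?_))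
      rw [norm_mul, Ch.norm_nit, mul_one]
    change cw 1 u * ‖∑ n ∈ S, a n * nit (t + u) n‖ ^ 2 ≤ cw 1 u * ε ^ 2 +
      (Set.Ioi T).indicator (fun u => cw 1 u * B) u + (Set.Iic (-T)).indicator (fun u => cw 1 u * B) u
    by_cases h1 : T < u
    · rw [Set.indicator_of_mem (show u ∈ Set.Ioi T from h1)]
      linarith [b2 (Set.Iic (-T))]
    by_cases h2 : u ≤ -T
    · rw [Set.indicator_of_mem (show u ∈ Set.Iic (-T) from h2)]
      linarith [b2 (Set.Ioi T)]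
    have h3 := h (t + u) (by rw [add_sub_cancel_left, abs_le]; constructor <;> linarith)
    have : cw 1 u * ‖∑ n ∈ S, a n * nit (t + u) n‖ ^ 2 ≤ cw 1 u * ε ^ 2 := by gcongr
    linarith [b2 (Set.Iic (-T)), b2 (Set.Ioi T)]
  · rw [integral_add' (a1.add a2) a3, integral_add' a1 a2, integral_indicator measurableSet_Ioi,
      integral_indicator measurableSet_Iic, integral_mul_const, integral_mul_const,
      integral_mul_const, Ch.integral_cw one_pos, VarP.cw_one, integral_Ioi_inv_one_add_sq,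
      integral_Iic_inv_one_add_sq, Real.arctan_neg]
    have := mul_le_mul_of_nonneg_right (VarP.tail hT) hB0
    have e : 2 / T * B = 2 * (1 / T * B) := by ring
    linarith

theorem pVar (h1 : Ch.S_Reduce) (h2 : Ch.S_Separate) (h3 : Ch.S_Moment) (h4 : Ch.S_SmReg) :
    S_Var := by
  obtain ⟨C1, hC1, h1⟩ := h1
  obtain ⟨C2, hC2, h2⟩ := h2
  refine ⟨C1 * (1 + √(C2 * 10 ^ 6)), by positivity, ?_⟩
  intro X P R h T1 ε1 ε2 B0 f pp yy al gm hX hP hPh hhX hR hT hε1 hε2 hB f1 f2 pS p1 a1 hb s1 s2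
  have hX1 : 1 ≤ X := by omega
  have hX' : (0 : ℝ) < X := by exact_mod_cast hX1
  have hP' : (1 : ℝ) ≤ P := by exact_mod_cast hP
  have hh : 1 ≤ h := hP'.trans hPh
  have hB0 : 0 < B0 := by linarith
  have hBc : (B0 : ℂ) ≠ 0 := by exact_mod_cast hB0.ne'
  have nd : ∀ z : ℂ, ‖z / B0‖ = ‖z‖ / B0 := fun z => by
    rw [norm_div, Complex.norm_real, Real.norm_of_nonneg hB0.le]
  set ft : ℕ → ℂ := fun n => if n ≤ 8 * X then f n / B0 else 0 with hft
  have e0 : ∀ t, Fx ft X t = Fx (fun n => f n / B0) X t := fun t =>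
    sum_congr rfl fun n hn => by rw [hft]; simp only [if_pos (mem_Icc.1 hn).2]
  have red := h1 ft X R h (fun n => by
    rw [hft]; dsimp only; split_ifs with hn
    · rw [nd, div_le_one hB0]; exact (hb n hn).2
    · simp) hh hhX hR hX
  have lhs : ∑ x ∈ Ico X (2 * X), ‖∑ j ∈ range R, f (x + j)‖ =
      B0 * ∑ x ∈ Ico X (2 * X), ‖∑ j ∈ range R, ft (x + j)‖ := by
    rw [mul_sum]
    refine sum_congr rfl fun x hx => ?_
    have : ∑ j ∈ range R, ft (x + j) = (∑ j ∈ range R, f (x + j)) / B0 := by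
      rw [sum_div]
      refine sum_congr rfl fun j hj => if_pos ?_
      have := mem_Ico.1 hx; have := mem_range.1 hj; omega
    rw [this, nd]; field_simp
  have dv : ∀ {α β : ℕ → ℂ}, (∀ n, f n = cv α β n) → ∀ n,
      f n / B0 = cv α (fun l => β l / B0) n := fun {α β} e n => by
    rw [e, cv, cv, sum_div]
    exact sum_congr rfl fun x _ => mul_div_assoc _ _ _
  have hbM : ∀ m ∈ VarP.MM X P, ‖yy m / B0 / m‖ ≤ 1 / (m : ℝ) := fun m hm =>
    VarP.norm_div_le (α := fun m => yy m / B0) (by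
      rw [nd, div_le_one hB0]
      exact (hb m ((mem_Icc.1 (mem_filter.1 hm).1).2.trans (Nat.div_le_self _ _))).1)
  have g1 : ∀ t, ‖Fx ft X t‖ ^ 2 ≤ C2 * (sm (PP P (2 * P)) (fun p => pp p / p) t *
      sm (VarP.MM X P) (fun m => yy m / B0 / m) t) := fun t => by
    have q1 : ∀ p ∈ PP P (2 * P), 1 ≤ p := fun p hp => (PP_prime hp).pos
    have q2 : ∀ m ∈ VarP.MM X P, 1 ≤ m := fun m hm => (mem_Icc.1 (mem_filter.1 hm).1).1
    rw [e0, VarP.Fx_cv hX1 (dv f1) q1 q2 fun k l _ hl hk u1 u2 => ⟨pS k hk, ?_⟩]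
    · exact h2 _ _ _ _ _ t q1 q2
    obtain ⟨k1, k2, -⟩ := mem_PP.1 (pS k hk)
    refine mem_filter.2 ⟨mem_Icc.2 ⟨hl, ?_⟩, ?_⟩
    · rw [Nat.le_div_iff_mul_le hP]
      exact le_trans (by rw [mul_comm]; exact Nat.mul_le_mul_right _ k1.le) u2
    · rw [div_le_iff₀ (by positivity)]
      have k3 : (k : ℝ) ≤ 2 * P := by exact_mod_cast k2
      have k4 : (0 : ℝ) ≤ l := Nat.cast_nonneg l
      nlinarith
  have g2 : ∀ t, |t| < T1 → ‖Fx ft X t‖ ^ 2 ≤ C2 * (64 * (1 + Real.log X) ^ 2 * ε2) := fun t ht => by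
    have q1 : ∀ p ∈ Icc 1 (8 * X), 1 ≤ p := fun p hp => (mem_Icc.1 hp).1
    have e1 : Fx (fun n => f n / B0) X t = Fx f X t / B0 := by
      rw [Fx, Fx, sum_div]
      exact sum_congr rfl fun n _ => by ring
    have e2 : ‖Fx ft X t‖ ≤ ‖Fx f X t‖ := by
      rw [e0, e1, nd]
      exact div_le_self (norm_nonneg _) hB
    refine (pow_le_pow_left₀ (norm_nonneg _) e2 2).trans ?_
    rw [VarP.Fx_cv hX1 f2 q1 q1 fun k l hk hl _ _ u2 => ⟨mem_Icc.2 ⟨hk, ?_⟩, mem_Icc.2 ⟨hl, ?_⟩⟩]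
    · refine (h2 _ _ _ _ _ t q1 q1).trans ?_
      have := ((h4 (Icc 1 (8 * X)) fun l => gm l / l).2 t).1
      gcongr
      exacts [VarP.sm_al h4 hX1 a1 t, s2 t ht]
    · exact le_trans (Nat.le_mul_of_pos_right _ hl) u2
    · exact le_trans (Nat.le_mul_of_pos_left _ hk) u2
  have m0 := fun t => ((h4 (VarP.MM X P) fun m => yy m / B0 / m).2 t).1
  have key := VarP.three (G := fun t => ‖Fx ft X t‖ ^ 2) (c1 := C2 * ε1) (c3 := C2 * 4) hX' hh hT
    (Ch.Scales.bc_sm h4 _ _) m0 (fun _ => sq_nonneg _) (by positivity) (by positivity)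
    (by positivity) (fun t u1 u2 => (g1 t).trans (by
      rw [mul_assoc]; have := m0 t; gcongr; exact s1 t u1 u2)) g2
    (fun t => (g1 t).trans (by
      rw [mul_assoc]; have := m0 t; gcongr; exact VarP.sm_PP h4 hP p1 t))
    (VarP.mom h3 hX1 hP hbM (s := 1) (by positivity) le_rfl (by
      rw [div_mul_eq_mul_div, div_le_iff₀ (by positivity), one_mul]; gcongr))
    (VarP.mom h3 hX1 hP hbM (s := h) hX' hh (by rw [mul_comm]; gcongr))
  set E := ε1 + T1 * (1 + Real.log X) ^ 2 * ε2 + 1 / h with hE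
  have k1 : ∫ t, cw (X / h) t * ‖Fx ft X t‖ ^ 2 ≤ C2 * 10 ^ 6 * E := by
    refine key.trans ?_
    have e : C2 * 4 * (2 / h ^ 2) * (80000 * h) = C2 * (640000 * (1 / h)) := by field_simp; norm_num
    have u1 : 0 ≤ T1 * (1 + Real.log X) ^ 2 * ε2 := by positivity
    have u2 : 0 ≤ 1 / h := by positivity
    rw [e, hE]
    nlinarith [mul_nonneg hC2.le u1, mul_nonneg hC2.le u2, mul_nonneg hC2.le hε1]
  have k2 : √(∫ t, cw (X / h) t * ‖Fx ft X t‖ ^ 2) ≤ √(C2 * 10 ^ 6) * √E := by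
    rw [← Real.sqrt_mul (by positivity)]
    exact Real.sqrt_le_sqrt k1
  rw [lhs]
  have k3 : 0 ≤ √(C2 * 10 ^ 6) := Real.sqrt_nonneg _
  have k4 : 0 ≤ (R : ℝ) * X * √E := by positivity
  have k5 : 0 ≤ h * X + (R : ℝ) ^ 2 := by positivity
  calc _ ≤ B0 * (C1 * (R * X * (√(C2 * 10 ^ 6) * √E) + h * X + (R : ℝ) ^ 2)) := by
        refine mul_le_mul_of_nonneg_left (red.trans ?_) hB0.le
        gcongr
    _ ≤ B0 * (C1 * ((1 + √(C2 * 10 ^ 6)) * (R * X * √E + h * X + (R : ℝ) ^ 2))) := by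
        gcongr
        nlinarith [mul_nonneg k3 k5]
    _ = _ := by ring

end Pool.Agent.P.MP_746f10_nt.AP
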