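import Pool.Agent.P.MP_746f10_nt.AP.VKAll
import Pool.Agent.P.MP_746f10_nt.AP.Int
import Pool.Agent.P.MP_746f10_nt.AP.Rows
import Pool.Agent.P.MP_746f10_nt.AP.Pos
import Pool.Agent.P.MP_746f10_nt.AP.CSf
import Pool.Agent.P.MP_746f10_nt.AP.Ident
import Pool.Agent.P.MP_746f10_nt.AP.Bad
import Pool.Agent.P.MP_746f10_nt.AP.TIb
import Pool.Agent.P.MP_746f10_nt.AP.TIa
import Pool.Agent.P.MP_746f10_nt.AP.TIM
import Pool.Agent.P.MP_746f10_nt.AP.TA
import Pool.Agent.P.MP_746f10_nt.AP.Mod2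
import Pool.Agent.P.MP_746f10_nt.AP.Split
import Pool.Agent.P.MP_746f10_nt.AP.CSW
import Pool.Agent.P.MP_746f10_nt.AP.Four
import Pool.Agent.P.MP_746f10_nt.AP.L2
import Pool.Agent.P.MP_746f10_nt.AP.L3
import Pool.Agent.P.MP_746f10_nt.AP.Pair
import Pool.Agent.P.MP_746f10_nt.AP.Plane
import Pool.Agent.P.MP_746f10_nt.AP.Gam
import Pool.Agent.P.MP_746f10_nt.AP.Minor
import Pool.Agent.P.MP_746f10_nt.AP.Row
import Pool.Agent.P.MP_746f10_nt.AP.Var
import Pool.Agent.P.MP_746f10_nt.AP.HM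
import Pool.Agent.P.MP_746f10_nt.AP.Exc
import Pool.Agent.P.MP_746f10_nt.AP.Match
import Pool.Agent.P.MP_746f10_nt.AP.Major
import Pool.Agent.P.MP_746f10_nt.AP.Diff
import Pool.Agent.P.MP_746f10_nt.AP.II
import Pool.Agent.P.MP_746f10_nt.AP.G
import Pool.Agent.P.MP_746f10_nt.AP.KP
import Pool.Agent.P.MP_746f10_nt.AP.Red
import Pool.Agent.P.MP_a14ce1_nt.Ch.Cauchy
import Pool.Agent.P.MP_a14ce1_nt.Ch.Sm
import Pool.Agent.P.MP_a14ce1_nt.Ch.Reduce

/-! Assembly of all pieces. -/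

namespace Pool.Agent.P.MP_746f10_nt.AP

open Pool.Agent.P.MP_a14ce1_nt

theorem tim_all : S_TIM := pTIM (pTIa pTIb)

theorem minor_all : S_Minor :=
  pMinor pCSW pFour (pGam (pL3 pL2) (pPair pL2) pMass pPlane) (pPair pL2) pMass

theorem var_all : S_Var :=
  pVar (Ch.reduce Ch.cauchy) (Ch.separate Ch.fourier) (Ch.moment Ch.cauchy Ch.kernel) Ch.smReg

theorem major_all : S_Major := pMajor pRow var_all pSmLe pMatch box_all Ch.smReg

theorem ii_all : S_II :=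
  pII pCS (pDiff pSplit minor_all major_all pMatch) (pMod2 tim_all) (pExc pHM) pMatch

theorem g_all : S_G := pG (pIdent pCS) (pBad (pUp pInt)) (pA pInt) tim_all ii_all

theorem kp_all : S_KP := pKP g_all (pRows pInt) (pBlk pnt0)

theorem main_all : S_Main := pMain kp_all pPos (pRows pInt)

end Pool.Agent.P.MP_746f10_nt.AP
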