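import Pool.Agent.P.MP_746f10_nt.AP.Defs

/-! Small facts on the definitions. -/

namespace Pool.Agent.P.MP_746f10_nt.AP

open Finset Filter

/-! ### Indicators -/

lemma rr_bd (w m : ℕ) : 0 ≤ rr w m ∧ rr w m ≤ 1 := by unfold rr; split_ifs <;> norm_num

lemma dd_bd (m d : ℕ) : 0 ≤ dd m d ∧ dd m d ≤ 1 := by unfold dd; split_ifs <;> norm_num

lemma pr1_bd (m : ℕ) : 0 ≤ pr1 m ∧ pr1 m ≤ 1 := by unfold pr1; split_ifs <;> norm_num

lemma bad_bd (u Q m : ℕ) : 0 ≤ bad u Q m ∧ bad u Q m ≤ 1 := by unfold bad; split_ifs <;> norm_num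

lemma rr_of_rough {w m : ℕ} (h : rough w m) : rr w m = 1 := by unfold rr; rw [if_pos h]

lemma rough_of_rr {w m : ℕ} (h : rr w m ≠ 0) : rough w m := by
  unfold rr at h; by_contra h1; exact h (if_neg h1)

lemma rough_of_le_rr {w m : ℕ} {x : ℝ} (h : 0 ≤ x ∧ x ≤ rr w m) (hx : x ≠ 0) : rough w m :=
  rough_of_rr fun h1 => hx (le_antisymm (h1 ▸ h.2) h.1)

lemma rough_mul {w k l : ℕ} : rough w (k * l) ↔ rough w k ∧ rough w l :=
  ⟨fun h => ⟨fun p hp hd => h p hp (hd.mul_right _), fun p hp hd => h p hp (hd.mul_left _)⟩,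
    fun h p hp hd => ((Nat.Prime.dvd_mul hp).1 hd).elim (h.1 p hp) (h.2 p hp)⟩

lemma rough_anti {z y n : ℕ} (h : z ≤ y) (hn : rough y n) : rough z n :=
  fun p hp hd => lt_of_le_of_lt h (hn p hp hd)

lemma rr_mul (w k l : ℕ) : rr w (k * l) = rr w k * rr w l := by
  unfold rr
  by_cases h1 : rough w k <;> by_cases h2 : rough w l <;> simp [rough_mul, h1, h2]

lemma rr_anti {z y : ℕ} (h : z ≤ y) (n : ℕ) : rr y n ≤ rr z n := by
  unfold rr
  split_ifs with h1 h2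
  exacts [le_rfl, absurd (rough_anti h h1) h2, zero_le_one, le_rfl]

lemma prod_dd {T : Finset ℕ} (hT : ∀ p ∈ T, p.Prime) (n : ℕ) :
    ∏ p ∈ T, dd n p = dd n (∏ p ∈ T, p) := by
  unfold dd
  rw [prod_boole]
  congr 1
  exact propext ⟨fun h => Finset.prod_primes_dvd n (fun p hp => (hT p hp).prime) h,
    fun h p hp => (dvd_prod_of_mem (fun p => p) hp).trans h⟩

lemma rr_eq_mul_prod {w z : ℕ} (h : w ≤ z) (n : ℕ) :
    rr z n = rr w n * ∏ p ∈ PP w z, (1 - dd n p) := by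
  by_cases h1 : rough z n
  · rw [rr_of_rough h1, rr_of_rough (rough_anti h h1), one_mul]
    exact (prod_eq_one fun p hp => by
      unfold dd
      rw [if_neg fun hd => absurd (h1 p (PP_prime hp) hd) (not_lt.2 (mem_PP.1 hp).2.1),
        sub_zero]).symm
  · have h2 : rr z n = 0 := by unfold rr; rw [if_neg h1]
    rw [h2]
    unfold rough at h1
    push Not at h1
    obtain ⟨p, hp, hd, h3⟩ := h1
    rcases le_or_gt p w with h4 | h4
    · have : rr w n = 0 := by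
        unfold rr; rw [if_neg fun hr => absurd (hr p hp hd) (not_lt.2 h4)]
      rw [this, zero_mul]
    · rw [prod_eq_zero (mem_PP.2 ⟨h4, h3, hp⟩) (by unfold dd; rw [if_pos hd, sub_self]), mul_zero]

lemma prod_one_sub_dd (y n : ℕ) : ∏ p ∈ PP 0 y, (1 - dd n p) = rr y n := by
  rw [rr_eq_mul_prod (Nat.zero_le y), rr_of_rough (fun p hp _ => hp.pos), one_mul]

/-! ### The binary logarithm -/

lemma two_pow_lg_le {Q : ℕ} (h : 1 ≤ Q) : 2 ^ lg Q ≤ Q := Nat.pow_log_le_self 2 (by omega)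

lemma lt_two_pow_lg (Q : ℕ) : Q < 2 ^ (lg Q + 1) := Nat.lt_pow_succ_log_self (by norm_num) Q

lemma tendsto_lg : Tendsto lg atTop atTop :=
  tendsto_atTop_atTop.2 fun b => ⟨2 ^ b, fun Q hQ =>
    (Nat.le_log_iff_pow_le (by norm_num) (by have := Nat.two_pow_pos b; omega)).2 hQ⟩

/-- transfer of an eventual property of `g` to `lg Q` -/
lemma ev_lg {p : ℕ → Prop} (h : ∀ᶠ g in atTop, p g) : ∃ Q0 : ℕ, ∀ Q, Q0 ≤ Q → p (lg Q) :=
  eventually_atTop.1 (tendsto_lg.eventually h)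

lemma lg_le_log {Q : ℕ} (h : 1 ≤ Q) : (lg Q : ℝ) / 2 ≤ Real.log Q := by
  have h1 : ((2 : ℝ)) ^ lg Q ≤ Q := by exact_mod_cast two_pow_lg_le h
  have h2 := Real.log_le_log (by positivity) h1
  rw [Real.log_pow] at h2
  have := Real.log_two_gt_d9
  have h0 : (0 : ℝ) ≤ lg Q := Nat.cast_nonneg _
  nlinarith

lemma log_le_lg {Q : ℕ} (h : 3 ≤ lg Q) : Real.log Q ≤ lg Q := by
  have hQ : 1 ≤ Q := by
    rcases Nat.eq_zero_or_pos Q with rfl | h0
    · simp [lg] at h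
    · exact h0
  have h1 : (Q : ℝ) ≤ 2 ^ (lg Q + 1) := by exact_mod_cast (lt_two_pow_lg Q).le
  have h2 := Real.log_le_log (by exact_mod_cast hQ) h1
  rw [Real.log_pow] at h2
  have := Real.log_two_lt_d9
  have h0 : (3 : ℝ) ≤ lg Q := by exact_mod_cast h
  push_cast at h2
  nlinarith

lemma ev_pow_le_two_pow (c C : ℕ) : ∀ᶠ s : ℕ in atTop, c * s ^ C ≤ 2 ^ s := by
  have h := (tendsto_pow_const_div_const_pow_of_one_lt C (r := (2 : ℝ)) one_lt_two).const_mul (c : ℝ)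
  rw [mul_zero] at h
  filter_upwards [h.eventually (gt_mem_nhds zero_lt_one)] with s hs
  rw [← mul_div_assoc, div_lt_one (by positivity)] at hs
  exact_mod_cast hs.le

lemma tendsto_sqrt : Tendsto Nat.sqrt atTop atTop :=
  tendsto_atTop_atTop.2 fun b => ⟨b * b, fun _ h => Nat.le_sqrt.2 h⟩

/-- powers of `g` are below two to the square root of `g` -/
lemma ev_pow_le_sqrt (c C : ℕ) : ∀ᶠ g : ℕ in atTop, c * g ^ C ≤ 2 ^ Nat.sqrt g := by
  filter_upwards [tendsto_sqrt.eventually (ev_pow_le_two_pow (c * 4 ^ C) (2 * C)),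
    tendsto_sqrt.eventually_ge_atTop 1] with g h1 h2
  refine le_trans ?_ h1
  have h3 : g ≤ 4 * Nat.sqrt g ^ 2 := by
    have := Nat.lt_succ_sqrt g
    simp only [Nat.succ_eq_add_one] at this
    nlinarith
  calc c * g ^ C ≤ c * (4 * Nat.sqrt g ^ 2) ^ C := by gcongr
    _ = _ := by rw [mul_pow, ← pow_mul]; ring

lemma ev_mul_sqrt_le (c : ℕ) : ∀ᶠ g : ℕ in atTop, c * Nat.sqrt g ≤ g := by
  filter_upwards [tendsto_sqrt.eventually_ge_atTop c] with g h
  exact (Nat.mul_le_mul_right _ h).trans (Nat.sqrt_le g)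

/-- powers of `g` are below two to any fixed fraction of `g` -/
lemma ev_pow_le_div (c C n : ℕ) (hn : 1 ≤ n) : ∀ᶠ g : ℕ in atTop, c * g ^ C ≤ 2 ^ (g / n) := by
  filter_upwards [ev_pow_le_sqrt c C, ev_mul_sqrt_le n] with g h1 h2
  refine h1.trans (Nat.pow_le_pow_right (by norm_num) ?_)
  exact (Nat.le_div_iff_mul_le hn).2 (by rwa [mul_comm])

/-! ### Convolution -/

section cv
variable {R : Type} [CommSemiring R]

lemma cv_eq_divisors (α β : ℕ → R) (m : ℕ) : cv α β m = ∑ k ∈ m.divisors, α k * β (m / k) :=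
  Nat.sum_divisorsAntidiagonal fun k l => α k * β l

lemma cv_comm (α β : ℕ → R) (m : ℕ) : cv α β m = cv β α m := by
  unfold cv
  conv_lhs => rw [← Nat.map_swap_divisorsAntidiagonal, sum_map]
  exact sum_congr rfl fun x _ => mul_comm _ _

lemma cv_add (α β γ : ℕ → R) (m : ℕ) : cv α (fun l => β l + γ l) m = cv α β m + cv α γ m := by
  unfold cv; rw [← sum_add_distrib]; exact sum_congr rfl fun x _ => mul_add _ _ _

lemma cv_congr {α α' β β' : ℕ → R} (h1 : ∀ k, k ≠ 0 → α k = α' k) (h2 : ∀ l, l ≠ 0 → β l = β' l)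
    (m : ℕ) : cv α β m = cv α' β' m :=
  sum_congr rfl fun x hx => by
    rw [h1 _ (Nat.left_ne_zero_of_mem_divisorsAntidiagonal hx),
      h2 _ (Nat.right_ne_zero_of_mem_divisorsAntidiagonal hx)]

/-- the arithmetic function attached to a sequence -/
def af (α : ℕ → R) : ArithmeticFunction R := ⟨fun n => if n = 0 then 0 else α n, if_pos rfl⟩

lemma cv_eq_af (α β : ℕ → R) (m : ℕ) : cv α β m = (af α * af β) m :=
  cv_congr (α' := af α) (β' := af β) (fun _ h => (if_neg h).symm) (fun _ h => (if_neg h).symm) m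

lemma cv_assoc (α β γ : ℕ → R) (m : ℕ) : cv (cv α β) γ m = cv α (cv β γ) m := by
  have h1 : cv (cv α β) γ m = (af α * af β * af γ) m :=
    cv_congr (α' := (af α * af β : ArithmeticFunction R)) (β' := af γ)
      (fun k _ => cv_eq_af α β k) (fun _ h => (if_neg h).symm) m
  have h2 : cv α (cv β γ) m = (af α * (af β * af γ)) m :=
    cv_congr (α' := af α) (β' := (af β * af γ : ArithmeticFunction R))
      (fun _ h => (if_neg h).symm) (fun k _ => cv_eq_af β γ k) m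
  rw [h1, h2, mul_assoc]

lemma cv_twist (α β φ : ℕ → R) (hφ : ∀ k l, φ (k * l) = φ k * φ l) (m : ℕ) :
    cv α β m * φ m = cv (fun k => α k * φ k) (fun l => β l * φ l) m := by
  unfold cv
  rw [sum_mul]
  refine sum_congr rfl fun x hx => ?_
  rw [← (Nat.mem_divisorsAntidiagonal.1 hx).1, hφ]; ring

lemma cv_ne_zero {α β : ℕ → R} {m : ℕ} (h : cv α β m ≠ 0) :
    ∃ k l, k * l = m ∧ α k ≠ 0 ∧ β l ≠ 0 := by
  obtain ⟨x, hx, h1⟩ := exists_ne_zero_of_sum_ne_zero h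
  exact ⟨x.1, x.2, (Nat.mem_divisorsAntidiagonal.1 hx).1, left_ne_zero_of_mul h1,
    right_ne_zero_of_mul h1⟩

end cv

lemma cv_ofReal (α β : ℕ → ℝ) (m : ℕ) :
    ((cv α β m : ℝ) : ℂ) = cv (fun k => (α k : ℂ)) (fun l => (β l : ℂ)) m := by
  unfold cv; push_cast; rfl

lemma abs_cv_le {α β : ℕ → ℝ} (h0 : ∀ k, 0 ≤ α k) (h1 : ∀ l, |β l| ≤ 1) (m : ℕ) :
    |cv α β m| ≤ ∑ k ∈ m.divisors, α k := by
  rw [cv_eq_divisors]
  refine (abs_sum_le_sum_abs _ _).trans (sum_le_sum fun k _ => ?_)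
  rw [abs_mul, abs_of_nonneg (h0 k)]
  exact mul_le_of_le_one_right (h0 k) (h1 _)

/-! ### Rows and the cut norm -/

/-- full rows cover an interval -/
lemma sum_rows {M : Type*} [AddCommMonoid M] (a n1 n2 : ℕ) (h : n1 ≤ n2) (F : ℕ → M) :
    ∑ n ∈ Ico n1 n2, ∑ b ∈ range a, F (a * n + b) = ∑ m ∈ Ico (a * n1) (a * n2), F m := by
  induction n2, h using Nat.le_induction with
  | base => simp
  | succ n hn ih =>
    rw [sum_Ico_succ_top hn, ih, ← sum_Ico_consecutive F (Nat.mul_le_mul_left a hn)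
      (Nat.mul_le_mul_left a (Nat.le_succ n)), sum_Ico_eq_sum_range F (a * n)]
    congr 2
    rw [Nat.mul_succ, Nat.add_sub_cancel_left]

lemma sum_rows_le (a n1 n2 : ℕ) (h : n1 ≤ n2) {F : ℕ → ℝ} (hF : ∀ m, 0 ≤ F m) :
    ∑ n ∈ Ico n1 n2, ∑ b ∈ Ico 1 a, F (a * n + b) ≤ ∑ m ∈ Ico (a * n1) (a * n2), F m := by
  rw [← sum_rows a n1 n2 h]
  refine sum_le_sum fun n _ => sum_le_sum_of_subset_of_nonneg (fun b hb => ?_) fun _ _ _ => hF _
  exact mem_range.2 (mem_Ico.1 hb).2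

lemma row_div {a n b : ℕ} (hb : b ∈ Ico 1 a) : (a * n + b) / a = n := by
  have := mem_Ico.1 hb
  rw [Nat.mul_add_div (by omega), Nat.div_eq_of_lt this.2, add_zero]

variable {a N w h : ℕ}

lemma Bf_add (c c' u v : ℕ → ℂ) :
    Bf a N (fun m => c m + c' m) u v = Bf a N c u v + Bf a N c' u v := by
  unfold Bf
  rw [← sum_add_distrib]
  refine sum_congr rfl fun n _ => ?_
  rw [← sum_add_distrib]
  exact sum_congr rfl fun b _ => by ring

lemma Small.mono {c : ℕ → ℂ} {δ δ' : ℝ} (h : Small a N c δ) (hδ : δ ≤ δ') : Small a N c δ' :=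
  fun u v hu hv => (h u v hu hv).trans (by gcongr)

/-- only the entries of the matrix matter -/
lemma Small.congr {c c' : ℕ → ℂ} {δ : ℝ} (h : Small a N c δ)
    (hc : ∀ n ∈ Ico N (2 * N), ∀ b ∈ Ico 1 a, c' (a * n + b) = c (a * n + b)) : Small a N c' δ := by
  intro u v hu hv
  have : Bf a N c' u v = Bf a N c u v :=
    sum_congr rfl fun n hn => sum_congr rfl fun b hb => by rw [hc n hn b hb]
  rw [this]; exact h u v hu hv

lemma Small.add {c c' : ℕ → ℂ} {δ δ' : ℝ} (h : Small a N c δ) (h' : Small a N c' δ') :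
    Small a N (fun m => c m + c' m) (δ + δ') := by
  intro u v hu hv
  rw [Bf_add]
  refine (norm_add_le _ _).trans ?_
  have := h u v hu hv
  have := h' u v hu hv
  linarith

/-- multiplication by a bounded function of the row -/
lemma Small.mul_row {c : ℕ → ℂ} {δ B : ℝ} (h : Small a N c δ) {φ : ℕ → ℂ} (hB : 0 < B)
    (hφ : ∀ n, ‖φ n‖ ≤ B) : Small a N (fun m => φ (m / a) * c m) (B * δ) := by
  intro u v hu hv
  have hB' : (B : ℂ) ≠ 0 := by exact_mod_cast hB.ne'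
  have e : Bf a N (fun m => φ (m / a) * c m) u v = B * Bf a N c (fun n => φ n / B * u n) v := by
    unfold Bf
    rw [mul_sum]
    refine sum_congr rfl fun n _ => ?_
    rw [mul_sum]
    refine sum_congr rfl fun b hb => ?_
    simp only [row_div hb]; field_simp
  have h1 := h (fun n => φ n / B * u n) v (fun n => by
    rw [norm_mul, norm_div, Complex.norm_real, Real.norm_eq_abs, abs_of_pos hB]
    exact mul_le_one₀ ((div_le_one hB).2 (hφ n)) (norm_nonneg _) (hu n)) hv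
  rw [e, norm_mul, Complex.norm_real, Real.norm_eq_abs, abs_of_pos hB]
  calc B * _ ≤ B * (δ * a * N) := by gcongr
    _ = _ := by ring

lemma small_of_l1 {c : ℕ → ℂ} {δ : ℝ}
    (h : ∑ m ∈ Ico (a * N) (a * (2 * N)), ‖c m‖ ≤ δ * a * N) : Small a N c δ := by
  intro u v hu hv
  refine le_trans ?_ ((sum_rows_le a N (2 * N) (by omega) (F := fun m => ‖c m‖)
    fun _ => norm_nonneg _).trans h)
  refine (norm_sum_le _ _).trans (sum_le_sum fun n _ => (norm_sum_le _ _).trans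
    (sum_le_sum fun b _ => ?_))
  rw [norm_mul, norm_mul, mul_assoc]
  exact mul_le_of_le_one_right (norm_nonneg _) (mul_le_one₀ (hu n) (norm_nonneg _) (hv b))

lemma SmallR.mono {c : ℕ → ℝ} {δ δ' : ℝ} (h : SmallR a N c δ) (hδ : δ ≤ δ') : SmallR a N c δ' :=
  Small.mono h hδ

lemma SmallR.congr {c c' : ℕ → ℝ} {δ : ℝ} (h : SmallR a N c δ)
    (hc : ∀ n ∈ Ico N (2 * N), ∀ b ∈ Ico 1 a, c' (a * n + b) = c (a * n + b)) : SmallR a N c' δ :=
  Small.congr h fun n hn b hb => by simp only [hc n hn b hb]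

lemma SmallR.add {c c' : ℕ → ℝ} {δ δ' : ℝ} (h : SmallR a N c δ) (h' : SmallR a N c' δ') :
    SmallR a N (fun m => c m + c' m) (δ + δ') :=
  (Small.add h h').congr fun _ _ _ _ => by push_cast; rfl

lemma SmallR.mul_row {c : ℕ → ℝ} {δ B : ℝ} (h : SmallR a N c δ) {φ : ℕ → ℝ} (hB : 0 < B)
    (hφ : ∀ n, |φ n| ≤ B) : SmallR a N (fun m => φ (m / a) * c m) (B * δ) :=
  (Small.mul_row h (φ := fun n => (φ n : ℂ)) hB (fun n => by simpa using hφ n)).congr
    fun _ _ _ _ => by push_cast; rfl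

lemma smallR_of_l1 {c : ℕ → ℝ} {δ : ℝ}
    (h : ∑ m ∈ Ico (a * N) (a * (2 * N)), |c m| ≤ δ * a * N) : SmallR a N c δ :=
  small_of_l1 (by simpa using h)

lemma smallR_sum {ι : Type*} (s : Finset ι) (c : ι → ℕ → ℝ) (δ : ι → ℝ)
    (h : ∀ i ∈ s, SmallR a N (c i) (δ i)) :
    SmallR a N (fun m => ∑ i ∈ s, c i m) (∑ i ∈ s, δ i) := by
  classical
  induction s using Finset.induction_on with
  | empty => exact smallR_of_l1 (by simp)
  | insert i s hi ih =>
    rw [sum_insert hi]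
    exact ((h i (mem_insert_self _ _)).add (ih fun j hj => h j (mem_insert_of_mem hj))).congr
      fun _ _ _ _ => by rw [sum_insert hi]

lemma SmallR.real {c : ℕ → ℝ} {δ : ℝ} (h : SmallR a N c δ) {u v : ℕ → ℝ} (hu : ∀ n, |u n| ≤ 1)
    (hv : ∀ b, |v b| ≤ 1) : |Br a N c u v| ≤ δ * a * N := by
  have h1 := h (fun n => (u n : ℂ)) (fun b => (v b : ℂ)) (fun n => by simpa using hu n)
    (fun b => by simpa using hv b)
  have e : Bf a N (fun m => (c m : ℂ)) (fun n => (u n : ℂ)) (fun b => (v b : ℂ)) =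
      ((Br a N c u v : ℝ) : ℂ) := by
    unfold Bf Br; push_cast; rfl
  rwa [e, Complex.norm_real, Real.norm_eq_abs] at h1

lemma Approx.mono {c : ℕ → ℝ} {δ δ' : ℝ} (H : Approx a N w h c δ) (hδ : δ ≤ δ') :
    Approx a N w h c δ' :=
  let ⟨ν, hν⟩ := H; ⟨ν, hν.mono hδ⟩

lemma Approx.congr {c c' : ℕ → ℝ} {δ : ℝ} (H : Approx a N w h c δ)
    (hc : ∀ n ∈ Ico N (2 * N), ∀ b ∈ Ico 1 a, c' (a * n + b) = c (a * n + b)) :
    Approx a N w h c' δ :=
  let ⟨ν, hν⟩ := H; ⟨ν, hν.congr fun n hn b hb => by simp only [hc n hn b hb]⟩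

lemma SmallR.approx {c : ℕ → ℝ} {δ : ℝ} (H : SmallR a N c δ) : Approx a N w h c δ :=
  ⟨fun _ => 0, H.congr fun _ _ _ _ => by simp⟩

lemma Approx.add {c c' : ℕ → ℝ} {δ δ' : ℝ} (H : Approx a N w h c δ) (H' : Approx a N w h c' δ') :
    Approx a N w h (fun m => c m + c' m) (δ + δ') :=
  let ⟨ν, hν⟩ := H
  let ⟨ν', hν'⟩ := H'
  ⟨fun s => ν s + ν' s, (hν.add hν').congr fun _ _ _ _ => by ring⟩

lemma Approx.smul {c : ℕ → ℝ} {δ B t : ℝ} (H : Approx a N w h c δ) (hB : 0 < B) (ht : |t| ≤ B) :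
    Approx a N w h (fun m => t * c m) (B * δ) :=
  let ⟨ν, hν⟩ := H
  ⟨fun s => t * ν s, (hν.mul_row (φ := fun _ => t) hB fun _ => ht).congr fun _ _ _ _ => by ring⟩

lemma approx_sum {ι : Type*} (s : Finset ι) (c : ι → ℕ → ℝ) (δ : ι → ℝ)
    (H : ∀ i ∈ s, Approx a N w h (c i) (δ i)) :
    Approx a N w h (fun m => ∑ i ∈ s, c i m) (∑ i ∈ s, δ i) := by
  classical
  induction s using Finset.induction_on with
  | empty => exact (smallR_of_l1 (by simp)).approx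
  | insert i s hi ih =>
    rw [sum_insert hi]
    exact ((H i (mem_insert_self _ _)).add (ih fun j hj => H j (mem_insert_of_mem hj))).congr
      fun _ _ _ _ => by rw [sum_insert hi]

lemma card_Xi_le (a ρ : ℕ) : (Xi a ρ).card ≤ (2 * ρ + 1) * ρ := by
  refine card_image_le.trans (le_of_eq ?_)
  rw [card_product, Int.card_Icc, Nat.card_Icc]
  congr 1
  omega

lemma Mn.mono [Fact a.Prime] {f : ZMod a → ℂ} {Ξ : Finset (ZMod a)} {τ F F' : ℝ}
    (H : Mn f Ξ τ F) (hF : F ≤ F') : Mn f Ξ τ F' :=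
  ⟨H.zero, H.l2, fun y => (H.sup y).trans hF, H.cf⟩

end Pool.Agent.P.MP_746f10_nt.AP
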