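import Pool.Agent.P.MP_746f10_nt.AP.VK
import Pool.Agent.P.MP_a14ce1_nt.Ch.VdCA

/-! Sums over the primes of a dyadic interval. -/

namespace Pool.Agent.P.MP_746f10_nt.AP

open Finset
open Pool.Agent.P.MP_0ad054_nt
open Pool.Agent.P.MP_a14ce1_nt.Ch (nit norm_nit)
open scoped ArithmeticFunction.vonMangoldt

namespace BoxP

theorem abelC (a w : ℕ → ℂ) {P N : ℕ} {δ K : ℝ} (hδ : 0 ≤ δ)
    (h : ∀ y, P ≤ y → y ≤ N → ‖∑ n ∈ Ioc P y, a n‖ ≤ K) (hw : ∀ n, P ≤ n → ‖w (n + 1) - w n‖ ≤ δ)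
    (x : ℕ) (hx : P ≤ x) : x ≤ N →
      ‖∑ n ∈ Ioc P x, a n * w n - w x * ∑ n ∈ Ioc P x, a n‖ ≤ (x - P) * (δ * K) := by
  induction x, hx using Nat.le_induction with
  | base => simp
  | succ x hx ih =>
    intro hN
    have e : ∑ n ∈ Ioc P (x + 1), a n * w n - w (x + 1) * ∑ n ∈ Ioc P (x + 1), a n =
        (∑ n ∈ Ioc P x, a n * w n - w x * ∑ n ∈ Ioc P x, a n) -
          (w (x + 1) - w x) * ∑ n ∈ Ioc P x, a n := by
      rw [sum_Ioc_succ_top hx, sum_Ioc_succ_top hx]; ring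
    have h1 := mul_le_mul (hw x hx) (h x hx (by omega)) (norm_nonneg _) hδ
    rw [e]
    refine (norm_sub_le _ _).trans ?_
    rw [norm_mul]
    push_cast
    linarith [ih (by omega)]

theorem nit_step (t : ℝ) {n : ℕ} (hn : 0 < n) :
    ‖nit t ((n + 1 : ℕ) : ℝ) - nit t n‖ ≤ |t| / n := by
  have h0 : (0 : ℝ) < n := by exact_mod_cast hn
  refine (MP_a14ce1_nt.Ch.VdC.norm_ex_sub_le _ _).trans ?_
  have h1 : Real.log n ≤ Real.log ((n : ℝ) + 1) := Real.log_le_log h0 (by linarith)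
  have h2 : Real.log ((n : ℝ) + 1) - Real.log n ≤ 1 / n := by
    rw [← Real.log_div (by positivity) h0.ne']
    refine (Real.log_le_sub_one_of_pos (by positivity)).trans (le_of_eq ?_)
    field_simp; ring
  push_cast
  rw [show -(t * Real.log ((n : ℝ) + 1)) - -(t * Real.log n) =
    -(t * (Real.log ((n : ℝ) + 1) - Real.log n)) by ring, abs_neg, abs_mul,
    abs_of_nonneg (sub_nonneg.2 h1), div_eq_mul_one_div]
  exact mul_le_mul_of_nonneg_left h2 (abs_nonneg t)

theorem diff (f : ℕ → ℂ) {P y : ℕ} (h : P ≤ y) :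
    ‖∑ n ∈ Ioc P y, f n‖ ≤ ‖∑ n ∈ Icc 1 y, f n‖ + ‖∑ n ∈ Icc 1 P, f n‖ := by
  have e : ∀ y : ℕ, Icc 1 y = Ioc 0 y := fun y => by ext; simp only [mem_Icc, mem_Ioc]; omega
  rw [e, e, eq_sub_of_add_eq' (sum_Ioc_consecutive f (Nat.zero_le P) h)]
  exact norm_sub_le _ _

theorem fin {q : ℕ} (ψ : DirichletCharacter ℂ q) (t : ℝ) {P : ℕ} {K : ℝ} (hP : 2 ≤ P)
    (h : ∀ x, P ≤ x → x ≤ 2 * P → ‖∑ n ∈ Ioc P x, (Λ n : ℂ) * ψ n * nit t n‖ ≤ K) :
    ‖∑ p ∈ PP P (2 * P), ψ p / (p : ℂ) * nit t p‖ ≤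
      (K + 2 * √(2 * P) * Real.log (2 * P)) / P := by
  have hP' : (2 : ℝ) ≤ P := by exact_mod_cast hP
  have e : ∀ x : ℕ, Ico (P + 1) (x + 1) = Ioc P x := fun y => by
    ext; simp only [mem_Ico, mem_Ioc]; omega
  have hl : ∀ n : ℕ, P + 1 ≤ n → (3 : ℝ) ≤ n ∧ 1 ≤ Real.log n := fun n hn => by
    have h3 : (3 : ℝ) ≤ n := by exact_mod_cast (by omega : 3 ≤ n)
    exact ⟨h3, by
      rw [Real.le_log_iff_exp_le (by linarith)]; linarith [Real.exp_one_lt_d9]⟩
  have hK : 0 ≤ K := (norm_nonneg _).trans (h P le_rfl (by omega))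
  have h0 : 0 ≤ Real.log (2 * P) := Real.log_nonneg (by linarith)
  have h1 := abel_le (fun n => if n.Prime then (Λ n : ℂ) * ψ n * nit t n else 0)
    (fun n => 1 / (n * Real.log n)) (P + 1) (2 * P + 1) (K + 2 * √(2 * P) * Real.log (2 * P))
    (fun n hn => by have := hl n hn; have := this.2; positivity) (fun n hn => ?_)
    (fun x h1 h2 => ?_) (by omega)
  · rw [e] at h1
    refine le_trans (le_of_eq (congrArg _ ?_)) (h1.trans ?_)
    · rw [PP, sum_filter]
      refine sum_congr rfl fun n hn => ?_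
      split_ifs with hp
      · have h2 := hl n (mem_Ioc.1 hn).1
        have h3 : (n : ℂ) ≠ 0 := by exact_mod_cast hp.ne_zero
        have h4 : ((Real.log n : ℝ) : ℂ) ≠ 0 := Complex.ofReal_ne_zero.2 (by linarith [h2.2])
        rw [ArithmeticFunction.vonMangoldt_apply_prime hp, Complex.real_smul, Complex.ofReal_div,
          Complex.ofReal_mul, Complex.ofReal_natCast, Complex.ofReal_one]
        field_simp
      · simp
    · rw [div_eq_mul_one_div _ (P : ℝ)]
      refine mul_le_mul_of_nonneg_left (one_div_le_one_div_of_le (by linarith) ?_) (by positivity)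
      have h2 := (hl _ le_rfl).2
      push_cast at h2 ⊢
      nlinarith
  · obtain ⟨h2, h3⟩ := hl n hn
    have h4 : Real.log n ≤ Real.log ((n : ℝ) + 1) := Real.log_le_log (by linarith) (by linarith)
    push_cast
    exact one_div_le_one_div_of_le (by positivity) (by gcongr; linarith)
  · obtain ⟨x, rfl⟩ : ∃ y, x = y + 1 := ⟨x - 1, by omega⟩
    have h3 : (2 : ℝ) ≤ x := by exact_mod_cast (by omega : 2 ≤ x)
    have h4 : (x : ℝ) ≤ 2 * P := by exact_mod_cast (by omega : x ≤ 2 * P)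
    have h5 := Chebyshev.psi_sub_theta_le (x := x) (by linarith)
    rw [Chebyshev.psi_sub_theta_eq_sum_not_prime, Nat.floor_natCast] at h5
    rw [e, ← sum_filter, eq_sub_of_add_eq (sum_filter_add_sum_filter_not (Ioc P x) Nat.Prime
      fun n => (Λ n : ℂ) * ψ n * nit t n)]
    refine (norm_sub_le _ _).trans (add_le_add (h x (by omega) (by omega))
      ((norm_sum_le_of_le _ (n := fun n => Λ n) fun n _ => ?_).trans (le_trans
        (sum_le_sum_of_subset_of_nonneg (filter_subset_filter _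
          (Ioc_subset_Ioc_left (Nat.zero_le P))) fun _ _ _ =>
            ArithmeticFunction.vonMangoldt_nonneg) (h5.trans ?_))))
    · rw [norm_mul, norm_mul, norm_nit, mul_one, Complex.norm_real,
        Real.norm_of_nonneg ArithmeticFunction.vonMangoldt_nonneg]
      exact mul_le_of_le_one_right ArithmeticFunction.vonMangoldt_nonneg (ψ.norm_le_one _)
    · have := Real.log_nonneg (show (1 : ℝ) ≤ x by linarith)
      gcongr

end BoxP

open BoxP in
theorem pBox (h1 : S_VK) (h2 : An.S_SW) : S_Box := by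
  intro B A u hu
  obtain ⟨A2, X0, h1⟩ := h1 B (A + 1) (3 * u) (by omega)
  obtain ⟨C, hC, h2⟩ := h2 (2 * (A + 1 + 2 * A2)) (2 * B)
  have tN := tendsto_natCast_atTop_atTop (R := ℝ)
  obtain ⟨Q0, hQ0⟩ := Filter.eventually_atTop.1 ((tN.eventually_ge_atTop (max X0 2)).and
    (((Real.tendsto_log_atTop.comp tN).eventually_ge_atTop (max (max 6 (12 * C)) (u ^ 2))).and
      (tN.eventually ((Real.isLittleO_pow_log_id_atTop (n := (2 * A + 2) * u)).bound
        (c := 1 / 32 ^ u) (by positivity)))))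
  refine ⟨2 * A2, Q0, fun Q hQ q _ ψ P t hq hu1 hP ht hψ => ?_⟩
  obtain ⟨a1, a2, a3⟩ := hQ0 Q hQ
  simp only [max_le_iff, Function.comp] at a1 a2
  obtain ⟨⟨a1, a4⟩, ⟨a2, a5⟩, a6⟩ := And.intro a1 a2
  set L := Real.log Q with hL
  have hL0 : 0 < L := by linarith
  have b1 : (Q : ℝ) ≤ (P : ℝ) ^ u := by exact_mod_cast hu1
  have b2 : 2 * (P : ℝ) ≤ Q := by exact_mod_cast hP
  have b3 : 32 * L ^ (2 * A + 2) ≤ P := by
    refine le_of_pow_le_pow_left₀ (n := u) (by omega) (by positivity) (le_trans ?_ b1)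
    rw [id, Real.norm_of_nonneg (by positivity), Real.norm_of_nonneg (by positivity),
      one_div_mul_eq_div, le_div_iff₀ (by positivity)] at a3
    rwa [mul_pow, ← pow_mul, mul_comm]
  have b4 : (32 : ℝ) ≤ P := by
    nlinarith [one_le_pow₀ (n := 2 * A + 2) (show 1 ≤ L by linarith)]
  have b5 : 2 ≤ P := by exact_mod_cast (show (2 : ℝ) ≤ P by linarith)
  have b6 : L ≤ Real.log (2 * (Q : ℝ) ^ 2) := Real.log_le_log (by linarith) (by nlinarith)
  have b7 : Real.log (2 * (Q : ℝ) ^ 2) ≤ L ^ 2 := by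
    have : Real.log (2 * (Q : ℝ) ^ 2) ≤ Real.log (Q ^ 3) :=
      Real.log_le_log (by positivity) (by nlinarith [sq_nonneg (Q : ℝ)])
    rw [Real.log_pow] at this
    push_cast at this
    nlinarith
  have c0 : ∀ y : ℕ, P ≤ y → y ≤ 2 * P → (P : ℝ) ≤ y ∧ (y : ℝ) ≤ 2 * P := fun y h h' =>
    ⟨by exact_mod_cast h, by exact_mod_cast h'⟩
  refine (fin ψ t (K := P / (2 * L ^ A)) b5 fun x x1 x2 => ?_).trans ?_
  · by_cases c : Real.log (2 * (Q : ℝ) ^ 2) ^ A2 ≤ |t|
    · have c1 : ∀ y : ℕ, P ≤ y → y ≤ 2 * P →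
          ‖∑ n ∈ Icc 1 y, (Λ n : ℂ) * ψ n * nit t n‖ ≤ y / L ^ (A + 1) := fun y y1 y2 => by
        obtain ⟨y3, y4⟩ := c0 y y1 y2
        refine (h1 _ (by nlinarith) q ψ y t (hq.trans (by gcongr)) ?_ (by nlinarith) c
          (by nlinarith [sq_nonneg (Q : ℝ)])).trans (by gcongr)
        calc 2 * (Q : ℝ) ^ 2 ≤ Q ^ 3 := by nlinarith [sq_nonneg (Q : ℝ)]
          _ ≤ ((y : ℝ) ^ u) ^ 3 := by gcongr; exact b1.trans (by gcongr)
          _ = _ := by ring
      refine (diff _ x1).trans ((add_le_add (c1 x x1 x2) (c1 P le_rfl (by omega))).trans ?_)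
      rw [← add_div, div_le_div_iff₀ (by positivity) (by positivity), pow_succ]
      have := (c0 x x1 x2).2
      have h3 : 0 < L ^ A := by positivity
      nlinarith [mul_nonneg h3.le (show 0 ≤ P * L - 2 * (x + P) by nlinarith)]
    · have c2 : |t| < L ^ (2 * A2) := by
        refine (not_le.1 c).trans_le ?_
        rw [pow_mul]
        gcongr
        linarith
      have c3 : ψ ≠ 1 := hψ.resolve_right c2.not_ge
      have c1 : ∀ y : ℕ, P ≤ y → y ≤ 2 * P →
          ‖∑ n ∈ Icc 1 y, (Λ n : ℂ) * ψ n‖ ≤ C * y / L ^ (A + 1 + 2 * A2) := fun y y1 y2 => by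
        obtain ⟨y3, y4⟩ := c0 y y1 y2
        have y5 : L ≤ u * Real.log y := by
          rw [← Real.log_pow]
          exact Real.log_le_log (by linarith) (b1.trans (by gcongr))
        have y6 : L ≤ Real.log y ^ 2 := by
          have u1 : (1 : ℝ) ≤ u := by exact_mod_cast hu
          have : (u : ℝ) ≤ Real.log y := by nlinarith
          nlinarith
        refine (h2 y q ψ (by omega) (hq.trans ?_) c3).trans ?_ <;> rw [pow_mul] <;> gcongr
      have c4 : ∀ y : ℕ, P ≤ y → y ≤ 2 * P →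
          ‖∑ n ∈ Ioc P y, (Λ n : ℂ) * ψ n‖ ≤ 3 * C * P / L ^ (A + 1 + 2 * A2) := fun y y1 y2 => by
        refine (diff _ y1).trans ((add_le_add (c1 y y1 y2) (c1 P le_rfl (by omega))).trans ?_)
        rw [← add_div]
        gcongr
        nlinarith [(c0 y y1 y2).2]
      have c5 := abelC _ (fun n => nit t n) (δ := |t| / P) (by positivity) c4
        (fun n hn => (nit_step t (by omega)).trans (by gcongr)) x x1 x2
      have c6 := c4 x x1 x2
      have c7 : ((x : ℝ) - P) * (|t| / P * (3 * C * P / L ^ (A + 1 + 2 * A2))) ≤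
          L ^ (2 * A2) * (3 * C * P / L ^ (A + 1 + 2 * A2)) := by
        rw [← mul_assoc]
        refine mul_le_mul_of_nonneg_right ?_ (by positivity)
        rw [← mul_div_assoc, div_le_iff₀ (by positivity)]
        nlinarith [(c0 x x1 x2).2, abs_nonneg t]
      have c8 := norm_le_insert' (∑ n ∈ Ioc P x, (Λ n : ℂ) * ψ n * nit t n)
        (nit t x * ∑ n ∈ Ioc P x, (Λ n : ℂ) * ψ n)
      rw [norm_mul, norm_nit, one_mul] at c8
      have c9 : 3 * C * P / L ^ (A + 1 + 2 * A2) ≤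
          L ^ (2 * A2) * (3 * C * P / L ^ (A + 1 + 2 * A2)) :=
        le_mul_of_one_le_left (by positivity) (one_le_pow₀ (by linarith))
      have c10 : 2 * (L ^ (2 * A2) * (3 * C * P / L ^ (A + 1 + 2 * A2))) ≤ P / (2 * L ^ A) := by
        rw [show 2 * (L ^ (2 * A2) * (3 * C * P / L ^ (A + 1 + 2 * A2))) =
          P / (2 * L ^ A) * (12 * C / L) by field_simp; ring]
        exact mul_le_of_le_one_right (by positivity) ((div_le_one hL0).2 a5)
      linarith
  · have c1 : √(2 * P) ≤ P / (4 * L ^ (A + 1)) := by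
      refine Real.sqrt_le_iff.2 ⟨by positivity, ?_⟩
      rw [div_pow, le_div_iff₀ (by positivity), mul_pow, ← pow_mul,
        show (A + 1) * 2 = 2 * A + 2 by ring]
      nlinarith
    have c2 : Real.log (2 * P) ≤ L := Real.log_le_log (by linarith) b2
    have c3 : 0 ≤ Real.log (2 * P) := Real.log_nonneg (by linarith)
    calc _ ≤ (P / (2 * L ^ A) + 2 * (P / (4 * L ^ (A + 1))) * L) / P := by gcongr
      _ = _ := by field_simp; ring

end Pool.Agent.P.MP_746f10_nt.AP
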