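import Pool.Agent.P.MP_746f10_nt.AP.VK
import Pool.Agent.P.MP_746f10_nt.FL

/-! Interface of the theorem on prime values of forms with fixed prime moduli. -/

namespace Pool.Agent.P.MP_746f10_nt.AP

open Finset ComplexConjugate
open Pool.Agent.P.MP_0ad054_nt (e mn)
open Pool.Agent.P.MP_a14ce1_nt.Ch (nit sm)
open scoped ArithmeticFunction.Moebius

/-! ### Definitions -/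

open Classical in
/-- indicator of the numbers without prime factors up to `w` -/
noncomputable def rr (w m : ℕ) : ℝ := if rough w m then 1 else 0

/-- indicator of divisibility -/
noncomputable def dd (m d : ℕ) : ℝ := if d ∣ m then 1 else 0

/-- indicator of the primes -/
noncomputable def pr1 (m : ℕ) : ℝ := if m.Prime then 1 else 0

/-- the binary logarithm -/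
def lg (Q : ℕ) : ℕ := Nat.log 2 Q

/-- a quantity above every power of the logarithm and below every power of `Q` -/
def om (Q : ℕ) : ℕ := 2 ^ Nat.sqrt (lg Q)

/-- the sifting limit -/
def zz (u Q : ℕ) : ℕ := 2 ^ (lg Q / u)

/-- the truncation of the Moebius function -/
def DD (Q : ℕ) : ℕ := 2 ^ (7 * lg Q / 10)

/-- the density of the model -/
noncomputable def kap (Q w : ℕ) : ℝ := 1 / (4 * VV w * lg Q)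

/-- the bilinear form of the matrix `c (a n + b)` -/
noncomputable def Bf (a N : ℕ) (c u v : ℕ → ℂ) : ℂ :=
  ∑ n ∈ Ico N (2 * N), ∑ b ∈ Ico 1 a, c (a * n + b) * u n * v b

/-- the same with real entries -/
noncomputable def Br (a N : ℕ) (c u v : ℕ → ℝ) : ℝ :=
  ∑ n ∈ Ico N (2 * N), ∑ b ∈ Ico 1 a, c (a * n + b) * u n * v b

/-- small cut norm -/
def Small (a N : ℕ) (c : ℕ → ℂ) (δ : ℝ) : Prop :=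
  ∀ u v : ℕ → ℂ, (∀ n, ‖u n‖ ≤ 1) → (∀ b, ‖v b‖ ≤ 1) → ‖Bf a N c u v‖ ≤ δ * a * N

/-- small cut norm of a real function -/
def SmallR (a N : ℕ) (c : ℕ → ℝ) (δ : ℝ) : Prop := Small a N (fun m => (c m : ℂ)) δ

/-- close in cut norm to a multiple of the model that is constant on blocks of `h` rows -/
def Approx (a N w h : ℕ) (c : ℕ → ℝ) (δ : ℝ) : Prop :=
  ∃ ν : ℕ → ℝ, SmallR a N (fun m => c m - ν (m / a / h) * rr w m) δ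

/-- Dirichlet convolution -/
def cv {R : Type} [CommSemiring R] (α β : ℕ → R) (m : ℕ) : R :=
  ∑ x ∈ m.divisorsAntidiagonal, α x.1 * β x.2

/-- the primes of a dyadic box -/
def box (j : ℕ) : Finset ℕ := PP (2 ^ j) (2 ^ (j + 1))

/-- indicator of a box -/
noncomputable def bx (j : ℕ) : ArithmeticFunction ℝ :=
  ⟨fun n => if n ∈ box j then 1 else 0, by simp [box, mem_PP]⟩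

/-- products of one prime from each box of `S` -/
noncomputable def CS (S : Finset ℕ) : ArithmeticFunction ℝ := ∏ j ∈ S, bx j

/-- truncated sum of the Moebius function over the divisors -/
noncomputable def sigD (Q m : ℕ) : ℝ := ∑ d ∈ m.divisors.filter (· ≤ DD Q), (μ d : ℝ)

open Classical in
/-- indicator of the exceptional numbers -/
noncomputable def bad (u Q m : ℕ) : ℝ :=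
  if rough (zz u Q) m ∧ ((∃ j p p', p ∈ box j ∧ p' ∈ box j ∧ p * p' ∣ m) ∨
    ∃ d, d ∣ m ∧ ((DD Q < d * om Q ∧ d ≤ DD Q) ∨
      (2 ^ lg Q < d * om Q ^ 2 ∧ d ≤ 2 ^ (lg Q + 2)))) then 1 else 0

open Classical in
/-- the patterns of boxes with a divisor in the bilinear range -/
noncomputable def Pats (u Q : ℕ) : Finset (Finset ℕ) :=
  (Icc (lg Q / u) (2 * lg Q + 4)).powerset.filter fun S => S.card ≤ 3 * u ∧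
    2 * lg Q ≤ ∑ j ∈ S, j + S.card ∧ ∑ j ∈ S, j ≤ 2 * lg Q + 4 ∧
    ∃ S1 ⊆ S, 3 * lg Q / 5 ≤ ∑ j ∈ S1, j ∧ ∑ j ∈ S1, j + 3 * u + Nat.sqrt (lg Q) ≤ lg Q

/-- the value of the truncated sum on a pattern -/
noncomputable def sg (Q : ℕ) (S : Finset ℕ) : ℝ :=
  ∑ T ∈ S.powerset.filter (fun T => ∑ j ∈ T, j + T.card ≤ 7 * lg Q / 10), (-1 : ℝ) ^ T.card

/-- block densities of `β` relative to the model -/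
noncomputable def cb (β : ℕ → ℝ) (w L' i : ℕ) : ℝ :=
  (∑ l ∈ Ico (i * L') ((i + 1) * L'), β l) / ∑ l ∈ Ico (i * L') ((i + 1) * L'), rr w l

/-- difference of `β` and its model -/
noncomputable def ga (β : ℕ → ℝ) (w L' l : ℕ) : ℝ := β l - rr w l * cb β w L' (l / L')

/-- residues of small height -/
noncomputable def Xi (a ρ : ℕ) : Finset (ZMod a) :=
  (Icc (-(ρ : ℤ)) ρ ×ˢ Icc 1 ρ).image fun x => (x.1 : ZMod a) * ((x.2 : ℕ) : ZMod a)⁻¹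

/-- parallel vectors -/
def par (p q : ℤ × ℤ × ℤ) : Prop :=
  p.1 * q.2.1 = p.2.1 * q.1 ∧ p.1 * q.2.2 = p.2.2 * q.1 ∧ p.2.1 * q.2.2 = p.2.2 * q.2.1

/-- admissible tuples -/
def Adm {k : ℕ} (a b : Fin k → ℕ) : Prop := ∀ p : ℕ, p.Prime → ∃ n : ℕ, ∀ i, ¬ p ∣ a i * n + b i

/-- the modulus `a` is not exceptional -/
def Gd (u A B Q a : ℕ) : Prop := ∀ χ : DirichletCharacter ℂ a, χ ≠ 1 → ∀ j, lg Q / u ≤ j →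
  j ≤ lg Q → ∀ (q : ℕ) [NeZero q] (ψ : DirichletCharacter ℂ q), q ≤ lg Q ^ B → ∀ t : ℝ,
  |t| ≤ 4 * (Q : ℝ) ^ 2 → ‖∑ p ∈ box j, χ p * ψ p / (p : ℂ) * nit t p‖ ≤ 1 / (lg Q : ℝ) ^ A

/-- the data of a bilinear term -/
structure T2 (u Q w : ℕ) where
  j : ℕ
  K : ℕ
  L : ℕ
  al : ℕ → ℝ
  al' : ℕ → ℝ
  be : ℕ → ℝ
  fac : ∀ m, al m = cv (bx j) al' m
  al01 : ∀ k, 0 ≤ al k ∧ al k ≤ rr w k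
  al'01 : ∀ k, 0 ≤ al' k ∧ al' k ≤ 1
  be01 : ∀ l, 0 ≤ be l ∧ be l ≤ rr w l
  alS : ∀ k, al k ≠ 0 → K < k ∧ k ≤ 2 ^ (3 * u) * K
  beS : ∀ l, be l ≠ 0 → L < l ∧ l ≤ 2 ^ (3 * u) * L
  dv : ∀ m, m ≤ 16 * Q ^ 2 → ∑ k ∈ m.divisors, al k ≤ 2 ^ (3 * u)
  dv' : ∀ m, m ≤ 16 * Q ^ 2 → ∑ k ∈ m.divisors, al' k ≤ 2 ^ (3 * u)
  hj : lg Q / u ≤ j
  hj' : 2 ^ (j + 1) * om Q ≤ Q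
  hK : Q ^ 3 ≤ (4 * K) ^ 5
  hK' : 2 ^ (3 * u) * K * om Q ≤ Q
  hKL : Q ^ 2 ≤ 4 * 2 ^ (3 * u) * (K * L)
  hKL' : K * L ≤ 16 * Q ^ 2

section field
variable {a : ℕ} [Fact a.Prime]

/-- a multiplicative character times an additive character -/
noncomputable def ch (χ : DirichletCharacter ℂ a) (ξ y : ZMod a) : ℂ :=
  χ y * ZMod.stdAddChar (ξ * y)

/-- a function without large coefficients -/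
structure Mn (f : ZMod a → ℂ) (Ξ : Finset (ZMod a)) (τ F : ℝ) : Prop where
  zero : f 0 = 0
  l2 : ∑ y, ‖f y‖ ^ 2 ≤ a
  sup : ∀ y, ‖f y‖ ≤ F
  cf : ∀ χ : DirichletCharacter ℂ a, ∀ ξ ∈ Ξ, ‖∑ y, f y * conj (ch χ ξ y)‖ ≤ 2 * τ * a

/-- mean square of the window averages -/
noncomputable def Gf (f : ZMod a → ℂ) (J k k' : ℕ) : ℝ :=
  1 / (a : ℝ) * ∑ y : ZMod a,
    ‖1 / (J : ℂ) * ∑ j ∈ range J, f (k * (y + j)) * conj (f (k' * (y + j)))‖ ^ 2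

/-- indicator of the residues near zero -/
noncomputable def nr (Y : ℕ) (x : ZMod a) : ℝ := if x.val ≤ Y ∨ a ≤ x.val + Y then 1 else 0

noncomputable def Hf (f : ZMod a → ℂ) (Y : ℕ) (x : ZMod a) : ℝ :=
  1 / (a : ℝ) * ∑ y : ZMod a, ‖f (x * y)‖ * ‖f y‖ * nr Y (x * y)

noncomputable def Pf (f : ZMod a → ℂ) (x : ZMod a) : ℝ :=
  1 / (a : ℝ) * ∑ y : ZMod a, ‖f (x * y)‖ ^ 2 * ‖f y‖ ^ 2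

/-- squared matrix coefficient of the affine group -/
noncomputable def Gam (f : ZMod a → ℂ) (x lam : ZMod a) : ℝ :=
  ‖1 / (a : ℂ) * ∑ y : ZMod a, f (x * y) * conj (f y) * ZMod.stdAddChar (-(lam * y))‖ ^ 2

end field

/-! ### Sieve facts -/

def S_Int : Prop := ∃ k0 : ℕ, ∀ mm w x y : ℕ, 2 ≤ w →
  |∑ m ∈ Ico x (x + y), rr w m - y * VV w| ≤ y * VV w / 2 ^ mm + (w : ℝ) ^ (4 * (k0 + mm) + 6)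

def S_Up : Prop := ∃ C : ℝ, 0 < C ∧ ∀ z Y : ℕ, 2 ≤ z →
  ∑ l ∈ Icc 1 Y, rr z l ≤ 1 + C * Y / Real.log z

def S_Rows : Prop := ∃ C : ℝ, 1 ≤ C ∧ ∀ Cw : ℕ, ∃ Q0 : ℕ, ∀ Q w : ℕ, Q0 ≤ Q → 2 ≤ w →
  w ≤ lg Q ^ Cw → kap Q w ≤ 1 ∧ ∀ a n : ℕ, Q ≤ a → Q ≤ n →
    ∑ b ∈ Ico 1 a, rr w (a * n + b) ≤ 5 / 4 * VV w * a ∧
    ∑ b ∈ Ico 1 a, pr1 (a * n + b) ≤ C * a / lg Q

def S_Blk : Prop := ∀ A : ℕ, ∃ Q0 : ℕ, ∀ Q a n1 n2 : ℕ, Q0 ≤ Q → Q ≤ a → a ≤ 2 * Q → Q ≤ n1 →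
  n1 ≤ n2 → n2 ≤ 2 * Q →
  (a : ℝ) * (n2 - n1) / (2 * lg Q) - a * Q / (lg Q : ℝ) ^ A ≤
    ∑ n ∈ Ico n1 n2, ∑ b ∈ Ico 1 a, pr1 (a * n + b)

def S_Pos : Prop := ∀ k : ℕ, ∃ c : ℝ, 0 < c ∧ ∀ Cw : ℕ, ∃ Q0 : ℕ, ∀ (Q w : ℕ) (a b : Fin k → ℕ),
  Q0 ≤ Q → 2 ≤ w → w ≤ lg Q ^ Cw → (∀ i, (a i).Prime ∧ Q ≤ a i) → Adm a b →
  c * Q * VV w ^ k ≤ ∑ n ∈ Ico Q (2 * Q), ∏ i, rr w (a i * n + b i)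

def S_CS : Prop :=
  (∀ S m, CS S m = 0 ∨ CS S m = 1) ∧
  (∀ S m, CS S m ≠ 0 ↔ ∃ p : ℕ → ℕ, (∀ j ∈ S, p j ∈ box j) ∧ m = ∏ j ∈ S, p j) ∧
  (∀ S m, CS S m ≠ 0 → (S.Nonempty → 2 ^ (∑ j ∈ S, j) < m) ∧ m ≤ 2 ^ (∑ j ∈ S, j + S.card) ∧
    ∀ j0, (∀ j ∈ S, j0 ≤ j) → rough (2 ^ j0) m) ∧
  (∀ S j0 n m, 1 ≤ j0 → (∀ j ∈ S, j0 ≤ j) → m ≤ 2 ^ (j0 * n) →
    ∑ k ∈ m.divisors, CS S k ≤ 2 ^ n) ∧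
  (∀ S T m, Disjoint S T → CS (S ∪ T) m = cv (CS S) (CS T) m)

def S_Ident : Prop := ∀ u : ℕ, 1 ≤ u → ∃ Q0 : ℕ, ∀ Q m : ℕ, Q0 ≤ Q → Q ^ 2 ≤ m → m < 4 * Q ^ 2 →
  |pr1 m - rr (zz u Q) m * sigD Q m + ∑ S ∈ Pats u Q, sg Q S * CS S m| ≤
    3 * 2 ^ (3 * u) * bad u Q m

def S_Bad : Prop := ∀ (u : ℕ) (ε : ℝ), 1 ≤ u → 0 < ε → ∃ Q0 : ℕ, ∀ Q : ℕ, Q0 ≤ Q →
  ∑ m ∈ Ico 1 (4 * Q ^ 2), bad u Q m ≤ ε * (Q : ℝ) ^ 2 / lg Q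

/-! ### Linear sums -/

def S_TIb : Prop := ∃ C : ℝ, 0 < C ∧ ∀ (a N w D : ℕ) (γ : ℕ → ℂ), a.Prime → D < a → 1 ≤ w →
  1 ≤ N → (∀ q, ‖γ q‖ ≤ 1 / q) →
  Small a N (fun m => ∑ q ∈ Ioc w D, γ q *
      ∑ r ∈ (range q).filter (fun r => r.Coprime q), e ((r : ℝ) * m / q))
    (C * (1 + Real.log D) ^ 2 * (1 / w + 1 / √N + 1 / √a + D / √(a * N)))

def S_TIa : Prop := ∃ C : ℝ, 0 < C ∧ ∀ (a N w D1 D2 : ℕ) (lam lam' : ℕ → ℝ), a.Prime →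
  D1 * D2 < a → 1 ≤ w → 1 ≤ N → (∀ d, |lam d| ≤ 1) → (∀ g, |lam' g| ≤ 1) →
  (∀ d, lam d ≠ 0 → ∀ p, p.Prime → p ∣ d → p ≤ w) → (∀ g, lam' g ≠ 0 → rough w g) →
  SmallR a N (fun m => (∑ d ∈ Icc 1 D1, lam d * dd m d) *
      ∑ g ∈ Icc 1 D2, lam' g * (dd m g - 1 / g))
    (C * (1 + Real.log (D1 * D2 : ℕ)) ^ 3 *
      (1 / w + 1 / √N + 1 / √a + (D1 * D2 : ℕ) / √(a * N)))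

def S_TIM : Prop := ∀ A : ℕ, ∃ Cw0 : ℕ, ∀ Cw : ℕ, ∃ Q0 : ℕ, ∀ (Q a w D2 : ℕ) (lam' : ℕ → ℝ),
  Q0 ≤ Q → a.Prime → Q ≤ a → a ≤ 2 * Q → lg Q ^ Cw0 ≤ w → w ≤ lg Q ^ Cw → D2 * om Q ≤ Q →
  (∀ g, |lam' g| ≤ 1) → (∀ g, lam' g ≠ 0 → rough w g) →
  SmallR a Q (fun m => rr w m * ∑ g ∈ Icc 1 D2, lam' g * (dd m g - 1 / g)) (1 / (lg Q : ℝ) ^ A)

def S_A : Prop := ∀ ε : ℝ, 0 < ε → ∃ u : ℕ, 1 ≤ u ∧ ∀ Cw : ℕ, ∃ Q0 : ℕ, ∀ Q w : ℕ, Q0 ≤ Q →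
  2 ≤ w → w ≤ lg Q ^ Cw → ∃ (D2 : ℕ) (lam' err : ℕ → ℝ), D2 * om Q ≤ Q ∧ (∀ g, |lam' g| ≤ 1) ∧
    (∀ g, lam' g ≠ 0 → rough w g) ∧ (∀ m, 0 ≤ err m) ∧
    ∑ m ∈ Ico 1 (4 * Q ^ 2), err m ≤ ε * (Q : ℝ) ^ 2 / lg Q ∧
    ∀ m, 1 ≤ m →
      |rr (zz u Q) m * sigD Q m - rr w m * ∑ g ∈ Icc 1 D2, lam' g * dd m g| ≤ err m

def S_Mod2 : Prop := ∀ u A CL : ℕ, ∃ Ch Cw0 : ℕ, ∀ Cw : ℕ, ∃ Q0 : ℕ,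
  ∀ (Q a w K L' : ℕ) (al cf : ℕ → ℝ), Q0 ≤ Q → a.Prime → Q ≤ a → a ≤ 2 * Q → lg Q ^ Cw0 ≤ w →
  w ≤ lg Q ^ Cw → (∀ k, 0 ≤ al k ∧ al k ≤ rr w k) →
  (∀ k, al k ≠ 0 → K < k ∧ k ≤ 2 ^ (3 * u) * K) → Q ^ 3 ≤ (4 * K) ^ 5 →
  2 ^ (3 * u) * K * om Q ≤ Q → (∀ i, 0 ≤ cf i ∧ cf i ≤ 1) → Q ^ 2 ≤ K * L' * lg Q ^ CL →
  Approx a Q w (Q / lg Q ^ Ch) (cv al (fun l => rr w l * cf (l / L'))) (1 / (lg Q : ℝ) ^ A)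

/-! ### The minor part -/

def S_Split : Prop := ∀ (a : ℕ) [Fact a.Prime] (v : ZMod a → ℂ) (Ξ : Finset (ZMod a)) (τ : ℝ),
  0 < τ → τ ≤ 1 → (∀ y, ‖v y‖ ≤ 1) → v 0 = 0 → 4 * (Ξ.card : ℝ) ≤ τ ^ 3 * √a →
  ∃ (L : Finset (DirichletCharacter ℂ a × ZMod a)) (cf : DirichletCharacter ℂ a × ZMod a → ℂ)
    (f : ZMod a → ℂ), (∀ φ ∈ L, φ.2 ∈ Ξ ∧ ‖cf φ‖ ≤ 1) ∧ (L.card : ℝ) ≤ Ξ.card / τ ^ 2 ∧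
    (∀ y, v y = f y + ∑ φ ∈ L, cf φ * ch φ.1 φ.2 y) ∧ Mn f Ξ τ (1 + L.card)

def S_CSW : Prop := ∀ (a : ℕ) [Fact a.Prime] (N K K2 J : ℕ) (α β u : ℕ → ℂ) (f : ZMod a → ℂ),
  1 ≤ K → K ≤ N → K2 < a → 1 ≤ J → K2 * J ≤ a → (∀ k, ‖α k‖ ≤ 1) → (∀ l, ‖β l‖ ≤ 1) →
  (∀ n, ‖u n‖ ≤ 1) → (∀ k, α k ≠ 0 → K < k ∧ k ≤ K2) → f 0 = 0 →
  ‖Bf a N (cv α β) u (fun b => f b)‖ ^ 2 ≤ (3 * a * N / K : ℝ) ^ 2 *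
    ∑ k ∈ Icc 1 K2, ∑ k' ∈ Icc 1 K2,
      (√(Gf f J k k') + 2 * Hf f (K2 * J) ((k : ZMod a) * (k' : ZMod a)⁻¹))

def S_Four : Prop := ∀ (a : ℕ) [Fact a.Prime] (f : ZMod a → ℂ) (J R1 k k' : ℕ), 1 ≤ J → 1 ≤ R1 →
  (k' : ZMod a) ≠ 0 →
  Gf f J k k' ≤
    ∑ r ∈ Icc (-(R1 : ℤ)) R1, Gam f ((k : ZMod a) * (k' : ZMod a)⁻¹) ((r : ZMod a) * (k' : ZMod a)⁻¹) +
      (a / (2 * J * R1) : ℝ) ^ 2 * Pf f ((k : ZMod a) * (k' : ZMod a)⁻¹)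

def S_L2 : Prop := ∀ (L : AddSubgroup (ℤ × ℤ)) (m E : ℕ) (lam : ℝ) (P : Finset (ℤ × ℤ)), 1 ≤ m →
  0 < lam → (∀ p ∈ L, ∀ q ∈ L, (m : ℤ) ∣ p.1 * q.2 - p.2 * q.1) →
  (∀ p ∈ L, p ≠ 0 → lam ≤ ((max |p.1| |p.2| : ℤ) : ℝ)) → (∀ p ∈ P, |p.1| ≤ E ∧ |p.2| ≤ E) →
  ((∀ p ∈ P, ∀ q ∈ P, p - q ∈ L) → (P.card : ℝ) ≤ 1 + 2 * E / lam + 32 * (E : ℝ) ^ 2 / m) ∧
  ∀ g : ℕ, (∀ p ∈ P, p ∈ L) →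
    (∀ p0 : ℤ × ℤ, p0 ≠ 0 → (P.filter (fun p => p0.1 * p.2 = p0.2 * p.1)).card ≤ g) →
    (P.card : ℝ) ≤ g + 16 * (E : ℝ) ^ 2 / m

open Classical in
def S_L3 : Prop := ∃ C : ℝ, 0 < C ∧ ∀ (a : ℕ) [Fact a.Prime] (x lam : ZMod a) (E ρ g : ℕ)
  (P : Finset (ℤ × ℤ × ℤ)), 2 ≤ ρ → 3 * ρ * E < a →
  (∀ p ∈ P, |p.1| ≤ E ∧ |p.2.1| ≤ E ∧ |p.2.2| ≤ E ∧ (p.1 : ZMod a) = x * (p.2.1 : ZMod a) ∧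
    (p.2.2 : ZMod a) = lam * (p.2.1 : ZMod a)) →
  (∀ p ∈ P, ∀ d : ℤ × ℤ × ℤ, d ≠ 0 → |d.1| ≤ ρ → |d.2.1| ≤ ρ → |d.2.2| ≤ ρ →
    d.1 * p.1 + d.2.1 * p.2.1 + d.2.2 * p.2.2 ≠ 0) →
  (∀ p0 ∈ P, (P.filter (fun p => par p0 p)).card ≤ g) →
  (P.card : ℝ) ≤ g + C * ((E : ℝ) ^ 2 / (a * ρ) + E * (a : ℝ) ^ (1 / 3 : ℝ) / a + (E : ℝ) ^ 3 / (a : ℝ) ^ 2)

def S_Pair : Prop := ∀ (a : ℕ) [Fact a.Prime] (K2 g0 : ℕ) (h : ZMod a → ℝ) (B : ℝ), K2 < a →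
  1 ≤ g0 → (∀ x, 0 ≤ h x ∧ h x ≤ B) →
  ((((Icc 1 K2 ×ˢ Icc 1 K2).filter (fun p => g0 < Nat.gcd p.1 p.2)).card : ℝ) ≤ (K2 : ℝ) ^ 2 / g0) ∧
  ∑ k ∈ Icc 1 K2, ∑ k' ∈ Icc 1 K2, h ((k : ZMod a) * (k' : ZMod a)⁻¹) ≤
    (g0 + 16 * (K2 : ℝ) ^ 2 / a) * ∑ x, h x + (K2 : ℝ) ^ 2 / g0 * B

def S_Mass : Prop := ∀ (a : ℕ) [Fact a.Prime] (f : ZMod a → ℂ) (Ξ : Finset (ZMod a)) (τ F : ℝ),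
  Mn f Ξ τ F → (∀ x, ∑ lam, Gam f x lam = Pf f x) ∧ (∀ x, Pf f x ≤ F ^ 4) ∧ ∑ x, Pf f x ≤ a ∧
    ∀ Y : ℕ, (∀ x, Hf f Y x ≤ F ^ 2) ∧ ∑ x, Hf f Y x ≤ √((2 * Y + 1) * a)

def S_Plane : Prop := ∀ (a : ℕ) [Fact a.Prime] (f : ZMod a → ℂ) (ρ : ℕ) (τ F : ℝ) (d1 d2 d3 : ℤ),
  Mn f (Xi a ρ) τ F → |d1| ≤ ρ → d3 ≠ 0 → |d3| ≤ ρ →
  ∑ x : ZMod a, Gam f x (-(d1 * x + d2) * (d3 : ZMod a)⁻¹) ≤ 4 * τ ^ 2 * a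

def S_Gam : Prop := ∃ C : ℝ, 0 < C ∧ ∀ (a : ℕ) [Fact a.Prime] (f : ZMod a → ℂ) (τ F : ℝ)
  (ρ K2 R1 g0 : ℕ), Mn f (Xi a ρ) τ F → 2 ≤ ρ → 1 ≤ g0 → 1 ≤ K2 → K2 ≤ R1 → 3 * ρ * R1 < a →
  ∑ k ∈ Icc 1 K2, ∑ k' ∈ Icc 1 K2, ∑ r ∈ Icc (-(R1 : ℤ)) R1,
      Gam f ((k : ZMod a) * (k' : ZMod a)⁻¹) ((r : ZMod a) * (k' : ZMod a)⁻¹) ≤
    C * ((ρ : ℝ) ^ 3 * ((g0 * a + (K2 : ℝ) ^ 2) * τ ^ 2 + (K2 : ℝ) ^ 2 * F ^ 4 / g0 + K2 * F ^ 4) +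
      g0 * a + (R1 : ℝ) ^ 2 / ρ + R1 * (a : ℝ) ^ (1 / 3 : ℝ) + (R1 : ℝ) ^ 3 / a)

def S_Minor : Prop := ∀ A U : ℕ, ∃ B Cτ : ℕ, ∀ CF : ℕ, ∃ Q0 : ℕ, ∀ (Q a : ℕ) [Fact a.Prime] (K : ℕ)
  (α β u : ℕ → ℂ) (f : ZMod a → ℂ), Q0 ≤ Q → Q ≤ a → a ≤ 2 * Q → Q ^ 3 ≤ (4 * K) ^ 5 →
  2 ^ U * K * om Q ≤ Q → (∀ k, ‖α k‖ ≤ 1) → (∀ l, ‖β l‖ ≤ 1) → (∀ n, ‖u n‖ ≤ 1) →
  (∀ k, α k ≠ 0 → K < k ∧ k ≤ 2 ^ U * K) →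
  Mn f (Xi a (lg Q ^ B)) (1 / (lg Q : ℝ) ^ Cτ) ((lg Q : ℝ) ^ CF) →
  ‖Bf a Q (cv α β) u (fun b => f b)‖ ≤ a * Q / (lg Q : ℝ) ^ A

/-! ### The major part -/

def S_Row : Prop := ∃ C : ℝ, 0 < C ∧ ∀ (a : ℕ) [Fact a.Prime] (N w ρ R : ℕ) (c u : ℕ → ℂ)
  (B0 Z : ℝ) (χ : DirichletCharacter ℂ a) (ξ : ZMod a), ξ ∈ Xi a ρ → ρ ≤ w → ρ < a → 1 ≤ N →
  1 ≤ R → R ≤ a → (∀ n, ‖u n‖ ≤ 1) → (∀ m, m ≤ 8 * (a * N) → ‖c m‖ ≤ B0) →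
  (∀ m, c m ≠ 0 → rough w m) →
  (∀ (q : ℕ) [NeZero q] (ψ : DirichletCharacter ℂ q), q ≤ ρ →
    ∑ x ∈ Ico (a * N) (2 * (a * N)),
      ‖∑ j ∈ range R, c (x + j) * χ ((x + j : ℕ) : ZMod a) * ψ ((x + j : ℕ) : ZMod q)‖ ≤ Z) →
  ‖Bf a N c u (fun b => ch χ ξ b)‖ ≤ ρ * Z / R + C * B0 * ρ * R * N

def S_SmLe : Prop := ∀ (S : Finset ℕ) (a : ℕ → ℂ) (t T ε : ℝ), 0 < T →
  (∀ t' : ℝ, |t' - t| ≤ T → ‖∑ n ∈ S, a n * nit t' n‖ ≤ ε) →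
  sm S a t ≤ Real.pi * ε ^ 2 + 2 / T * (∑ n ∈ S, ‖a n‖) ^ 2

def S_Var : Prop := ∃ C : ℝ, 0 < C ∧ ∀ (X P R : ℕ) (h T1 ε1 ε2 B0 : ℝ) (f pp yy al gm : ℕ → ℂ),
  2 ≤ X → 1 ≤ P → (P : ℝ) ≤ h → h ≤ X → R ≤ X → 0 ≤ T1 → 0 ≤ ε1 → 0 ≤ ε2 → 1 ≤ B0 →
  (∀ n, f n = cv pp yy n) → (∀ n, f n = cv al gm n) →
  (∀ p, pp p ≠ 0 → p ∈ PP P (2 * P)) → (∀ p, ‖pp p‖ ≤ 1) → (∀ k, ‖al k‖ ≤ 1) →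
  (∀ n, n ≤ 8 * X → ‖yy n‖ ≤ B0 ∧ ‖f n‖ ≤ B0) →
  (∀ t : ℝ, T1 ≤ |t| → |t| ≤ X → sm (PP P (2 * P)) (fun p => pp p / p) t ≤ ε1) →
  (∀ t : ℝ, |t| < T1 → sm (Icc 1 (8 * X)) (fun l => gm l / l) t ≤ ε2) →
  ∑ x ∈ Ico X (2 * X), ‖∑ j ∈ range R, f (x + j)‖ ≤
    C * B0 * (R * X * √(ε1 + T1 * (1 + Real.log X) ^ 2 * ε2 + 1 / h) + h * X + (R : ℝ) ^ 2)

def S_HM : Prop := ∀ (Q P hh : ℕ) (T V : ℝ) (c : ℕ → ℂ) (E : Finset ℕ)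
  (χ : (a : ℕ) → DirichletCharacter ℂ a) (t : ℕ → ℝ), 1 ≤ hh → 1 ≤ P → 0 < V → 0 ≤ T →
  (∀ p, ‖c p‖ ≤ 1) →
  (∀ a ∈ E, a.Prime ∧ a ≤ 2 * Q ∧ χ a ≠ 1 ∧ |t a| ≤ T ∧
    V ≤ ‖∑ p ∈ PP P (2 * P), χ a p * c p / (p : ℂ) * nit (t a) p‖) →
  (hh : ℝ) ^ hh * (8 * (Q : ℝ) ^ 2 * (1 + 2 * T * hh)) ≤ V ^ (2 * hh) * (P : ℝ) ^ hh →
  (E.card : ℝ) ≤ 2 * (2 * hh : ℝ) ^ hh / V ^ (2 * hh)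

def S_Exc : Prop := ∀ u A B : ℕ, 1 ≤ u → ∃ C Q0 : ℕ, ∀ Q : ℕ, Q0 ≤ Q → ∃ E : Finset ℕ,
  E.card ≤ lg Q ^ C ∧ ∀ a : ℕ, a.Prime → a ≤ 2 * Q → a ∉ E → Gd u A B Q a

def S_Match : Prop := ∀ (β : ℕ → ℝ) (w L Λ L' : ℕ), (∀ l, 0 ≤ β l ∧ β l ≤ rr w l) →
  (∀ i, 0 ≤ cb β w L' i ∧ cb β w L' i ≤ 1) ∧ (∀ l, |ga β w L' l| ≤ rr w l) ∧
  ∀ (a Y : ℕ) (t : ℝ), a.Prime → (∀ l, β l ≠ 0 → L < l ∧ l ≤ Λ * L) → 1 ≤ L' → 2 * L' ≤ L →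
    Λ * L + L' ≤ Y →
    ‖∑ l ∈ Icc 1 Y, (ga β w L' l : ℂ) * (1 : DirichletCharacter ℂ a) l / (l : ℂ) * nit t l‖ ≤
      16 * Λ * (1 + |t|) * L' / L + (1 + Real.log Y) / a

def S_Major : Prop := ∀ u A B : ℕ, 1 ≤ u → ∃ A' CL Q0 : ℕ, ∀ (Q a : ℕ) [Fact a.Prime] (w : ℕ)
  (d : T2 u Q w) (L' : ℕ) (χ : DirichletCharacter ℂ a) (ξ : ZMod a) (v : ℕ → ℂ), Q0 ≤ Q → Q ≤ a →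
  a ≤ 2 * Q → Gd u A' B Q a → lg Q ^ B ≤ w → 1 ≤ L' → L' * lg Q ^ CL ≤ d.L →
  ξ ∈ Xi a (lg Q ^ B) → (∀ n, ‖v n‖ ≤ 1) →
  ‖Bf a Q (fun m => ((cv d.al (ga d.be w L') m : ℝ) : ℂ)) v (fun b => ch χ ξ b)‖ ≤
    a * Q / (lg Q : ℝ) ^ A

/-! ### Assembly -/

def S_Diff : Prop := ∀ u A : ℕ, 1 ≤ u → ∃ A' B CL Q0 : ℕ, ∀ (Q a w : ℕ) (d : T2 u Q w) (L' : ℕ),
  Q0 ≤ Q → a.Prime → Q ≤ a → a ≤ 2 * Q → Gd u A' B Q a → lg Q ^ B ≤ w → 1 ≤ L' →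
  L' * lg Q ^ CL ≤ d.L → SmallR a Q (cv d.al (ga d.be w L')) (1 / (lg Q : ℝ) ^ A)

def S_II : Prop := ∀ u A : ℕ, 1 ≤ u → ∃ C Ch Cw0 : ℕ, ∀ Cw : ℕ, ∃ Q0 : ℕ, ∀ Q : ℕ, Q0 ≤ Q →
  ∃ E : Finset ℕ, E.card ≤ lg Q ^ C ∧ ∀ (a w : ℕ) (S : Finset ℕ), a.Prime → Q ≤ a → a ≤ 2 * Q →
    a ∉ E → lg Q ^ Cw0 ≤ w → w ≤ lg Q ^ Cw → S ∈ Pats u Q →
    Approx a Q w (Q / lg Q ^ Ch) (CS S) (1 / (lg Q : ℝ) ^ A)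

def S_G : Prop := ∀ (ε : ℝ) (A : ℕ), 0 < ε → ∃ C Ch Cw Q0 : ℕ, ∀ Q : ℕ, Q0 ≤ Q →
  ∃ (E : Finset ℕ) (w : ℕ) (G err : ℕ → ℝ), E.card ≤ lg Q ^ C ∧ 2 ≤ w ∧ w ≤ lg Q ^ Cw ∧
    (∀ m, 0 ≤ err m) ∧ ∑ m ∈ Ico 1 (4 * Q ^ 2), err m ≤ ε * (Q : ℝ) ^ 2 / lg Q ∧
    (∀ m, Q ^ 2 ≤ m → m < 4 * Q ^ 2 → |pr1 m - G m| ≤ err m) ∧
    ∀ a : ℕ, a.Prime → Q ≤ a → a ≤ 2 * Q → a ∉ E →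
      Approx a Q w (Q / lg Q ^ Ch) G (1 / (lg Q : ℝ) ^ A)

def S_KP : Prop := ∀ (ε : ℝ) (A : ℕ), 0 < ε → ∃ C Cw Q0 : ℕ, ∀ Q : ℕ, Q0 ≤ Q →
  ∃ (E : Finset ℕ) (w : ℕ), E.card ≤ lg Q ^ C ∧ 2 ≤ w ∧ w ≤ lg Q ^ Cw ∧
    ∀ a : ℕ, a.Prime → Q ≤ a → a ≤ 2 * Q → a ∉ E → ∃ Bad : ℕ → ℝ, (∀ n, 0 ≤ Bad n) ∧
      ∑ n ∈ Ico Q (2 * Q), Bad n ≤ ε * a * Q / lg Q ∧
      ∀ u v : ℕ → ℝ, (∀ n, 0 ≤ u n ∧ u n ≤ 1) → (∀ b, 0 ≤ v b ∧ v b ≤ 1) →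
        kap Q w * Br a Q (rr w) u v ≤
          Br a Q pr1 u v + a * Q / (lg Q : ℝ) ^ A + ∑ n ∈ Ico Q (2 * Q), u n * Bad n

open Classical in
def S_Main : Prop := ∀ k : ℕ, ∃ c : ℝ, 0 < c ∧ ∀ ε : ℝ, 0 < ε → ∃ C Q0 : ℕ, ∀ Q : ℕ, Q0 ≤ Q →
  ∃ E : Finset ℕ, (E.card : ℝ) ≤ Real.log Q ^ C ∧ ∀ a : Fin k → ℕ,
    (∀ i, (a i).Prime ∧ Q ≤ a i ∧ a i ≤ 2 * Q ∧ a i ∉ E) →
    (((Fintype.piFinset fun i => Ico 1 (a i)).filter (fun b => Adm a b ∧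
      (((Ico Q (2 * Q)).filter (fun n => ∀ i, (a i * n + b i).Prime)).card : ℝ) <
        c * Q / Real.log Q ^ k)).card : ℝ) ≤ ε * ∏ i, (a i : ℝ)

end Pool.Agent.P.MP_746f10_nt.AP
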