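import Pool.Agent.P.MP_746f10_nt.AP.VK

/-! The number of pairs with the same image: covering, shifts and the inequality of the means. -/

namespace Pool.Agent.P.MP_746f10_nt.AP

open Finset
open scoped ComplexConjugate

namespace EnP

variable {α : Type} {k : ℕ}

/-- the size of a fibre -/
def fb (A : Finset α) (φ : α → Fin k → ℤ) (v : Fin k → ℤ) : ℝ := (A.filter (φ · = v)).card

theorem pairs (A : Finset α) (φ ψ : α → Fin k → ℤ) {T : Finset (Fin k → ℤ)} (h : ∀ x ∈ A, φ x ∈ T) :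
    (((A ×ˢ A).filter fun p => φ p.1 = ψ p.2).card : ℝ) = ∑ v ∈ T, fb A φ v * fb A ψ v := by
  rw [card_eq_sum_card_fiberwise (f := fun p => φ p.1) (t := T) fun p hp =>
    h _ (mem_product.1 (mem_filter.1 hp).1).1, Nat.cast_sum]
  refine sum_congr rfl fun v _ => ?_
  rw [fb, fb, ← Nat.cast_mul, ← card_product]
  congr 2
  ext ⟨x, y⟩
  simp only [mem_filter, mem_product]
  exact ⟨fun ⟨⟨⟨a, b⟩, c⟩, d⟩ => ⟨⟨a, d⟩, b, c ▸ d⟩, fun ⟨⟨a, d⟩, b, c⟩ => ⟨⟨⟨a, b⟩, c ▸ d⟩, d⟩⟩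

theorem en_eq (A : Finset α) (φ : α → Fin k → ℤ) {T : Finset (Fin k → ℤ)} (h : ∀ x ∈ A, φ x ∈ T) :
    (En A φ : ℝ) = ∑ v ∈ T, fb A φ v ^ 2 := by
  simp only [En, pairs A φ φ h, sq]

theorem orth (T : Finset (Fin k → ℤ)) : ∃ (ι : Type) (_ : Fintype ι)
    (χ : ι → AddChar (Fin k → ℤ) ℂ) (K : ℕ), 0 < K ∧ ∀ v ∈ T, ∀ w ∈ T,
      ∑ a, χ a v * conj (χ a w) = if v = w then (K : ℂ) else 0 := by
  obtain ⟨M, hM⟩ : ∃ M : ℕ, ∀ v ∈ T, ∀ w ∈ T, ∀ j, (w j - v j).natAbs < M + 1 :=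
    ⟨(T ×ˢ T ×ˢ univ).sup fun p => (p.2.1 p.2.2 - p.1 p.2.2).natAbs, fun v hv w hw j =>
      Nat.lt_succ_of_le (le_sup (f := fun p : (Fin k → ℤ) × (Fin k → ℤ) × Fin k =>
        (p.2.1 p.2.2 - p.1 p.2.2).natAbs) (b := (v, w, j)) (by simp [hv, hw]))⟩
  let c : (Fin k → ℤ) →+ Fin k → ZMod (M + 1) := (Int.castAddHom _).compLeft _
  refine ⟨AddChar (Fin k → ZMod (M + 1)) ℂ, inferInstance, fun a => a.compAddMonoidHom c,
    Fintype.card (Fin k → ZMod (M + 1)), Fintype.card_pos, fun v hv w hw => ?_⟩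
  simp only [AddChar.compAddMonoidHom_apply, ← AddChar.map_neg_eq_conj, ← AddChar.map_add_eq_mul]
  rw [AddChar.sum_apply_eq_ite]
  refine if_congr ⟨fun h => funext fun j => ?_, fun h => by simp [h]⟩ rfl rfl
  have h1 : ((v j : ℤ) : ZMod (M + 1)) = (w j : ℤ) := congrFun (add_neg_eq_zero.1 h) j
  have := Int.eq_zero_of_dvd_of_natAbs_lt_natAbs ((ZMod.intCast_eq_intCast_iff_dvd_sub _ _ _).1 h1)
    (by rw [Int.natAbs_natCast]; exact hM v hv w hw j)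
  omega

theorem pars {ι : Type} [Fintype ι] {χ : ι → AddChar (Fin k → ℤ) ℂ} {K : ℕ}
    {T : Finset (Fin k → ℤ)}
    (hχ : ∀ v ∈ T, ∀ w ∈ T, ∑ a, χ a v * conj (χ a w) = if v = w then (K : ℂ) else 0)
    (A : Finset α) (φ : α → Fin k → ℤ) (h : ∀ x ∈ A, φ x ∈ T) :
    (K : ℝ) * En A φ = ∑ a, ‖∑ x ∈ A, χ a (φ x)‖ ^ 2 := by
  refine Complex.ofReal_injective ?_
  push_cast
  simp only [← Complex.mul_conj', map_sum, sum_mul_sum]
  rw [En, card_filter, sum_product, sum_comm (s := univ)]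
  push_cast
  rw [mul_sum]
  refine sum_congr rfl fun x hx => ?_
  rw [sum_comm, mul_sum]
  refine sum_congr rfl fun y hy => ?_
  rw [hχ _ (h x hx) _ (h y hy), mul_ite, mul_one, mul_zero]

theorem chi_sum {ι G : Type} [AddCommMonoid G] (χ : AddChar G ℂ) (s : Finset ι) (f : ι → G) :
    χ (∑ i ∈ s, f i) = ∏ i ∈ s, χ (f i) := by
  classical
  induction s using Finset.induction_on with
  | empty => simp
  | insert a s ha ih => rw [sum_insert ha, prod_insert ha, χ.map_add_eq_mul, ih]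

theorem factor {s : ℕ} (χ : AddChar (Fin k → ℤ) ℂ) (D : Finset α) (φ : α → Fin k → ℤ)
    (ψ : ℕ → Fin k → ℤ) (C : Fin s → Finset ℕ) :
    ‖∑ p ∈ D ×ˢ Fintype.piFinset C, χ (φ p.1 + ∑ l, ψ (p.2 l))‖ ^ 2 =
      ‖∑ x ∈ D, χ (φ x)‖ ^ 2 * ∏ l, ‖∑ n ∈ C l, χ (ψ n)‖ ^ 2 := by
  rw [prod_pow, ← norm_prod, ← mul_pow, ← norm_mul, prod_univ_sum, sum_mul_sum, sum_product]
  simp only [χ.map_add_eq_mul, chi_sum]

theorem amgm {s : ℕ} (hs : 1 ≤ s) (z : Fin s → ℝ) (hz : ∀ i, 0 ≤ z i) :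
    ∏ i, z i ≤ ∑ i, (s : ℝ)⁻¹ * z i ^ s := by
  have h0 : (s : ℝ) ≠ 0 := by positivity
  have := Real.geom_mean_le_arith_mean_weighted univ (fun _ => (s : ℝ)⁻¹) (fun i => z i ^ s)
    (fun _ _ => by positivity) (by simp [h0]) fun i _ => pow_nonneg (hz i) s
  simpa only [Real.pow_rpow_inv_natCast (hz _) (by omega : s ≠ 0)] using this

end EnP

open EnP

theorem pEnSub : S_EnSub := by
  intro α ι k A I B φ h
  classical
  have hT : ∀ i ∈ I, ∀ x ∈ B i, φ x ∈ (I.biUnion B).image φ := fun i hi x hx =>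
    mem_image_of_mem _ (mem_biUnion.2 ⟨i, hi, hx⟩)
  rw [sum_congr rfl fun i hi => by rw [en_eq _ φ (hT i hi)],
    en_eq A φ fun x hx => (h x hx).elim fun i hi => hT i hi.1 x hi.2]
  generalize (I.biUnion B).image φ = T
  refine Real.sqrt_le_iff.2 ⟨by positivity, ?_⟩
  calc ∑ v ∈ T, fb A φ v ^ 2 ≤ ∑ v ∈ T, (∑ i ∈ I, fb (B i) φ v) ^ 2 := by
        refine sum_le_sum fun v _ => pow_le_pow_left₀ (Nat.cast_nonneg _) ?_ 2
        simp only [fb, ← Nat.cast_sum, Nat.cast_le]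
        refine (card_le_card fun x hx => ?_).trans card_biUnion_le
        obtain ⟨i, hi, hx'⟩ := h x (mem_filter.1 hx).1
        exact mem_biUnion.2 ⟨i, hi, mem_filter.2 ⟨hx', (mem_filter.1 hx).2⟩⟩
    _ = ∑ i ∈ I, ∑ j ∈ I, ∑ v ∈ T, fb (B i) φ v * fb (B j) φ v := by
        simp only [sq, sum_mul_sum]
        rw [sum_comm]
        exact sum_congr rfl fun i _ => sum_comm
    _ ≤ _ := by
        rw [sq, sum_mul_sum]
        exact sum_le_sum fun i _ => sum_le_sum fun j _ => Real.sum_mul_le_sqrt_mul_sqrt _ _ _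

theorem pEnShift : S_EnShift := by
  intro α k A φ m
  have h1 : ∀ x ∈ A, φ x ∈ A.image φ ∪ A.image fun x => φ x + m := fun x hx =>
    mem_union_left _ (mem_image_of_mem _ hx)
  have h2 := en_eq A (fun x => φ x + m) (T := A.image φ ∪ A.image fun x => φ x + m) fun x hx =>
    mem_union_right _ (mem_image_of_mem _ hx)
  have h3 : En A (fun x => φ x + m) = En A φ := by simp only [En, add_left_inj]
  have h4 := en_eq A φ h1
  rw [h3] at h2
  rw [← Nat.cast_le (α := ℝ), pairs A φ (fun x => φ x + m) h1]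
  have h5 := sum_le_sum (s := A.image φ ∪ A.image fun x => φ x + m) fun v _ =>
    two_mul_le_add_sq (fb A φ v) (fb A (fun x => φ x + m) v)
  simp only [mul_assoc] at h5
  rw [← mul_sum, sum_add_distrib] at h5
  linarith

theorem pAMGM : S_AMGM := by
  intro α k s D φ ψ C B hs h
  classical
  obtain ⟨ι, _, χ, K, hK, hχ⟩ := orth ((D ×ˢ tup s (univ.biUnion C)).image
    fun p => φ p.1 + ∑ l, ψ (p.2 l))
  have key : ∀ C' : Fin s → Finset ℕ, (∀ l, ∃ i, C' l = C i) →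
      (K : ℝ) * En (D ×ˢ Fintype.piFinset C') (fun p => φ p.1 + ∑ l, ψ (p.2 l)) =
        ∑ a, ‖∑ x ∈ D, χ a (φ x)‖ ^ 2 * ∏ l, ‖∑ n ∈ C' l, χ a (ψ n)‖ ^ 2 := fun C' hC => by
    rw [pars hχ _ _ fun p hp => mem_image_of_mem _ ?_]
    · exact sum_congr rfl fun a _ => factor _ _ _ _ _
    · refine mem_product.2 ⟨(mem_product.1 hp).1, Fintype.mem_piFinset.2 fun l => ?_⟩
      obtain ⟨i, hi⟩ := hC l
      exact mem_biUnion.2 ⟨i, mem_univ _, hi ▸ Fintype.mem_piFinset.1 (mem_product.1 hp).2 l⟩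
  have hK' : (0 : ℝ) < K := by positivity
  have h0 : (s : ℝ) ≠ 0 := by positivity
  refine le_of_mul_le_mul_left ?_ hK'
  rw [key C fun l => ⟨l, rfl⟩]
  calc _ ≤ ∑ a, ‖∑ x ∈ D, χ a (φ x)‖ ^ 2 *
          ∑ i, (s : ℝ)⁻¹ * (‖∑ n ∈ C i, χ a (ψ n)‖ ^ 2) ^ s :=
        sum_le_sum fun a _ => mul_le_mul_of_nonneg_left (amgm hs _ fun _ => by positivity)
          (by positivity)
    _ = ∑ i, (s : ℝ)⁻¹ * (K * En (D ×ˢ tup s (C i)) fun p => φ p.1 + ∑ l, ψ (p.2 l)) := by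
        rw [sum_congr rfl fun a _ => mul_sum _ _ _, sum_comm]
        refine sum_congr rfl fun i _ => ?_
        rw [tup, key _ fun _ => ⟨i, rfl⟩, mul_sum]
        refine sum_congr rfl fun a _ => ?_
        rw [prod_const, card_univ, Fintype.card_fin, mul_left_comm]
    _ ≤ ∑ _i : Fin s, (s : ℝ)⁻¹ * (K * B) := by gcongr with i; exact h i
    _ = K * B := by simp [h0]

end Pool.Agent.P.MP_746f10_nt.AP
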