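import Pool.Agent.P.MP_746f10_nt.AP.VK

/-! The exponential sum bound of Vinogradov and Korobov type. -/

namespace Pool.Agent.P.MP_746f10_nt.AP

open Finset
open Pool.Agent.P.MP_0ad054_nt (e mn norm_e_sub_le mn_nonneg)
open Pool.Agent.P.MP_a14ce1_nt.Ch (nit ex norm_nit nit_mul)

namespace ExpP

theorem exZ {M : ℕ} (hM : 1 ≤ M) : ∃ Z : ℕ, 1 ≤ Z ∧ Z ^ 4 ≤ M ∧ M ≤ 16 * Z ^ 4 := by
  have h1 : 0 < Nat.sqrt (Nat.sqrt M) := Nat.sqrt_pos.2 (Nat.sqrt_pos.2 hM)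
  have h2 := Nat.sqrt_le' M
  have h3 := Nat.sqrt_le' (Nat.sqrt M)
  have h4 := Nat.lt_succ_sqrt' M
  have h5 : Nat.sqrt M + 1 ≤ (Nat.sqrt (Nat.sqrt M) + 1) ^ 2 := Nat.lt_succ_sqrt' (Nat.sqrt M)
  refine ⟨_, h1, ?_, ?_⟩
  · calc Nat.sqrt (Nat.sqrt M) ^ 4 = (Nat.sqrt (Nat.sqrt M) ^ 2) ^ 2 := by ring
      _ ≤ Nat.sqrt M ^ 2 := Nat.pow_le_pow_left h3 2
      _ ≤ M := h2
  · calc M ≤ (Nat.sqrt M + 1) ^ 2 := h4.le
      _ ≤ ((Nat.sqrt (Nat.sqrt M) + 1) ^ 2) ^ 2 := Nat.pow_le_pow_left h5 2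
      _ ≤ ((2 * Nat.sqrt (Nat.sqrt M)) ^ 2) ^ 2 :=
        Nat.pow_le_pow_left (Nat.pow_le_pow_left (by omega) 2) 2
      _ = _ := by ring

theorem triv {g : ℕ → ℂ} (hg : ∀ m, ‖g m‖ ≤ 1) (a b : ℕ) :
    ‖∑ m ∈ Ioc a b, g m‖ ≤ ((b - a : ℕ) : ℝ) := by
  refine (norm_sum_le _ _).trans ((sum_le_sum fun m _ => hg m).trans ?_)
  simp

theorem shift {g : ℕ → ℂ} (hg : ∀ m, ‖g m‖ ≤ 1) {M N : ℕ} (h : M ≤ N) (d : ℕ) :
    ‖∑ m ∈ Ioc M N, g m - ∑ m ∈ Ioc M N, g (m + d)‖ ≤ 2 * d := by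
  have e1 : ∑ m ∈ Ioc M N, g (m + d) = ∑ m ∈ Ioc (M + d) (N + d), g m := by
    rw [← map_add_right_Ioc, sum_map]; rfl
  have e2 := sum_Ioc_consecutive g h (Nat.le_add_right N d)
  have e3 := sum_Ioc_consecutive g (Nat.le_add_right M d) (Nat.add_le_add_right h d)
  have e4 : ∑ m ∈ Ioc M N, g m - ∑ m ∈ Ioc M N, g (m + d) =
      ∑ m ∈ Ioc M (M + d), g m - ∑ m ∈ Ioc N (N + d), g m := by
    rw [e1]; linear_combination e2 - e3
  have b1 := triv hg M (M + d)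
  have b2 := triv hg N (N + d)
  rw [Nat.add_sub_cancel_left] at b1 b2
  rw [e4]
  exact (norm_sub_le _ _).trans (by linarith)

/-- the Taylor coefficients -/
noncomputable def al (u n : ℝ) (j : ℕ) : ℝ := (-1) ^ j * u / (2 * Real.pi * j * n ^ j)

theorem ex_eq (a : ℝ) : ex a = e (a / (2 * Real.pi)) := by
  unfold ex e
  congr 1
  have : (Real.pi : ℂ) ≠ 0 := by exact_mod_cast Real.pi_ne_zero
  push_cast
  field_simp

theorem taylor (u : ℝ) {n x y : ℝ} (hn : 0 < n) (hx : 0 ≤ x) (hy : 0 ≤ y) (h : x * y / n ≤ 1 / 2)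
    (K : ℕ) : ‖nit u (n + x * y) - nit u n * e (∑ j ∈ Icc 1 K, al u n j * x ^ j * y ^ j)‖ ≤
      2 * |u| * (x * y / n) ^ (K + 1) := by
  set w := x * y / n with hw
  have hw0 : 0 ≤ w := by positivity
  have e1 : n + x * y = n * (1 + w) := by rw [hw]; field_simp
  have hp := Real.pi_pos
  have t := Real.abs_log_sub_add_sum_range_le (x := -w) (by rw [abs_neg, abs_of_nonneg hw0]; linarith) K
  rw [abs_neg, abs_of_nonneg hw0, sub_neg_eq_add] at t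
  have e2 : ∑ j ∈ Icc 1 K, al u n j * x ^ j * y ^ j =
      u * (∑ i ∈ range K, (-w) ^ (i + 1) / (i + 1)) / (2 * Real.pi) := by
    rw [mul_sum, sum_div, ← Ico_add_one_right_eq_Icc, sum_Ico_eq_sum_range, Nat.add_sub_cancel]
    refine sum_congr rfl fun i _ => ?_
    rw [al, neg_pow w, hw, div_pow, mul_pow, add_comm 1 i]
    push_cast
    field_simp
  rw [e1, nit_mul u hn.ne' (by linarith), ← mul_sub, norm_mul, norm_nit, one_mul, e2]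
  unfold nit
  rw [ex_eq]
  refine (norm_e_sub_le _ _).trans ?_
  rw [← sub_div, abs_div, abs_of_pos (by positivity : 0 < 2 * Real.pi), mul_div_cancel₀ _ (by positivity)]
  have e3 : -(u * Real.log (1 + w)) - u * ∑ i ∈ range K, (-w) ^ (i + 1) / (i + 1) =
      -u * (∑ i ∈ range K, (-w) ^ (i + 1) / (i + 1) + Real.log (1 + w)) := by ring
  rw [e3, abs_mul, abs_neg]
  have t2 : w ^ (K + 1) / (1 - w) ≤ 2 * w ^ (K + 1) := by
    rw [div_le_iff₀ (by linarith)]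
    nlinarith [pow_nonneg hw0 (K + 1)]
  calc _ ≤ |u| * (2 * w ^ (K + 1)) := mul_le_mul_of_nonneg_left (t.trans t2) (abs_nonneg _)
    _ = _ := by ring

theorem abs_al (u : ℝ) {n : ℝ} (hn : 0 < n) (j : ℕ) :
    |al u n j| = |u| / (2 * Real.pi * j * n ^ j) := by
  have := Real.pi_pos
  rw [al, abs_div, abs_mul, abs_pow, abs_neg, abs_one, one_pow, one_mul,
    abs_of_nonneg (by positivity : 0 ≤ 2 * Real.pi * j * n ^ j)]

theorem good_abs {C s P a Y G l L : ℝ} (hC : 0 ≤ C) (hs : 1 ≤ s) (hP : 0 ≤ P) (ha : 0 < a)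
    (hY : 0 ≤ Y) (hl : 1 ≤ l) (hL : l ≤ L) (h1 : a * Y ≤ 1) (h2 : Y ≤ P) (h3 : Y ≤ G * P ^ 2 * a) :
    C * (s * P * a + 1) * (s * P + l / a) * Y ≤ C * L * (3 * s ^ 2 + G) * P ^ 2 := by
  have h4 : Y / a ≤ G * P ^ 2 := (div_le_iff₀ ha).2 h3
  have h0 : 0 ≤ Y / a := by positivity
  have e1 : (s * P * a + 1) * (s * P + l / a) * Y =
      (s * P) ^ 2 * (a * Y) + s * P * Y * l + s * P * Y + l * (Y / a) := by field_simp; ring
  have b1 : (s * P) ^ 2 * (a * Y) ≤ L * (s * P) ^ 2 := by nlinarith [sq_nonneg (s * P)]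
  have b0 : s * P * Y ≤ (s * P) ^ 2 := by
    rw [sq]
    exact mul_le_mul_of_nonneg_left (by nlinarith) (by positivity)
  have b00 : 0 ≤ s * P * Y := by positivity
  have b2 : s * P * Y * l ≤ L * (s * P) ^ 2 := by nlinarith
  have b3 : s * P * Y ≤ L * (s * P) ^ 2 := by nlinarith
  have b4 : l * (Y / a) ≤ L * (G * P ^ 2) := mul_le_mul hL h4 h0 (by linarith)
  rw [mul_assoc C, mul_assoc C, e1, mul_assoc C, mul_assoc C]
  refine mul_le_mul_of_nonneg_left ?_ hC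
  nlinarith

theorem good_al {k d r K : ℕ} {u n M Z : ℝ} (hZ : 1 ≤ Z) (h1 : Z ^ 4 ≤ M) (h2 : M ≤ 16 * Z ^ 4)
    (hn : M ≤ n) (hn' : n ≤ 3 * M) (hu : M ^ k ≤ |u|) (hu' : |u| ≤ M ^ (k + 1)) (hd : 1 + r ≤ d)
    (hd' : d + 2 * r ≤ k) (hK : k + d ≤ K) :
    0 < |al u n (k + d)| ∧ |al u n (k + d)| * Z ^ (4 * r) ≤ 1 ∧
      Z ^ (4 * r) ≤ 7 * K * 48 ^ K * (Z ^ (k + d)) ^ 2 * |al u n (k + d)| := by
  have hM : 1 ≤ M := (one_le_pow₀ hZ).trans h1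
  have hn0 : 0 < n := by linarith
  have hp := Real.pi_gt_three
  have hp' := Real.pi_lt_d2
  have hj : (1 : ℝ) ≤ ((k + d : ℕ) : ℝ) := by exact_mod_cast (by omega : 1 ≤ k + d)
  have hjK : ((k + d : ℕ) : ℝ) ≤ K := by exact_mod_cast hK
  have hu0 : 0 < |u| := lt_of_lt_of_le (by positivity) hu
  have hD : 0 < 2 * Real.pi * ((k + d : ℕ) : ℝ) * n ^ (k + d) := by positivity
  rw [abs_al u hn0]
  refine ⟨by positivity, ?_, ?_⟩
  · rw [div_mul_eq_mul_div, div_le_one hD]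
    calc |u| * Z ^ (4 * r) ≤ M ^ (k + 1) * M ^ r := by
          rw [pow_mul]; gcongr
      _ ≤ M ^ (k + d) := by rw [← pow_add]; exact pow_le_pow_right₀ hM (by omega)
      _ ≤ 1 * n ^ (k + d) := by rw [one_mul]; gcongr
      _ ≤ _ := mul_le_mul_of_nonneg_right (by nlinarith) (by positivity)
  · rw [← mul_div_assoc, le_div_iff₀ hD]
    have a1 : 2 * Real.pi * ((k + d : ℕ) : ℝ) ≤ 7 * K := by nlinarith
    have a2 : n ^ (k + d) ≤ 48 ^ K * Z ^ (4 * d) * M ^ k := by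
      calc n ^ (k + d) ≤ (3 * M) ^ (k + d) := by gcongr
        _ = 3 ^ (k + d) * M ^ d * M ^ k := by rw [mul_pow, pow_add M]; ring
        _ ≤ 3 ^ K * (16 * Z ^ 4) ^ d * M ^ k := by gcongr; norm_num
        _ = 3 ^ K * 16 ^ d * Z ^ (4 * d) * M ^ k := by rw [mul_pow, pow_mul]; ring
        _ ≤ 3 ^ K * 16 ^ K * Z ^ (4 * d) * M ^ k := by gcongr; norm_num; omega
        _ = _ := by rw [← mul_pow]; norm_num
    have a3 : Z ^ (4 * r) * Z ^ (4 * d) ≤ (Z ^ (k + d)) ^ 2 := by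
      rw [← pow_add, ← pow_mul]; exact pow_le_pow_right₀ hZ (by omega)
    calc Z ^ (4 * r) * (2 * Real.pi * ((k + d : ℕ) : ℝ) * n ^ (k + d))
        ≤ Z ^ (4 * r) * (7 * K * (48 ^ K * Z ^ (4 * d) * M ^ k)) := by gcongr
      _ = 7 * K * 48 ^ K * (Z ^ (4 * r) * Z ^ (4 * d)) * M ^ k := by ring
      _ ≤ _ := by gcongr

theorem sum_two (K : ℕ) : ∑ j ∈ Icc 1 K, 2 * j = K * (K + 1) := by
  induction K with
  | zero => simp
  | succ K ih => rw [sum_Icc_succ_top (by omega), ih]; ring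

/-- the common factor -/
noncomputable def EE (C : ℝ) (s K Z : ℕ) : ℝ :=
  C * (1 + Real.log ((s * Z ^ K : ℕ) : ℝ)) * (3 * (s : ℝ) ^ 2 + 7 * K * 48 ^ K)

theorem log_nn (A : ℕ) : 1 ≤ 1 + Real.log (A : ℝ) := by
  have := Real.log_natCast_nonneg A
  linarith

theorem le_EE {C : ℝ} (hC : 1 ≤ C) (s K Z : ℕ) : 3 * (s : ℝ) ^ 2 ≤ EE C s K Z := by
  have h := log_nn (s * Z ^ K)
  calc 3 * (s : ℝ) ^ 2 = 1 * 1 * (3 * (s : ℝ) ^ 2 + 0) := by ring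
    _ ≤ _ := by unfold EE; gcongr; positivity

theorem prod_ws {C : ℝ} (hC : 1 ≤ C) (hW : ∀ (α : ℝ) (A : ℕ), 1 ≤ A → Ws α A ≤ 3 * (A : ℝ) ^ 2 ∧
      (α ≠ 0 → Ws α A ≤ C * (A * |α| + 1) * (A + (1 + Real.log A) / |α|)))
    {k r K s Z : ℕ} {u n M : ℝ} (hs : 1 ≤ s) (hZ : 1 ≤ Z) (h1 : (Z : ℝ) ^ 4 ≤ M)
    (h2 : M ≤ 16 * (Z : ℝ) ^ 4) (hn : M ≤ n) (hn' : n ≤ 3 * M) (hu : M ^ k ≤ |u|)
    (hu' : |u| ≤ M ^ (k + 1)) (hr : 3 * r ≤ k) (hK : 2 * k ≤ K) :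
    (∏ j ∈ Icc 1 K, Ws (al u n j) (s * Z ^ j)) * (Z : ℝ) ^ (4 * r * (k - 3 * r)) ≤
      EE C s K Z ^ K * (Z : ℝ) ^ (K * (K + 1)) := by
  have hZ' : (1 : ℝ) ≤ Z := by exact_mod_cast hZ
  have hs' : (1 : ℝ) ≤ s := by exact_mod_cast hs
  have hsub : Icc (k + 1 + r) (2 * k - 2 * r) ⊆ Icc 1 K := Icc_subset_Icc (by omega) (by omega)
  have e1 : (Z : ℝ) ^ (4 * r * (k - 3 * r)) =
      ∏ j ∈ Icc 1 K, if j ∈ Icc (k + 1 + r) (2 * k - 2 * r) then (Z : ℝ) ^ (4 * r) else 1 := by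
    rw [prod_ite_mem, inter_eq_right.2 hsub, prod_const, Nat.card_Icc, ← pow_mul]
    congr 2
    omega
  have e2 : EE C s K Z ^ K * (Z : ℝ) ^ (K * (K + 1)) =
      ∏ j ∈ Icc 1 K, EE C s K Z * ((Z : ℝ) ^ j) ^ 2 := by
    rw [prod_mul_distrib, prod_const, Nat.card_Icc, Nat.add_sub_cancel, ← sum_two,
      ← prod_pow_eq_pow_sum]
    congr 1
    exact prod_congr rfl fun j _ => by rw [← pow_mul, mul_comm]
  rw [e1, e2, ← prod_mul_distrib]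
  refine prod_le_prod (fun j _ => mul_nonneg (sum_nonneg fun m _ => mn_nonneg (by positivity) _)
    (by split_ifs <;> positivity)) fun j hj => ?_
  have hA : 1 ≤ s * Z ^ j := Nat.mul_pos hs (pow_pos hZ j)
  obtain ⟨w1, w2⟩ := hW (al u n j) _ hA
  split_ifs with hg
  · obtain ⟨g1, g2⟩ := mem_Icc.1 hg
    obtain ⟨d, rfl⟩ : ∃ d, j = k + d := ⟨j - k, by omega⟩
    obtain ⟨a0, a1, a2⟩ := good_al (r := r) (d := d) (K := K) hZ' h1 h2 hn hn' hu hu' (by omega)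
      (by omega) (mem_Icc.1 hj).2
    have hl : 1 + Real.log ((s * Z ^ (k + d) : ℕ) : ℝ) ≤ 1 + Real.log ((s * Z ^ K : ℕ) : ℝ) := by
      have : s * Z ^ (k + d) ≤ s * Z ^ K :=
        Nat.mul_le_mul_left s (Nat.pow_le_pow_right hZ (mem_Icc.1 hj).2)
      gcongr
    have := good_abs (C := C) (by linarith) hs' (by positivity) a0 (by positivity) (log_nn _) hl a1
      (pow_le_pow_right₀ hZ' (by omega : 4 * r ≤ k + d)) a2
    refine (mul_le_mul_of_nonneg_right (w2 (abs_pos.1 a0)) (by positivity)).trans ?_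
    unfold EE
    push_cast at this ⊢
    exact this
  · rw [mul_one]
    refine w1.trans ?_
    push_cast
    rw [mul_pow, ← mul_assoc]
    exact mul_le_mul_of_nonneg_right (le_EE hC s K Z) (by positivity)

theorem eta {K : ℕ} (hK : 1 ≤ K) : (1 - 1 / (K : ℝ)) ^ (6 * K) ≤ 1 / 64 := by
  have hK' : (1 : ℝ) ≤ K := by exact_mod_cast hK
  have h0 : 0 ≤ 1 - 1 / (K : ℝ) := by rw [sub_nonneg, div_le_one (by linarith)]; exact hK'
  have h1 : (1 - 1 / (K : ℝ)) ^ K ≤ Real.exp (-1) := by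
    calc (1 - 1 / (K : ℝ)) ^ K ≤ Real.exp (-(1 / K)) ^ K :=
          pow_le_pow_left₀ h0 (by linarith [Real.add_one_le_exp (-(1 / (K : ℝ)))]) K
      _ = _ := by rw [← Real.exp_nat_mul]; congr 1; field_simp
  have h2 : Real.exp (-1) ≤ 1 / 2 := by
    rw [Real.exp_neg, ← one_div]
    exact one_div_le_one_div_of_le (by norm_num) (by linarith [Real.add_one_le_exp (1 : ℝ)])
  rw [mul_comm, pow_mul]
  exact (pow_le_pow_left₀ (pow_nonneg h0 K) (h1.trans h2) 6).trans (by norm_num)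

theorem root {C0 C1 T J W : ℝ} {k Z : ℕ} (hC0 : 1 ≤ C0) (hk : 10 ≤ k) (hZ : 1 ≤ Z) (hJ0 : 0 ≤ J)
    (K τ : ℕ) (hK : K = 2 * k + 3) (hτ : τ = 6 * K + 1)
    (hT : T ^ (2 * (K * τ) ^ 2) ≤ (Z : ℝ) ^ (4 * (K * τ) * (K * τ - 1)) * J ^ 2 * W)
    (hJ : J ≤ Real.exp (C1 * (K : ℝ) ^ 3 * (τ : ℝ) ^ 2) * (Z : ℝ) ^ (2 * (K : ℝ) * τ -
      (K : ℝ) * (K + 1) / 2 + (K : ℝ) * (K + 1) / 2 * (1 - 1 / (K : ℝ)) ^ (τ - 1)))
    (hW : W * (Z : ℝ) ^ (4 * (k / 6) * (k - 3 * (k / 6))) ≤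
      EE C0 (K * τ) K Z ^ K * (Z : ℝ) ^ (K * (K + 1))) :
    T ≤ Real.exp (C1 * K) * EE C0 (K * τ) K Z * (Z : ℝ) ^ (2 - 1 / 16384 / (k : ℝ) ^ 2) := by
  have hZ' : (1 : ℝ) ≤ Z := by exact_mod_cast hZ
  have hZ0 : (0 : ℝ) < Z := by linarith
  have hk' : (10 : ℝ) ≤ k := by exact_mod_cast hk
  have hs : 1 ≤ K * τ := Nat.mul_pos (by omega) (by omega)
  have hs' : (1 : ℝ) ≤ ((K * τ : ℕ) : ℝ) := by exact_mod_cast hs
  have hE : 1 ≤ EE C0 (K * τ) K Z := le_trans (by nlinarith) (le_EE hC0 _ K Z)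
  have hη := eta (K := K) (by omega)
  rw [show τ - 1 = 6 * K by omega] at hJ
  set η := (1 - 1 / (K : ℝ)) ^ (6 * K)
  set E := EE C0 (K * τ) K Z
  set g := 4 * (k / 6) * (k - 3 * (k / 6)) with hg
  have hg4 : k ^ 2 ≤ 4 * g := by
    obtain ⟨r, hr⟩ : ∃ r, r = k / 6 := ⟨_, rfl⟩
    obtain ⟨i, hi, hi'⟩ : ∃ i, k = 6 * r + i ∧ i ≤ 5 := ⟨k % 6, by omega, by omega⟩
    have h1 : 1 ≤ r := by omega
    rw [hg, ← hr, show k - 3 * r = 3 * r + i by omega, hi]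
    nlinarith
  have hg' : (k : ℝ) ^ 2 ≤ 4 * g := by exact_mod_cast hg4
  have hKr : (K : ℝ) = 2 * k + 3 := by rw [hK]; push_cast; ring
  have hτr : (τ : ℝ) = 6 * K + 1 := by rw [hτ]; push_cast; ring
  have hW' : W ≤ E ^ (2 * (K * τ) ^ 2) * (Z : ℝ) ^ ((K : ℝ) * (K + 1) - g) := by
    rw [Real.rpow_sub hZ0, ← mul_div_assoc, le_div_iff₀ (by positivity), Real.rpow_natCast]
    refine hW.trans (mul_le_mul (pow_le_pow_right₀ hE (by nlinarith)) (le_of_eq ?_)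
      (by positivity) (by positivity))
    rw [← Real.rpow_natCast]; push_cast; rfl
  refine le_of_pow_le_pow_left₀ (n := 2 * (K * τ) ^ 2) (by positivity) (by positivity)
    (hT.trans ?_)
  have hexp : ((4 * (K * τ) * (K * τ - 1) : ℕ) : ℝ) + (2 * (K : ℝ) * τ - (K : ℝ) * (K + 1) / 2 +
      (K : ℝ) * (K + 1) / 2 * η) * (2 : ℕ) + ((K : ℝ) * (K + 1) - g) ≤
      (2 - 1 / 16384 / (k : ℝ) ^ 2) * ((2 * (K * τ) ^ 2 : ℕ) : ℝ) := by
    have a1 : (K : ℝ) * (K + 1) * η ≤ (k : ℝ) ^ 2 / 8 := by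
      have : (K : ℝ) * (K + 1) ≤ 8 * (k : ℝ) ^ 2 := by rw [hKr]; nlinarith
      calc (K : ℝ) * (K + 1) * η ≤ (K : ℝ) * (K + 1) * (1 / 64) := by gcongr
        _ ≤ _ := by linarith
    have a2 : (K : ℝ) * τ ≤ 32 * (k : ℝ) ^ 2 := by rw [hτr, hKr]; nlinarith
    have a3 : 1 / 16384 / (k : ℝ) ^ 2 * (2 * ((K : ℝ) * τ) ^ 2) ≤ (k : ℝ) ^ 2 / 8 := by
      have : ((K : ℝ) * τ) ^ 2 ≤ (32 * (k : ℝ) ^ 2) ^ 2 := by gcongr
      rw [div_mul_eq_mul_div, div_le_iff₀ (by positivity)]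
      nlinarith
    rw [Nat.cast_mul, Nat.cast_pred hs]
    push_cast
    nlinarith
  calc (Z : ℝ) ^ (4 * (K * τ) * (K * τ - 1)) * J ^ 2 * W
      ≤ (Z : ℝ) ^ (4 * (K * τ) * (K * τ - 1)) * (Real.exp (C1 * (K : ℝ) ^ 3 * (τ : ℝ) ^ 2) *
          (Z : ℝ) ^ (2 * (K : ℝ) * τ - (K : ℝ) * (K + 1) / 2 + (K : ℝ) * (K + 1) / 2 * η)) ^ 2 *
          (E ^ (2 * (K * τ) ^ 2) * (Z : ℝ) ^ ((K : ℝ) * (K + 1) - g)) := by
        by_cases hW0 : 0 ≤ W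
        · gcongr
        · exact (mul_nonpos_of_nonneg_of_nonpos (by positivity) (by linarith)).trans (by positivity)
    _ = Real.exp (C1 * K) ^ (2 * (K * τ) ^ 2) * E ^ (2 * (K * τ) ^ 2) *
          (Z : ℝ) ^ (((4 * (K * τ) * (K * τ - 1) : ℕ) : ℝ) + (2 * (K : ℝ) * τ -
            (K : ℝ) * (K + 1) / 2 + (K : ℝ) * (K + 1) / 2 * η) * (2 : ℕ) +
            ((K : ℝ) * (K + 1) - g)) := by
        have : Real.exp (C1 * K) ^ (2 * (K * τ) ^ 2) =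
            Real.exp (C1 * (K : ℝ) ^ 3 * (τ : ℝ) ^ 2) ^ 2 := by
          rw [← Real.exp_nat_mul, ← Real.exp_nat_mul]; congr 1; push_cast; ring
        rw [this, Real.rpow_add hZ0 _ (_ - (g : ℝ)), Real.rpow_add hZ0 (Nat.cast _),
          Real.rpow_natCast, Real.rpow_mul_natCast hZ0.le]
        ring
    _ ≤ _ := by
        rw [mul_pow (_ * E), mul_pow _ E, ← Real.rpow_mul_natCast hZ0.le]
        exact mul_le_mul_of_nonneg_left (Real.rpow_le_rpow_of_exponent_le hZ' hexp) (by positivity)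

theorem EE_le {C M : ℝ} (hC : 1 ≤ C) {k K s Z : ℕ} (hk : 10 ≤ k) (hs : 1 ≤ s) (hK : K ≤ s)
    (hsk : s ≤ 32 * k ^ 2) (hZ : 1 ≤ Z) (hM : (Z : ℝ) ≤ M) :
    EE C s K Z ≤ Real.exp ((C + 2) * (k : ℝ) ^ 5) * (1 + Real.log M) := by
  have hZ' : (1 : ℝ) ≤ Z := by exact_mod_cast hZ
  have hs' : (1 : ℝ) ≤ s := by exact_mod_cast hs
  have hK' : (K : ℝ) ≤ s := by exact_mod_cast hK
  have hk' : (10 : ℝ) ≤ k := by exact_mod_cast hk
  have hsk' : (s : ℝ) ≤ 32 * (k : ℝ) ^ 2 := by exact_mod_cast hsk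
  have hlM : 0 ≤ Real.log M := Real.log_nonneg (by linarith)
  have a1 : 1 + Real.log ((s * Z ^ K : ℕ) : ℝ) ≤ s * (1 + Real.log M) := by
    push_cast
    rw [Real.log_mul (by positivity) (by positivity), Real.log_pow]
    have b1 := Real.log_le_sub_one_of_pos (show (0 : ℝ) < s by positivity)
    have b2 : (K : ℝ) * Real.log Z ≤ s * Real.log M :=
      mul_le_mul hK' (Real.log_le_log (by positivity) hM) (Real.log_nonneg hZ') (by positivity)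
    linarith
  have x1 : ∀ x : ℝ, x ≤ Real.exp x := fun x => by linarith [Real.add_one_le_exp x]
  have a2 : (48 : ℝ) ^ K ≤ Real.exp s ^ 48 := by
    calc (48 : ℝ) ^ K ≤ Real.exp 48 ^ K := pow_le_pow_left₀ (by norm_num) (x1 48) K
      _ ≤ Real.exp 48 ^ s := pow_le_pow_right₀ (Real.one_le_exp (by norm_num)) hK
      _ = _ := by rw [← Real.exp_nat_mul, ← Real.exp_nat_mul]; congr 1; push_cast; ring
  have y1 : 1 ≤ Real.exp s := Real.one_le_exp (by positivity)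
  have a3 : (s : ℝ) * (3 * (s : ℝ) ^ 2 + 7 * K * 48 ^ K) ≤ Real.exp (2 * (k : ℝ) ^ 5) := by
    have c1 := x1 s
    have c2 : (10 : ℝ) ≤ Real.exp s ^ 10 := by
      rw [← Real.exp_nat_mul]
      exact le_trans (by push_cast; linarith) (x1 _)
    calc (s : ℝ) * (3 * (s : ℝ) ^ 2 + 7 * K * 48 ^ K)
        ≤ Real.exp s * (3 * Real.exp s ^ 49 + 7 * Real.exp s * Real.exp s ^ 48) := by
          have : (s : ℝ) ^ 2 ≤ Real.exp s ^ 49 :=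
            (pow_le_pow_left₀ (by positivity) c1 2).trans (pow_le_pow_right₀ y1 (by norm_num))
          have := hK'.trans c1
          gcongr
      _ = 10 * Real.exp s ^ 50 := by ring
      _ ≤ Real.exp s ^ 10 * Real.exp s ^ 50 := by gcongr
      _ = Real.exp (60 * s) := by rw [← pow_add, ← Real.exp_nat_mul]; norm_num
      _ ≤ _ := by
          refine Real.exp_le_exp.2 ?_
          have : (1000 : ℝ) ≤ (k : ℝ) ^ 3 := le_trans (by norm_num) (pow_le_pow_left₀ (by norm_num) hk' 3)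
          nlinarith [sq_nonneg (k : ℝ)]
  have a4 : C ≤ Real.exp (C * (k : ℝ) ^ 5) :=
    (x1 C).trans (Real.exp_le_exp.2 (le_mul_of_one_le_right (by linarith) (one_le_pow₀ (by linarith))))
  calc EE C s K Z ≤ C * (s * (1 + Real.log M)) * (3 * (s : ℝ) ^ 2 + 7 * K * 48 ^ K) := by
        unfold EE; gcongr
    _ = C * (s * (3 * (s : ℝ) ^ 2 + 7 * K * 48 ^ K)) * (1 + Real.log M) := by ring
    _ ≤ Real.exp (C * (k : ℝ) ^ 5) * Real.exp (2 * (k : ℝ) ^ 5) * (1 + Real.log M) := by gcongr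
    _ = _ := by rw [← Real.exp_add]; congr 2; ring

theorem reduce {k M N Z : ℕ} {u β B : ℝ} (hM : 4 ≤ M) (hN : M ≤ N) (hN' : N ≤ 2 * M) (hβ : 0 ≤ β)
    (hβ' : β ≤ 1) (hu' : |u| ≤ (M : ℝ) ^ (k + 1)) (hZ : 1 ≤ Z) (h1 : (Z : ℝ) ^ 4 ≤ M) (hB : 0 ≤ B)
    (h : ∀ n : ℝ, M ≤ n → n ≤ 3 * M → ‖∑ x ∈ Icc 1 Z, ∑ y ∈ Icc 1 Z,
      e (∑ j ∈ Icc 1 (2 * k + 3), al u n j * (x : ℝ) ^ j * (y : ℝ) ^ j)‖ ≤ B * (Z : ℝ) ^ 2) :
    ‖∑ m ∈ Ioc M N, nit u (m + β)‖ ≤ M * B + 4 * (Z : ℝ) ^ 2 := by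
  have hZ' : (1 : ℝ) ≤ Z := by exact_mod_cast hZ
  have hM' : (4 : ℝ) ≤ M := by exact_mod_cast hM
  have hxy : ∀ x ∈ Icc 1 Z, ∀ y ∈ Icc 1 Z, (x : ℝ) * y ≤ (Z : ℝ) ^ 2 := fun x hx y hy => by
    have a : (x : ℝ) ≤ Z := by exact_mod_cast (mem_Icc.1 hx).2
    have b : (y : ℝ) ≤ Z := by exact_mod_cast (mem_Icc.1 hy).2
    rw [sq]; gcongr
  have cst : ∀ c : ℝ, ∑ _x ∈ Icc 1 Z, ∑ _y ∈ Icc 1 Z, c = c * (Z : ℝ) ^ 2 := fun c => by
    simp; ring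
  have inner : ∀ m ∈ Ioc M N, ‖∑ x ∈ Icc 1 Z, ∑ y ∈ Icc 1 Z, nit u (((m + x * y : ℕ) : ℝ) + β)‖ ≤
      (B + 2 / M) * (Z : ℝ) ^ 2 := by
    intro m hm
    have m1 : (M : ℝ) ≤ m := by exact_mod_cast (mem_Ioc.1 hm).1.le
    have m2 : (m : ℝ) ≤ 2 * M := by exact_mod_cast (mem_Ioc.1 hm).2.trans hN'
    have t := h (m + β) (by linarith) (by linarith)
    have d : ‖∑ x ∈ Icc 1 Z, ∑ y ∈ Icc 1 Z, nit u (((m + x * y : ℕ) : ℝ) + β) -
        nit u (m + β) * ∑ x ∈ Icc 1 Z, ∑ y ∈ Icc 1 Z,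
          e (∑ j ∈ Icc 1 (2 * k + 3), al u (m + β) j * (x : ℝ) ^ j * (y : ℝ) ^ j)‖ ≤
        2 / M * (Z : ℝ) ^ 2 := by
      rw [mul_sum, ← sum_sub_distrib, ← cst]
      refine norm_sum_le_of_le _ fun x hx => ?_
      rw [mul_sum, ← sum_sub_distrib]
      refine norm_sum_le_of_le _ fun y hy => ?_
      have w1 : ((x : ℝ) * y / (m + β)) ^ 2 ≤ 1 / M := by
        calc ((x : ℝ) * y / (m + β)) ^ 2 ≤ ((Z : ℝ) ^ 2 / M) ^ 2 := by
              have := hxy x hx y hy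
              gcongr; linarith
          _ = (Z : ℝ) ^ 4 / M ^ 2 := by ring
          _ ≤ M / M ^ 2 := by gcongr
          _ = _ := by field_simp
      have w2 : (x : ℝ) * y / (m + β) ≤ 1 / 2 := by
        refine le_of_pow_le_pow_left₀ two_ne_zero (by norm_num) (w1.trans ?_)
        rw [div_le_iff₀ (by linarith)]; linarith
      have e1 : ((m + x * y : ℕ) : ℝ) + β = m + β + x * y := by push_cast; ring
      rw [e1]
      refine (taylor u (by linarith) (by positivity) (by positivity) w2 _).trans ?_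
      calc 2 * |u| * ((x : ℝ) * y / (m + β)) ^ (2 * k + 3 + 1)
          = 2 * |u| * (((x : ℝ) * y / (m + β)) ^ 2) ^ (k + 2) := by rw [← pow_mul]; rfl
        _ ≤ 2 * (M : ℝ) ^ (k + 1) * (1 / M) ^ (k + 2) := by gcongr
        _ = _ := by rw [one_div_pow]; field_simp; ring
    have := norm_le_norm_add_norm_sub' (∑ x ∈ Icc 1 Z, ∑ y ∈ Icc 1 Z,
      nit u (((m + x * y : ℕ) : ℝ) + β)) (nit u (m + β) * ∑ x ∈ Icc 1 Z, ∑ y ∈ Icc 1 Z,
        e (∑ j ∈ Icc 1 (2 * k + 3), al u (m + β) j * (x : ℝ) ^ j * (y : ℝ) ^ j))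
    rw [norm_mul, norm_nit, one_mul] at this
    linarith
  set S := ∑ m ∈ Ioc M N, nit u (m + β) with hS
  have d : ‖(∑ _x ∈ Icc 1 Z, ∑ _y ∈ Icc 1 Z, S) -
      ∑ x ∈ Icc 1 Z, ∑ y ∈ Icc 1 Z, ∑ m ∈ Ioc M N, nit u (((m + x * y : ℕ) : ℝ) + β)‖ ≤
      2 * (Z : ℝ) ^ 2 * (Z : ℝ) ^ 2 := by
    rw [← sum_sub_distrib, ← cst]
    refine norm_sum_le_of_le _ fun x hx => ?_
    rw [← sum_sub_distrib]
    refine norm_sum_le_of_le _ fun y hy => ?_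
    refine (shift (g := fun m => nit u (m + β)) (fun m => (norm_nit _ _).le) hN (x * y)).trans ?_
    have := hxy x hx y hy
    push_cast
    linarith
  have t : ‖∑ x ∈ Icc 1 Z, ∑ y ∈ Icc 1 Z, ∑ m ∈ Ioc M N, nit u (((m + x * y : ℕ) : ℝ) + β)‖ ≤
      M * ((B + 2 / M) * (Z : ℝ) ^ 2) := by
    rw [sum_congr rfl fun x _ => sum_comm, sum_comm]
    refine (norm_sum_le_of_le _ inner).trans ?_
    rw [sum_const, Nat.card_Ioc, nsmul_eq_mul]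
    have : ((N - M : ℕ) : ℝ) ≤ M := by exact_mod_cast (by omega : N - M ≤ M)
    gcongr
  have e : ‖∑ _x ∈ Icc 1 Z, ∑ _y ∈ Icc 1 Z, S‖ = ‖S‖ * (Z : ℝ) ^ 2 := by
    simp; ring
  have f := norm_le_norm_add_norm_sub' (∑ _x ∈ Icc 1 Z, ∑ _y ∈ Icc 1 Z, S)
    (∑ x ∈ Icc 1 Z, ∑ y ∈ Icc 1 Z, ∑ m ∈ Ioc M N, nit u (((m + x * y : ℕ) : ℝ) + β))
  have e2 : (M : ℝ) * ((B + 2 / M) * (Z : ℝ) ^ 2) = (M * B + 2) * (Z : ℝ) ^ 2 := by field_simp
  have hZ2 : (1 : ℝ) ≤ (Z : ℝ) ^ 2 := one_le_pow₀ hZ'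
  refine le_of_mul_le_mul_right ?_ (show (0 : ℝ) < (Z : ℝ) ^ 2 by positivity)
  nlinarith

end ExpP

open ExpP in
theorem pExp (h1 : S_VMVT) (h2 : S_Kor) (h3 : S_Ws) : S_Exp := by
  obtain ⟨C1, hC1, hV⟩ := h1
  obtain ⟨C0, hC0, hW⟩ := h3
  refine ⟨1 / 65536, C0 + C1 + 3, by norm_num, by linarith,
    fun k M N u β hk hM hN hN' hβ hβ' hu hu' => ?_⟩
  have hk' : (10 : ℝ) ≤ k := by exact_mod_cast hk
  have hM' : (1 : ℝ) ≤ M := by exact_mod_cast hM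
  have hM0 : (0 : ℝ) < M := by linarith
  have hk5 : (100000 : ℝ) ≤ (k : ℝ) ^ 5 :=
    le_trans (by norm_num) (pow_le_pow_left₀ (by norm_num) hk' 5)
  have hε : 1 / 65536 / (k : ℝ) ^ 2 ≤ 1 / 2 := by
    rw [div_le_iff₀ (by positivity)]; nlinarith
  have hε0 : 0 ≤ 1 / 65536 / (k : ℝ) ^ 2 := by positivity
  set ε := 1 / 65536 / (k : ℝ) ^ 2 with hεd
  have hl := log_nn M
  have h20 : (20 : ℝ) ≤ Real.exp ((k : ℝ) ^ 5) := by linarith [Real.add_one_le_exp ((k : ℝ) ^ 5)]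
  set X := Real.exp ((C0 + C1 + 2) * (k : ℝ) ^ 5) * (1 + Real.log M) with hX
  have hX1 : 1 ≤ X := one_le_mul_of_one_le_of_one_le (Real.one_le_exp (by positivity)) hl
  have hfin : 20 * X * (M : ℝ) ^ (1 - ε) ≤
      Real.exp ((C0 + C1 + 3) * (k : ℝ) ^ 5) * (1 + Real.log M) * (M : ℝ) ^ (1 - ε) := by
    refine mul_le_mul_of_nonneg_right ?_ (by positivity)
    rw [show (C0 + C1 + 3) * (k : ℝ) ^ 5 = (k : ℝ) ^ 5 + (C0 + C1 + 2) * (k : ℝ) ^ 5 by ring,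
      Real.exp_add, mul_assoc]
    exact mul_le_mul_of_nonneg_right h20 (by positivity)
  refine le_trans ?_ hfin
  have hone : 1 ≤ (M : ℝ) ^ (1 - ε) := Real.one_le_rpow hM' (by linarith)
  by_cases h4 : M < 4
  · refine (triv (fun m => (norm_nit _ _).le) M N).trans ?_
    have : ((N - M : ℕ) : ℝ) ≤ 3 := by exact_mod_cast (by omega : N - M ≤ 3)
    nlinarith
  obtain ⟨Z, hZ, z1, z2⟩ := exZ hM
  have hZ' : (1 : ℝ) ≤ Z := by exact_mod_cast hZ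
  have hZ0 : (0 : ℝ) < Z := by linarith
  have z1' : (Z : ℝ) ^ 4 ≤ M := by exact_mod_cast z1
  have z2' : (M : ℝ) ≤ 16 * (Z : ℝ) ^ 4 := by exact_mod_cast z2
  have hs : 1 ≤ (2 * k + 3) * (6 * (2 * k + 3) + 1) := Nat.mul_pos (by omega) (by omega)
  have hE := EE_le (M := M) hC0 hk hs (K := 2 * k + 3) (by nlinarith) (by nlinarith) hZ
    ((le_self_pow₀ hZ' (by norm_num)).trans z1')
  have hE0 : 0 ≤ EE C0 ((2 * k + 3) * (6 * (2 * k + 3) + 1)) (2 * k + 3) Z :=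
    le_trans (by positivity) (le_EE hC0 _ _ Z)
  have hD : Real.exp (C1 * ((2 * k + 3 : ℕ) : ℝ)) ≤ Real.exp (C1 * (k : ℝ) ^ 5) := by
    refine Real.exp_le_exp.2 (mul_le_mul_of_nonneg_left ?_ hC1.le)
    have : (10000 : ℝ) ≤ (k : ℝ) ^ 4 :=
      le_trans (by norm_num) (pow_le_pow_left₀ (by norm_num) hk' 4)
    push_cast
    nlinarith
  have hZε : (Z : ℝ) ^ (-(4 * ε)) ≤ 16 * (M : ℝ) ^ (-ε) := by
    have a : (Z : ℝ) ^ (-(4 * ε)) = (16 : ℝ) ^ ε * (16 * (Z : ℝ) ^ 4) ^ (-ε) := by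
      rw [Real.mul_rpow (by norm_num) (by positivity), ← mul_assoc, ← Real.rpow_add (by norm_num),
        add_neg_cancel, Real.rpow_zero, one_mul, ← Real.rpow_natCast, ← Real.rpow_mul hZ0.le]
      congr 1; push_cast; ring
    rw [a]
    refine mul_le_mul ?_ (Real.rpow_le_rpow_of_nonpos hM0 z2' (by linarith)) (by positivity)
      (by norm_num)
    exact (Real.rpow_le_rpow_of_exponent_le (by norm_num) (by linarith : ε ≤ 1)).trans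
      (by rw [Real.rpow_one])
  have key := reduce (B := 16 * X * (M : ℝ) ^ (-ε)) (by omega) hN hN' hβ hβ' hu' hZ z1'
    (by positivity) fun n hn hn' => by
      refine (root hC0 hk hZ (by positivity) _ _ rfl rfl (h2 _ _ Z (al u n) hs hZ)
        (hV _ _ Z (by omega) (by omega) hZ)
        (prod_ws hC0 hW hs hZ z1' z2' hn hn' hu hu' (by omega) (by omega))).trans ?_
      have a : (Z : ℝ) ^ (2 - 1 / 16384 / (k : ℝ) ^ 2) = (Z : ℝ) ^ (-(4 * ε)) * (Z : ℝ) ^ 2 := by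
        rw [← Real.rpow_natCast (Z : ℝ) 2, ← Real.rpow_add hZ0, hεd]
        congr 1; push_cast; ring
      rw [a]
      calc _ ≤ Real.exp (C1 * (k : ℝ) ^ 5) * (Real.exp ((C0 + 2) * (k : ℝ) ^ 5) *
            (1 + Real.log M)) * (16 * (M : ℝ) ^ (-ε) * (Z : ℝ) ^ 2) := by gcongr
        _ = _ := by
            rw [hX, show (C0 + C1 + 2) * (k : ℝ) ^ 5 =
              C1 * (k : ℝ) ^ 5 + (C0 + 2) * (k : ℝ) ^ 5 by ring, Real.exp_add]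
            ring
  have e1 : (M : ℝ) * (M : ℝ) ^ (-ε) = (M : ℝ) ^ (1 - ε) := by
    rw [sub_eq_add_neg, Real.rpow_add hM0, Real.rpow_one]
  have e2 : (Z : ℝ) ^ 2 ≤ (M : ℝ) ^ (1 - ε) := by
    refine le_of_pow_le_pow_left₀ two_ne_zero (by positivity) ?_
    rw [← pow_mul, ← Real.rpow_mul_natCast hM0.le]
    refine z1'.trans ?_
    exact Real.self_le_rpow_of_one_le hM' (by push_cast; linarith)
  refine key.trans ?_
  calc (M : ℝ) * (16 * X * (M : ℝ) ^ (-ε)) + 4 * (Z : ℝ) ^ 2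
      = 16 * X * (M : ℝ) ^ (1 - ε) + 4 * (Z : ℝ) ^ 2 := by rw [← e1]; ring
    _ ≤ _ := by nlinarith

end Pool.Agent.P.MP_746f10_nt.AP
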