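import Pool.Agent.P.MP_746f10_nt.AP.Base
import Pool.Agent.P.MP_746f10_nt.LSadd

/-! Few prime moduli carry a character with a large short prime sum. -/

namespace Pool.Agent.P.MP_746f10_nt.AP

open Finset ComplexConjugate
open Pool.Agent.P.MP_a14ce1_nt
open Pool.Agent.P.MP_a14ce1_nt.Ch (nit norm_nit nit_add nit_mul)

namespace HMP

lemma sum_zmod {M : ℕ} [NeZero M] (H : ZMod M → ℂ) (s : ℕ) :
    ∑ i ∈ range M, H ((s + i : ℕ) : ZMod M) = ∑ x, H x := by
  rw [← Equiv.sum_comp (Equiv.addLeft (s : ZMod M)) H]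
  refine sum_nbij' (fun i => (i : ZMod M)) ZMod.val (by simp) (fun x _ => mem_range.2 (ZMod.val_lt x))
    (fun i hi => ZMod.val_cast_of_lt (mem_range.1 hi)) (fun x _ => ZMod.natCast_zmod_val x)
    fun i _ => by simp

lemma period {a a' : ℕ} [NeZero a] [NeZero a'] (h : a.Coprime a') (F : ZMod a → ℂ)
    (G : ZMod a' → ℂ) (hF : ∑ x, F x = 0) (s : ℕ) :
    ∑ i ∈ range (a * a'), F ((s + i : ℕ) : ZMod a) * G ((s + i : ℕ) : ZMod a') = 0 := by
  have : NeZero (a * a') := ⟨mul_ne_zero (NeZero.ne a) (NeZero.ne a')⟩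
  have h1 := sum_zmod (fun x => F (ZMod.chineseRemainder h x).1 * G (ZMod.chineseRemainder h x).2) s
  simp only [map_natCast, Prod.fst_natCast, Prod.snd_natCast] at h1
  refine h1.trans ((Equiv.sum_comp (ZMod.chineseRemainder h).toEquiv
    fun y => F y.1 * G y.2).trans ?_)
  rw [Fintype.sum_prod_type]
  simp only [← mul_sum, ← sum_mul, hF, zero_mul]

lemma part {ψ : ℕ → ℂ} {M : ℕ} (hM : 0 < M) (h1 : ∀ n, ‖ψ n‖ ≤ 1)
    (h0 : ∀ s, ∑ i ∈ range M, ψ (s + i) = 0) (L s : ℕ) : ‖∑ i ∈ range L, ψ (s + i)‖ ≤ M := by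
  induction L using Nat.strong_induction_on generalizing s with
  | _ L ih =>
  rcases le_or_gt L M with h | h
  · refine (norm_sum_le _ _).trans ((sum_le_card_nsmul _ _ 1 fun i _ => h1 _).trans ?_)
    simpa using h
  · obtain ⟨L', rfl⟩ := Nat.exists_eq_add_of_le h.le
    rw [sum_range_add, h0, zero_add]
    simpa only [add_assoc] using ih L' (by omega) (s + M)

lemma abel {ψ g : ℕ → ℂ} {M : ℝ} (h : ∀ L, ‖∑ i ∈ range L, ψ i‖ ≤ M) (hg : ∀ n, ‖g n‖ ≤ 1)
    (L : ℕ) : ‖∑ i ∈ range L, g i * ψ i‖ ≤ M * (1 + ∑ i ∈ range (L - 1), ‖g (i + 1) - g i‖) := by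
  have h0 : 0 ≤ M := (norm_nonneg _).trans (h 0)
  have h1 := sum_range_by_parts g ψ L
  simp only [smul_eq_mul] at h1
  rw [h1, mul_add, mul_one, mul_sum (range (L - 1))]
  refine (norm_sub_le _ _).trans (add_le_add ?_ ((norm_sum_le _ _).trans (sum_le_sum fun i _ => ?_)))
  · rw [norm_mul]
    exact (mul_le_of_le_one_left (norm_nonneg _) (hg _)).trans (h _)
  · rw [norm_mul, mul_comm]
    exact mul_le_mul_of_nonneg_right (h _) (norm_nonneg _)

lemma nit_sub (τ : ℝ) {y z : ℝ} (h : Real.log y ≤ Real.log z) :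
    ‖nit τ z - nit τ y‖ ≤ |τ| * (Real.log z - Real.log y) := by
  have e : nit τ z - nit τ y = nit τ y * (Ch.ex (-(τ * (Real.log z - Real.log y))) - 1) := by
    rw [mul_sub, mul_one, nit, nit, ← Ch.ex_add]
    congr 2
    ring
  rw [e, norm_mul, norm_nit, one_mul, Ch.ex, mul_comm]
  refine Real.norm_exp_I_mul_ofReal_sub_one_le.trans (le_of_eq ?_)
  rw [norm_neg, Real.norm_eq_abs, abs_mul, abs_of_nonneg (sub_nonneg.2 h)]

lemma off {a a' : ℕ} (ha : a.Prime) (ha' : a'.Prime) (hne : a ≠ a') {χ : DirichletCharacter ℂ a}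
    (hχ : χ ≠ 1) (χ' : DirichletCharacter ℂ a') (t t' : ℝ) {N0 N1 : ℕ} (h0 : 0 < N0) (h1 : N0 < N1) :
    ‖∑ n ∈ Ioc N0 N1, χ n * nit t n * conj (χ' n * nit t' n)‖ ≤
      (a * a' : ℕ) * (1 + |t - t'| * (Real.log N1 - Real.log N0)) := by
  have : NeZero a := ⟨ha.ne_zero⟩
  have : NeZero a' := ⟨ha'.ne_zero⟩
  obtain ⟨L, rfl⟩ := Nat.exists_eq_add_of_lt h1
  have e : ∑ n ∈ Ioc N0 (N0 + L + 1), χ n * nit t n * conj (χ' n * nit t' n) =
      ∑ i ∈ range (L + 1), nit (t - t') (N0 + 1 + i : ℕ) *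
        (χ (N0 + 1 + i : ℕ) * conj (χ' (N0 + 1 + i : ℕ))) := by
    rw [← Ico_add_one_add_one_eq_Ioc, sum_Ico_eq_sum_range,
      show N0 + L + 1 + 1 - (N0 + 1) = L + 1 by omega]
    refine sum_congr rfl fun i _ => ?_
    have : conj (nit t' (N0 + 1 + i : ℕ)) = nit (-t') (N0 + 1 + i : ℕ) := by
      rw [nit, nit, Ch.conj_ex]
      congr 1
      ring
    rw [map_mul, this, sub_eq_add_neg, nit_add]
    ring
  rw [e]
  refine (abel (ψ := fun i => χ (N0 + 1 + i : ℕ) * conj (χ' (N0 + 1 + i : ℕ)))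
    (fun L => part (ψ := fun n => χ n * conj (χ' n)) (mul_pos ha.pos ha'.pos) (fun n => ?_)
      (period ((Nat.coprime_primes ha ha').2 hne) χ (fun x => conj (χ' x))
        (MulChar.sum_eq_zero_of_ne_one hχ)) L (N0 + 1)) (fun n => (norm_nit _ _).le) _).trans ?_
  · rw [norm_mul, Complex.norm_conj]
    exact mul_le_one₀ (χ.norm_le_one _) (norm_nonneg _) (χ'.norm_le_one _)
  have h2 : (0 : ℝ) < N0 := by exact_mod_cast h0
  gcongr
  refine (sum_le_sum fun i _ => nit_sub (t - t') (Real.log_le_log (by positivity)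
    (by exact_mod_cast by omega))).trans ?_
  rw [← mul_sum, Nat.add_sub_cancel, sum_range_sub fun i => Real.log (N0 + 1 + i : ℕ),
    show N0 + 1 + L = N0 + L + 1 by omega]
  gcongr
  exact_mod_cast by omega

lemma card_fib {S : Finset ℕ} (hS : ∀ p ∈ S, p.Prime) (h n : ℕ) :
    ((Fintype.piFinset fun _ : Fin h => S).filter fun f => ∏ i, f i = n).card ≤ h ^ h := by
  rcases ((Fintype.piFinset fun _ : Fin h => S).filter fun f => ∏ i, f i = n).eq_empty_or_nonempty
    with h0 | ⟨f0, h0⟩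
  · simp [h0]
  obtain ⟨h1, h2⟩ := mem_filter.1 h0
  refine (card_le_card (t := Fintype.piFinset fun _ : Fin h => univ.image f0) fun f hf => ?_).trans ?_
  · obtain ⟨h3, h4⟩ := mem_filter.1 hf
    refine Fintype.mem_piFinset.2 fun i => ?_
    have h5 := hS _ (Fintype.mem_piFinset.1 h3 i)
    obtain ⟨j, -, hj⟩ := (Prime.dvd_finsetProd_iff h5.prime f0).1
      (h2.trans h4.symm ▸ dvd_prod_of_mem f (mem_univ i))
    exact mem_image.2 ⟨j, mem_univ j,
      ((Nat.prime_dvd_prime_iff_eq h5 (hS _ (Fintype.mem_piFinset.1 h1 j))).1 hj).symm⟩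
  · rw [Fintype.card_piFinset_const]
    exact Nat.pow_le_pow_left (card_image_le.trans (by simp)) _

lemma nit_prod {ι : Type} (s : Finset ι) (f : ι → ℕ) (hf : ∀ i, f i ≠ 0) (t : ℝ) :
    nit t (∏ i ∈ s, f i : ℕ) = ∏ i ∈ s, nit t (f i) := by
  classical
  induction s using Finset.induction_on with
  | empty => simp [nit, Ch.ex]
  | insert i s hi ih =>
    rw [prod_insert hi, prod_insert hi, Nat.cast_mul, nit_mul _ (Nat.cast_ne_zero.2 (hf i))
      (Nat.cast_ne_zero.2 (prod_ne_zero_iff.2 fun j _ => hf j)), ih]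

end HMP

open HMP in
theorem pHM : S_HM := by
  intro Q P hh T V c E χ t h1 hP hV hT hc hE hB
  have hP0 : (0 : ℝ) < P := by exact_mod_cast hP
  set S := PP P (2 * P) with hS
  set W := Fintype.piFinset fun _ : Fin hh => S with hW
  have hlt : P ^ hh < (2 * P) ^ hh := Nat.pow_lt_pow_left (by omega) (by omega)
  have hmap : ∀ f ∈ W, ∏ i, f i ∈ Ioc (P ^ hh) ((2 * P) ^ hh) := fun f hf => by
    have h2 := fun i => mem_PP.1 (Fintype.mem_piFinset.1 hf i)
    have : Nonempty (Fin hh) := ⟨⟨0, h1⟩⟩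
    refine mem_Ioc.2 ⟨?_, ?_⟩
    · simpa using prod_lt_prod_of_nonempty (s := univ) (f := fun _ : Fin hh => P) (g := f)
        (fun _ _ => hP) (fun i _ => (h2 i).1) univ_nonempty
    · simpa using prod_le_prod' (s := univ) (f := f) (g := fun _ : Fin hh => 2 * P)
        fun i _ => (h2 i).2.1
  let b : ℕ → ℂ := fun n => ∑ f ∈ W.filter fun f => ∏ i, f i = n, ∏ i, c (f i) / (f i : ℂ)
  let r : ℕ → ℝ := fun n => ∑ f ∈ W.filter fun f => ∏ i, f i = n, ∏ i, 1 / (f i : ℝ)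
  have hexp : ∀ a, (∑ p ∈ S, χ a p * c p / (p : ℂ) * nit (t a) p) ^ hh =
      ∑ n ∈ Ioc (P ^ hh) ((2 * P) ^ hh), b n * (χ a n * nit (t a) n) := fun a => by
    rw [← Fin.prod_const, prod_univ_sum, ← sum_fiberwise_of_maps_to hmap]
    refine sum_congr rfl fun n _ => ?_
    rw [sum_mul]
    refine sum_congr rfl fun f hf => ?_
    obtain ⟨h2, rfl⟩ := mem_filter.1 hf
    rw [nit_prod _ _ fun i => (PP_prime (Fintype.mem_piFinset.1 h2 i)).ne_zero, Nat.cast_prod,
      map_prod, ← prod_mul_distrib, ← prod_mul_distrib]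
    exact prod_congr rfl fun i _ => by ring
  have hbr : ∀ n, ‖b n‖ ≤ r n := fun n => (norm_sum_le _ _).trans (sum_le_sum fun f _ => by
    rw [norm_prod]
    refine prod_le_prod (fun _ _ => norm_nonneg _) fun i _ => ?_
    rw [norm_div, Complex.norm_natCast]
    gcongr
    exact hc _)
  have hinv : ∀ p ∈ S, 1 / (p : ℝ) ≤ 1 / P := fun p hp =>
    one_div_le_one_div_of_le hP0 (by exact_mod_cast (mem_PP.1 hp).1.le)
  have hr : ∀ n, r n ≤ (hh : ℝ) ^ hh / (P : ℝ) ^ hh := fun n => by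
    refine (sum_le_card_nsmul _ _ ((1 / P : ℝ) ^ hh) fun f hf => ?_).trans ?_
    · rw [← Fin.prod_const]
      exact prod_le_prod (fun _ _ => by positivity) fun i _ =>
        hinv _ (Fintype.mem_piFinset.1 (mem_filter.1 hf).1 i)
    · rw [nsmul_eq_mul, one_div, inv_pow, ← div_eq_mul_inv]
      gcongr
      exact_mod_cast card_fib (fun p hp => PP_prime hp) hh n
  have hsr : ∑ n ∈ Ioc (P ^ hh) ((2 * P) ^ hh), r n ≤ 1 := by
    rw [sum_fiberwise_of_maps_to hmap, ← prod_univ_sum (fun _ : Fin hh => S) fun _ p => 1 / (p : ℝ)]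
    refine prod_le_one (fun _ _ => sum_nonneg fun _ _ => by positivity) fun _ _ =>
      (sum_le_card_nsmul _ _ _ hinv).trans ?_
    have : S.card ≤ P := (card_filter_le _ _).trans (by rw [Nat.card_Ioc]; omega)
    rw [nsmul_eq_mul, mul_one_div, div_le_one hP0]
    exact_mod_cast this
  have hb2 : ∑ n ∈ Ioc (P ^ hh) ((2 * P) ^ hh), ‖b n‖ ^ 2 ≤ (hh : ℝ) ^ hh / (P : ℝ) ^ hh := by
    refine (sum_le_sum fun n _ => (?_ : _ ≤ (hh : ℝ) ^ hh / (P : ℝ) ^ hh * r n)).trans ?_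
    · rw [sq]
      exact mul_le_mul ((hbr n).trans (hr n)) (hbr n) (norm_nonneg _) (by positivity)
    · rw [← mul_sum]
      exact mul_le_of_le_one_right (by positivity) hsr
  set B : ℝ := 4 * (Q : ℝ) ^ 2 * (1 + 2 * T * hh) with hBd
  have hB0 : 0 ≤ B := by positivity
  have key := dual_ls E (Ioc (P ^ hh) ((2 * P) ^ hh)) (fun a n => χ a n * nit (t a) n) b
    (δ := fun _ => 1) (θ := fun _ => 1) (by simp) (by simp)
    (Δ := (2 * P : ℝ) ^ hh + E.card * B) (by positivity) fun a ha => by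
      simp only [Complex.ofReal_one, one_mul]
      rw [← add_sum_erase _ _ ha]
      refine add_le_add ((norm_sum_le _ _).trans ((sum_le_card_nsmul _ _ 1 fun n _ => ?_).trans ?_))
        ((sum_le_card_nsmul _ _ B fun a' ha' => ?_).trans ?_)
      · rw [norm_mul, Complex.norm_conj, norm_mul, norm_nit, mul_one]
        exact mul_le_one₀ ((χ a).norm_le_one _) (norm_nonneg _) ((χ a).norm_le_one _)
      · rw [Nat.card_Ioc, nsmul_one]
        exact_mod_cast Nat.sub_le _ _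
      · obtain ⟨h2, h3, h4, h5, -⟩ := hE a ha
        obtain ⟨h6, h7, -, h8, -⟩ := hE a' (mem_of_mem_erase ha')
        refine (off h2 h6 (ne_of_mem_erase ha').symm h4 _ _ _ (by positivity) hlt).trans ?_
        have h9 : Real.log ((2 * P) ^ hh : ℕ) - Real.log (P ^ hh : ℕ) = hh * Real.log 2 := by
          push_cast
          rw [Real.log_pow, Real.log_pow, Real.log_mul two_ne_zero hP0.ne']
          ring
        have h10 : ((a * a' : ℕ) : ℝ) ≤ 4 * (Q : ℝ) ^ 2 := by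
          exact_mod_cast (Nat.mul_le_mul h3 h7).trans (le_of_eq (by ring))
        have h11 : |t a - t a'| ≤ 2 * T := (abs_sub _ _).trans (by linarith)
        have h12 : (hh : ℝ) * Real.log 2 ≤ hh :=
          mul_le_of_le_one_right (by positivity) (by linarith [Real.log_two_lt_d9])
        rw [h9, hBd]
        gcongr
      · rw [nsmul_eq_mul]
        gcongr
        exact erase_subset _ _
  simp only [Complex.ofReal_one, one_mul] at key
  have h2 : E.card * V ^ (2 * hh) ≤ ((2 * P : ℝ) ^ hh + E.card * B) *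
      ((hh : ℝ) ^ hh / (P : ℝ) ^ hh) := by
    refine le_trans ?_ (key.trans (by gcongr))
    rw [← nsmul_eq_mul]
    refine card_nsmul_le_sum _ _ _ fun a ha => ?_
    rw [← hexp, norm_pow, ← pow_mul, mul_comm hh]
    exact pow_le_pow_left₀ hV.le (hE a ha).2.2.2.2 _
  have h3 : B * ((hh : ℝ) ^ hh / (P : ℝ) ^ hh) ≤ V ^ (2 * hh) / 2 := by
    rw [← mul_div_assoc, div_le_iff₀ (by positivity), hBd]
    linarith
  have h4 : (2 * P : ℝ) ^ hh * ((hh : ℝ) ^ hh / (P : ℝ) ^ hh) = (2 * hh : ℝ) ^ hh := by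
    rw [mul_pow, mul_pow]
    field_simp
  rw [le_div_iff₀ (by positivity)]
  have h5 := mul_le_mul_of_nonneg_left h3 (Nat.cast_nonneg E.card : (0 : ℝ) ≤ _)
  rw [add_mul, h4, mul_assoc] at h2
  linarith

end Pool.Agent.P.MP_746f10_nt.AP
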