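import Pool.Agent.P.MP_746f10_nt.AP.VK

/-! The double sum estimate of Korobov. -/

namespace Pool.Agent.P.MP_746f10_nt.AP

open Finset
open Pool.Agent.P.MP_0ad054_nt (e mn e_add e_zero e_sub norm_e geom_Ico mn_nonneg)
open scoped ComplexConjugate

namespace KorP

theorem e_sum {ι : Type} (s : Finset ι) (f : ι → ℝ) : e (∑ i ∈ s, f i) = ∏ i ∈ s, e (f i) := by
  classical
  induction s using Finset.induction_on with
  | empty => simp [e_zero]
  | insert a s ha ih => rw [sum_insert ha, prod_insert ha, e_add, ih]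

/-- Sums over fibres. -/
theorem fib {α β : Type} [DecidableEq β] (A : Finset α) (L : Finset β) (φ : α → β)
    (h : ∀ x ∈ A, φ x ∈ L) (F : β → ℝ) :
    ∑ x ∈ A, F (φ x) = ∑ l ∈ L, ((A.filter fun x => φ x = l).card : ℝ) * F l := by
  rw [← sum_fiberwise_of_maps_to h]
  refine sum_congr rfl fun l _ => ?_
  rw [sum_congr rfl (g := fun _ => F l) fun x hx => by rw [(mem_filter.1 hx).2], sum_const,
    nsmul_eq_mul]

theorem cs {α : Type} {k : ℕ} (A : Finset α) (L : Finset (Fin k → ℤ)) (φ : α → Fin k → ℤ)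
    (h : ∀ x ∈ A, φ x ∈ L) (F : (Fin k → ℤ) → ℝ) :
    (∑ x ∈ A, F (φ x)) ^ 2 ≤ (En A φ : ℝ) * ∑ l ∈ L, F l ^ 2 := by
  have h1 : (En A φ : ℝ) = ∑ l ∈ L, ((A.filter fun x => φ x = l).card : ℝ) ^ 2 := by
    simp only [sq]
    rw [← fib A L φ h fun l => ((A.filter fun x => φ x = l).card : ℝ), En, card_filter,
      sum_product_right]
    push_cast
    refine sum_congr rfl fun y _ => ?_
    rw [card_filter]
    push_cast
    rfl
  rw [fib A L φ h, h1]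
  exact sum_mul_sq_le_sq_mul_sq _ _ _

variable {k : ℕ} (a : Fin k → ℝ)

/-- the bilinear phase -/
def B (l m : Fin k → ℤ) : ℝ := ∑ j, a j * l j * m j

theorem B_comm (l m : Fin k → ℤ) : B a l m = B a m l :=
  sum_congr rfl fun j _ => by ring

theorem B_sum {s : ℕ} (l : Fin s → Fin k → ℤ) (m : Fin k → ℤ) :
    B a (∑ i, l i) m = ∑ i, B a (l i) m := by
  simp only [B, Finset.sum_apply, Int.cast_sum, mul_sum, sum_mul]
  exact sum_comm

theorem pw (s : ℕ) (X : Finset ℕ) (v : ℕ → Fin k → ℤ) (c : ℕ → ℂ) (m : Fin k → ℤ) :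
    (∑ x ∈ X, c x * e (B a (v x) m)) ^ s =
      ∑ x ∈ tup s X, (∏ i, c (x i)) * e (B a (∑ i, v (x i)) m) := by
  rw [sum_pow', tup]
  refine sum_congr rfl fun x _ => ?_
  rw [B_sum, e_sum, prod_mul_distrib]

/-- The mean square over a box. -/
theorem box (h : S_EnShift) {α : Type} (T : Finset α) (φ : α → Fin k → ℤ) (A : Fin k → ℕ)
    (hφ : ∀ x ∈ T, ∀ j, φ x j ∈ Ico (1 : ℤ) (A j + 1)) (c : α → ℂ) (hc : ∀ x, ‖c x‖ = 1) :
    ∑ l ∈ Fintype.piFinset fun j => Ico (1 : ℤ) (A j + 1),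
      ‖∑ x ∈ T, c x * e (B a (φ x) l)‖ ^ 2 ≤ (En T φ : ℝ) * ∏ j, Ws (a j) (A j) := by
  have e1 : ((∑ l ∈ Fintype.piFinset fun j => Ico (1 : ℤ) (A j + 1),
      ‖∑ x ∈ T, c x * e (B a (φ x) l)‖ ^ 2 : ℝ) : ℂ) = ∑ p ∈ T ×ˢ T, c p.1 * conj (c p.2) *
        ∏ j, ∑ n ∈ Ico (1 : ℤ) (A j + 1), e (a j * ((φ p.1 - φ p.2) j : ℤ) * n) := by
    simp only [prod_univ_sum, mul_sum]
    rw [sum_comm, Complex.ofReal_sum]
    refine sum_congr rfl fun l _ => ?_
    rw [Complex.ofReal_pow, ← Complex.mul_conj', map_sum, sum_mul_sum, sum_product]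
    refine sum_congr rfl fun x _ => sum_congr rfl fun y _ => ?_
    rw [← e_sum, map_mul, mul_mul_mul_comm, ← e_sub]
    congr 2
    simp only [B, ← sum_sub_distrib, Pi.sub_apply]
    refine sum_congr rfl fun j _ => ?_
    push_cast
    ring
  have e2 := congrArg norm e1
  rw [Complex.norm_real, Real.norm_eq_abs] at e2
  refine (le_abs_self _).trans (e2.le.trans ((norm_sum_le _ _).trans ?_))
  have e3 : ∀ p ∈ T ×ˢ T, ‖c p.1 * conj (c p.2) *
      ∏ j, ∑ n ∈ Ico (1 : ℤ) (A j + 1), e (a j * ((φ p.1 - φ p.2) j : ℤ) * n)‖ ≤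
      (fun m : Fin k → ℤ => ∏ j, mn (A j) (a j * m j)) (φ p.1 - φ p.2) := by
    intro p _
    rw [norm_mul, norm_mul, Complex.norm_conj, hc, hc, one_mul, one_mul, norm_prod]
    exact prod_le_prod (fun j _ => norm_nonneg _) fun j _ => geom_Ico _ _ _ (by simp)
  refine (sum_le_sum e3).trans ?_
  refine (fib (T ×ˢ T) (Fintype.piFinset fun j => Icc (-(A j : ℤ)) (A j))
    (fun p => φ p.1 - φ p.2) ?_ fun m => ∏ j, mn (A j) (a j * m j)).trans_le ?_
  swap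
  · simp only [Ws]
    rw [prod_univ_sum, mul_sum]
    refine sum_le_sum fun m _ => mul_le_mul_of_nonneg_right ?_
      (prod_nonneg fun j _ => mn_nonneg (Nat.cast_nonneg _) _)
    have := h α k T φ m
    simp only [sub_eq_iff_eq_add']
    exact_mod_cast this
  · intro p hp
    rw [mem_product] at hp
    rw [Fintype.mem_piFinset]
    intro j
    have h1 := mem_Ico.1 (hφ _ hp.1 j)
    have h2 := mem_Ico.1 (hφ _ hp.2 j)
    rw [mem_Icc, Pi.sub_apply]
    omega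

theorem core (h : S_EnShift) (s : ℕ) (X : Finset ℕ) (v : ℕ → Fin k → ℤ) (A : Fin k → ℕ)
    (hv : ∀ x ∈ tup (s + 1) X, ∀ j, (∑ i, v (x i)) j ∈ Ico (1 : ℤ) (A j + 1)) :
    ‖∑ x ∈ X, ∑ y ∈ X, e (B a (v x) (v y))‖ ^ (2 * (s + 1) ^ 2) ≤
      (X.card : ℝ) ^ (4 * (s + 1) * s) * (En (tup (s + 1) X) fun x => ∑ i, v (x i) : ℝ) ^ 2 *
        ∏ j, Ws (a j) (A j) := by
  set φ : (Fin (s + 1) → ℕ) → Fin k → ℤ := fun x => ∑ i, v (x i) with hφ
  set T := tup (s + 1) X with hT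
  have hc : (T.card : ℝ) = (X.card : ℝ) ^ (s + 1) := by simp [hT, tup]
  choose ε hε1 hε2 using fun y : ℕ =>
    RCLike.exists_norm_eq_mul_self ((∑ x ∈ X, 1 * e (B a (v x) (v y))) ^ (s + 1))
  set F : (Fin k → ℤ) → ℝ := fun l => ‖∑ y ∈ X, ε y * e (B a (v y) l)‖ with hF
  have h1 : ‖∑ x ∈ X, ∑ y ∈ X, e (B a (v x) (v y))‖ ^ (s + 1) ≤
      (X.card : ℝ) ^ s * ∑ x ∈ T, F (φ x) := by
    rw [sum_comm]
    refine (pow_le_pow_left₀ (norm_nonneg _) (norm_sum_le _ _) _).trans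
      ((pow_sum_le_card_mul_sum_pow (fun _ _ => norm_nonneg _) s).trans ?_)
    refine mul_le_mul_of_nonneg_left ?_ (by positivity)
    have e1 : ((∑ y ∈ X, ‖∑ x ∈ X, e (B a (v x) (v y))‖ ^ (s + 1) : ℝ) : ℂ) =
        ∑ x ∈ T, ∑ y ∈ X, ε y * e (B a (v y) (φ x)) := by
      rw [sum_comm, Complex.ofReal_sum]
      refine sum_congr rfl fun y _ => ?_
      have e2 := hε2 y
      rw [norm_pow, pw] at e2
      simp only [one_mul, prod_const_one] at e2
      refine e2.trans ?_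
      rw [mul_sum]
      exact sum_congr rfl fun x _ => by rw [B_comm]
    have e2 := congrArg norm e1
    rw [Complex.norm_real, Real.norm_eq_abs] at e2
    exact (le_abs_self _).trans (e2.le.trans (norm_sum_le _ _))
  have h2 : (∑ x ∈ T, F (φ x)) ^ (s + 1) ≤
      ((X.card : ℝ) ^ (s + 1)) ^ s * ∑ x ∈ T, F (φ x) ^ (s + 1) := by
    rw [← hc]
    exact pow_sum_le_card_mul_sum_pow (fun _ _ => norm_nonneg _) s
  have h3 := cs T (Fintype.piFinset fun j => Ico (1 : ℤ) (A j + 1)) φ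
    (fun x hx => Fintype.mem_piFinset.2 (hv x hx)) fun l => F l ^ (s + 1)
  have h4 := box a h T φ A hv (fun x => ∏ i, ε (x i)) fun x => by simp [norm_prod, hε1]
  have h5 : ∑ l ∈ Fintype.piFinset fun j => Ico (1 : ℤ) (A j + 1), (F l ^ (s + 1)) ^ 2 ≤
      (En T φ : ℝ) * ∏ j, Ws (a j) (A j) := by
    refine le_of_eq_of_le (sum_congr rfl fun l _ => ?_) h4
    rw [hF]
    simp only
    rw [← norm_pow, pw]
  have h6 : (∑ x ∈ T, F (φ x) ^ (s + 1)) ^ 2 ≤ (En T φ : ℝ) ^ 2 * ∏ j, Ws (a j) (A j) := by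
    refine h3.trans ?_
    rw [sq (En T φ : ℝ), mul_assoc]
    exact mul_le_mul_of_nonneg_left h5 (Nat.cast_nonneg _)
  have hF0 : 0 ≤ ∑ x ∈ T, F (φ x) := sum_nonneg fun _ _ => norm_nonneg _
  calc _ = ((‖∑ x ∈ X, ∑ y ∈ X, e (B a (v x) (v y))‖ ^ (s + 1)) ^ (s + 1)) ^ 2 := by ring
    _ ≤ (((X.card : ℝ) ^ s * ∑ x ∈ T, F (φ x)) ^ (s + 1)) ^ 2 := by gcongr
    _ = (((X.card : ℝ) ^ s) ^ (s + 1) * (∑ x ∈ T, F (φ x)) ^ (s + 1)) ^ 2 := by rw [mul_pow]
    _ ≤ (((X.card : ℝ) ^ s) ^ (s + 1) *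
        (((X.card : ℝ) ^ (s + 1)) ^ s * ∑ x ∈ T, F (φ x) ^ (s + 1))) ^ 2 := by gcongr
    _ = (X.card : ℝ) ^ (4 * (s + 1) * s) * (∑ x ∈ T, F (φ x) ^ (s + 1)) ^ 2 := by ring
    _ ≤ _ := by
      rw [mul_assoc _ (_ ^ 2)]
      exact mul_le_mul_of_nonneg_left h6 (by positivity)

theorem icc (k : ℕ) : Icc 1 k = (univ : Finset (Fin k)).image fun j : Fin k => (j : ℕ) + 1 := by
  ext j
  simp only [mem_Icc, mem_image, mem_univ, true_and]
  constructor
  · intro hj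
    exact ⟨⟨j - 1, by omega⟩, by simp; omega⟩
  · rintro ⟨i, rfl⟩
    have := i.2
    omega

theorem inj (k : ℕ) : Set.InjOn (fun j : Fin k => (j : ℕ) + 1) (univ : Finset (Fin k)) :=
  fun _ _ _ _ hij => Fin.ext (Nat.succ_injective hij)

end KorP

theorem pKor (h : S_EnShift) : S_Kor := by
  intro k s Z α hs hZ
  obtain ⟨s, rfl⟩ : ∃ t, s = t + 1 := ⟨s - 1, by omega⟩
  have h1 := KorP.core (k := k) (fun j => α (j + 1)) h s (Icc 1 Z)
    (fun x j => (x : ℤ) ^ ((j : ℕ) + 1)) (fun j => (s + 1) * Z ^ ((j : ℕ) + 1)) (by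
      intro x hx j
      rw [tup, Fintype.mem_piFinset] at hx
      rw [Finset.sum_apply, mem_Ico]
      have h2 : ∀ i, (1 : ℤ) ≤ (x i : ℤ) ^ ((j : ℕ) + 1) := fun i =>
        one_le_pow₀ (by exact_mod_cast (mem_Icc.1 (hx i)).1)
      have h3 : ∀ i, (x i : ℤ) ^ ((j : ℕ) + 1) ≤ (Z : ℤ) ^ ((j : ℕ) + 1) := fun i =>
        pow_le_pow_left₀ (by positivity) (by exact_mod_cast (mem_Icc.1 (hx i)).2) _
      have h4 := sum_le_sum (s := univ) fun i _ => h2 i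
      have h5 := sum_le_sum (s := univ) fun i _ => h3 i
      simp only [sum_const, card_univ, Fintype.card_fin, nsmul_eq_mul] at h4 h5
      push_cast at h4 h5 ⊢
      constructor
      · omega
      · omega)
  have h2 : (En (tup (s + 1) (Icc 1 Z)) fun x => ∑ i, fun j : Fin k => (x i : ℤ) ^ ((j : ℕ) + 1)) =
      Jv (s + 1) k Z := by
    rw [En, Jv]
    congr 1
    refine filter_congr fun p _ => ?_
    rw [KorP.icc, funext_iff]
    simp only [Finset.sum_apply, mem_image, mem_univ, true_and, forall_exists_index,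
      forall_apply_eq_imp_iff]
    refine forall_congr' fun j => ?_
    exact_mod_cast Iff.rfl
  rw [h2] at h1
  rw [KorP.icc k]
  simp only [sum_image (KorP.inj k), prod_image (KorP.inj k), Nat.add_sub_cancel]
  simpa [KorP.B] using h1

end Pool.Agent.P.MP_746f10_nt.AP
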