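import Pool.Agent.P.MP_746f10_nt.AP.VK
import Pool.Agent.P.MP_323ce2_nt.Tools

/-! The lemma of Landau on logarithmic derivatives. -/

namespace Pool.Agent.P.MP_746f10_nt.AP

open Metric Complex
open Pool.Agent.P.MP_323ce2_nt (exists_log bc exists_factor)

namespace LandauP

theorem logD {f : ℂ → ℂ} {c : ℂ} {r M : ℝ} (hr : 0 < r) (hM : 1 ≤ M)
    (hf : DifferentiableOn ℂ f (ball c r)) (h0 : ∀ s ∈ ball c r, f s ≠ 0)
    (hb : ∀ s ∈ ball c r, ‖f s‖ ≤ Real.exp M * ‖f c‖) {s : ℂ} (hs : s ∈ closedBall c (r / 2)) :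
    ‖deriv f s / f s‖ ≤ 24 * M / r := by
  obtain ⟨φ, hφ, hφ0, hfφ⟩ := exists_log hr hf h0
  have hc : 0 < ‖f c‖ := norm_pos_iff.2 (h0 c (mem_ball_self hr))
  have hre : ∀ z ∈ ball c r, (φ z).re ≤ M := fun z hz => by
    have h1 := hb z hz
    rw [hfφ z hz, norm_mul, norm_exp, mul_comm] at h1
    exact Real.exp_le_exp.1 (le_of_mul_le_mul_right h1 hc)
  have hsub : closedBall s (r / 4) ⊆ closedBall c (3 * r / 4) :=
    closedBall_subset_closedBall' (by rw [mem_closedBall] at hs; linarith)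
  have hsub2 : closedBall c (3 * r / 4) ⊆ ball c r := closedBall_subset_ball (by linarith)
  have hs' : s ∈ ball c r := closedBall_subset_ball (by linarith) hs
  have hd : ‖deriv φ s‖ ≤ 6 * M / (r / 4) := by
    refine norm_deriv_le_of_forall_mem_sphere_norm_le (by linarith)
      (DifferentiableOn.diffContOnCl (hφ.mono ?_)) fun z hz => ?_
    · rw [closure_ball _ (by linarith : r / 4 ≠ 0)]
      exact hsub.trans hsub2
    · have := bc (by linarith : 0 < M) (by linarith : 0 ≤ 3 * r / 4) (by linarith) hφ hφ0 hre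
        (hsub (sphere_subset_closedBall hz))
      refine this.trans (le_of_eq ?_)
      field_simp
      ring
  have hφs : HasDerivAt φ (deriv φ s) s :=
    (hφ.differentiableAt (isOpen_ball.mem_nhds hs')).hasDerivAt
  have h2 : HasDerivAt f (f c * (exp (φ s) * deriv φ s)) s :=
    (hφs.cexp.const_mul (f c)).congr_of_eventuallyEq
      (Filter.eventually_of_mem (isOpen_ball.mem_nhds hs') hfφ)
  rw [h2.deriv, ← mul_assoc, ← hfφ s hs', mul_div_cancel_left₀ _ (h0 s hs')]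
  refine hd.trans (le_of_eq ?_)
  field_simp
  ring

theorem maxp {f : ℂ → ℂ} {c : ℂ} {r B : ℝ} (hr : 0 < r) (hf : DifferentiableOn ℂ f (ball c r))
    (hb : ∀ s ∈ sphere c (3 * r / 4), ‖f s‖ ≤ B) {s : ℂ} (hs : s ∈ closedBall c (3 * r / 4)) :
    ‖f s‖ ≤ B := by
  have h3 : 3 * r / 4 ≠ 0 := by linarith
  refine norm_le_of_forall_mem_frontier_norm_le (U := ball c (3 * r / 4)) isBounded_ball
    (DifferentiableOn.diffContOnCl (hf.mono ?_)) ?_ ?_
  · rw [closure_ball _ h3]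
    exact closedBall_subset_ball (by linarith)
  · rwa [frontier_ball _ h3]
  · rwa [closure_ball _ h3]

/-- Dividing out one zero halves the bound. -/
theorem step {f : ℂ → ℂ} {c ρ : ℂ} {r K : ℝ} (hr : 0 < r) (hK : 0 ≤ K)
    (hf : DifferentiableOn ℂ f (ball c r)) (hc : f c ≠ 0)
    (hb : ∀ s ∈ sphere c (3 * r / 4), ‖f s‖ ≤ K * ‖f c‖) (hρ : f ρ = 0) (hn : ‖ρ - c‖ ≤ r / 4) :
    ∃ h : ℂ → ℂ, DifferentiableOn ℂ h (ball c r) ∧ h c ≠ 0 ∧
      (∀ s ∈ sphere c (3 * r / 4), ‖h s‖ ≤ K / 2 * ‖h c‖) ∧ (∀ s, h s = 0 → f s = 0) ∧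
      deriv f c / f c = deriv h c / h c + 1 / (c - ρ) := by
  have hρ' : ρ ∈ ball c r := by
    rw [mem_ball, dist_eq_norm]
    linarith
  obtain ⟨h, hh, hfh⟩ := exists_factor isOpen_ball {ρ} hf (by simp [hρ, mem_ball.1 hρ'])
  simp only [Finset.prod_singleton] at hfh
  have h1 : h c ≠ 0 := fun e => hc (by rw [hfh, e, zero_mul])
  have h2 : c - ρ ≠ 0 := fun e => hc (by rw [hfh, e, mul_zero])
  refine ⟨h, hh, h1, fun s hs => ?_, fun s e => by rw [hfh, e, zero_mul], ?_⟩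
  · have a1 := hb s hs
    rw [hfh, hfh, norm_mul, norm_mul, norm_sub_rev c ρ] at a1
    have a2 : r / 2 ≤ ‖s - ρ‖ := by
      have a3 : ‖s - c‖ ≤ ‖s - ρ‖ + ‖ρ - c‖ := by
        simpa using norm_add_le (s - ρ) (ρ - c)
      rw [mem_sphere, dist_eq_norm] at hs
      linarith
    have a4 : ‖h s‖ * (r / 2) ≤ K * (‖h c‖ * (r / 4)) :=
      calc ‖h s‖ * (r / 2) ≤ ‖h s‖ * ‖s - ρ‖ := by gcongr
        _ ≤ K * (‖h c‖ * ‖ρ - c‖) := a1
        _ ≤ K * (‖h c‖ * (r / 4)) := by gcongr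
    refine le_of_mul_le_mul_right (a4.trans (le_of_eq ?_)) (by linarith : 0 < r / 2)
    ring
  · have hd : HasDerivAt h (deriv h c) c :=
      (hh.differentiableAt (isOpen_ball.mem_nhds (mem_ball_self hr))).hasDerivAt
    have h3 : HasDerivAt f (deriv h c * (c - ρ) + h c * 1) c := by
      have := hd.mul ((hasDerivAt_id c).sub_const ρ)
      have e : f = h * fun x => id x - ρ := funext hfh
      rw [e]
      exact this
    rw [h3.deriv, hfh c]
    field_simp

theorem main {c : ℂ} {r M : ℝ} (hr : 0 < r) (hM : 1 ≤ M) (n : ℕ) : ∀ (f : ℂ → ℂ) (K : ℝ),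
    0 ≤ K → K < 2 ^ n → K ≤ Real.exp M → DifferentiableOn ℂ f (ball c r) → f c ≠ 0 →
    (∀ s ∈ sphere c (3 * r / 4), ‖f s‖ ≤ K * ‖f c‖) → (∀ s ∈ ball c r, f s = 0 → s.re ≤ c.re) →
    -(deriv f c / f c).re ≤ 96 * M / r := by
  induction n with
  | zero =>
    intro f K _ h1 _ hf hc hb _
    have a1 := maxp hr hf hb (mem_closedBall_self (by linarith))
    have a2 : 0 < ‖f c‖ := norm_pos_iff.2 hc
    rw [pow_zero] at h1
    nlinarith
  | succ n ih =>
    intro f K h0 h1 h2 hf hc hb hz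
    by_cases hex : ∃ ρ, f ρ = 0 ∧ ‖ρ - c‖ ≤ r / 4
    · obtain ⟨ρ, hρ, hn⟩ := hex
      obtain ⟨h, hh, b1, b2, b3, b4⟩ := step hr h0 hf hc hb hρ hn
      have b5 := ih h (K / 2) (by linarith) (by rw [pow_succ] at h1; linarith) (by linarith) hh b1
        b2 fun s hs e => hz s hs (b3 s e)
      have b6 : ρ.re ≤ c.re := hz ρ (by rw [mem_ball, dist_eq_norm]; linarith) hρ
      have b7 : 0 ≤ (1 / (c - ρ)).re := by
        rw [one_div, inv_re, sub_re]
        exact div_nonneg (by linarith) (normSq_nonneg _)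
      rw [b4, add_re]
      linarith
    · have a1 := logD (f := f) (c := c) (by linarith : 0 < r / 4) hM
        (hf.mono (ball_subset_ball (by linarith)))
        (fun s hs e => hex ⟨s, e, by rw [mem_ball, dist_eq_norm] at hs; exact hs.le⟩)
        (fun s hs => (maxp hr hf hb (ball_subset_closedBall
          (ball_subset_ball (by linarith) hs))).trans (by gcongr))
        (mem_closedBall_self (by linarith))
      refine ((neg_le_abs _).trans (abs_re_le_norm _)).trans (a1.trans (le_of_eq ?_))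
      field_simp
      ring

end LandauP

theorem pLogD : S_LogD :=
  ⟨24, by norm_num, fun _ _ _ _ hr hM hf h0 hb _ hs => LandauP.logD hr hM hf h0 hb hs⟩

theorem pLandau : S_Landau := by
  refine ⟨96, by norm_num, fun f c r M hr hM hf hc hb hz => ?_⟩
  obtain ⟨n, hn⟩ := pow_unbounded_of_one_lt (Real.exp M) (one_lt_two (α := ℝ))
  have hp := (Real.exp_pos M).le
  have hb' : ∀ s ∈ sphere c (3 * r / 4), ‖f s‖ ≤ Real.exp M * ‖f c‖ := fun s hs =>
    hb s (closedBall_subset_ball (by linarith) (sphere_subset_closedBall hs))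
  refine ⟨LandauP.main hr hM n f _ hp hn le_rfl hf hc hb' hz, fun ρ hρ hn' => ?_⟩
  obtain ⟨h, hh, b1, b2, b3, b4⟩ := LandauP.step hr hp hf hc hb' hρ hn'
  have b5 := LandauP.main hr hM n h (Real.exp M / 2) (by linarith) (by linarith) (by linarith) hh
    b1 b2 fun s hs e => hz s hs (b3 s e)
  rw [b4, add_re]
  linarith

end Pool.Agent.P.MP_746f10_nt.AP
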