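import Pool.Agent.P.MP_746f10_nt.AP.VK
import Pool.Agent.P.MP_0ad054_nt.An.Lup

/-! A bound for L-functions in a thin strip to the left of the line `re s = 1`. -/

namespace Pool.Agent.P.MP_746f10_nt.AP

open Finset Complex DirichletCharacter Filter
open Pool.Agent.P.MP_0ad054_nt.An Pool.Agent.P.MP_0ad054_nt.An.LupP
open Pool.Agent.P.MP_a14ce1_nt.Ch (nit ex)

namespace LbdP

/-- the analytic conductor -/
noncomputable abbrev cd (q : ℕ) (s : ℂ) : ℝ := MP_0ad054_nt.An.cond q s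

lemma cp_eq {n : ℕ} (hn : 0 < n) (s : ℂ) :
    (n : ℂ) ^ (-s) = ((n : ℝ) ^ (-s.re) : ℝ) * nit s.im n := by
  have h : (0 : ℝ) < n := by exact_mod_cast hn
  rw [cpow_def_of_ne_zero (by exact_mod_cast hn.ne'), Real.rpow_def_of_pos h, ofReal_exp, nit, ex,
    ← Complex.exp_add, ← natCast_log]
  congr 1
  apply Complex.ext <;> simp [mul_comm, add_comm, sub_eq_add_neg]

lemma blocks {f : ℕ → ℂ} {s : ℂ} {L θ R : ℝ} (hL : 0 ≤ L) (h0 : 0 ≤ s.re) (h1 : 1 - θ ≤ s.re)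
    (hP : ∀ M N : ℕ, 1 ≤ M → M ≤ N → N ≤ 2 * M → (M : ℝ) ≤ R →
      ‖∑ n ∈ Ioc M N, f n * nit s.im n‖ ≤ L * (M : ℝ) ^ (1 - θ)) (i : ℕ) :
    ∀ Y : ℕ, 1 ≤ Y → Y ≤ 2 ^ i → (Y : ℝ) ≤ R →
      ‖∑ n ∈ Ioc 1 Y, f n * (n : ℂ) ^ (-s)‖ ≤ i * L := by
  induction i with
  | zero =>
    intro Y a b _
    simp [show Y = 1 by omega]
  | succ i ih =>
    intro Y a b c
    push_cast
    rcases le_total Y (2 ^ i) with h | h
    · linarith [ih Y a h c]
    obtain ⟨M, hM⟩ : ∃ M, M = 2 ^ i := ⟨_, rfl⟩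
    have m1 : 1 ≤ M := hM ▸ Nat.one_le_two_pow
    have m2 : (1 : ℝ) ≤ M := by exact_mod_cast m1
    have m3 : (M : ℝ) ≤ R := le_trans (by exact_mod_cast hM ▸ h) c
    rw [pow_succ, ← hM] at b
    rw [← hM] at h
    have e : ∀ x : ℕ, Ico (M + 1) (x + 1) = Ioc M x := fun x => by
      ext n
      simp only [mem_Ico, mem_Ioc]
      omega
    have h2 := abel_le (fun n => f n * nit s.im n) (fun n => (n : ℝ) ^ (-s.re)) (M + 1) (Y + 1)
      (L * (M : ℝ) ^ (1 - θ)) (fun n _ => by positivity) (fun n hn => by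
        push_cast
        exact Real.rpow_le_rpow_of_nonpos (by exact_mod_cast (by omega : 0 < n)) (by linarith)
          (by linarith)) (fun x hx hx' => by
        obtain ⟨x, rfl⟩ : ∃ y, x = y + 1 := ⟨x - 1, by omega⟩
        rw [e]
        exact hP M x m1 (by omega) (by omega) m3) (by omega)
    have h3 : L * (M : ℝ) ^ (1 - θ) * ((M + 1 : ℕ) : ℝ) ^ (-s.re) ≤ L := by
      rw [mul_assoc]
      refine mul_le_of_le_one_right hL ?_
      have : ((M + 1 : ℕ) : ℝ) ^ (-s.re) ≤ (M : ℝ) ^ (-s.re) :=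
        Real.rpow_le_rpow_of_nonpos (by linarith) (by push_cast; linarith) (by linarith)
      refine (mul_le_mul_of_nonneg_left this (by positivity)).trans ?_
      rw [← Real.rpow_add (by linarith)]
      exact Real.rpow_le_one_of_one_le_of_nonpos m2 (by linarith)
    rw [e, sum_congr rfl (g := fun n => f n * (n : ℂ) ^ (-s)) fun n hn => by
      rw [cp_eq (by have := (mem_Ioc.1 hn).1; omega), real_smul]
      ring] at h2
    rw [← sum_Ioc_consecutive _ m1 h]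
    have h4 := ih M m1 hM.le m3
    linarith [norm_add_le (∑ n ∈ Ioc 1 M, f n * (n : ℂ) ^ (-s))
      (∑ n ∈ Ioc M Y, f n * (n : ℂ) ^ (-s))]

lemma shift (g : ℕ → ℂ) {Y : ℕ} (h : 1 ≤ Y) :
    ∑ n ∈ range Y, g (n + 1) = g 1 + ∑ n ∈ Ioc 1 Y, g n := by
  induction Y, h using Nat.le_induction with
  | base => simp
  | succ Y h ih => rw [sum_range_succ, ih, sum_Ioc_succ_top h, add_assoc]

lemma core {f : ℕ → ℂ} {s : ℂ} {L θ Q D : ℝ} (hL : 1 ≤ L) (h0 : 0 ≤ s.re) (h1 : 1 - θ ≤ s.re)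
    (hf : ‖f 1‖ ≤ 1) (hQ : 2 ≤ Q) (hD : Real.log Q ≤ D * L)
    (hP : ∀ M N : ℕ, 1 ≤ M → M ≤ N → N ≤ 2 * M → (M : ℝ) ≤ Q ^ 2 →
      ‖∑ n ∈ Ioc M N, f n * nit s.im n‖ ≤ L * (M : ℝ) ^ (1 - θ)) :
    ∃ Y : ℕ, 1 ≤ Y ∧ ‖∑ n ∈ range Y, f (n + 1) * ((n : ℂ) + 1) ^ (-s)‖ ≤ (4 * D + 2) * L ^ 2 ∧
      Q * ((Y : ℝ) ^ (-(1 / 2 : ℝ)) / (1 / 2)) ≤ 4 ∧ Q * ((Y : ℝ) + 1) ^ (-(1 / 2 : ℝ)) ≤ 1 ∧
      ((Y : ℝ) + 1) ^ (1 / 2 : ℝ) ≤ Q + 1 := by
  have a1 : (⌊Q ^ 2⌋₊ : ℝ) ≤ Q ^ 2 := Nat.floor_le (by positivity)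
  have a2 := Nat.lt_floor_add_one (Q ^ 2)
  generalize ⌊Q ^ 2⌋₊ = Y at a1 a2
  have a3 : (1 : ℝ) ≤ Y := by nlinarith
  have a4 : 1 ≤ Y := by exact_mod_cast a3
  have b1 := blocks (by linarith) h0 h1 hP (Nat.log 2 Y + 1) Y a4
    (Nat.lt_pow_succ_log_self (by norm_num) Y).le a1
  have b2 : (Nat.log 2 Y : ℝ) ≤ 4 * D * L := by
    have c1 : ((2 : ℝ)) ^ Nat.log 2 Y ≤ Q ^ 2 :=
      le_trans (by exact_mod_cast Nat.pow_log_le_self 2 (by omega)) a1
    have c2 := Real.log_le_log (by positivity) c1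
    rw [Real.log_pow, Real.log_pow] at c2
    have c3 := Real.log_two_gt_d9
    have c4 : (0 : ℝ) ≤ Nat.log 2 Y := Nat.cast_nonneg _
    push_cast at c2
    nlinarith
  refine ⟨Y, a4, ?_, ?_, ?_, ?_⟩
  · have := shift (fun n => f n * (n : ℂ) ^ (-s)) a4
    push_cast at this b1
    rw [this, one_cpow, mul_one]
    refine (norm_add_le _ _).trans ?_
    nlinarith
  · have : Q / 2 ≤ √(Y : ℝ) := Real.le_sqrt_of_sq_le (by nlinarith)
    rw [Real.rpow_neg (by linarith), ← Real.sqrt_eq_rpow, ← mul_div_assoc, ← div_eq_mul_inv,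
      div_le_iff₀ (by norm_num), div_le_iff₀ (by linarith)]
    linarith
  · have : Q ≤ √((Y : ℝ) + 1) := Real.le_sqrt_of_sq_le a2.le
    rw [Real.rpow_neg (by linarith), ← Real.sqrt_eq_rpow, ← div_eq_mul_inv,
      div_le_one (by linarith)]
    exact this
  · rw [← Real.sqrt_eq_rpow]
    exact Real.sqrt_le_iff.2 ⟨by linarith, by nlinarith⟩

lemma nontriv {q : ℕ} [NeZero q] {χ : DirichletCharacter ℂ q} (hχ : χ ≠ 1) {s : ℂ} {K : ℝ}
    (h1 : 1 / 2 ≤ s.re) (h2 : s.re ≤ 2) {N : ℕ} (n1 : 1 ≤ N)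
    (b2 : ‖∑ n ∈ range N, χ ((n + 1 : ℕ) : ZMod q) * ((n : ℂ) + 1) ^ (-s)‖ ≤ K)
    (n4 : cd q s * ((N : ℝ) ^ (-(1 / 2 : ℝ)) / (1 / 2)) ≤ 4)
    (n5 : cd q s * ((N : ℝ) + 1) ^ (-(1 / 2 : ℝ)) ≤ 1) : ‖LFunction χ s‖ ≤ K + 5 := by
  have hQ := two_le_cond (NeZero.one_le (n := q)) s
  have hc := norm_le_cond q (s := s) (by linarith) h2
  have b1 := norm_sub_sum_le (hasSum_tL χ hχ (s := s) (by linarith)) (K := cd q s)
    (a := 1 / 2) (by linarith) (by linarith) (fun n =>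
      (norm_tL_le χ hχ n (by linarith)).trans
        (mul_le_mul hc (rpow_mono n (by linarith)) (by positivity) (by linarith))) n1
  have b3 : ‖PA χ N * ((N : ℂ) + 1) ^ (-s)‖ ≤ cd q s * ((N : ℝ) + 1) ^ (-(1 / 2 : ℝ)) := by
    rw [norm_mul, norm_cp, neg_re]
    refine mul_le_mul ((norm_PA_le χ hχ N).trans ?_) (rpow_mono N (by linarith))
      (by positivity) (by linarith)
    exact le_mul_of_one_le_right (Nat.cast_nonneg _) (by linarith [abs_nonneg s.im])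
  have b4 := norm_sub_norm_le (LFunction χ s) (∑ n ∈ range N, tL χ n s)
  have b5 := (sum_tL χ s N ▸ norm_sub_le _ _ : ‖∑ n ∈ range N, tL χ n s‖ ≤ _)
  linarith

lemma zeta {s : ℂ} {K : ℝ} (h1 : 1 / 2 ≤ s.re) (h2 : s.re ≤ 2) (h3 : 1 ≤ |s.im|) {N : ℕ}
    (n1 : 1 ≤ N) (b2 : ‖∑ n ∈ range N, ((n : ℂ) + 1) ^ (-s)‖ ≤ K)
    (n4 : cd 1 s * ((N : ℝ) ^ (-(1 / 2 : ℝ)) / (1 / 2)) ≤ 4)
    (n5 : ((N : ℝ) + 1) ^ (1 / 2 : ℝ) ≤ cd 1 s + 1) : ‖riemannZeta s‖ ≤ K + 8 := by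
  have hQ := two_le_cond le_rfl s
  have hn : |s.im| ≤ ‖s - 1‖ := by simpa using abs_im_le_norm (s - 1)
  have hs1 : s ≠ 1 := by
    rintro rfl
    norm_num at h3
  have hc := norm_le_cond 1 (s := s) (by linarith) h2
  rw [Nat.cast_one, one_mul] at hc
  have b1 := norm_sub_sum_le (hasSum_tZ (s := s) (by linarith)) (K := ‖s - 1‖ * cd 1 s)
    (a := 1 / 2) (by positivity) (by linarith) (fun n =>
      (norm_tZ_le₁ n (by linarith)).trans
        (mul_le_mul (by gcongr) (rpow_mono n (by linarith)) (by positivity) (by positivity))) n1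
  have e : (s - 1) * riemannZeta s = (Zf s - 1 - ∑ n ∈ range N, tZ n s) +
      (s - 1) * ∑ n ∈ range N, ((n : ℂ) + 1) ^ (-s) + ((N : ℂ) + 1) ^ (1 - s) := by
    simp only [tZ, sum_sub_distrib, ← mul_sum]
    rw [← sum_sub_distrib, sum_range_sub' fun n : ℕ => ((n : ℂ) + 1) ^ (1 - s), Zf_eq hs1]
    push_cast
    simp only [zero_add, one_cpow]
    ring
  have b3 : ‖((N : ℂ) + 1) ^ (1 - s)‖ ≤ ‖s - 1‖ * 4 := by
    rw [norm_cp]
    refine ((rpow_mono N (by simp only [sub_re, one_re]; linarith)).trans n5).trans ?_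
    simp only [cd, MP_0ad054_nt.An.cond, Nat.cast_one]
    linarith
  have b4 := (e ▸ norm_add₃_le : ‖(s - 1) * riemannZeta s‖ ≤ _)
  rw [norm_mul, norm_mul] at b4
  rw [mul_assoc] at b1
  refine le_of_mul_le_mul_left (a := ‖s - 1‖) ?_ (by linarith)
  nlinarith [mul_le_mul_of_nonneg_left b2 (norm_nonneg (s - 1)),
    mul_le_mul_of_nonneg_left n4 (norm_nonneg (s - 1))]

lemma euler {q : ℕ} (hq : q ≠ 0) {s : ℂ} (h : 0 ≤ s.re) :
    ‖∏ p ∈ q.primeFactors, (1 - (p : ℂ) ^ (-s))‖ ≤ q := by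
  rw [norm_prod]
  refine le_trans (b := ∏ p ∈ q.primeFactors, (p : ℝ))
    (prod_le_prod (fun _ _ => norm_nonneg _) fun p hp => ?_) ?_
  · have h2 := (Nat.prime_of_mem_primeFactors hp).two_le
    have h3 : (2 : ℝ) ≤ p := by exact_mod_cast h2
    refine (norm_sub_le _ _).trans ?_
    rw [norm_one, norm_natCast_cpow_of_pos (by omega), neg_re]
    linarith [Real.rpow_le_one_of_one_le_of_nonpos (x := p) (z := -s.re) (by linarith)
      (by linarith)]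
  · rw [← Nat.cast_prod (fun p => p)]
    exact Nat.cast_le.2 (Nat.le_of_dvd (Nat.pos_of_ne_zero hq) (Nat.prod_primeFactors_dvd q))

lemma large (B H : ℕ) : ∀ᶠ X : ℝ in atTop, 12 ≤ X ∧ (4 * B + 18 : ℝ) ≤ Real.log X ∧
    th H X ≤ 1 / 2 := by
  have h := Real.tendsto_log_atTop.eventually
    ((Real.isLittleO_pow_log_id_atTop (n := 2)).bound (c := 1 / (2 * (H + 1))) (by positivity))
  filter_upwards [eventually_ge_atTop 12, Real.tendsto_log_atTop.eventually_ge_atTop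
    (4 * B + 18 : ℝ), h] with X h1 h2 h3
  have h4 : 0 < Real.log X := lt_of_lt_of_le (by positivity) h2
  refine ⟨h1, h2, ?_⟩
  rw [id, Real.norm_of_nonneg (sq_nonneg _), Real.norm_of_nonneg h4.le, one_div_mul_eq_div,
    le_div_iff₀ (by positivity)] at h3
  rw [th, div_le_iff₀ h4]
  nlinarith [sq_nonneg (Real.log (Real.log X))]

end LbdP

open LbdP

theorem pLbd (h : S_Piece) : S_Lbd := by
  intro B
  refine ⟨B + 3, fun H => ?_⟩
  obtain ⟨X1, h1⟩ := h B H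
  obtain ⟨X2, h2⟩ := eventually_atTop.1 (large B H)
  refine ⟨max X1 X2, fun X hX q _ ψ s hq s1 s2 s3 s4 => ?_⟩
  obtain ⟨x1, x2, x3⟩ := h2 X ((le_max_right _ _).trans hX)
  have hB : (0 : ℝ) ≤ B := Nat.cast_nonneg _
  have hL : 1 ≤ Real.log X := by linarith
  have hp : 1 ≤ Real.log X ^ B := one_le_pow₀ hL
  have key := fun (q : ℕ) [NeZero q] (ψ : DirichletCharacter ℂ q)
      (hq : (q : ℝ) ≤ Real.log X ^ B) =>
    core (f := fun n => ψ n) (s := s) (Q := cd q s) (D := B + 2) hL (by linarith) s1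
      (norm_le_one ψ _) (two_le_cond NeZero.one_le s) (by
        have c0 := two_le_cond (NeZero.one_le (n := q)) s
        have c1 : cd q s ≤ Real.log X ^ B * X ^ 2 :=
          mul_le_mul hq (by nlinarith) (by positivity) (by positivity)
        have c2 := Real.log_le_log (by linarith) c1
        rw [Real.log_mul (by positivity) (by positivity), Real.log_pow, Real.log_pow] at c2
        have c3 := Real.log_le_self (show 0 ≤ Real.log X by linarith)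
        push_cast at c2
        nlinarith)
      fun M N => h1 X ((le_max_left _ _).trans hX) q ψ s.im M N hq s3 s4
  have hK : (4 * (B + 2) + 2) * Real.log X ^ 2 + 8 ≤ Real.log X ^ 3 := by
    have : 1 ≤ Real.log X ^ 2 := one_le_pow₀ hL
    nlinarith
  rw [pow_add]
  by_cases hψ : ψ = 1
  · obtain ⟨N, n1, n2, n3, -, n5⟩ := key 1 1 (by simpa using hp)
    simp only [MulChar.one_apply (isUnit_of_subsingleton _), one_mul] at n2
    have hs1 : s ≠ 1 := by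
      rintro rfl
      norm_num at s3
    rw [hψ, ← LFunctionTrivChar, LFunctionTrivChar_eq_mul_riemannZeta hs1, norm_mul]
    exact mul_le_mul ((euler (NeZero.ne q) (by linarith)).trans hq)
      ((zeta (by linarith) s2 s3 n1 n2 n3 n5).trans hK) (norm_nonneg _) (by linarith)
  · obtain ⟨N, n1, n2, n3, n4, -⟩ := key q ψ hq
    have := nontriv hψ (by linarith) s2 n1 n2 n3 n4
    have h3 : 0 ≤ Real.log X ^ 3 := by positivity
    nlinarith

end Pool.Agent.P.MP_746f10_nt.AP
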