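import Pool.Agent.P.MP_746f10_nt.AP.VK

/-! The lemma of Linnik on systems of congruences for power sums. -/

namespace Pool.Agent.P.MP_746f10_nt.AP

open Finset

namespace LinnikP

/-- equal power sums give equal elementary symmetric functions -/
theorem esymm_eq {R : Type} [CommRing R] {k : ℕ} (X Y : Fin k → R)
    (hu : ∀ m : ℕ, 1 ≤ m → m ≤ k → IsUnit (m : R))
    (h : ∀ j, 1 ≤ j → j ≤ k → ∑ i, X i ^ j = ∑ i, Y i ^ j) (m : ℕ) (hm : m ≤ k) :
    MvPolynomial.aeval X (MvPolynomial.esymm (Fin k) R m) =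
      MvPolynomial.aeval Y (MvPolynomial.esymm (Fin k) R m) := by
  induction m using Nat.strong_induction_on with
  | _ m ih =>
    rcases Nat.eq_zero_or_pos m with rfl | h0
    · simp [MvPolynomial.esymm_zero]
    have N := MvPolynomial.mul_esymm_eq_sum (Fin k) R m
    have NX := congrArg (MvPolynomial.aeval X) N
    have NY := congrArg (MvPolynomial.aeval Y) N
    simp only [map_mul, map_natCast, map_sum, map_pow, map_neg, map_one] at NX NY
    refine (hu m h0 hm).mul_left_cancel ?_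
    rw [NX, NY]
    congr 1
    refine sum_congr rfl fun a ha => ?_
    simp only [mem_filter, HasAntidiagonal.mem_antidiagonal] at ha
    rw [ih a.1 ha.2 (by omega)]
    congr 1
    simp only [MvPolynomial.psum, map_sum, map_pow, MvPolynomial.aeval_X]
    exact h a.2 (by omega) (by omega)

theorem prod_eq_zero {R : Type} [CommRing R] {k : ℕ} (X Y : Fin k → R)
    (hu : ∀ m : ℕ, 1 ≤ m → m ≤ k → IsUnit (m : R))
    (h : ∀ j, 1 ≤ j → j ≤ k → ∑ i, X i ^ j = ∑ i, Y i ^ j) (j : Fin k) :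
    ∏ i, (Y j - X i) = 0 := by
  have e : ((univ.val.map X).map fun t => Polynomial.X - Polynomial.C t).prod =
      ((univ.val.map Y).map fun t => Polynomial.X - Polynomial.C t).prod := by
    rw [Multiset.prod_X_sub_X_eq_sum_esymm, Multiset.prod_X_sub_X_eq_sum_esymm]
    simp only [Multiset.card_map, card_val, card_univ, Fintype.card_fin]
    refine sum_congr rfl fun m hm => ?_
    have := esymm_eq X Y hu h m (by have := mem_range.1 hm; omega)
    rw [MvPolynomial.aeval_esymm_eq_multiset_esymm,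
      MvPolynomial.aeval_esymm_eq_multiset_esymm] at this
    rw [this]
  have e2 := congrArg (Polynomial.eval (Y j)) e
  simp only [Multiset.map_map, Function.comp_def] at e2
  change Polynomial.eval (Y j) (∏ i, (Polynomial.X - Polynomial.C (X i))) =
    Polynomial.eval (Y j) (∏ i, (Polynomial.X - Polynomial.C (Y i))) at e2
  simp only [Polynomial.eval_prod, Polynomial.eval_sub, Polynomial.eval_X,
    Polynomial.eval_C] at e2
  rw [e2]
  exact Finset.prod_eq_zero (mem_univ j) (sub_self _)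

theorem perm {k p : ℕ} (hp : p.Prime) (hk : k < p) (ξ : ℤ) (x y : Fin k → ℕ)
    (hx : ∀ i, x i ∈ Icc 1 (p ^ k)) (hy : ∀ i, y i ∈ Icc 1 (p ^ k))
    (dx : ∀ i i', x i ≡ x i' [MOD p] → i = i') (dy : ∀ i i', y i ≡ y i' [MOD p] → i = i')
    (h : ∀ j, 1 ≤ j → j ≤ k →
      ∑ i, ((x i : ℤ) - ξ) ^ j ≡ ∑ i, ((y i : ℤ) - ξ) ^ j [ZMOD ((p ^ k : ℕ) : ℤ)]) :
    ∃ σ : Equiv.Perm (Fin k), y = x ∘ σ := by
  have hpz : Prime (p : ℤ) := Nat.prime_iff_prime_int.1 hp
  have key : ∀ j, ∃ i, y j = x i := by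
    intro j
    have hk0 : 0 < k := j.pos
    have z := prod_eq_zero (R := ZMod (p ^ k)) (fun i => (((x i : ℤ) - ξ : ℤ) : ZMod (p ^ k)))
      (fun i => (((y i : ℤ) - ξ : ℤ) : ZMod (p ^ k)))
      (fun m h1 h2 => by
        rw [ZMod.isUnit_iff_coprime]
        exact ((Nat.Prime.coprime_iff_not_dvd hp).2
          (Nat.not_dvd_of_pos_of_lt h1 (by omega))).symm.pow_right k)
      (fun m h1 h2 => by
        have := (ZMod.intCast_eq_intCast_iff _ _ _).2 (h m h1 h2)
        simpa only [Int.cast_sum, Int.cast_pow] using this) j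
    have z2 : ((∏ i, ((y j : ℤ) - x i) : ℤ) : ZMod (p ^ k)) = 0 := by
      rw [Int.cast_prod, ← z]
      refine prod_congr rfl fun i _ => ?_
      push_cast; ring
    rw [ZMod.intCast_zmod_eq_zero_iff_dvd] at z2
    push_cast at z2
    obtain ⟨i, -, hi⟩ := (hpz.dvd_finsetProd_iff _).1 ((dvd_pow_self _ hk0.ne').trans z2)
    refine ⟨i, ?_⟩
    rw [← prod_erase_mul _ _ (mem_univ i)] at z2
    have nd : ¬ (p : ℤ) ∣ ∏ i' ∈ univ.erase i, ((y j : ℤ) - x i') := by
      intro hd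
      obtain ⟨i', hi', hd'⟩ := (hpz.dvd_finsetProd_iff _).1 hd
      refine (mem_erase.1 hi').1 (dx i' i ?_)
      rw [Nat.modEq_iff_dvd]
      have := dvd_sub hd' hi
      rwa [sub_sub_sub_cancel_left] at this
    have d := hpz.pow_dvd_of_dvd_mul_left k nd z2
    have a := mem_Icc.1 (hx i)
    have b := mem_Icc.1 (hy j)
    have a2 : (x i : ℤ) ≤ (p : ℤ) ^ k := by exact_mod_cast a.2
    have b2 : (y j : ℤ) ≤ (p : ℤ) ^ k := by exact_mod_cast b.2
    have := Int.eq_zero_of_abs_lt_dvd d (abs_lt.2 ⟨by omega, by omega⟩)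
    omega
  choose g hg using key
  have gi : Function.Injective g := fun j j' e => dy j j' (by rw [hg j, hg j', e])
  exact ⟨Equiv.ofBijective g (Finite.injective_iff_bijective.1 gi), funext hg⟩

theorem sum_sub (k : ℕ) : ∑ j : Fin k, (k - (j + 1)) = k * (k - 1) / 2 := by
  rw [Fin.sum_univ_eq_sum_range (fun j => k - (j + 1)) k, ← sum_range_id, ← sum_range_reflect]
  refine sum_congr rfl fun j hj => ?_
  have := mem_range.1 hj
  omega

end LinnikP

open LinnikP in
theorem pLinnik : S_Linnik := by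
  intro k p lam ξ hp hk
  have hp0 : (0 : ℤ) < p := by exact_mod_cast hp.pos
  let μ : (Fin k → ℕ) → Fin k → ℤ := fun x j =>
    ((∑ i, ((x i : ℤ) - ξ) ^ (j.1 + 1) - lam (j.1 + 1)) / (p : ℤ) ^ (j.1 + 1)) %
      (p : ℤ) ^ (k - (j.1 + 1))
  let t : Finset (Fin k → ℤ) := Fintype.piFinset fun j => Ico 0 ((p : ℤ) ^ (k - (j.1 + 1)))
  have ht : t.card = p ^ (k * (k - 1) / 2) := by
    rw [Fintype.card_piFinset, ← sum_sub, ← prod_pow_eq_pow_sum]
    refine prod_congr rfl fun j _ => ?_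
    rw [Int.card_Ico, sub_zero, ← Nat.cast_pow, Int.toNat_natCast]
  rw [← ht]
  refine card_le_mul_card_image_of_maps_to (f := μ) (fun x _ => ?_) _ (fun b _ => ?_)
  · refine Fintype.mem_piFinset.2 fun j => mem_Ico.2 ⟨?_, ?_⟩
    · exact Int.emod_nonneg _ (pow_pos hp0 _).ne'
    · exact Int.emod_lt_of_pos _ (pow_pos hp0 _)
  · rcases ((((tup k (Icc 1 (p ^ k))).filter (fun x => (∀ i i', x i ≡ x i' [MOD p] → i = i') ∧
      ∀ j ∈ Icc 1 k, ∑ i, ((x i : ℤ) - ξ) ^ j ≡ lam j [ZMOD (p : ℤ) ^ j]))).filter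
      (fun x => μ x = b)).eq_empty_or_nonempty with h0 | ⟨x, hx⟩
    · rw [h0]; exact Nat.zero_le _
    refine le_trans (card_le_card (t := univ.image fun σ : Equiv.Perm (Fin k) => x ∘ σ) ?_) ?_
    · intro y hy
      simp only [mem_filter, tup, Fintype.mem_piFinset] at hx hy
      obtain ⟨σ, hσ⟩ := perm hp hk ξ x y hx.1.1 hy.1.1 hx.1.2.1 hy.1.2.1 (fun j h1 h2 => by
        obtain ⟨j, rfl⟩ : ∃ j', j = j' + 1 := ⟨j - 1, by omega⟩
        have e := congrFun (hx.2.trans hy.2.symm) ⟨j, by omega⟩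
        simp only [μ] at e
        obtain ⟨a, ha⟩ := (hx.1.2.2 (j + 1) (mem_Icc.2 ⟨h1, h2⟩)).symm.dvd
        obtain ⟨c, hc⟩ := (hy.1.2.2 (j + 1) (mem_Icc.2 ⟨h1, h2⟩)).symm.dvd
        rw [ha, hc, Int.mul_ediv_cancel_left _ (pow_pos hp0 _).ne',
          Int.mul_ediv_cancel_left _ (pow_pos hp0 _).ne'] at e
        obtain ⟨d, hd⟩ := (show a ≡ c [ZMOD (p : ℤ) ^ (k - (j + 1))] from e).dvd
        refine Int.modEq_iff_dvd.2 ⟨d, ?_⟩
        have : ((p ^ k : ℕ) : ℤ) = (p : ℤ) ^ (j + 1) * (p : ℤ) ^ (k - (j + 1)) := by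
          rw [← pow_add, Nat.add_sub_cancel' h2, Nat.cast_pow]
        rw [this, mul_assoc, ← hd]
        linear_combination hc - ha)
      exact mem_image.2 ⟨σ, mem_univ _, hσ.symm⟩
    · refine card_image_le.trans ?_
      rw [card_univ, Fintype.card_perm, Fintype.card_fin]

end Pool.Agent.P.MP_746f10_nt.AP
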