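import Pool.Agent.P.MP_746f10_nt.AP.Base

/-! The convolution of a sequence with a block model is close to a row model. -/

namespace Pool.Agent.P.MP_746f10_nt.AP

open Finset Filter

namespace Mod2P

/-- indicator of the numbers near a multiple of `L` -/
noncomputable def nm (L D l : ℕ) : ℝ := if l % L < D ∨ L ≤ l % L + D then 1 else 0

lemma nm_nonneg (L D l : ℕ) : 0 ≤ nm L D l := by unfold nm; split_ifs <;> norm_num

lemma div_eq_of_far {L D l t : ℕ} (h1 : l ≤ t + D) (h2 : t ≤ l + D)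
    (h : ¬ (l % L < D ∨ L ≤ l % L + D)) : t / L = l / L := by
  have e := Nat.div_add_mod l L
  refine Nat.div_eq_of_lt_le ?_ ?_
  · rw [mul_comm]; omega
  · rw [add_mul, one_mul, mul_comm]; omega

lemma abs_sub_le_nm {L D l t : ℕ} {cf : ℕ → ℝ} (hcf : ∀ i, 0 ≤ cf i ∧ cf i ≤ 1) (h1 : l ≤ t + D)
    (h2 : t ≤ l + D) : |cf (l / L) - cf (t / L)| ≤ nm L D l := by
  unfold nm
  split_ifs with h
  · have := hcf (l / L)
    have := hcf (t / L)
    rw [abs_le]; constructor <;> linarith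
  · rw [div_eq_of_far h1 h2 h, sub_self, abs_zero]

lemma sum_nm (L D R : ℕ) : ∑ l ∈ range (L * R), nm L D l ≤ R * (2 * D) := by
  have e := sum_rows L 0 R (Nat.zero_le R) (nm L D)
  rw [mul_zero, ← range_eq_Ico, ← range_eq_Ico] at e
  rw [← e]
  refine (sum_le_card_nsmul _ _ (2 * D : ℝ) fun n _ => ?_).trans (by simp)
  have e1 : ∑ b ∈ range L, nm L D (L * n + b) =
      (((range L).filter fun b => b < D ∨ L ≤ b + D).card : ℝ) := by
    rw [card_filter, Nat.cast_sum]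
    refine sum_congr rfl fun b hb => ?_
    unfold nm
    rw [Nat.mul_add_mod, Nat.mod_eq_of_lt (mem_range.1 hb)]
    split_ifs <;> simp
  rw [e1]
  have h : ((range L).filter fun b => b < D ∨ L ≤ b + D) ⊆ range D ∪ Ico (L - D) L := by
    intro b hb
    rw [mem_filter, mem_range] at hb
    rw [mem_union, mem_range, mem_Ico]
    omega
  have h2 := (card_le_card h).trans (card_union_le _ _)
  rw [card_range, Nat.card_Ico] at h2
  have h3 : ((range L).filter fun b => b < D ∨ L ≤ b + D).card ≤ 2 * D := by omega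
  exact_mod_cast h3

lemma sum_dd_le (k Y : ℕ) (S : Finset ℕ) (F : ℕ → ℝ) (hF : ∀ l, 0 ≤ F l)
    (hS : ∀ m ∈ S, m / k < Y) : ∑ m ∈ S, dd m k * F (m / k) ≤ ∑ l ∈ range Y, F l := by
  have e : ∑ m ∈ S, dd m k * F (m / k) = ∑ m ∈ S.filter (k ∣ ·), F (m / k) := by
    rw [sum_filter]
    refine sum_congr rfl fun m _ => ?_
    unfold dd
    split_ifs <;> simp
  rw [e, ← sum_image (g := fun m => m / k) (f := F) fun x hx y hy h => by
    have hx' := (mem_filter.1 (mem_coe.1 hx)).2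
    have hy' := (mem_filter.1 (mem_coe.1 hy)).2
    rw [← Nat.mul_div_cancel' hx', ← Nat.mul_div_cancel' hy']
    exact congrArg (k * ·) h]
  refine sum_le_sum_of_subset_of_nonneg (fun l hl => ?_) fun _ _ _ => hF _
  obtain ⟨m, hm, rfl⟩ := mem_image.1 hl
  exact mem_range.2 (hS m (mem_filter.1 hm).1)

lemma cv_form {w K2 m : ℕ} {al : ℕ → ℝ} (F : ℕ → ℝ) (hal : ∀ k, 0 ≤ al k ∧ al k ≤ rr w k)
    (hs : ∀ k, al k ≠ 0 → k ≤ K2) (hm : m ≠ 0) :
    cv al (fun l => rr w l * F l) m = rr w m * ∑ k ∈ Icc 1 K2, al k * dd m k * F (m / k) := by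
  rw [cv_eq_divisors, mul_sum,
    ← sum_subset (s₁ := m.divisors ∩ Icc 1 K2) inter_subset_left fun k hk hk' => ?_,
    ← sum_subset (s₁ := m.divisors ∩ Icc 1 K2) inter_subset_right fun k hk hk' => ?_]
  · refine sum_congr rfl fun k hk => ?_
    have hd := Nat.dvd_of_mem_divisors (mem_inter.1 hk).1
    by_cases h0 : al k = 0
    · simp [h0]
    · have e : rr w m = rr w (m / k) := by
        conv_lhs => rw [← Nat.mul_div_cancel' hd, rr_mul, rr_of_rough (rough_of_le_rr (hal k) h0),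
          one_mul]
      unfold dd
      rw [if_pos hd, e]; ring
  · have : ¬ k ∣ m := fun hd => hk' (mem_inter.2 ⟨Nat.mem_divisors.2 ⟨hd, hm⟩, hk⟩)
    unfold dd
    rw [if_neg this]; simp
  · have : al k = 0 := by
      by_contra h0
      exact hk' (mem_inter.2 ⟨hk, mem_Icc.2 ⟨Nat.pos_of_mem_divisors hk, hs k h0⟩⟩)
    rw [this, zero_mul]

/-- the cofactor is close to the value attached to the blocks -/
lemma close {a Q K K' hh D m k : ℕ} (ha : 0 < a) (hK' : 0 < K') (hKK : 2 * K' ≤ K) (hhh : 0 < hh)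
    (h1 : 2 * a * hh ≤ K * D) (h2 : 4 * K' * (a * Q) ≤ D * K ^ 2) (hm : m < a * (2 * Q))
    (hk : K < k) (hd : k ∣ m) :
    m / k ≤ a * (m / a / hh * hh) / (k / K' * K') + D ∧
      a * (m / a / hh * hh) / (k / K' * K') ≤ m / k + D := by
  have hl : k * (m / k) = m := Nat.mul_div_cancel' hd
  have a1 : k / K' * K' ≤ k := Nat.div_mul_le_self k K'
  have a2 : k < k / K' * K' + K' := Nat.lt_div_mul_add hK'
  have a3 : m / a / hh * hh ≤ m / a := Nat.div_mul_le_self _ hh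
  have a4 : m / a < m / a / hh * hh + hh := Nat.lt_div_mul_add hhh
  have a5 : m / a * a ≤ m := Nat.div_mul_le_self m a
  have a6 : m < m / a * a + a := Nat.lt_div_mul_add ha
  generalize m / a / hh * hh = s at *
  generalize k / K' * K' = k' at *
  generalize m / a = n at *
  generalize m / k = l at *
  have b0 : K ≤ 2 * k' := by omega
  have b1 : 0 < k' := by omega
  have b2 : a * s / k' * k' ≤ a * s := Nat.div_mul_le_self _ _
  have b3 : a * s < a * s / k' * k' + k' := Nat.lt_div_mul_add b1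
  generalize a * s / k' = t at *
  have b4 : a * s ≤ m := (Nat.mul_le_mul_left a a3).trans (by rw [mul_comm]; exact a5)
  have b5 : m < a * s + a * hh := by
    have : a * (n + 1) ≤ a * (s + hh) := Nat.mul_le_mul_left a a4
    nlinarith
  constructor
  · by_contra h
    have c1 : k' * (t + 1 + D) ≤ k * l := Nat.mul_le_mul a1 (by omega)
    have c2 : K * D ≤ 2 * k' * D := Nat.mul_le_mul_right D b0
    nlinarith
  · by_contra h
    have c1 : (l + D + 1) * k' ≤ t * k' := Nat.mul_le_mul_right k' (by omega)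
    have c2 : k * l ≤ (k' + K') * l := Nat.mul_le_mul_right l a2.le
    have c3 : (D + 1) * k' ≤ K' * l := by nlinarith
    have c4 : K * l ≤ k * l := Nat.mul_le_mul_right l hk.le
    have c5 : (D + 1) * K ≤ 2 * (K' * l) := by nlinarith
    have c6 : (D + 1) * K * K ≤ 2 * (K' * l) * K := Nat.mul_le_mul_right K c5
    have c7 : K' * (K * l) ≤ K' * (a * (2 * Q)) := Nat.mul_le_mul_left K' (by omega)
    have c8 : 0 < K * K := Nat.mul_pos (by omega) (by omega)
    nlinarith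

lemma core {a Q w K K2 K' hh L D R : ℕ} {al cf : ℕ → ℝ} {δ E : ℝ} (ha : 0 < a) (hQ : 0 < Q)
    (hK' : 0 < K') (hKK : 2 * K' ≤ K) (hhh : 0 < hh) (h1 : 2 * a * hh ≤ K * D)
    (h2 : 4 * K' * (a * Q) ≤ D * K ^ 2) (hR : a * (2 * Q) ≤ K * (L * R))
    (hE : (K2 : ℝ) * (R * (2 * D)) ≤ E * a * Q) (hal : ∀ k, 0 ≤ al k ∧ al k ≤ rr w k)
    (hs : ∀ k, al k ≠ 0 → K < k ∧ k ≤ K2) (hcf : ∀ i, 0 ≤ cf i ∧ cf i ≤ 1)
    (hT : ∀ lam' : ℕ → ℝ, (∀ g, |lam' g| ≤ 1) → (∀ g, lam' g ≠ 0 → rough w g) →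
      SmallR a Q (fun m => rr w m * ∑ g ∈ Icc 1 K2, lam' g * (dd m g - 1 / g)) δ) :
    Approx a Q w hh (cv al fun l => rr w l * cf (l / L)) (E + (K2 / K' + 1 : ℕ) * δ) := by
  let φ : ℕ → ℕ → ℝ := fun i s => cf (a * (s * hh) / (i * K') / L)
  have hal1 : ∀ k, al k ≤ 1 := fun k => (hal k).2.trans (rr_bd w k).2
  have hA : SmallR a Q (fun m => rr w m * ∑ k ∈ Icc 1 K2,
      al k * dd m k * (cf (m / k / L) - φ (k / K') (m / a / hh))) E := by
    refine smallR_of_l1 (le_trans ?_ hE)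
    calc ∑ m ∈ Ico (a * Q) (a * (2 * Q)), |rr w m * ∑ k ∈ Icc 1 K2,
          al k * dd m k * (cf (m / k / L) - φ (k / K') (m / a / hh))|
        ≤ ∑ m ∈ Ico (a * Q) (a * (2 * Q)), ∑ k ∈ Icc 1 K2, al k * (dd m k * nm L D (m / k)) := by
          refine sum_le_sum fun m hm => ?_
          rw [abs_mul, abs_of_nonneg (rr_bd w m).1]
          refine (mul_le_of_le_one_left (abs_nonneg _) (rr_bd w m).2).trans
            ((abs_sum_le_sum_abs _ _).trans (sum_le_sum fun k _ => ?_))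
          by_cases h0 : al k = 0
          · simp [h0]
          by_cases hd : k ∣ m
          · rw [abs_mul, abs_of_nonneg (mul_nonneg (hal k).1 (dd_bd m k).1), mul_assoc]
            have hc := close ha hK' hKK hhh h1 h2 (mem_Ico.1 hm).2 (hs k h0).1 hd
            exact mul_le_mul_of_nonneg_left (mul_le_mul_of_nonneg_left
              (abs_sub_le_nm hcf hc.1 hc.2) (dd_bd m k).1) (hal k).1
          · unfold dd
            simp [hd]
      _ = ∑ k ∈ Icc 1 K2, al k * ∑ m ∈ Ico (a * Q) (a * (2 * Q)), dd m k * nm L D (m / k) := by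
          rw [sum_comm]
          exact sum_congr rfl fun k _ => (mul_sum _ _ _).symm
      _ ≤ ∑ _k ∈ Icc 1 K2, (R * (2 * D) : ℝ) := by
          refine sum_le_sum fun k _ => ?_
          by_cases h0 : al k = 0
          · rw [h0, zero_mul]; positivity
          refine (mul_le_of_le_one_left (sum_nonneg fun m _ =>
            mul_nonneg (dd_bd m k).1 (nm_nonneg _ _ _)) (hal1 k)).trans
            ((sum_dd_le k (L * R) _ _ (nm_nonneg L D) fun m hm => ?_).trans (sum_nm L D R))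
          have hk := (hs k h0).1
          refine Nat.div_lt_of_lt_mul (lt_of_lt_of_le (mem_Ico.1 hm).2 (hR.trans ?_))
          exact Nat.mul_le_mul_right _ hk.le
      _ = _ := by simp
  have hB : SmallR a Q (fun m => ∑ i ∈ range (K2 / K' + 1), φ i (m / a / hh) *
      (rr w m * ∑ g ∈ Icc 1 K2, (if g / K' = i then al g else 0) * (dd m g - 1 / g)))
      (∑ _i ∈ range (K2 / K' + 1), 1 * δ) := by
    refine smallR_sum _ _ _ fun i _ => ?_
    refine SmallR.mul_row (hT _ (fun g => ?_) fun g hg => ?_) (φ := fun n => φ i (n / hh)) one_pos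
      fun n => ?_
    · split_ifs
      · rw [abs_of_nonneg (hal g).1]; exact hal1 g
      · simp
    · split_ifs at hg
      · exact rough_of_le_rr (hal g) hg
      · exact absurd rfl hg
    · rw [abs_of_nonneg (hcf _).1]; exact (hcf _).2
  refine ⟨fun s => ∑ k ∈ Icc 1 K2, al k * φ (k / K') s / k, ((hA.add hB).mono (le_of_eq ?_)).congr
    fun n hn b _ => ?_⟩
  · simp
  have hm : a * n + b ≠ 0 := by
    have := Nat.mul_pos ha (hQ.trans_le (mem_Ico.1 hn).1)
    omega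
  generalize a * n + b = m at hm
  have e : ∑ i ∈ range (K2 / K' + 1), φ i (m / a / hh) *
      (rr w m * ∑ g ∈ Icc 1 K2, (if g / K' = i then al g else 0) * (dd m g - 1 / g)) =
      rr w m * ∑ g ∈ Icc 1 K2, φ (g / K') (m / a / hh) * al g * (dd m g - 1 / g) := by
    simp only [mul_sum]
    rw [sum_comm]
    refine sum_congr rfl fun g hg => ?_
    rw [sum_eq_single (g / K')]
    · rw [if_pos rfl]; ring
    · intro i _ hi
      rw [if_neg hi.symm]; ring
    · intro h
      exact absurd (mem_range.2 (Nat.lt_succ_of_le (Nat.div_le_div_right (mem_Icc.1 hg).2))) h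
  rw [e, cv_form (fun l => cf (l / L)) hal (fun k hk => (hs k hk).2) hm, mul_comm _ (rr w m),
    ← mul_sub, ← mul_add, ← sum_sub_distrib, ← sum_add_distrib]
  congr 1
  exact sum_congr rfl fun k _ => by ring

end Mod2P

theorem pMod2 (h : S_TIM) : S_Mod2 := by
  intro u A CL
  obtain ⟨Cw0, h0⟩ := h (A + (A + CL + 1) + 1)
  refine ⟨A + CL + 1, Cw0, fun Cw => ?_⟩
  obtain ⟨Q1, h1⟩ := h0 Cw
  obtain ⟨Q2, h2⟩ := ev_lg ((ev_pow_le_two_pow (4 ^ 5) ((A + CL + 1) * 5)).and
    (eventually_ge_atTop (80 * 2 ^ (3 * u))))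
  refine ⟨max Q1 Q2, fun Q a w K L al cf hQ ha hQa haQ hw hw' hal hs hK hK2 hcf hL => ?_⟩
  obtain ⟨g1, g2⟩ := h2 Q (le_of_max_le_right hQ)
  have hT := fun lam' => h1 Q a w (2 ^ (3 * u) * K) lam' (le_of_max_le_left hQ) ha hQa haQ hw hw'
    hK2
  have hΛ : 0 < 2 ^ (3 * u) := Nat.two_pow_pos _
  have hom : 0 < om Q := Nat.two_pow_pos _
  have hQ0 : 0 < Q := by
    rcases Nat.eq_zero_or_pos Q with rfl | h
    · simp [lg] at g2
    · exact h
  have hgQ := two_pow_lg_le hQ0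
  generalize 2 ^ (3 * u) = Λ at *
  generalize lg Q = g at *
  have hg : 2 ≤ g := by omega
  have hM2 : 2 ≤ g ^ (A + CL + 1) := hg.trans (Nat.le_self_pow (by omega) g)
  have hMK : g ^ (A + CL + 1) ≤ K := by
    have e1 : (4 * g ^ (A + CL + 1)) ^ 5 ≤ (4 * K) ^ 5 := by
      rw [mul_pow, ← pow_mul]
      exact g1.trans (hgQ.trans ((Nat.le_self_pow (by norm_num) Q).trans hK))
    have := (Nat.pow_le_pow_iff_left (by norm_num)).1 e1
    omega
  have hKQ : K ≤ Q := le_trans (le_trans (Nat.le_mul_of_pos_left K hΛ)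
    (Nat.le_mul_of_pos_right _ hom)) hK2
  have hMr : ((g ^ (A + CL + 1) : ℕ) : ℝ) = (g : ℝ) ^ A * (g : ℝ) ^ CL * g := by
    push_cast; ring
  have hMr' : (g : ℝ) ^ (A + (A + CL + 1) + 1) = (g : ℝ) ^ A * (g ^ (A + CL + 1) : ℕ) * g := by
    push_cast; ring
  rw [hMr'] at hT
  generalize g ^ (A + CL + 1) = M at *
  have hM0 : 0 < M := by omega
  have hK0 : 0 < K := by omega
  have a1 : K / M * M ≤ K := Nat.div_mul_le_self K M
  have a2 : K < K / M * M + M := Nat.lt_div_mul_add hM0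
  have a3 : Q / M * M ≤ Q := Nat.div_mul_le_self Q M
  have a4 : 0 < K / M := Nat.div_pos hMK hM0
  have a5 : 0 < Q / M := Nat.div_pos (hMK.trans hKQ) hM0
  have a6 : 4 * (a * Q) / (K * M) * (K * M) ≤ 4 * (a * Q) := Nat.div_mul_le_self _ _
  have a7 : 4 * (a * Q) < 4 * (a * Q) / (K * M) * (K * M) + K * M :=
    Nat.lt_div_mul_add (Nat.mul_pos hK0 hM0)
  have a8 : K * M ≤ a * Q := Nat.mul_le_mul (hKQ.trans hQa) (hMK.trans hKQ)
  generalize 4 * (a * Q) / (K * M) = D at *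
  generalize Q / M = hh at *
  generalize K / M = K' at *
  have b1 : 2 * K' ≤ K := le_trans (by rw [mul_comm]; exact Nat.mul_le_mul_left K' hM2) a1
  have b2 : 2 * a * hh ≤ K * (D + 1) := by
    refine Nat.le_of_mul_le_mul_right ?_ hM0
    have := Nat.mul_le_mul_left a a3
    nlinarith
  have b3 : 4 * K' * (a * Q) ≤ (D + 1) * K ^ 2 := by
    have c1 : K' * (4 * (a * Q)) ≤ K' * ((D + 1) * (K * M)) :=
      Nat.mul_le_mul_left K' (by nlinarith)
    have c2 : (D + 1) * K * (K' * M) ≤ (D + 1) * K * K := Nat.mul_le_mul_left _ a1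
    nlinarith
  have b4 : a * (2 * Q) ≤ K * (L * (4 * g ^ CL)) := by
    have := Nat.mul_le_mul_right Q haQ
    nlinarith
  have b5 : Λ * K / K' + 1 ≤ 3 * Λ * M := by
    have c1 : K ≤ 2 * M * K' := by
      have := Nat.le_mul_of_pos_left M a4
      nlinarith
    have c2 : Λ * K / K' ≤ 2 * Λ * M := by
      refine Nat.div_le_of_le_mul ?_
      have := Nat.mul_le_mul_left Λ c1
      nlinarith
    have c3 : 0 < Λ * M := Nat.mul_pos hΛ hM0
    nlinarith
  have b6 : (D + 1) * (K * M) ≤ 5 * (a * Q) := by nlinarith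
  have gr : (80 * Λ : ℝ) ≤ g := by exact_mod_cast g2
  have g0 : (0 : ℝ) < g := by exact_mod_cast (by omega : 0 < g)
  have gA : (0 : ℝ) < (g : ℝ) ^ A := by positivity
  have gC : (0 : ℝ) < (g : ℝ) ^ CL := by positivity
  have M0 : (0 : ℝ) < M := by exact_mod_cast hM0
  have Λ0 : (0 : ℝ) < Λ := by exact_mod_cast hΛ
  refine (Mod2P.core (E := 1 / (2 * (g : ℝ) ^ A)) ha.pos hQ0 a4 b1 a5 b2 b3 b4 ?_ hal hs hcf
    hT).mono ?_
  · have c1 : ((D + 1 : ℕ) : ℝ) * (K * M) ≤ 5 * (a * Q) := by exact_mod_cast b6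
    have c0 : (0 : ℝ) ≤ ((D + 1 : ℕ) : ℝ) * K * (g : ℝ) ^ A * (g : ℝ) ^ CL := by positivity
    have c2 := mul_le_mul_of_nonneg_left gr c0
    rw [hMr] at c1
    rw [mul_assoc (1 / _ : ℝ), one_div_mul_eq_div, le_div_iff₀ (by positivity)]
    push_cast at c1 c2 ⊢
    nlinarith
  · have c1 : ((Λ * K / K' + 1 : ℕ) : ℝ) ≤ 3 * Λ * M := by exact_mod_cast b5
    have c2 : ((Λ * K / K' + 1 : ℕ) : ℝ) * (1 / ((g : ℝ) ^ A * M * g)) ≤ 1 / (2 * (g : ℝ) ^ A) := by
      rw [mul_one_div, div_le_div_iff₀ (by positivity) (by positivity)]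
      have c3 : (0 : ℝ) ≤ (g : ℝ) ^ A * M := by positivity
      have c4 := mul_le_mul_of_nonneg_left (show (6 * Λ : ℝ) ≤ g by linarith) c3
      have c5 := mul_le_mul_of_nonneg_right c1 gA.le
      nlinarith
    have c3 : 1 / (g : ℝ) ^ A = 1 / (2 * (g : ℝ) ^ A) + 1 / (2 * (g : ℝ) ^ A) := by
      field_simp; ring
    rw [c3]
    linarith

end Pool.Agent.P.MP_746f10_nt.AP
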