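import Pool.Agent.P.MP_746f10_nt.AP.VK
import Pool.Agent.P.MP_a14ce1_nt.Ch.VdC

/-! Twisted exponential sums over a dyadic block. -/

namespace Pool.Agent.P.MP_746f10_nt.AP

open Finset Filter
open Pool.Agent.P.MP_a14ce1_nt
open Pool.Agent.P.MP_a14ce1_nt.Ch (nit norm_nit nit_mul)

namespace PieceP

theorem pre_le (f : ℕ → ℂ) (hf : ∀ n, ‖f n‖ ≤ 1) {x y : ℕ} (h : x ≤ y) :
    ‖∑ n ∈ range y, f n - ∑ n ∈ range x, f n‖ ≤ (y : ℝ) - x := by
  rw [← sum_Ico_eq_sub f h]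
  refine (norm_sum_le _ _).trans ((sum_le_sum fun n _ => hf n).trans ?_)
  simp [Nat.cast_sub h]

theorem pre_abs (f : ℕ → ℂ) (hf : ∀ n, ‖f n‖ ≤ 1) {x y q : ℕ} (h1 : x ≤ y + q) (h2 : y ≤ x + q) :
    ‖∑ n ∈ range y, f n - ∑ n ∈ range x, f n‖ ≤ q := by
  have c1 : (x : ℝ) ≤ y + q := by exact_mod_cast h1
  have c2 : (y : ℝ) ≤ x + q := by exact_mod_cast h2
  rcases le_total x y with h | h
  · linarith [pre_le f hf h]
  · rw [norm_sub_rev]
    linarith [pre_le f hf h]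

theorem blocks (f : ℕ → ℂ) (q K : ℕ) : ∀ N, K ≤ N →
    ∑ n ∈ range (q * (N + 1)), f n - ∑ n ∈ range (q * (K + 1)), f n =
      ∑ m ∈ Ioc K N, ∑ r ∈ range q, f (q * m + r) := by
  intro N hN
  induction N, hN using Nat.le_induction with
  | base => simp
  | succ N hN ih =>
    rw [sum_Ioc_succ_top hN, ← ih, Nat.mul_succ q (N + 1), sum_range_add]
    ring

theorem classes {q : ℕ} [NeZero q] (ψ : DirichletCharacter ℂ q) (t : ℝ) {M N : ℕ} (h1 : M ≤ N)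
    (h2 : N ≤ 2 * M) {E : ℝ} (hE : ∀ (N' : ℕ) (β : ℝ), M / q ≤ N' → N' ≤ 2 * (M / q) → 0 ≤ β →
      β ≤ 1 → ‖∑ m ∈ Ioc (M / q) N', nit t (m + β)‖ ≤ E) :
    ‖∑ n ∈ Ioc M N, ψ n * nit t n‖ ≤ q * E + 2 * q := by
  have hq : 0 < q := Nat.pos_of_ne_zero (NeZero.ne q)
  have hqr : (0 : ℝ) < q := by exact_mod_cast hq
  set f : ℕ → ℂ := fun n => ψ n * nit t n with hf
  have hf1 : ∀ n, ‖f n‖ ≤ 1 := fun n => by
    simp only [hf, norm_mul, norm_nit, mul_one]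
    exact ψ.norm_le_one _
  obtain ⟨K, hK⟩ : ∃ K, K = M / q := ⟨_, rfl⟩
  obtain ⟨N1, hN1⟩ : ∃ N1, N1 = N / q := ⟨_, rfl⟩
  have a1 : q * K ≤ M := hK ▸ Nat.mul_div_le M q
  have a2 : M < q * (K + 1) := hK ▸ Nat.lt_mul_div_succ M hq
  have a3 : q * N1 ≤ N := hN1 ▸ Nat.mul_div_le N q
  have a4 : N < q * (N1 + 1) := hN1 ▸ Nat.lt_mul_div_succ N hq
  have a5 : K ≤ N1 := hK ▸ hN1 ▸ Nat.div_le_div_right h1
  have a6 : N1 < 2 * K + 2 := Nat.lt_of_mul_lt_mul_left (a := q) (by nlinarith)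
  rw [← hK] at hE
  obtain ⟨N2, b1, b2, b3, b4⟩ : ∃ N2, K ≤ N2 ∧ N2 ≤ 2 * K ∧ N + 1 ≤ q * (N2 + 1) + q ∧
      q * (N2 + 1) ≤ N + 1 + q := by
    by_cases h : N1 ≤ 2 * K
    · exact ⟨N1, a5, h, by omega, by nlinarith⟩
    · obtain rfl : N1 = 2 * K + 1 := by omega
      exact ⟨2 * K, by omega, le_rfl, by nlinarith, by omega⟩
  have e1 : ∑ n ∈ Ioc M N, f n = ∑ n ∈ range (N + 1), f n - ∑ n ∈ range (M + 1), f n := by
    rw [← sum_Ico_eq_sub f (by omega), Finset.Ico_add_one_add_one_eq_Ioc]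
  have e2 : ‖∑ m ∈ Ioc K N2, ∑ r ∈ range q, f (q * m + r)‖ ≤ q * E := by
    rw [sum_comm]
    refine (norm_sum_le _ _).trans ((sum_le_sum (g := fun _ => E) fun r hr => ?_).trans (by simp))
    have hr' : (r : ℝ) ≤ q := by exact_mod_cast (mem_range.1 hr).le
    have e3 : ∑ m ∈ Ioc K N2, f (q * m + r) =
        ψ r * nit t q * ∑ m ∈ Ioc K N2, nit t (m + (r : ℝ) / q) := by
      rw [mul_sum]
      refine sum_congr rfl fun m hm => ?_
      have hm0 : (0 : ℝ) < m := by exact_mod_cast (Nat.zero_le K).trans_lt (mem_Ioc.1 hm).1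
      have hpos : (0 : ℝ) < m + (r : ℝ) / q := by positivity
      have e4 : ((q * m + r : ℕ) : ℝ) = q * (m + (r : ℝ) / q) := by
        push_cast
        field_simp
      simp only [hf]
      rw [e4, nit_mul t hqr.ne' hpos.ne', mul_assoc]
      congr 2
      simp
    rw [e3, norm_mul, norm_mul, norm_nit, mul_one]
    have h3 := hE N2 (r / q) b1 b2 (by positivity) ((div_le_one hqr).2 hr')
    calc _ ≤ 1 * E := mul_le_mul (ψ.norm_le_one _) h3 (norm_nonneg _) zero_le_one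
      _ = E := one_mul E
  rw [← blocks f q K N2 b1] at e2
  have e5 := pre_abs f hf1 (x := q * (N2 + 1)) (y := N + 1) (q := q) b4 b3
  have e6 := pre_abs f hf1 (x := M + 1) (y := q * (K + 1)) (q := q) (by omega) (by nlinarith)
  rw [e1]
  calc _ = ‖(∑ n ∈ range (q * (N2 + 1)), f n - ∑ n ∈ range (q * (K + 1)), f n) +
        (∑ n ∈ range (N + 1), f n - ∑ n ∈ range (q * (N2 + 1)), f n) +
        (∑ n ∈ range (q * (K + 1)), f n - ∑ n ∈ range (M + 1), f n)‖ := by congr 1; ring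
    _ ≤ _ := norm_add₃_le
    _ ≤ _ := by linarith

theorem small {c C θ t β : ℝ} {K N : ℕ} (hc : 0 < c) (hc2 : c ≤ 1 / 2) (hC : 0 < C) (hK : 1 ≤ K)
    (h1 : K ≤ N) (h2 : N ≤ 2 * K) (hβ : 0 ≤ β) (hβ1 : β ≤ 1)
    (hV : ‖∑ m ∈ Ioc K N, nit t (m + β) - ∫ s in (K : ℝ)..N, nit t (s + β)‖ ≤
      C * (N : ℝ) ^ (1 - c))
    (hθ : 4 * θ ≤ c) (ha : 4 * C ≤ (K : ℝ) ^ (c / 2)) (hb : 10 * (K : ℝ) ^ (1 / 4 : ℝ) ≤ |t|) :
    ‖∑ m ∈ Ioc K N, nit t (m + β)‖ ≤ (K : ℝ) ^ (1 - 2 * θ) := by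
  have k1 : (1 : ℝ) ≤ K := by exact_mod_cast hK
  have k0 : (0 : ℝ) < K := by linarith
  have n1 : (K : ℝ) ≤ N := by exact_mod_cast h1
  have n2 : (N : ℝ) ≤ 2 * K := by exact_mod_cast h2
  have z0 : 0 < (K : ℝ) ^ (1 / 4 : ℝ) := Real.rpow_pos_of_pos k0 _
  have t0 : 0 < |t| := by linarith
  have hI := Ch.VdC.int_large t β hβ (abs_pos.1 t0) k0 n1
  have p1 : (N : ℝ) ^ (1 - c) ≤ 2 * (K : ℝ) ^ (1 - c) := by
    calc (N : ℝ) ^ (1 - c) ≤ (2 * K : ℝ) ^ (1 - c) :=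
          Real.rpow_le_rpow (by linarith) n2 (by linarith)
      _ = (2 : ℝ) ^ (1 - c) * (K : ℝ) ^ (1 - c) := Real.mul_rpow (by norm_num) k0.le
      _ ≤ (2 : ℝ) ^ (1 : ℝ) * (K : ℝ) ^ (1 - c) := by
          gcongr
          · norm_num
          · linarith
      _ = _ := by rw [Real.rpow_one]
  have p2 : (K : ℝ) ^ (c / 2) * (K : ℝ) ^ (1 - c) ≤ (K : ℝ) ^ (1 - 2 * θ) := by
    rw [← Real.rpow_add k0]
    exact Real.rpow_le_rpow_of_exponent_le k1 (by linarith)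
  have p3 : (K : ℝ) ≤ (K : ℝ) ^ (1 - 2 * θ) * (K : ℝ) ^ (1 / 4 : ℝ) := by
    rw [← Real.rpow_add k0]
    calc (K : ℝ) = (K : ℝ) ^ (1 : ℝ) := (Real.rpow_one _).symm
      _ ≤ _ := Real.rpow_le_rpow_of_exponent_le k1 (by linarith)
  have y0 : 0 < (K : ℝ) ^ (1 - c) := Real.rpow_pos_of_pos k0 _
  have w0 : 0 < (K : ℝ) ^ (1 - 2 * θ) := Real.rpow_pos_of_pos k0 _
  have p4 : ((K : ℝ) + β + (N + β)) / |t| ≤ (K : ℝ) ^ (1 - 2 * θ) / 2 := by
    rw [div_le_iff₀ t0]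
    nlinarith [mul_le_mul_of_nonneg_left hb w0.le]
  have p5 : C * (N : ℝ) ^ (1 - c) ≤ (K : ℝ) ^ (1 - 2 * θ) / 2 := by
    nlinarith [mul_le_mul_of_nonneg_left p1 hC.le, mul_le_mul_of_nonneg_right ha y0.le]
  have p6 := norm_add_le (∑ m ∈ Ioc K N, nit t (m + β) - ∫ s in (K : ℝ)..N, nit t (s + β))
    (∫ s in (K : ℝ)..N, nit t (s + β))
  rw [sub_add_cancel] at p6
  linarith

theorem large {c C θ u L W : ℝ} {K : ℕ} (hc : 0 < c) (hC : 0 < C) (hK : 2 ≤ K)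
    (hu : (K : ℝ) ^ 11 ≤ u) (hu2 : Real.log u ≤ 2 * L) (hL : 2 ≤ L) (hW : 1 ≤ W)
    (hLW : Real.log L ≤ W) (hκ : 2 * L ≤ Real.log K * W) (h8 : (C + 1) * W ^ 8 ≤ c * L)
    (hθ : 16 * θ * L ≤ W ^ 2) :
    ∃ k : ℕ, 10 ≤ k ∧ (K : ℝ) ^ k ≤ u ∧ u ≤ (K : ℝ) ^ (k + 1) ∧
      Real.exp (C * (k : ℝ) ^ 5) * (1 + Real.log K) * (K : ℝ) ^ (1 - c / (k : ℝ) ^ 2) ≤
        (K : ℝ) ^ (1 - 2 * θ) := by
  have k1 : (1 : ℝ) < K := by exact_mod_cast hK
  have k0 : (0 : ℝ) < K := by linarith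
  have u0 : 0 < u := (pow_pos k0 11).trans_le hu
  have κ0 : 0 < Real.log K := Real.log_pos k1
  have l1 : 11 * Real.log K ≤ Real.log u := by
    have := Real.log_le_log (pow_pos k0 11) hu
    rwa [Real.log_pow, Nat.cast_ofNat] at this
  obtain ⟨k, hk⟩ : ∃ k : ℕ, k = ⌊Real.log u / Real.log K⌋₊ := ⟨_, rfl⟩
  have f1 : 11 ≤ k := hk ▸ Nat.le_floor (by rw [le_div_iff₀ κ0]; exact_mod_cast l1)
  have f2 : (k : ℝ) * Real.log K ≤ Real.log u := by
    rw [← le_div_iff₀ κ0, hk]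
    exact Nat.floor_le (div_nonneg (by linarith) κ0.le)
  have f3 : Real.log u ≤ ((k : ℝ) + 1) * Real.log K := by
    rw [← div_le_iff₀ κ0, hk]
    exact (Nat.lt_floor_add_one _).le
  have kr : (0 : ℝ) < k := by exact_mod_cast (by omega : 0 < k)
  have f4 : (k : ℝ) ≤ W := le_of_mul_le_mul_right (by linarith) κ0
  refine ⟨k, by omega, ?_, ?_, ?_⟩
  · rw [← Real.log_le_log_iff (pow_pos k0 k) u0, Real.log_pow]
    exact f2
  · rw [← Real.log_le_log_iff u0 (pow_pos k0 _), Real.log_pow]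
    exact_mod_cast f3
  have W0 : 0 < W := by linarith
  have g1 : 1 + Real.log K ≤ Real.exp W := by
    have := Real.exp_le_exp.2 hLW
    rw [Real.exp_log (by linarith)] at this
    linarith
  have g2 : c / W ^ 2 ≤ c / (k : ℝ) ^ 2 := by gcongr
  have g3 : (k : ℝ) ^ 5 ≤ W ^ 5 := by gcongr
  have g4 : W ≤ W ^ 5 := le_self_pow₀ hW (by norm_num)
  have g5 : W ^ 4 ≤ W ^ 8 := pow_le_pow_right₀ hW (by norm_num)
  have g6 : (C + 1) * W ^ 5 ≤ Real.log K * (c / W ^ 2) / 2 := by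
    refine le_of_mul_le_mul_right ?_ (pow_pos W0 3)
    have : Real.log K * (c / W ^ 2) / 2 * W ^ 3 = c * (Real.log K * W) / 2 := by field_simp
    rw [this]
    nlinarith [mul_le_mul_of_nonneg_left hκ hc.le]
  have g7 : 4 * θ ≤ c / W ^ 2 := by
    rw [le_div_iff₀ (by positivity)]
    refine le_of_mul_le_mul_right ?_ (show 0 < L by linarith)
    nlinarith [mul_le_mul_of_nonneg_right hθ (sq_nonneg W), mul_pos hC (pow_pos W0 8),
      pow_pos W0 4]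
  calc _ ≤ Real.exp (C * W ^ 5) * Real.exp W * (K : ℝ) ^ (1 - c / (k : ℝ) ^ 2) := by gcongr
    _ = Real.exp (C * W ^ 5 + W + Real.log K * (1 - c / (k : ℝ) ^ 2)) := by
        rw [Real.rpow_def_of_pos k0, ← Real.exp_add, ← Real.exp_add]
    _ ≤ _ := by
        rw [Real.rpow_def_of_pos k0, Real.exp_le_exp]
        nlinarith [mul_le_mul_of_nonneg_left g2 κ0.le, mul_le_mul_of_nonneg_left g7 κ0.le]

theorem evW (H n : ℕ) (D : ℝ) {c : ℝ} (hc : 0 < c) : ∀ᶠ X : ℝ in atTop,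
    D * (4 * H * Real.log (Real.log X)) ^ n ≤ c * Real.log X := by
  have h1 := ((Real.isLittleO_pow_log_id_atTop (n := n)).const_mul_left
    (D * (4 * H) ^ n)).bound hc
  filter_upwards [Real.tendsto_log_atTop.eventually h1,
    Real.tendsto_log_atTop.eventually_ge_atTop 0] with X h h0
  rw [id, Real.norm_of_nonneg h0] at h
  calc _ = D * (4 * H) ^ n * Real.log (Real.log X) ^ n := by ring
    _ ≤ _ := (le_abs_self _).trans h

end PieceP

open PieceP in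
theorem pPiece (h1 : S_Exp) (h2 : Ch.S_VdC) : S_Piece := by
  intro B H
  obtain ⟨c, C, hc, hC, hE⟩ := h1
  obtain ⟨c1, C1, hc1, hc2, hC1, hV⟩ := h2 11
  obtain ⟨X0, hX0⟩ := eventually_atTop.1 ((evW H 8 (C + 1) hc).and ((evW H 2 1 hc1).and
    ((evW H 1 (4 * C1) hc1).and ((evW H 2 (8 + 2 * B) one_pos).and
    ((Real.tendsto_log_atTop.eventually_ge_atTop 3).and (eventually_ge_atTop 10))))))
  refine ⟨X0, fun X hX q _ ψ t M N hq ht1 ht2 hM hMN hN hMt => ?_⟩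
  obtain ⟨v1, v2, v3, v4, hL, hX10⟩ := hX0 X hX
  obtain ⟨θ, hθ⟩ : ∃ θ, θ = th H X := ⟨_, rfl⟩
  rw [← hθ]
  have hlt : Real.log |t| ≤ 2 * Real.log X := by
    have a1 := Real.log_le_log (by linarith) ht2
    have a2 := Real.log_le_log (by norm_num) hX10
    rw [Real.log_mul (by norm_num) (by linarith)] at a1
    linarith
  unfold th at hθ
  generalize Real.log X = L at *
  have L0 : 0 < L := by linarith
  have hL2 : 1 ≤ Real.log L := by
    rw [Real.le_log_iff_exp_le L0]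
    linarith [Real.exp_one_lt_d9]
  have hqL : Real.log q ≤ B * Real.log L := by
    have hq0 : (0 : ℝ) < q := by exact_mod_cast Nat.pos_of_ne_zero (NeZero.ne q)
    have := Real.log_le_log hq0 hq
    rwa [Real.log_pow] at this
  have hθL : θ * L = H * Real.log L ^ 2 := by rw [hθ]; field_simp
  have m1 : (1 : ℝ) ≤ M := by exact_mod_cast hM
  have m0 : (0 : ℝ) < M := by linarith
  have w0 : 0 < (M : ℝ) ^ (1 - θ) := Real.rpow_pos_of_pos m0 _
  have hsp : (M : ℝ) = (M : ℝ) ^ θ * (M : ℝ) ^ (1 - θ) := by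
    rw [← Real.rpow_add m0]; simp
  by_cases htr : (M : ℝ) ^ θ ≤ L
  · have a1 : ‖∑ n ∈ Ioc M N, ψ n * nit t n‖ ≤ M := by
      refine (norm_sum_le _ _).trans ((sum_le_sum (g := fun _ => (1 : ℝ)) fun n _ => ?_).trans ?_)
      · rw [norm_mul, norm_nit, mul_one]
        exact ψ.norm_le_one _
      · simp only [sum_const, Nat.card_Ioc, nsmul_eq_mul, mul_one]
        exact_mod_cast (by omega : N - M ≤ M)
    linarith [mul_le_mul_of_nonneg_right htr w0.le]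
  have hq1 : (1 : ℝ) ≤ q := by exact_mod_cast Nat.pos_of_ne_zero (NeZero.ne q)
  have hlq : 0 ≤ Real.log q := Real.log_nonneg hq1
  have lm0 : 0 ≤ Real.log M := Real.log_nonneg m1
  have b1 : Real.log L < θ * Real.log M := by
    have := Real.log_lt_log L0 (not_le.1 htr)
    rwa [Real.log_rpow m0] at this
  have b2 : L < H * Real.log L * Real.log M := by
    refine lt_of_mul_lt_mul_left ?_ (show 0 ≤ Real.log L by linarith)
    calc _ < θ * Real.log M * L := mul_lt_mul_of_pos_right b1 L0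
      _ = θ * L * Real.log M := by ring
      _ = _ := by rw [hθL]; ring
  have hH : (1 : ℝ) ≤ H := by
    rcases Nat.eq_zero_or_pos H with h | h
    · simp only [h, Nat.cast_zero, zero_mul] at b2
      linarith
    · exact_mod_cast h
  obtain ⟨W, hW⟩ : ∃ W, W = 4 * H * Real.log L := ⟨_, rfl⟩
  rw [← hW] at v1 v2 v3 v4
  have W1 : Real.log L ≤ W := by
    linarith [mul_le_mul_of_nonneg_right hH (zero_le_one.trans hL2)]
  have W2 : 1 ≤ W := by linarith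
  have W0 : 0 < W := by linarith
  have b3 : 4 * L ≤ W * Real.log M := by rw [hW]; linarith
  have b4 : (32 + 8 * B) * W ≤ Real.log M :=
    le_of_mul_le_mul_left (by linarith) W0
  have b5 : 32 + 8 * Real.log q ≤ Real.log M := by
    linarith [mul_le_mul_of_nonneg_left W1 (Nat.cast_nonneg (α := ℝ) B)]
  have θ0 : 0 ≤ θ := by rw [hθ]; positivity
  have θ1 : 4 * θ ≤ c1 := by
    refine le_of_mul_le_mul_right ?_ L0
    have : 4 * θ * L = W * Real.log L := by rw [mul_assoc, hθL, hW]; ring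
    linarith [mul_le_mul_of_nonneg_left W1 W0.le]
  have θ2 : 16 * θ * L ≤ W ^ 2 := by
    rw [mul_assoc, hθL, hW]
    linarith [mul_nonneg (mul_nonneg (sub_nonneg.2 hH) (zero_le_one.trans hH))
      (sq_nonneg (Real.log L))]
  have l2 : Real.log (2 * q) ≤ 1 + Real.log q := by
    rw [Real.log_mul (by norm_num) (by linarith)]
    linarith [Real.log_two_lt_d9]
  have l30 : Real.log (30 * q) ≤ 4 + Real.log q := by
    rw [Real.log_mul (by norm_num) (by linarith)]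
    have := Real.log_le_log (by norm_num) (show (30 : ℝ) ≤ 2 ^ 5 by norm_num)
    rw [Real.log_pow] at this
    push_cast at this
    linarith [Real.log_two_lt_d9]
  have d1 : (2 * q : ℝ) ^ 2 ≤ M := by
    rw [← Real.log_le_log_iff (by positivity) m0, Real.log_pow]
    push_cast
    linarith
  obtain ⟨K, hK⟩ : ∃ K, K = M / q := ⟨_, rfl⟩
  have a1 : (q : ℝ) * K ≤ M := by exact_mod_cast hK ▸ Nat.mul_div_le M q
  have a2 : (M : ℝ) < q * (K + 1) := by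
    exact_mod_cast hK ▸ Nat.lt_mul_div_succ M (Nat.pos_of_ne_zero (NeZero.ne q))
  have K2 : 2 ≤ K := by
    by_contra h
    have : (K : ℝ) ≤ 1 := by exact_mod_cast (by omega : K ≤ 1)
    linarith [mul_le_mul_of_nonneg_left this (zero_le_one.trans hq1),
      mul_le_mul_of_nonneg_left hq1 (zero_le_one.trans hq1)]
  have k2 : (2 : ℝ) ≤ K := by exact_mod_cast K2
  have k0 : (0 : ℝ) < K := by linarith
  have d2 : (M : ℝ) ≤ (K : ℝ) ^ 2 := by
    have e1 : (M : ℝ) ≤ 2 * q * K := by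
      linarith [mul_le_mul_of_nonneg_left k2 (zero_le_one.trans hq1)]
    refine le_of_mul_le_mul_left ?_ m0
    calc (M : ℝ) * M ≤ (2 * q * K) * (2 * q * K) := mul_self_le_mul_self m0.le e1
      _ = (2 * q) ^ 2 * (K : ℝ) ^ 2 := by ring
      _ ≤ _ := by gcongr
  have d3 : Real.log M ≤ 2 * Real.log K := by
    have := Real.log_le_log m0 d2
    rwa [Real.log_pow, Nat.cast_ofNat] at this
  have d4 : 2 * L ≤ Real.log K * W := by linarith [mul_le_mul_of_nonneg_left d3 W0.le]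
  have d5 : 4 * C1 ≤ (K : ℝ) ^ (c1 / 2) := by
    have e1 : 4 * C1 ≤ Real.log K * (c1 / 2) :=
      le_of_mul_le_mul_right (by linarith [mul_le_mul_of_nonneg_left d4 hc1.le]) W0
    rw [Real.rpow_def_of_pos k0]
    linarith [Real.add_one_le_exp (Real.log K * (c1 / 2))]
  have d6 : 10 * (K : ℝ) ^ (1 / 4 : ℝ) ≤ |t| := by
    have z0 : 0 < (K : ℝ) ^ (1 / 4 : ℝ) := Real.rpow_pos_of_pos k0 _
    have e1 : 30 * q ≤ (K : ℝ) ^ (1 / 4 : ℝ) := by
      rw [← Real.log_le_log_iff (by positivity) z0, Real.log_rpow k0]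
      linarith
    have e2 : (((K : ℝ) ^ (1 / 4 : ℝ)) ^ 2) ^ 2 = K := by
      rw [← pow_mul, ← Real.rpow_natCast, ← Real.rpow_mul k0.le]
      norm_num
    have e3 : ((K : ℝ) ^ (1 / 4 : ℝ)) ^ 2 ≤ q * (|t| + 2) := by
      refine (pow_le_pow_iff_left₀ (by positivity) (by positivity) two_ne_zero).1 ?_
      rw [e2]
      linarith [mul_le_mul_of_nonneg_right hq1 k0.le]
    refine le_of_mul_le_mul_left ?_ (show (0 : ℝ) < 3 * q by linarith)
    linarith [mul_le_mul_of_nonneg_right e1 z0.le,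
      mul_le_mul_of_nonneg_left ht1 (zero_le_one.trans hq1)]
  have main := classes ψ t hMN hN (E := (K : ℝ) ^ (1 - 2 * θ)) (by
    rw [← hK]
    intro N' β n1 n2 hβ hβ1
    rcases le_total |t| ((K : ℝ) ^ 11) with h | h
    · exact small hc1 hc2 hC1 (by omega) n1 n2 hβ hβ1 (hV K N' t β (by omega) n1 h hβ hβ1) θ1 d5 d6
    · obtain ⟨k, r1, r2, r3, r4⟩ := large hc hC K2 h hlt (by linarith) W2 W1 d4 v1 θ2
      exact (hE k K N' t β r1 (by omega) n1 n2 hβ hβ1 r2 r3).trans r4)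
  have d7 : 2 * q ≤ (M : ℝ) ^ (1 - θ) := by
    rw [← Real.log_le_log_iff (by positivity) w0, Real.log_rpow m0]
    linarith [mul_le_mul_of_nonneg_right (θ1.trans hc2) lm0]
  have d8 : q * (K : ℝ) ^ (1 - 2 * θ) ≤ (M : ℝ) ^ (1 - θ) := by
    have e1 : (K : ℝ) ^ (-(2 * θ)) ≤ (M : ℝ) ^ (-θ) := by
      rw [Real.rpow_def_of_pos k0, Real.rpow_def_of_pos m0, Real.exp_le_exp]
      linarith [mul_le_mul_of_nonneg_right d3 θ0]
    rw [sub_eq_add_neg, sub_eq_add_neg, Real.rpow_add k0, Real.rpow_add m0, Real.rpow_one,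
      Real.rpow_one, ← mul_assoc]
    exact mul_le_mul a1 e1 (Real.rpow_nonneg k0.le _) m0.le
  linarith [mul_le_mul_of_nonneg_right hL w0.le]

end Pool.Agent.P.MP_746f10_nt.AP
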