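import Pool.Agent.P.MP_746f10_nt.AP.QBase
import Pool.Agent.P.MP_746f10_nt.AP.Rows

/-! The lower bound for the primes of a block of rows, general moduli. -/

namespace Pool.Agent.P.MP_746f10_nt.AP

open Finset Filter RowsP
open scoped ArithmeticFunction.vonMangoldt

theorem qBlk (h : Pool.Agent.P.MP_0ad054_nt.An.S_PNT) : T_Blk := by
  intro A
  obtain ⟨C, hC, hP⟩ := h A
  obtain ⟨Q0, hQ0⟩ := ev_lg ((ev_pow_le_two_pow 8 A).and ((eventually_ge_atTop ⌈4 * C⌉₊).and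
    (eventually_ge_atTop 5)))
  refine ⟨max Q0 2, fun Q a N n1 n2 hQ hR h1 h12 h2 => ?_⟩
  obtain ⟨e1, e2, e3⟩ := hQ0 Q (le_of_max_le_left hQ)
  have hQ2 : 2 ≤ Q := le_of_max_le_right hQ
  have hQg := two_pow_lg_le (Q := Q) (by omega)
  have ha := hR.Q_le
  have hN2 : 2 ≤ N := by
    have h3 := hR.Q_le_sq
    by_contra hn
    have h4 : N ≤ 1 := by omega
    have h5 : N ^ 2 ≤ 1 ^ 2 := Nat.pow_le_pow_left h4 2
    omega
  have hlo := hR.1
  have hhi := hR.2.1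
  rw [rows_eq (by omega) (by omega) h12]
  have hx1 : Q ^ 2 ≤ a * n1 := hlo.trans (Nat.mul_le_mul_left a h1)
  have hxy : a * n1 ≤ a * n2 := Nat.mul_le_mul_left a h12
  have hy1 : a * n2 ≤ 2 * (a * N) := by
    calc a * n2 ≤ a * (2 * N) := Nat.mul_le_mul_left a h2
      _ = _ := by ring
  have hy2 : a * n2 ≤ 4 * Q ^ 2 := by omega
  have hx2 : 2 ≤ a * n1 := by nlinarith
  obtain ⟨l1, -⟩ := log_bds e3 hx1 (hxy.trans hy2)
  obtain ⟨l2, l3⟩ := log_bds e3 (hx1.trans hxy) hy2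
  have t1 := theta_sub_le (by omega) hxy (Nat.not_prime_mul (by omega) (by omega)) l3
  set g := lg Q with hg
  have hg0 : (0 : ℝ) < g := by exact_mod_cast (by omega : 0 < g)
  have hE : ∀ x : ℕ, 2 ≤ x → x ≤ 2 * (a * N) → (g : ℝ) ≤ Real.log x →
      |Chebyshev.psi x - x| ≤ g / 2 * (a * N / (g : ℝ) ^ A) := by
    intro x hx hx' hl
    rw [psi_nat]
    refine (hP x hx).trans ?_
    have h3 : (x : ℝ) ≤ 2 * (a * N) := by exact_mod_cast hx'
    have h4 : 4 * C ≤ g := (Nat.le_ceil _).trans (by exact_mod_cast e2)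
    calc C * x / Real.log x ^ A ≤ g / 4 * (2 * (a * N)) / (g : ℝ) ^ A := by
          gcongr; linarith
      _ = _ := by ring
  have p1 := (abs_le.1 (hE _ hx2 (hxy.trans hy1) l1)).2
  have p2 := (abs_le.1 (hE _ (hx2.trans hxy) hy1 l2)).1
  have p3 := Chebyshev.theta_le_psi ((a * n1 : ℕ) : ℝ)
  have p4 := Chebyshev.psi_sub_theta_le (x := ((a * n2 : ℕ) : ℝ))
    (by exact_mod_cast (by omega : 1 ≤ a * n2))
  have p5 : √((a * n2 : ℕ) : ℝ) ≤ 2 * Q := by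
    rw [Real.sqrt_le_left (by positivity)]
    have : ((a * n2 : ℕ) : ℝ) ≤ 4 * Q ^ 2 := by exact_mod_cast hy2
    linarith
  have p6 : 8 * (Q : ℝ) ≤ a * N / (g : ℝ) ^ A := by
    rw [le_div_iff₀ (by positivity)]
    have h3 : 8 * (g : ℝ) ^ A ≤ Q := by exact_mod_cast e1.trans hQg
    have h4 : (Q : ℝ) ^ 2 ≤ a * N := by exact_mod_cast hlo
    calc 8 * (Q : ℝ) * g ^ A = 8 * g ^ A * Q := by ring
      _ ≤ Q * Q := by gcongr
      _ = Q ^ 2 := by ring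
      _ ≤ _ := h4
  have p7 : 2 * √((a * n2 : ℕ) : ℝ) * Real.log (a * n2 : ℕ) ≤ g * (a * N / (g : ℝ) ^ A) := by
    calc _ ≤ 2 * (2 * Q) * (2 * g : ℝ) := by gcongr
      _ = g * (8 * Q) := by ring
      _ ≤ _ := by gcongr
  rw [sub_le_iff_le_add, div_le_iff₀ (by positivity)]
  have p8 : (a : ℝ) * (n2 - n1) = ((a * n2 : ℕ) : ℝ) - ((a * n1 : ℕ) : ℝ) := by push_cast; ring
  rw [p8]
  linarith

end Pool.Agent.P.MP_746f10_nt.AP
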