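import Pool.Agent.P.MP_746f10_nt.AP.QBase
import Pool.Agent.P.MP_746f10_nt.AP.CSW

/-! The inequality of Cauchy and a positive kernel for the bilinear form. -/

namespace Pool.Agent.P.MP_746f10_nt.AP

open Finset ComplexConjugate

namespace QCSWP

variable {a : ℕ} [NeZero a]

/-- a shift that changes the row ends at a small residue -/
lemma nl_one {k K2 J y j : ℕ} (hk : k ≤ K2) (hj : j < J) (h : k * (y + j) / a ≠ k * y / a) :
    nl (K2 * J) ((k : ZMod a) * ((y : ZMod a) + (j : ZMod a))) = 1 := by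
  have ha : 0 < a := NeZero.pos a
  have e : (k : ZMod a) * ((y : ZMod a) + (j : ZMod a)) = ((k * y % a + k * j : ℕ) : ZMod a) := by
    push_cast; rw [ZMod.natCast_mod]; push_cast; ring
  have hr : k * y % a < a := Nat.mod_lt _ ha
  have h2 : k * j ≤ K2 * J := Nat.mul_le_mul hk hj.le
  have h3 : a ≤ k * y % a + k * j := by
    by_contra h4
    apply h
    have e2 : k * (y + j) = a * (k * y / a) + (k * y % a + k * j) := by
      rw [← add_assoc, Nat.div_add_mod, mul_add]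
    rw [e2, Nat.mul_add_div ha, Nat.div_eq_of_lt (not_le.1 h4), add_zero]
  unfold nl
  rw [if_pos]
  rw [e, ZMod.val_natCast, Nat.mod_eq_sub_mod h3]
  exact (Nat.mod_le _ _).trans_lt (by omega)

lemma diff_le (t : ℕ → ℂ) (ht : ∀ n, ‖t n‖ ≤ 1) {k k' K2 J j : ℕ} (y : ℕ) (hk : k ≤ K2)
    (hk' : k' ≤ K2) (hj : j < J) :
    ‖t (k * (y + j) / a) * conj (t (k' * (y + j) / a)) - t (k * y / a) * conj (t (k' * y / a))‖ ≤
      2 * (nl (a := a) (K2 * J) (k * (y + j)) + nl (a := a) (K2 * J) (k' * (y + j))) := by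
  have h0 := (nl_bd (a := a) (K2 * J) (k * (y + j))).1
  have h0' := (nl_bd (a := a) (K2 * J) (k' * (y + j))).1
  have hb : ∀ m n, ‖t m * conj (t n)‖ ≤ 1 := fun m n => by
    rw [norm_mul, Complex.norm_conj]
    exact mul_le_one₀ (ht _) (norm_nonneg _) (ht _)
  have h2 := (norm_sub_le _ _).trans (add_le_add (hb (k * (y + j) / a) (k' * (y + j) / a))
    (hb (k * y / a) (k' * y / a)))
  by_cases h : k * (y + j) / a = k * y / a
  · by_cases h' : k' * (y + j) / a = k' * y / a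
    · rw [h, h', sub_self, norm_zero]
      positivity
    · rw [nl_one hk' hj h']
      linarith
  · rw [nl_one hk hj h]
    linarith

/-- the error at small residues -/
noncomputable def e1 (f : ZMod a → ℂ) (Y L k k' : ℕ) (s : ZMod a) : ℝ :=
  ∑ y ∈ range L, ‖f (k * (y + s))‖ * nl (a := a) Y (k * (y + s)) * ‖f (k' * (y + s))‖

/-- the trivial bound -/
noncomputable def e2 (f : ZMod a → ℂ) (L k k' : ℕ) (s : ZMod a) : ℝ :=
  ∑ y ∈ range L, ‖f (k * (y + s))‖ * ‖f (k' * (y + s))‖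

omit [NeZero a] in
lemma e1_nonneg (f : ZMod a → ℂ) (Y L k k' : ℕ) (s : ZMod a) : 0 ≤ e1 f Y L k k' s :=
  sum_nonneg fun _ _ => mul_nonneg (mul_nonneg (norm_nonneg _) (nl_bd _ _).1) (norm_nonneg _)

omit [NeZero a] in
lemma e2_nonneg (f : ZMod a → ℂ) (L k k' : ℕ) (s : ZMod a) : 0 ≤ e2 f L k k' s :=
  sum_nonneg fun _ _ => by positivity

omit [NeZero a] in
lemma sum_e1 (f : ZMod a → ℂ) (Y L K : ℕ) (s : ZMod a) :
    ∑ k ∈ Icc 1 K, ∑ k' ∈ Icc 1 K, e1 f Y L k k' s = ∑ y ∈ range L,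
      AA (fun x => ‖f x‖ * nl Y x) K (y + s) * AA (fun x => ‖f x‖) K (y + s) := by
  simp only [e1, AA, sum_mul_sum]
  exact (sum_congr rfl fun _ _ => sum_comm).trans sum_comm

omit [NeZero a] in
lemma sum_e2 (f : ZMod a → ℂ) (L K : ℕ) (s : ZMod a) :
    ∑ k ∈ Icc 1 K, ∑ k' ∈ Icc 1 K, e2 f L k k' s =
      ∑ y ∈ range L, AA (fun x => ‖f x‖) K (y + s) ^ 2 := by
  simp only [e2, AA, sq, sum_mul_sum]
  exact (sum_congr rfl fun _ _ => sum_comm).trans sum_comm

omit [NeZero a] in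
lemma norm_ww (f : ZMod a → ℂ) (k k' : ℕ) (y : ZMod a) :
    ‖ww f k k' y‖ = ‖f (k * y)‖ * ‖f (k' * y)‖ := by
  rw [ww, norm_mul, Complex.norm_conj]

/-- the bound for one pair -/
lemma pair (f : ZMod a → ℂ) (t : ℕ → ℂ) (ht : ∀ n, ‖t n‖ ≤ 1) {ω : ZMod a → ℝ}
    (h0 : ∀ z, 0 ≤ ω z) (hω : ∑ z, ω z = 1) {k k' K2 J L : ℕ} (hk : k ≤ K2) (hk' : k' ≤ K2)
    (h1 : ∀ l, l < J → t (k * l / a) = 0) (h2 : ∀ l, L ≤ l → t (k * l / a) = 0) :
    ‖∑ l ∈ range L, t (k * l / a) * conj (t (k' * l / a)) * ww f k k' l‖ ≤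
      ∑ y ∈ range L, ‖∑ z, (ω z : ℂ) * ww f k k' (y + z)‖ +
        ∑ z, ω z * (2 * (e1 f (K2 * J) L k k' z + e1 f (K2 * J) L k' k z) +
          if J ≤ z.val then e2 f L k k' 0 + e2 f L k k' z else 0) := by
  set U : ℕ → ℂ := fun l => t (k * l / a) * conj (t (k' * l / a)) with hU
  have hb : ∀ l, ‖U l‖ ≤ 1 := fun l => by
    rw [hU, norm_mul, Complex.norm_conj]
    exact mul_le_one₀ (ht _) (norm_nonneg _) (ht _)
  have hs : ∀ z : ZMod a, ‖∑ y ∈ range L, U y * ww f k k' (y + z)‖ ≤ e2 f L k k' z := fun z =>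
    (norm_sum_le _ _).trans (sum_le_sum fun y _ => by
      rw [norm_mul, norm_ww]
      exact mul_le_of_le_one_left (by positivity) (hb y))
  change ‖∑ l ∈ range L, U l * ww f k k' l‖ ≤ _
  have e : ∑ l ∈ range L, U l * ww f k k' l =
      ∑ y ∈ range L, U y * ∑ z, (ω z : ℂ) * ww f k k' (y + z) + ∑ z, (ω z : ℂ) *
        (∑ l ∈ range L, U l * ww f k k' l - ∑ y ∈ range L, U y * ww f k k' (y + z)) := by
    simp only [mul_sub, sum_sub_distrib]
    rw [← sum_mul, ← Complex.ofReal_sum, hω, Complex.ofReal_one, one_mul]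
    simp only [mul_sum]
    rw [sum_comm (s := univ)]
    simp only [mul_left_comm (U _), add_sub_cancel]
  rw [e]
  refine (norm_add_le _ _).trans (add_le_add ((norm_sum_le _ _).trans (sum_le_sum fun y _ => ?_))
    ((norm_sum_le _ _).trans (sum_le_sum fun z _ => ?_)))
  · rw [norm_mul]
    exact mul_le_of_le_one_left (norm_nonneg _) (hb y)
  rw [norm_mul, Complex.norm_real, Real.norm_of_nonneg (h0 z)]
  refine mul_le_mul_of_nonneg_left ?_ (h0 z)
  split_ifs with hz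
  · have h3 := hs 0
    simp only [add_zero] at h3
    have h4 := (norm_sub_le _ _).trans (add_le_add h3 (hs z))
    linarith [e1_nonneg f (K2 * J) L k k' z, e1_nonneg f (K2 * J) L k' k z]
  rw [← CSWP.sum_shift (fun l => U l * ww f k k' l) L J z.val (not_le.1 hz)
    (fun l hl => by simp only [hU, h1 l hl, zero_mul])
    (fun l hl => by simp only [hU, h2 l hl, zero_mul]), ← sum_sub_distrib, add_zero, e1, e1,
    ← sum_add_distrib, mul_sum]
  refine (norm_sum_le _ _).trans (sum_le_sum fun y _ => ?_)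
  have h3 := diff_le (a := a) t ht y hk hk' (not_le.1 hz)
  rw [ZMod.natCast_zmod_val] at h3
  rw [Nat.cast_add, ZMod.natCast_zmod_val, ← sub_mul, norm_mul, norm_ww]
  refine (mul_le_mul_of_nonneg_right h3 (by positivity)).trans (le_of_eq ?_)
  ring

/-- the bilinear form as a double sum -/
lemma Bf_eq {N K K2 L : ℕ} (α β u : ℕ → ℂ) (f : ZMod a → ℂ) (hN : 1 ≤ N)
    (hL : a * (2 * N) ≤ K * L) (hα : ∀ k, α k ≠ 0 → K < k ∧ k ≤ K2) (hf : f 0 = 0) :
    Bf a N (cv α β) u (fun b => f b) = ∑ l ∈ range L, β l *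
      ∑ k ∈ Icc 1 K2, α k * ((if k * l / a ∈ Ico N (2 * N) then u (k * l / a) else 0) *
        f ((k * l : ℕ) : ZMod a)) := by
  have ha : 0 < a := NeZero.pos a
  set φ : ℕ → ℂ := fun m => (if m / a ∈ Ico N (2 * N) then u (m / a) else 0) * f (m : ZMod a)
    with hφ
  have e1 : Bf a N (cv α β) u (fun b => f b) =
      ∑ m ∈ Ico (a * N) (a * (2 * N)), cv α β m * φ m := by
    rw [← sum_rows a N (2 * N) (by omega)]
    refine sum_congr rfl fun n hn => ?_
    have e0 : ∀ b, ((a * n + b : ℕ) : ZMod a) = b := fun b => by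
      push_cast; rw [ZMod.natCast_self, zero_mul, zero_add]
    rw [range_eq_Ico, sum_eq_sum_Ico_succ_bot ha]
    simp only [hφ, e0, Nat.cast_zero, hf, mul_zero, zero_add]
    refine sum_congr rfl fun b hb => ?_
    rw [row_div hb, if_pos hn, mul_assoc]
  set S := Icc 1 K2 ×ˢ range L with hS
  have e2 : ∑ l ∈ range L, β l * ∑ k ∈ Icc 1 K2, α k * φ (k * l) =
      ∑ x ∈ S, α x.1 * β x.2 * φ (x.1 * x.2) := by
    rw [hS, sum_product_right]
    refine sum_congr rfl fun l _ => ?_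
    rw [mul_sum]
    exact sum_congr rfl fun k _ => by ring
  rw [e1]
  refine Eq.trans ?_ e2.symm
  rw [← sum_filter_of_ne (p := fun x : ℕ × ℕ => x.1 * x.2 ∈ Ico (a * N) (a * (2 * N))),
    ← sum_fiberwise_eq_sum_filter]
  · refine sum_congr rfl fun m hm => ?_
    have hm' := mem_Ico.1 hm
    have hm0 : m ≠ 0 := by
      have : 0 < a * N := Nat.mul_pos ha hN
      omega
    unfold cv
    rw [sum_mul]
    symm
    refine sum_subset_zero_on_sdiff (fun x hx => ?_) (fun x hx => ?_) (fun x hx => ?_)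
    · exact Nat.mem_divisorsAntidiagonal.2 ⟨(mem_filter.1 hx).2, hm0⟩
    · obtain ⟨h1, h2⟩ := mem_sdiff.1 hx
      have h3 := (Nat.mem_divisorsAntidiagonal.1 h1).1
      by_contra h4
      have h5 := hα x.1 (left_ne_zero_of_mul (left_ne_zero_of_mul h4))
      refine h2 (mem_filter.2 ⟨mem_product.2 ⟨mem_Icc.2 ⟨by omega, h5.2⟩, mem_range.2 ?_⟩, h3⟩)
      refine lt_of_mul_lt_mul_left (a := K) ?_ (Nat.zero_le K)
      calc K * x.2 ≤ x.1 * x.2 := Nat.mul_le_mul_right _ h5.1.le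
        _ < a * (2 * N) := h3 ▸ hm'.2
        _ ≤ _ := hL
    · rw [(mem_filter.1 hx).2]
  · intro x _ h
    have h1 : x.1 * x.2 / a ∈ Ico N (2 * N) := by
      by_contra h2
      exact h (by simp only [hφ, if_neg h2, zero_mul, mul_zero])
    rw [mem_Ico] at h1 ⊢
    exact ⟨by rw [mul_comm a]; exact (Nat.le_div_iff_mul_le ha).1 h1.1,
      by rw [mul_comm a]; exact (Nat.div_lt_iff_lt_mul ha).1 h1.2⟩

end QCSWP

open QCSWP in
theorem qCSW : T_CSW := by
  intro a _ N K K2 J L α β u f ω t0 H P hK hN hKJ hL hα hβ hu hs hf h0 hω ht0 hH hP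
  have ha : 0 < a := NeZero.pos a
  have hL' : a * (2 * N) ≤ K * L := by
    have := Nat.lt_mul_div_succ (2 * a * N) hK
    rw [← hL] at this
    exact le_of_eq_of_le (by ring) this.le
  rw [QCSWP.Bf_eq α β u f hN hL' hs hf]
  set t : ℕ → ℂ := fun n => if n ∈ Ico N (2 * N) then u n else 0 with ht
  have ht1 : ∀ n, ‖t n‖ ≤ 1 := fun n => by
    simp only [ht]; split_ifs
    exacts [hu n, by simp]
  set φ : ℕ → ℂ := fun m => t (m / a) * f (m : ZMod a) with hφ
  change ‖∑ l ∈ range L, β l * ∑ k ∈ Icc 1 K2, α k * φ (k * l)‖ ^ 2 ≤ _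
  have h1 : ‖∑ l ∈ range L, β l * ∑ k ∈ Icc 1 K2, α k * φ (k * l)‖ ^ 2 ≤
      (L : ℝ) * ∑ l ∈ range L, ‖∑ k ∈ Icc 1 K2, α k * φ (k * l)‖ ^ 2 := by
    have h := sq_sum_le_card_mul_sum_sq (s := range L)
      (f := fun l => ‖∑ k ∈ Icc 1 K2, α k * φ (k * l)‖)
    rw [card_range] at h
    refine le_trans (pow_le_pow_left₀ (norm_nonneg _) ?_ 2) h
    refine (norm_sum_le _ _).trans (sum_le_sum fun l _ => ?_)
    rw [norm_mul]
    exact mul_le_of_le_one_left (norm_nonneg _) (hβ l)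
  have e3 : ((∑ l ∈ range L, ‖∑ k ∈ Icc 1 K2, α k * φ (k * l)‖ ^ 2 : ℝ) : ℂ) =
      ∑ k ∈ Icc 1 K2, ∑ k' ∈ Icc 1 K2, α k * conj (α k') *
        ∑ l ∈ range L, t (k * l / a) * conj (t (k' * l / a)) * ww f k k' l := by
    push_cast
    simp_rw [← Complex.mul_conj', map_sum, sum_mul_sum, mul_sum]
    rw [sum_comm]
    refine sum_congr rfl fun k _ => ?_
    rw [sum_comm]
    refine sum_congr rfl fun k' _ => sum_congr rfl fun l _ => ?_
    simp only [hφ, ww, map_mul, Nat.cast_mul]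
    ring
  set E : ℕ → ℕ → ZMod a → ℝ := fun k k' z =>
    2 * (e1 f (K2 * J) L k k' z + e1 f (K2 * J) L k' k z) +
      if J ≤ z.val then e2 f L k k' 0 + e2 f L k k' z else 0 with hE
  have h3 : ∀ k k', ‖α k * conj (α k') *
      ∑ l ∈ range L, t (k * l / a) * conj (t (k' * l / a)) * ww f k k' l‖ ≤
      ∑ y ∈ range L, ‖∑ z, (ω z : ℂ) * ww f k k' (y + z)‖ + ∑ z, ω z * E k k' z := by
    intro k k'
    have hp : (0 : ℝ) ≤ ∑ y ∈ range L, ‖∑ z, (ω z : ℂ) * ww f k k' (y + z)‖ +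
        ∑ z, ω z * E k k' z := by
      refine add_nonneg (sum_nonneg fun _ _ => norm_nonneg _) (sum_nonneg fun z _ =>
        mul_nonneg (h0 z) (add_nonneg (mul_nonneg zero_le_two
          (add_nonneg (e1_nonneg ..) (e1_nonneg ..))) ?_))
      split_ifs
      exacts [add_nonneg (e2_nonneg ..) (e2_nonneg ..), le_rfl]
    by_cases hk : α k = 0
    · rw [hk, zero_mul, zero_mul, norm_zero]; exact hp
    by_cases hk' : α k' = 0
    · rw [hk', map_zero, mul_zero, zero_mul, norm_zero]; exact hp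
    have h4 := hs k hk
    have h5 := hs k' hk'
    rw [norm_mul, norm_mul, Complex.norm_conj]
    refine (mul_le_of_le_one_left (norm_nonneg _)
      (mul_le_one₀ (hα k) (norm_nonneg _) (hα k'))).trans ?_
    refine QCSWP.pair f t ht1 h0 hω h4.2 h5.2 (fun l hl => ?_) (fun l hl => ?_)
    · have h6 : k * l < a := by
        calc k * l < k * J := Nat.mul_lt_mul_of_pos_left hl (by omega)
          _ ≤ K2 * J := Nat.mul_le_mul_right _ h4.2
          _ ≤ a := hKJ
      rw [Nat.div_eq_of_lt h6]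
      exact if_neg fun h => by have := (mem_Ico.1 h).1; omega
    · refine if_neg fun h => absurd (mem_Ico.1 h).2 (not_lt.2 ?_)
      refine (Nat.le_div_iff_mul_le ha).2 ?_
      calc 2 * N * a = a * (2 * N) := mul_comm _ _
        _ ≤ K * L := hL'
        _ ≤ k * l := Nat.mul_le_mul h4.1.le hl
  have hP0 : 0 ≤ P := (sum_nonneg fun _ _ => sq_nonneg _).trans (hP 0)
  have h5 : ∀ z, ∑ k ∈ Icc 1 K2, ∑ k' ∈ Icc 1 K2, E k k' z ≤
      4 * H + if J ≤ z.val then 2 * P else 0 := by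
    intro z
    have a1 := (sum_e1 f (K2 * J) L K2 z).trans_le (hH z)
    have a2 := (sum_comm.trans (sum_e1 f (K2 * J) L K2 z)).trans_le (hH z)
    have a3 := (sum_e2 f L K2 z).trans_le (hP z)
    have a4 := (sum_e2 f L K2 0).trans_le (hP 0)
    simp only [hE]
    split_ifs
    · simp only [sum_add_distrib, ← mul_sum]
      linarith
    · simp only [add_zero, sum_add_distrib, ← mul_sum]
      linarith
  have h6 : ∑ k ∈ Icc 1 K2, ∑ k' ∈ Icc 1 K2, ∑ z, ω z * E k k' z ≤ 4 * H + 2 * t0 * P := by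
    rw [(sum_congr rfl fun _ _ => sum_comm).trans sum_comm]
    simp only [← mul_sum]
    refine (sum_le_sum fun z _ => mul_le_mul_of_nonneg_left (h5 z) (h0 z)).trans ?_
    simp only [mul_add, sum_add_distrib, mul_ite, mul_zero, ← sum_filter, ← sum_mul, hω]
    nlinarith
  refine h1.trans (mul_le_mul_of_nonneg_left ((le_abs_self _).trans ?_) (Nat.cast_nonneg L))
  rw [← Real.norm_eq_abs, ← Complex.norm_real, e3]
  refine (norm_sum_le _ _).trans ((sum_le_sum fun k _ => (norm_sum_le _ _).trans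
    (sum_le_sum fun k' _ => h3 k k')).trans ?_)
  simp only [sum_add_distrib]
  linarith

end Pool.Agent.P.MP_746f10_nt.AP
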