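import Pool.Agent.P.MP_746f10_nt.AP.QBase
import Pool.Agent.P.MP_746f10_nt.AP.Diff

/-! Package QDiff: the difference of a bilinear term and its model has small cut norm on the
columns coprime to a general modulus. -/

namespace Pool.Agent.P.MP_746f10_nt.AP

open Finset Filter

open DiffP

theorem qDiff (h1 : T_Split) (h2 : T_Minor) (h3 : T_Major) (h4 : S_Match) : T_Diff := by
  intro u A hu
  obtain ⟨B, Cτ, h2⟩ := h2 (A + 1) (3 * u)
  obtain ⟨Q1, h2⟩ := h2 (2 * Cτ + 1)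
  obtain ⟨A', CL, Cw, Q2, h3⟩ := h3 u (A + 1 + (2 * Cτ + 1)) B hu
  obtain ⟨Q3, h5⟩ := ev_lg (eventually_ge_atTop 4)
  refine ⟨A', B, CL, Cw, max Q1 (max Q2 (max Q3 1)),
    fun Q a N w d L' hQ hR hG hw l1 l2 => ?_⟩
  simp only [max_le_iff] at hQ
  obtain ⟨q1, q2, q3, q4⟩ := hQ
  have g2 := h5 Q q3
  have : NeZero a := ⟨by have := hR.Q_le; omega⟩
  have g4 : (4 : ℝ) ≤ lg Q := by exact_mod_cast g2
  have g0 : (0 : ℝ) < lg Q := by linarith
  refine smallC_of fun U v hU hv hv0 => ?_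
  obtain ⟨n, φ, cf, f, s2, s1, s3, s4⟩ := h1 a v (Fam a (lg Q ^ B)) (1 / (lg Q : ℝ) ^ Cτ)
    (by positivity) Fam_bd hv hv0
  have hL : 1 + (n : ℝ) ≤ (lg Q : ℝ) ^ (2 * Cτ + 1) := by
    rw [div_pow, one_pow, ← pow_mul, one_div_one_div, mul_comm Cτ 2] at s2
    have e1 : (1 : ℝ) ≤ (lg Q : ℝ) ^ (2 * Cτ) := one_le_pow₀ (by linarith)
    rw [pow_succ]
    nlinarith
  have m := (h4 d.be w 0 0 L' d.be01).2.1
  have b1 := h2 Q a N d.K (fun k => (d.al k : ℂ)) (fun l => (ga d.be w L' l : ℂ)) U f q1 hR d.hK2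
    d.hK' (fun k => by
      rw [Complex.norm_real, Real.norm_of_nonneg (d.al01 k).1]
      exact (d.al01 k).2.trans (rr_bd w k).2)
    (fun l => by
      rw [Complex.norm_real]
      exact (m l).trans (rr_bd w l).2) hU
    (fun k hk => d.alS k fun e => hk (by simp [e])) (s4.mono hL)
  simp only [← funext (cv_ofReal d.al (ga d.be w L'))] at b1
  rw [Bf_split a N _ U (fun b => v b) (fun b => f b) (range n) cf (fun i b => φ i b)
    fun b _ => s3 b]
  refine (norm_add_le _ _).trans ?_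
  have b2 : ‖∑ i ∈ range n, cf i * Bf a N (fun m => ((cv d.al (ga d.be w L') m : ℝ) : ℂ)) U
      (fun b => φ i b)‖ ≤ n * (a * N / (lg Q : ℝ) ^ (A + 1 + (2 * Cτ + 1))) := by
    rw [← nsmul_eq_mul]
    refine (norm_sum_le _ _).trans ((sum_le_card_nsmul _ _ _ fun i hi => ?_).trans
      (by rw [card_range]))
    rw [norm_mul]
    exact (mul_le_of_le_one_left (norm_nonneg _) (s1 i (mem_range.1 hi)).2).trans
      (h3 Q a N w d.toT2 L' (φ i) U q2 hR hG hw l1 l2 (s1 i (mem_range.1 hi)).1 hU)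
  have b3 : n * (a * N / (lg Q : ℝ) ^ (A + 1 + (2 * Cτ + 1))) ≤
      a * N / (lg Q : ℝ) ^ (A + 1) := by
    rw [pow_add _ (A + 1), ← div_div, ← mul_div_assoc, div_le_iff₀ (by positivity), mul_comm]
    gcongr
    linarith
  have b4 : (a : ℝ) * N / (lg Q : ℝ) ^ (A + 1) ≤ 1 / (lg Q : ℝ) ^ A * a * N / 2 := by
    rw [pow_succ, ← div_div, mul_assoc, one_div_mul_eq_div]
    gcongr
    linarith
  linarith

end Pool.Agent.P.MP_746f10_nt.AP
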