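import Pool.Agent.P.MP_746f10_nt.AP.QBase

/-! Pairs near a line of small height are few; off them the planes are separated. -/

namespace Pool.Agent.P.MP_746f10_nt.AP

open Finset

namespace QExclP

lemma one (K H m : ℕ) (t : ℤ) :
    m * ((Icc 1 K).filter fun k : ℕ => |t + m * k| ≤ (H : ℤ)).card ≤ 2 * H + m := by
  set S := (Icc 1 K).filter fun k : ℕ => |t + m * k| ≤ (H : ℤ) with hS
  rcases S.eq_empty_or_nonempty with h | h
  · simp [h]
  have h1 := (mem_filter.1 (S.min'_mem h)).2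
  have h2 := (mem_filter.1 (S.max'_mem h)).2
  have h3 : S ⊆ Icc (S.min' h) (S.max' h) := fun x hx =>
    mem_Icc.2 ⟨S.min'_le x hx, S.le_max' x hx⟩
  have h4 := card_le_card h3
  rw [Nat.card_Icc] at h4
  have h5 : S.min' h ≤ S.max' h := S.min'_le _ (S.max'_mem h)
  obtain ⟨j, hj⟩ := Nat.exists_eq_add_of_le h5
  rw [hj] at h2 h4
  have h6 : S.card ≤ j + 1 := by omega
  have h7 : (m : ℤ) * j ≤ 2 * H := by
    rw [abs_le] at h1 h2
    push_cast at h2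
    nlinarith [h1.1, h2.2]
  have h8 : m * j ≤ 2 * H := by exact_mod_cast h7
  calc m * S.card ≤ m * (j + 1) := by gcongr
    _ = m * j + m := by ring
    _ ≤ _ := by omega

lemma two (K H m : ℕ) (c : ℤ) :
    m * ((Icc 1 K ×ˢ Icc 1 K).filter fun p : ℕ × ℕ => |c * p.1 + m * p.2| ≤ (H : ℤ)).card ≤
      K * (2 * H + m) := by
  rw [card_filter, sum_product, mul_sum]
  calc _ ≤ ∑ _k ∈ Icc 1 K, (2 * H + m) := by
        refine sum_le_sum fun k _ => ?_
        have := one K H m (c * k)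
        rwa [card_filter] at this
    _ = _ := by simp

/-- the pairs with a positive dominant second coefficient -/
noncomputable def AA (K H1 H2 : ℕ) : Finset (ℕ × ℕ) :=
  (Icc 1 H1).biUnion fun m : ℕ => (Icc (-(m : ℤ)) m).biUnion fun c =>
    (Icc 1 K ×ˢ Icc 1 K).filter fun p : ℕ × ℕ => |c * p.1 + m * p.2| ≤ (H2 : ℤ)

lemma AA_card (K H1 H2 : ℕ) : (AA K H1 H2).card ≤ 6 * K * H1 * (H1 + H2) := by
  refine card_biUnion_le.trans ?_
  calc _ ≤ ∑ _m ∈ Icc 1 H1, 6 * K * (H1 + H2) := by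
        refine sum_le_sum fun m hm => ?_
        obtain ⟨hm1, hm2⟩ := mem_Icc.1 hm
        refine card_biUnion_le.trans ?_
        refine Nat.le_of_mul_le_mul_left ?_ (show 0 < m by omega)
        rw [mul_sum]
        calc _ ≤ ∑ _c ∈ Icc (-(m : ℤ)) m, K * (2 * H2 + m) :=
              sum_le_sum fun c _ => two K H2 m c
          _ = (2 * m + 1) * (K * (2 * H2 + m)) := by
              rw [sum_const, Int.card_Icc, smul_eq_mul]
              congr 1
              omega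
          _ ≤ (3 * m) * (K * (2 * H2 + 2 * H1)) := by gcongr <;> omega
          _ = _ := by ring
    _ = _ := by simp; ring

lemma mem_AA {K H1 H2 k k' : ℕ} (hk : k ∈ Icc 1 K) (hk' : k' ∈ Icc 1 K) {c1 c2 : ℤ}
    (h0 : c2 ≠ 0) (h1 : |c1| ≤ |c2|) (h2 : |c2| ≤ H1) (h3 : |c1 * k + c2 * k'| ≤ H2) :
    (k, k') ∈ AA K H1 H2 := by
  have ha : ((c2.natAbs : ℕ) : ℤ) = |c2| := Int.natCast_natAbs c2
  have hp : 0 < |c2| := abs_pos.2 h0
  refine mem_biUnion.2 ⟨c2.natAbs, mem_Icc.2 ⟨by omega, by omega⟩, ?_⟩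
  rw [ha]
  rcases le_total 0 c2 with h | h
  · refine mem_biUnion.2 ⟨c1, mem_Icc.2 (abs_le.1 h1), mem_filter.2 ⟨mem_product.2 ⟨hk, hk'⟩, ?_⟩⟩
    rw [abs_of_nonneg h]
    exact h3
  · refine mem_biUnion.2 ⟨-c1, mem_Icc.2 (abs_le.1 (by rwa [abs_neg])),
      mem_filter.2 ⟨mem_product.2 ⟨hk, hk'⟩, ?_⟩⟩
    rw [abs_of_nonpos h, ← abs_neg]
    convert h3 using 2
    ring

open Classical in
lemma count (K H1 H2 : ℕ) :
    ((Icc 1 K ×ˢ Icc 1 K).filter fun p => Ex2 H1 H2 p.1 p.2).card ≤ 12 * K * H1 * (H1 + H2) := by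
  have hs : ((Icc 1 K ×ˢ Icc 1 K).filter fun p => Ex2 H1 H2 p.1 p.2) ⊆
      AA K H1 H2 ∪ (AA K H1 H2).image Prod.swap := by
    rintro ⟨k, k'⟩ hp
    obtain ⟨hp1, c1, c2, h0, h1, h2, h3⟩ := mem_filter.1 hp
    obtain ⟨hk, hk'⟩ := mem_product.1 hp1
    rcases le_total |c1| |c2| with h | h
    · refine mem_union_left _ (mem_AA hk hk' (fun h' => h0 ⟨?_, h'⟩) h h2 h3)
      rw [h', abs_zero] at h
      exact abs_nonpos_iff.1 h
    · refine mem_union_right _ (mem_image.2 ⟨(k', k), mem_AA hk' hk (fun h' => h0 ⟨h', ?_⟩) h h1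
        (by rw [add_comm]; exact h3), rfl⟩)
      rw [h', abs_zero] at h
      exact abs_nonpos_iff.1 h
  have h1 := AA_card K H1 H2
  have h2 : ((AA K H1 H2).image Prod.swap).card ≤ (AA K H1 H2).card := card_image_le
  calc _ ≤ _ := card_le_card hs
    _ ≤ _ := card_union_le _ _
    _ ≤ 6 * K * H1 * (H1 + H2) + 6 * K * H1 * (H1 + H2) := add_le_add h1 (h2.trans h1)
    _ = _ := by ring

lemma sep (d Y k k' : ℕ) (r r' : ℤ) (hd : 1 ≤ d) (hE : ¬ Ex2 (2 * d ^ 2) (d ^ 2 * Y) k k')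
    (h : Sp d k k' r) (h' : Sp d k k' r') (hr : r ≠ r') : (Y : ℤ) ≤ |r - r'| := by
  obtain ⟨d1, d2, d3, h0, h1, h2, h3, h4⟩ := h
  obtain ⟨e1, e2, e3, g0, g1, g2, g3, g4⟩ := h'
  have hd' : (1 : ℤ) ≤ d := by exact_mod_cast hd
  have hdd : (d : ℤ) ≤ ((2 * d ^ 2 : ℕ) : ℤ) := by push_cast; nlinarith
  have hY : (0 : ℤ) ≤ ((d ^ 2 * Y : ℕ) : ℤ) := by positivity
  have hd3 : d3 ≠ 0 := by
    rintro rfl
    refine hE ⟨d1, d2, fun hh => h0 ⟨hh.1, hh.2, rfl⟩, h1.trans hdd, h2.trans hdd, ?_⟩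
    have : d1 * k + d2 * k' = 0 := by linarith
    rw [this, abs_zero]
    exact hY
  have he3 : e3 ≠ 0 := by
    rintro rfl
    refine hE ⟨e1, e2, fun hh => g0 ⟨hh.1, hh.2, rfl⟩, g1.trans hdd, g2.trans hdd, ?_⟩
    have : e1 * k + e2 * k' = 0 := by linarith
    rw [this, abs_zero]
    exact hY
  have key : (d3 * e1 - e3 * d1) * k + (d3 * e2 - e3 * d2) * k' = d3 * e3 * (r - r') := by
    linear_combination d3 * g4 - e3 * h4
  have bd : ∀ x y : ℤ, |x| ≤ d → |y| ≤ d → |d3 * x - e3 * y| ≤ ((2 * d ^ 2 : ℕ) : ℤ) := by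
    intro x y hx hy
    calc _ ≤ |d3 * x| + |e3 * y| := abs_sub _ _
      _ = |d3| * |x| + |e3| * |y| := by rw [abs_mul, abs_mul]
      _ ≤ d * d + d * d := by gcongr
      _ = _ := by push_cast; ring
  by_contra hn
  push Not at hn
  refine hE ⟨d3 * e1 - e3 * d1, d3 * e2 - e3 * d2, fun hh => ?_, bd _ _ g1 h1, bd _ _ g2 h2, ?_⟩
  · rw [hh.1, hh.2] at key
    have : d3 * e3 * (r - r') ≠ 0 := mul_ne_zero (mul_ne_zero hd3 he3) (sub_ne_zero.2 hr)
    exact this (by linarith)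
  · rw [key, abs_mul, abs_mul]
    calc |d3| * |e3| * |r - r'| ≤ d * d * Y := by gcongr
      _ = _ := by push_cast; ring

end QExclP

theorem qExcl : T_Excl := by
  refine ⟨⟨12, by norm_num, fun K H1 H2 => ?_⟩, QExclP.sep⟩
  exact_mod_cast QExclP.count K H1 H2

end Pool.Agent.P.MP_746f10_nt.AP
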