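import Pool.Agent.P.MP_746f10_nt.AP.QBase

/-! The Fejer kernel on the residues, centred in an initial interval. -/

namespace Pool.Agent.P.MP_746f10_nt.AP

open Finset ComplexConjugate
open Pool.Agent.P.MP_0ad054_nt (e e_add e_zero norm_e conj_e dn four_dn_le geom_range)

namespace QFejP

theorem std_eq (q : ℕ) [NeZero q] (j : ℤ) : ZMod.stdAddChar (j : ZMod q) = e (j / q) := by
  rw [ZMod.stdAddChar_coe, e]
  congr 1
  push_cast
  ring

variable {a : ℕ} [NeZero a]

/-- the kernel with centre `c` -/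
noncomputable def om (R : ℕ) (c : ℝ) (z : ZMod a) : ℝ :=
  1 / (a * R : ℝ) * ‖∑ j ∈ range R, e ((z.val - c) / a * j)‖ ^ 2

/-- its Fourier coefficients -/
noncomputable def fe (a R : ℕ) (c : ℝ) (r : ℤ) : ℂ :=
  1 / (R : ℂ) * ∑ _p ∈ (range R ×ˢ range R).filter (fun p : ℕ × ℕ => (p.2 : ℤ) - p.1 = r),
    e (r * c / a)

theorem om_eq (R : ℕ) (c : ℝ) (z : ZMod a) : (om R c z : ℂ) = 1 / (a * R : ℂ) *
    ∑ p ∈ range R ×ˢ range R, e ((((p.2 : ℤ) - p.1 : ℤ) : ℝ) * c / a) *
      ZMod.stdAddChar (-((((p.2 : ℤ) - p.1 : ℤ) : ZMod a) * z)) := by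
  unfold om
  push_cast
  congr 1
  rw [← Complex.mul_conj', map_sum, sum_mul_sum, ← sum_product']
  refine sum_congr rfl fun p _ => ?_
  have h1 : -(((p.2 : ZMod a) - p.1) * z) = ((-(((p.2 : ℤ) - p.1) * z.val) : ℤ) : ZMod a) := by
    push_cast
    rw [ZMod.natCast_zmod_val]
  rw [h1, std_eq, conj_e, ← e_add, ← e_add]
  congr 1
  push_cast
  ring

theorem om_eq' (R : ℕ) (c : ℝ) (z : ZMod a) : (om R c z : ℂ) = 1 / (a : ℂ) *
    ∑ r ∈ Icc (-(R : ℤ)) R, fe a R c r * ZMod.stdAddChar (-((r : ZMod a) * z)) := by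
  rw [om_eq, ← sum_fiberwise_of_maps_to (t := Icc (-(R : ℤ)) R)
    (g := fun p : ℕ × ℕ => (p.2 : ℤ) - p.1) fun p hp => by
      have h1 := mem_range.1 (mem_product.1 hp).1
      have h2 := mem_range.1 (mem_product.1 hp).2
      exact mem_Icc.2 ⟨by omega, by omega⟩, mul_sum, mul_sum]
  refine sum_congr rfl fun r _ => ?_
  unfold fe
  rw [mul_assoc, sum_mul, ← mul_assoc, one_div_mul_one_div]
  congr 1
  exact sum_congr rfl fun p hp => by rw [(mem_filter.1 hp).2]

omit [NeZero a] in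
theorem fe_bd {R : ℕ} (hR : 1 ≤ R) (c : ℝ) (r : ℤ) : ‖fe a R c r‖ ≤ 1 := by
  unfold fe
  rw [norm_mul, norm_div, norm_one, Complex.norm_natCast, one_div,
    inv_mul_le_iff₀ (by exact_mod_cast hR), mul_one, sum_const, nsmul_eq_mul, norm_mul, norm_e,
    mul_one, Complex.norm_natCast, Nat.cast_le]
  refine (card_le_card_of_injOn (t := range R) Prod.fst
    (fun p hp => (mem_product.1 (mem_filter.1 hp).1).1) fun p hp q hq h => ?_).trans
    (card_range R).le
  have h1 := (mem_filter.1 hp).2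
  have h2 := (mem_filter.1 hq).2
  exact Prod.ext h (by omega)

theorem om_one {R : ℕ} (hR : 1 ≤ R) (hRa : R ≤ a) (c : ℝ) : ∑ z : ZMod a, om R c z = 1 := by
  have ha : (a : ℂ) ≠ 0 := by exact_mod_cast NeZero.ne a
  have hR' : (R : ℂ) ≠ 0 := by exact_mod_cast (by omega : R ≠ 0)
  apply Complex.ofReal_injective
  rw [Complex.ofReal_sum, sum_congr rfl fun z _ => om_eq R c z, ← mul_sum, sum_comm]
  have h1 : ∀ p ∈ range R ×ˢ range R, ∑ z : ZMod a, e ((((p.2 : ℤ) - p.1 : ℤ) : ℝ) * c / a) *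
      ZMod.stdAddChar (-((((p.2 : ℤ) - p.1 : ℤ) : ZMod a) * z)) =
      if p.1 = p.2 then (a : ℂ) else 0 := by
    intro p hp
    have h2 := mem_range.1 (mem_product.1 hp).1
    have h3 := mem_range.1 (mem_product.1 hp).2
    rw [← mul_sum, sum_congr rfl fun z _ => show ZMod.stdAddChar
      (-((((p.2 : ℤ) - p.1 : ℤ) : ZMod a) * z)) = ZMod.stdAddChar (z * ((p.1 : ZMod a) - (p.2 : ZMod a))) by
        congr 1; push_cast; ring, AddChar.sum_mulShift _ (ZMod.isPrimitive_stdAddChar a)]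
    by_cases h : p.1 = p.2
    · simp [h, e_zero]
    · rw [if_neg h, if_neg fun h0 => h ?_]
      · simp
      have h4 := (ZMod.natCast_eq_natCast_iff' _ _ _).1 (sub_eq_zero.1 h0)
      rwa [Nat.mod_eq_of_lt (by omega), Nat.mod_eq_of_lt (by omega)] at h4
  rw [sum_congr rfl h1, sum_product]
  rw [sum_congr rfl fun j hj => show ∑ j' ∈ range R, (if j = j' then (a : ℂ) else 0) = a by
    rw [sum_ite_eq, if_pos hj], sum_const, card_range, nsmul_eq_mul, Complex.ofReal_one]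
  field_simp

theorem ker {R : ℕ} (hR : 1 ≤ R) (hRa : R ≤ a) (c : ℝ) :
    Ker (a := a) R (om R c) (fe a R c) where
  nn z := by unfold om; positivity
  one := om_one hR hRa c
  bd := fe_bd hR c
  eq W y := by
    rw [sum_congr rfl fun z _ => by rw [om_eq', mul_assoc, sum_mul], ← mul_sum, sum_comm, mul_sum]
    refine sum_congr rfl fun r _ => ?_
    unfold wh
    rw [← Equiv.sum_comp (Equiv.addLeft y) (fun z => W z * ZMod.stdAddChar (-((r : ZMod a) * z))),
      mul_assoc, mul_assoc, sum_mul, mul_left_comm (fe a R c r), mul_sum _ _ (fe a R c r)]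
    congr 1
    refine sum_congr rfl fun z _ => ?_
    rw [Equiv.coe_addLeft, mul_assoc (W _), ← AddChar.map_add_eq_mul,
      show -((r : ZMod a) * (y + z)) + r * y = -(r * z) by ring]
    ring

theorem dn_ge {x d : ℝ} (h1 : d ≤ x) (h2 : d ≤ 1 - x) : d ≤ dn x := by
  unfold dn
  rcases le_or_gt (round x) 0 with h | h
  · have : (round x : ℝ) ≤ 0 := by exact_mod_cast h
    exact le_trans (by linarith) (le_abs_self _)
  · have : (1 : ℝ) ≤ round x := by exact_mod_cast h
    exact le_trans (by linarith) (neg_le_abs _)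

theorem geom_sq {x d : ℝ} (hd : 0 < d) (h : d ≤ dn x) (n : ℕ) :
    ‖∑ j ∈ range n, e (x * j)‖ ^ 2 ≤ 1 / (4 * d ^ 2) := by
  have h1 : ‖∑ j ∈ range n, e (x * j)‖ * ‖e x - 1‖ ≤ 2 := by
    rw [← norm_mul, geom_range]
    exact (norm_sub_le _ _).trans (by rw [norm_e, norm_one]; norm_num)
  have h2 := four_dn_le x
  have h3 : ‖∑ j ∈ range n, e (x * j)‖ * (2 * d) ≤ 1 := by
    nlinarith [norm_nonneg (∑ j ∈ range n, e (x * j))]
  have h4 := pow_le_pow_left₀ (by positivity) h3 2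
  rw [le_div_iff₀ (by positivity)]
  nlinarith

/-- the telescoping majorant -/
noncomputable def HH (a J v : ℕ) : ℝ := 1 / (a - v + J / 2 : ℝ) - 1 / (v - J / 2 : ℝ)

theorem inv_sq_le {s : ℝ} (h : 1 / 2 < s) : 1 / s ^ 2 ≤ 1 / (s - 1 / 2) - 1 / (s + 1 / 2) := by
  have h1 : 0 < s - 1 / 2 := by linarith
  have h2 : 0 < s + 1 / 2 := by linarith
  rw [div_sub_div _ _ h1.ne' h2.ne', div_le_div_iff₀ (by nlinarith) (mul_pos h1 h2)]
  nlinarith

theorem om_le {R J : ℕ} (hR : 1 ≤ R) (hJ : 1 ≤ J) (z : ZMod a) (hz : J ≤ z.val) :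
    om R ((J - 1) / 2) z ≤ a / (4 * R) * (HH a J (z.val + 1) - HH a J z.val) := by
  have ha : (0 : ℝ) < a := by exact_mod_cast NeZero.pos a
  have hR' : (0 : ℝ) < R := by exact_mod_cast hR
  have hJ' : (1 : ℝ) ≤ J := by exact_mod_cast hJ
  have h1 : (J : ℝ) ≤ z.val := by exact_mod_cast hz
  have h2 : (z.val : ℝ) + 1 ≤ a := by exact_mod_cast ZMod.val_lt z
  set s : ℝ := z.val - (J - 1) / 2 with hs
  have h3 : 1 / 2 < s := by linarith
  have h4 : 1 / 2 < a - s := by linarith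
  have h5 : 1 / s ^ 2 + 1 / (a - s) ^ 2 ≤ HH a J (z.val + 1) - HH a J z.val := by
    have h6 := inv_sq_le h3
    have h7 := inv_sq_le h4
    unfold HH
    push_cast
    rw [show s - 1 / 2 = z.val - J / 2 by rw [hs]; ring,
      show s + 1 / 2 = z.val + 1 - J / 2 by rw [hs]; ring] at h6
    rw [show a - s - 1 / 2 = a - (z.val + 1) + J / 2 by rw [hs]; ring,
      show a - s + 1 / 2 = a - z.val + J / 2 by rw [hs]; ring] at h7
    linarith
  have h0 : 0 < min s (a - s) := lt_min (by linarith) (by linarith)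
  have h8 : 1 / (min s (a - s)) ^ 2 ≤ 1 / s ^ 2 + 1 / (a - s) ^ 2 := by
    rcases min_choice s (a - s) with h | h <;> rw [h]
    · exact le_add_of_nonneg_right (by positivity)
    · exact le_add_of_nonneg_left (by positivity)
  have h9 := geom_sq (x := s / a) (d := min s (a - s) / a) (by positivity)
    (dn_ge (by gcongr; exact min_le_left _ _) (by
      rw [one_sub_div ha.ne']; gcongr; exact min_le_right _ _)) R
  unfold om
  calc _ ≤ 1 / (a * R : ℝ) * (1 / (4 * (min s (a - s) / a) ^ 2)) := by gcongr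
    _ = a / (4 * R) * (1 / (min s (a - s)) ^ 2) := by field_simp
    _ ≤ _ := by gcongr; exact h8.trans h5

end QFejP

open QFejP in
theorem qFej : T_Fej := by
  intro a _ R J hR hRa hJ
  refine ⟨QFejP.om R ((J - 1) / 2), fe a R ((J - 1) / 2), ker hR hRa _, ?_⟩
  have ha : (0 : ℝ) < a := by exact_mod_cast NeZero.pos a
  have hR' : (0 : ℝ) < R := by exact_mod_cast hR
  have hJ' : (0 : ℝ) < J := by exact_mod_cast hJ
  rcases le_or_gt J a with hJa | hJa
  swap
  · rw [filter_false_of_mem fun z _ h => by have := ZMod.val_lt z; omega, sum_empty]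
    positivity
  have hJa' : (J : ℝ) ≤ a := by exact_mod_cast hJa
  refine (sum_le_sum fun z hz => om_le hR hJ z (mem_filter.1 hz).2).trans ?_
  rw [← mul_sum, sum_nbij' (t := Ico J a) (g := fun v => HH a J (v + 1) - HH a J v) ZMod.val
    Nat.cast (fun z hz => mem_Ico.2 ⟨(mem_filter.1 hz).2, ZMod.val_lt z⟩)
    (fun v hv => mem_filter.2 ⟨mem_univ _, by
      rw [ZMod.val_cast_of_lt (mem_Ico.1 hv).2]; exact (mem_Ico.1 hv).1⟩)
    (fun z _ => ZMod.natCast_zmod_val z) (fun v hv => ZMod.val_cast_of_lt (mem_Ico.1 hv).2)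
    fun _ _ => rfl, sum_Ico_sub _ hJa]
  have h1 : HH a J a - HH a J J ≤ 4 / J := by
    unfold HH
    have h2 : (0 : ℝ) ≤ 1 / (a - J / 2) := by
      have : (0 : ℝ) < a - J / 2 := by linarith
      positivity
    have h3 : (0 : ℝ) ≤ 1 / (a - J + J / 2) := by
      have : (0 : ℝ) < a - J + J / 2 := by linarith
      positivity
    have h4 : 1 / ((a : ℝ) - a + J / 2) = 2 / J := by rw [sub_self, zero_add]; field_simp
    have h5 : 1 / ((J : ℝ) - J / 2) = 2 / J := by
      rw [show (J : ℝ) - J / 2 = J / 2 by ring]; field_simp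
    have h6 : (4 : ℝ) / J = 2 / J + 2 / J := by ring
    linarith
  calc _ ≤ a / (4 * R) * (4 / J : ℝ) := by gcongr
    _ = a / (R * J) := by field_simp
    _ ≤ _ := by gcongr; linarith

end Pool.Agent.P.MP_746f10_nt.AP
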