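import Pool.Agent.P.MP_746f10_nt.AP.QBase
import Pool.Agent.P.MP_746f10_nt.AP.G

/-! The approximation of the primes by a function close to the model, for general moduli. -/

namespace Pool.Agent.P.MP_746f10_nt.AP

open Finset Filter

namespace QGP

lemma card_Pats2 (u Q : ℕ) (hg : 5 ≤ lg Q) :
    (Pats2 u Q).card ≤ (3 * u + 1) * (3 * lg Q) ^ (3 * u) := by
  have hs : Pats2 u Q ⊆ (range (3 * u + 1)).biUnion
      fun i => powersetCard i (Icc (lg Q / u) (2 * lg Q + 4)) := by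
    intro S hS
    unfold Pats2 at hS
    rw [mem_filter, mem_powerset] at hS
    exact mem_biUnion.2 ⟨S.card, mem_range.2 (by have := hS.2.1; omega),
      mem_powersetCard.2 ⟨hS.1, rfl⟩⟩
  refine (card_le_card hs).trans (card_biUnion_le.trans ?_)
  refine (sum_le_card_nsmul _ _ ((3 * lg Q) ^ (3 * u)) fun i hi => ?_).trans (by simp)
  rw [card_powersetCard]
  have hn : (Icc (lg Q / u) (2 * lg Q + 4)).card ≤ 3 * lg Q := by
    rw [Nat.card_Icc]
    exact (Nat.sub_le _ _).trans (by omega)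
  have hi' := mem_range.1 hi
  calc _ ≤ (Icc (lg Q / u) (2 * lg Q + 4)).card ^ i := Nat.choose_le_pow _ _
    _ ≤ (3 * lg Q) ^ i := Nat.pow_le_pow_left hn _
    _ ≤ _ := Nat.pow_le_pow_right (by omega) (by omega)

lemma cp_dd {a m : ℕ} (h : m.Coprime a) (g : ℕ) : cp a g * dd m g = dd m g := by
  unfold dd
  split_ifs with h0
  · rw [cp_of (h.coprime_dvd_left h0), one_mul]
  · rw [mul_zero]

end QGP

open GP QGP

theorem qG (h1 : T_Ident) (h2 : S_Bad) (h3 : S_A) (h4 : T_TIM) (h5 : T_II) : T_G := by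
  intro ε A hε
  obtain ⟨u, hu, hA⟩ := h3 (ε / 2) (by positivity)
  obtain ⟨C1, hT⟩ := h4 (A + 1)
  obtain ⟨A', B, Ch, C2, hI⟩ := h5 u (A + 3 * u + 1) hu
  refine ⟨u, A', B, Ch, C1 + C2 + 1, hu, fun Cw => ?_⟩
  obtain ⟨QA, hA⟩ := hA Cw
  obtain ⟨QT, hT⟩ := hT Cw
  obtain ⟨QI, hI⟩ := hI Cw
  obtain ⟨Q1, hd⟩ := h1 u hu
  obtain ⟨Q2, hb⟩ := h2 u (ε / 2 / (3 * 2 ^ (3 * u))) hu (by positivity)
  obtain ⟨Q3, hg⟩ := ev_lg ((eventually_ge_atTop (2 * (3 * u + 1) * 6 ^ (3 * u))).and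
    (eventually_ge_atTop 5))
  refine ⟨QA + QT + QI + Q1 + Q2 + Q3 + 1, fun Q w hQ hw hw' => ?_⟩
  obtain ⟨hg1, hg5⟩ := hg Q (by omega)
  have hw2 : 2 ≤ w := le_trans (le_trans (by omega) (Nat.le_self_pow (by omega) (lg Q))) hw
  have hw3 : lg Q ^ C1 ≤ w := (Nat.pow_le_pow_right (by omega) (by omega)).trans hw
  have hw4 : lg Q ^ C2 ≤ w := (Nat.pow_le_pow_right (by omega) (by omega)).trans hw
  obtain ⟨D2, lam, err, hD, hl, hr, he0, hes, he⟩ := hA Q w (by omega) hw2 hw'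
  refine ⟨fun m => rr w m * ∑ g ∈ Icc 1 D2, lam g * dd m g +
    ∑ S ∈ Pats2 u Q, -sg Q S * CS S m, fun m => 3 * 2 ^ (3 * u) * bad u Q m + err m,
    fun m => add_nonneg (mul_nonneg (by positivity) (bad_bd u Q m).1) (he0 m), ?_,
    fun m hm hm' => ?_, fun a N ha haE => ?_⟩
  · rw [sum_add_distrib, ← mul_sum]
    have h6 := hb Q (by omega)
    have h7 : (3 * 2 ^ (3 * u) : ℝ) * ∑ m ∈ Ico 1 (4 * Q ^ 2), bad u Q m ≤
        ε / 2 * (Q : ℝ) ^ 2 / lg Q := by
      calc _ ≤ (3 * 2 ^ (3 * u) : ℝ) * (ε / 2 / (3 * 2 ^ (3 * u)) * (Q : ℝ) ^ 2 / lg Q) := by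
            gcongr
        _ = _ := by field_simp
    calc _ ≤ ε / 2 * (Q : ℝ) ^ 2 / lg Q + ε / 2 * (Q : ℝ) ^ 2 / lg Q := add_le_add h7 hes
      _ = _ := by ring
  · have h6 := hd Q m (by omega) hm hm'
    have h7 := he m (le_trans (Nat.one_le_pow _ _ (by omega)) hm)
    simp only [neg_mul, sum_neg_distrib]
    refine le_trans (le_of_eq ?_) ((abs_add_le _ _).trans (add_le_add h6 h7))
    congr 1
    ring
  · have hT' := hT Q a N w D2 (fun g => lam g * cp a g) (by omega) ha hw3 hw' hD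
      (fun g => by
        rw [abs_mul, abs_of_nonneg (cp_bd a g).1]
        exact mul_le_one₀ (hl g) (cp_bd a g).1 (cp_bd a g).2)
      fun g h0 => ⟨by_contra fun h6 => h0 (by rw [cp_of_not h6, mul_zero]),
        hr g (left_ne_zero_of_mul h0)⟩
    have a1 : ApproxC a N w (N / lg Q ^ Ch) (fun m => rr w m * ∑ g ∈ Icc 1 D2, lam g * dd m g)
        (1 / (lg Q : ℝ) ^ (A + 1)) :=
      ⟨fun _ => ∑ g ∈ Icc 1 D2, lam g * cp a g * (1 / g), hT'.congr fun n _ b _ h0 => by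
        simp only [mul_sub, sum_sub_distrib, mul_assoc (lam _) (cp a _) (dd _ _), cp_dd h0]
        ring⟩
    have a2 := approxC_sum (a := a) (N := N) (w := w) (h := N / lg Q ^ Ch) (Pats2 u Q)
      (fun S m => -sg Q S * CS S m)
      (fun _ => 2 ^ (3 * u) * (1 / (lg Q : ℝ) ^ (A + 3 * u + 1))) fun S hS => by
        refine (hI Q a N w S (by omega) ha haE hw4 hw' hS).smul (by positivity) ?_
        rw [abs_neg]
        refine (abs_sg_le Q S).trans (pow_le_pow_right₀ one_le_two ?_)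
        unfold Pats2 at hS
        exact (mem_filter.1 hS).2.1
    refine (a1.add a2).mono ?_
    rw [sum_const, nsmul_eq_mul]
    exact total u A _ _ hg1 (by omega) (card_Pats2 u Q hg5)

end Pool.Agent.P.MP_746f10_nt.AP
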