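import Pool.Agent.P.MP_746f10_nt.AP.QBase
import Pool.Agent.P.MP_746f10_nt.AP.Gam

/-! The sum of the Fourier coefficients over a box of triples, general modulus. -/

namespace Pool.Agent.P.MP_746f10_nt.AP

open Finset

namespace QGamP

open GamP

variable {a : ℕ} [NeZero a]

/-- the weight of a triple -/
noncomputable def Wt (f : ZMod a → ℂ) (t : (ℕ × ℕ) × ℤ) : ℝ := G3 f t.1.1 t.1.2 t.2

lemma Wt_nonneg (f : ZMod a → ℂ) (t : (ℕ × ℕ) × ℤ) : 0 ≤ Wt f t := sq_nonneg _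

omit [NeZero a] in
lemma card_le (K : ℕ) (Q : ℕ × ℕ → Prop) [DecidablePred Q] :
    ((Pc a K).filter Q).card ≤ ((Icc 1 K ×ˢ Icc 1 K).filter Q).card :=
  card_le_card (filter_subset_filter _ (filter_subset _ _))

lemma sum_filter_prod (S : Finset (ℕ × ℕ)) (I : Finset ℤ) (W : (ℕ × ℕ) × ℤ → ℝ)
    (Q : (ℕ × ℕ) × ℤ → Prop) [DecidablePred Q] (Q' : ℕ × ℕ → ℤ → Prop)
    [∀ p, DecidablePred (Q' p)] (h : ∀ p r, Q (p, r) ↔ Q' p r) :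
    ∑ t ∈ (S ×ˢ I).filter Q, W t = ∑ p ∈ S, ∑ r ∈ I.filter (Q' p), W (p, r) := by
  rw [sum_filter, sum_product]
  refine sum_congr rfl fun p _ => ?_
  rw [sum_filter]
  refine sum_congr rfl fun r _ => ?_
  by_cases hq : Q' p r
  · rw [if_pos hq, if_pos ((h p r).2 hq)]
  · rw [if_neg hq, if_neg fun h' => hq ((h p r).1 h')]

open Classical in
lemma plane_bd (h4 : T_Plane) {f : ZMod a → ℂ} {τ F : ℝ} {ρ K R g : ℕ}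
    (hM : Mq f (Fam a ρ) τ F)
    (hB : ∀ p ∈ Pc a K, ∑ r ∈ Icc (-(R : ℤ)) R, Wt f (p, r) ≤ F ^ 4)
    (hg : 1 ≤ g) {d : ℤ × ℤ × ℤ} (hd : d ∈ Dv ρ) :
    ∑ t ∈ (Pc a K ×ˢ Icc (-(R : ℤ)) R).filter (Pl d), Wt f t ≤
      16 * ((g * ρ * a + (K : ℝ) ^ 2) * τ ^ 2 + (K : ℝ) ^ 2 * F ^ 4 / g + K * F ^ 4) := by
  obtain ⟨d1, d2, d3⟩ := d
  obtain ⟨hd0, hd1, -, hd3⟩ := mem_Dv.1 hd
  have hF : 0 ≤ F ^ 4 := by positivity
  have t1 : 0 ≤ (g * ρ * a + (K : ℝ) ^ 2) * τ ^ 2 := by positivity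
  have t2 : 0 ≤ (K : ℝ) ^ 2 * F ^ 4 / g := by positivity
  have t3 : 0 ≤ (K : ℝ) * F ^ 4 := by positivity
  by_cases h0 : d3 = 0
  · subst h0
    have h5 : d1 ≠ 0 ∨ d2 ≠ 0 := by
      by_contra h5
      push Not at h5
      exact hd0 (by rw [h5.1, h5.2]; rfl)
    have h6 : (((Pc a K).filter
        (fun p : ℕ × ℕ => d1 * (p.1 : ℤ) + d2 * (p.2 : ℤ) = 0)).card : ℝ) ≤ K := by
      exact_mod_cast (card_le K _).trans (line_card K d1 d2 h5)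
    have h7 := pairs_le _ _ (Wt f) _ (fun p => d1 * (p.1 : ℤ) + d2 * (p.2 : ℤ) = 0) hB
    have h8 := mul_le_mul_of_nonneg_right h6 hF
    rw [filter_congr (q := fun t : (ℕ × ℕ) × ℤ => d1 * (t.1.1 : ℤ) + d2 * (t.1.2 : ℤ) = 0)
      fun t _ => by simp only [Pl, zero_mul, add_zero]]
    linarith
  · rw [sum_filter_prod _ _ _ _ (fun p r => d1 * (p.1 : ℤ) + d2 * (p.2 : ℤ) + d3 * r = 0)
      fun _ _ => Iff.rfl]
    refine (h4 a f ρ K g R τ F d1 d2 d3 hM hg hd1 h0 hd3).trans ?_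
    have h10 : 0 ≤ (g : ℝ) * ρ * a * τ ^ 2 := by positivity
    have h11 : (K : ℝ) ^ 2 / g * F ^ 4 = (K : ℝ) ^ 2 * F ^ 4 / g := by ring
    have h12 : (g * ρ * a + 16 * (K : ℝ) ^ 2) * τ ^ 2 =
        16 * ((g * ρ * a + (K : ℝ) ^ 2) * τ ^ 2) - 15 * (g * ρ * a * τ ^ 2) := by ring
    linarith

lemma not_sp {ρ : ℕ} {p : ℕ × ℕ} {r : ℤ} :
    (∀ d ∈ Dv ρ, ¬ Pl d (p, r)) ↔ ¬ Sp ρ p.1 p.2 r := by
  constructor
  · rintro h ⟨d1, d2, d3, h0, h1, h2, h3, h4⟩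
    refine h (d1, d2, d3) (mem_Dv.2 ⟨fun h5 => h0 ?_, h1, h2, h3⟩) h4
    simpa only [Prod.mk_eq_zero] using h5
  · rintro h ⟨d1, d2, d3⟩ hd h4
    obtain ⟨h0, h1, h2, h3⟩ := mem_Dv.1 hd
    refine h ⟨d1, d2, d3, fun h5 => h0 ?_, h1, h2, h3, h4⟩
    rw [h5.1, h5.2.1, h5.2.2]
    rfl

lemma fin_ineq {C M P G Z : ℝ} (hC : 0 < C) (hMP : M ≤ P) (hP : 0 ≤ P) (hG : 0 ≤ G) (hZ : 0 ≤ Z) :
    M + 432 * P + (G + C * Z) ≤ (433 + C) * (P + G + Z) := by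
  nlinarith [mul_nonneg hC.le hP, mul_nonneg hC.le hG]

end QGamP

open QGamP

theorem qGam (h1 : T_GamH) (h2 : T_Pair) (h3 : T_Mass) (h4 : T_Plane) : T_Gam := by
  classical
  obtain ⟨C, hC, h1⟩ := h1
  refine ⟨433 + C, by positivity, fun a _ f τ F ρ K R g hM hρ hg hK hKR ha => ?_⟩
  have ha2 : 2 * R < a := by nlinarith
  have hρ0 : (1 : ℝ) ≤ ρ := by exact_mod_cast (by omega : 1 ≤ ρ)
  obtain ⟨-, m2, -⟩ := h3 a f _ τ F hM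
  have hB : ∀ p ∈ Pc a K, ∑ r ∈ Icc (-(R : ℤ)) R, Wt f (p, r) ≤ F ^ 4 :=
    fun p _ => m2 p.1 p.2 R ha2
  have hF : 0 ≤ F ^ 4 := by positivity
  have t1 : 0 ≤ (g * ρ * a + (K : ℝ) ^ 2) * τ ^ 2 := by positivity
  have t2 : 0 ≤ (K : ℝ) ^ 2 * F ^ 4 / g := by positivity
  have t3 : 0 ≤ (K : ℝ) * F ^ 4 := by positivity
  have b2 := fun d => plane_bd h4 hM hB hg (d := d)
  obtain ⟨M, hMd⟩ : ∃ M : ℝ,
    M = (g * ρ * a + (K : ℝ) ^ 2) * τ ^ 2 + (K : ℝ) ^ 2 * F ^ 4 / g + K * F ^ 4 := ⟨_, rfl⟩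
  rw [← hMd] at b2 ⊢
  have hM0 : 0 ≤ M := by linarith
  have e0 : ∑ p ∈ Pc a K, ∑ r ∈ Icc (-(R : ℤ)) R, G3 f p.1 p.2 r =
      ∑ t ∈ Pc a K ×ˢ Icc (-(R : ℤ)) R, Wt f t := by
    rw [sum_product]
    rfl
  rw [e0]
  have hsp := GamP.split3 (Pc a K ×ˢ Icc (-(R : ℤ)) R) (GamP.Dv ρ)
    (fun t => g < Nat.gcd t.1.1 t.1.2) GamP.Pl (Wt f) fun _ => Wt_nonneg _ _
  obtain ⟨Z, hZ⟩ : ∃ Z : ℝ,
    Z = (R : ℝ) ^ 2 / ρ + R * (a : ℝ) ^ (1 / 3 : ℝ) + (R : ℝ) ^ 3 / a := ⟨_, rfl⟩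
  have hZ0 : 0 ≤ Z := by rw [hZ]; positivity
  have c3 : (ρ : ℝ) ^ 3 * M + g * a + (R : ℝ) ^ 2 / ρ + R * (a : ℝ) ^ (1 / 3 : ℝ) +
      (R : ℝ) ^ 3 / a = (ρ : ℝ) ^ 3 * M + g * a + Z := by rw [hZ]; ring
  rw [c3]
  refine hsp.trans (le_trans (add_le_add (add_le_add ?_ ?_) ?_) (fin_ineq (M := M) hC
    (le_mul_of_one_le_left hM0 (one_le_pow₀ hρ0)) (by positivity) (by positivity) hZ0))
  · refine (GamP.pairs_le _ _ (Wt f) _ (fun p => g < Nat.gcd p.1 p.2) hB).trans ?_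
    have h5 : (((Pc a K).filter (fun p => g < Nat.gcd p.1 p.2)).card : ℝ) ≤ (K : ℝ) ^ 2 / g :=
      le_trans (by exact_mod_cast card_le K _) (h2 K g hg).1
    have h6 : (K : ℝ) ^ 2 / g * F ^ 4 ≤ M := by
      have : (K : ℝ) ^ 2 / g * F ^ 4 = (K : ℝ) ^ 2 * F ^ 4 / g := by ring
      linarith
    exact le_trans (mul_le_mul_of_nonneg_right h5 hF) h6
  · refine (sum_le_card_nsmul _ _ _ b2).trans ?_
    rw [nsmul_eq_mul]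
    have c3 : ((GamP.Dv ρ).card : ℝ) ≤ 27 * (ρ : ℝ) ^ 3 := by
      exact_mod_cast GamP.card_Dv (by omega : 1 ≤ ρ)
    calc _ ≤ 27 * (ρ : ℝ) ^ 3 * (16 * M) := mul_le_mul_of_nonneg_right c3 (by positivity)
      _ = _ := by ring
  · rw [sum_filter_prod _ _ _ _ (fun p r => Nat.gcd p.1 p.2 ≤ g ∧ ¬ Sp ρ p.1 p.2 r)
      fun p r => by rw [not_lt, not_sp], hZ]
    refine le_trans (le_of_eq ?_) (h1 a f _ τ F ρ K R g hM hρ hKR ha)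
    rw [sum_filter]
    refine sum_congr rfl fun p _ => ?_
    by_cases hp : Nat.gcd p.1 p.2 ≤ g
    · rw [if_pos hp]
      exact sum_congr (filter_congr fun r _ => and_iff_right hp) fun _ _ => rfl
    · rw [if_neg hp]
      exact sum_eq_zero fun r hr => absurd (mem_filter.1 hr).2.1 hp

end Pool.Agent.P.MP_746f10_nt.AP
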