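import Pool.Agent.P.MP_746f10_nt.AP.QBase
import Pool.Agent.P.MP_746f10_nt.AP.Gam

/-! The sum of the squared coefficients over the triples that lie on no plane of small height. -/

namespace Pool.Agent.P.MP_746f10_nt.AP

open Finset

namespace QGamHP

open GamP

/-- the point of the affine group attached to a triple -/
noncomputable def ph (a : ℕ) (t : (ℕ × ℕ) × ℤ) : ZMod a × ZMod a :=
  ((t.1.1 : ZMod a) * (t.1.2 : ZMod a)⁻¹, (t.2 : ZMod a) * (t.1.2 : ZMod a)⁻¹)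

lemma fib_le {a : ℕ} [NeZero a] (f : ZMod a → ℂ) (S : Finset ((ℕ × ℕ) × ℤ)) (B : ℝ)
    (h : ∀ z, ((S.filter (fun t => ph a t = z)).card : ℝ) ≤ B) :
    ∑ t ∈ S, Gm f (ph a t).1 (ph a t).2 ≤ B * ∑ x, ∑ lam, Gm f x lam := by
  rw [← sum_fiberwise S (ph a), ← Fintype.sum_prod_type', mul_sum]
  refine sum_le_sum fun z _ => ?_
  rw [sum_congr rfl (fun t ht => by rw [(mem_filter.1 ht).2]), sum_const, nsmul_eq_mul]
  exact mul_le_mul_of_nonneg_right (h z) (sq_nonneg _)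

lemma cancel {a k : ℕ} (h : k.Coprime a) (x : ZMod a) : x = x * (k : ZMod a)⁻¹ * k := by
  rw [mul_assoc, mul_comm (k : ZMod a)⁻¹, ZMod.coe_mul_inv_eq_one k h, mul_one]

lemma pc_mem {a K : ℕ} {p : ℕ × ℕ} (hp : p ∈ Pc a K) :
    ((1 ≤ p.1 ∧ p.1 ≤ K) ∧ 1 ≤ p.2 ∧ p.2 ≤ K) ∧ p.2.Coprime a :=
  ⟨sq_mem (mem_filter.1 hp).1, (mem_filter.1 hp).2.2⟩

open Classical in
lemma rest_bd (h1 : T_L3) : ∃ C : ℝ, 0 < C ∧ ∀ (a : ℕ) [NeZero a] (ρ K R g : ℕ)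
    (T : Finset ((ℕ × ℕ) × ℤ)), 2 ≤ ρ → K ≤ R → 3 * ρ * R < a →
    (∀ t ∈ T, t.1 ∈ Pc a K ∧ t.2 ∈ Icc (-(R : ℤ)) R ∧ Nat.gcd t.1.1 t.1.2 ≤ g ∧
      ¬ Sp ρ t.1.1 t.1.2 t.2) → ∀ z, ((T.filter (fun t => ph a t = z)).card : ℝ) ≤
      g + C * ((R : ℝ) ^ 2 / (a * ρ) + R * (a : ℝ) ^ (1 / 3 : ℝ) / a + (R : ℝ) ^ 3 / (a : ℝ) ^ 2) := by
  obtain ⟨C, hC, h1⟩ := h1
  refine ⟨C, hC, fun a _ ρ K R g T hρ hKR ha hT z => ?_⟩
  rw [← card_image_of_injective _ em_inj]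
  refine h1 a z.1 z.2 R ρ g _ hρ ha (fun p hp => ?_) (fun p hp d hd d1 d2 d3 => ?_) ?_
  · obtain ⟨t, ht, rfl⟩ := mem_image.1 hp
    obtain ⟨ht', rfl⟩ := mem_filter.1 ht
    obtain ⟨u1, u2, -⟩ := hT t ht'
    obtain ⟨u3, u4⟩ := pc_mem u1
    refine ⟨abs_le.2 ⟨?_, ?_⟩, abs_le.2 ⟨?_, ?_⟩, abs_le.2 (mem_Icc.1 u2), ?_, ?_⟩
    · simp only [GamP.em]; omega
    · simp only [GamP.em]; omega
    · simp only [GamP.em]; omega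
    · simp only [GamP.em]; omega
    · simp only [GamP.em, ph, Int.cast_natCast]
      exact cancel u4 _
    · simp only [GamP.em, ph, Int.cast_natCast]
      exact cancel u4 _
  · obtain ⟨t, ht, rfl⟩ := mem_image.1 hp
    intro h0
    refine (hT t (mem_filter.1 ht).1).2.2.2 ⟨d.1, d.2.1, d.2.2, fun h => hd ?_, d1, d2, d3, h0⟩
    exact Prod.ext h.1 (Prod.ext h.2.1 h.2.2)
  · refine par_card _ g fun t ht => ?_
    obtain ⟨u1, -, u2, -⟩ := hT t (mem_filter.1 ht).1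
    exact ⟨(pc_mem u1).1.1.1, (pc_mem u1).1.2.1, u2⟩

end QGamHP

open QGamHP

theorem qGamH (h1 : T_L3) (h2 : T_Mass) : T_GamH := by
  classical
  obtain ⟨C, hC, h1⟩ := rest_bd h1
  refine ⟨C, hC, fun a _ f S τ F d K R g hM hd hKR ha => ?_⟩
  have ha0 : (0 : ℝ) < a := by exact_mod_cast (by omega : 0 < a)
  have hd0 : (0 : ℝ) < d := by exact_mod_cast (by omega : 0 < d)
  obtain ⟨m1, -, m3⟩ := h2 a f S τ F hM
  obtain ⟨T, hT⟩ : ∃ T : Finset ((ℕ × ℕ) × ℤ),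
      T = (((Pc a K).filter (fun p => Nat.gcd p.1 p.2 ≤ g)) ×ˢ Icc (-(R : ℤ)) R).filter
        (fun t => ¬ Sp d t.1.1 t.1.2 t.2) := ⟨_, rfl⟩
  have hm : ∀ t ∈ T, t.1 ∈ Pc a K ∧ t.2 ∈ Icc (-(R : ℤ)) R ∧ Nat.gcd t.1.1 t.1.2 ≤ g ∧
      ¬ Sp d t.1.1 t.1.2 t.2 := by
    intro t ht
    rw [hT] at ht
    obtain ⟨u1, u2⟩ := mem_filter.1 ht
    obtain ⟨u3, u4⟩ := mem_product.1 u1
    exact ⟨(mem_filter.1 u3).1, u4, (mem_filter.1 u3).2, u2⟩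
  have e0 : ∑ p ∈ (Pc a K).filter (fun p => Nat.gcd p.1 p.2 ≤ g),
      ∑ r ∈ (Icc (-(R : ℤ)) R).filter (fun r => ¬ Sp d p.1 p.2 r), G3 f p.1 p.2 r =
      ∑ t ∈ T, G3 f t.1.1 t.1.2 t.2 := by
    rw [hT, sum_filter (s := _ ×ˢ _), sum_product]
    exact sum_congr rfl fun p _ => sum_filter _ _
  have e1 : ∑ t ∈ T, G3 f t.1.1 t.1.2 t.2 = ∑ t ∈ T, Gm f (ph a t).1 (ph a t).2 :=
    sum_congr rfl fun t ht => m3 _ _ _ (pc_mem (hm t ht).1).2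
  refine (le_of_eq (e0.trans e1)).trans ?_
  refine (fib_le f _ _ (h1 a d K R g T hd hKR ha hm)).trans ?_
  refine (mul_le_mul_of_nonneg_left m1 (by positivity)).trans (le_of_eq ?_)
  field_simp

end Pool.Agent.P.MP_746f10_nt.AP
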