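import Pool.Agent.P.MP_746f10_nt.AP.QBase
import Pool.Agent.P.MP_746f10_nt.AP.HM

/-! Few conductors carry a primitive character with a large short prime sum. -/

namespace Pool.Agent.P.MP_746f10_nt.AP

open Finset ComplexConjugate
open Pool.Agent.P.MP_a14ce1_nt
open Pool.Agent.P.MP_a14ce1_nt.Ch (nit norm_nit nit_add nit_mul)

namespace QHMP

open HMP DirichletCharacter

lemma period {a a' : ℕ} (ha : 0 < a) (ha' : 0 < a') (hne : a ≠ a') {χ : DirichletCharacter ℂ a}
    {χ' : DirichletCharacter ℂ a'} (hχ : χ.IsPrimitive) (hχ' : χ'.IsPrimitive) (s : ℕ) :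
    ∑ i ∈ range (a * a'), χ ((s + i : ℕ) : ZMod a) * conj (χ' ((s + i : ℕ) : ZMod a')) = 0 := by
  have : NeZero (a * a') := ⟨(mul_pos ha ha').ne'⟩
  set ψ := changeLevel (dvd_mul_right a a') χ * (changeLevel (dvd_mul_left a' a) χ')⁻¹ with hψ
  have h1 : ψ ≠ 1 := fun h => by
    have h2 := congrArg conductor (mul_inv_eq_one.1 h)
    rw [conductor_changeLevel, conductor_changeLevel, hχ, hχ'] at h2
    exact hne h2
  have h2 : ∀ n : ℕ, χ (n : ZMod a) * conj (χ' (n : ZMod a')) = ψ (n : ZMod (a * a')) := fun n => by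
    by_cases h : n.Coprime (a * a')
    · have h3 : IsCoprime (n : ℤ) ((a * a' : ℕ) : ℤ) := Nat.isCoprime_iff_coprime.2 h
      have h4 := changeLevel_eq_cast_of_dvd' χ (dvd_mul_right a a') h3
      have h5 := changeLevel_eq_cast_of_dvd' χ' (dvd_mul_left a' a) h3
      simp only [Int.cast_natCast] at h4 h5
      rw [hψ, MulChar.mul_apply, ← MulChar.star_apply', h4, h5]
      rfl
    · rw [MulChar.map_nonunit ψ (by rwa [ZMod.isUnit_iff_coprime])]
      rw [Nat.coprime_mul_iff_right, not_and_or] at h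
      rcases h with h | h
      · rw [MulChar.map_nonunit χ (by rwa [ZMod.isUnit_iff_coprime]), zero_mul]
      · rw [MulChar.map_nonunit χ' (by rwa [ZMod.isUnit_iff_coprime]), map_zero, mul_zero]
  simp only [h2]
  exact (sum_zmod (fun x => ψ x) s).trans (MulChar.sum_eq_zero_of_ne_one h1)

lemma off {a a' : ℕ} (ha : 0 < a) (ha' : 0 < a') (hne : a ≠ a') {χ : DirichletCharacter ℂ a}
    {χ' : DirichletCharacter ℂ a'} (hχ : χ.IsPrimitive) (hχ' : χ'.IsPrimitive) (t t' : ℝ)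
    {N0 N1 : ℕ} (h0 : 0 < N0) (h1 : N0 < N1) :
    ‖∑ n ∈ Ioc N0 N1, χ n * nit t n * conj (χ' n * nit t' n)‖ ≤
      (a * a' : ℕ) * (1 + |t - t'| * (Real.log N1 - Real.log N0)) := by
  obtain ⟨L, rfl⟩ := Nat.exists_eq_add_of_lt h1
  have e : ∑ n ∈ Ioc N0 (N0 + L + 1), χ n * nit t n * conj (χ' n * nit t' n) =
      ∑ i ∈ range (L + 1), nit (t - t') (N0 + 1 + i : ℕ) *
        (χ (N0 + 1 + i : ℕ) * conj (χ' (N0 + 1 + i : ℕ))) := by
    rw [← Ico_add_one_add_one_eq_Ioc, sum_Ico_eq_sum_range,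
      show N0 + L + 1 + 1 - (N0 + 1) = L + 1 by omega]
    refine sum_congr rfl fun i _ => ?_
    have : conj (nit t' (N0 + 1 + i : ℕ)) = nit (-t') (N0 + 1 + i : ℕ) := by
      rw [nit, nit, Ch.conj_ex]
      congr 1
      ring
    rw [map_mul, this, sub_eq_add_neg, nit_add]
    ring
  rw [e]
  refine (abel (ψ := fun i => χ (N0 + 1 + i : ℕ) * conj (χ' (N0 + 1 + i : ℕ)))
    (fun L => part (ψ := fun n => χ n * conj (χ' n)) (mul_pos ha ha') (fun n => ?_)
      (period ha ha' hne hχ hχ') L (N0 + 1)) (fun n => (norm_nit _ _).le) _).trans ?_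
  · rw [norm_mul, Complex.norm_conj]
    exact mul_le_one₀ (χ.norm_le_one _) (norm_nonneg _) (χ'.norm_le_one _)
  have h2 : (0 : ℝ) < N0 := by exact_mod_cast h0
  gcongr
  refine (sum_le_sum fun i _ => nit_sub (t - t') (Real.log_le_log (by positivity)
    (by exact_mod_cast by omega))).trans ?_
  rw [← mul_sum, Nat.add_sub_cancel, sum_range_sub fun i => Real.log (N0 + 1 + i : ℕ),
    show N0 + 1 + L = N0 + L + 1 by omega]
  gcongr
  exact_mod_cast by omega

end QHMP

open HMP in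
theorem qHM : T_HM := by
  intro Q P hh T V E χ t h1 hP hV hT hE hB
  have hP0 : (0 : ℝ) < P := by exact_mod_cast hP
  set S := PP P (2 * P) with hS
  set W := Fintype.piFinset fun _ : Fin hh => S with hW
  have hlt : P ^ hh < (2 * P) ^ hh := Nat.pow_lt_pow_left (by omega) (by omega)
  have hmap : ∀ f ∈ W, ∏ i, f i ∈ Ioc (P ^ hh) ((2 * P) ^ hh) := fun f hf => by
    have h2 := fun i => mem_PP.1 (Fintype.mem_piFinset.1 hf i)
    have : Nonempty (Fin hh) := ⟨⟨0, h1⟩⟩
    refine mem_Ioc.2 ⟨?_, ?_⟩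
    · simpa using prod_lt_prod_of_nonempty (s := univ) (f := fun _ : Fin hh => P) (g := f)
        (fun _ _ => hP) (fun i _ => (h2 i).1) univ_nonempty
    · simpa using prod_le_prod' (s := univ) (f := f) (g := fun _ : Fin hh => 2 * P)
        fun i _ => (h2 i).2.1
  let b : ℕ → ℂ := fun n => ∑ f ∈ W.filter fun f => ∏ i, f i = n, ∏ i, 1 / (f i : ℂ)
  let r : ℕ → ℝ := fun n => ∑ f ∈ W.filter fun f => ∏ i, f i = n, ∏ i, 1 / (f i : ℝ)
  have hexp : ∀ a, (∑ p ∈ S, χ a p / (p : ℂ) * nit (t a) p) ^ hh =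
      ∑ n ∈ Ioc (P ^ hh) ((2 * P) ^ hh), b n * (χ a n * nit (t a) n) := fun a => by
    rw [← Fin.prod_const, prod_univ_sum, ← sum_fiberwise_of_maps_to hmap]
    refine sum_congr rfl fun n _ => ?_
    rw [sum_mul]
    refine sum_congr rfl fun f hf => ?_
    obtain ⟨h2, rfl⟩ := mem_filter.1 hf
    rw [nit_prod _ _ fun i => (PP_prime (Fintype.mem_piFinset.1 h2 i)).ne_zero, Nat.cast_prod,
      map_prod, ← prod_mul_distrib, ← prod_mul_distrib]
    exact prod_congr rfl fun i _ => by ring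
  have hbr : ∀ n, ‖b n‖ ≤ r n := fun n => (norm_sum_le _ _).trans (sum_le_sum fun f _ => by
    rw [norm_prod]
    refine prod_le_prod (fun _ _ => norm_nonneg _) fun i _ => ?_
    rw [norm_div, Complex.norm_natCast, norm_one])
  have hinv : ∀ p ∈ S, 1 / (p : ℝ) ≤ 1 / P := fun p hp =>
    one_div_le_one_div_of_le hP0 (by exact_mod_cast (mem_PP.1 hp).1.le)
  have hr : ∀ n, r n ≤ (hh : ℝ) ^ hh / (P : ℝ) ^ hh := fun n => by
    refine (sum_le_card_nsmul _ _ ((1 / P : ℝ) ^ hh) fun f hf => ?_).trans ?_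
    · rw [← Fin.prod_const]
      exact prod_le_prod (fun _ _ => by positivity) fun i _ =>
        hinv _ (Fintype.mem_piFinset.1 (mem_filter.1 hf).1 i)
    · rw [nsmul_eq_mul, one_div, inv_pow, ← div_eq_mul_inv]
      gcongr
      exact_mod_cast card_fib (fun p hp => PP_prime hp) hh n
  have hsr : ∑ n ∈ Ioc (P ^ hh) ((2 * P) ^ hh), r n ≤ 1 := by
    rw [sum_fiberwise_of_maps_to hmap, ← prod_univ_sum (fun _ : Fin hh => S) fun _ p => 1 / (p : ℝ)]
    refine prod_le_one (fun _ _ => sum_nonneg fun _ _ => by positivity) fun _ _ =>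
      (sum_le_card_nsmul _ _ _ hinv).trans ?_
    have : S.card ≤ P := (card_filter_le _ _).trans (by rw [Nat.card_Ioc]; omega)
    rw [nsmul_eq_mul, mul_one_div, div_le_one hP0]
    exact_mod_cast this
  have hb2 : ∑ n ∈ Ioc (P ^ hh) ((2 * P) ^ hh), ‖b n‖ ^ 2 ≤ (hh : ℝ) ^ hh / (P : ℝ) ^ hh := by
    refine (sum_le_sum fun n _ => (?_ : _ ≤ (hh : ℝ) ^ hh / (P : ℝ) ^ hh * r n)).trans ?_
    · rw [sq]
      exact mul_le_mul ((hbr n).trans (hr n)) (hbr n) (norm_nonneg _) (by positivity)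
    · rw [← mul_sum]
      exact mul_le_of_le_one_right (by positivity) hsr
  set B : ℝ := (Q : ℝ) ^ 2 * (1 + 2 * T * hh) with hBd
  have hB0 : 0 ≤ B := by positivity
  have key := dual_ls E (Ioc (P ^ hh) ((2 * P) ^ hh)) (fun a n => χ a n * nit (t a) n) b
    (δ := fun _ => 1) (θ := fun _ => 1) (by simp) (by simp)
    (Δ := (2 * P : ℝ) ^ hh + E.card * B) (by positivity) fun a ha => by
      simp only [Complex.ofReal_one, one_mul]
      rw [← add_sum_erase _ _ ha]
      refine add_le_add ((norm_sum_le _ _).trans ((sum_le_card_nsmul _ _ 1 fun n _ => ?_).trans ?_))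
        ((sum_le_card_nsmul _ _ B fun a' ha' => ?_).trans ?_)
      · rw [norm_mul, Complex.norm_conj, norm_mul, norm_nit, mul_one]
        exact mul_le_one₀ ((χ a).norm_le_one _) (norm_nonneg _) ((χ a).norm_le_one _)
      · rw [Nat.card_Ioc, nsmul_one]
        exact_mod_cast Nat.sub_le _ _
      · obtain ⟨h2, h3, h4, h5, -⟩ := hE a ha
        obtain ⟨h6, h7, h4', h8, -⟩ := hE a' (mem_of_mem_erase ha')
        refine (QHMP.off h2 h6 (ne_of_mem_erase ha').symm h4 h4' _ _ (by positivity) hlt).trans ?_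
        have h9 : Real.log ((2 * P) ^ hh : ℕ) - Real.log (P ^ hh : ℕ) = hh * Real.log 2 := by
          push_cast
          rw [Real.log_pow, Real.log_pow, Real.log_mul two_ne_zero hP0.ne']
          ring
        have h10 : ((a * a' : ℕ) : ℝ) ≤ (Q : ℝ) ^ 2 := by
          exact_mod_cast (Nat.mul_le_mul h3 h7).trans (le_of_eq (by ring))
        have h11 : |t a - t a'| ≤ 2 * T := (abs_sub _ _).trans (by linarith)
        have h12 : (hh : ℝ) * Real.log 2 ≤ hh :=
          mul_le_of_le_one_right (by positivity) (by linarith [Real.log_two_lt_d9])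
        rw [h9, hBd]
        gcongr
      · rw [nsmul_eq_mul]
        gcongr
        exact erase_subset _ _
  simp only [Complex.ofReal_one, one_mul] at key
  have h2 : E.card * V ^ (2 * hh) ≤ ((2 * P : ℝ) ^ hh + E.card * B) *
      ((hh : ℝ) ^ hh / (P : ℝ) ^ hh) := by
    refine le_trans ?_ (key.trans (by gcongr))
    rw [← nsmul_eq_mul]
    refine card_nsmul_le_sum _ _ _ fun a ha => ?_
    rw [← hexp, norm_pow, ← pow_mul, mul_comm hh]
    exact pow_le_pow_left₀ hV.le (hE a ha).2.2.2.2 _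
  have h3 : B * ((hh : ℝ) ^ hh / (P : ℝ) ^ hh) ≤ V ^ (2 * hh) / 2 := by
    rw [← mul_div_assoc, div_le_iff₀ (by positivity), hBd]
    linarith
  have h4 : (2 * P : ℝ) ^ hh * ((hh : ℝ) ^ hh / (P : ℝ) ^ hh) = (2 * hh : ℝ) ^ hh := by
    rw [mul_pow, mul_pow]
    field_simp
  rw [le_div_iff₀ (by positivity)]
  have h5 := mul_le_mul_of_nonneg_left h3 (Nat.cast_nonneg E.card : (0 : ℝ) ≤ _)
  rw [add_mul, h4, mul_assoc] at h2
  linarith

end Pool.Agent.P.MP_746f10_nt.AP
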