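import Pool.Agent.P.MP_746f10_nt.AP.QBase
import Pool.Agent.P.MP_746f10_nt.AP.CSW

/-! Sums over the first multiples on a short range, from the variance bound over units. -/

namespace Pool.Agent.P.MP_746f10_nt.AP

open Finset

namespace QHPP

variable {a : ℕ} [NeZero a]

lemma short (L : ℕ) (s : ZMod a) (g : ZMod a → ℝ) (hg : ∀ x, 0 ≤ g x) :
    ∑ y ∈ range L, g (y + s) ≤ (L + a) / a * ∑ x, g x := by
  have ha : 0 < a := Nat.pos_of_ne_zero (NeZero.ne a)
  have ha' : (0 : ℝ) < a := by exact_mod_cast ha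
  have h1 : range L ⊆ range (a * (L / a + 1)) :=
    range_subset_range.2 (Nat.lt_mul_div_succ L ha).le
  have h2 := CSWP.sum_period a (L / a + 1) fun y => g (y + s)
  have h3 : ∑ y : ZMod a, g (y + s) = ∑ x, g x := Equiv.sum_comp (Equiv.addRight s) g
  refine (sum_le_sum_of_subset_of_nonneg (f := fun y : ℕ => g (y + s)) h1
    fun _ _ _ => hg _).trans ?_
  rw [h2, h3]
  refine mul_le_mul_of_nonneg_right ?_ (sum_nonneg fun x _ => hg x)
  rw [add_div, div_self ha'.ne']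
  push_cast
  linarith [Nat.cast_div_le (α := ℝ) (m := L) (n := a)]

lemma mean_le (g w : ZMod a → ℝ) {Y : ℝ} (hg : ∑ x, g x ^ 2 ≤ a) (hw : ∑ x, w x ^ 2 ≤ Y) :
    (∑ x, g x * w x) / a ≤ √(Y / a) := by
  have ha' : (0 : ℝ) < a := by exact_mod_cast Nat.pos_of_ne_zero (NeZero.ne a)
  refine Real.le_sqrt_of_sq_le ?_
  have h1 := sum_mul_sq_le_sq_mul_sq univ g w
  have h2 : (∑ x, g x ^ 2) * ∑ x, w x ^ 2 ≤ a * Y :=
    mul_le_mul hg hw (sum_nonneg fun _ _ => sq_nonneg _) ha'.le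
  rw [div_pow, div_le_div_iff₀ (by positivity) ha']
  nlinarith

lemma mean_le_one (g : ZMod a → ℝ) (hg : ∑ x, g x ^ 2 ≤ a) : (∑ x, g x) / a ≤ 1 := by
  have ha' : (0 : ℝ) < a := by exact_mod_cast Nat.pos_of_ne_zero (NeZero.ne a)
  have h := mean_le g (fun _ => 1) (Y := a) hg (by simp)
  simpa [ha'.ne'] using h

lemma nl_sq (Y : ℕ) : ∑ x : ZMod a, nl Y x ^ 2 ≤ Y := by
  have h1 : ∀ x : ZMod a, nl Y x ^ 2 = if x.val < Y then 1 else 0 := fun x => by
    unfold nl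
    split_ifs <;> simp
  rw [sum_congr rfl fun x _ => h1 x, ← sum_filter, sum_const, nsmul_eq_mul, mul_one]
  have h2 : (univ.filter fun x : ZMod a => x.val < Y).card ≤ (range Y).card :=
    card_le_card_of_injOn ZMod.val (fun x hx => by simpa using hx)
      fun x _ y _ h => ZMod.val_injective a h
  rw [card_range] at h2
  exact_mod_cast h2

lemma abs_sum (L : ℕ) (g : ℕ → ℝ) {Z : ℝ} (h : ∑ y ∈ range L, g y ^ 2 ≤ Z) :
    ∑ y ∈ range L, |g y| ≤ √(L * Z) := by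
  refine Real.le_sqrt_of_sq_le ?_
  have h1 := sq_sum_le_card_mul_sum_sq (s := range L) (f := fun y => |g y|)
  simp only [card_range, sq_abs] at h1
  exact h1.trans (mul_le_mul_of_nonneg_left h (Nat.cast_nonneg L))

open Classical in
/-- the deviation from the mean on units -/
noncomputable def dev (h : ZMod a → ℝ) (K : ℕ) (l : ZMod a) : ℝ :=
  if IsUnit l then AA h K l - K * (∑ x, h x) / a else 0

open Classical in
lemma dev_sq {C : ℝ} (hC : 0 < C) {h : ZMod a → ℝ} {K : ℕ}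
    (hP : ∑ l ∈ univ.filter IsUnit, (AA h K l - K * (∑ x, h x) / a) ^ 2 ≤
      C * a * a.divisors.card * (1 + Real.log a) ^ 2 * ∑ x, h x ^ 2)
    (h2 : ∑ x, h x ^ 2 ≤ a) (L : ℕ) (s : ZMod a) {Z : ℝ}
    (hZ : C * (L + a) * a * a.divisors.card * (1 + Real.log a) ^ 2 ≤ Z) :
    ∑ y ∈ range L, dev h K (y + s) ^ 2 ≤ Z := by
  have ha' : (0 : ℝ) < a := by exact_mod_cast Nat.pos_of_ne_zero (NeZero.ne a)
  have h1 : ∑ l, dev h K l ^ 2 =
      ∑ l ∈ univ.filter IsUnit, (AA h K l - K * (∑ x, h x) / a) ^ 2 := by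
    rw [sum_filter]
    refine sum_congr rfl fun l _ => ?_
    unfold dev
    split_ifs <;> simp
  have h3 : ∑ l, dev h K l ^ 2 ≤ C * a * a.divisors.card * (1 + Real.log a) ^ 2 * a := by
    rw [h1]
    exact hP.trans (mul_le_mul_of_nonneg_left h2 (by positivity))
  refine (short L s (fun l => dev h K l ^ 2) fun _ => sq_nonneg _).trans ?_
  refine (mul_le_mul_of_nonneg_left h3 (by positivity)).trans (le_trans (le_of_eq ?_) hZ)
  field_simp

lemma core {h1 h2 : ZMod a → ℝ} (p1 : ∀ x, 0 ≤ h1 x) (p2 : ∀ x, 0 ≤ h2 x)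
    (s1 : ∑ x, h1 x ^ 2 ≤ a) (s2 : ∑ x, h2 x ^ 2 ≤ a) (z2 : ∀ y, ¬ IsUnit y → h2 y = 0)
    {m Z : ℝ} (hm : (∑ x, h1 x) / a ≤ m) (K L : ℕ) (s : ZMod a)
    (e1 : ∑ y ∈ range L, dev h1 K (y + s) ^ 2 ≤ Z) (e2 : ∑ y ∈ range L, dev h2 K (y + s) ^ 2 ≤ Z) :
    ∑ y ∈ range L, AA h1 K (y + s) * AA h2 K (y + s) ≤
      L * (K : ℝ) ^ 2 * m + 2 * K * √(L * Z) + Z := by
  have m1 := mean_le_one h1 s1
  have m2 := mean_le_one h2 s2
  have n1 : 0 ≤ (∑ x, h1 x) / a := div_nonneg (sum_nonneg fun x _ => p1 x) (Nat.cast_nonneg a)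
  have n2 : 0 ≤ (∑ x, h2 x) / a := div_nonneg (sum_nonneg fun x _ => p2 x) (Nat.cast_nonneg a)
  have hK : (0 : ℝ) ≤ K := Nat.cast_nonneg K
  have hm0 : 0 ≤ m := n1.trans hm
  have pt : ∀ l : ZMod a, AA h1 K l * AA h2 K l ≤ (K : ℝ) ^ 2 * m +
      K * (|dev h1 K l| + |dev h2 K l|) + (dev h1 K l ^ 2 + dev h2 K l ^ 2) / 2 := by
    intro l
    by_cases hl : IsUnit l
    · have a1 : AA h1 K l = K * ((∑ x, h1 x) / a) + dev h1 K l := by
        rw [dev, if_pos hl]; ring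
      have a2 : AA h2 K l = K * ((∑ x, h2 x) / a) + dev h2 K l := by
        rw [dev, if_pos hl]; ring
      rw [a1, a2]
      generalize (∑ x, h1 x) / a = u at *
      generalize (∑ x, h2 x) / a = v at *
      generalize dev h1 K l = d1
      generalize dev h2 K l = d2
      have b1 : u * v ≤ m := (mul_le_of_le_one_right n1 m2).trans hm
      have b2 : u * d2 ≤ |d2| := (mul_le_mul_of_nonneg_left (le_abs_self d2) n1).trans
        (mul_le_of_le_one_left (abs_nonneg d2) m1)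
      have b3 : v * d1 ≤ |d1| := (mul_le_mul_of_nonneg_left (le_abs_self d1) n2).trans
        (mul_le_of_le_one_left (abs_nonneg d1) m2)
      have c1 := mul_le_mul_of_nonneg_left b1 (sq_nonneg (K : ℝ))
      have c2 := mul_le_mul_of_nonneg_left b2 hK
      have c3 := mul_le_mul_of_nonneg_left b3 hK
      nlinarith [sq_nonneg (d1 - d2)]
    · have a2 : AA h2 K l = 0 :=
        sum_eq_zero fun k _ => z2 _ fun hu => hl (isUnit_of_mul_isUnit_right hu)
      rw [a2, mul_zero]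
      positivity
  refine (sum_le_sum fun y _ => pt _).trans ?_
  rw [sum_add_distrib, sum_add_distrib, sum_const, card_range, nsmul_eq_mul, ← mul_sum,
    sum_add_distrib, ← sum_div, sum_add_distrib]
  have f1 := abs_sum L (fun y => dev h1 K (y + s)) e1
  have f2 := abs_sum L (fun y => dev h2 K (y + s)) e2
  have f3 := mul_le_mul_of_nonneg_left (add_le_add f1 f2) hK
  linarith

end QHPP

open QHPP in
theorem qHP (h : T_PV) : T_HP := by
  obtain ⟨C, hC, h⟩ := h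
  refine ⟨C, hC, fun a _ f K L Y s Z hz hs _ hZ => ?_⟩
  have p2 : ∀ x, 0 ≤ ‖f x‖ := fun _ => norm_nonneg _
  have z2 : ∀ y, ¬ IsUnit y → ‖f y‖ = 0 := fun y hy => by rw [hz y hy, norm_zero]
  have nl01 : ∀ x : ZMod a, 0 ≤ nl Y x ∧ nl Y x ≤ 1 := fun x => by
    unfold nl
    split_ifs <;> simp
  have p1 : ∀ x, 0 ≤ ‖f x‖ * nl Y x := fun x => mul_nonneg (p2 x) (nl01 x).1
  have s1 : ∑ x, (‖f x‖ * nl Y x) ^ 2 ≤ a := le_trans (sum_le_sum fun x _ =>
    pow_le_pow_left₀ (p1 x) (mul_le_of_le_one_right (p2 x) (nl01 x).2) 2) hs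
  have e1 := dev_sq hC (h a (fun x => ‖f x‖ * nl Y x) K) s1 L s hZ
  have e2 := dev_sq hC (h a (fun x => ‖f x‖) K) hs L s hZ
  refine ⟨core p1 p2 s1 hs z2 (mean_le (fun x => ‖f x‖) (nl Y) hs (nl_sq Y)) K L s e1 e2, ?_⟩
  have := core p2 p2 hs hs z2 (mean_le_one _ hs) K L s e2 e2
  simpa only [sq, mul_one] using this

end Pool.Agent.P.MP_746f10_nt.AP
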