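import Pool.Agent.P.MP_746f10_nt.AP.QBase
import Pool.Agent.P.MP_746f10_nt.AP.Ident

/-! The combinatorial identity for the indicator of the primes, with the shorter range. -/

namespace Pool.Agent.P.MP_746f10_nt.AP

open Finset Filter
open scoped ArithmeticFunction.Moebius

open IdentP in
theorem qIdent (h : S_CS) : T_Ident := by
  intro u hu
  obtain ⟨Q0, hQ0⟩ := ev_lg ((eventually_ge_atTop (200 * u + 40)).and
    (tendsto_sqrt.eventually_ge_atTop (3 * u)))
  refine ⟨Q0, fun Q m hQ hm1 hm2 => ?_⟩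
  obtain ⟨hg, hs⟩ := hQ0 Q hQ
  have hQ1 : 1 ≤ Q := Nat.pos_of_ne_zero (by rintro rfl; simp [lg] at hg)
  have l1 : 2 ^ (2 * lg Q) ≤ m := by
    rw [mul_comm, pow_mul]
    exact (Nat.pow_le_pow_left (two_pow_lg_le hQ1) 2).trans hm1
  have l2 : m < 2 ^ (2 * lg Q + 4) := by
    have := Nat.pow_le_pow_left (lt_two_pow_lg Q).le 2
    rw [← pow_mul] at this
    rw [show 2 * lg Q + 4 = (lg Q + 1) * 2 + 2 by ring, pow_add]
    omega
  have h0 : m ≠ 0 := by have := Nat.two_pow_pos (2 * lg Q); omega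
  have l3 : 2 * lg Q + 4 ≤ lg Q / u * (3 * u) := by
    have := Nat.div_add_mod (lg Q) u
    have := Nat.mod_lt (lg Q) hu
    rw [mul_left_comm, mul_comm _ u]
    omega
  have l4 : lg Q / u ≤ lg Q := Nat.div_le_self _ _
  have big : ∀ a, a < 2 * lg Q → 2 ^ a < m := fun a ha => (pw'.2 ha).trans_le l1
  have hP : ∀ S, S ∈ Pats2 u Q ↔ S ⊆ Icc (lg Q / u) (2 * lg Q + 4) ∧ S.card ≤ 3 * u ∧
      2 * lg Q ≤ ∑ j ∈ S, j + S.card ∧ ∑ j ∈ S, j ≤ 2 * lg Q + 4 ∧ ∃ S1 ⊆ S,
        13 * lg Q / 20 ≤ ∑ j ∈ S1, j ∧ ∑ j ∈ S1, j + 3 * u + Nat.sqrt (lg Q) ≤ lg Q := fun S => by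
    rw [Pats2, mem_filter, mem_powerset]
  rw [sum_eq h]
  by_cases hr : rough (zz u Q) m
  swap
  · have h1 : ¬ m.Prime := fun hp => hr fun p hp' hd => by
      rw [(Nat.prime_dvd_prime_iff_eq hp' hp).1 hd]
      exact big _ (by omega)
    have h2 : (if tau m ∈ Pats2 u Q then sg Q (tau m) * CS (tau m) m else 0) = 0 := by
      split_ifs with h3
      · rw [of_not_not fun h4 => hr ((h.2.2.1 _ _ h4).2.2 _ fun j hj =>
          (mem_Icc.1 (((hP _).1 h3).1 hj)).1), mul_zero]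
      · rfl
    rw [h2, pr1, rr, if_neg h1, if_neg hr, zero_mul, sub_zero, add_zero, abs_zero]
    exact mul_nonneg (by positivity) (bad_bd _ _ _).1
  rw [rr_of_rough hr, one_mul, bad]
  split_ifs with h1 h2 h2
  any_goals
    have a1 : |sigD Q m| ≤ 2 ^ (3 * u) := (abs_sig Q m).trans (by
      exact_mod_cast card_divisors_le_of_rough _ m h0 hr (by
        rw [zz, ← pow_mul, mul_add]
        exact l2.le.trans (pw.2 (by omega))))
    have a2 : (1 : ℝ) ≤ 2 ^ (3 * u) := one_le_pow₀ one_le_two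
    have a3 := pr1_bd m
    have a4 := abs_le.1 a1
  · have a5 := abs_le.1 ((abs_sg Q (tau m)).trans (pow_le_pow_right₀ one_le_two ((hP _).1 h1).2.1))
    rcases h.1 (tau m) m with e | e <;> rw [e, abs_le] <;> constructor <;> linarith
  on_goal 2 => rw [abs_le]; constructor <;> linarith
  all_goals
    rw [and_iff_right hr, not_or] at h2
    have hb : ∀ j p p', p ∈ box j → p' ∈ box j → ¬ p * p' ∣ m := fun j p p' a b c =>
      h2.1 ⟨j, p, p', a, b, c⟩
    have hlo : ∀ j ∈ tau m, lg Q / u ≤ j := fun j hj => by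
      obtain ⟨p, hp, rfl⟩ := mem_image.1 hj
      have hp := Nat.mem_primeFactors.1 hp
      exact Nat.lt_succ_iff.1 (pw'.1 ((hr p hp.1 hp.2.1).trans_le (bd hp.1).2))
    obtain ⟨b1, b2, -⟩ := tau_bd h0 hb (dvd_refl m)
    have b3 := pw'.1 (b1.trans_lt l2)
    have b4 : (tau m).card ≤ 3 * u := by
      have := card_nsmul_le_sum _ _ _ hlo
      rw [smul_eq_mul, mul_comm] at this
      exact (Nat.lt_of_mul_lt_mul_left (a := lg Q / u) (by omega)).le
    rw [mul_zero, abs_nonpos_iff, pr1]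
  · rw [cs_one hb h, sig_eq h0 hb (b4.trans hs) fun d hd hle => le_of_not_gt fun hlt =>
      h2.2 ⟨d, hd, Or.inl ⟨hlt, hle⟩⟩, if_neg fun hp => ?_]
    · ring
    obtain ⟨S1, c1, c2, c3⟩ := ((hP _).1 h1).2.2.2.2
    obtain ⟨d, hd, rfl⟩ := tau_surj c1
    rcases (Nat.dvd_prime hp).1 hd with rfl | rfl
    · simp [tau] at c2
      omega
    · exact (big _ (by omega)).not_ge b2
  rw [add_zero, sub_eq_zero, sigD]
  split_ifs with hp
  · rw [hp.divisors, filter_insert, if_pos (show 1 ≤ DD Q from Nat.one_le_two_pow),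
      filter_singleton, if_neg (show ¬ m ≤ DD Q from (big _ (by omega)).not_ge)]
    simp
  have c1 : ∀ d, d ∣ m → d ≤ 2 ^ (lg Q + 2) → d ≤ 2 ^ (13 * lg Q / 20 + 3 * u) := fun d hd hle => by
    obtain ⟨c2, c3, -⟩ := tau_bd h0 hb hd
    have c4 := (Nat.mul_le_mul_right _ c2).trans (le_of_not_gt fun hlt =>
      h2.2 ⟨d, hd, Or.inr ⟨hlt, hle⟩⟩)
    rw [om, ← pow_mul, ← pow_add, pw] at c4
    have c5 := card_le_card (tau_sub h0 hd)
    refine c3.trans (pw.2 (Nat.add_le_add (le_of_not_gt fun c6 => h1 ((hP _).2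
      ⟨fun j hj => mem_Icc.2 ⟨hlo j hj, (single_le_sum (f := fun j => j)
        (fun _ _ => Nat.zero_le _) hj).trans b3.le⟩, b4, pw.1 (l1.trans b2), b3.le, tau d,
        tau_sub h0 hd, c6.le, by omega⟩)) (c5.trans b4)))
  refine (van hp Nat.one_le_two_pow (pw.2 (by omega)) ?_ ?_ fun d e he =>
    Or.imp (c1 d ⟨e, he⟩) (c1 e ⟨d, he.trans (mul_comm _ _)⟩) ?_).symm
  · rw [← pow_mul]
    exact big _ (by omega)
  · rw [← pow_add]
    exact big _ (by omega)
  · by_contra hc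
    rw [not_or, not_le, not_le] at hc
    have := Nat.mul_le_mul hc.1.le hc.2.le
    rw [← pow_add, ← he, show lg Q + 2 + (lg Q + 2) = 2 * lg Q + 4 by ring] at this
    omega

end Pool.Agent.P.MP_746f10_nt.AP
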