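import Pool.Agent.P.MP_746f10_nt.AP.QBase
import Pool.Agent.P.MP_746f10_nt.AP.KP

/-! The primes dominate the model in cut norm, for general moduli. -/

namespace Pool.Agent.P.MP_746f10_nt.AP

open Finset Filter

namespace QKPP

variable {a Q N w hh : ℕ} {G err ν : ℕ → ℝ} {δ : ℝ}

/-- prime entries lie in the coprime columns -/
lemma pr1_cp {n b : ℕ} (hn : 1 ≤ n) (hb : b ∈ Ico 1 a) :
    pr1 (a * n + b) * cp a b = pr1 (a * n + b) := by
  unfold pr1
  split_ifs with h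
  · have hb' := mem_Ico.1 hb
    have h1 : a < a * n + b := by nlinarith
    rw [← cp_row a n b, cp_of (Nat.coprime_of_lt_prime (by omega) h1 h), mul_one]
  · rw [zero_mul]

/-- the block model against the primes -/
lemma model_sub (hR : Rg Q a N)
    (hG : ∀ m, Q ^ 2 ≤ m → m < 4 * Q ^ 2 → |pr1 m - G m| ≤ err m)
    (hs : SmallC a N (fun m => G m - ν (m / a / hh) * rr w m) δ) {u v : ℕ → ℝ}
    (hu : ∀ n, 0 ≤ u n ∧ u n ≤ 1) (hv : ∀ b, 0 ≤ v b ∧ v b ≤ 1)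
    (hc : ∀ b, v b ≠ 0 → b.Coprime a) :
    |∑ n ∈ Ico N (2 * N), ∑ b ∈ Ico 1 a, ν (n / hh) * rr w (a * n + b) * u n * v b -
        Br a N pr1 u v| ≤
      δ * a * N + ∑ n ∈ Ico N (2 * N), u n * ∑ b ∈ Ico 1 a, err (a * n + b) := by
  have h1 := hs.real (u := u) (v := v) (fun n => abs_le.2 ⟨by linarith [(hu n).1], (hu n).2⟩)
    (fun b => abs_le.2 ⟨by linarith [(hv b).1], (hv b).2⟩) hc
  have h2 : |∑ n ∈ Ico N (2 * N), ∑ b ∈ Ico 1 a, (pr1 (a * n + b) - G (a * n + b)) * u n * v b| ≤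
      ∑ n ∈ Ico N (2 * N), u n * ∑ b ∈ Ico 1 a, err (a * n + b) := by
    refine (abs_sum_le_sum_abs _ _).trans (sum_le_sum fun n hn => ?_)
    rw [mul_sum]
    refine (abs_sum_le_sum_abs _ _).trans (sum_le_sum fun b hb => ?_)
    have h3 := hG (a * n + b) (hR.entry hn hb).1 (hR.entry hn hb).2
    rw [abs_mul, abs_mul, abs_of_nonneg (hu n).1, abs_of_nonneg (hv b).1]
    have h4 : |pr1 (a * n + b) - G (a * n + b)| * u n ≤ err (a * n + b) * u n :=
      mul_le_mul_of_nonneg_right h3 (hu n).1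
    calc _ ≤ |pr1 (a * n + b) - G (a * n + b)| * u n :=
          mul_le_of_le_one_right (mul_nonneg (abs_nonneg _) (hu n).1) (hv b).2
      _ ≤ _ := by rw [mul_comm (u n)]; exact h4
  have e : ∑ n ∈ Ico N (2 * N), ∑ b ∈ Ico 1 a, ν (n / hh) * rr w (a * n + b) * u n * v b -
        Br a N pr1 u v = -Br a N (fun m => G m - ν (m / a / hh) * rr w m) u v -
      ∑ n ∈ Ico N (2 * N), ∑ b ∈ Ico 1 a, (pr1 (a * n + b) - G (a * n + b)) * u n * v b := by
    unfold Br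
    rw [← sum_neg_distrib, ← sum_sub_distrib, ← sum_sub_distrib]
    refine sum_congr rfl fun n _ => ?_
    rw [← sum_neg_distrib, ← sum_sub_distrib, ← sum_sub_distrib]
    refine sum_congr rfl fun b hb => ?_
    simp only [row_div hb]
    ring
  rw [e]
  have := abs_le.1 h1
  have := abs_le.1 h2
  exact abs_le.2 ⟨by linarith, by linarith⟩

/-- the total deficiency of the block densities -/
lemma defic {κ c B : ℝ} {M : ℕ} (hR : Rg Q a N) (hN : 1 ≤ N) (he : ∀ m, 0 ≤ err m)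
    (hG : ∀ m, Q ^ 2 ≤ m → m < 4 * Q ^ 2 → |pr1 m - G m| ≤ err m)
    (hs : SmallC a N (fun m => G m - ν (m / a / hh) * rr w m) δ) (hB : 0 ≤ B) (hpos : 1 ≤ hh)
    (hM : 2 * N ≤ M * hh)
    (hrow : ∀ n, N ≤ n → κ * ∑ b ∈ Ico 1 a, rr w (a * n + b) * cp a b ≤ c)
    (hF : ∀ n1 n2, N ≤ n1 → n1 ≤ n2 → n2 ≤ 2 * N →
      ∑ n ∈ Ico n1 n2, (c - ∑ b ∈ Ico 1 a, pr1 (a * n + b)) ≤ B) :
    ∑ n ∈ Ico N (2 * N), max (κ - ν (n / hh)) 0 * ∑ b ∈ Ico 1 a, rr w (a * n + b) * cp a b ≤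
      M * B + δ * a * N + ∑ n ∈ Ico N (2 * N), ∑ b ∈ Ico 1 a, err (a * n + b) := by
  let z : ℕ → ℝ := fun s => if ν s < κ then 1 else 0
  have hz : ∀ s, 0 ≤ z s ∧ z s ≤ 1 := fun s => by
    simp only [z]
    split_ifs <;> norm_num
  have h1 := KPP.sum_blocks hB hpos hM hF hz
  have h2 := (abs_le.1 (model_sub hR hG hs (u := fun n => z (n / hh)) (v := cp a)
    (fun n => hz _) (cp_bd a) fun b hb => by
      by_contra h0
      exact hb (cp_of_not h0))).1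
  have h3 : ∑ n ∈ Ico N (2 * N), z (n / hh) * ∑ b ∈ Ico 1 a, err (a * n + b) ≤
      ∑ n ∈ Ico N (2 * N), ∑ b ∈ Ico 1 a, err (a * n + b) :=
    sum_le_sum fun n _ => mul_le_of_le_one_left (sum_nonneg fun _ _ => he _) (hz _).2
  have h4 : ∑ n ∈ Ico N (2 * N),
        max (κ - ν (n / hh)) 0 * ∑ b ∈ Ico 1 a, rr w (a * n + b) * cp a b ≤
      ∑ n ∈ Ico N (2 * N), z (n / hh) * (c - ∑ b ∈ Ico 1 a, pr1 (a * n + b)) -
      (∑ n ∈ Ico N (2 * N), ∑ b ∈ Ico 1 a, ν (n / hh) * rr w (a * n + b) * z (n / hh) * cp a b -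
        Br a N pr1 (fun n => z (n / hh)) (cp a)) := by
    unfold Br
    rw [← sum_sub_distrib, ← sum_sub_distrib]
    refine sum_le_sum fun n hn => ?_
    have h5 := hrow n (mem_Ico.1 hn).1
    have e1 : ∑ b ∈ Ico 1 a, ν (n / hh) * rr w (a * n + b) * z (n / hh) * cp a b =
        z (n / hh) * (ν (n / hh) * ∑ b ∈ Ico 1 a, rr w (a * n + b) * cp a b) := by
      rw [mul_sum, mul_sum]
      exact sum_congr rfl fun b _ => by ring
    have e2 : ∑ b ∈ Ico 1 a, pr1 (a * n + b) * z (n / hh) * cp a b =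
        z (n / hh) * ∑ b ∈ Ico 1 a, pr1 (a * n + b) := by
      rw [mul_sum]
      refine sum_congr rfl fun b hb => ?_
      rw [mul_right_comm, pr1_cp (hN.trans (mem_Ico.1 hn).1) hb, mul_comm]
    rw [e1, e2]
    by_cases h : ν (n / hh) < κ
    · have e : z (n / hh) = 1 := if_pos h
      rw [e, max_eq_left (by linarith)]
      linarith
    · have e : z (n / hh) = 0 := if_neg h
      rw [e, max_eq_right (by linarith)]
      simp
  linarith

/-- the main inequality -/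
lemma main_le {κ : ℝ} (hR : Rg Q a N)
    (hG : ∀ m, Q ^ 2 ≤ m → m < 4 * Q ^ 2 → |pr1 m - G m| ≤ err m)
    (hs : SmallC a N (fun m => G m - ν (m / a / hh) * rr w m) δ) {u v : ℕ → ℝ}
    (hu : ∀ n, 0 ≤ u n ∧ u n ≤ 1) (hv : ∀ b, 0 ≤ v b ∧ v b ≤ 1)
    (hc : ∀ b, v b ≠ 0 → b.Coprime a) :
    κ * Br a N (rr w) u v ≤ Br a N pr1 u v + δ * a * N + ∑ n ∈ Ico N (2 * N), u n *
      (∑ b ∈ Ico 1 a, err (a * n + b) +
        max (κ - ν (n / hh)) 0 * ∑ b ∈ Ico 1 a, rr w (a * n + b) * cp a b) := by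
  have h2 := (abs_le.1 (model_sub hR hG hs hu hv hc)).2
  have h4 : κ * Br a N (rr w) u v ≤
      ∑ n ∈ Ico N (2 * N), ∑ b ∈ Ico 1 a, ν (n / hh) * rr w (a * n + b) * u n * v b +
      ∑ n ∈ Ico N (2 * N),
        u n * (max (κ - ν (n / hh)) 0 * ∑ b ∈ Ico 1 a, rr w (a * n + b) * cp a b) := by
    unfold Br
    rw [mul_sum, ← sum_add_distrib]
    refine sum_le_sum fun n _ => ?_
    rw [mul_sum, mul_sum, mul_sum, ← sum_add_distrib]
    refine sum_le_sum fun b _ => ?_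
    have h5 : 0 ≤ rr w (a * n + b) * u n := mul_nonneg (rr_bd _ _).1 (hu n).1
    have h8 : v b ≤ cp a b := by
      by_cases h0 : v b = 0
      · rw [h0]
        exact (cp_bd a b).1
      · rw [cp_of (hc b h0)]
        exact (hv b).2
    have h6 : (κ - ν (n / hh)) * (rr w (a * n + b) * u n * v b) ≤
        max (κ - ν (n / hh)) 0 * (rr w (a * n + b) * u n * v b) :=
      mul_le_mul_of_nonneg_right (le_max_left _ _) (mul_nonneg h5 (hv b).1)
    have h7 : max (κ - ν (n / hh)) 0 * (rr w (a * n + b) * u n * v b) ≤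
        max (κ - ν (n / hh)) 0 * (rr w (a * n + b) * u n * cp a b) :=
      mul_le_mul_of_nonneg_left (mul_le_mul_of_nonneg_left h8 h5) (le_max_right _ _)
    linarith
  simp only [mul_add, sum_add_distrib]
  linarith

/-- powers of the larger logarithm -/
lemma inv_pow_le {x y : ℝ} {i j : ℕ} (hx : 1 ≤ x) (hxy : x ≤ y) (hij : i ≤ j) :
    1 / y ^ j ≤ 1 / x ^ i :=
  one_div_le_one_div_of_le (by positivity)
    ((pow_le_pow_right₀ hx hij).trans (pow_le_pow_left₀ (by linarith) hxy j))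

end QKPP

open QKPP in
theorem qKP (h1 : T_G) (h2 : S_Rows) (h3 : T_Blk) (h4 : T_Exc) : T_KP := by
  intro ε A hε
  obtain ⟨u0, A', B, Ch, Cw0, hu0, h1⟩ := h1 (ε / 4) (A + 2) (by positivity)
  obtain ⟨Q1, h1⟩ := h1 (Cw0 + 2)
  obtain ⟨_, -, h2⟩ := h2
  obtain ⟨Q2, h2⟩ := h2 (Cw0 + 2)
  obtain ⟨Q3, h3⟩ := h3 (Ch + 2)
  obtain ⟨C, h4⟩ := h4 u0 A' B hu0
  obtain ⟨Q5, h5⟩ := ev_lg ((ev_pow_le_two_pow (2 ^ Ch) Ch).and ((eventually_ge_atTop 2).and
    ((eventually_ge_atTop ⌈16 / ε⌉₊).and (eventually_ge_atTop (2 ^ Cw0)))))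
  refine ⟨C, Cw0 + 2, fun B3 => ?_⟩
  obtain ⟨Q4, h4⟩ := h4 B3
  refine ⟨max (max (max Q1 Q2) (max Q3 Q4)) (max Q5 3), fun N hN => ?_⟩
  simp only [max_le_iff] at hN
  obtain ⟨⟨⟨hQ1, hQ2⟩, hQ3, hQ4⟩, hQ5, hN⟩ := hN
  obtain ⟨R, hR1, hR2, hR3⟩ := h4 N hQ4
  obtain ⟨hg1, hg2, hg3, hg4⟩ := h5 N hQ5
  have hw2 : lg N ^ 2 ≤ lg N ^ (Cw0 + 2) := Nat.pow_le_pow_right (by omega) (by omega)
  refine ⟨R, lg N ^ (Cw0 + 2), hR1, hR2, hw2, le_rfl, fun a hNa ha haR => ?_⟩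
  have hR := rg_sqrt hN hNa ha
  generalize Nat.sqrt (a * N) = Q at hR
  have hNQ : N ≤ Q := hR.2.2.2.2
  have hl1 := hR.lg_le
  have hl2 := hR.lg_le_two hg2
  have hrows := (h2 N (lg N ^ (Cw0 + 2)) hQ2 (by nlinarith) le_rfl).2
  obtain ⟨G, err, he, hsum, hG, hap⟩ := h1 Q (lg N ^ (Cw0 + 2)) (hQ1.trans hNQ) (by
    calc lg Q ^ Cw0 ≤ (2 * lg N) ^ Cw0 := Nat.pow_le_pow_left hl2 _
      _ = lg N ^ Cw0 * 2 ^ Cw0 := by ring
      _ ≤ lg N ^ Cw0 * lg N ^ 2 := Nat.mul_le_mul_left _ (by nlinarith)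
      _ = _ := by ring) (Nat.pow_le_pow_left hl1 _)
  obtain ⟨ν, hν⟩ := hap a N hR (hR3 Q a hR haR)
  have hblk := fun n1 n2 => h3 Q a N n1 n2 (hQ3.trans hNQ) hR
  have h2N := two_pow_lg_le (Q := N) (by omega)
  have hkap : kap N (lg N ^ (Cw0 + 2)) = 1 / (4 * VV (lg N ^ (Cw0 + 2)) * lg N) := rfl
  generalize kap N (lg N ^ (Cw0 + 2)) = κ at hkap ⊢
  generalize lg N ^ (Cw0 + 2) = w at *
  generalize lg N = g0 at *
  generalize lg Q = g at *
  have hg0R : (1 : ℝ) ≤ g0 := by exact_mod_cast (by omega : 1 ≤ g0)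
  have hl1R : (g0 : ℝ) ≤ g := by exact_mod_cast hl1
  have hl2R : (g : ℝ) ≤ 2 * g0 := by exact_mod_cast hl2
  have hgR : (1 : ℝ) ≤ g := hg0R.trans hl1R
  have hgε : 16 / ε ≤ g0 := Nat.ceil_le.1 hg3
  have haQ : 0 ≤ (a : ℝ) * N := by positivity
  have hgC : 0 < g ^ Ch := Nat.pow_pos (by omega)
  have hpos : 1 ≤ N / g ^ Ch := (Nat.one_le_div_iff hgC).2 (by
    calc g ^ Ch ≤ (2 * g0) ^ Ch := Nat.pow_le_pow_left hl2 _
      _ = 2 ^ Ch * g0 ^ Ch := mul_pow _ _ _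
      _ ≤ _ := hg1.trans h2N)
  have hM : 2 * N ≤ 4 * g ^ Ch * (N / g ^ Ch) := by
    have := Nat.lt_mul_div_succ N hgC
    nlinarith
  have herr : ∑ n ∈ Ico N (2 * N), ∑ b ∈ Ico 1 a, err (a * n + b) ≤ ε / 4 * (a * N) / g0 := by
    refine (sum_rows_le a N (2 * N) (by omega) he).trans (le_trans
      (sum_le_sum_of_subset_of_nonneg (Ico_subset_Ico ?_ ?_) fun _ _ _ => he _) (hsum.trans ?_))
    · exact Nat.mul_pos (by omega) (by omega)
    · have := hR.2.1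
      nlinarith
    · have k : (Q : ℝ) ^ 2 ≤ a * N := by exact_mod_cast hR.1
      gcongr
  refine ⟨fun n => ∑ b ∈ Ico 1 a, err (a * n + b) +
    max (κ / 2 - ν (n / (N / g ^ Ch))) 0 * ∑ b ∈ Ico 1 a, rr w (a * n + b) * cp a b,
    fun n => ?_, ?_, fun u v hu hv hc => ?_⟩
  · exact add_nonneg (sum_nonneg fun _ _ => he _) (mul_nonneg (le_max_right _ _)
      (sum_nonneg fun _ _ => mul_nonneg (rr_bd _ _).1 (cp_bd _ _).1))
  · have hd := defic (κ := κ / 2) (c := a / (2 * g)) (B := a * N / (g : ℝ) ^ (Ch + 2))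
      hR (by omega) he hG hν (by positivity) hpos hM (fun n hn => ?_) fun n1 n2 k1 k2 k3 => ?_
    · rw [sum_add_distrib]
      have hinv : 1 / (g0 : ℝ) ≤ ε / 16 := by
        rw [div_le_iff₀ hε] at hgε
        rw [div_le_div_iff₀ (by linarith) (by norm_num)]
        linarith
      have e0 : 1 / (g0 : ℝ) ^ 2 * (a * N) = 1 / g0 * (a * N / g0) := by field_simp
      have e1 : ((4 * g ^ Ch : ℕ) : ℝ) * (a * N / (g : ℝ) ^ (Ch + 2)) ≤
          4 * (1 / g0 * (a * N / g0)) := by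
        have := inv_pow_le hg0R hl1R (le_refl 2)
        calc _ = 4 * (1 / (g : ℝ) ^ 2 * (a * N)) := by
              push_cast
              field_simp
              ring
          _ ≤ 4 * (1 / (g0 : ℝ) ^ 2 * (a * N)) := by gcongr
          _ = _ := by rw [e0]
      have e2 : 1 / (g : ℝ) ^ (A + 2) * a * N ≤ 1 / g0 * (a * N / g0) := by
        have := inv_pow_le hg0R hl1R (by omega : 2 ≤ A + 2)
        calc _ = 1 / (g : ℝ) ^ (A + 2) * (a * N) := by ring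
          _ ≤ 1 / (g0 : ℝ) ^ 2 * (a * N) := by gcongr
          _ = _ := e0
      have e3 : 1 / (g0 : ℝ) * (a * N / g0) ≤ ε / 16 * (a * N / g0) := by gcongr
      have e4 : ε / 4 * (a * N) / g0 = ε / 4 * (a * N / g0) := by ring
      have e5 : ε * a * N / g0 = ε * (a * N / g0) := by ring
      have e6 : 0 ≤ ε * (a * N / g0) := by positivity
      rw [e4] at herr
      rw [e5]
      linarith
    · have hV := VV_pos w
      have k : ∑ b ∈ Ico 1 a, rr w (a * n + b) * cp a b ≤ 5 / 4 * VV w * a :=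
        (sum_le_sum fun b _ => mul_le_of_le_one_right (rr_bd _ _).1 (cp_bd _ _).2).trans
          (hrows a n hNa hn).1
      calc κ / 2 * _ ≤ κ / 2 * (5 / 4 * VV w * a) :=
            mul_le_mul_of_nonneg_left k (by rw [hkap]; positivity)
        _ = 5 / 8 * (a / (2 * (2 * g0))) := by
            rw [hkap]
            field_simp
            ring
        _ ≤ a / (2 * (2 * g0)) := mul_le_of_le_one_left (by positivity) (by norm_num)
        _ ≤ _ := by gcongr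
    · have k := hblk n1 n2 k1 k2 k3
      rw [sum_sub_distrib, sum_const, Nat.card_Ico, nsmul_eq_mul, Nat.cast_sub k2]
      have e : ((n2 : ℝ) - n1) * (a / (2 * g)) = a * (n2 - n1) / (2 * g) := by ring
      rw [e]
      linarith
  · have hm := main_le (κ := κ / 2) hR hG hν hu hv hc
    have e2 : 1 / (g : ℝ) ^ (A + 2) * a * N ≤ a * N / (g0 : ℝ) ^ A := by
      have := inv_pow_le hg0R hl1R (by omega : A ≤ A + 2)
      calc _ = 1 / (g : ℝ) ^ (A + 2) * (a * N) := by ring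
        _ ≤ 1 / (g0 : ℝ) ^ A * (a * N) := by gcongr
        _ = _ := by ring
    linarith

end Pool.Agent.P.MP_746f10_nt.AP
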