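import Pool.Agent.P.MP_746f10_nt.AP.QBase
import Pool.Agent.P.MP_0ad054_nt.An.LS

/-! Two mean value bounds for trigonometric polynomials with small frequencies. -/

namespace Pool.Agent.P.MP_746f10_nt.AP

open Finset ComplexConjugate
open Pool.Agent.P.MP_0ad054_nt (e dn mn e_add e_sub e_int e_zero norm_e geom_range four_dn_le)

namespace QLHP

theorem std_mul (a : ℕ) [NeZero a] (r : ℤ) (y : ℕ) :
    ZMod.stdAddChar ((r : ZMod a) * (y : ZMod a)) = e ((r : ℝ) / a * y) := by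
  have h : (r : ZMod a) * (y : ZMod a) = ((r * y : ℤ) : ZMod a) := by push_cast; rfl
  rw [h, ZMod.stdAddChar_coe, e]
  congr 1
  push_cast
  ring

theorem le_dn {x : ℝ} (h : |x| ≤ 1 / 2) : |x| ≤ dn x := by
  unfold dn
  rcases eq_or_ne (round x) 0 with h0 | h0
  · rw [h0]; simp
  · have h1 : (1 : ℝ) ≤ |(round x : ℝ)| := by exact_mod_cast Int.one_le_abs h0
    have h2 := abs_sub_abs_le_abs_sub (round x : ℝ) x
    rw [abs_sub_comm] at h2
    linarith

theorem dn_ge {a R : ℕ} (ha : 0 < a) (hR : 4 * R ≤ a) {r s : ℤ} (hr : |r| ≤ R) (hs : |s| ≤ R) :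
    (|r - s| : ℤ) / (a : ℝ) ≤ dn ((r : ℝ) / a - s / a) := by
  have ha' : (0 : ℝ) < a := by exact_mod_cast ha
  have h1 : |(r : ℝ) / a - s / a| = (|r - s| : ℤ) / (a : ℝ) := by
    rw [← sub_div, abs_div, abs_of_pos ha']; push_cast; rfl
  rw [← h1]
  refine le_dn ?_
  rw [h1, div_le_iff₀ ha']
  have h2 : 2 * |r - s| ≤ (a : ℤ) := by
    have := abs_sub r s
    have h3 : (4 * R : ℤ) ≤ a := by exact_mod_cast hR
    linarith
  have h3 : (2 * (|r - s| : ℤ) : ℝ) ≤ a := by exact_mod_cast h2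
  linarith

theorem period {a R : ℕ} (ha : 0 < a) (hR : 4 * R ≤ a) (c : ℤ → ℂ) (S : Finset ℤ)
    (hS : ∀ r ∈ S, |r| ≤ R) (m : ℕ) :
    ∑ y ∈ range (a * m), ‖∑ r ∈ S, c r * e ((r : ℝ) / a * y)‖ ^ 2 =
      (a * m : ℕ) * ∑ r ∈ S, ‖c r‖ ^ 2 := by
  have ha' : (0 : ℝ) < a := by exact_mod_cast ha
  have sq : ∀ z : ℂ, ((‖z‖ ^ 2 : ℝ) : ℂ) = z * conj z := fun z => by
    rw [Complex.mul_conj, Complex.normSq_eq_norm_sq]
  have e2 : ((∑ y ∈ range (a * m), ‖∑ r ∈ S, c r * e ((r : ℝ) / a * y)‖ ^ 2 : ℝ) : ℂ) =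
      ∑ r ∈ S, ∑ s ∈ S, c r * conj (c s) *
        ∑ y ∈ range (a * m), e (((r : ℝ) / a - s / a) * y) := by
    rw [Complex.ofReal_sum]
    simp only [sq, map_sum, sum_mul_sum]
    rw [sum_comm]
    refine sum_congr rfl fun r _ => ?_
    rw [sum_comm]
    refine sum_congr rfl fun s _ => ?_
    rw [mul_sum]
    refine sum_congr rfl fun n _ => ?_
    rw [sub_mul, e_sub, map_mul]
    ring
  have e3 : ∀ r ∈ S, ∑ s ∈ S, c r * conj (c s) *
      ∑ y ∈ range (a * m), e (((r : ℝ) / a - s / a) * y) =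
      ((a * m : ℕ) : ℂ) * ((‖c r‖ ^ 2 : ℝ) : ℂ) := by
    intro r hr
    rw [sum_eq_single_of_mem r hr]
    · simp only [sub_self, zero_mul, e_zero, sum_const, card_range, nsmul_eq_mul, mul_one, sq]
      ring
    · intro s hs hne
      have h1 := geom_range ((r : ℝ) / a - s / a) (a * m)
      have h2 : ((r : ℝ) / a - s / a) * (a * m : ℕ) = (((r - s) * m : ℤ) : ℝ) := by
        push_cast; field_simp
      rw [h2, e_int, sub_self] at h1
      have h3 : e ((r : ℝ) / a - s / a) - 1 ≠ 0 := by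
        intro h0
        have h4 := four_dn_le ((r : ℝ) / a - s / a)
        rw [h0, norm_zero] at h4
        have h5 := dn_ge ha hR (hS r hr) (hS s hs)
        have h6 : (0 : ℝ) < (|r - s| : ℤ) := by
          exact_mod_cast abs_pos.2 (sub_ne_zero.2 hne.symm)
        have h7 := div_pos h6 ha'
        linarith
      rw [(mul_eq_zero.1 h1).resolve_right h3, mul_zero]
  rw [sum_congr rfl e3, ← mul_sum, ← Complex.ofReal_sum] at e2
  exact_mod_cast e2

theorem shift (x : ℤ → ℝ) (c : ℤ → ℂ) (S : Finset ℤ) (L : ℕ) :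
    ∑ y ∈ range L, ‖∑ r ∈ S, c r * e (x r * y)‖ ^ 2 =
      ∑ n ∈ Icc 1 L, ‖∑ r ∈ S, (c r * e (-x r)) * e (x r * n)‖ ^ 2 := by
  rw [← Ico_add_one_right_eq_Icc, sum_Ico_eq_sum_range, Nat.add_sub_cancel]
  refine sum_congr rfl fun y _ => ?_
  congr 2
  refine sum_congr rfl fun r _ => ?_
  rw [mul_assoc, ← e_add]
  congr 2
  push_cast
  ring

end QLHP

open QLHP in
theorem qLH : T_LH := by
  intro a _ c S R Y L hS hR
  have ha : 0 < a := Nat.pos_of_ne_zero (NeZero.ne a)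
  have ha' : (0 : ℝ) < a := by exact_mod_cast ha
  have hc : 0 ≤ ∑ r ∈ S, ‖c r‖ ^ 2 := by positivity
  simp only [std_mul]
  refine ⟨?_, fun hY hsp => ?_⟩
  · have h1 : L ≤ a * (L / a + 1) := (Nat.lt_mul_div_succ L ha).le
    have h2 : a * (L / a + 1) ≤ L + a := by
      have := Nat.mul_div_le L a
      rw [mul_add, mul_one]; omega
    have h3 : ((a * (L / a + 1) : ℕ) : ℝ) ≤ L + a := by exact_mod_cast h2
    calc _ ≤ ∑ y ∈ range (a * (L / a + 1)), ‖∑ r ∈ S, c r * e ((r : ℝ) / a * y)‖ ^ 2 :=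
          sum_le_sum_of_subset_of_nonneg (range_mono h1) fun _ _ _ => by positivity
      _ = _ := period ha hR c S hS _
      _ ≤ _ := by gcongr
  · have hY' : (0 : ℝ) < Y := by exact_mod_cast hY
    have hq : ((a / Y + 1 : ℕ) : ℝ) ≤ a / Y + 1 := by
      push_cast
      have := Nat.cast_div_le (α := ℝ) (m := a) (n := Y)
      linarith
    have hq2 : ((a / Y + 1 : ℕ) : ℝ) ≤ 2 * a := by
      have := Nat.div_le_self a Y
      exact_mod_cast (by omega : a / Y + 1 ≤ 2 * a)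
    have hq0 : (1 : ℝ) ≤ ((a / Y + 1 : ℕ) : ℝ) := by exact_mod_cast Nat.le_add_left 1 _
    have hq3 : (a : ℝ) ≤ Y * ((a / Y + 1 : ℕ) : ℝ) := by
      exact_mod_cast (Nat.lt_mul_div_succ a hY).le
    have hs : ∀ s ∈ S, ∀ t ∈ S, s ≠ t →
        1 / ((a / Y + 1 : ℕ) : ℝ) ≤ dn ((s : ℝ) / a - t / a) := by
      intro s hs t ht hne
      refine le_trans ?_ (dn_ge ha hR (hS s hs) (hS t ht))
      have h1 : (Y : ℝ) ≤ (|s - t| : ℤ) := by exact_mod_cast hsp s hs t ht hne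
      rw [div_le_div_iff₀ (by positivity) ha']
      nlinarith
    have hl : Real.log ((a / Y + 1 : ℕ) : ℝ) ≤ Real.log (2 * a) :=
      Real.log_le_log (by positivity) hq2
    have hl0 : 0 ≤ Real.log ((a / Y + 1 : ℕ) : ℝ) := Real.log_nonneg hq0
    have hV : ∀ r ∈ S, ∑ s ∈ S, mn L ((s : ℝ) / a - r / a) ≤
        2 * (3 * L + (a / Y + 1) * (1 + Real.log (2 * a))) := fun r _ =>
      (Pool.Agent.P.MP_0ad054_nt.An.LSP.spaced S (fun s : ℤ => (s : ℝ) / a) (Nat.succ_pos _)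
        (Nat.cast_nonneg L) hs _).trans (by gcongr)
    have h := Pool.Agent.P.MP_0ad054_nt.An.LSP.dual S (fun s : ℤ => (s : ℝ) / a) L hV
      fun r => c r * e (-((r : ℝ) / a))
    simp only [norm_mul, norm_e, mul_one] at h
    rw [shift (fun s : ℤ => (s : ℝ) / a)]
    exact h

end Pool.Agent.P.MP_746f10_nt.AP
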