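import Pool.Agent.P.MP_746f10_nt.AP.QBase
import Pool.Agent.P.MP_746f10_nt.AP.Major

/-! The major part of the bilinear sums for general moduli. -/

namespace Pool.Agent.P.MP_746f10_nt.AP

open Finset Filter
open Pool.Agent.P.MP_a14ce1_nt.Ch (nit sm)

namespace QMajorP

lemma logX {Q X : ℕ} {G : ℝ} (hQ : 16 ≤ Q) (h0 : 0 < X) (hX : X ≤ 2 * Q ^ 2) (hG : 4 ≤ G)
    (h : Real.log Q ≤ G) : 1 + Real.log ((8 * X : ℕ) : ℝ) ≤ G ^ 2 ∧
      1 + Real.log ((X : ℕ) : ℝ) ≤ G ^ 2 := by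
  have e1 : 8 * X ≤ Q ^ 3 := by nlinarith [Nat.mul_le_mul_right (Q ^ 2) hQ]
  have e2 : ((8 * X : ℕ) : ℝ) ≤ (Q : ℝ) ^ 3 := by exact_mod_cast e1
  have e3 := Real.log_le_log (by exact_mod_cast (by omega : 0 < 8 * X)) e2
  have e4 : Real.log ((X : ℕ) : ℝ) ≤ Real.log ((8 * X : ℕ) : ℝ) :=
    Real.log_le_log (by exact_mod_cast h0) (by exact_mod_cast (by omega : X ≤ 8 * X))
  rw [Real.log_pow, Nat.cast_ofNat] at e3
  constructor <;> nlinarith

lemma rng {Q X t t' T : ℝ} (hX : X ≤ 2 * Q ^ 2) (ht : |t| ≤ X) (hT : T ≤ X)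
    (h : |t' - t| ≤ T) : |t'| ≤ 4 * Q ^ 2 := by
  have := abs_sub_abs_le_abs_sub t' t
  linarith

lemma lgM {Q M g : ℕ} (hM : 1 ≤ M) (h : M ≤ Q ^ 3) (hQ : Q < 2 ^ (g + 1)) (hg : 2 ≤ g) :
    lg M ≤ 4 * g := by
  have h1 : 2 ^ lg M < 2 ^ ((g + 1) * 3) := by
    rw [pow_mul]
    exact (two_pow_lg_le hM).trans_lt (h.trans_lt (Nat.pow_lt_pow_left hQ (by norm_num)))
  have := (Nat.pow_lt_pow_iff_right (by norm_num)).1 h1
  omega

lemma num5 {G E m P : ℝ} (hG : 4 ≤ G) (hE : 0 < E) (hm : m ≤ 4 * G) (hP : 16 * (E * G) ≤ P) :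
    1 / (E * G) + 2 * m / P ≤ 1 / E := by
  calc _ ≤ 1 / (E * 4) + 2 * (4 * G) / (16 * (E * G)) := by gcongr
    _ = 3 / 4 * (1 / E) := by field_simp; ring
    _ ≤ 1 * (1 / E) := by gcongr; norm_num
    _ = _ := one_mul _

lemma num6 {G m W w : ℝ} (hG : 4 ≤ G) (hW : 0 ≤ W) (hw : 0 < w) (hm : m ≤ 4 * G) :
    m * W / w ≤ W / (w / (4 * G)) := by
  calc _ ≤ 4 * G * W / w := by gcongr
    _ = _ := by field_simp

end QMajorP

open MajorP in
theorem qMajor (h1 : T_Row) (h2 : S_Var) (h3 : S_SmLe) (h4 : S_Match) (h4' : T_Match)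
    (h5 : S_Box) : T_Major := by
  intro u A B hu
  obtain ⟨Cr, hr, h1⟩ := h1
  obtain ⟨Cv, hv, h2⟩ := h2
  obtain ⟨n1, hn1⟩ : ∃ n1, n1 = A + B + 2 := ⟨_, rfl⟩
  obtain ⟨A2, Q1, h5⟩ := h5 0 (n1 + 3) (2 * u) (by omega)
  obtain ⟨A3, hA3⟩ : ∃ A3, A3 = A2 + 2 * n1 + 1 := ⟨_, rfl⟩
  obtain ⟨CL, hCL⟩ : ∃ CL, CL = 2 * A3 + 3 * n1 + 13 := ⟨_, rfl⟩
  obtain ⟨Q2, hQ2⟩ := ev_lg (p := fun g => (g ^ CL ≤ 2 ^ g ∧ g ^ (2 * n1) ≤ 2 ^ Nat.sqrt g ∧
      16 * g ^ (n1 + 2) ≤ 2 ^ (g / u)) ∧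
      (16 ≤ g ∧ 128 * 2 ^ (3 * u) ≤ g ∧ 2 ^ (n1 + 3) ≤ g ∧ 2 * u ≤ g ∧
        (8 * (2 ^ (3 * u) + 1)) ^ 5 ≤ g) ∧ (6 * Cv + Cr) * 2 ^ (3 * u) ≤ (g : ℝ)) (by
    filter_upwards [ev_pow_le_two_pow 1 CL, ev_pow_le_sqrt 1 (2 * n1),
      ev_pow_le_div 16 (n1 + 2) u hu, eventually_ge_atTop 16,
      eventually_ge_atTop (128 * 2 ^ (3 * u)), eventually_ge_atTop (2 ^ (n1 + 3)),
      eventually_ge_atTop (2 * u), eventually_ge_atTop ((8 * (2 ^ (3 * u) + 1)) ^ 5),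
      tendsto_natCast_atTop_atTop.eventually_ge_atTop ((6 * Cv + Cr) * 2 ^ (3 * u))]
      with g a b b' c d e f i j
    exact ⟨⟨by simpa using a, by simpa using b, b'⟩, ⟨c, d, e, f, i⟩, j⟩)
  refine ⟨n1 + 1, CL, CL + 2, max (max Q1 Q2) 1, ?_⟩
  intro Q a _ N w d L' φ v hQ hR hGd hw hL1 hL hφm hv1
  obtain ⟨⟨p1, p2, p3⟩, ⟨g16, gΛ, gn, gu, gK⟩, gC⟩ := hQ2 Q (by omega)
  replace h5 := h5 Q (by omega)
  have Q1' : 1 ≤ Q := by omega
  have l1 := lg_le_log Q1'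
  have l2 := log_le_lg (Q := Q) (by omega)
  have t1 := two_pow_lg_le Q1'
  have t2 := lt_two_pow_lg Q
  have hj := d.hj
  have hj' := d.hj'
  have hom : lg Q ^ (2 * n1) ≤ om Q := p2
  have ha := hR.Q_le
  have haQ := hR.a_le_sq
  have hQN := hR.Q_le_sq
  have N1 := hR.N_pos Q1'
  have X1 := hR.1
  have X3 := hR.2.1
  unfold Gd2 at hGd
  generalize lg Q = g at *
  have gQ : g ≤ Q := (Nat.lt_two_pow_self).le.trans t1
  have pw : ∀ n, n ≤ CL → g ^ n ≤ Q := fun n hn =>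
    (Nat.pow_le_pow_right (by omega) hn).trans (p1.trans t1)
  have om2 : 2 ≤ om Q := le_trans (by omega) ((Nat.le_self_pow (by omega) g).trans hom)
  have P1 : 2 * 2 ^ d.j * om Q ≤ Q := by rwa [← pow_succ']
  have gCL : 2 ≤ g ^ CL := le_trans (by omega) (Nat.le_self_pow (by omega) g)
  have L2 : 2 * L' ≤ d.L := by
    rw [mul_comm]
    exact (Nat.mul_le_mul_left _ gCL).trans hL
  obtain ⟨P2, P3, -, X2, Y1⟩ :=
    natf Q1' le_rfl (by omega) Nat.one_le_two_pow om2 P1 d.hK (gK.trans gQ) d.hKL' L2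
  rw [← sq] at X2 Y1
  replace X2 : 2 ≤ a * N := X2.trans X1
  replace Y1 : 2 ^ (3 * u) * d.L + L' ≤ 8 * (a * N) := Y1.trans (Nat.mul_le_mul_left 8 X1)
  have DN : g ^ n1 ≤ N := by
    refine (Nat.pow_le_pow_iff_left (n := 2) (by norm_num)).1 ?_
    rw [← pow_mul]
    exact (pw _ (by omega)).trans hQN
  have wB : g ^ B ≤ w := (Nat.pow_le_pow_right (by omega) (by omega)).trans hw
  have w1 : 1 ≤ w := (Nat.one_le_pow _ _ (by omega)).trans hw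
  have hbox : box d.j = PP (2 ^ d.j) (2 * 2 ^ d.j) := by rw [box, pow_succ']
  obtain ⟨-, m2, -⟩ := h4 d.be w d.L (2 ^ (3 * u)) L' d.be01
  have ga1 : ∀ l, |ga d.be w L' l| ≤ 1 := fun l => (m2 l).trans (rr_bd w l).2
  have garough : ∀ l, ga d.be w L' l ≠ 0 → rough w l := fun l h =>
    rough_of_rr fun h0 => h (abs_nonpos_iff.1 (h0 ▸ m2 l))
  -- real quantities
  obtain ⟨G, hG⟩ : ∃ G : ℝ, G = g := ⟨_, rfl⟩
  obtain ⟨D, hD⟩ : ∃ D : ℝ, D = G ^ n1 := ⟨_, rfl⟩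
  obtain ⟨T0, hT0⟩ : ∃ T0 : ℝ, T0 = G ^ A3 := ⟨_, rfl⟩
  have G4 : (4 : ℝ) ≤ G := by rw [hG]; exact_mod_cast (by omega : 4 ≤ g)
  have G1 : (1 : ℝ) ≤ G := by linarith only [G4]
  have D1 : 1 ≤ D := hD ▸ one_le_pow₀ G1
  have T1 : 1 ≤ T0 := hT0 ▸ one_le_pow₀ G1
  have pwR : ∀ n, n ≤ CL → G ^ n ≤ Q := fun n hn => by rw [hG]; exact_mod_cast pw n hn
  have aR : (Q : ℝ) ≤ a := by exact_mod_cast ha
  have XR : (a : ℝ) * N ≤ 2 * (Q : ℝ) ^ 2 := by exact_mod_cast X3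
  have QR : (1 : ℝ) ≤ Q := by exact_mod_cast Q1'
  have NR : (1 : ℝ) ≤ N := by exact_mod_cast N1
  have aX : (a : ℝ) ≤ a * N := le_mul_of_one_le_right (by positivity) NR
  have eCL : G ^ CL = T0 ^ 2 * D ^ 3 * G ^ 13 := by rw [hT0, hD, hCL]; ring
  have TD : 2 * D ^ 2 ≤ T0 := by
    have : G ^ (2 * n1 + 1) ≤ T0 := hT0 ▸ pow_le_pow_right₀ G1 (by omega)
    rw [pow_succ, pow_mul', ← hD, mul_comm] at this
    exact (mul_le_mul_of_nonneg_right (by linarith only [G4]) (sq_nonneg D)).trans this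
  have TX : T0 ≤ a * N := (hT0 ▸ pwR A3 (by omega)).trans (aR.trans aX)
  obtain ⟨lX, lX'⟩ := QMajorP.logX (X := a * N) (g16.trans gQ) (by omega) X3 G4 (hG ▸ l2)
  have lX0 := Real.log_natCast_nonneg (a * N)
  have R1 : 1 ≤ a / g ^ n1 := (Nat.le_div_iff_mul_le (by positivity)).2 (by
    have := pw n1 (by omega); omega)
  have R2 : ((a / g ^ n1 : ℕ) : ℝ) * D ≤ a := by
    rw [hD, hG]; exact_mod_cast Nat.div_mul_le_self a _
  have R3 : (a : ℝ) ≤ 2 * D * (a / g ^ n1 : ℕ) := by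
    rw [hD, hG]; exact_mod_cast natd (by positivity) R1
  have cb0 : ∀ m, m ≤ 8 * (a * N) → ‖((cv d.al (ga d.be w L') m : ℝ) : ℂ)‖ ≤ 2 ^ (3 * u) :=
    fun m hm => by
    rw [Complex.norm_real, Real.norm_eq_abs]
    exact (abs_cv_le (fun k => (d.al01 k).1) ga1 m).trans (d.dv m (by omega))
  have key := h1 a N w (g ^ B) (a / g ^ n1) _ v (2 ^ (3 * u)) (Cv * 2 ^ (3 * u) *
      ((a / g ^ n1 : ℕ) * (a * N) * √(7 / D ^ 2 + 1 / (a / D ^ 2)) + a / D ^ 2 * (a * N) +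
        ((a / g ^ n1 : ℕ) : ℝ) ^ 2)) φ hφm wB (by omega) N1 R1 (Nat.div_le_self _ _) hv1 cb0
    (fun m hm => by
      obtain ⟨k, l, rfl, e1, e2⟩ := cv_ne_zero (Complex.ofReal_ne_zero.1 hm)
      exact rough_mul.2 ⟨rough_of_le_rr (d.al01 k) e1, garough l e2⟩) ?_
  · refine key.trans ?_
    push_cast
    rw [← hG] at gC ⊢
    exact num4 G4 (by rw [hD, hn1]; ring) (by positivity) (by positivity)
      (by rw [hD, hG]; exact_mod_cast DN) (by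
        rw [hD, ← pow_mul]; exact (pwR _ (by omega)).trans aR) D1 (by exact_mod_cast R2)
      (by exact_mod_cast R3) hv hr (by positivity) gC le_rfl
  intro q κ hq1 hq
  have hφ : ∀ k l : ℕ, κ (k * l : ℕ) = κ k * κ l := fun k l => by rw [Nat.cast_mul, map_mul]
  have nφ : ∀ (x : ℝ) (y : ℝ) (k : ℕ), |x| ≤ y → ‖(x : ℂ) * κ k‖ ≤ y := fun x y k h => by
    rw [norm_mul, Complex.norm_real, Real.norm_eq_abs]
    exact (mul_le_of_le_one_right (abs_nonneg x) (κ.norm_le_one _)).trans h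
  have npp : ∀ p, ‖((bx d.j p : ℝ) : ℂ) * κ p‖ ≤ 1 := fun p => nφ _ _ _ (by
    change |if p ∈ box d.j then (1 : ℝ) else 0| ≤ 1
    split_ifs <;> simp)
  have epp : ∀ p ∈ PP (2 ^ d.j) (2 * 2 ^ d.j), ((bx d.j p : ℝ) : ℂ) * κ p = κ p :=
    fun p hp => by
    change ((if p ∈ box d.j then (1 : ℝ) else 0 : ℝ) : ℂ) * _ = _
    rw [hbox, if_pos hp, Complex.ofReal_one, one_mul]
  suffices H : ∃ T1 ε1 ε2 : ℝ, 0 ≤ T1 ∧ 0 ≤ ε1 ∧ 0 ≤ ε2 ∧
      (∀ t : ℝ, T1 ≤ |t| → |t| ≤ (a * N : ℕ) → sm (PP (2 ^ d.j) (2 * 2 ^ d.j))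
        (fun p => ((bx d.j p : ℝ) : ℂ) * κ p / p) t ≤ ε1) ∧
      (∀ t : ℝ, |t| < T1 → sm (Icc 1 (8 * (a * N)))
        (fun l => ((ga d.be w L' l : ℝ) : ℂ) * κ l / l) t ≤ ε2) ∧
      ε1 + T1 * (1 + Real.log (a * N : ℕ)) ^ 2 * ε2 ≤ 7 / D ^ 2 by
    obtain ⟨T1, ε1, ε2, b1, b2, b3, b4, b5, b6⟩ := H
    have D2 : 1 ≤ D ^ 2 := one_le_pow₀ D1
    have := h2 (a * N) (2 ^ d.j) (a / g ^ n1) (a / D ^ 2) T1 ε1 ε2 (2 ^ (3 * u))
      (fun m => ((cv d.al (ga d.be w L') m : ℝ) : ℂ) * κ m)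
      (fun p => ((bx d.j p : ℝ) : ℂ) * κ p)
      (fun m => ((cv d.al' (ga d.be w L') m : ℝ) : ℂ) * κ m)
      (fun k => ((d.al k : ℝ) : ℂ) * κ k)
      (fun l => ((ga d.be w L' l : ℝ) : ℂ) * κ l) X2 Nat.one_le_two_pow
      (by
        rw [le_div_iff₀ (by positivity), hD, ← pow_mul', hG]
        exact_mod_cast (Nat.mul_le_mul_left (2 ^ d.j) hom).trans (P3.trans ha))
      (by
        push_cast
        exact (div_le_self (by positivity) D2).trans aX)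
      ((Nat.div_le_self _ _).trans (Nat.le_mul_of_pos_right _ N1)) b1 b2 b3
      (one_le_pow₀ one_le_two)
      (fun n => by
        rw [show d.al = cv (bx d.j) d.al' from funext d.fac, cv_assoc, cv_ofReal,
          cv_twist _ _ (fun k => κ k) hφ])
      (fun n => by rw [cv_ofReal, cv_twist _ _ (fun k => κ k) hφ])
      (fun p hp => by
        by_contra hn
        refine hp ?_
        change ((if p ∈ box d.j then (1 : ℝ) else 0 : ℝ) : ℂ) * _ = _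
        rw [hbox, if_neg hn, Complex.ofReal_zero, zero_mul])
      npp (fun k => nφ _ _ _ (by
        rw [abs_of_nonneg (d.al01 k).1]
        exact (d.al01 k).2.trans (rr_bd w k).2))
      (fun n hn => ⟨nφ _ _ _ ((abs_cv_le (fun k => (d.al'01 k).1) ga1 n).trans (d.dv' n (by omega))),
        nφ _ _ _ ((abs_cv_le (fun k => (d.al01 k).1) ga1 n).trans (d.dv n (by omega)))⟩) b4 b5
    refine this.trans ?_
    push_cast at b6 ⊢
    gcongr
  have eD : (g : ℝ) ^ (n1 + 1) = D * G := by rw [hD, hG, pow_succ]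
  have d27 : 2 / D ^ 2 ≤ 7 / D ^ 2 := by gcongr; norm_num
  by_cases hκ : κ = 1
  swap
  · refine ⟨0, 2 / D ^ 2, 0, le_rfl, by positivity, le_rfl, fun t _ ht => ?_,
      fun t ht => absurd ht (not_lt.2 (abs_nonneg t)), by simpa using d27⟩
    push_cast at ht
    refine (smP h3 Nat.one_le_two_pow epp npp (T := a * N) (by linarith only [T1, TX])
      fun t' ht' => ?_).trans (num1 G4 D1 (TD.trans TX))
    rw [← hbox, ← eD]
    exact hGd q hq1 hq κ hκ d.j hj (by rw [pow_succ']; exact P2.le) t'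
      (QMajorP.rng XR ht le_rfl ht')
  subst hκ
  have M1 : 1 ≤ a * q := Nat.mul_pos (by omega) hq1
  have lM : (lg (a * q) : ℝ) ≤ 4 * G := by
    rw [hG]
    exact_mod_cast QMajorP.lgM M1 (by
      rw [pow_succ]
      exact Nat.mul_le_mul haQ (hq.trans (pw B (by omega)))) t2 (by omega)
  have boxb : ∀ t' : ℝ, |t'| ≤ 4 * (Q : ℝ) ^ 2 → Real.log Q ^ A2 ≤ |t'| →
      ‖∑ p ∈ PP (2 ^ d.j) (2 * 2 ^ d.j),
        (1 : DirichletCharacter ℂ (a * q)) p / (p : ℂ) * nit t' p‖ ≤ 1 / (D * G) := by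
    intro t' ht hor
    have e1 : D * G * G ≤ Real.log Q ^ (n1 + 3) := by
      have e2 : (2 : ℝ) ^ (n1 + 3) ≤ G := by rw [hG]; exact_mod_cast gn
      calc D * G * G ≤ (G / 2) ^ (n1 + 3) := by
            rw [div_pow, le_div_iff₀ (by positivity), pow_succ G, pow_succ G, pow_succ G, ← hD]
            gcongr
        _ ≤ _ := by rw [hG]; gcongr
    have e3 := h5 1 1 (2 ^ d.j) t' (by simp) (t2.le.trans (by
      rw [← pow_mul]
      exact Nat.pow_le_pow_right (by norm_num) (natg hu gu hj))) P2.le ht (Or.inr hor)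
    refine (box_cop M1 Nat.one_le_two_pow (c := fun p => (1 : DirichletCharacter ℂ (a * q)) p)
      (c' := fun p => (1 : DirichletCharacter ℂ 1) p)
      (fun p => DirichletCharacter.norm_le_one _ _) (fun p => DirichletCharacter.norm_le_one _ _)
      (fun p hp h0 => by
        rw [char_one (hp.coprime_iff_not_dvd.2 h0), char_one (Nat.coprime_one_right p)]) t').trans
      ((add_le_add (e3.trans (one_div_le_one_div_of_le (by positivity) e1)) le_rfl).trans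
        (QMajorP.num5 G4 (by positivity) lM ?_))
    rw [← eD, hG, ← pow_succ]
    exact_mod_cast p3.trans (Nat.pow_le_pow_right (by norm_num) hj)
  refine ⟨2 * T0, 2 / D ^ 2, Real.pi * (1 / (T0 * D * G ^ 4)) ^ 2 +
    2 / (T0 * D ^ 2 * G ^ 8) * G ^ 4, by positivity, by positivity, by positivity,
    fun t ht ht2 => ?_, fun t ht => ?_, ?_⟩
  · push_cast at ht2
    refine (smP h3 Nat.one_le_two_pow epp npp (T := T0) (by positivity) fun t' ht' =>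
      boxb t' ?_ ?_).trans (num1 G4 D1 TD)
    · exact QMajorP.rng XR ht2 TX ht'
    · have e1 := abs_sub_abs_le_abs_sub t t'
      rw [abs_sub_comm t t'] at e1
      calc Real.log Q ^ A2 ≤ G ^ A2 :=
            pow_le_pow_left₀ (Real.log_natCast_nonneg Q) (hG ▸ l2) _
        _ ≤ T0 := hT0 ▸ pow_le_pow_right₀ G1 (by omega)
        _ ≤ _ := by linarith only [e1, ht, ht']
  · refine smL h3 (fun l => nφ _ _ _ (ga1 l)) (by positivity) lX fun t' ht' => ?_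
    have e4 := h4' d.be w d.L (2 ^ (3 * u)) L' (a * q) (8 * (a * N)) t' d.be01 M1 w1 d.beS hL1 L2 Y1
    have wR : G ^ (CL + 2) ≤ w := by rw [hG]; exact_mod_cast hw
    have e5 := QMajorP.num6 (W := 1 + Real.log ((8 * (a * N) : ℕ) : ℝ)) (w := w) G4
      (by linarith only [Real.log_natCast_nonneg (8 * (a * N))]) (by exact_mod_cast w1) lM
    refine (e4.trans (add_le_add le_rfl e5)).trans
      (num3 G4 D1 T1 ?_ (by positivity) (by exact_mod_cast hL1) ?_ ?_ lX ?_)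
    · rw [hG]; exact_mod_cast gΛ
    · rw [← eCL, hG]; exact_mod_cast hL
    · rw [← eCL, le_div_iff₀ (by positivity)]
      refine le_trans ?_ wR
      rw [pow_add, sq]
      gcongr
    · linarith only [abs_sub_abs_le_abs_sub t' t, ht, ht']
  · have := num2 (W := 1 + Real.log (a * N : ℕ)) G4 D1 T1 (by linarith only [lX0]) lX'
    have e : 7 / D ^ 2 = 2 / D ^ 2 + 5 / D ^ 2 := by ring
    linarith only [this, e]

end Pool.Agent.P.MP_746f10_nt.AP
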