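import Pool.Agent.P.MP_746f10_nt.AP.QBase
import Pool.Agent.P.MP_0ad054_nt.An.LS

/-! Total mass of the matrix coefficients and multiplicative correlations, general moduli. -/

namespace Pool.Agent.P.MP_746f10_nt.AP

open Finset ComplexConjugate
open Pool.Agent.P.MP_0ad054_nt.An

namespace QMassP

variable {a : ℕ} [NeZero a]

lemma apos : (0 : ℝ) < a := by exact_mod_cast NeZero.pos a

lemma nsq (z : ℂ) : ((‖z‖ ^ 2 : ℝ) : ℂ) = z * conj z := by
  rw [Complex.mul_conj, Complex.normSq_eq_norm_sq]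

/-- additive Parseval -/
lemma add_parseval (g : ZMod a → ℂ) :
    ∑ l : ZMod a, ‖∑ y, g y * ZMod.stdAddChar (-(l * y))‖ ^ 2 = a * ∑ y, ‖g y‖ ^ 2 := by
  apply Complex.ofReal_injective
  rw [Complex.ofReal_sum, Complex.ofReal_mul, Complex.ofReal_sum, mul_sum]
  simp only [nsq, map_sum, sum_mul_sum]
  rw [sum_comm]
  refine sum_congr rfl fun y _ => ?_
  rw [sum_comm]
  have : ∀ z, ∑ l : ZMod a, g y * ZMod.stdAddChar (-(l * y)) *
      conj (g z * ZMod.stdAddChar (-(l * z))) = if z = y then a * (g y * conj (g z)) else 0 := by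
    intro z
    have h1 := AddChar.sum_mulShift (z - y) (ZMod.isPrimitive_stdAddChar a)
    calc _ = (∑ l : ZMod a, (ZMod.stdAddChar (l * (z - y)) : ℂ)) * (g y * conj (g z)) := by
          rw [sum_mul]
          refine sum_congr rfl fun l _ => ?_
          rw [map_mul (starRingEnd ℂ), ← AddChar.map_neg_eq_conj, neg_neg,
            show l * (z - y) = -(l * y) + l * z by ring, AddChar.map_add_eq_mul]
          ring
      _ = _ := by
          rw [h1]
          simp only [sub_eq_zero]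
          split_ifs <;> simp
  rw [sum_congr rfl fun z _ => this z]
  simp

/-- normalized additive Parseval -/
lemma mean_parseval (g : ZMod a → ℂ) :
    ∑ l : ZMod a, ‖1 / (a : ℂ) * ∑ y, g y * ZMod.stdAddChar (-(l * y))‖ ^ 2 =
      1 / (a : ℝ) * ∑ y, ‖g y‖ ^ 2 := by
  have ha := apos (a := a)
  simp only [norm_mul, mul_pow, norm_div, norm_one, Complex.norm_natCast]
  rw [← mul_sum, add_parseval]
  field_simp

lemma sum_mul_right {M : Type} [AddCommMonoid M] (g : ZMod a → M) {y : ZMod a} (hy : IsUnit y) :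
    ∑ x, g (x * y) = ∑ x, g x :=
  Equiv.sum_comp (Units.mulRight hy.unit) g

/-- the double sum over `x * y` and `y` factors -/
lemma sum_sum {R : Type} [CommSemiring R] (g h : ZMod a → R) (h0 : ∀ y, ¬ IsUnit y → h y = 0) :
    ∑ x, ∑ y, g (x * y) * h y = (∑ z, g z) * ∑ y, h y := by
  rw [sum_comm, mul_sum]
  refine sum_congr rfl fun y _ => ?_
  rw [← sum_mul]
  by_cases hy : IsUnit y
  · rw [sum_mul_right g hy]
  · rw [h0 y hy, mul_zero, mul_zero]

lemma subst (F : ZMod a → ZMod a → ZMod a → ℂ) (k k' r : ZMod a) (h : IsUnit k') :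
    ∑ y, F (k * y) (k' * y) (r * y) = ∑ y, F (k * k'⁻¹ * y) y (r * k'⁻¹ * y) := by
  rw [← sum_mul_right (fun y => F (k * k'⁻¹ * y) y (r * k'⁻¹ * y)) h]
  refine sum_congr rfl fun y _ => ?_
  have e : ∀ t : ZMod a, t * k'⁻¹ * (y * k') = t * y := fun t => by
    linear_combination (t * y) * ZMod.mul_inv_of_unit k' h
  rw [e, e, mul_comm y]

omit [NeZero a] in
lemma inj_Icc {R : ℕ} (hR : 2 * R < a) :
    Set.InjOn (fun r : ℤ => (r : ZMod a)) (Icc (-(R : ℤ)) R : Finset ℤ) := by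
  intro r hr s hs h
  have h1 := mem_Icc.1 (mem_coe.1 hr)
  have h2 := mem_Icc.1 (mem_coe.1 hs)
  have h3 : (a : ℤ) ∣ s - r := (ZMod.intCast_eq_intCast_iff_dvd_sub r s a).1 h
  have h4 : s - r = 0 := Int.eq_zero_of_abs_lt_dvd h3 (abs_lt.2 ⟨by omega, by omega⟩)
  omega

end QMassP

open QMassP

theorem qMass : T_Mass := by
  intro a _ f S τ F hf
  have ha := apos (a := a)
  have hF : 0 ≤ F := (norm_nonneg _).trans (hf.sup 0)
  have h2 : 0 ≤ ∑ y, ‖f y‖ ^ 2 := sum_nonneg fun _ _ => sq_nonneg _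
  refine ⟨?_, fun k k' R hR => ?_, fun k k' r hk => ?_⟩
  · have e : ∀ x, ∑ lam, Gm f x lam = 1 / (a : ℝ) * ∑ y, ‖f (x * y)‖ ^ 2 * ‖f y‖ ^ 2 := fun x => by
      unfold Gm
      rw [mean_parseval fun y => f (x * y) * conj (f y)]
      simp only [norm_mul, mul_pow, Complex.norm_conj]
    simp only [e]
    rw [← mul_sum, sum_sum (fun z => ‖f z‖ ^ 2) (fun y => ‖f y‖ ^ 2)
      (fun y hy => by simp [hf.zero y hy]), one_div, inv_mul_le_iff₀ ha]
    exact mul_le_mul hf.l2 hf.l2 h2 ha.le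
  · set g : ZMod a → ℝ := fun l =>
      ‖1 / (a : ℂ) * ∑ y, ww f k k' y * ZMod.stdAddChar (-(l * y))‖ ^ 2 with hg
    calc ∑ r ∈ Icc (-(R : ℤ)) R, G3 f k k' r
        = ∑ l ∈ (Icc (-(R : ℤ)) R).image (fun r : ℤ => (r : ZMod a)), g l :=
          (sum_image (inj_Icc hR) (f := g)).symm
      _ ≤ ∑ l, g l := sum_le_sum_of_subset_of_nonneg (subset_univ _) fun _ _ _ => sq_nonneg _
      _ = 1 / (a : ℝ) * ∑ y, ‖ww f k k' y‖ ^ 2 := mean_parseval _
      _ ≤ F ^ 4 := by
          have h1 := sum_le_card_nsmul univ (fun y => ‖ww f k k' y‖ ^ 2) (F ^ 4) fun y _ => by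
            unfold ww
            rw [norm_mul, Complex.norm_conj]
            calc _ ≤ (F * F) ^ 2 := by gcongr <;> exact hf.sup _
              _ = _ := by ring
          rw [card_univ, ZMod.card, nsmul_eq_mul] at h1
          rw [one_div, inv_mul_le_iff₀ ha]
          exact h1
  · unfold G3 Gm wh ww
    rw [subst (fun u v w => f u * conj (f v) * ZMod.stdAddChar (-w)) k k' r
      ((ZMod.isUnit_iff_coprime _ _).2 hk)]

theorem qPlA : T_PlA := by
  classical
  intro a _ f1 f2 B h2 hB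
  have hφ : (0 : ℝ) < a.totient := by exact_mod_cast Nat.totient_pos.2 (NeZero.pos a)
  have e0 : ∀ (χ : DirichletCharacter ℂ a) (z : ZMod a), conj (χ z) = χ⁻¹ z := fun χ z => by
    have e2 := MulChar.star_apply' χ z
    rwa [RCLike.star_def] at e2
  have e1 : ∀ χ : DirichletCharacter ℂ a, ∑ x, χ⁻¹ x * ∑ y, f1 (x * y) * conj (f2 y) =
      (∑ z, f1 z * conj (χ z)) * conj (∑ y, χ⁻¹ y * f2 y) := by
    intro χ
    rw [map_sum, ← sum_sum (fun z => f1 z * conj (χ z)) (fun y => conj (χ⁻¹ y * f2 y))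
      (fun y hy => by simp [h2 y hy])]
    refine sum_congr rfl fun x _ => ?_
    rw [mul_sum]
    refine sum_congr rfl fun y _ => ?_
    by_cases hy : IsUnit y
    · have e3 : χ⁻¹ y * χ y = 1 := by
        rw [← MulChar.mul_apply, inv_mul_cancel, MulChar.one_apply hy]
      rw [e0, map_mul χ⁻¹, map_mul (starRingEnd ℂ), e0, inv_inv]
      linear_combination (-(χ⁻¹ x * f1 (x * y) * conj (f2 y))) * e3
    · simp [h2 y hy]
  have e4 := LSP.parseval fun x : ZMod a => ∑ y, f1 (x * y) * conj (f2 y)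
  have e5 := LSP.parseval f2
  refine le_of_mul_le_mul_left ?_ hφ
  calc _ = ∑ χ : DirichletCharacter ℂ a, ‖∑ x, χ⁻¹ x * ∑ y, f1 (x * y) * conj (f2 y)‖ ^ 2 := by
        rw [e4]
    _ ≤ ∑ χ : DirichletCharacter ℂ a, B ^ 2 * ‖∑ y, χ⁻¹ y * f2 y‖ ^ 2 :=
        sum_le_sum fun χ _ => by
          rw [e1, norm_mul, mul_pow, Complex.norm_conj]
          exact mul_le_mul_of_nonneg_right (pow_le_pow_left₀ (norm_nonneg _) (hB χ) 2)
            (sq_nonneg _)
    _ ≤ _ := by
        rw [← mul_sum, e5, mul_left_comm]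
        exact mul_le_mul_of_nonneg_left (mul_le_mul_of_nonneg_left
          (sum_le_sum_of_subset_of_nonneg (filter_subset _ _) fun _ _ _ => sq_nonneg _)
          (sq_nonneg _)) hφ.le

end Pool.Agent.P.MP_746f10_nt.AP
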