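import Pool.Agent.P.MP_746f10_nt.AP.QBase
import Pool.Agent.P.MP_746f10_nt.AP.Match

/-! The matching bound for a general modulus. -/

namespace Pool.Agent.P.MP_746f10_nt.AP

open Finset
open Pool.Agent.P.MP_a14ce1_nt.Ch (nit norm_nit)

namespace QMatchP

lemma sum_bad {M w Y : ℕ} (hM : 1 ≤ M) (hw : 1 ≤ w) :
    ∑ l ∈ Icc 1 Y, ∑ p ∈ M.primeFactors.filter (w < ·), (if p ∣ l then (l : ℝ)⁻¹ else 0) ≤
      lg M * (1 + Real.log Y) / w := by
  have hw0 : (0 : ℝ) < w := by exact_mod_cast hw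
  have hl : 0 ≤ 1 + Real.log Y := by
    have : 0 ≤ Real.log Y := Real.log_natCast_nonneg Y
    linarith
  rw [sum_comm]
  have h1 : ∀ p ∈ M.primeFactors.filter (w < ·),
      ∑ l ∈ Icc 1 Y, (if p ∣ l then (l : ℝ)⁻¹ else 0) ≤ (1 + Real.log Y) / w := by
    intro p hp
    have h2 : w < p := (mem_filter.1 hp).2
    refine (MatchP.sum_mult (by omega) Y).trans ?_
    have h3 : (w : ℝ) ≤ p := by exact_mod_cast h2.le
    exact div_le_div_of_nonneg_left hl hw0 h3
  refine (sum_le_card_nsmul _ _ _ h1).trans ?_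
  have h4 : ((M.primeFactors.filter (w < ·)).card : ℝ) ≤ lg M := by
    exact_mod_cast (card_filter_le _ _).trans (card_primeFactors_le_lg hM)
  rw [nsmul_eq_mul, mul_div_assoc]
  exact mul_le_mul_of_nonneg_right h4 (div_nonneg hl hw0.le)

end QMatchP

open MatchP in
theorem qMatch : T_Match := by
  intro β w L Λ L' M Y t hβ hM hw hs h hL hY
  have e : ∑ l ∈ Icc 1 Y, (ga β w L' l : ℂ) * (1 : DirichletCharacter ℂ M) l / (l : ℂ) * nit t l =
      ∑ l ∈ Icc 1 Y, (ga β w L' l : ℂ) * ph t l -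
        ∑ l ∈ Icc 1 Y, if Nat.Coprime l M then 0 else (ga β w L' l : ℂ) * ph t l := by
    rw [← sum_sub_distrib]
    refine sum_congr rfl fun l _ => ?_
    split_ifs with hd
    · rw [MulChar.one_apply ((ZMod.isUnit_iff_coprime l M).2 hd)]
      unfold ph; push_cast; ring
    · rw [MulChar.map_nonunit _ (fun h => hd ((ZMod.isUnit_iff_coprime l M).1 h))]
      simp
  rw [e]
  refine (norm_sub_le _ _).trans (add_le_add (main hβ hs h hL hY t) ?_)
  refine (norm_sum_le _ _).trans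
    (le_trans (sum_le_sum fun l _ => ?_) (QMatchP.sum_bad hM hw))
  have hnn : ∀ p ∈ M.primeFactors.filter (w < ·),
      (0 : ℝ) ≤ if p ∣ l then (l : ℝ)⁻¹ else 0 := fun p _ => by
    split_ifs
    · positivity
    · exact le_rfl
  split_ifs with hd
  · rw [norm_zero]; exact sum_nonneg hnn
  by_cases h0 : ga β w L' l = 0
  · rw [h0]; simp only [Complex.ofReal_zero, zero_mul, norm_zero]; exact sum_nonneg hnn
  have hr : rough w l := by
    refine rough_of_rr fun h1 => h0 ?_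
    have h2 := ga_bd (L' := L') hβ l
    rw [h1] at h2
    exact abs_eq_zero.1 (le_antisymm h2 (abs_nonneg _))
  obtain ⟨p, hp, hpl, hpM⟩ := Nat.Prime.not_coprime_iff_dvd.1 hd
  have hwp : w < p := hr p hp hpl
  have hmem : p ∈ M.primeFactors.filter (w < ·) :=
    mem_filter.2 ⟨Nat.mem_primeFactors.2 ⟨hp, hpM, by omega⟩, hwp⟩
  refine le_trans ?_ (single_le_sum hnn hmem)
  rw [if_pos hpl]
  have b3 : |ga β w L' l| ≤ 1 := (ga_bd hβ l).trans (rr_bd w l).2
  unfold ph
  rw [norm_mul, norm_mul, norm_nit, mul_one, Complex.norm_real, Real.norm_eq_abs, one_div,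
    norm_inv, Complex.norm_real, Real.norm_eq_abs, Nat.abs_cast]
  exact mul_le_of_le_one_left (by positivity) b3

end Pool.Agent.P.MP_746f10_nt.AP
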