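import Pool.Agent.P.MP_746f10_nt.AP.QBase

/-! The bound for the minor part with explicit parameters. -/

namespace Pool.Agent.P.MP_746f10_nt.AP

open Finset

namespace QMinXP

theorem cube {a y : ℝ} (a0 : 0 ≤ a) (y0 : 0 ≤ y) (h : a ≤ y ^ 3) : a ^ (1 / 3 : ℝ) ≤ y := by
  refine (Real.rpow_le_rpow a0 h (by norm_num)).trans_eq ?_
  have := Real.pow_rpow_inv_natCast (x := y) (n := 3) y0 (by norm_num)
  rwa [Nat.cast_ofNat, ← one_div] at this

theorem sq_bd {u c y : ℝ} (y0 : 0 ≤ y) (h : u ≤ c * y ^ 2) : √u ≤ √c * y := by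
  refine (Real.sqrt_le_sqrt h).trans_eq ?_
  rw [Real.sqrt_mul' _ (sq_nonneg y), Real.sqrt_sq y0]

theorem gam_num {x T a F : ℝ} (hx : 1 ≤ x) (hT : 1 ≤ T) (hF : 1 ≤ F) (h1 : x * T ^ 23 ≤ a)
    (h2 : F ^ 4 * T ^ 73 * a ≤ x ^ 2) :
    (T ^ 17) ^ 3 * ((F ^ 4 * T ^ 56 * T ^ 17 * a + x ^ 2) * (1 / T ^ 28) ^ 2 +
      x ^ 2 * F ^ 4 / (F ^ 4 * T ^ 56) + x * F ^ 4) + F ^ 4 * T ^ 56 * a + (x * T ^ 6) ^ 2 / T ^ 17 +
      x * T ^ 6 * a ^ (1 / 3 : ℝ) + (x * T ^ 6) ^ 3 / a ≤ 8 * (x ^ 2 / T ^ 5) := by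
  have T0 : 0 < T := by linarith
  have x0 : 0 < x := by linarith
  have F0 : 0 < F := by linarith
  have p23 : 1 ≤ T ^ 23 := one_le_pow₀ hT
  have xa' : x ≤ a := (le_mul_of_one_le_right x0.le p23).trans h1
  have a0 : 0 < a := by linarith
  have e1 : F ^ 4 * T ^ 56 * a ≤ x ^ 2 / T ^ 5 := by
    rw [le_div_iff₀ (by positivity)]
    calc _ = F ^ 4 * T ^ 61 * a := by ring
      _ ≤ F ^ 4 * T ^ 73 * a := by
        gcongr
        norm_num
      _ ≤ _ := h2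
  have e2 : (T ^ 17) ^ 3 * ((F ^ 4 * T ^ 56 * T ^ 17 * a + x ^ 2) * (1 / T ^ 28) ^ 2) ≤
      2 * (x ^ 2 / T ^ 5) := by
    calc _ ≤ (T ^ 17) ^ 3 * ((x ^ 2 + x ^ 2) * (1 / T ^ 28) ^ 2) := by
          gcongr
          exact le_trans (le_of_eq (by ring)) h2
      _ = _ := by field_simp; ring
  have e3 : (T ^ 17) ^ 3 * (x ^ 2 * F ^ 4 / (F ^ 4 * T ^ 56)) = x ^ 2 / T ^ 5 := by field_simp
  have e4 : (T ^ 17) ^ 3 * (x * F ^ 4) ≤ x ^ 2 / T ^ 5 := by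
    rw [le_div_iff₀ (by positivity)]
    calc _ = F ^ 4 * T ^ 56 * x := by ring
      _ ≤ F ^ 4 * T ^ 73 * a := by
        gcongr
        norm_num
      _ ≤ _ := h2
  have e5 : (x * T ^ 6) ^ 2 / T ^ 17 = x ^ 2 / T ^ 5 := by field_simp
  have e6 : x * T ^ 6 * a ^ (1 / 3 : ℝ) ≤ x ^ 2 / T ^ 5 := by
    have b1 : a ≤ (x / T ^ 11) ^ 3 := by
      rw [div_pow, le_div_iff₀ (by positivity)]
      calc a * (T ^ 11) ^ 3 = 1 * T ^ 33 * a := by ring
        _ ≤ F ^ 4 * T ^ 73 * a := by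
          gcongr
          · exact one_le_pow₀ hF
          · norm_num
        _ ≤ x ^ 2 := h2
        _ ≤ x ^ 3 := pow_le_pow_right₀ hx (by norm_num)
    have b2 := cube a0.le (by positivity) b1
    calc _ ≤ x * T ^ 6 * (x / T ^ 11) := by gcongr
      _ = _ := by field_simp
  have e7 : (x * T ^ 6) ^ 3 / a ≤ x ^ 2 / T ^ 5 := by
    rw [div_le_div_iff₀ a0 (by positivity)]
    calc _ = x ^ 2 * (x * T ^ 23) := by ring
      _ ≤ _ := by gcongr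
  rw [mul_add, mul_add, e3, e5]
  linarith

theorem gamh_num {x T a F Y C : ℝ} (hx : 1 ≤ x) (hT : 1 ≤ T) (hF : 1 ≤ F) (hY : 1 ≤ Y)
    (hC : 0 ≤ C) (h1 : Y * x * T ^ 23 ≤ a) (h2 : Y * F ^ 4 * T ^ 73 * a ≤ x ^ 2)
    (h3 : Y ^ 2 ≤ x) :
    F ^ 4 * T ^ 56 * a + C * ((x * T ^ 6) ^ 2 / (Y * T ^ 16) + x * T ^ 6 * a ^ (1 / 3 : ℝ) +
      (x * T ^ 6) ^ 3 / a) ≤ (1 + 3 * C) * (x ^ 2 / (Y * T ^ 4)) := by
  have T0 : 0 < T := by linarith
  have x0 : 0 < x := by linarith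
  have F0 : 0 < F := by linarith
  have Y0 : 0 < Y := by linarith
  have a0 : 0 < a := lt_of_lt_of_le (by positivity) h1
  have e1 : F ^ 4 * T ^ 56 * a ≤ x ^ 2 / (Y * T ^ 4) := by
    rw [le_div_iff₀ (by positivity)]
    calc _ = Y * F ^ 4 * T ^ 60 * a := by ring
      _ ≤ Y * F ^ 4 * T ^ 73 * a := by
        gcongr
        norm_num
      _ ≤ _ := h2
  have e5 : (x * T ^ 6) ^ 2 / (Y * T ^ 16) = x ^ 2 / (Y * T ^ 4) := by field_simp
  have e6 : x * T ^ 6 * a ^ (1 / 3 : ℝ) ≤ x ^ 2 / (Y * T ^ 4) := by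
    have b1 : a ≤ (x / (Y * T ^ 10)) ^ 3 := by
      rw [div_pow, le_div_iff₀ (by positivity)]
      calc a * (Y * T ^ 10) ^ 3 = Y * 1 * T ^ 30 * a * Y ^ 2 := by ring
        _ ≤ Y * F ^ 4 * T ^ 73 * a * Y ^ 2 := by
          gcongr
          · exact one_le_pow₀ hF
          · norm_num
        _ ≤ x ^ 2 * x := by gcongr
        _ = x ^ 3 := by ring
    have b2 := cube a0.le (by positivity) b1
    calc _ ≤ x * T ^ 6 * (x / (Y * T ^ 10)) := by gcongr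
      _ = _ := by field_simp
  have e7 : (x * T ^ 6) ^ 3 / a ≤ x ^ 2 / (Y * T ^ 4) := by
    rw [div_le_div_iff₀ a0 (by positivity)]
    calc _ = x ^ 2 * (Y * x * T ^ 22) := by ring
      _ ≤ x ^ 2 * (Y * x * T ^ 23) := by
        gcongr
        norm_num
      _ ≤ _ := by gcongr
  rw [e5]
  have := mul_le_mul_of_nonneg_left (add_le_add e6 e7) hC
  linarith

theorem win_num {x T a F Y L l C C1 C2 : ℝ} (hx : 1 ≤ x) (hT : 1 ≤ T) (hF : 1 ≤ F) (hY : 1 ≤ Y)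
    (hL : 1 ≤ L) (hC : 0 ≤ C) (hC1 : 0 ≤ C1) (hC2 : 0 ≤ C2) (a0 : 0 ≤ a) (ha : a ≤ L * Y)
    (h3 : F ^ 2 * T ^ 66 * Y ^ 5 ≤ x) (hl : l ≤ T) :
    F ^ 2 * L * (x ^ 2 / (F ^ 4 * T ^ 56) + C * x * (Y * T ^ 16) ^ 4 * Y) +
      x * √(L * (2 * (3 * L + (a / Y + 1) * l)) * (C1 * (8 * (x ^ 2 / T ^ 5)))) +
      x * √(L * (L + a) * (C2 * (x ^ 2 / (Y * T ^ 4)))) ≤
      (1 + C + √(80 * C1) + √(2 * C2)) * (L * (x ^ 2 / T ^ 2)) := by
  have T0 : 0 < T := by linarith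
  have x0 : 0 < x := by linarith
  have F0 : 0 < F := by linarith
  have Y0 : 0 < Y := by linarith
  have L0 : 0 < L := by linarith
  have e1 : F ^ 2 * (x ^ 2 / (F ^ 4 * T ^ 56)) ≤ x ^ 2 / T ^ 2 := by
    calc _ = x ^ 2 / (F ^ 2 * T ^ 56) := by field_simp
      _ ≤ x ^ 2 / (1 * T ^ 2) := by
        gcongr
        · exact one_le_pow₀ hF
        · norm_num
      _ = _ := by rw [one_mul]
  have e2 : F ^ 2 * (x * (Y * T ^ 16) ^ 4 * Y) ≤ x ^ 2 / T ^ 2 := by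
    rw [le_div_iff₀ (by positivity)]
    calc _ = x * (F ^ 2 * T ^ 66 * Y ^ 5) := by ring
      _ ≤ x * x := by gcongr
      _ = _ := by ring
  have e3 : 2 * (3 * L + (a / Y + 1) * l) ≤ 10 * L * T := by
    have b1 : a / Y ≤ L := by rwa [div_le_iff₀ Y0]
    have b2 : (a / Y + 1) * l ≤ (a / Y + 1) * T := by gcongr
    have b3 : (a / Y + 1) * T ≤ (L + L) * T := by gcongr
    have b4 : L * 1 ≤ L * T := by gcongr
    linarith
  have e4 : √(L * (2 * (3 * L + (a / Y + 1) * l)) * (C1 * (8 * (x ^ 2 / T ^ 5)))) ≤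
      √(80 * C1) * (L * x / T ^ 2) := by
    refine sq_bd (by positivity) ?_
    calc _ ≤ L * (10 * L * T) * (C1 * (8 * (x ^ 2 / T ^ 5))) := by gcongr
      _ = _ := by field_simp; ring
  have e5 : √(L * (L + a) * (C2 * (x ^ 2 / (Y * T ^ 4)))) ≤ √(2 * C2) * (L * x / T ^ 2) := by
    refine sq_bd (by positivity) ?_
    have b1 : L * 1 ≤ L * Y := by gcongr
    calc _ ≤ L * (2 * (L * Y)) * (C2 * (x ^ 2 / (Y * T ^ 4))) := by
          gcongr
          linarith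
      _ = _ := by field_simp
  have f1 := mul_le_mul_of_nonneg_left e1 L0.le
  have f2 := mul_le_mul_of_nonneg_left e2 (mul_nonneg hC L0.le)
  have f4 := mul_le_mul_of_nonneg_left e4 x0.le
  have f5 := mul_le_mul_of_nonneg_left e5 x0.le
  have g : x * (L * x / T ^ 2) = L * (x ^ 2 / T ^ 2) := by ring
  rw [mul_left_comm x (√(80 * C1)), g] at f4
  rw [mul_left_comm x (√(2 * C2)), g] at f5
  linarith

theorem hp_num {x T L C s t : ℝ} (hx : 1 ≤ x) (hT : 1 ≤ T) (hL : 1 ≤ L) (hC : 0 ≤ C)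
    (hs : s ≤ 1 * (1 / T ^ 2) ^ 2) (ht : t ≤ 8 / T ^ 2) :
    4 * (L * x ^ 2 * √s + 2 * x * √(L * (2 * C * L * x ^ 2 / T ^ 4)) + 2 * C * L * x ^ 2 / T ^ 4) +
      2 * t * (L * x ^ 2 + 2 * x * √(L * (2 * C * L * x ^ 2 / T ^ 4)) +
        2 * C * L * x ^ 2 / T ^ 4) ≤
      20 * (1 + 2 * √(2 * C) + 2 * C) * (L * (x ^ 2 / T ^ 2)) := by
  have T0 : 0 < T := by linarith
  have x0 : 0 < x := by linarith
  have L0 : 0 < L := by linarith
  have p2 : 1 ≤ T ^ 2 := one_le_pow₀ hT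
  have e1 : √s ≤ 1 / T ^ 2 := by
    have := sq_bd (by positivity) hs
    rwa [Real.sqrt_one, one_mul] at this
  have e2 : √(L * (2 * C * L * x ^ 2 / T ^ 4)) ≤ √(2 * C) * (L * x / T ^ 2) :=
    sq_bd (by positivity) (le_of_eq (by field_simp))
  set M := L * (x ^ 2 / T ^ 2) with hM
  have M0 : 0 ≤ M := by positivity
  have M1 : M ≤ L * x ^ 2 := by
    rw [hM]
    gcongr
    exact div_le_self (by positivity) p2
  have f1 : L * x ^ 2 * √s ≤ M := by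
    calc _ ≤ L * x ^ 2 * (1 / T ^ 2) := by gcongr
      _ = _ := by rw [hM]; ring
  have f2 : 2 * x * √(L * (2 * C * L * x ^ 2 / T ^ 4)) ≤ 2 * √(2 * C) * M := by
    calc _ ≤ 2 * x * (√(2 * C) * (L * x / T ^ 2)) := by gcongr
      _ = _ := by rw [hM]; ring
  have f3 : 2 * C * L * x ^ 2 / T ^ 4 ≤ 2 * C * M := by
    calc _ ≤ 2 * C * L * x ^ 2 / T ^ 2 := by
          gcongr
          norm_num
      _ = _ := by rw [hM]; ring
  have f4 : L * x ^ 2 + 2 * x * √(L * (2 * C * L * x ^ 2 / T ^ 4)) + 2 * C * L * x ^ 2 / T ^ 4 ≤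
      (1 + 2 * √(2 * C) + 2 * C) * (L * x ^ 2) := by
    have b1 := mul_le_mul_of_nonneg_left M1 (by positivity : 0 ≤ 2 * √(2 * C))
    have b2 := mul_le_mul_of_nonneg_left M1 (by positivity : 0 ≤ 2 * C)
    linarith
  have f5 : t * (L * x ^ 2 + 2 * x * √(L * (2 * C * L * x ^ 2 / T ^ 4)) +
      2 * C * L * x ^ 2 / T ^ 4) ≤ 8 * ((1 + 2 * √(2 * C) + 2 * C) * M) := by
    calc _ ≤ 8 / T ^ 2 * ((1 + 2 * √(2 * C) + 2 * C) * (L * x ^ 2)) :=
          mul_le_mul ht f4 (by positivity) (by positivity)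
      _ = _ := by rw [hM]; ring
  linarith

end QMinXP

open QMinXP in
theorem qMinX (h1 : T_CSW) (h2 : T_Fej) (h3 : T_HP) (h4 : T_Win) (h5 : T_Gam) (h6 : T_GamH) :
    T_MinX := by
  obtain ⟨Cp, hCp, h3⟩ := h3
  obtain ⟨Cw, hCw, h4⟩ := h4
  obtain ⟨Cg, hCg, h5⟩ := h5
  obtain ⟨Ch, hCh, h6⟩ := h6
  refine ⟨(1 + Cw + √(80 * Cg) + √(2 * (1 + 3 * Ch))) + 20 * (1 + 2 * √(2 * Cp) + 2 * Cp),
    by positivity, ?_⟩
  intro a _ N K x T F Y α β u f hK hN hKx hT hF hY H0 H1 H2 H3 H4 hα hβ hu hs hf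
  have t1 : 1 ≤ T := by omega
  have hx : 1 ≤ x := by omega
  have q0 : 0 < x * T ^ 23 := by positivity
  have q00 : x * T ^ 23 ≤ Y * (x * T ^ 23) := Nat.le_mul_of_pos_left _ hY
  have H1n : 4 * (Y * (x * T ^ 23)) ≤ a := le_trans (le_of_eq (by ring)) H1
  have q1 : x * T ^ 4 ≤ x * T ^ 23 := by gcongr; omega
  have q1' : x * T ^ 6 ≤ x * T ^ 23 := by gcongr; omega
  have q2 : x ≤ x * T ^ 4 := Nat.le_mul_of_pos_right _ (by positivity)
  obtain ⟨J, hJ⟩ : ∃ J, J = a / (x * T ^ 4) := ⟨_, rfl⟩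
  have j1 : 1 ≤ J := hJ ▸ (Nat.le_div_iff_mul_le (by positivity)).2 (by omega)
  have j2 : x * T ^ 4 * J ≤ a := hJ ▸ Nat.mul_div_le a _
  have j3 : a < x * T ^ 4 * (J + 1) := hJ ▸ Nat.lt_mul_div_succ a (by positivity)
  have j4 : a ≤ x * T ^ 4 * (2 * J) := j3.le.trans (by gcongr; omega)
  have j5 : x * J ≤ a := (Nat.mul_le_mul_right J q2).trans j2
  have g1 : 1 ≤ F ^ 4 * T ^ 56 := Nat.one_le_iff_ne_zero.2 (by positivity)
  have r1 : x ≤ x * T ^ 6 := Nat.le_mul_of_pos_right _ (by positivity)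
  obtain ⟨L, hL⟩ : ∃ L, L = 2 * a * N / K + 1 := ⟨_, rfl⟩
  have l1 : 2 * a * N < K * L := hL ▸ Nat.lt_mul_div_succ _ hK
  have l2 : a ≤ L * Y := by
    have b1 : K * L ≤ 2 * N * Y * L := Nat.mul_le_mul_right L H0
    have b2 : 2 * N * a ≤ 2 * N * (L * Y) := by
      calc 2 * N * a = 2 * a * N := by ring
        _ ≤ 2 * N * Y * L := l1.le.trans b1
        _ = _ := by ring
    exact Nat.le_of_mul_le_mul_left b2 (by omega)
  have l3 : L * K ≤ 3 * a * N := by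
    have b1 : 2 * a * N / K * K ≤ 2 * a * N := Nat.div_mul_le_self _ _
    have b2 : a ≤ a * N := Nat.le_mul_of_pos_right _ hN
    have b3 : L * K = 2 * a * N / K * K + K := by rw [hL]; ring
    have b4 : 3 * a * N = 2 * a * N + a * N := by ring
    omega
  have x1 : (1 : ℝ) ≤ x := by exact_mod_cast hx
  have T1 : (1 : ℝ) ≤ T := by exact_mod_cast t1
  have F1 : (1 : ℝ) ≤ F := by exact_mod_cast hF
  have Y1 : (1 : ℝ) ≤ Y := by exact_mod_cast hY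
  have L1 : (1 : ℝ) ≤ L := by exact_mod_cast (hL ▸ Nat.le_add_left 1 _ : 1 ≤ L)
  have K0 : (0 : ℝ) < K := by exact_mod_cast hK
  have an : 0 < a := by omega
  have a1 : (1 : ℝ) ≤ a := by exact_mod_cast an
  have J0 : (0 : ℝ) < J := by exact_mod_cast j1
  have d1 : 1 ≤ a.divisors.card := card_pos.2 ⟨1, Nat.one_mem_divisors.2 an.ne'⟩
  have H2a : Y * F ^ 4 * T ^ 73 * a ≤ x ^ 2 := by
    refine le_trans ?_ H2
    calc _ = Y * F ^ 4 * T ^ 73 * 1 * a := by ring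
      _ ≤ _ := by gcongr
  have H2b : F ^ 4 * T ^ 73 * a ≤ x ^ 2 := by
    refine le_trans ?_ H2a
    calc _ = 1 * F ^ 4 * T ^ 73 * a := by ring
      _ ≤ _ := by gcongr
  have H2c : Y * T ^ 6 * a.divisors.card * a ≤ x ^ 2 := by
    refine le_trans ?_ H2
    calc _ = Y * 1 * T ^ 6 * a.divisors.card * a := by ring
      _ ≤ _ := by
        gcongr
        · exact Nat.one_le_pow _ _ hF
        · omega
  have H3a : Y ^ 2 ≤ x := by
    refine le_trans ?_ H3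
    calc _ = 1 * 1 * Y ^ 2 := by ring
      _ ≤ _ := by
        gcongr
        · exact Nat.one_le_pow _ _ hF
        · exact Nat.one_le_pow _ _ t1
        · omega
  have d2 : 2 ≤ Y * T ^ 16 :=
    (hT.trans (Nat.le_self_pow (by norm_num) T)).trans (Nat.le_mul_of_pos_left _ hY)
  obtain ⟨ω, fe, hker, htail⟩ := h2 a (x * T ^ 6) J (by omega) (by omega) j1
  have bG := h5 a f _ _ (T ^ 17) x (x * T ^ 6) (F ^ 4 * T ^ 56) hf
    (hT.trans (Nat.le_self_pow (by norm_num) T)) g1 hx r1 (by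
      have : 3 * T ^ 17 * (x * T ^ 6) = 3 * (x * T ^ 23) := by ring
      omega)
  have bH := h6 a f _ _ _ (Y * T ^ 16) x (x * T ^ 6) (F ^ 4 * T ^ 56) hf d2 r1 (by
      have b1 : 3 * (Y * T ^ 16) * (x * T ^ 6) = 3 * (Y * (x * T ^ 22)) := by ring
      have b2 : Y * (x * T ^ 22) ≤ Y * (x * T ^ 23) := by gcongr; omega
      omega)
  simp only [Nat.cast_mul, Nat.cast_pow] at bG bH
  replace bG := bG.trans (mul_le_mul_of_nonneg_left (gam_num x1 T1 F1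
    (by exact_mod_cast (by omega : x * T ^ 23 ≤ a)) (by exact_mod_cast H2b)) hCg.le)
  replace bH := bH.trans (gamh_num x1 T1 F1 Y1 hCh.le
    (by exact_mod_cast (by rw [mul_assoc]; omega : Y * x * T ^ 23 ≤ a)) (by exact_mod_cast H2a)
    (by exact_mod_cast H3a))
  have bW := h4 a f _ _ _ _ _ ω fe x (x * T ^ 6) L Y (Y * T ^ 16) (F ^ 4 * T ^ 56) hf hker
    (by omega) hY (by omega) g1 bG bH
  simp only [Nat.cast_mul, Nat.cast_pow] at bW
  have l2' : (a : ℝ) ≤ L * Y := by exact_mod_cast l2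
  replace bW := bW.trans (win_num x1 T1 F1 Y1 L1 hCw.le hCg.le (by positivity) (by linarith) l2'
    (by exact_mod_cast H3) H4)
  have hZ : Cp * (L + a) * a * a.divisors.card * (1 + Real.log a) ^ 2 ≤
      2 * Cp * L * (x : ℝ) ^ 2 / (T : ℝ) ^ 4 := by
    have b0 := Real.log_nonneg a1
    have b4 : Real.log a ≤ Real.log (2 * a) := Real.log_le_log (by linarith) (by linarith)
    have b1 : 1 + Real.log a ≤ T := by linarith
    have b2 : (L : ℝ) * 1 ≤ L * Y := by gcongr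
    have b3 : (Y : ℝ) * (T : ℝ) ^ 6 * a.divisors.card * a ≤ (x : ℝ) ^ 2 := by exact_mod_cast H2c
    rw [le_div_iff₀ (by positivity)]
    calc _ ≤ Cp * (2 * (L * Y)) * a * a.divisors.card * (T : ℝ) ^ 2 * (T : ℝ) ^ 4 := by
          gcongr
          linarith
      _ = 2 * Cp * L * ((Y : ℝ) * (T : ℝ) ^ 6 * a.divisors.card * a) := by ring
      _ ≤ _ := by gcongr
  have bP := fun s => h3 a f x L (x * J) s _ hf.zero hf.l2 j5 hZ
  have f0 : f 0 = 0 := hf.zero 0 (by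
    have : Fact (1 < a) := ⟨by omega⟩
    exact not_isUnit_zero)
  have bC := h1 a N K x J L α β u f ω _ _ _ hK hN j5 hL hα hβ hu hs f0 hker.nn hker.one htail
    (fun s => (bP s).1) (fun s => (bP s).2)
  have bN := hp_num (s := ((x * J : ℕ) : ℝ) / a) (t := 4 * a / (((x * T ^ 6 : ℕ) : ℝ) * J))
    x1 T1 L1 hCp.le (by
      have : (x : ℝ) * (T : ℝ) ^ 4 * J ≤ a := by exact_mod_cast j2
      rw [one_mul, div_pow, one_pow, div_le_div_iff₀ (by linarith) (by positivity)]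
      push_cast
      linarith) (by
      have : (a : ℝ) ≤ x * (T : ℝ) ^ 4 * (2 * J) := by exact_mod_cast j4
      push_cast
      rw [div_le_div_iff₀ (by positivity) (by positivity)]
      calc _ ≤ 4 * ((x : ℝ) * (T : ℝ) ^ 4 * (2 * J)) * (T : ℝ) ^ 2 := by gcongr
        _ = _ := by ring)
  have l3' : (L : ℝ) ≤ 3 * a * N / K := by
    rw [le_div_iff₀ K0]
    exact_mod_cast l3
  refine bC.trans ?_
  set D1 := 1 + Cw + √(80 * Cg) + √(2 * (1 + 3 * Ch)) with hD1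
  set D2 := 20 * (1 + 2 * √(2 * Cp) + 2 * Cp) with hD2
  have D0 : 0 ≤ D1 + D2 := by positivity
  calc _ ≤ (L : ℝ) * ((D1 + D2) * (L * ((x : ℝ) ^ 2 / (T : ℝ) ^ 2))) :=
        mul_le_mul_of_nonneg_left (by linarith) (by linarith)
    _ = (L : ℝ) ^ 2 * ((D1 + D2) * ((x : ℝ) ^ 2 / (T : ℝ) ^ 2)) := by ring
    _ ≤ _ := by gcongr

end Pool.Agent.P.MP_746f10_nt.AP
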