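import Pool.Agent.P.MP_746f10_nt.AP.QBase

/-! Choice of the parameters in the minor part for general moduli. -/

namespace Pool.Agent.P.MP_746f10_nt.AP

open Finset Filter

namespace QMinorP

lemma both {Q a N K W : ℕ} (h : Rg Q a N) (hK : Q ^ 13 ≤ (4 * K) ^ 20)
    (hW : (32 * W) ^ 20 ≤ Q ^ 2) : W * a ≤ K ^ 2 ∧ W * a ≤ N ^ 2 := by
  constructor
  · refine (Nat.pow_le_pow_iff_left (n := 20) (by norm_num)).1
      (le_of_mul_le_mul_left ?_ (show 0 < 4 ^ 40 by norm_num))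
    calc 4 ^ 40 * (W * a) ^ 20 = 4 ^ 40 * W ^ 20 * (a ^ 5) ^ 4 := by ring
      _ ≤ 4 ^ 40 * W ^ 20 * (8 * Q ^ 6) ^ 4 := by gcongr; exact h.pow5
      _ = 2 ^ 92 * W ^ 20 * Q ^ 24 := by ring
      _ ≤ 2 ^ 100 * W ^ 20 * Q ^ 24 := by gcongr <;> norm_num
      _ = (32 * W) ^ 20 * Q ^ 24 := by ring
      _ ≤ Q ^ 2 * Q ^ 24 := by gcongr
      _ = (Q ^ 13) ^ 2 := by ring
      _ ≤ ((4 * K) ^ 20) ^ 2 := by gcongr
      _ = _ := by ring
  · have h1 : (32 * W) ^ 10 ≤ Q :=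
      (Nat.pow_le_pow_iff_left (n := 2) (by norm_num)).1 (by rwa [← pow_mul])
    have h2 : W ^ 4 ≤ Q := by
      rcases Nat.eq_zero_or_pos W with rfl | h0
      · simp
      · exact ((Nat.pow_le_pow_right h0 (by norm_num : 4 ≤ 10)).trans
          (Nat.pow_le_pow_left (by omega) 10)).trans h1
    refine (Nat.pow_le_pow_iff_left (n := 4) (by norm_num)).1 ?_
    calc (W * a) ^ 4 = W ^ 4 * (a ^ 2) ^ 2 := by ring
      _ ≤ N ^ 2 * (N ^ 3) ^ 2 :=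
        Nat.mul_le_mul (h2.trans h.Q_le_sq) (Nat.pow_le_pow_left h.2.2.2.1 2)
      _ = _ := by ring

lemma c2 {Q a N K x o Z : ℕ} (h : Rg Q a N) (hN : 1 ≤ N) (hx : K ≤ x) (ho : x * o ≤ Q)
    (hZ : 8 * Z ≤ o) : 4 * (K / N + 1) * x * Z ≤ a := by
  have h1 : x * (8 * Z) ≤ a := ((Nat.mul_le_mul_left x hZ).trans ho).trans h.Q_le
  have h2 : K / N * x * (o * o) ≤ a := by
    refine le_of_mul_le_mul_right ?_ hN
    calc K / N * x * (o * o) * N = (K / N * N) * x * (o * o) := by ring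
      _ ≤ x * x * (o * o) := by gcongr; exact (Nat.div_mul_le_self K N).trans hx
      _ = (x * o) ^ 2 := by ring
      _ ≤ Q ^ 2 := by gcongr
      _ ≤ a * N := h.1
  have h3 : K / N * x * (8 * Z) ≤ a :=
    (Nat.mul_le_mul_left _ (hZ.trans (Nat.le_mul_self o))).trans h2
  nlinarith

lemma c3 {N K P : ℕ} (h1 : 2 * P ≤ K ^ 2) (h2 : 2 * P ≤ N ^ 2) : (K / N + 1) * P ≤ K ^ 2 := by
  have h3 : 2 * P ≤ K * N := by
    refine (Nat.pow_le_pow_iff_left (n := 2) (by norm_num)).1 ?_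
    calc (2 * P) ^ 2 = 2 * P * (2 * P) := by ring
      _ ≤ K ^ 2 * N ^ 2 := by gcongr
      _ = _ := by ring
  have h4 : K / N * (2 * P) ≤ K ^ 2 :=
    calc K / N * (2 * P) ≤ K / N * (K * N) := by gcongr
      _ = (K / N * N) * K := by ring
      _ ≤ K * K := by gcongr; exact Nat.div_mul_le_self K N
      _ = _ := by ring
  nlinarith

lemma c4 {Q a N K o Z : ℕ} (h : Rg Q a N) (hK : 1 ≤ K) (ho : K * o ≤ Q)
    (hZ : 32 * Z ≤ o) (hZK : Z ≤ K) : Z * (K / N + 1) ^ 5 ≤ K := by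
  rcases lt_or_ge K N with h1 | h1
  · rw [Nat.div_eq_of_lt h1]
    simpa using hZK
  · have h2 : (K / N + 1) * N ≤ 2 * K := by
      have := Nat.div_mul_le_self K N
      nlinarith
    generalize K / N + 1 = Y at h2 ⊢
    have h3 : o ≤ o ^ 4 := Nat.le_self_pow (by norm_num) o
    refine le_of_mul_le_mul_left ?_ (show 0 < 32 * K ^ 4 by positivity)
    calc 32 * K ^ 4 * (Z * Y ^ 5) = Y ^ 5 * (K ^ 4 * (32 * Z)) := by ring
      _ ≤ Y ^ 5 * (K ^ 4 * o ^ 4) := by gcongr; exact hZ.trans h3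
      _ = Y ^ 5 * (K * o) ^ 4 := by ring
      _ ≤ Y ^ 5 * N ^ 5 := Nat.mul_le_mul_left _ ((Nat.pow_le_pow_left ho 4).trans h.pow4)
      _ = (Y * N) ^ 5 := by ring
      _ ≤ (2 * K) ^ 5 := by gcongr
      _ = _ := by ring

lemma c5 {Q a : ℕ} (ha : 1 ≤ a) (h : a ≤ Q ^ 2) (hg : 3 ≤ lg Q) :
    1 + Real.log (2 * a) ≤ (lg Q : ℝ) ^ 2 := by
  have h1 := log_le_lg hg
  have h2 : (a : ℝ) ≤ (Q : ℝ) ^ 2 := by exact_mod_cast h
  have h0 : (0 : ℝ) < a := by exact_mod_cast ha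
  have h3 := Real.log_le_log h0 h2
  have h4 := Real.log_two_lt_d9
  have h5 : (3 : ℝ) ≤ lg Q := by exact_mod_cast hg
  rw [Real.log_pow] at h3
  rw [Real.log_mul two_ne_zero h0.ne']
  push_cast at h3
  nlinarith

end QMinorP

open QMinorP in
theorem qMinor (h : T_MinX) : T_Minor := by
  obtain ⟨D, hD, hc⟩ := h
  obtain ⟨C, -, hC⟩ := exists_tau_le 20 2
  intro A U
  refine ⟨(A + 2) * 17, (A + 2) * 28, fun CF => ?_⟩
  obtain ⟨Q0, hQ0⟩ := ev_lg ((ev_pow_le_sqrt 32 (CF * 2 + (A + 2) * 66)).and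
    ((ev_pow_le_two_pow (64 ^ 20 * ⌈C⌉₊) ((CF * 4 + (A + 2) * 132) * 20)).and
    ((eventually_ge_atTop 3).and (eventually_ge_atTop ⌈(3 * 2 ^ U) ^ 2 * D⌉₊))))
  refine ⟨max Q0 1, ?_⟩
  intro Q a _ N K α β u f hQ hR hK hK' hα hβ hu hs hf
  obtain ⟨v1, v2, v3, v4⟩ := hQ0 Q ((le_max_left _ _).trans hQ)
  have Q1 : 1 ≤ Q := (le_max_right _ _).trans hQ
  have v5 := v2.trans (two_pow_lg_le Q1)
  change _ ≤ om Q at v1
  have a1 : 1 ≤ a := NeZero.one_le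
  have N1 := hR.N_pos Q1
  have v6 := c5 a1 hR.a_le_sq v3
  have t1 : a.divisors.card ^ 20 ≤ ⌈C⌉₊ * Q := by
    have h1 := hC a Q (by omega) (by exact_mod_cast Q1) (by exact_mod_cast hR.a_le_sq)
    have h2 : C * Q ≤ (⌈C⌉₊ : ℝ) * Q := by gcongr; exact Nat.le_ceil C
    exact_mod_cast h1.trans h2
  have t0 : 1 ≤ a.divisors.card := card_pos.2 ⟨1, Nat.one_mem_divisors.2 (by omega)⟩
  obtain ⟨g, hg⟩ : ∃ g, g = lg Q := ⟨_, rfl⟩
  rw [← hg] at v1 v3 v4 v5 v6 hf ⊢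
  have K1 : 1 ≤ K := by
    rcases Nat.eq_zero_or_pos K with rfl | h
    · have : 0 < Q ^ 13 := by positivity
      omega
    · exact h
  have K2 : K ≤ 2 ^ U * K := Nat.le_mul_of_pos_left _ (by positivity)
  have g0 : 0 < g := by omega
  have hT : g ^ 2 ≤ g ^ (A + 2) := Nat.pow_le_pow_right g0 (by omega)
  have hT2 : 2 ≤ g ^ (A + 2) := by nlinarith
  have hF : 1 ≤ g ^ CF := Nat.one_le_iff_ne_zero.2 (by positivity)
  have hf' : Mq f (Fam a ((g ^ (A + 2)) ^ 17)) (1 / ((g ^ (A + 2) : ℕ) : ℝ) ^ 28)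
      ((g ^ CF : ℕ) : ℝ) := by
    rw [Nat.cast_pow, Nat.cast_pow, ← pow_mul, ← pow_mul]
    exact hf
  have v6' : 1 + Real.log (2 * a) ≤ ((g ^ (A + 2) : ℕ) : ℝ) := v6.trans (by exact_mod_cast hT)
  rw [pow_add, pow_mul, pow_mul] at v1
  rw [pow_mul, pow_add, pow_mul, pow_mul] at v5
  have main : ‖Bf a N (cv α β) u (fun b => f b)‖ ^ 2 ≤ (3 * a * N / K : ℝ) ^ 2 *
      (D * (((2 ^ U * K : ℕ) : ℝ) ^ 2 / ((g ^ (A + 2) : ℕ) : ℝ) ^ 2)) := by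
    generalize g ^ (A + 2) = T at v1 v5 hT2 hf' v6'
    generalize g ^ CF = F at v1 v5 hF hf'
    have T1 : 1 ≤ T := by omega
    have hb := both (W := 2 * (F ^ 4 * T ^ 132 * a.divisors.card)) hR hK (by
      calc _ = (64 * (F ^ 4 * T ^ 132)) ^ 20 * a.divisors.card ^ 20 := by ring
        _ ≤ (64 * (F ^ 4 * T ^ 132)) ^ 20 * (⌈C⌉₊ * Q) := by gcongr
        _ = 64 ^ 20 * ⌈C⌉₊ * (F ^ 4 * T ^ 132) ^ 20 * Q := by ring
        _ ≤ Q * Q := by gcongr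
        _ = _ := by ring)
    have p1 : 2 * (F ^ 4 * T ^ 73 * a.divisors.card * a) ≤
        2 * (F ^ 4 * T ^ 132 * a.divisors.card) * a := by
      rw [mul_assoc 2]
      gcongr
      norm_num
    have p2 : F ^ 2 * T ^ 66 ≤ K := by
      refine (Nat.pow_le_pow_iff_left (n := 2) (by norm_num)).1 (le_trans ?_ hb.1)
      calc (F ^ 2 * T ^ 66) ^ 2 = 1 * (F ^ 4 * T ^ 132 * 1) * 1 := by ring
        _ ≤ _ := by gcongr; norm_num
    refine hc a N K (2 ^ U * K) T F (K / N + 1) α β u f K1 N1 K2 hT2 hF (Nat.le_add_left _ _)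
      ?_ (c2 hR N1 K2 hK' (le_trans ?_ v1)) ?_
      ((c4 hR K1 ((Nat.mul_le_mul_right _ K2).trans hK') v1 p2).trans K2) v6' hα hβ hu hs hf'
    · have := Nat.lt_mul_div_succ K N1
      nlinarith
    · calc 8 * T ^ 23 = 8 * (1 ^ 2 * T ^ 23) := by ring
        _ ≤ _ := by gcongr <;> norm_num
    · calc _ = (K / N + 1) * (F ^ 4 * T ^ 73 * a.divisors.card * a) := by ring
        _ ≤ K ^ 2 := c3 (p1.trans hb.1) (p1.trans hb.2)
        _ ≤ _ := by gcongr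
  have G1 : (1 : ℝ) ≤ g := by exact_mod_cast g0
  have K0 : (0 : ℝ) < K := by exact_mod_cast K1
  have G2 : (3 * 2 ^ U) ^ 2 * D ≤ (g : ℝ) ^ 4 :=
    (Nat.ceil_le.1 v4).trans (le_self_pow₀ G1 (by norm_num))
  refine le_of_sq_le_sq (main.trans ?_) (by positivity)
  push_cast
  calc _ = (a * N / (g : ℝ) ^ A) ^ 2 * ((3 * 2 ^ U) ^ 2 * D / (g : ℝ) ^ 4) := by
        field_simp
        ring
    _ ≤ (a * N / (g : ℝ) ^ A) ^ 2 * 1 := by
      gcongr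
      exact (div_le_one (by positivity)).2 G2
    _ = _ := mul_one _

end Pool.Agent.P.MP_746f10_nt.AP
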