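import Pool.Agent.P.MP_746f10_nt.AP.QBase
import Pool.Agent.P.MP_746f10_nt.AP.Mod2

/-! The convolution of a sequence with a block model, for general moduli. -/

namespace Pool.Agent.P.MP_746f10_nt.AP

open Finset Filter Mod2P

namespace QMod2P

lemma core {a Q w K K2 K' hh L D R : ℕ} {al cf : ℕ → ℝ} {δ E : ℝ} (ha : 0 < a) (hQ : 0 < Q)
    (hK' : 0 < K') (hKK : 2 * K' ≤ K) (hhh : 0 < hh) (h1 : 2 * a * hh ≤ K * D)
    (h2 : 4 * K' * (a * Q) ≤ D * K ^ 2) (hR : a * (2 * Q) ≤ K * (L * R))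
    (hE : (K2 : ℝ) * (R * (2 * D)) ≤ E * a * Q) (hal : ∀ k, 0 ≤ al k ∧ al k ≤ rr w k)
    (hs : ∀ k, al k ≠ 0 → K < k ∧ k ≤ K2) (hc : ∀ k, al k ≠ 0 → k.Coprime a) (hcf : ∀ i, 0 ≤ cf i ∧ cf i ≤ 1)
    (hT : ∀ lam' : ℕ → ℝ, (∀ g, |lam' g| ≤ 1) → (∀ g, lam' g ≠ 0 → g.Coprime a ∧ rough w g) →
      SmallC a Q (fun m => rr w m * ∑ g ∈ Icc 1 K2, lam' g * (dd m g - 1 / g)) δ) :
    ApproxC a Q w hh (cv al fun l => rr w l * cf (l / L)) (E + (K2 / K' + 1 : ℕ) * δ) := by
  let φ : ℕ → ℕ → ℝ := fun i s => cf (a * (s * hh) / (i * K') / L)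
  have hal1 : ∀ k, al k ≤ 1 := fun k => (hal k).2.trans (rr_bd w k).2
  have hA : SmallC a Q (fun m => rr w m * ∑ k ∈ Icc 1 K2,
      al k * dd m k * (cf (m / k / L) - φ (k / K') (m / a / hh))) E := by
    refine smallC_of_l1 (le_trans ?_ hE)
    calc ∑ m ∈ Ico (a * Q) (a * (2 * Q)), |rr w m * ∑ k ∈ Icc 1 K2,
          al k * dd m k * (cf (m / k / L) - φ (k / K') (m / a / hh))|
        ≤ ∑ m ∈ Ico (a * Q) (a * (2 * Q)), ∑ k ∈ Icc 1 K2, al k * (dd m k * nm L D (m / k)) := by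
          refine sum_le_sum fun m hm => ?_
          rw [abs_mul, abs_of_nonneg (rr_bd w m).1]
          refine (mul_le_of_le_one_left (abs_nonneg _) (rr_bd w m).2).trans
            ((abs_sum_le_sum_abs _ _).trans (sum_le_sum fun k _ => ?_))
          by_cases h0 : al k = 0
          · simp [h0]
          by_cases hd : k ∣ m
          · rw [abs_mul, abs_of_nonneg (mul_nonneg (hal k).1 (dd_bd m k).1), mul_assoc]
            have hc' := close ha hK' hKK hhh h1 h2 (mem_Ico.1 hm).2 (hs k h0).1 hd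
            exact mul_le_mul_of_nonneg_left (mul_le_mul_of_nonneg_left
              (abs_sub_le_nm hcf hc'.1 hc'.2) (dd_bd m k).1) (hal k).1
          · unfold dd
            simp [hd]
      _ = ∑ k ∈ Icc 1 K2, al k * ∑ m ∈ Ico (a * Q) (a * (2 * Q)), dd m k * nm L D (m / k) := by
          rw [sum_comm]
          exact sum_congr rfl fun k _ => (mul_sum _ _ _).symm
      _ ≤ ∑ _k ∈ Icc 1 K2, (R * (2 * D) : ℝ) := by
          refine sum_le_sum fun k _ => ?_
          by_cases h0 : al k = 0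
          · rw [h0, zero_mul]; positivity
          refine (mul_le_of_le_one_left (sum_nonneg fun m _ =>
            mul_nonneg (dd_bd m k).1 (nm_nonneg _ _ _)) (hal1 k)).trans
            ((sum_dd_le k (L * R) _ _ (nm_nonneg L D) fun m hm => ?_).trans (sum_nm L D R))
          have hk := (hs k h0).1
          refine Nat.div_lt_of_lt_mul (lt_of_lt_of_le (mem_Ico.1 hm).2 (hR.trans ?_))
          exact Nat.mul_le_mul_right _ hk.le
      _ = _ := by simp
  have hB : SmallC a Q (fun m => ∑ i ∈ range (K2 / K' + 1), φ i (m / a / hh) *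
      (rr w m * ∑ g ∈ Icc 1 K2, (if g / K' = i then al g else 0) * (dd m g - 1 / g)))
      (∑ _i ∈ range (K2 / K' + 1), 1 * δ) := by
    refine smallC_sum _ _ _ fun i _ => ?_
    refine SmallC.mul_row (hT _ (fun g => ?_) fun g hg => ?_) (φ := fun n => φ i (n / hh)) one_pos
      fun n => ?_
    · split_ifs
      · rw [abs_of_nonneg (hal g).1]; exact hal1 g
      · simp
    · split_ifs at hg
      · exact ⟨hc g hg, rough_of_le_rr (hal g) hg⟩
      · exact absurd rfl hg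
    · rw [abs_of_nonneg (hcf _).1]; exact (hcf _).2
  refine ⟨fun s => ∑ k ∈ Icc 1 K2, al k * φ (k / K') s / k, ((hA.add hB).mono (le_of_eq ?_)).congr
    fun n hn b _ _ => ?_⟩
  · simp
  have hm : a * n + b ≠ 0 := by
    have := Nat.mul_pos ha (hQ.trans_le (mem_Ico.1 hn).1)
    omega
  generalize a * n + b = m at hm
  have e : ∑ i ∈ range (K2 / K' + 1), φ i (m / a / hh) *
      (rr w m * ∑ g ∈ Icc 1 K2, (if g / K' = i then al g else 0) * (dd m g - 1 / g)) =
      rr w m * ∑ g ∈ Icc 1 K2, φ (g / K') (m / a / hh) * al g * (dd m g - 1 / g) := by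
    simp only [mul_sum]
    rw [sum_comm]
    refine sum_congr rfl fun g hg => ?_
    rw [sum_eq_single (g / K')]
    · rw [if_pos rfl]; ring
    · intro i _ hi
      rw [if_neg hi.symm]; ring
    · intro h
      exact absurd (mem_range.2 (Nat.lt_succ_of_le (Nat.div_le_div_right (mem_Icc.1 hg).2))) h
  rw [e, cv_form (fun l => cf (l / L)) hal (fun k hk => (hs k hk).2) hm, mul_comm _ (rr w m),
    ← mul_sub, ← mul_add, ← sum_sub_distrib, ← sum_add_distrib]
  congr 1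
  exact sum_congr rfl fun k _ => by ring

end QMod2P

theorem qMod2 (h : T_TIM) : T_Mod2 := by
  intro u A CL
  obtain ⟨Cw0, h0⟩ := h (A + (A + CL + 1) + 1)
  refine ⟨A + CL + 1, Cw0, fun Cw => ?_⟩
  obtain ⟨Q1, h1⟩ := h0 Cw
  obtain ⟨Q2, h2⟩ := ev_lg ((ev_pow_le_two_pow (4 ^ 5) ((A + CL + 1) * 5)).and
    (eventually_ge_atTop (80 * 2 ^ (3 * u))))
  refine ⟨max Q1 Q2, fun Q a N w K L al cf hQ hR hw hw' hal hs hK hK2 hcf hL => ?_⟩
  obtain ⟨g1, g2⟩ := h2 Q (le_of_max_le_right hQ)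
  have hT := fun lam' => h1 Q a N w (2 ^ (3 * u) * K) lam' (le_of_max_le_left hQ) hR hw hw' hK2
  have hΛ : 0 < 2 ^ (3 * u) := Nat.two_pow_pos _
  have hom : 0 < om Q := Nat.two_pow_pos _
  have hQ0 : 0 < Q := by
    rcases Nat.eq_zero_or_pos Q with rfl | h
    · simp [lg] at g2
    · exact h
  have hgQ := two_pow_lg_le hQ0
  generalize 2 ^ (3 * u) = Λ at *
  generalize lg Q = g at *
  have hg : 2 ≤ g := by omega
  have hM2 : 2 ≤ g ^ (A + CL + 1) := hg.trans (Nat.le_self_pow (by omega) g)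
  have hMK : g ^ (A + CL + 1) ≤ K := by
    have e1 : (4 * g ^ (A + CL + 1)) ^ 5 ≤ (4 * K) ^ 5 := by
      rw [mul_pow, ← pow_mul]
      exact g1.trans (hgQ.trans ((Nat.le_self_pow (by norm_num) Q).trans hK))
    have := (Nat.pow_le_pow_iff_left (by norm_num)).1 e1
    omega
  have hQa := hR.Q_le
  have hN0 := hR.N_pos hQ0
  have hMN : g ^ (A + CL + 1) ≤ N := by
    have e1 : (g ^ (A + CL + 1)) ^ 5 ≤ N ^ 5 := by
      rw [← pow_mul]
      exact le_trans (by omega) (g1.trans (hgQ.trans ((Nat.le_self_pow (by norm_num) Q).trans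
        hR.pow4)))
    exact (Nat.pow_le_pow_iff_left (by norm_num)).1 e1
  have hKQ : K ≤ Q := le_trans (le_trans (Nat.le_mul_of_pos_left K hΛ)
    (Nat.le_mul_of_pos_right _ hom)) hK2
  have hMr : ((g ^ (A + CL + 1) : ℕ) : ℝ) = (g : ℝ) ^ A * (g : ℝ) ^ CL * g := by
    push_cast; ring
  have hMr' : (g : ℝ) ^ (A + (A + CL + 1) + 1) = (g : ℝ) ^ A * (g ^ (A + CL + 1) : ℕ) * g := by
    push_cast; ring
  rw [hMr'] at hT
  generalize g ^ (A + CL + 1) = M at *
  have hM0 : 0 < M := by omega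
  have hK0 : 0 < K := by omega
  have a1 : K / M * M ≤ K := Nat.div_mul_le_self K M
  have a2 : K < K / M * M + M := Nat.lt_div_mul_add hM0
  have a3 : N / M * M ≤ N := Nat.div_mul_le_self N M
  have a4 : 0 < K / M := Nat.div_pos hMK hM0
  have a5 : 0 < N / M := Nat.div_pos hMN hM0
  have a6 : 4 * (a * N) / (K * M) * (K * M) ≤ 4 * (a * N) := Nat.div_mul_le_self _ _
  have a7 : 4 * (a * N) < 4 * (a * N) / (K * M) * (K * M) + K * M :=
    Nat.lt_div_mul_add (Nat.mul_pos hK0 hM0)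
  have a8 : K * M ≤ a * N := Nat.mul_le_mul (hKQ.trans hQa) hMN
  generalize 4 * (a * N) / (K * M) = D at *
  generalize N / M = hh at *
  generalize K / M = K' at *
  have b1 : 2 * K' ≤ K := le_trans (by rw [mul_comm]; exact Nat.mul_le_mul_left K' hM2) a1
  have b2 : 2 * a * hh ≤ K * (D + 1) := by
    refine Nat.le_of_mul_le_mul_right ?_ hM0
    have := Nat.mul_le_mul_left a a3
    nlinarith
  have b3 : 4 * K' * (a * N) ≤ (D + 1) * K ^ 2 := by
    have c1 : K' * (4 * (a * N)) ≤ K' * ((D + 1) * (K * M)) :=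
      Nat.mul_le_mul_left K' (by nlinarith)
    have c2 : (D + 1) * K * (K' * M) ≤ (D + 1) * K * K := Nat.mul_le_mul_left _ a1
    nlinarith
  have b4 : a * (2 * N) ≤ K * (L * (4 * g ^ CL)) := by
    have := hR.2.1
    nlinarith
  have b5 : Λ * K / K' + 1 ≤ 3 * Λ * M := by
    have c1 : K ≤ 2 * M * K' := by
      have := Nat.le_mul_of_pos_left M a4
      nlinarith
    have c2 : Λ * K / K' ≤ 2 * Λ * M := by
      refine Nat.div_le_of_le_mul ?_
      have := Nat.mul_le_mul_left Λ c1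
      nlinarith
    have c3 : 0 < Λ * M := Nat.mul_pos hΛ hM0
    nlinarith
  have b6 : (D + 1) * (K * M) ≤ 5 * (a * N) := by nlinarith
  have gr : (80 * Λ : ℝ) ≤ g := by exact_mod_cast g2
  have g0 : (0 : ℝ) < g := by exact_mod_cast (by omega : 0 < g)
  have gA : (0 : ℝ) < (g : ℝ) ^ A := by positivity
  have gC : (0 : ℝ) < (g : ℝ) ^ CL := by positivity
  have M0 : (0 : ℝ) < M := by exact_mod_cast hM0
  have Λ0 : (0 : ℝ) < Λ := by exact_mod_cast hΛ
  refine ((QMod2P.core (al := fun k => al k * cp a k) (E := 1 / (2 * (g : ℝ) ^ A)) (by omega) hN0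
    a4 b1 a5 b2 b3 b4 ?_ (fun k => ⟨mul_nonneg (hal k).1 (cp_bd a k).1,
      (mul_le_of_le_one_right (hal k).1 (cp_bd a k).2).trans (hal k).2⟩)
    (fun k hk => hs k (left_ne_zero_of_mul hk))
    (fun k hk => by_contra fun h0 => right_ne_zero_of_mul hk (cp_of_not h0)) hcf hT).mono ?_).congr
    fun n _ b _ h0 => sum_congr rfl fun x hx => ?_
  · have c1 : ((D + 1 : ℕ) : ℝ) * (K * M) ≤ 5 * (a * N) := by exact_mod_cast b6
    have c0 : (0 : ℝ) ≤ ((D + 1 : ℕ) : ℝ) * K * (g : ℝ) ^ A * (g : ℝ) ^ CL := by positivity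
    have c2 := mul_le_mul_of_nonneg_left gr c0
    rw [hMr] at c1
    rw [mul_assoc (1 / _ : ℝ), one_div_mul_eq_div, le_div_iff₀ (by positivity)]
    push_cast at c1 c2 ⊢
    nlinarith
  · have c1 : ((Λ * K / K' + 1 : ℕ) : ℝ) ≤ 3 * Λ * M := by exact_mod_cast b5
    have c2 : ((Λ * K / K' + 1 : ℕ) : ℝ) * (1 / ((g : ℝ) ^ A * M * g)) ≤ 1 / (2 * (g : ℝ) ^ A) := by
      rw [mul_one_div, div_le_div_iff₀ (by positivity) (by positivity)]
      have c3 : (0 : ℝ) ≤ (g : ℝ) ^ A * M := by positivity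
      have c4 := mul_le_mul_of_nonneg_left (show (6 * Λ : ℝ) ≤ g by linarith) c3
      have c5 := mul_le_mul_of_nonneg_right c1 gA.le
      nlinarith
    have c3 : 1 / (g : ℝ) ^ A = 1 / (2 * (g : ℝ) ^ A) + 1 / (2 * (g : ℝ) ^ A) := by
      field_simp; ring
    rw [c3]
    linarith
  · simp only [cp_of (Nat.Coprime.coprime_dvd_left
      ⟨x.2, (Nat.mem_divisorsAntidiagonal.1 hx).1.symm⟩ h0), mul_one]

end Pool.Agent.P.MP_746f10_nt.AP
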