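import Pool.Agent.P.MP_746f10_nt.AP.QBase

/-! A variance bound over the units for sums over the first multiples. -/

namespace Pool.Agent.P.MP_746f10_nt.AP

open Finset ComplexConjugate
open Pool.Agent.P.MP_0ad054_nt (e dn geom_range four_dn_le norm_e dn_div_ge e_add)

namespace QPVP

variable {a : ℕ} [NeZero a]

/-- the Fourier coefficient -/
noncomputable def co (W : ZMod a → ℂ) (r : ZMod a) : ℂ :=
  1 / (a : ℂ) * ∑ y : ZMod a, W y * ZMod.stdAddChar (-(r * y))

lemma parseval (W : ZMod a → ℂ) :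
    1 / (a : ℝ) * ∑ y : ZMod a, ‖W y‖ ^ 2 = ∑ r : ZMod a, ‖co W r‖ ^ 2 := by
  have ha : (a : ℂ) ≠ 0 := Nat.cast_ne_zero.2 (NeZero.ne a)
  have key : ∀ r, co W r * conj (co W r) = (1 / (a : ℂ)) ^ 2 *
      ∑ y : ZMod a, ∑ z : ZMod a, W y * conj (W z) * ZMod.stdAddChar (r * (z - y)) := by
    intro r
    unfold co
    rw [map_mul, map_sum, map_div₀, map_one, map_natCast, mul_mul_mul_comm, sum_mul_sum, sq]
    congr 1
    refine sum_congr rfl fun y _ => sum_congr rfl fun z _ => ?_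
    rw [map_mul, ← AddChar.map_neg_eq_conj, neg_neg, mul_mul_mul_comm, ← AddChar.map_add_eq_mul]
    congr 2
    ring
  apply Complex.ofReal_injective
  push_cast
  simp only [← Complex.mul_conj', key]
  rw [← mul_sum, sum_comm, sq, mul_assoc]
  congr 1
  rw [mul_sum]
  refine sum_congr rfl fun y _ => ?_
  rw [sum_comm]
  simp only [← mul_sum, AddChar.sum_mulShift _ (ZMod.isPrimitive_stdAddChar a), sub_eq_zero]
  simp only [Nat.cast_ite, mul_ite, Nat.cast_zero, mul_zero, sum_ite_eq', mem_univ, if_true,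
    ZMod.card]
  field_simp

lemma inversion (W : ZMod a → ℂ) (x : ZMod a) :
    W x = ∑ r : ZMod a, co W r * ZMod.stdAddChar (r * x) := by
  have ha : (a : ℂ) ≠ 0 := Nat.cast_ne_zero.2 (NeZero.ne a)
  have key : ∀ r, co W r * ZMod.stdAddChar (r * x) =
      1 / (a : ℂ) * ∑ y : ZMod a, W y * ZMod.stdAddChar (r * (x - y)) := by
    intro r
    unfold co
    rw [mul_assoc, sum_mul]
    congr 1
    refine sum_congr rfl fun y _ => ?_
    rw [mul_assoc, ← AddChar.map_add_eq_mul]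
    congr 2
    ring
  simp only [key]
  rw [← mul_sum, sum_comm]
  simp only [← mul_sum, AddChar.sum_mulShift _ (ZMod.isPrimitive_stdAddChar a), sub_eq_zero]
  simp only [Nat.cast_ite, mul_ite, Nat.cast_zero, mul_zero, sum_ite_eq, mem_univ, if_true,
    ZMod.card]
  field_simp

/-- the majorant of the geometric sums -/
noncomputable def gg (s : ZMod a) : ℝ := (a : ℝ) / s.val + (a : ℝ) / (a - s.val : ℕ)

omit [NeZero a] in
lemma gg_nonneg (s : ZMod a) : 0 ≤ gg s := by unfold gg; positivity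

lemma geom_le {s : ZMod a} (hs : s ≠ 0) (K : ℕ) :
    ‖∑ k ∈ Icc 1 K, ZMod.stdAddChar (s * (k : ZMod a))‖ ≤ gg s := by
  have ha : 0 < a := Nat.pos_of_ne_zero (NeZero.ne a)
  have ha' : (0 : ℝ) < a := by exact_mod_cast ha
  have hv := ZMod.val_lt s
  have hv0 : 0 < s.val := Nat.pos_of_ne_zero fun h => hs ((ZMod.val_eq_zero s).1 h)
  set x : ℝ := (s.val : ℝ) / a with hx
  have h1 : ∀ k : ℕ, ZMod.stdAddChar (s * (k : ZMod a)) = e (x * k) := by
    intro k
    have : s * (k : ZMod a) = ((s.val * k : ℤ) : ZMod a) := by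
      push_cast
      rw [ZMod.natCast_zmod_val]
    rw [this, ZMod.stdAddChar_coe, e, hx]
    congr 1
    push_cast
    ring
  have h2 : ∑ k ∈ Icc 1 K, ZMod.stdAddChar (s * (k : ZMod a)) =
      e x * ∑ i ∈ range K, e (x * i) := by
    rw [mul_sum, ← Finset.Ico_add_one_right_eq_Icc, sum_Ico_eq_sum_range, Nat.add_sub_cancel]
    refine sum_congr rfl fun i _ => ?_
    rw [h1, ← e_add]
    congr 1
    push_cast
    ring
  have h3 : ‖∑ i ∈ range K, e (x * i)‖ * ‖e x - 1‖ ≤ 2 := by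
    rw [← norm_mul, geom_range]
    refine (norm_sub_le _ _).trans ?_
    rw [norm_e, norm_one]
    norm_num
  have h4 := four_dn_le x
  have h5 := dn_div_ge ha hv
  rw [← hx] at h5
  rw [h2, norm_mul, norm_e, one_mul]
  set m : ℕ := min s.val (a - s.val) with hm
  have hm0 : (0 : ℝ) < m := by
    have : 0 < m := by omega
    exact_mod_cast this
  have h6 : ‖∑ i ∈ range K, e (x * i)‖ ≤ a / m := by
    rw [le_div_iff₀ hm0]
    rw [div_le_iff₀ ha'] at h5
    have hn := norm_nonneg (∑ i ∈ range K, e (x * i))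
    have h7 : ‖∑ i ∈ range K, e (x * i)‖ * (4 * dn x) ≤ 2 :=
      (mul_le_mul_of_nonneg_left h4 hn).trans h3
    nlinarith [mul_le_mul_of_nonneg_left h5 hn]
  refine h6.trans ?_
  unfold gg
  rcases min_choice s.val (a - s.val) with h | h <;> rw [hm, h]
  · exact le_add_of_nonneg_right (by positivity)
  · exact le_add_of_nonneg_left (by positivity)

omit [NeZero a] in
lemma harm (S : Finset (ZMod a)) (φ : ZMod a → ℕ) {d : ℕ} (hd : 0 < d)
    (hinj : Set.InjOn φ S) (h : ∀ s ∈ S, 1 ≤ φ s ∧ φ s ≤ a ∧ d ∣ φ s) :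
    d * ∑ s ∈ S, (a : ℝ) / φ s ≤ a * (1 + Real.log a) := by
  have hd' : (0 : ℝ) < d := by exact_mod_cast hd
  have h1 : d * ∑ s ∈ S, (a : ℝ) / φ s = a * ∑ s ∈ S, (((φ s / d : ℕ) : ℝ))⁻¹ := by
    rw [mul_sum, mul_sum]
    refine sum_congr rfl fun s hs => ?_
    obtain ⟨h1, -, t, ht⟩ := h s hs
    have ht0 : (t : ℝ) ≠ 0 := by
      have : t ≠ 0 := by rintro rfl; omega
      exact_mod_cast this
    rw [ht, Nat.mul_div_cancel_left _ hd]
    push_cast
    field_simp
  have h2 : ∑ s ∈ S, (((φ s / d : ℕ) : ℝ))⁻¹ ≤ ∑ t ∈ Icc 1 a, (t : ℝ)⁻¹ := by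
    rw [← sum_image (f := fun t : ℕ => (t : ℝ)⁻¹) (g := fun s => φ s / d)]
    · refine sum_le_sum_of_subset_of_nonneg (fun t ht => ?_) fun _ _ _ => by positivity
      obtain ⟨s, hs, rfl⟩ := mem_image.1 ht
      obtain ⟨h1, h2, h3⟩ := h s hs
      exact mem_Icc.2 ⟨Nat.div_pos (Nat.le_of_dvd h1 h3) hd, (Nat.div_le_self _ _).trans h2⟩
    · intro s hs s' hs' e
      refine hinj hs hs' ?_
      have e' : φ s / d = φ s' / d := e
      rw [← Nat.mul_div_cancel' (h s hs).2.2, ← Nat.mul_div_cancel' (h s' hs').2.2, e']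
  have h3 : ∑ t ∈ Icc 1 a, (t : ℝ)⁻¹ ≤ 1 + Real.log a := by
    have := harmonic_le_one_add_log a
    rw [harmonic_eq_sum_Icc] at this
    push_cast at this
    exact this
  rw [h1]
  exact mul_le_mul_of_nonneg_left (h2.trans h3) (Nat.cast_nonneg a)

lemma sum_gg {d : ℕ} (hd : 0 < d) (hda : d ∣ a) :
    d * ∑ s ∈ univ.filter (fun s : ZMod a => s ≠ 0 ∧ d ∣ s.val), gg s ≤
      2 * (a * (1 + Real.log a)) := by
  have h1 := harm (univ.filter (fun s : ZMod a => s ≠ 0 ∧ d ∣ s.val)) (fun s => s.val) hd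
    (fun s _ s' _ e => ZMod.val_injective a e) fun s hs => by
      obtain ⟨h1, h2⟩ := (mem_filter.1 hs).2
      exact ⟨Nat.pos_of_ne_zero fun h => h1 ((ZMod.val_eq_zero s).1 h), (ZMod.val_lt s).le, h2⟩
  have h2 := harm (univ.filter (fun s : ZMod a => s ≠ 0 ∧ d ∣ s.val)) (fun s => a - s.val) hd
    (fun s _ s' _ e => ZMod.val_injective a (by
      have := ZMod.val_lt s
      have := ZMod.val_lt s'
      have e' : a - s.val = a - s'.val := e
      omega)) fun s hs => by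
      obtain ⟨-, h2⟩ := (mem_filter.1 hs).2
      have := ZMod.val_lt s
      exact ⟨by omega, by omega, Nat.dvd_sub hda h2⟩
  unfold gg
  rw [sum_add_distrib, mul_add]
  linarith

lemma fibre (r s : ZMod a) :
    (univ.filter fun l : ZMod a => r * l = s).card ≤ Nat.gcd r.val a := by
  have ha : 0 < a := Nat.pos_of_ne_zero (NeZero.ne a)
  set d := Nat.gcd r.val a with hd
  have hd0 : 0 < d := Nat.gcd_pos_of_pos_right _ ha
  rcases (univ.filter fun l : ZMod a => r * l = s).eq_empty_or_nonempty with h | ⟨l0, hl0⟩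
  · rw [h]; simp
  have hm : d * (a / d) = a := Nat.mul_div_cancel' (Nat.gcd_dvd_right _ _)
  have hm0 : 0 < a / d := Nat.div_pos (Nat.le_of_dvd ha (Nat.gcd_dvd_right _ _)) hd0
  have hdv : ∀ l ∈ univ.filter fun l : ZMod a => r * l = s, a / d ∣ (l - l0).val := by
    intro l hl
    have h0 : r * (l - l0) = 0 := by
      rw [mul_sub, (mem_filter.1 hl).2, (mem_filter.1 hl0).2, sub_self]
    have h1 : a ∣ r.val * (l - l0).val := by
      rw [← ZMod.natCast_eq_zero_iff]
      push_cast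
      rw [ZMod.natCast_zmod_val, ZMod.natCast_zmod_val, h0]
    have h2 : d * (r.val / d) = r.val := Nat.mul_div_cancel' (Nat.gcd_dvd_left _ _)
    have h3 : a / d ∣ r.val / d * (l - l0).val := by
      refine Nat.dvd_of_mul_dvd_mul_left hd0 ?_
      rw [hm, ← mul_assoc, h2]
      exact h1
    exact (Nat.coprime_div_gcd_div_gcd hd0).symm.dvd_of_dvd_mul_left h3
  rw [← card_range d]
  refine card_le_card_of_injOn (fun l => (l - l0).val / (a / d)) (fun l _ => ?_)
    fun l hl l' hl' e => ?_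
  · rw [coe_range, Set.mem_Iio, Nat.div_lt_iff_lt_mul hm0, hm]
    exact ZMod.val_lt _
  · have e' : (l - l0).val / (a / d) = (l' - l0).val / (a / d) := e
    have : (l - l0).val = (l' - l0).val := by
      rw [← Nat.mul_div_cancel' (hdv l hl), ← Nat.mul_div_cancel' (hdv l' hl'), e']
    exact sub_left_injective (ZMod.val_injective a this)

lemma sum_mul_gg (r : ZMod a) (U : Finset (ZMod a)) (hU : ∀ l ∈ U, r * l ≠ 0) :
    ∑ l ∈ U, gg (r * l) ≤ 2 * (a * (1 + Real.log a)) := by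
  have ha : 0 < a := Nat.pos_of_ne_zero (NeZero.ne a)
  set d := Nat.gcd r.val a with hd
  refine le_trans ?_ (sum_gg (Nat.gcd_pos_of_pos_right r.val ha) (Nat.gcd_dvd_right _ _))
  rw [← sum_fiberwise_of_maps_to (g := fun l => r * l)
    (t := univ.filter (fun s : ZMod a => s ≠ 0 ∧ d ∣ s.val)) fun l hl => by
      refine mem_filter.2 ⟨mem_univ _, hU l hl, ?_⟩
      rw [ZMod.val_mul]
      exact (Nat.dvd_mod_iff (Nat.gcd_dvd_right _ _)).2 ((Nat.gcd_dvd_left _ _).mul_right _),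
    mul_sum]
  refine sum_le_sum fun s _ => ?_
  rw [sum_congr rfl fun l hl => by rw [(mem_filter.1 hl).2], sum_const, nsmul_eq_mul]
  refine mul_le_mul_of_nonneg_right ?_ (gg_nonneg s)
  exact_mod_cast (card_le_card (filter_subset_filter _ (subset_univ U))).trans (fibre r s)

lemma expand (h : ZMod a → ℝ) (K : ℕ) (l : ZMod a) :
    ((AA h K l - K * (∑ x, h x) / a : ℝ) : ℂ) = ∑ r ∈ univ.erase 0,
      co (fun x => (h x : ℂ)) r * ∑ k ∈ Icc 1 K, ZMod.stdAddChar (r * l * (k : ZMod a)) := by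
  have h1 : ((AA h K l : ℝ) : ℂ) = ∑ r : ZMod a,
      co (fun x => (h x : ℂ)) r * ∑ k ∈ Icc 1 K, ZMod.stdAddChar (r * l * (k : ZMod a)) := by
    unfold AA
    push_cast
    simp only [mul_sum]
    rw [sum_comm]
    refine sum_congr rfl fun k _ => ?_
    rw [inversion (fun x => (h x : ℂ)) (k * l)]
    refine sum_congr rfl fun r _ => ?_
    congr 2
    ring
  rw [Complex.ofReal_sub, h1, ← add_sum_erase _ _ (mem_univ 0)]
  simp only [co, zero_mul, neg_zero, AddChar.map_zero_eq_one, mul_one, sum_const, Nat.card_Icc,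
    Nat.add_sub_cancel, nsmul_eq_mul]
  push_cast
  ring

end QPVP

open QPVP in
theorem qPV : T_PV := by
  classical
  refine ⟨4, by norm_num, fun a _ h K => ?_⟩
  have ha : 0 < a := Nat.pos_of_ne_zero (NeZero.ne a)
  have ha' : (0 : ℝ) < a := by exact_mod_cast ha
  have hl : 0 ≤ Real.log a := Real.log_natCast_nonneg a
  set B : ℝ := 2 * (a * (1 + Real.log a)) with hB
  have B0 : 0 ≤ B := by positivity
  set c : ZMod a → ℝ := fun r => ‖co (fun x => (h x : ℂ)) r‖ with hc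
  have hne : ∀ l : ZMod a, IsUnit l → ∀ r ∈ univ.erase (0 : ZMod a), r * l ≠ 0 :=
    fun l hl r hr h0 => ne_of_mem_erase hr (hl.mul_left_eq_zero.1 h0)
  have h1 : ∀ l : ZMod a, IsUnit l → (AA h K l - K * (∑ x, h x) / a) ^ 2 ≤
      B * ∑ r ∈ univ.erase 0, c r ^ 2 * gg (r * l) := by
    intro l hl
    have e1 : |AA h K l - K * (∑ x, h x) / a| ≤ ∑ r ∈ univ.erase 0, c r * gg (r * l) := by
      rw [← Real.norm_eq_abs, ← Complex.norm_real, expand]
      refine (norm_sum_le _ _).trans (sum_le_sum fun r hr => ?_)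
      rw [norm_mul]
      exact mul_le_mul_of_nonneg_left (geom_le (hne l hl r hr) K) (norm_nonneg _)
    have e2 : (∑ r ∈ univ.erase 0, c r * gg (r * l)) ^ 2 ≤
        (∑ r ∈ univ.erase 0, gg (r * l)) * ∑ r ∈ univ.erase 0, c r ^ 2 * gg (r * l) :=
      sum_sq_le_sum_mul_sum_of_sq_le_mul _ (fun r _ => gg_nonneg _)
        (fun r _ => mul_nonneg (sq_nonneg _) (gg_nonneg _)) fun r _ => le_of_eq (by ring)
    have e3 : ∑ r ∈ univ.erase 0, gg (r * l) ≤ B := by
      simp only [mul_comm _ l]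
      exact sum_mul_gg l _ fun r hr => by rw [mul_comm]; exact hne l hl r hr
    rw [← sq_abs]
    refine ((pow_le_pow_left₀ (abs_nonneg _) e1 2).trans e2).trans ?_
    exact mul_le_mul_of_nonneg_right e3
      (sum_nonneg fun r _ => mul_nonneg (sq_nonneg _) (gg_nonneg _))
  have h2 : ∑ r ∈ univ.erase 0, c r ^ 2 ≤ 1 / (a : ℝ) * ∑ x, h x ^ 2 := by
    have := parseval (fun x => (h x : ℂ))
    simp only [Complex.norm_real, Real.norm_eq_abs, sq_abs] at this
    rw [this]
    exact sum_le_sum_of_subset_of_nonneg (erase_subset _ _) fun _ _ _ => sq_nonneg _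
  have hτ : (1 : ℝ) ≤ a.divisors.card := by
    exact_mod_cast card_pos.2 ⟨1, Nat.one_mem_divisors.2 ha.ne'⟩
  have hs : 0 ≤ ∑ x, h x ^ 2 := sum_nonneg fun _ _ => sq_nonneg _
  calc ∑ l ∈ univ.filter IsUnit, (AA h K l - K * (∑ x, h x) / a) ^ 2
      ≤ ∑ l ∈ univ.filter IsUnit, B * ∑ r ∈ univ.erase 0, c r ^ 2 * gg (r * l) :=
        sum_le_sum fun l hl => h1 l (mem_filter.1 hl).2
    _ = B * ∑ r ∈ univ.erase 0, c r ^ 2 * ∑ l ∈ univ.filter IsUnit, gg (r * l) := by
        rw [← mul_sum, sum_comm]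
        simp only [mul_sum]
    _ ≤ B * ∑ r ∈ univ.erase 0, c r ^ 2 * B := by
        refine mul_le_mul_of_nonneg_left (sum_le_sum fun r hr => ?_) B0
        exact mul_le_mul_of_nonneg_left
          (sum_mul_gg r _ fun l hl => hne l (mem_filter.1 hl).2 r hr) (sq_nonneg _)
    _ ≤ B * ((1 / (a : ℝ) * ∑ x, h x ^ 2) * B) := by
        rw [← sum_mul]
        exact mul_le_mul_of_nonneg_left (mul_le_mul_of_nonneg_right h2 B0) B0
    _ = 4 * a * 1 * (1 + Real.log a) ^ 2 * ∑ x, h x ^ 2 := by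
        rw [hB]
        field_simp
        ring
    _ ≤ _ := by gcongr

end Pool.Agent.P.MP_746f10_nt.AP
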