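import Pool.Agent.P.MP_746f10_nt.AP.QBase
import Pool.Agent.P.MP_746f10_nt.AP.Pair

/-! Pairs with a given ratio modulo a general modulus. -/

namespace Pool.Agent.P.MP_746f10_nt.AP

open Finset

namespace QPairP

theorem fibre (hL : S_L2) (M : ℕ) [NeZero M] (K g0 : ℕ) (x : ZMod M) :
    (((((Pc M K).filter (fun p => ¬ g0 < Nat.gcd p.1 p.2)).filter
      (fun p => (p.1 : ZMod M) * (p.2 : ZMod M)⁻¹ = x)).card : ℝ)) ≤
        g0 + 16 * (K : ℝ) ^ 2 / M := by
  set S := ((Pc M K).filter (fun p => ¬ g0 < Nat.gcd p.1 p.2)).filter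
      (fun p => (p.1 : ZMod M) * (p.2 : ZMod M)⁻¹ = x) with hS
  have hm : ∀ p ∈ S, (1 ≤ p.1 ∧ p.1 ≤ K) ∧ (1 ≤ p.2 ∧ p.2 ≤ K) ∧ Nat.gcd p.1 p.2 ≤ g0 ∧
      (p.1 : ZMod M) * (p.2 : ZMod M)⁻¹ = x ∧ p.2.Coprime M := fun p hp => by
    simp only [hS, Pc, mem_filter, mem_product, mem_Icc, not_lt] at hp
    exact ⟨hp.1.1.1.1, hp.1.1.1.2, hp.1.2, hp.2, hp.1.1.2.2⟩
  let c : ℕ × ℕ → ℤ × ℤ := fun p => (p.1, p.2)
  have hc : Function.Injective c := fun p q h =>
    Prod.ext (Nat.cast_injective (congrArg Prod.fst h)) (Nat.cast_injective (congrArg Prod.snd h))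
  let L : AddSubgroup (ℤ × ℤ) :=
    { carrier := {p | (p.1 : ZMod M) = x * (p.2 : ZMod M)}
      add_mem' := fun {p q} hp hq => by
        simp only [Set.mem_ofPred_eq, Prod.fst_add, Prod.snd_add, Int.cast_add] at hp hq ⊢
        rw [hp, hq, mul_add]
      zero_mem' := by simp
      neg_mem' := fun {p} hp => by
        simp only [Set.mem_ofPred_eq, Prod.fst_neg, Prod.snd_neg, Int.cast_neg] at hp ⊢
        rw [hp, mul_neg] }
  have hl : ∀ p, p ∈ L ↔ (p.1 : ZMod M) = x * (p.2 : ZMod M) := fun p => Iff.rfl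
  rw [← card_image_of_injective S hc]
  refine (hL L M K 1 (S.image c) (Nat.pos_of_ne_zero (NeZero.ne M)) one_pos
    (fun p hp q hq => ?_) (fun p _ hp => ?_) (fun p hp => ?_)).2 g0 (fun p hp => ?_)
    fun p0 hp0 => ?_
  · rw [← ZMod.intCast_zmod_eq_zero_iff_dvd]
    push_cast
    rw [(hl p).1 hp, (hl q).1 hq]
    ring
  · have : (1 : ℤ) ≤ max |p.1| |p.2| := by
      by_cases h1 : p.1 = 0
      · exact le_max_of_le_right (Int.one_le_abs fun h2 => hp (Prod.ext h1 h2))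
      · exact le_max_of_le_left (Int.one_le_abs h1)
    exact_mod_cast this
  · obtain ⟨q, hq, rfl⟩ := mem_image.1 hp
    obtain ⟨h1, h2, -⟩ := hm q hq
    simp only [c, Nat.abs_cast, Nat.cast_le]
    exact ⟨h1.2, h2.2⟩
  · obtain ⟨q, hq, rfl⟩ := mem_image.1 hp
    obtain ⟨-, -, -, h4, h5⟩ := hm q hq
    have h6 := ZMod.coe_mul_inv_eq_one q.2 h5
    simp only [hl, c, Int.cast_natCast]
    rw [← h4, mul_assoc, mul_comm _ (q.2 : ZMod M), h6, mul_one]
  · rw [filter_image, card_image_of_injective _ hc]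
    refine (card_le_card_of_injOn (t := Icc 1 g0) (fun p => Nat.gcd p.1 p.2) (fun p hp => ?_)
      fun p hp q hq e => ?_).trans (by simp)
    · obtain ⟨-, h2, h3, -⟩ := hm p (mem_filter.1 hp).1
      exact mem_coe.2 (mem_Icc.2 ⟨Nat.gcd_pos_of_pos_right _ h2.1, h3⟩)
    · have e1 : p0.1 * p.2 = p0.2 * p.1 := (mem_filter.1 hp).2
      have e2 : p0.1 * q.2 = p0.2 * q.1 := (mem_filter.1 hq).2
      have e3 : (p.1 : ℤ) * q.2 = p.2 * q.1 := by
        by_cases h1 : p0.1 = 0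
        · refine mul_left_cancel₀ (a := p0.2) (fun h2 => hp0 (Prod.ext h1 h2)) ?_
          linear_combination p.2 * e2 - q.2 * e1
        · refine mul_left_cancel₀ h1 ?_
          linear_combination p.1 * e2 - q.1 * e1
      have := PairP.same (hm p (mem_filter.1 hp).1).2.1.1 (by exact_mod_cast e3) e
      exact Prod.ext this.1 this.2

theorem unit_ratio {M K : ℕ} {p : ℕ × ℕ} (hp : p ∈ Pc M K) :
    IsUnit ((p.1 : ZMod M) * (p.2 : ZMod M)⁻¹) := by
  have h := (mem_filter.1 hp).2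
  refine ((ZMod.isUnit_iff_coprime _ _).2 h.1).mul ?_
  exact IsUnit.of_mul_eq_one_right _ (ZMod.coe_mul_inv_eq_one p.2 h.2)

end QPairP

open QPairP

theorem qPair (h : S_L2) : T_Pair := by
  classical
  intro K g0 hg
  have h1 := PairP.big_gcd K g0 hg
  refine ⟨h1, fun M _ f B hf => ?_⟩
  have hB : 0 ≤ B := (hf 0).1.trans (hf 0).2
  rw [← sum_filter_add_sum_filter_not _ (fun p => g0 < Nat.gcd p.1 p.2), add_comm]
  refine add_le_add ?_ ?_
  · rw [← sum_fiberwise_of_maps_to (t := univ.filter IsUnit)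
      (g := fun p : ℕ × ℕ => (p.1 : ZMod M) * (p.2 : ZMod M)⁻¹)
      (fun p hp => mem_filter.2 ⟨mem_univ _, unit_ratio (mem_filter.1 hp).1⟩), mul_sum]
    refine sum_le_sum fun x _ => ?_
    rw [sum_congr rfl fun p hp => congrArg f (mem_filter.1 hp).2, sum_const, nsmul_eq_mul]
    exact mul_le_mul_of_nonneg_right (fibre h M K g0 x) (hf x).1
  · refine (sum_le_card_nsmul _ _ B fun p _ => (hf _).2).trans ?_
    rw [nsmul_eq_mul]
    refine mul_le_mul_of_nonneg_right (le_trans ?_ h1) hB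
    exact_mod_cast card_le_card (filter_subset_filter _ (filter_subset _ _))

end Pool.Agent.P.MP_746f10_nt.AP
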