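import Pool.Agent.P.MP_746f10_nt.AP.QBase
import Pool.Agent.P.MP_746f10_nt.AP.Row

/-! The matrix coefficients on a plane of small height. -/

namespace Pool.Agent.P.MP_746f10_nt.AP

open Finset ComplexConjugate
open Pool.Agent.P.MP_0ad054_nt (e)

namespace QPlaneP

lemma split_q (a : ℕ) {n : ℕ} (hn : n ≠ 0) :
    ∃ q1 q2, n = q1 * q2 ∧ q1.Coprime a ∧ ∀ p, p.Prime → p ∣ q2 → p ∣ a := by
  induction n using induction_on_primes with
  | zero => exact absurd rfl hn
  | one => exact ⟨1, 1, rfl, by simp, fun p hp h => absurd (Nat.dvd_one.1 h) hp.ne_one⟩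
  | prime_mul p m hp ih =>
    obtain ⟨q1, q2, rfl, h1, h2⟩ := ih (right_ne_zero_of_mul hn)
    by_cases h : p ∣ a
    · refine ⟨q1, p * q2, by ring, h1, fun p' hp' h3 => ?_⟩
      rcases (Nat.Prime.dvd_mul hp').1 h3 with h4 | h4
      · exact (Nat.prime_dvd_prime_iff_eq hp' hp).1 h4 ▸ h
      · exact h2 p' hp' h4
    · exact ⟨p * q1, q2, by ring, Nat.Coprime.mul_left ((Nat.Prime.coprime_iff_not_dvd hp).2 h) h1,
        h2⟩

lemma sum_val (M : ℕ) [NeZero M] (F : ℕ → ℂ) : ∑ z : ZMod M, F z.val = ∑ m ∈ range M, F m :=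
  sum_nbij' (fun z => z.val) (fun m => (m : ZMod M)) (fun y _ => mem_range.2 (ZMod.val_lt y))
    (fun _ _ => mem_univ _) (fun y _ => ZMod.natCast_zmod_val y)
    (fun _ hb => ZMod.val_cast_of_lt (mem_range.1 hb)) fun _ _ => rfl

lemma sum_lift (a q : ℕ) [NeZero a] [NeZero (a * q)] (F : ℕ → ℂ) :
    ∑ z : ZMod (a * q), F z.val = ∑ b : ZMod a, ∑ i ∈ range q, F (b.val + a * i) := by
  have h := sum_rows a 0 q (Nat.zero_le q) F
  rw [mul_zero, ← range_eq_Ico, ← range_eq_Ico] at h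
  rw [sum_val, ← h, sum_val a fun b => ∑ i ∈ range q, F (b + a * i), sum_comm]
  simp only [add_comm]

lemma sum_pi (a q : ℕ) [NeZero a] [NeZero (a * q)] (G : ZMod a → ℂ) :
    ∑ z : ZMod (a * q), G (z.val : ZMod a) = q * ∑ b, G b := by
  rw [sum_lift a q fun m => G m, mul_sum]
  refine sum_congr rfl fun b _ => ?_
  simp

lemma psi_lift (a q : ℕ) [NeZero a] [NeZero (a * q)] (j : ℤ) :
    ZMod.stdAddChar (j : ZMod a) = ZMod.stdAddChar ((q * j : ℤ) : ZMod (a * q)) := by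
  have h1 : (a : ℝ) ≠ 0 := by exact_mod_cast NeZero.ne a
  have h2 : (q : ℝ) ≠ 0 := by exact_mod_cast right_ne_zero_of_mul (NeZero.ne (a * q))
  rw [RowP.std_eq, RowP.std_eq]
  congr 1
  push_cast
  field_simp

lemma norm_psi {M : ℕ} [NeZero M] (x : ZMod M) : ‖ZMod.stdAddChar x‖ = 1 := Circle.norm_coe _

end QPlaneP

open QPlaneP in
theorem qPlane (h1 : T_PlA) (h2 : T_Pair) : T_Plane := by
  classical
  intro a _ f ρ K g0 R τ F d1 d2 d3 hf hg hd1 hd3 hd3'
  obtain ⟨q1, q2, hq, hc1, hc2⟩ := split_q a (Int.natAbs_ne_zero.2 hd3)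
  have q0 : q1 * q2 ≠ 0 := hq ▸ Int.natAbs_ne_zero.2 hd3
  have q10 := left_ne_zero_of_mul q0
  have q20 := right_ne_zero_of_mul q0
  have : NeZero (a * q2) := ⟨mul_ne_zero (NeZero.ne a) q20⟩
  have hρ : q1 * q2 ≤ ρ := by
    rw [← hq]
    rw [Int.abs_eq_natAbs] at hd3'
    exact_mod_cast hd3'
  have cop : ∀ k : ℕ, k.Coprime a → k.Coprime (a * q2) := fun k hk =>
    Nat.Coprime.mul_right hk (Nat.coprime_of_dvd fun p hp h3 h4 =>
      (Nat.Prime.coprime_iff_not_dvd hp).1 (hk.coprime_dvd_left h3) (hc2 p hp h4))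
  obtain ⟨σ, hσ, hσ'⟩ : ∃ σ : ℤ, |σ| = 1 ∧ d3 * σ = q1 * q2 :=
    ⟨d3.sign, Int.abs_sign_of_ne_zero hd3, by rw [Int.mul_sign_self, hq]; push_cast; rfl⟩
  obtain ⟨η, hη⟩ := ZMod.intCast_surjective ((q1 : ZMod (a * q2))⁻¹)
  have hη' : (q1 : ZMod (a * q2)) * η = 1 := hη ▸ ZMod.coe_mul_inv_eq_one q1 (cop q1 hc1)
  let π : ZMod (a * q2) →+* ZMod a := ZMod.castHom (dvd_mul_right a q2) (ZMod a)
  have hπ : ∀ z, π z = (z.val : ZMod a) := fun z => by simp [π]
  let f1 : ZMod (a * q2) → ℂ := fun z =>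
    f (π z) * ZMod.stdAddChar (((σ * η * d1 : ℤ) : ZMod (a * q2)) * z)
  let f2 : ZMod (a * q2) → ℂ := fun z =>
    f (π z) * ZMod.stdAddChar (-(((σ * η * d2 : ℤ) : ZMod (a * q2)) * z))
  let h : ZMod (a * q2) → ℝ := fun x =>
    ‖1 / ((a * q2 : ℕ) : ℂ) * ∑ y, f1 (x * y) * conj (f2 y)‖ ^ 2
  have a0 : (0 : ℝ) < a := by exact_mod_cast NeZero.pos a
  have q2' : (0 : ℝ) < q2 := by exact_mod_cast Nat.pos_of_ne_zero q20
  have hF : 0 ≤ F := (norm_nonneg _).trans (hf.sup 0)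
  have hb : ∀ x, 0 ≤ h x ∧ h x ≤ F ^ 4 := fun x => ⟨sq_nonneg _, by
    rw [show F ^ 4 = (F ^ 2) ^ 2 by ring]
    refine pow_le_pow_left₀ (norm_nonneg _) ?_ 2
    rw [norm_mul, norm_div, norm_one, Complex.norm_natCast, one_div,
      inv_mul_le_iff₀ (by push_cast; positivity)]
    refine (norm_sum_le _ _).trans ((sum_le_card_nsmul _ _ (F ^ 2) fun y _ => ?_).trans
      (by rw [card_univ, ZMod.card, nsmul_eq_mul]))
    simp only [f1, f2, norm_mul, Complex.norm_conj, norm_psi, mul_one, sq]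
    exact mul_le_mul (hf.sup _) (hf.sup _) (norm_nonneg _) hF⟩
  have key : ∀ p ∈ Pc a K, ∀ r : ℤ, d1 * p.1 + d2 * p.2 + d3 * r = 0 →
      G3 f p.1 p.2 r = h ((p.1 : ZMod (a * q2)) * (p.2 : ZMod (a * q2))⁻¹) := by
    rintro ⟨k, k'⟩ hp r hr
    have hk := cop k' (mem_filter.1 hp).2.2
    have hu : IsUnit (k' : ZMod (a * q2)) := (ZMod.isUnit_iff_coprime _ _).2 hk
    simp only at hr
    have e1 : (q2 : ZMod (a * q2)) * -r = σ * η * d1 * k + σ * η * d2 * k' := by
      have e2 : ((d1 * k + d2 * k' + d3 * r : ℤ) : ZMod (a * q2)) = 0 := by rw [hr, Int.cast_zero]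
      have e3 : ((d3 * σ : ℤ) : ZMod (a * q2)) = ((q1 * q2 : ℤ) : ZMod (a * q2)) := by rw [hσ']
      push_cast at e2 e3
      linear_combination (q2 * r : ZMod (a * q2)) * hη' - σ * η * e2 + η * r * e3
    simp only [G3, h, wh]
    congr 2
    rw [← Equiv.sum_comp (Units.mulLeft hu.unit) fun y => f1 (k * (k' : ZMod (a * q2))⁻¹ * y) *
      conj (f2 y)]
    have e4 := sum_pi a q2 fun y => ww f k k' y * ZMod.stdAddChar (-((r : ZMod a) * y))
    have e5 : ∀ z : ZMod (a * q2), f1 (k * (k' : ZMod (a * q2))⁻¹ * (Units.mulLeft hu.unit) z) *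
        conj (f2 ((Units.mulLeft hu.unit) z)) =
        ww f k k' (z.val : ZMod a) * ZMod.stdAddChar (-((r : ZMod a) * (z.val : ZMod a))) := by
      intro z
      have e6 : (Units.mulLeft hu.unit) z = k' * z := rfl
      have e7 : k * (k' : ZMod (a * q2))⁻¹ * (k' * z) = k * z := by
        rw [mul_assoc, ← mul_assoc _ _ z, ZMod.inv_mul_of_unit _ hu, one_mul]
      have e8 := psi_lift a q2 (-(r * z.val))
      push_cast at e8
      rw [e6, e7, e8, ZMod.natCast_zmod_val, ← hπ]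
      simp only [f1, f2, ww, map_mul, map_natCast, ← AddChar.map_neg_eq_conj, neg_neg]
      rw [show (q2 : ZMod (a * q2)) * -(r * z) = ((σ * η * d1 : ℤ) : ZMod (a * q2)) * (k * z) +
        ((σ * η * d2 : ℤ) : ZMod (a * q2)) * (k' * z) by push_cast; linear_combination z * e1, AddChar.map_add_eq_mul]
      ring
    rw [sum_congr rfl fun z _ => e5 z, e4]
    have : (q2 : ℂ) ≠ 0 := by exact_mod_cast q20
    push_cast
    field_simp
  have hs : ∑ x ∈ univ.filter IsUnit, h x ≤ τ ^ 2 * (a * q2) := by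
    have h3 := h1 (a * q2) f1 f2 (τ * (a * q2)) (fun y hy => by
      simp only [f2]
      rw [hf.zero _ fun h0 => hy ?_, zero_mul]
      rw [← ZMod.natCast_zmod_val y]
      exact (ZMod.isUnit_iff_coprime _ _).2 (cop _ ((ZMod.isUnit_iff_coprime _ _).1 (hπ y ▸ h0))))
      fun χ => by
        have h4 := hf.cf (fun y => fm a q2 χ (-(σ * η * d1)) y.val) ⟨q1, q2, -(σ * d1), _, χ,
          Nat.pos_of_ne_zero q10, Nat.pos_of_ne_zero q20, hρ, by rwa [abs_neg, abs_mul, hσ, one_mul],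
          by
            rw [← ZMod.intCast_zmod_eq_zero_iff_dvd]
            push_cast
            linear_combination (-(σ * d1) : ZMod (a * q2)) * hη', fun _ => rfl⟩
        have e1 : ∑ z, f1 z * conj (χ z) =
            q2 * ∑ y, f y * conj (fm a q2 χ (-(σ * η * d1)) y.val) := by
          have e2 := sum_lift a q2 fun m => f1 m * conj (χ m)
          simp only [ZMod.natCast_zmod_val] at e2
          rw [e2, mul_sum]
          refine sum_congr rfl fun b _ => ?_
          have : (q2 : ℂ) ≠ 0 := by exact_mod_cast q20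
          rw [fm, map_mul, map_sum, map_div₀, map_one, Complex.conj_natCast, mul_left_comm,
            ← mul_assoc (q2 : ℂ), mul_one_div_cancel this, one_mul, mul_sum]
          refine sum_congr rfl fun i _ => ?_
          have e3 := RowP.std_eq (a * q2) (-(σ * η * d1) * (b.val + a * i : ℕ))
          rw [Int.cast_mul (α := ℝ), Int.cast_natCast] at e3
          rw [← e3, map_mul, ← AddChar.map_neg_eq_conj]
          simp only [f1, map_natCast]
          rw [show ((b.val + a * i : ℕ) : ZMod a) = b by simp, Int.cast_mul (-(σ * η * d1)),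
            Int.cast_natCast, Int.cast_neg, neg_mul, neg_neg]
          ring
        rw [e1, norm_mul, Complex.norm_natCast]
        calc _ ≤ q2 * (τ * a) := by gcongr
          _ = _ := by ring
    have h4 : ∑ y, ‖f2 y‖ ^ 2 ≤ a * q2 := by
      have e1 := sum_pi a q2 fun y => ((‖f y‖ ^ 2 : ℝ) : ℂ)
      have e2 : ∑ z : ZMod (a * q2), ‖f (z.val : ZMod a)‖ ^ 2 = q2 * ∑ y, ‖f y‖ ^ 2 := by
        exact_mod_cast e1
      simp only [f2, norm_mul, norm_psi, mul_one, hπ]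
      rw [e2, mul_comm]
      exact mul_le_mul_of_nonneg_right hf.l2 q2'.le
    simp only [h, norm_mul, mul_pow, norm_div, norm_one, Complex.norm_natCast]
    rw [← mul_sum]
    push_cast
    calc _ ≤ (1 / (a * q2 : ℝ)) ^ 2 * ((τ * (a * q2)) ^ 2 * (a * q2)) := by
          gcongr
          exact h3.trans (by gcongr)
      _ = _ := by field_simp
  have h5 := (h2 K g0 hg).2 (a * q2) h (F ^ 4) hb
  refine le_trans (sum_le_sum fun p hp => (?_ : _ ≤ h ((p.1 : ZMod (a * q2)) *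
    (p.2 : ZMod (a * q2))⁻¹))) ((sum_le_sum_of_subset_of_nonneg (fun p hp => ?_)
      fun _ _ _ => (hb _).1).trans (h5.trans (add_le_add ?_ le_rfl)))
  · rw [sum_congr rfl fun r hr => key p hp r (mem_filter.1 hr).2, sum_const, nsmul_eq_mul]
    refine mul_le_of_le_one_left (hb _).1 ?_
    exact_mod_cast card_le_one.2 fun r hr s hs => mul_left_cancel₀ hd3
      (by linarith [(mem_filter.1 hr).2, (mem_filter.1 hs).2])
  · obtain ⟨h6, h7, h8⟩ := mem_filter.1 hp
    exact mem_filter.2 ⟨h6, cop _ h7, cop _ h8⟩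
  · have h6 : (q2 : ℝ) ≤ ρ := by
      exact_mod_cast (Nat.le_mul_of_pos_left q2 (Nat.pos_of_ne_zero q10)).trans hρ
    push_cast
    calc _ ≤ (g0 + 16 * (K : ℝ) ^ 2 / (a * q2)) * (τ ^ 2 * (a * q2)) := by gcongr
      _ = (g0 * q2 * a + 16 * (K : ℝ) ^ 2) * τ ^ 2 := by field_simp
      _ ≤ _ := by gcongr

end Pool.Agent.P.MP_746f10_nt.AP
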