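import Pool.Agent.P.MP_746f10_nt.AP.QBase
import Pool.Agent.P.MP_746f10_nt.AP.Red

/-! Reduction of the theorem for general moduli to the comparison of primes with the model. -/

namespace Pool.Agent.P.MP_746f10_nt.AP

open Finset Filter

namespace QRedP

open RedP

theorem step {m : ℕ} (J : Fin (m + 1)) (a : Fin (m + 1) → ℕ) (Q : ℕ)
    (BB : Finset (Fin (m + 1) → ℕ)) (hB : BB ⊆ Fintype.piFinset fun i => Ico 1 (a i))
    (hc : ∀ b ∈ BB, (b J).Coprime (a J))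
    (G G' : Fin (m + 1) → ℕ → ℝ) (Bad : ℕ → ℝ) {δ ρ η : ℝ} (hδ : 0 ≤ δ) (hρ : 0 ≤ ρ)
    (hG : ∀ i, G (J.succAbove i) = G' (J.succAbove i)) (h01 : ∀ i x, 0 ≤ G' i x ∧ G' i x ≤ 1)
    (hrow : ∀ i n, Q ≤ n → ∑ b ∈ Ico 1 (a i), G' i (a i * n + b) ≤ ρ * a i)
    (h0 : ∀ n, 0 ≤ Bad n) (h1 : ∑ n ∈ Ico Q (2 * Q), Bad n ≤ η * a J)
    (h : ∀ u v : ℕ → ℝ, (∀ n, 0 ≤ u n ∧ u n ≤ 1) → (∀ b, 0 ≤ v b ∧ v b ≤ 1) →
      (∀ b, v b ≠ 0 → b.Coprime (a J)) →
      Br (a J) Q (G J) u v ≤ Br (a J) Q (G' J) u v + δ * a J + ∑ n ∈ Ico Q (2 * Q), u n * Bad n) :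
    ∑ b ∈ BB, ∑ n ∈ Ico Q (2 * Q), ∏ i, G i (a i * n + b i) ≤
      ∑ b ∈ BB, ∑ n ∈ Ico Q (2 * Q), ∏ i, G' i (a i * n + b i) +
        (δ + η * ρ ^ m) * ∏ i, (a i : ℝ) := by
  rw [key J a Q BB hB G, key J a Q BB hB G']
  simp only [hG]
  refine (sum_le_sum fun b _ => h _ _ (fun n => ⟨prod_nonneg fun i _ => (h01 _ _).1,
    prod_le_one (fun i _ => (h01 _ _).1) fun i _ => (h01 _ _).2⟩)
    (fun x => by split_ifs <;> norm_num) (fun x hx => ?_)).trans ?_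
  · have h2 : J.insertNth x b ∈ BB := by
      by_contra h3
      exact hx (if_neg h3)
    have h3 := hc _ h2
    rwa [Fin.insertNth_apply_same] at h3
  rw [sum_add_distrib, sum_add_distrib, add_assoc, Fin.prod_univ_succAbove _ J, add_mul]
  refine add_le_add le_rfl (add_le_add ?_ ?_)
  · rw [sum_const, Fintype.card_piFinset, nsmul_eq_mul, mul_comm, mul_assoc, Nat.cast_prod]
    gcongr with i
    rw [Nat.card_Ico]
    exact Nat.sub_le _ _
  · rw [sum_comm]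
    calc _ ≤ ∑ n ∈ Ico Q (2 * Q), (∏ i, ρ * a (J.succAbove i)) * Bad n := by
          refine sum_le_sum fun n hn => ?_
          rw [← sum_mul, ← prod_univ_sum (fun i => Ico 1 (a (J.succAbove i)))
            fun i x => G' (J.succAbove i) (a (J.succAbove i) * n + x)]
          exact mul_le_mul_of_nonneg_right (prod_le_prod (fun i _ => sum_nonneg fun _ _ =>
            (h01 _ _).1) fun i _ => hrow _ n (mem_Ico.1 hn).1) (h0 n)
      _ ≤ (∏ i, ρ * a (J.succAbove i)) * (η * a J) := by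
          rw [← mul_sum]
          exact mul_le_mul_of_nonneg_left h1 (prod_nonneg fun i _ => by positivity)
      _ = _ := by rw [prod_mul_distrib, prod_const, card_univ, Fintype.card_fin]; ring

/-- the hybrid factors -/
noncomputable def FG (Q w : ℕ) {k : ℕ} (j : ℕ) (i : Fin k) (m : ℕ) : ℝ :=
  if i.val < j then kap Q w / 2 * rr w m else pr1 m

theorem chain {k Q w : ℕ} (a : Fin k → ℕ) (BB : Finset (Fin k → ℕ))
    (hB : BB ⊆ Fintype.piFinset fun i => Ico 1 (a i)) (hc : ∀ b ∈ BB, ∀ i, (b i).Coprime (a i))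
    {C ε : ℝ} (hC : 1 ≤ C) (hε : 0 ≤ ε) (hg : 1 ≤ lg Q) (hk : kap Q w ≤ 1)
    (hrow : ∀ i n, Q ≤ n → ∑ b ∈ Ico 1 (a i), rr w (a i * n + b) ≤ 5 / 4 * VV w * a i ∧
      ∑ b ∈ Ico 1 (a i), pr1 (a i * n + b) ≤ C * a i / lg Q)
    (h : ∀ i, ∃ Bad : ℕ → ℝ, (∀ n, 0 ≤ Bad n) ∧
      ∑ n ∈ Ico Q (2 * Q), Bad n ≤ ε * a i * Q / lg Q ∧
      ∀ u v : ℕ → ℝ, (∀ n, 0 ≤ u n ∧ u n ≤ 1) → (∀ b, 0 ≤ v b ∧ v b ≤ 1) →
        (∀ b, v b ≠ 0 → b.Coprime (a i)) → kap Q w / 2 * Br (a i) Q (rr w) u v ≤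
          Br (a i) Q pr1 u v + a i * Q / (lg Q : ℝ) ^ (k + 1) +
            ∑ n ∈ Ico Q (2 * Q), u n * Bad n) (j : ℕ) (hj : j ≤ k) :
    ∑ b ∈ BB, ∑ n ∈ Ico Q (2 * Q), ∏ i, FG Q w j i (a i * n + b i) ≤
      ∑ b ∈ BB, ∑ n ∈ Ico Q (2 * Q), ∏ i, FG Q w 0 i (a i * n + b i) +
        j * ((Q / (lg Q : ℝ) ^ k * (1 / lg Q + ε * C ^ k)) * ∏ i, (a i : ℝ)) := by
  have g0 : (0 : ℝ) < lg Q := by exact_mod_cast hg
  have v0 := VV_pos w
  have k0 : 0 ≤ kap Q w / 2 := div_nonneg (kap_nonneg Q w) zero_le_two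
  have k1 : kap Q w / 2 ≤ 1 := by linarith
  induction j with
  | zero => simp
  | succ j ih =>
    obtain ⟨m, rfl⟩ : ∃ m, k = m + 1 := ⟨k - 1, by omega⟩
    obtain ⟨Bad, h0, h1, h2⟩ := h ⟨j, hj⟩
    have := step ⟨j, hj⟩ a Q BB hB (fun b hb => hc b hb _) (FG Q w (j + 1)) (FG Q w j) Bad
      (δ := Q / (lg Q : ℝ) ^ (m + 1 + 1)) (ρ := C / lg Q) (η := ε * Q / lg Q) (by positivity)
      (by positivity) (fun i => ?_) (fun i x => ?_) (fun i n hn => ?_) h0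
      (h1.trans_eq (by ring)) fun u v hu hv hv' => ?_
    · refine this.trans ((add_le_add (ih (by omega)) le_rfl).trans ?_)
      rw [add_assoc, Nat.cast_succ, add_one_mul]
      gcongr
      have h3 : C ^ m ≤ C ^ (m + 1) := pow_le_pow_right₀ hC m.le_succ
      calc _ = Q / (lg Q : ℝ) ^ (m + 1) * (1 / lg Q + ε * C ^ m) := by
            rw [div_pow]; field_simp; ring
        _ ≤ _ := by gcongr
    · have : ((⟨j, hj⟩ : Fin (m + 1)).succAbove i).val ≠ j := fun e =>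
        Fin.succAbove_ne _ i (Fin.ext e)
      funext x
      exact if_congr (by omega) rfl rfl
    · unfold FG
      split_ifs
      exacts [⟨mul_nonneg k0 (rr_bd _ _).1, mul_le_one₀ k1 (rr_bd _ _).1 (rr_bd _ _).2⟩, pr1_bd _]
    · by_cases h3 : i.val < j
      · simp only [FG, if_pos h3, ← mul_sum]
        calc _ ≤ kap Q w / 2 * (5 / 4 * VV w * a i) := by gcongr; exact (hrow i n hn).1
          _ = 5 / 32 / lg Q * a i := by unfold kap; field_simp; ring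
          _ ≤ _ := by gcongr; linarith
      · simp only [FG, if_neg h3]
        exact (hrow i n hn).2.trans_eq (by ring)
    · have e1 : FG Q w (j + 1) (⟨j, hj⟩ : Fin (m + 1)) = fun x => kap Q w / 2 * rr w x :=
        funext fun x => if_pos j.lt_succ_self
      have e2 : FG Q w j (⟨j, hj⟩ : Fin (m + 1)) = pr1 := funext fun x => if_neg (lt_irrefl j)
      rw [e1, e2]
      refine le_of_eq_of_le ?_ ((h2 u v hu hv hv').trans_eq (by ring))
      simp only [Br, mul_sum, mul_assoc]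

theorem adm_cop {k : ℕ} {a b : Fin k → ℕ} (h : Adm a b) (i : Fin k) : (b i).Coprime (a i) := by
  refine Nat.coprime_of_dvd fun p hp h1 h2 => ?_
  obtain ⟨n, hn⟩ := h p hp
  exact hn i (dvd_add (h2.mul_right n) h1)

end QRedP

open RedP QRedP in
theorem qMain (h1 : T_KP) (h2 : T_Pos) (h3 : S_Rows) : T_Main := by
  classical
  intro k
  obtain ⟨c0, c0p, h2⟩ := h2 k
  obtain ⟨C, hC, h3⟩ := h3
  refine ⟨c0 / (2 * 16 ^ k), by positivity, fun ε hε => ?_⟩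
  obtain ⟨C1, Cw, h1⟩ := h1 (ε * c0 / (4 * 8 ^ k * (k + 1) * C ^ k)) (k + 1) (by positivity)
  obtain ⟨Q2, h2⟩ := h2 Cw
  obtain ⟨Q3, h3⟩ := h3 Cw
  obtain ⟨Q4, h4⟩ := ev_lg ((eventually_ge_atTop 4).and
    (eventually_ge_atTop ⌈4 * 8 ^ k * (k + 1) / (c0 * ε)⌉₊))
  refine ⟨2 * C1, fun A => ?_⟩
  obtain ⟨Q1, h1⟩ := h1 A
  refine ⟨Q1 + Q2 + Q3 + Q4 + 1, fun Q hQ => ?_⟩
  obtain ⟨E, w, e1, e2, w2, w3, h1⟩ := h1 Q (by omega)
  obtain ⟨g4, h4⟩ := h4 Q (by omega)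
  obtain ⟨k1, h3⟩ := h3 Q w (by omega) (by nlinarith) w3
  have g0 : (4 : ℝ) ≤ lg Q := by exact_mod_cast g4
  have l1 := lg_le_log (Q := Q) (by omega)
  have l2 := log_le_lg (Q := Q) (by omega)
  have q0 : (0 : ℝ) < Q := by exact_mod_cast (show 0 < Q by omega)
  refine ⟨E, ?_, fun r hr => ?_, fun a ha => ?_⟩
  · calc (E.card : ℝ) ≤ (lg Q : ℝ) ^ C1 := by exact_mod_cast e1
      _ ≤ (Real.log Q ^ 2) ^ C1 := by gcongr; nlinarith
      _ = _ := by rw [← pow_mul]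
  · calc Real.log Q ^ A ≤ (lg Q : ℝ) ^ A := pow_le_pow_left₀ (by linarith) l2 A
      _ < r := by exact_mod_cast e2 r hr
  generalize hB : @Finset.filter (Fin k → ℕ) _ (_) _ = BB
  have a1 : ∀ i, 1 ≤ a i := fun i => le_trans (by omega) (ha i).1
  have a2 : ∀ i, a i ≤ Q ^ 2 := fun i => by
    have h5 : Q ^ 3 ≤ (Q ^ 2) ^ 2 := by
      rw [← pow_mul]
      exact Nat.pow_le_pow_right (by omega) (by norm_num)
    exact (Nat.pow_le_pow_iff_left two_ne_zero).1 ((ha i).2.1.trans h5)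
  have t0 : ∀ i, (0 : ℝ) < (a i).totient := fun i => by
    exact_mod_cast Nat.totient_pos.2 (a1 i)
  have h5 := QRedP.chain a BB (hB ▸ filter_subset _ _)
    (fun b hb => adm_cop (mem_filter.1 (hB ▸ hb)).2.1) hC (by positivity) (by omega) k1
    (fun i n hn => h3 _ n (ha i).1 hn)
    (fun i => h1 _ (ha i).1 (ha i).2.1 (ha i).2.2) k le_rfl
  have v0 := VV_pos w
  have e3 : ∏ i, (a i : ℝ) = (∏ i, (a i : ℝ) / (a i).totient) * ∏ i, ((a i).totient : ℝ) := by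
    rw [← prod_mul_distrib]
    exact prod_congr rfl fun i _ => (div_mul_cancel₀ _ (t0 i).ne').symm
  have p1 : 0 < ∏ i, (a i : ℝ) / (a i).totient :=
    prod_pos fun i _ => div_pos (by exact_mod_cast a1 i) (t0 i)
  have p0 : 0 < ∏ i, ((a i).totient : ℝ) := prod_pos fun i _ => t0 i
  have h6 : BB.card * (c0 * (∏ i, (a i : ℝ) / (a i).totient) * Q / (8 * lg Q) ^ k) ≤
      ∑ b ∈ BB, ∑ n ∈ Ico Q (2 * Q), ∏ i, FG Q w k i (a i * n + b i) := by
    rw [← nsmul_eq_mul]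
    refine card_nsmul_le_sum _ _ _ fun b hb => ?_
    have := h2 Q w a b (by omega) w2 w3 (fun i => ⟨a1 i, a2 i⟩) (mem_filter.1 (hB ▸ hb)).2.1
    simp only [FG, Fin.is_lt, if_true, prod_mul_distrib, prod_const, card_univ, Fintype.card_fin,
      ← mul_sum]
    refine le_of_eq_of_le ?_ (mul_le_mul_of_nonneg_left this
      (pow_nonneg (div_nonneg (kap_nonneg Q w) zero_le_two) k))
    generalize ∏ i, (a i : ℝ) / (a i).totient = P
    have e4 : kap Q w / 2 = 1 / (8 * lg Q * VV w) := by unfold kap; field_simp; ring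
    rw [e4, one_div_pow, mul_pow _ (VV w)]
    field_simp
  have h7 : ∑ b ∈ BB, ∑ n ∈ Ico Q (2 * Q), ∏ i, FG Q w 0 i (a i * n + b i) ≤
      BB.card * (c0 * (∏ i, (a i : ℝ) / (a i).totient) * Q / (8 * lg Q) ^ k / 2) := by
    rw [← nsmul_eq_mul]
    refine sum_le_card_nsmul _ _ _ fun b hb => ?_
    have := (mem_filter.1 (hB ▸ hb)).2.2
    simp only [FG, Nat.not_lt_zero, if_false, pr1, prod_boole, mem_univ, forall_true_left,
      sum_boole]
    refine le_trans (by convert this.le) ?_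
    generalize ∏ i, (a i : ℝ) / (a i).totient = P at p1
    calc _ ≤ c0 / (2 * 16 ^ k) * P * Q / (lg Q / 2 : ℝ) ^ k := by gcongr
      _ = _ := by
        rw [show (16 : ℝ) = 8 * 2 by norm_num, mul_pow, mul_pow, div_pow]
        field_simp
  rw [e3] at h5
  generalize ∏ i, (a i : ℝ) / (a i).totient = P at *
  generalize ∏ i, ((a i).totient : ℝ) = T at *
  have h8 : 4 * 8 ^ k * (k + 1) / (c0 * ε) ≤ (lg Q : ℝ) := Nat.ceil_le.1 h4
  rw [div_le_iff₀ (by positivity)] at h8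
  have h9 : (k : ℝ) * (1 / lg Q + ε * c0 / (4 * 8 ^ k * (k + 1) * C ^ k) * C ^ k) ≤
      ε * c0 / (2 * 8 ^ k) := by
    have e : (1 : ℝ) / lg Q ≤ ε * c0 / (4 * 8 ^ k * (k + 1)) := by
      rw [div_le_div_iff₀ (by positivity) (by positivity)]
      linarith
    calc _ ≤ ((k : ℝ) + 1) * (ε * c0 / (4 * 8 ^ k * (k + 1)) +
          ε * c0 / (4 * 8 ^ k * (k + 1) * C ^ k) * C ^ k) := by gcongr; linarith
      _ = _ := by field_simp; ring
  refine le_of_mul_le_mul_right (a := c0 * P * Q / (8 * lg Q) ^ k / 2) ?_ (by positivity)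
  calc _ ≤ k * ((Q / (lg Q : ℝ) ^ k * (1 / lg Q + ε * c0 / (4 * 8 ^ k * (k + 1) * C ^ k) * C ^ k)) *
        (P * T)) := by linarith
    _ = (k * (1 / lg Q + ε * c0 / (4 * 8 ^ k * (k + 1) * C ^ k) * C ^ k)) *
        (Q / (lg Q : ℝ) ^ k * (P * T)) := by ring
    _ ≤ ε * c0 / (2 * 8 ^ k) * (Q / (lg Q : ℝ) ^ k * (P * T)) := by gcongr
    _ = _ := by rw [mul_pow]; field_simp

end Pool.Agent.P.MP_746f10_nt.AP
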