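import Pool.Agent.P.MP_746f10_nt.AP.QBase
import Pool.Agent.P.MP_746f10_nt.AP.Row

/-! Reduction of a major bilinear form to short sums twisted by characters, general modulus. -/

namespace Pool.Agent.P.MP_746f10_nt.AP

open Finset
open Pool.Agent.P.MP_0ad054_nt (e e_add e_add_int norm_e)

namespace QRowP

theorem fm_add {a q : ℕ} [NeZero a] (hq : 1 ≤ q) (χ : DirichletCharacter ℂ (a * q)) (ξ : ℤ)
    (m : ℕ) : fm a q χ ξ (m + a) = fm a q χ ξ m := by
  let g : ℕ → ℂ := fun i =>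
    χ ((m + a * i : ℕ) : ZMod (a * q)) * e ((ξ : ℝ) * (m + a * i : ℕ) / (a * q : ℕ))
  have h0 : ((a * q : ℕ) : ℝ) ≠ 0 := by
    exact_mod_cast Nat.mul_ne_zero (NeZero.ne a) (by omega)
  have h1 : g q = g 0 := by
    simp only [g, mul_zero, add_zero]
    rw [Nat.cast_add m, ZMod.natCast_self, add_zero, Nat.cast_add m, mul_add, add_div,
      mul_div_cancel_right₀ _ h0, e_add_int]
  have h2 := sum_range_succ' g q
  rw [sum_range_succ, h1, add_left_inj] at h2
  unfold fm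
  congr 1
  refine Eq.trans (sum_congr rfl fun i _ => ?_) h2.symm
  simp only [g, mul_add a, mul_one, add_assoc, add_comm a]

theorem fm_row {a q : ℕ} [NeZero a] (hq : 1 ≤ q) (χ : DirichletCharacter ℂ (a * q)) (ξ : ℤ)
    (n b : ℕ) : fm a q χ ξ (a * n + b) = fm a q χ ξ b := by
  induction n with
  | zero => rw [mul_zero, zero_add]
  | succ n ih => rw [mul_add, mul_one, add_right_comm, fm_add hq, ih]

/-- product of two characters of different levels -/
theorem lift {M q L : ℕ} (hM : M ∣ L) (hq : q ∣ L)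
    (h : ∀ m : ℕ, m.Coprime M → m.Coprime q → m.Coprime L) (χ : DirichletCharacter ℂ M)
    (ψ : DirichletCharacter ℂ q) :
    ∃ κ : DirichletCharacter ℂ L, ∀ m : ℕ, κ m = χ m * ψ m := by
  refine ⟨DirichletCharacter.changeLevel hM χ * DirichletCharacter.changeLevel hq ψ, fun m => ?_⟩
  by_cases h0 : m.Coprime L
  · have h1 : IsCoprime (m : ℤ) L := Nat.isCoprime_iff_coprime.2 h0
    have e1 := DirichletCharacter.changeLevel_eq_cast_of_dvd' χ hM h1
    have e2 := DirichletCharacter.changeLevel_eq_cast_of_dvd' ψ hq h1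
    rw [Int.cast_natCast, Int.cast_natCast] at e1 e2
    rw [MulChar.mul_apply, e1, e2]
  · rw [MulChar.map_nonunit _ fun h1 => h0 ((ZMod.isUnit_iff_coprime _ _).1 h1)]
    by_cases h1 : m.Coprime M
    · rw [ψ.map_nonunit fun h2 => h0 (h m h1 ((ZMod.isUnit_iff_coprime _ _).1 h2)), mul_zero]
    · rw [χ.map_nonunit fun h2 => h1 ((ZMod.isUnit_iff_coprime _ _).1 h2), zero_mul]

/-- the shifted character is the character times a function of the class modulo `q1 * q2` -/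
theorem twist {a q1 q2 : ℕ} [NeZero (q1 * q2)] (χ : DirichletCharacter ℂ (a * q2)) (s : ℤ)
    (i : ℕ) : ∃ th : ZMod (q1 * q2) → ℂ, (∀ y, ‖th y‖ ≤ 1) ∧ ∀ m : ℕ, m.Coprime (q1 * q2) →
      χ ((m + a * i : ℕ) : ZMod (a * q2)) * e ((s : ℝ) * (m + a * i : ℕ) / q1) = χ m * th m := by
  refine ⟨fun y => χ ((1 + a * i * (y⁻¹).val : ℕ) : ZMod (a * q2)) *
    e ((s : ℝ) * (y.val + a * i : ℕ) / q1), fun y => ?_, fun m hm => ?_⟩
  · rw [norm_mul, norm_e, mul_one]
    exact χ.norm_le_one _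
  have h0 : (q1 : ℝ) ≠ 0 := by exact_mod_cast left_ne_zero_of_mul (NeZero.ne (q1 * q2))
  have h1 : m * ((m : ZMod (q1 * q2))⁻¹).val ≡ 1 [MOD q1 * q2] := by
    rw [← ZMod.natCast_eq_natCast_iff, Nat.cast_mul, ZMod.natCast_zmod_val, Nat.cast_one]
    exact ZMod.coe_mul_inv_eq_one m hm
  have h2 : m * (1 + a * i * ((m : ZMod (q1 * q2))⁻¹).val) ≡ m + a * i [MOD a * q2] := by
    have h3 := ((h1.of_mul_left q1).mul_left i).mul_left' (c := a)
    rw [mul_one] at h3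
    have h4 := h3.add_left m
    rwa [show m + a * (i * (m * ((m : ZMod (q1 * q2))⁻¹).val)) =
      m * (1 + a * i * ((m : ZMod (q1 * q2))⁻¹).val) by ring] at h4
  rw [← mul_assoc, ← map_mul, ← Nat.cast_mul, (ZMod.natCast_eq_natCast_iff _ _ _).2 h2,
    ZMod.val_natCast]
  congr 1
  rw [← e_add_int ((s : ℝ) * (m % (q1 * q2) + a * i : ℕ) / q1) (s * (q2 * (m / (q1 * q2)) : ℕ))]
  congr 1
  have h3 : (m : ℝ) = (m % (q1 * q2) : ℕ) + q1 * q2 * (m / (q1 * q2) : ℕ) := by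
    exact_mod_cast (Nat.mod_add_div m (q1 * q2)).symm
  rw [Int.cast_mul, Int.cast_natCast, Nat.cast_add, Nat.cast_add, Nat.cast_mul q2]
  generalize ((m % (q1 * q2) : ℕ) : ℝ) = x at h3 ⊢
  generalize ((m / (q1 * q2) : ℕ) : ℝ) = y at h3 ⊢
  rw [h3]
  field_simp
  ring

/-- all rows -/
theorem rows {G u : ℕ → ℂ} {B θ ρ W : ℝ} {a N R : ℕ} (hN : 1 ≤ N) (hR : 1 ≤ R) (hRa : R ≤ a)
    (hu : ∀ n, ‖u n‖ ≤ 1) (hG : ∀ m, m ≤ 8 * (a * N) → ‖G m‖ ≤ B) (hθ : |θ| * a ≤ ρ) (hρ : 1 ≤ ρ)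
    (hW : ∑ x ∈ Ico (a * N) (2 * (a * N)), ‖∑ j ∈ range R, G (x + j)‖ ≤ W) :
    ‖∑ n ∈ Ico N (2 * N), u n * ∑ b ∈ range a, G (a * n + b) * e (θ * (a * n + b : ℕ))‖ ≤
      W / R + 10 * B * ρ * R * N := by
  have hR0 : (0 : ℝ) < R := by exact_mod_cast hR
  have h1 : ∀ n ∈ Ico N (2 * N),
      R * ‖u n * ∑ b ∈ range a, G (a * n + b) * e (θ * (a * n + b : ℕ))‖ ≤
        ∑ b ∈ range a, ‖∑ j ∈ range R, G (a * n + b + j)‖ + 10 * B * ρ * R ^ 2 := by
    intro n hn
    have hn' := mem_Ico.1 hn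
    refine le_trans (mul_le_mul_of_nonneg_left ?_ hR0.le) (RowP.row (fun m hm => ?_) hθ hρ)
    · rw [norm_mul]
      exact mul_le_of_le_one_left (norm_nonneg _) (hu n)
    · have h2 : a * n ≤ a * (2 * N) := Nat.mul_le_mul_left _ hn'.2.le
      have h3 : a * 1 ≤ a * N := Nat.mul_le_mul_left _ hN
      exact hG m (by rw [mul_left_comm] at h2; omega)
  have h2 := sum_le_sum h1
  rw [← mul_sum, sum_add_distrib, sum_const, Nat.card_Ico, nsmul_eq_mul,
    show 2 * N - N = N by omega,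
    sum_rows a N (2 * N) (by omega) fun x => ‖∑ j ∈ range R, G (x + j)‖, mul_left_comm a 2] at h2
  refine le_of_mul_le_mul_left ?_ hR0
  rw [mul_add, mul_div_cancel₀ _ hR0.ne']
  have h4 := mul_le_mul_of_nonneg_left (norm_sum_le (Ico N (2 * N)) fun n =>
    u n * ∑ b ∈ range a, G (a * n + b) * e (θ * (a * n + b : ℕ))) hR0.le
  linarith

end QRowP

open QRowP

theorem qRow : T_Row := by
  refine ⟨10, by norm_num, fun a _ N w ρ R c u B0 Z φ hφ hw ha hN hR hRa hu hc hr hZ => ?_⟩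
  obtain ⟨q1, q2, r, ξ, χ, h1, h2, hq, hr1, ⟨s, hs⟩, hφ⟩ := hφ
  have h12 : 1 ≤ q1 * q2 := Nat.mul_pos h1 h2
  have : NeZero (q1 * q2) := ⟨by omega⟩
  have hq1 : (1 : ℝ) ≤ (q1 * q2 : ℕ) := by exact_mod_cast h12
  have hρ : ((q1 * q2 : ℕ) : ℝ) ≤ ρ := by exact_mod_cast hq
  have ha0 : (0 : ℝ) < a := by exact_mod_cast (by omega : 0 < a)
  have h10 : (0 : ℝ) < q1 := by exact_mod_cast h1
  have h20 : (0 : ℝ) < q2 := by exact_mod_cast h2
  let θ : ℝ := r / ((q1 * q2 : ℕ) * a)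
  have hθ : |θ| * a ≤ ρ := by
    have h3 : |(r : ℝ)| ≤ ρ := by exact_mod_cast hr1
    rw [abs_div, abs_of_pos (show (0 : ℝ) < (q1 * q2 : ℕ) * a by positivity), div_mul_eq_mul_div,
      mul_div_mul_right _ _ ha0.ne']
    exact (div_le_self (abs_nonneg _) hq1).trans h3
  choose κ hκ using lift (M := a * q2) (q := q1 * q2) (L := a * (q1 * q2))
    (Nat.mul_dvd_mul_left a (Dvd.intro_left q1 rfl)) (Dvd.intro_left a rfl)
    (fun m x y => Nat.Coprime.mul_right x.coprime_mul_right_right y) χ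
  let G : ℕ → ℕ → ℂ := fun i m => e (θ * (a * i : ℕ)) * (c m *
    (χ ((m + a * i : ℕ) : ZMod (a * q2)) * e ((s : ℝ) * (m + a * i : ℕ) / q1)))
  have hZ0 : 0 ≤ Z := (sum_nonneg fun _ _ => norm_nonneg _).trans (hZ _ 1 h12 hq)
  have key : ∀ i ∈ range q2,
      ‖∑ n ∈ Ico N (2 * N), u n * ∑ b ∈ range a, G i (a * n + b) * e (θ * (a * n + b : ℕ))‖ ≤
        ρ * Z / R + 10 * B0 * ρ * R * N := fun i _ => by
    refine rows hN hR hRa hu (fun m hm => ?_) hθ (hq1.trans hρ) ?_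
    · simp only [G, norm_mul, norm_e, one_mul, mul_one]
      exact (mul_le_of_le_one_right (norm_nonneg _) (χ.norm_le_one _)).trans (hc m hm)
    obtain ⟨th, t1, t2⟩ := twist χ s i (q1 := q1)
    obtain ⟨co, c1, c2⟩ := RowP.expand (q1 * q2) th t1
    have hG : ∀ m, G i m = ∑ ψ, e (θ * (a * i : ℕ)) * co ψ * (c m * κ ψ m) := fun m => by
      by_cases h0 : c m = 0
      · simp [G, h0]
      have hm : m.Coprime (q1 * q2) := Nat.coprime_of_dvd fun p hp h3 h4 => by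
        have := hr m h0 p hp h3
        have := Nat.le_of_dvd h12 h4
        omega
      simp only [G, t2 m hm, c2 m ((ZMod.isUnit_iff_coprime m _).2 hm), mul_sum, hκ]
      exact sum_congr rfl fun ψ _ => by ring
    have h4 := sum_le_card_nsmul univ _ Z fun (ψ : DirichletCharacter ℂ (q1 * q2)) _ =>
      hZ _ (κ ψ) h12 hq
    rw [card_univ, ← Nat.card_eq_fintype_card,
      DirichletCharacter.card_eq_totient_of_hasEnoughRootsOfUnity, nsmul_eq_mul, sum_comm] at h4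
    have h5 : ((q1 * q2).totient : ℝ) ≤ ρ := by exact_mod_cast (Nat.totient_le _).trans hq
    refine le_trans (sum_le_sum fun x _ => ?_) (h4.trans (mul_le_mul_of_nonneg_right h5 hZ0))
    simp only [hG]
    rw [sum_comm]
    refine (norm_sum_le _ _).trans (sum_le_sum fun ψ _ => ?_)
    rw [← mul_sum, norm_mul, norm_mul, norm_e, one_mul]
    exact mul_le_of_le_one_left (norm_nonneg _) (c1 ψ)
  have e1 : ∀ z : ℕ, e ((ξ : ℝ) * z / (a * q2 : ℕ)) = e ((s : ℝ) * z / q1) * e (θ * z) := fun z => by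
    rw [← e_add]
    congr 1
    have h3 : (q1 : ℝ) * ξ - r = a * q2 * s := by exact_mod_cast hs
    simp only [θ]
    push_cast
    field_simp
    linear_combination z * h3
  have e2 : Bf a N c u (fun b => φ b) = 1 / (q2 : ℂ) * ∑ i ∈ range q2, ∑ n ∈ Ico N (2 * N),
      u n * ∑ b ∈ range a, G i (a * n + b) * e (θ * (a * n + b : ℕ)) := by
    unfold Bf
    rw [sum_comm (s := range q2), mul_sum]
    refine sum_congr rfl fun n _ => ?_
    have e3 : ∑ b ∈ Ico 1 a, c (a * n + b) * u n * φ b =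
        ∑ b ∈ range a, c (a * n + b) * u n * fm a q2 χ ξ (a * n + b) := by
      rw [range_eq_Ico, sum_eq_sum_Ico_succ_bot (a := 0) (by omega), fm_row h2,
        fm_eq_zero χ ξ (m := 0) (by rw [Nat.coprime_zero_left]; omega), mul_zero, zero_add]
      exact sum_congr rfl fun b hb => by
        rw [hφ, ZMod.val_cast_of_lt (mem_Ico.1 hb).2, fm_row h2]
    rw [e3, ← mul_sum, sum_comm, mul_sum, mul_sum]
    refine sum_congr rfl fun b _ => ?_
    unfold fm
    simp only [mul_sum]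
    refine sum_congr rfl fun i _ => ?_
    simp only [G, e1]
    rw [Nat.cast_add (R := ℝ) (a * n + b) (a * i), mul_add θ, e_add]
    ring
  rw [e2, norm_mul, norm_div, norm_one, Complex.norm_natCast, one_div, inv_mul_le_iff₀ h20]
  have h3 := sum_le_card_nsmul _ _ _ key
  rw [card_range, nsmul_eq_mul] at h3
  exact (norm_sum_le _ _).trans h3

end Pool.Agent.P.MP_746f10_nt.AP
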