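import Pool.Agent.P.MP_746f10_nt.AP.QBase

/-! Removal of the large coefficients of a bounded function by matching pursuit. -/

namespace Pool.Agent.P.MP_746f10_nt.AP

open Finset ComplexConjugate

namespace QSplitP

theorem pt (x c z : ℂ) (hz : ‖z‖ ≤ 1) :
    ‖x - c * z‖ ^ 2 ≤ ‖x‖ ^ 2 - 2 * (conj c * (x * conj z)).re + ‖c‖ ^ 2 := by
  have h1 : ‖c * z‖ ^ 2 ≤ ‖c‖ ^ 2 := by
    refine pow_le_pow_left₀ (norm_nonneg _) ?_ 2
    rw [norm_mul]
    exact mul_le_of_le_one_right (norm_nonneg _) hz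
  have h2 : conj c * (x * conj z) = x * conj (c * z) := by rw [map_mul]; ring
  rw [h2, ← Complex.normSq_eq_norm_sq, Complex.normSq_sub, Complex.normSq_eq_norm_sq,
    Complex.normSq_eq_norm_sq]
  linarith

theorem step {a : ℕ} [NeZero a] (f φ : ZMod a → ℂ) (hφ : ∀ y, ‖φ y‖ ≤ 1) {c : ℂ}
    (hc : c * a = ∑ y, f y * conj (φ y)) :
    ∑ y, ‖f y - c * φ y‖ ^ 2 ≤ ∑ y, ‖f y‖ ^ 2 - a * ‖c‖ ^ 2 := by
  refine (sum_le_sum fun y _ => pt (f y) c (φ y) (hφ y)).trans (le_of_eq ?_)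
  rw [sum_add_distrib, sum_sub_distrib, ← mul_sum, ← Complex.re_sum, ← mul_sum, ← hc, sum_const,
    card_univ, ZMod.card, nsmul_eq_mul, ← mul_assoc, Complex.conj_mul', ← Complex.ofReal_pow,
    ← Complex.ofReal_natCast, ← Complex.ofReal_mul, Complex.ofReal_re]
  ring

end QSplitP

open QSplitP in
theorem qSplit : T_Split := by
  intro a _ v S τ hτ hS hv h0
  by_contra hno
  have ha : (0 : ℝ) < a := Nat.cast_pos.2 (NeZero.pos a)
  have hn : ∀ (n : ℕ) (f : ZMod a → ℂ), ∑ y, ‖f y‖ ^ 2 ≤ a * (1 - n * τ ^ 2) →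
      (n : ℝ) ≤ 1 / τ ^ 2 := fun n f h => by
    have := (sum_nonneg fun y _ => sq_nonneg ‖f y‖).trans h
    rw [le_div_iff₀ (by positivity)]
    linarith [nonneg_of_mul_nonneg_right this ha]
  have key : ∀ n : ℕ, ∃ (φ : ℕ → ZMod a → ℂ) (cf : ℕ → ℂ) (f : ZMod a → ℂ),
      (∀ i, i < n → φ i ∈ S ∧ ‖cf i‖ ≤ 1) ∧ (∀ y, v y = f y + ∑ i ∈ range n, cf i * φ i y) ∧
      (∀ y, ¬ IsUnit y → f y = 0) ∧ (∀ y, ‖f y‖ ≤ 1 + n) ∧
      ∑ y, ‖f y‖ ^ 2 ≤ a * (1 - n * τ ^ 2) := by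
    intro n
    induction n with
    | zero =>
      refine ⟨0, 0, v, fun i hi => absurd hi (Nat.not_lt_zero i), fun y => by simp, h0,
        fun y => by simpa using hv y, ?_⟩
      refine (sum_le_card_nsmul _ _ 1 fun y _ => pow_le_one₀ (norm_nonneg _) (hv y)).trans ?_
      simp
    | succ n ih =>
      obtain ⟨φ, cf, f, h1, h2, h3, h4, h5⟩ := ih
      have h6 : ∑ y, ‖f y‖ ^ 2 ≤ a := h5.trans (mul_le_of_le_one_right ha.le (by
        have : (0 : ℝ) ≤ n * τ ^ 2 := by positivity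
        linarith))
      have h7 : ∃ ψ ∈ S, τ * a < ‖∑ y, f y * conj (ψ y)‖ := by
        by_contra h
        push Not at h
        exact hno ⟨n, φ, cf, f, hn n f h5, h1, h2, h3, h6, h4, h⟩
      obtain ⟨ψ, hψ, h7⟩ := h7
      obtain ⟨c, hc⟩ : ∃ c : ℂ, c * a = ∑ y, f y * conj (ψ y) :=
        ⟨_, div_mul_cancel₀ _ (by exact_mod_cast ha.ne')⟩
      have h8 := step f ψ (fun y => (hS ψ hψ y).1) hc
      rw [← hc, norm_mul, Complex.norm_natCast] at h7
      have h9 : τ ^ 2 ≤ ‖c‖ ^ 2 := pow_le_pow_left₀ hτ.le (lt_of_mul_lt_mul_right h7 ha.le).le 2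
      have hc1 : ‖c‖ ≤ 1 := by
        have := (sum_nonneg fun y _ => sq_nonneg ‖f y - c * ψ y‖).trans h8
        refine (sq_le_one_iff₀ (norm_nonneg _)).1 (le_of_mul_le_mul_left ?_ ha)
        linarith
      refine ⟨fun i => if i = n then ψ else φ i, fun i => if i = n then c else cf i,
        fun y => f y - c * ψ y, fun i hi => ?_, fun y => ?_, fun y hy => ?_, fun y => ?_, ?_⟩
      · by_cases e : i = n
        · simp only [if_pos e]
          exact ⟨hψ, hc1⟩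
        · simp only [if_neg e]
          exact h1 i (by omega)
      · have : ∑ i ∈ range n, (if i = n then c else cf i) * (if i = n then ψ else φ i) y =
            ∑ i ∈ range n, cf i * φ i y := sum_congr rfl fun i hi => by
          rw [if_neg (mem_range.1 hi).ne, if_neg (mem_range.1 hi).ne]
        simp only [sum_range_succ, h2 y, this, if_true]
        ring
      · show f y - c * ψ y = 0
        rw [h3 y hy, (hS ψ hψ y).2 hy, mul_zero, sub_zero]
      · refine (norm_sub_le _ _).trans ?_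
        rw [norm_mul]
        push_cast
        linarith [h4 y, mul_le_one₀ hc1 (norm_nonneg _) (hS ψ hψ y).1]
      · push_cast
        linarith [mul_le_mul_of_nonneg_left h9 ha.le]
  obtain ⟨n, hn'⟩ := exists_nat_gt (1 / τ ^ 2)
  obtain ⟨φ, cf, f, -, -, -, -, h⟩ := key n
  exact (hn n f h).not_gt hn'

end Pool.Agent.P.MP_746f10_nt.AP
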