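import Pool.Agent.P.MP_746f10_nt.AP.QBase
import Pool.Agent.P.MP_746f10_nt.AP.TIM

/-! Linear sums against the model for general moduli. -/

namespace Pool.Agent.P.MP_746f10_nt.AP

open Finset Filter TIMP

theorem qTIM (h : T_TIa) : T_TIM := by
  obtain ⟨C, hC, h⟩ := h
  obtain ⟨k0, hs⟩ := exists_sieve 1 zero_le_one
  intro A
  refine ⟨A + 4, fun Cw => ?_⟩
  obtain ⟨Q0, hQ⟩ := ev_lg ((ev_level k0 A Cw).and ((eventually_ge_atTop (⌈64 * C⌉₊ + 6)).and
    (ev_pow_le_two_pow 1 ((A + 4) * 2 * 2))))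
  refine ⟨Q0 + 1, fun Q a N w D2 lam' h0 hR h3 h4 h5 h6 h7 => ?_⟩
  obtain ⟨e1, e2, e3⟩ := hQ Q (by omega)
  have hQ1 : 1 ≤ Q := by omega
  have h1 := hR.Q_le
  have hlog := log_le_lg (Q := Q) (by omega)
  have e4 := e1 w h4
  have e5 : (lg Q ^ (A + 4)) ^ 2 ≤ N := by
    refine (Nat.pow_le_pow_iff_left (n := 2) two_ne_zero).1 (le_trans ?_ hR.Q_le_sq)
    rw [← pow_mul, ← pow_mul, ← mul_assoc]
    exact (by omega : _ ≤ 1 * lg Q ^ ((A + 4) * 2 * 2)).trans (e3.trans (two_pow_lg_le hQ1))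
  change _ ≤ om Q at e4
  generalize lg Q = g at *
  have e6 : g ^ (A + 3) ≤ 2 ^ ((A + 3) * (Nat.log 2 g + 1)) := by
    rw [mul_comm, pow_mul]
    exact Nat.pow_le_pow_left (lt_two_pow_lg g).le _
  have e7 : 2 ≤ g ^ (A + 4) := (by omega : 2 ≤ g).trans (Nat.le_self_pow (by omega) g)
  obtain ⟨s⟩ := hs ((A + 3) * (Nat.log 2 g + 1)) w (PP 0 w) (e7.trans h3)
    fun p hp => ⟨PP_prime hp, (mem_PP.1 hp).2.1⟩
  generalize w ^ (4 * (k0 + (A + 3) * (Nat.log 2 g + 1)) + 6) = D at *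
  generalize (A + 3) * (Nat.log 2 g + 1) = mm at *
  have e8 : D * D2 * g ^ (A + 4) ≤ Q := by
    refine le_trans (le_of_eq ?_) ((Nat.mul_le_mul_left D2 e4).trans h5)
    ring
  have e9 : D * D2 * 2 ≤ Q := (Nat.mul_le_mul_left _ e7).trans e8
  have e10 : D2 ≤ Q := (Nat.le_mul_of_pos_right D2 (Nat.two_pow_pos _)).trans h5
  have hg : (6 : ℝ) ≤ g := by exact_mod_cast (by omega : 6 ≤ g)
  have hgC : 64 * C ≤ g := (Nat.le_ceil _).trans (by exact_mod_cast (by omega : ⌈64 * C⌉₊ ≤ g))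
  have hQr : (1 : ℝ) ≤ Q := by exact_mod_cast hQ1
  have har : (N : ℝ) ≤ a := by exact_mod_cast hR.2.2.1
  have haN : (Q : ℝ) ^ 2 ≤ a * N := by exact_mod_cast hR.1
  have hl : ∀ n : ℕ, n ≤ Q → 1 + Real.log n ≤ 2 * g := fun n hn => by
    rcases Nat.eq_zero_or_pos n with rfl | hp
    · rw [Nat.cast_zero, Real.log_zero]
      linarith
    · have : Real.log n ≤ Real.log Q :=
        Real.log_le_log (by exact_mod_cast hp) (by exact_mod_cast hn)
      linarith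
  have hG : (0 : ℝ) < (g : ℝ) ^ (A + 4) := by positivity
  have hA : (0 : ℝ) < (g : ℝ) ^ A := by positivity
  have r8 : ((D * D2 : ℕ) : ℝ) ≤ Q / (g : ℝ) ^ (A + 4) := by
    rw [le_div_iff₀ hG]
    exact_mod_cast e8
  have p1 := (h a N w D D2 (fun d => cp a d * lam s d) lam' (by omega) (by omega) (hR.N_pos hQ1)
    (fun d => by
      rw [abs_mul, abs_of_nonneg (cp_bd a d).1]
      exact mul_le_one₀ (cp_bd a d).2 (abs_nonneg _) (abs_lam s d)) h6
    (fun d hd => ⟨by_contra fun hc => hd (by rw [cp_of_not hc, zero_mul]),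
      smooth_lam s d (right_ne_zero_of_mul hd)⟩) h7).toC
  have p2 : SmallC a N (fun m => -((s.U (dd m) - rr w m) *
      ∑ g ∈ Icc 1 D2, lam' g * (dd m g - 1 / g))) (1 / (2 * (g : ℝ) ^ A)) := by
    refine smallC_of_l1 ?_
    rw [show a * (2 * N) = a * N + a * N by ring]
    refine (l1 s (by positivity) D2 h6 (fun g hg => (h7 g hg).2) _ _).trans ?_
    have r6 : 1 / (2 : ℝ) ^ mm ≤ 1 / (g : ℝ) ^ (A + 3) :=
      one_div_le_one_div_of_le (by positivity) (by exact_mod_cast e6)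
    have r1 : 4 * (1 / (2 : ℝ) ^ mm) * (a * N : ℕ) * (1 + Real.log D2) ≤
        4 * (1 / (g : ℝ) ^ (A + 3)) * (a * N : ℕ) * (2 * g) := by
      have := hl D2 e10
      have := Real.log_natCast_nonneg D2
      gcongr
    have r2 := num1 hg (Nat.cast_nonneg (a * N)) A
    have r3 := num2 hg (Nat.cast_nonneg Q) hQr A
    have r5 : 1 / (4 * (g : ℝ) ^ A) * (Q * Q) ≤ 1 / (4 * (g : ℝ) ^ A) * (a * N) := by
      rw [← sq]
      gcongr
    have r4 : 1 / (2 * (g : ℝ) ^ A) = 2 * (1 / (4 * (g : ℝ) ^ A)) := by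
      field_simp
      norm_num
    push_cast at r1 r2 r8 ⊢
    rw [r4]
    linarith
  refine ((p1.add p2).congr fun n _ b _ hc => ?_).mono ?_
  · have : ∑ d ∈ Icc 1 D, cp a d * lam s d * dd (a * n + b) d = s.U (dd (a * n + b)) := by
      rw [← sum_lam]
      refine sum_congr rfl fun d _ => ?_
      by_cases hd : d ∣ a * n + b
      · rw [cp_of (hc.coprime_dvd_left hd), one_mul]
      · rw [dd, if_neg hd, mul_zero, mul_zero]
    rw [this]
    ring
  · have q1 : 1 / (w : ℝ) ≤ 1 / (g : ℝ) ^ (A + 4) :=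
      one_div_le_one_div_of_le hG (by exact_mod_cast h3)
    have q0 : (g : ℝ) ^ (A + 4) ≤ √N := Real.le_sqrt_of_sq_le (by exact_mod_cast e5)
    have q2 : 1 / √(N : ℝ) ≤ 1 / (g : ℝ) ^ (A + 4) := one_div_le_one_div_of_le hG q0
    have q3 : 1 / √(a : ℝ) ≤ 1 / (g : ℝ) ^ (A + 4) :=
      one_div_le_one_div_of_le hG (q0.trans (Real.sqrt_le_sqrt har))
    have q4 : ((D * D2 : ℕ) : ℝ) / √(a * N) ≤ 1 / (g : ℝ) ^ (A + 4) := by
      have : (Q : ℝ) ≤ √(a * N) := Real.le_sqrt_of_sq_le haN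
      rw [div_le_iff₀ (by linarith), one_div, ← div_eq_inv_mul]
      exact r8.trans (by gcongr)
    have q5 : C * (1 + Real.log (D * D2 : ℕ)) ^ 3 *
        (1 / w + 1 / √N + 1 / √a + (D * D2 : ℕ) / √(a * N)) ≤
          C * (2 * g) ^ 3 * (4 * (1 / (g : ℝ) ^ (A + 4))) := by
      have := hl (D * D2) (by omega)
      have := Real.log_natCast_nonneg (D * D2)
      gcongr
      linarith
    have q6 := num3 hg hgC A
    have q7 : 1 / (g : ℝ) ^ A = 2 * (1 / (2 * (g : ℝ) ^ A)) := by field_simp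
    rw [q7]
    linarith

end Pool.Agent.P.MP_746f10_nt.AP
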