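import Pool.Agent.P.MP_746f10_nt.AP.QBase
import Pool.Agent.P.MP_746f10_nt.AP.TIa

/-! Linear sums with a smooth and a rough divisor variable, general modulus. -/

namespace Pool.Agent.P.MP_746f10_nt.AP

open Finset

namespace QTIaP

lemma gam_cop {a D1 D2 : ℕ} {lam lam' : ℕ → ℝ} (h3 : ∀ d, lam d ≠ 0 → d.Coprime a)
    (h4 : ∀ g, lam' g ≠ 0 → g.Coprime a) {q : ℕ} (hq : TIaP.gam D1 D2 lam lam' q ≠ 0) :
    q.Coprime a := by
  classical
  unfold TIaP.gam at hq
  obtain ⟨x, _, hx⟩ := exists_ne_zero_of_sum_ne_zero hq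
  have a1 : lam x.1 ≠ 0 := fun h => hx (by simp [h])
  have a2 : lam' x.2 ≠ 0 := fun h => hx (by simp [h])
  have a3 : q ∣ x.1 * x.2 := by
    by_contra h
    exact hx (by rw [if_neg fun h' => h h'.1, mul_zero])
  exact Nat.Coprime.coprime_dvd_left a3 (Nat.Coprime.mul_left (h3 _ a1) (h4 _ a2))

end QTIaP

open TIaP in
theorem qTIa (h : T_TIb) : T_TIa := by
  obtain ⟨C, hC, h⟩ := h
  refine ⟨C, hC, fun a N w D1 D2 lam lam' ha hw hN h1 h2 h3 h4 => ?_⟩
  have h3' : ∀ d, lam d ≠ 0 → ∀ p, p.Prime → p ∣ d → p ≤ w := fun d hd => (h3 d hd).2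
  have h4' : ∀ g, lam' g ≠ 0 → rough w g := fun g hg => (h4 g hg).2
  have hB : 0 < 1 + Real.log (D1 * D2 : ℕ) := by
    have := Real.log_natCast_nonneg (D1 * D2)
    linarith
  set B := 1 + Real.log (D1 * D2 : ℕ) with hBdef
  have hB' : (B : ℂ) ≠ 0 := by exact_mod_cast hB.ne'
  have h5 := h a N w (D1 * D2) (fun q => gam D1 D2 lam lam' q / B) ha hw hN (fun q => by
    rw [norm_div, Complex.norm_real, Real.norm_of_nonneg hB.le, div_le_iff₀ hB, mul_comm]
    exact gam_le h1 h2 h3' h4' q) fun q hq =>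
      QTIaP.gam_cop (fun d hd => (h3 d hd).1) (fun g hg => (h4 g hg).1)
        fun h0 => hq (by rw [h0, zero_div])
  have h6 := h5.mul_row (φ := fun _ => (B : ℂ)) hB fun _ => by
    rw [Complex.norm_real, Real.norm_of_nonneg hB.le]
  refine (h6.congr fun n _ b _ => ?_).mono (le_of_eq (by ring))
  rw [ident h3' h4', mul_sum]
  refine sum_congr rfl fun q _ => ?_
  rw [← mul_assoc, mul_div_cancel₀ _ hB']
  rfl

end Pool.Agent.P.MP_746f10_nt.AP
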