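import Pool.Agent.P.MP_746f10_nt.AP.QBase
import Pool.Agent.P.MP_746f10_nt.AP.TIb

/-! Sums of Ramanujan sums have small cut norm (general modulus). -/

namespace Pool.Agent.P.MP_746f10_nt.AP

open Finset
open Pool.Agent.P.MP_0ad054_nt (e mn dn e_add dn_add_int cs_norm)
open Pool.Agent.P.MP_0ad054_nt.An.LSP (spaced additive farey)

namespace QTIbP

/-- the large sieve at the points `r a / q` -/
theorem lsv {R X a : ℕ} (hR : 1 ≤ R) {S : Finset ℕ} (hS : S ⊆ Icc 1 R)
    (ha : ∀ q ∈ S, a.Coprime q) {I : Finset ℕ}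
    (hI : I ⊆ Icc 1 X) {u : ℕ → ℂ} (hu : ∀ n, ‖u n‖ ≤ 1) :
    ∑ q ∈ S, ∑ r ∈ (range q).filter (fun r => r.Coprime q),
      ‖∑ n ∈ I, u n * e ((r : ℝ) * a / q * n)‖ ^ 2 ≤
      6 * (X + (R : ℝ) ^ 2) * (1 + Real.log R) * I.card := by
  have hl := Real.log_natCast_nonneg R
  have key : ∀ q r : ℕ, 1 ≤ q →
      (r : ℝ) * a / q = ((r * a % q : ℕ) : ℝ) / q + ((r * a / q : ℕ) : ℝ) := fun q r hq => by
    have hq' : (q : ℝ) ≠ 0 := by positivity
    have h : ((r * a % q : ℕ) : ℝ) + q * ((r * a / q : ℕ) : ℝ) = r * a := by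
      exact_mod_cast Nat.mod_add_div (r * a) q
    rw [← h]
    field_simp
  have h1 := additive (S.sigma fun q => (range q).filter fun b => b.Coprime q)
    (fun z => (z.2 : ℝ) * a / z.1) X (V := 6 * (X + (R : ℝ) ^ 2) * (1 + Real.log R))
    (by positivity)
    (fun r _ => (spaced _ _ (Q := R ^ 2) (by positivity) (Nat.cast_nonneg X) (fun s hs t ht hst => by
      rw [mem_sigma, mem_filter, mem_range] at hs ht
      have s1 := (mem_Icc.1 (hS hs.1)).1
      have t1 := (mem_Icc.1 (hS ht.1)).1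
      have co : ∀ q r : ℕ, r.Coprime q → a.Coprime q → (r * a % q).Coprime q := fun q r h h' => by
        have := (Nat.Coprime.mul_left h h').symm
        rwa [Nat.Coprime, Nat.gcd_rec] at this
      have h2 := farey (hS hs.1) (hS ht.1) (Nat.mod_lt (s.2 * a) s1) (Nat.mod_lt (t.2 * a) t1)
        (co _ _ hs.2.2 (ha _ hs.1)) (co _ _ ht.2.2 (ha _ ht.1)) fun h => hst (by
          obtain ⟨q, r⟩ := s
          obtain ⟨q', r'⟩ := t
          obtain ⟨h3, h4⟩ := h
          dsimp only at h3 h4 hs ht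
          subst h3
          have h5 : r ≡ r' [MOD q] := Nat.ModEq.cancel_right_of_coprime (ha _ hs.1).symm h4
          rw [Nat.ModEq.eq_of_lt_of_lt h5 hs.2.1 ht.2.1])
      rw [key _ _ s1, key _ _ t1, ← dn_add_int _ (((t.2 * a / t.1 : ℕ) : ℤ) - (s.2 * a / s.1 : ℕ))]
      convert h2 using 2
      simp only [Int.cast_sub, Int.cast_natCast]
      ring) _).trans (by
      push_cast
      rw [Real.log_pow]
      have : (0 : ℝ) ≤ X := Nat.cast_nonneg X
      push_cast
      nlinarith [mul_nonneg this hl, mul_nonneg (sq_nonneg (R : ℝ)) hl, sq_nonneg (R : ℝ)]))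
    fun n => if n ∈ I then u n else 0
  rw [sum_sigma] at h1
  simp only [ite_mul, zero_mul, sum_ite_mem, inter_eq_right.2 hI] at h1
  refine h1.trans (mul_le_mul_of_nonneg_left ?_ (by positivity))
  calc ∑ n ∈ Icc 1 X, ‖if n ∈ I then u n else 0‖ ^ 2 ≤ ∑ n ∈ Icc 1 X, if n ∈ I then (1 : ℝ) else 0 :=
        sum_le_sum fun n _ => by
          split_ifs
          · exact pow_le_one₀ (norm_nonneg _) (hu n)
          · simp
    _ = I.card := by rw [sum_ite_mem, inter_eq_right.2 hI]; simp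

end QTIbP

open QTIbP

theorem qTIb : T_TIb := by
  refine ⟨12, by norm_num, fun a N w D γ ha hw hN hγ hγa u v hu hv => ?_⟩
  have hl := Real.log_natCast_nonneg D
  rcases le_or_gt D w with hDw | hwD
  · simp only [Bf, Ioc_eq_empty_of_le hDw, sum_empty, zero_mul, sum_const_zero, norm_zero]
    positivity
  obtain ⟨x, hx, x0⟩ : ∃ x : ℝ, x ^ 2 = a ∧ 0 < x ∧ √a = x :=
    ⟨_, Real.sq_sqrt (Nat.cast_nonneg a), Real.sqrt_pos.2 (by exact_mod_cast ha), rfl⟩
  obtain ⟨y, hy, y0⟩ : ∃ y : ℝ, y ^ 2 = N ∧ 0 < y ∧ √N = y :=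
    ⟨_, Real.sq_sqrt (Nat.cast_nonneg N), Real.sqrt_pos.2 (by exact_mod_cast hN), rfl⟩
  obtain ⟨x0, ex⟩ := x0
  obtain ⟨y0, ey⟩ := y0
  set U : ℕ → ℕ → ℂ := fun q r => ∑ n ∈ Ico N (2 * N), u n * e ((r : ℝ) * a / q * n) with hU
  set V : ℕ → ℕ → ℂ := fun q r => ∑ b ∈ Ico 1 a, v b * e ((r : ℝ) * (1 : ℕ) / q * b) with hV
  set s : ℕ → ℝ := fun q => if a.Coprime q then
    ∑ r ∈ (range q).filter (fun r => r.Coprime q), ‖U q r‖ * ‖V q r‖ else 0 with hs
  have e1 : Bf a N (fun m => ∑ q ∈ Ioc w D, γ q *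
      ∑ r ∈ (range q).filter (fun r => r.Coprime q), e ((r : ℝ) * m / q)) u v =
      ∑ q ∈ Ioc w D, γ q * ∑ r ∈ (range q).filter (fun r => r.Coprime q), U q r * V q r := by
    simp only [hU, hV, sum_mul_sum]
    simp only [Bf, mul_sum, sum_mul]
    refine (sum_congr rfl fun n _ => sum_comm).trans (sum_comm.trans ?_)
    refine sum_congr rfl fun q _ => ?_
    refine (sum_congr rfl fun n _ => sum_comm).trans (sum_comm.trans ?_)
    refine sum_congr rfl fun r _ => sum_congr rfl fun n _ => sum_congr rfl fun b _ => ?_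
    have : (r : ℝ) * (a * n + b : ℕ) / q = (r : ℝ) * a / q * n + (r : ℝ) * (1 : ℕ) / q * b := by
      push_cast
      ring
    rw [this, e_add]
    ring
  have e2 : ‖∑ q ∈ Ioc w D, γ q * ∑ r ∈ (range q).filter (fun r => r.Coprime q), U q r * V q r‖ ≤
      ∑ q ∈ Ioc w D, s q / q := by
    refine (norm_sum_le _ _).trans (sum_le_sum fun q _ => ?_)
    by_cases hq : a.Coprime q
    · rw [norm_mul, div_eq_inv_mul, ← one_div]
      refine mul_le_mul (hγ q) ((norm_sum_le _ _).trans (le_of_eq ?_)) (norm_nonneg _)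
        (by positivity)
      simp only [hs, norm_mul, if_pos hq]
    · have h0 : γ q = 0 := by
        by_contra h
        exact hq (hγa q h).symm
      simp only [hs, h0, if_neg hq, zero_mul, norm_zero, zero_div, le_refl]
  set L := 1 + Real.log D with hL
  have L1 : 1 ≤ L := by linarith
  have e3 : ∀ R, w ≤ R → R ≤ D → ∑ q ∈ Ioc w R, s q ≤
      6 * L * x * y * (2 * x * y) + 6 * L * x * y * (x + 2 * y) * R + 6 * L * x * y * R ^ 2 := by
    intro R h1 h2
    have hR : 1 ≤ R := hw.trans h1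
    have R0 : (0 : ℝ) < R := by exact_mod_cast hR
    have hlR := Real.log_natCast_nonneg R
    have hLR : 1 + Real.log R ≤ L := by
      have := Real.log_le_log R0 (show (R : ℝ) ≤ D by exact_mod_cast h2)
      linarith
    have a1 := lsv (X := 2 * N) (a := a) (I := Ico N (2 * N)) hR
      (filter_subset (fun q => a.Coprime q) (Icc 1 R)) (fun q hq => (mem_filter.1 hq).2)
      (fun n hn => by rw [mem_Ico] at hn; rw [mem_Icc]; omega) hu
    have a2 := lsv (X := a) (a := 1) (I := Ico 1 a) hR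
      (filter_subset (fun q => a.Coprime q) (Icc 1 R)) (fun q _ => Nat.coprime_one_left q)
      (fun n hn => by rw [mem_Ico] at hn; rw [mem_Icc]; omega) hv
    have c1 : ((Ico N (2 * N)).card : ℝ) = y ^ 2 := by
      rw [Nat.card_Ico, hy, two_mul, Nat.add_sub_cancel]
    have c2 : ((Ico 1 a).card : ℝ) ≤ x ^ 2 := by
      rw [Nat.card_Ico, hx]
      exact_mod_cast Nat.sub_le a 1
    have b1 : 6 * (((2 * N : ℕ) : ℝ) + (R : ℝ) ^ 2) * (1 + Real.log R) * (Ico N (2 * N)).card ≤
        6 * (2 * y + R) ^ 2 * L * y ^ 2 := by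
      rw [c1]
      push_cast
      rw [← hy]
      gcongr
      nlinarith [mul_pos y0 R0]
    have b2 : 6 * ((a : ℝ) + (R : ℝ) ^ 2) * (1 + Real.log R) * (Ico 1 a).card ≤
        6 * (x + R) ^ 2 * L * x ^ 2 := by
      rw [← hx]
      gcongr
      nlinarith [mul_pos x0 R0]
    have d1 := sum_mul_sq_le_sq_mul_sq
      (((Icc 1 R).filter fun q => a.Coprime q).sigma fun q =>
        (range q).filter fun r => r.Coprime q)
      (fun z => ‖U z.1 z.2‖) fun z => ‖V z.1 z.2‖
    rw [sum_sigma, sum_sigma, sum_sigma] at d1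
    have d2 := d1.trans (mul_le_mul (a1.trans b1) (a2.trans b2) (by positivity) (by positivity))
    have d3 : ∑ q ∈ Ioc w R, s q ≤ ∑ q ∈ Icc 1 R, s q :=
      sum_le_sum_of_subset_of_nonneg
        (fun q hq => by rw [mem_Ioc] at hq; rw [mem_Icc]; omega) fun q _ _ => by
          simp only [hs]
          split_ifs
          · positivity
          · exact le_rfl
    have d4 : ∑ q ∈ Icc 1 R, s q = ∑ q ∈ (Icc 1 R).filter (fun q => a.Coprime q),
        ∑ r ∈ (range q).filter (fun r => r.Coprime q), ‖U q r‖ * ‖V q r‖ :=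
      (sum_filter _ _).symm
    rw [d4] at d3
    refine d3.trans (abs_le_of_sq_le_sq' (d2.trans (le_of_eq ?_)) (by positivity)).2
    ring
  have e4 := TIbP.abel hw hwD.le (by positivity) (by positivity) e3
  rw [e1, Real.sqrt_mul (Nat.cast_nonneg a), ex, ey, ← hx, ← hy]
  refine e2.trans (e4.trans ?_)
  have w0 : (0 : ℝ) < w := by exact_mod_cast hw
  have D0 : (0 : ℝ) ≤ D := Nat.cast_nonneg D
  have e5 : 12 * L ^ 2 * (1 / w + 1 / y + 1 / x + D / (x * y)) * x ^ 2 * y ^ 2 =
      6 * L * x * y * (L * (2 * x * y / w) + (2 * x + 2 * y) * L + L * (2 * D)) := by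
    field_simp
    ring
  have e6 : 6 * L * x * y * (2 * x * y) / w + 6 * L * x * y * (x + 2 * y) * L +
      2 * (6 * L * x * y) * D = 6 * L * x * y * (2 * x * y / w + (x + 2 * y) * L + 2 * D) := by
    ring
  rw [← hL, e5, e6]
  refine mul_le_mul_of_nonneg_left (add_le_add (add_le_add ?_ ?_) ?_) (by positivity)
  · exact le_mul_of_one_le_left (by positivity) L1
  · exact mul_le_mul_of_nonneg_right (by linarith) (by positivity)
  · exact le_mul_of_one_le_left (by positivity) L1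

end Pool.Agent.P.MP_746f10_nt.AP
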