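import Pool.Agent.P.MP_746f10_nt.AP.QBase

/-! The window averages of the products of two dilates. -/

namespace Pool.Agent.P.MP_746f10_nt.AP

open Finset ComplexConjugate

namespace QWinP

lemma sum_le_sqrt {ι : Type*} (s : Finset ι) (x : ι → ℝ) :
    ∑ i ∈ s, x i ≤ √(s.card * ∑ i ∈ s, x i ^ 2) :=
  Real.le_sqrt_of_sq_le sq_sum_le_card_mul_sum_sq

lemma sum_sqrt_le {ι : Type*} (s : Finset ι) (g : ι → ℝ) (hg : ∀ i ∈ s, 0 ≤ g i) {M G K : ℝ}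
    (hM : 0 ≤ M) (hK : 0 ≤ K) (hs : (s.card : ℝ) ≤ K ^ 2) (hG : ∑ i ∈ s, g i ≤ G) :
    ∑ i ∈ s, √(M * g i) ≤ K * √(M * G) := by
  refine (sum_le_sqrt s _).trans ?_
  have e1 : ∑ i ∈ s, √(M * g i) ^ 2 = M * ∑ i ∈ s, g i := by
    rw [mul_sum]
    exact sum_congr rfl fun i hi => Real.sq_sqrt (mul_nonneg hM (hg i hi))
  have e2 : K * √(M * G) = √(K ^ 2 * (M * G)) := by
    rw [Real.sqrt_mul (sq_nonneg K), Real.sqrt_sq hK]
  rw [e1, e2]
  refine Real.sqrt_le_sqrt ?_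
  have h0 : 0 ≤ ∑ i ∈ s, g i := sum_nonneg hg
  gcongr

variable {a : ℕ} [NeZero a]

lemma triv {f : ZMod a → ℂ} {F : ℝ} (hf : ∀ y, ‖f y‖ ≤ F) {ω : ZMod a → ℝ}
    (h0 : ∀ z, 0 ≤ ω z) (h1 : ∑ z, ω z = 1) (k k' : ℕ) (y : ZMod a) :
    ‖∑ z, (ω z : ℂ) * ww f k k' (y + z)‖ ≤ F ^ 2 := by
  refine (norm_sum_le _ _).trans ?_
  calc ∑ z, ‖(ω z : ℂ) * ww f k k' (y + z)‖ ≤ ∑ z, ω z * F ^ 2 := sum_le_sum fun z _ => by
        rw [norm_mul, Complex.norm_real, Real.norm_of_nonneg (h0 z)]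
        refine mul_le_mul_of_nonneg_left ?_ (h0 z)
        unfold ww
        rw [norm_mul, Complex.norm_conj, sq]
        exact mul_le_mul (hf _) (hf _) (norm_nonneg _) ((norm_nonneg _).trans (hf 0))
    _ = F ^ 2 := by rw [← sum_mul, h1, one_mul]

/-- first moment from the second moment -/
lemma first_le {L : ℕ} {X : ℕ → ℂ} {M G G' : ℝ} (hM : 0 ≤ M)
    (h : ∑ y ∈ range L, ‖X y‖ ^ 2 ≤ M * G) (hG : G ≤ G') :
    ∑ y ∈ range L, ‖X y‖ ≤ √(L * M * G') := by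
  refine (sum_le_sqrt _ _).trans (Real.sqrt_le_sqrt ?_)
  rw [card_range, mul_assoc]
  exact mul_le_mul_of_nonneg_left (h.trans (mul_le_mul_of_nonneg_left hG hM)) (Nat.cast_nonneg _)

lemma M1_nonneg (L Y : ℕ) :
    (0 : ℝ) ≤ 2 * (3 * L + (a / Y + 1) * (1 + Real.log (2 * a))) := by
  have h1 : (1 : ℝ) ≤ a := by exact_mod_cast NeZero.one_le
  have h2 : 0 ≤ Real.log (2 * a) := Real.log_nonneg (by linarith)
  positivity

open Classical in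
lemma good (h1 : T_LH) (h2 : T_Excl) (f : ZMod a → ℂ) {ω : ZMod a → ℝ} {fe : ℤ → ℂ}
    {R L Y d : ℕ} (hK : Ker R ω fe) (hR : 4 * R ≤ a) (hY : 1 ≤ Y) (hd : 1 ≤ d) {k k' : ℕ}
    (hE : ¬ Ex2 (2 * d ^ 2) (d ^ 2 * Y) k k') :
    ∑ y ∈ range L, ‖∑ z, (ω z : ℂ) * ww f k k' (y + z)‖ ≤
      √(L * (2 * (3 * L + (a / Y + 1) * (1 + Real.log (2 * a)))) *
        ∑ r ∈ Icc (-(R : ℤ)) R, G3 f k k' r) +
      √(L * (L + a) * ∑ r ∈ (Icc (-(R : ℤ)) R).filter (fun r => ¬ Sp d k k' r), G3 f k k' r) := by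
  set c : ℤ → ℂ := fun r => fe r * wh (ww f k k') r with hc
  have hcG : ∀ r, ‖c r‖ ^ 2 ≤ G3 f k k' r := fun r => by
    unfold G3
    refine pow_le_pow_left₀ (norm_nonneg _) ?_ 2
    simp only [hc, norm_mul]
    exact mul_le_of_le_one_left (norm_nonneg _) (hK.bd r)
  have hb : ∀ (P : ℤ → Prop) [DecidablePred P], ∀ r ∈ (Icc (-(R : ℤ)) R).filter P, |r| ≤ R :=
    fun P _ r hr => abs_le.2 (mem_Icc.1 (mem_filter.1 hr).1)
  have e1 := (h1 a c ((Icc (-(R : ℤ)) R).filter (fun r => Sp d k k' r)) R Y L (hb _) hR).2 hY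
    fun r hr r' hr' hne => h2.2 d Y k k' r r' hd hE (mem_filter.1 hr).2 (mem_filter.1 hr').2 hne
  have e2 := (h1 a c ((Icc (-(R : ℤ)) R).filter (fun r => ¬ Sp d k k' r)) R Y L (hb _) hR).1
  refine le_trans ?_ (add_le_add
    (first_le (M1_nonneg L Y) e1 ((sum_le_sum fun r _ => hcG r).trans
      (sum_le_sum_of_subset_of_nonneg (filter_subset _ _) fun r _ _ => G3_nonneg f k k' r)))
    (first_le (by positivity) e2 (sum_le_sum fun r _ => hcG r)))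
  rw [← sum_add_distrib]
  refine sum_le_sum fun y _ => ?_
  rw [hK.eq, ← sum_filter_add_sum_filter_not (Icc (-(R : ℤ)) R) (fun r => Sp d k k' r)]
  exact norm_add_le _ _

end QWinP

open QWinP in
theorem qWin (h1 : T_LH) (h2 : T_Excl) (h3 : T_Pair) : T_Win := by
  classical
  obtain ⟨C, hC, hcount⟩ := h2.1
  refine ⟨6 * C, by positivity, ?_⟩
  intro a _ f S τ F G1 G2 ω fe K R L Y d g0 hf hK hR hY hd hg0 hG1 hG2
  set M1 : ℝ := 2 * (3 * L + (a / Y + 1) * (1 + Real.log (2 * a))) with hM1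
  have M0 : 0 ≤ M1 := M1_nonneg L Y
  set B := Icc 1 K ×ˢ Icc 1 K with hB
  set P := (Pc a K).filter (fun p => Nat.gcd p.1 p.2 ≤ g0) with hP
  set g1 : ℕ × ℕ → ℝ := fun p => ∑ r ∈ Icc (-(R : ℤ)) R, G3 f p.1 p.2 r with hg1
  set g2 : ℕ × ℕ → ℝ := fun p =>
    ∑ r ∈ (Icc (-(R : ℤ)) R).filter (fun r => ¬ Sp d p.1 p.2 r), G3 f p.1 p.2 r with hg2
  have hPB : P ⊆ B := (filter_subset _ _).trans (filter_subset _ _)
  have hcard : (P.card : ℝ) ≤ (K : ℝ) ^ 2 := by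
    have := card_le_card hPB
    rw [hB, card_product, Nat.card_Icc, Nat.add_sub_cancel] at this
    exact_mod_cast this.trans_eq (sq K).symm
  have hFL : 0 ≤ F ^ 2 * L := by positivity
  have pt : ∀ p ∈ B, ∑ y ∈ range L, ‖∑ z, (ω z : ℂ) * ww f p.1 p.2 (y + z)‖ ≤
      (if g0 < Nat.gcd p.1 p.2 then F ^ 2 * L else 0) +
      (if Ex2 (2 * d ^ 2) (d ^ 2 * Y) p.1 p.2 then F ^ 2 * L else 0) +
      (if p ∈ P then √(L * M1 * g1 p) else 0) +
      (if p ∈ P then √(L * (L + a) * g2 p) else 0) := by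
    intro p hp
    have t0 : ∑ y ∈ range L, ‖∑ z, (ω z : ℂ) * ww f p.1 p.2 (y + z)‖ ≤ F ^ 2 * L := by
      refine (sum_le_card_nsmul _ _ _ fun y _ => triv hf.sup hK.nn hK.one _ _ _).trans ?_
      rw [card_range, nsmul_eq_mul, mul_comm]
    have n1 : 0 ≤ (if g0 < Nat.gcd p.1 p.2 then F ^ 2 * L else 0) := by split_ifs <;> simp [hFL]
    have n2 : 0 ≤ (if Ex2 (2 * d ^ 2) (d ^ 2 * Y) p.1 p.2 then F ^ 2 * L else 0) := by
      split_ifs <;> simp [hFL]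
    have n3 : 0 ≤ (if p ∈ P then √(L * M1 * g1 p) else 0) := by split_ifs <;> simp
    have n4 : 0 ≤ (if p ∈ P then √(L * (L + a) * g2 p) else 0) := by split_ifs <;> simp
    by_cases c1 : g0 < Nat.gcd p.1 p.2
    · rw [if_pos c1]
      linarith
    by_cases c2 : Ex2 (2 * d ^ 2) (d ^ 2 * Y) p.1 p.2
    · rw [if_pos c2]
      linarith
    by_cases c3 : p.1.Coprime a ∧ p.2.Coprime a
    · have c4 : p ∈ P := mem_filter.2 ⟨mem_filter.2 ⟨hp, c3⟩, not_lt.1 c1⟩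
      have := good (L := L) h1 h2 f hK hR hY hd c2
      rw [if_pos c4, if_pos c4]
      linarith
    · have : ∑ y ∈ range L, ‖∑ z, (ω z : ℂ) * ww f p.1 p.2 (y + z)‖ = 0 :=
        sum_eq_zero fun y _ => by
          rw [sum_eq_zero fun z _ => by rw [ww_eq_zero hf.zero c3, mul_zero], norm_zero]
      linarith
  rw [← sum_product' (Icc 1 K) (Icc 1 K)
    (fun k k' => ∑ y ∈ range L, ‖∑ z, (ω z : ℂ) * ww f k k' (y + z)‖)]
  refine (sum_le_sum pt).trans ?_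
  rw [sum_add_distrib, sum_add_distrib, sum_add_distrib, ← sum_filter, ← sum_filter,
    sum_ite_mem, sum_ite_mem, inter_eq_right.2 hPB, sum_const, sum_const, nsmul_eq_mul,
    nsmul_eq_mul]
  have b1 := (h3 K g0 hg0).1
  have b2 := hcount K (2 * d ^ 2) (d ^ 2 * Y)
  have b3 : ∑ p ∈ P, √(L * M1 * g1 p) ≤ K * √(L * M1 * G1) :=
    sum_sqrt_le P g1 (fun p _ => sum_nonneg fun r _ => G3_nonneg _ _ _ _) (by positivity)
      (Nat.cast_nonneg _) hcard ((sum_le_sum_of_subset_of_nonneg (filter_subset _ _)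
        fun p _ _ => sum_nonneg fun r _ => G3_nonneg _ _ _ _).trans hG1)
  have b4 : ∑ p ∈ P, √(L * (L + a) * g2 p) ≤ K * √(L * (L + a) * G2) :=
    sum_sqrt_le P g2 (fun p _ => sum_nonneg fun r _ => G3_nonneg _ _ _ _) (by positivity)
      (Nat.cast_nonneg _) hcard hG2
  have b5 : C * K * ((2 * d ^ 2 : ℕ) : ℝ) * (((2 * d ^ 2 : ℕ) : ℝ) + ((d ^ 2 * Y : ℕ) : ℝ)) ≤
      6 * C * K * (d : ℝ) ^ 4 * Y := by
    have y1 : (1 : ℝ) ≤ Y := by exact_mod_cast hY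
    have y2 : 0 ≤ C * K * (d : ℝ) ^ 4 := by positivity
    push_cast
    nlinarith [mul_le_mul_of_nonneg_left y1 y2]
  have b6 := mul_le_mul_of_nonneg_right b1 hFL
  have b7 := mul_le_mul_of_nonneg_right (b2.trans b5) hFL
  nlinarith [b6, b7, b3, b4]

end Pool.Agent.P.MP_746f10_nt.AP
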