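import Pool.Agent.P.MP_746f10_nt.AP.VKAll
import Pool.Agent.P.MP_746f10_nt.AP.Int
import Pool.Agent.P.MP_746f10_nt.AP.Rows
import Pool.Agent.P.MP_746f10_nt.AP.CSf
import Pool.Agent.P.MP_746f10_nt.AP.Bad
import Pool.Agent.P.MP_746f10_nt.AP.TA
import Pool.Agent.P.MP_746f10_nt.AP.L2
import Pool.Agent.P.MP_746f10_nt.AP.Var
import Pool.Agent.P.MP_746f10_nt.AP.Match
import Pool.Agent.P.MP_746f10_nt.AP.QIdent
import Pool.Agent.P.MP_746f10_nt.AP.QBlk
import Pool.Agent.P.MP_746f10_nt.AP.QPos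
import Pool.Agent.P.MP_746f10_nt.AP.QTIb
import Pool.Agent.P.MP_746f10_nt.AP.QTIa
import Pool.Agent.P.MP_746f10_nt.AP.QTIM
import Pool.Agent.P.MP_746f10_nt.AP.QMod2
import Pool.Agent.P.MP_746f10_nt.AP.QSplit
import Pool.Agent.P.MP_746f10_nt.AP.QFej
import Pool.Agent.P.MP_746f10_nt.AP.QPV
import Pool.Agent.P.MP_746f10_nt.AP.QHP
import Pool.Agent.P.MP_746f10_nt.AP.QCSW
import Pool.Agent.P.MP_746f10_nt.AP.QLH
import Pool.Agent.P.MP_746f10_nt.AP.QExcl
import Pool.Agent.P.MP_746f10_nt.AP.QL3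
import Pool.Agent.P.MP_746f10_nt.AP.QPair
import Pool.Agent.P.MP_746f10_nt.AP.QMass
import Pool.Agent.P.MP_746f10_nt.AP.QPlane
import Pool.Agent.P.MP_746f10_nt.AP.QGamH
import Pool.Agent.P.MP_746f10_nt.AP.QGam
import Pool.Agent.P.MP_746f10_nt.AP.QWin
import Pool.Agent.P.MP_746f10_nt.AP.QMinX
import Pool.Agent.P.MP_746f10_nt.AP.QMinor
import Pool.Agent.P.MP_746f10_nt.AP.QRow
import Pool.Agent.P.MP_746f10_nt.AP.QHM
import Pool.Agent.P.MP_746f10_nt.AP.QExc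
import Pool.Agent.P.MP_746f10_nt.AP.QMatch
import Pool.Agent.P.MP_746f10_nt.AP.QMajor
import Pool.Agent.P.MP_746f10_nt.AP.QDiff
import Pool.Agent.P.MP_746f10_nt.AP.QII
import Pool.Agent.P.MP_746f10_nt.AP.QG
import Pool.Agent.P.MP_746f10_nt.AP.QKP
import Pool.Agent.P.MP_746f10_nt.AP.QRed
import Pool.Agent.P.MP_a14ce1_nt.Ch.Cauchy
import Pool.Agent.P.MP_a14ce1_nt.Ch.Sm
import Pool.Agent.P.MP_a14ce1_nt.Ch.Reduce

/-! Assembly of all pieces for general moduli. -/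

namespace Pool.Agent.P.MP_746f10_nt.AP

open Pool.Agent.P.MP_a14ce1_nt

theorem qtim_all : T_TIM := qTIM (qTIa qTIb)

theorem qgamH_all : T_GamH := qGamH (qL3 pL2) qMass

theorem qgam_all : T_Gam := qGam qgamH_all (qPair pL2) qMass (qPlane qPlA (qPair pL2))

theorem qminor_all : T_Minor :=
  qMinor (qMinX qCSW qFej (qHP qPV) (qWin qLH qExcl (qPair pL2)) qgam_all qgamH_all)

theorem qvar_all : S_Var :=
  pVar (Ch.reduce Ch.cauchy) (Ch.separate Ch.fourier) (Ch.moment Ch.cauchy Ch.kernel) Ch.smReg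

theorem qmajor_all : T_Major := qMajor qRow qvar_all pSmLe pMatch qMatch box_all

theorem qii_all : T_II :=
  qII pCS (qDiff qSplit qminor_all qmajor_all pMatch) (qMod2 qtim_all) pMatch

theorem qg_all : T_G := qG (qIdent pCS) (pBad (pUp pInt)) (pA pInt) qtim_all qii_all

theorem qkp_all : T_KP := qKP qg_all (pRows pInt) (qBlk pnt0) (qExc qHM box_all)

theorem qmain_all : T_Main := qMain qkp_all qPos (pRows pInt)

end Pool.Agent.P.MP_746f10_nt.AP
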