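import Pool.Agent.P.MP_746f10_nt.AP.QDefs

/-! Small facts on the definitions for general moduli. -/

namespace Pool.Agent.P.MP_746f10_nt.AP

open Finset ComplexConjugate
open Pool.Agent.P.MP_0ad054_nt (e norm_e)
open Pool.Agent.P.MP_a14ce1_nt.Ch (nit norm_nit)

/-! ### The range -/

section rg
variable {Q a N : ℕ}

lemma Rg.Q_le (h : Rg Q a N) : Q ≤ a := by
  obtain ⟨h1, -, h3, -, -⟩ := h
  by_contra hn
  have : a * N < Q ^ 2 := by nlinarith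
  omega

lemma Rg.pow4 (h : Rg Q a N) : Q ^ 4 ≤ N ^ 5 := by
  obtain ⟨h1, -, -, h4, -⟩ := h
  calc Q ^ 4 = (Q ^ 2) ^ 2 := by ring
    _ ≤ (a * N) ^ 2 := by gcongr
    _ = a ^ 2 * N ^ 2 := by ring
    _ ≤ N ^ 3 * N ^ 2 := by gcongr
    _ = _ := by ring

lemma Rg.pow5 (h : Rg Q a N) : a ^ 5 ≤ 8 * Q ^ 6 := by
  obtain ⟨-, h2, -, h4, -⟩ := h
  calc a ^ 5 = a ^ 3 * a ^ 2 := by ring
    _ ≤ a ^ 3 * N ^ 3 := by gcongr
    _ = (a * N) ^ 3 := by ring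
    _ ≤ (2 * Q ^ 2) ^ 3 := by gcongr
    _ = _ := by ring

lemma Rg.a_le (h : Rg Q a N) : a ≤ N ^ 2 := by
  have h4 := h.2.2.2.1
  rcases Nat.eq_zero_or_pos N with rfl | h0
  · simpa using h4
  refine (Nat.pow_le_pow_iff_left (n := 2) (by norm_num)).1 (h4.trans ?_)
  rw [← pow_mul]
  exact Nat.pow_le_pow_right h0 (by norm_num)

lemma Rg.Q_le_sq (h : Rg Q a N) : Q ≤ N ^ 2 := h.Q_le.trans h.a_le

lemma Rg.a_le_sq (h : Rg Q a N) : a ≤ Q ^ 2 := h.a_le.trans (Nat.pow_le_pow_left h.2.2.2.2 2)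

lemma Rg.N_pos (h : Rg Q a N) (hQ : 1 ≤ Q) : 1 ≤ N := by
  have := h.Q_le_sq
  rcases Nat.eq_zero_or_pos N with rfl | h0
  · omega
  · exact h0

lemma lg_mono {x y : ℕ} (h : x ≤ y) : lg x ≤ lg y := Nat.log_mono_right h

lemma Rg.lg_le (h : Rg Q a N) : lg N ≤ lg Q := lg_mono h.2.2.2.2

lemma Rg.lg_le_two (h : Rg Q a N) (h2 : 2 ≤ lg N) : lg Q ≤ 2 * lg N := by
  have hQ : 1 ≤ Q := by
    have := h.lg_le
    rcases Nat.eq_zero_or_pos Q with rfl | h0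
    · have h3 : lg 0 = 0 := by simp [lg]
      omega
    · exact h0
  have h1 : (2 ^ lg Q) ^ 4 ≤ (2 ^ (lg N + 1)) ^ 5 :=
    (Nat.pow_le_pow_left (two_pow_lg_le hQ) 4).trans
      (h.pow4.trans (Nat.pow_le_pow_left (lt_two_pow_lg N).le 5))
  rw [← pow_mul, ← pow_mul, Nat.pow_le_pow_iff_right (by norm_num)] at h1
  omega

/-- the entries of the matrix lie between `Q ^ 2` and `4 Q ^ 2` -/
lemma Rg.entry (h : Rg Q a N) {n b : ℕ} (hn : n ∈ Ico N (2 * N)) (hb : b ∈ Ico 1 a) :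
    Q ^ 2 ≤ a * n + b ∧ a * n + b < 4 * Q ^ 2 := by
  have h1 := mem_Ico.1 hn
  have h2 := mem_Ico.1 hb
  have h3 : a * N ≤ a * n := Nat.mul_le_mul_left a h1.1
  have h4 : a * (n + 1) ≤ a * (2 * N) := Nat.mul_le_mul_left a h1.2
  have h5 := h.1
  have h6 := h.2.1
  constructor
  · omega
  · nlinarith

lemma rg_sqrt (h3 : 3 ≤ N) (h1 : N ≤ a) (h2 : a ^ 2 ≤ N ^ 3) : Rg (Nat.sqrt (a * N)) a N := by
  have h4 : N ≤ Nat.sqrt (a * N) := Nat.le_sqrt.2 (Nat.mul_le_mul_right N h1)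
  have h5 := Nat.lt_succ_sqrt (a * N)
  refine ⟨Nat.sqrt_le' _, ?_, h1, h2, h4⟩
  simp only [Nat.succ_eq_add_one] at h5
  nlinarith

end rg

/-! ### The coprime columns -/

lemma cp_bd (a m : ℕ) : 0 ≤ cp a m ∧ cp a m ≤ 1 := by unfold cp; split_ifs <;> norm_num

lemma cp_of {a m : ℕ} (h : m.Coprime a) : cp a m = 1 := if_pos h

lemma cp_of_not {a m : ℕ} (h : ¬ m.Coprime a) : cp a m = 0 := if_neg h

lemma coprime_row (a n b : ℕ) : (a * n + b).Coprime a ↔ b.Coprime a := by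
  rw [add_comm, Nat.coprime_add_mul_left_left]

lemma cp_row (a n b : ℕ) : cp a (a * n + b) = cp a b := by unfold cp; simp only [coprime_row]

variable {a N w h : ℕ}

lemma SmallC.mono {c : ℕ → ℝ} {δ δ' : ℝ} (H : SmallC a N c δ) (hδ : δ ≤ δ') : SmallC a N c δ' :=
  SmallR.mono H hδ

/-- only the entries in the coprime columns matter -/
lemma SmallC.congr {c c' : ℕ → ℝ} {δ : ℝ} (H : SmallC a N c δ)
    (hc : ∀ n ∈ Ico N (2 * N), ∀ b ∈ Ico 1 a, (a * n + b).Coprime a →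
      c' (a * n + b) = c (a * n + b)) : SmallC a N c' δ :=
  SmallR.congr H fun n hn b hb => by
    by_cases h0 : (a * n + b).Coprime a
    · rw [hc n hn b hb h0]
    · rw [cp_of_not h0, zero_mul, zero_mul]

lemma Bf_cp (c : ℕ → ℝ) (u v : ℕ → ℂ) : Bf a N (fun m => ((cp a m * c m : ℝ) : ℂ)) u v =
    Bf a N (fun m => (c m : ℂ)) u (fun b => cp a b * v b) :=
  sum_congr rfl fun n _ => sum_congr rfl fun b _ => by simp only [cp_row]; push_cast; ring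

lemma norm_cp_mul {v : ℕ → ℂ} (hv : ∀ b, ‖v b‖ ≤ 1) (b : ℕ) : ‖(cp a b : ℂ) * v b‖ ≤ 1 := by
  rw [norm_mul, Complex.norm_real, Real.norm_eq_abs, abs_of_nonneg (cp_bd a b).1]
  exact mul_le_one₀ (cp_bd a b).2 (norm_nonneg _) (hv b)

lemma SmallR.toC {c : ℕ → ℝ} {δ : ℝ} (H : SmallR a N c δ) : SmallC a N c δ := fun u v hu hv => by
  rw [Bf_cp]
  exact H u _ hu (norm_cp_mul hv)

/-- it suffices to test against functions on the units -/
lemma smallC_of [NeZero a] {c : ℕ → ℝ} {δ : ℝ} (H : ∀ (u : ℕ → ℂ) (v : ZMod a → ℂ),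
    (∀ n, ‖u n‖ ≤ 1) → (∀ y, ‖v y‖ ≤ 1) → (∀ y, ¬ IsUnit y → v y = 0) →
    ‖Bf a N (fun m => (c m : ℂ)) u (fun b => v b)‖ ≤ δ * a * N) : SmallC a N c δ := by
  intro u v hu hv
  rw [Bf_cp]
  have h1 := H u (fun y : ZMod a => (cp a y.val : ℂ) * v y.val) hu (fun y => norm_cp_mul hv _)
    fun y hy => by
      rw [cp_of_not fun h0 => hy ?_, Complex.ofReal_zero, zero_mul]
      rw [← ZMod.natCast_zmod_val y]
      exact (ZMod.isUnit_iff_coprime _ _).2 h0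
  refine le_trans (le_of_eq (congrArg _ ?_)) h1
  unfold Bf
  exact sum_congr rfl fun n _ => sum_congr rfl fun b hb => by
    simp only [ZMod.val_cast_of_lt (mem_Ico.1 hb).2]

lemma SmallC.add {c c' : ℕ → ℝ} {δ δ' : ℝ} (H : SmallC a N c δ) (H' : SmallC a N c' δ') :
    SmallC a N (fun m => c m + c' m) (δ + δ') :=
  (SmallR.add H H').congr fun _ _ _ _ => mul_add _ _ _

lemma SmallC.mul_row {c : ℕ → ℝ} {δ B : ℝ} (H : SmallC a N c δ) {φ : ℕ → ℝ} (hB : 0 < B)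
    (hφ : ∀ n, |φ n| ≤ B) : SmallC a N (fun m => φ (m / a) * c m) (B * δ) :=
  (SmallR.mul_row H hB hφ).congr fun _ _ _ _ => mul_left_comm _ _ _

lemma smallC_of_l1 {c : ℕ → ℝ} {δ : ℝ}
    (H : ∑ m ∈ Ico (a * N) (a * (2 * N)), |c m| ≤ δ * a * N) : SmallC a N c δ :=
  (smallR_of_l1 H).toC

lemma smallC_sum {ι : Type*} (s : Finset ι) (c : ι → ℕ → ℝ) (δ : ι → ℝ)
    (H : ∀ i ∈ s, SmallC a N (c i) (δ i)) :
    SmallC a N (fun m => ∑ i ∈ s, c i m) (∑ i ∈ s, δ i) :=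
  (smallR_sum s (fun i m => cp a m * c i m) δ H).congr fun _ _ _ _ => mul_sum _ _ _

lemma SmallC.real {c : ℕ → ℝ} {δ : ℝ} (H : SmallC a N c δ) {u v : ℕ → ℝ} (hu : ∀ n, |u n| ≤ 1)
    (hv : ∀ b, |v b| ≤ 1) (hc : ∀ b, v b ≠ 0 → b.Coprime a) : |Br a N c u v| ≤ δ * a * N := by
  have e1 : Br a N c u v = Br a N (fun m => cp a m * c m) u v :=
    sum_congr rfl fun n _ => sum_congr rfl fun b _ => by
      by_cases h0 : v b = 0
      · rw [h0, mul_zero, mul_zero]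
      · simp only [cp_row, cp_of (hc b h0), one_mul]
  rw [e1]
  exact SmallR.real H hu hv

lemma ApproxC.mono {c : ℕ → ℝ} {δ δ' : ℝ} (H : ApproxC a N w h c δ) (hδ : δ ≤ δ') :
    ApproxC a N w h c δ' :=
  let ⟨ν, hν⟩ := H; ⟨ν, hν.mono hδ⟩

lemma ApproxC.congr {c c' : ℕ → ℝ} {δ : ℝ} (H : ApproxC a N w h c δ)
    (hc : ∀ n ∈ Ico N (2 * N), ∀ b ∈ Ico 1 a, (a * n + b).Coprime a →
      c' (a * n + b) = c (a * n + b)) : ApproxC a N w h c' δ :=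
  let ⟨ν, hν⟩ := H; ⟨ν, hν.congr fun n hn b hb h0 => by simp only [hc n hn b hb h0]⟩

lemma SmallC.approx {c : ℕ → ℝ} {δ : ℝ} (H : SmallC a N c δ) : ApproxC a N w h c δ :=
  ⟨fun _ => 0, H.congr fun _ _ _ _ _ => by simp⟩

lemma ApproxC.add {c c' : ℕ → ℝ} {δ δ' : ℝ} (H : ApproxC a N w h c δ)
    (H' : ApproxC a N w h c' δ') : ApproxC a N w h (fun m => c m + c' m) (δ + δ') :=
  let ⟨ν, hν⟩ := H
  let ⟨ν', hν'⟩ := H'
  ⟨fun s => ν s + ν' s, (hν.add hν').congr fun _ _ _ _ _ => by ring⟩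

lemma ApproxC.smul {c : ℕ → ℝ} {δ B t : ℝ} (H : ApproxC a N w h c δ) (hB : 0 < B)
    (ht : |t| ≤ B) : ApproxC a N w h (fun m => t * c m) (B * δ) :=
  let ⟨ν, hν⟩ := H
  ⟨fun s => t * ν s, (hν.mul_row (φ := fun _ => t) hB fun _ => ht).congr
    fun _ _ _ _ _ => by ring⟩

lemma approxC_sum {ι : Type*} (s : Finset ι) (c : ι → ℕ → ℝ) (δ : ι → ℝ)
    (H : ∀ i ∈ s, ApproxC a N w h (c i) (δ i)) :
    ApproxC a N w h (fun m => ∑ i ∈ s, c i m) (∑ i ∈ s, δ i) := by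
  classical
  induction s using Finset.induction_on with
  | empty => exact (smallC_of_l1 (by simp)).approx
  | insert i s hi ih =>
    rw [sum_insert hi]
    exact ((H i (mem_insert_self _ _)).add (ih fun j hj => H j (mem_insert_of_mem hj))).congr
      fun _ _ _ _ _ => by rw [sum_insert hi]

/-! ### Functions on the residues -/

lemma norm_fm_le (a q : ℕ) (χ : DirichletCharacter ℂ (a * q)) (ξ : ℤ) (m : ℕ) :
    ‖fm a q χ ξ m‖ ≤ 1 := by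
  unfold fm
  rcases Nat.eq_zero_or_pos q with rfl | hq
  · simp
  rw [norm_mul, norm_div, norm_one, Complex.norm_natCast, one_div,
    inv_mul_le_iff₀ (by exact_mod_cast hq), mul_one]
  refine (norm_sum_le _ _).trans ((sum_le_card_nsmul _ _ 1 fun i _ => ?_).trans (by simp))
  rw [norm_mul, norm_e, mul_one]
  exact χ.norm_le_one _

lemma fm_eq_zero {a q : ℕ} (χ : DirichletCharacter ℂ (a * q)) (ξ : ℤ) {m : ℕ}
    (hm : ¬ m.Coprime a) : fm a q χ ξ m = 0 := by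
  unfold fm
  rw [sum_eq_zero fun i _ => ?_, mul_zero]
  rw [χ.map_nonunit fun h0 => hm ?_, zero_mul]
  have h1 := ((ZMod.isUnit_iff_coprime _ _).1 h0).coprime_mul_right_right
  rwa [add_comm, coprime_row] at h1

lemma Fam_bd [NeZero a] {ρ : ℕ} : ∀ φ ∈ Fam a ρ, ∀ y, ‖φ y‖ ≤ 1 ∧ (¬ IsUnit y → φ y = 0) := by
  rintro φ ⟨q1, q2, r, ξ, χ, -, -, -, -, -, h⟩ y
  rw [h y]
  refine ⟨norm_fm_le _ _ _ _ _, fun hy => fm_eq_zero χ ξ fun h0 => hy ?_⟩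
  rw [← ZMod.natCast_zmod_val y]
  exact (ZMod.isUnit_iff_coprime _ _).2 h0

lemma Mq.mono [NeZero a] {f : ZMod a → ℂ} {S : Set (ZMod a → ℂ)} {τ F F' : ℝ}
    (H : Mq f S τ F) (hF : F ≤ F') : Mq f S τ F' :=
  ⟨H.zero, H.l2, fun y => (H.sup y).trans hF, H.cf⟩

lemma Mq.zero' [NeZero a] {f : ZMod a → ℂ} {S : Set (ZMod a → ℂ)} {τ F : ℝ}
    (H : Mq f S τ F) (ha : 2 ≤ a) : f 0 = 0 := by
  have : Fact (1 < a) := ⟨ha⟩
  exact H.zero 0 not_isUnit_zero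

lemma nl_bd (Y : ℕ) (x : ZMod a) : 0 ≤ nl Y x ∧ nl Y x ≤ 1 := by
  unfold nl; split_ifs <;> norm_num

lemma G3_nonneg [NeZero a] (f : ZMod a → ℂ) (k k' : ℕ) (r : ℤ) : 0 ≤ G3 f k k' r := sq_nonneg _

lemma ww_eq_zero {f : ZMod a → ℂ} (hf : ∀ y, ¬ IsUnit y → f y = 0) {k k' : ℕ}
    (h : ¬ (k.Coprime a ∧ k'.Coprime a)) (y : ZMod a) : ww f k k' y = 0 := by
  unfold ww
  by_cases h1 : k.Coprime a
  · rw [hf (k' * y) fun h0 => h ⟨h1, (ZMod.isUnit_iff_coprime _ _).1 (isUnit_of_mul_isUnit_left h0)⟩,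
      map_zero, mul_zero]
  · rw [hf _ fun h0 => h1 ((ZMod.isUnit_iff_coprime _ _).1 (isUnit_of_mul_isUnit_left h0)),
      zero_mul]

/-! ### Primes dividing the modulus -/

lemma card_primeFactors_le_lg {M : ℕ} (hM : 1 ≤ M) : M.primeFactors.card ≤ lg M := by
  refine (Nat.le_log_iff_pow_le (by norm_num) (by omega)).2 ?_
  refine le_trans ?_ (Nat.le_of_dvd hM (Nat.prod_primeFactors_dvd M))
  rw [← prod_const]
  exact prod_le_prod' fun p hp => (Nat.prime_of_mem_primeFactors hp).two_le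

/-- changing the coefficients at the primes dividing `M` -/
lemma box_cop {M P : ℕ} (hM : 1 ≤ M) (hP : 1 ≤ P) {c c' : ℕ → ℂ} (hc : ∀ p, ‖c p‖ ≤ 1)
    (hc' : ∀ p, ‖c' p‖ ≤ 1) (h : ∀ p, p.Prime → ¬ p ∣ M → c p = c' p) (t : ℝ) :
    ‖∑ p ∈ PP P (2 * P), c p / (p : ℂ) * nit t p‖ ≤
      ‖∑ p ∈ PP P (2 * P), c' p / (p : ℂ) * nit t p‖ + 2 * lg M / P := by
  have P0 : (0 : ℝ) < P := by exact_mod_cast hP
  refine (norm_le_insert' _ (∑ p ∈ PP P (2 * P), c' p / (p : ℂ) * nit t p)).trans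
    (add_le_add le_rfl ?_)
  rw [← sum_sub_distrib, ← sum_filter_of_ne (p := fun p => p ∣ M) fun p hp h0 => by
    by_contra h1
    exact h0 (by rw [h p (PP_prime hp) h1, sub_self])]
  refine (norm_sum_le _ _).trans ((sum_le_card_nsmul _ _ (2 / P : ℝ) fun p hp => ?_).trans ?_)
  · have : (P : ℝ) ≤ p := by exact_mod_cast (mem_PP.1 (mem_filter.1 hp).1).1.le
    rw [← sub_mul, ← sub_div, norm_mul, norm_nit, mul_one, norm_div, Complex.norm_natCast]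
    gcongr
    exact (norm_sub_le _ _).trans (by linarith [hc p, hc' p])
  · have h1 : ((PP P (2 * P)).filter (fun p => p ∣ M)).card ≤ lg M :=
      (card_le_card fun p hp => Nat.mem_primeFactors.2
        ⟨PP_prime (mem_filter.1 hp).1, (mem_filter.1 hp).2, by omega⟩).trans
        (card_primeFactors_le_lg hM)
    have h2 : (((PP P (2 * P)).filter (fun p => p ∣ M)).card : ℝ) ≤ lg M := by exact_mod_cast h1
    rw [nsmul_eq_mul, mul_div_assoc', mul_comm]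
    gcongr

end Pool.Agent.P.MP_746f10_nt.AP
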