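import Pool.Agent.P.MP_746f10_nt.AP.Base

/-! Interface of the theorem on prime values of forms with fixed general moduli. -/

namespace Pool.Agent.P.MP_746f10_nt.AP

open Finset ComplexConjugate
open Pool.Agent.P.MP_0ad054_nt (e mn)
open Pool.Agent.P.MP_a14ce1_nt.Ch (nit sm)

/-! ### Definitions -/

/-- the range of the parameters -/
def Rg (Q a N : ℕ) : Prop :=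
  Q ^ 2 ≤ a * N ∧ a * N ≤ 2 * Q ^ 2 ∧ N ≤ a ∧ a ^ 2 ≤ N ^ 3 ∧ N ≤ Q

/-- indicator of the numbers coprime to `a` -/
noncomputable def cp (a m : ℕ) : ℝ := if m.Coprime a then 1 else 0

/-- small cut norm on the columns coprime to the modulus -/
def SmallC (a N : ℕ) (c : ℕ → ℝ) (δ : ℝ) : Prop := SmallR a N (fun m => cp a m * c m) δ

/-- close to a multiple of the model on the columns coprime to the modulus -/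
def ApproxC (a N w h : ℕ) (c : ℕ → ℝ) (δ : ℝ) : Prop :=
  ∃ ν : ℕ → ℝ, SmallC a N (fun m => c m - ν (m / a / h) * rr w m) δ

open Classical in
/-- the patterns of boxes with a divisor in the bilinear range -/
noncomputable def Pats2 (u Q : ℕ) : Finset (Finset ℕ) :=
  (Icc (lg Q / u) (2 * lg Q + 4)).powerset.filter fun S => S.card ≤ 3 * u ∧
    2 * lg Q ≤ ∑ j ∈ S, j + S.card ∧ ∑ j ∈ S, j ≤ 2 * lg Q + 4 ∧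
    ∃ S1 ⊆ S, 13 * lg Q / 20 ≤ ∑ j ∈ S1, j ∧ ∑ j ∈ S1, j + 3 * u + Nat.sqrt (lg Q) ≤ lg Q

/-- the data of a bilinear term -/
structure T3 (u Q w : ℕ) extends T2 u Q w where
  hK2 : Q ^ 13 ≤ (4 * K) ^ 20

/-- the modulus `a` is not exceptional -/
def Gd2 (u A B Q a : ℕ) : Prop := ∀ q : ℕ, 1 ≤ q → q ≤ lg Q ^ B →
  ∀ κ : DirichletCharacter ℂ (a * q), κ ≠ 1 → ∀ j, lg Q / u ≤ j → 2 ^ (j + 1) ≤ Q → ∀ t : ℝ,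
  |t| ≤ 4 * (Q : ℝ) ^ 2 → ‖∑ p ∈ box j, κ p / (p : ℂ) * nit t p‖ ≤ 1 / (lg Q : ℝ) ^ A

/-- average of a twisted character over the lifts of a residue class -/
noncomputable def fm (a q : ℕ) (χ : DirichletCharacter ℂ (a * q)) (ξ : ℤ) (m : ℕ) : ℂ :=
  1 / (q : ℂ) * ∑ i ∈ range q,
    χ ((m + a * i : ℕ) : ZMod (a * q)) * e ((ξ : ℝ) * (m + a * i : ℕ) / (a * q : ℕ))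

/-- the major functions -/
def Fam (a ρ : ℕ) : Set (ZMod a → ℂ) := {φ | ∃ (q1 q2 : ℕ) (r ξ : ℤ)
  (χ : DirichletCharacter ℂ (a * q2)), 1 ≤ q1 ∧ 1 ≤ q2 ∧ q1 * q2 ≤ ρ ∧ |r| ≤ ρ ∧
    ((a * q2 : ℕ) : ℤ) ∣ q1 * ξ - r ∧ ∀ y, φ y = fm a q2 χ ξ y.val}

/-- pairs of numbers coprime to `a` -/
def Pc (a K : ℕ) : Finset (ℕ × ℕ) :=
  (Icc 1 K ×ˢ Icc 1 K).filter fun p => p.1.Coprime a ∧ p.2.Coprime a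

/-- the triple lies on a plane of small height -/
def Sp (d k k' : ℕ) (r : ℤ) : Prop := ∃ d1 d2 d3 : ℤ, ¬ (d1 = 0 ∧ d2 = 0 ∧ d3 = 0) ∧ |d1| ≤ d ∧
  |d2| ≤ d ∧ |d3| ≤ d ∧ d1 * k + d2 * k' + d3 * r = 0

/-- the pair lies near a line of small height -/
def Ex2 (H1 H2 k k' : ℕ) : Prop := ∃ c1 c2 : ℤ, ¬ (c1 = 0 ∧ c2 = 0) ∧ |c1| ≤ H1 ∧ |c2| ≤ H1 ∧
  |c1 * k + c2 * k'| ≤ H2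

section ring
variable {a : ℕ}

/-- indicator of the small residues -/
noncomputable def nl (Y : ℕ) (x : ZMod a) : ℝ := if x.val < Y then 1 else 0

/-- sum over the first multiples -/
noncomputable def AA (h : ZMod a → ℝ) (K : ℕ) (l : ZMod a) : ℝ := ∑ k ∈ Icc 1 K, h (k * l)

/-- product of two dilates -/
noncomputable def ww (f : ZMod a → ℂ) (k k' : ℕ) (y : ZMod a) : ℂ := f (k * y) * conj (f (k' * y))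

variable [NeZero a]

/-- a function without large coefficients -/
structure Mq (f : ZMod a → ℂ) (S : Set (ZMod a → ℂ)) (τ F : ℝ) : Prop where
  zero : ∀ y, ¬ IsUnit y → f y = 0
  l2 : ∑ y, ‖f y‖ ^ 2 ≤ a
  sup : ∀ y, ‖f y‖ ≤ F
  cf : ∀ φ ∈ S, ‖∑ y, f y * conj (φ y)‖ ≤ τ * a

/-- Fourier coefficient -/
noncomputable def wh (W : ZMod a → ℂ) (r : ℤ) : ℂ :=
  1 / (a : ℂ) * ∑ z, W z * ZMod.stdAddChar (-((r : ZMod a) * z))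

/-- squared Fourier coefficient of the product of two dilates -/
noncomputable def G3 (f : ZMod a → ℂ) (k k' : ℕ) (r : ℤ) : ℝ := ‖wh (ww f k k') r‖ ^ 2

/-- squared matrix coefficient of the affine group -/
noncomputable def Gm (f : ZMod a → ℂ) (x lam : ZMod a) : ℝ :=
  ‖1 / (a : ℂ) * ∑ y : ZMod a, f (x * y) * conj (f y) * ZMod.stdAddChar (-(lam * y))‖ ^ 2

/-- a positive kernel with frequencies up to `R` -/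
structure Ker (R : ℕ) (ω : ZMod a → ℝ) (fe : ℤ → ℂ) : Prop where
  nn : ∀ z, 0 ≤ ω z
  one : ∑ z, ω z = 1
  bd : ∀ r, ‖fe r‖ ≤ 1
  eq : ∀ (W : ZMod a → ℂ) (y : ZMod a), ∑ z, (ω z : ℂ) * W (y + z) =
    ∑ r ∈ Icc (-(R : ℤ)) R, fe r * wh W r * ZMod.stdAddChar ((r : ZMod a) * y)

end ring

/-! ### Sieve facts -/

def T_Ident : Prop := ∀ u : ℕ, 1 ≤ u → ∃ Q0 : ℕ, ∀ Q m : ℕ, Q0 ≤ Q → Q ^ 2 ≤ m → m < 4 * Q ^ 2 →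
  |pr1 m - rr (zz u Q) m * sigD Q m + ∑ S ∈ Pats2 u Q, sg Q S * CS S m| ≤
    3 * 2 ^ (3 * u) * bad u Q m

def T_Blk : Prop := ∀ A : ℕ, ∃ Q0 : ℕ, ∀ Q a N n1 n2 : ℕ, Q0 ≤ Q → Rg Q a N → N ≤ n1 →
  n1 ≤ n2 → n2 ≤ 2 * N →
  (a : ℝ) * (n2 - n1) / (2 * lg Q) - a * N / (lg Q : ℝ) ^ A ≤
    ∑ n ∈ Ico n1 n2, ∑ b ∈ Ico 1 a, pr1 (a * n + b)

def T_Pos : Prop := ∀ k : ℕ, ∃ c : ℝ, 0 < c ∧ ∀ Cw : ℕ, ∃ N0 : ℕ, ∀ (N w : ℕ) (a b : Fin k → ℕ),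
  N0 ≤ N → lg N ^ 2 ≤ w → w ≤ lg N ^ Cw → (∀ i, 1 ≤ a i ∧ a i ≤ N ^ 2) → Adm a b →
  c * N * VV w ^ k * ∏ i, ((a i : ℝ) / (a i).totient) ≤
    ∑ n ∈ Ico N (2 * N), ∏ i, rr w (a i * n + b i)

/-! ### Linear sums -/

def T_TIb : Prop := ∃ C : ℝ, 0 < C ∧ ∀ (a N w D : ℕ) (γ : ℕ → ℂ), 1 ≤ a → 1 ≤ w → 1 ≤ N →
  (∀ q, ‖γ q‖ ≤ 1 / q) → (∀ q, γ q ≠ 0 → q.Coprime a) →
  Small a N (fun m => ∑ q ∈ Ioc w D, γ q *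
      ∑ r ∈ (range q).filter (fun r => r.Coprime q), e ((r : ℝ) * m / q))
    (C * (1 + Real.log D) ^ 2 * (1 / w + 1 / √N + 1 / √a + D / √(a * N)))

def T_TIa : Prop := ∃ C : ℝ, 0 < C ∧ ∀ (a N w D1 D2 : ℕ) (lam lam' : ℕ → ℝ), 1 ≤ a → 1 ≤ w →
  1 ≤ N → (∀ d, |lam d| ≤ 1) → (∀ g, |lam' g| ≤ 1) →
  (∀ d, lam d ≠ 0 → d.Coprime a ∧ ∀ p, p.Prime → p ∣ d → p ≤ w) →
  (∀ g, lam' g ≠ 0 → g.Coprime a ∧ rough w g) →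
  SmallR a N (fun m => (∑ d ∈ Icc 1 D1, lam d * dd m d) *
      ∑ g ∈ Icc 1 D2, lam' g * (dd m g - 1 / g))
    (C * (1 + Real.log (D1 * D2 : ℕ)) ^ 3 *
      (1 / w + 1 / √N + 1 / √a + (D1 * D2 : ℕ) / √(a * N)))

def T_TIM : Prop := ∀ A : ℕ, ∃ Cw0 : ℕ, ∀ Cw : ℕ, ∃ Q0 : ℕ, ∀ (Q a N w D2 : ℕ) (lam' : ℕ → ℝ),
  Q0 ≤ Q → Rg Q a N → lg Q ^ Cw0 ≤ w → w ≤ lg Q ^ Cw → D2 * om Q ≤ Q →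
  (∀ g, |lam' g| ≤ 1) → (∀ g, lam' g ≠ 0 → g.Coprime a ∧ rough w g) →
  SmallC a N (fun m => rr w m * ∑ g ∈ Icc 1 D2, lam' g * (dd m g - 1 / g)) (1 / (lg Q : ℝ) ^ A)

def T_Mod2 : Prop := ∀ u A CL : ℕ, ∃ Ch Cw0 : ℕ, ∀ Cw : ℕ, ∃ Q0 : ℕ,
  ∀ (Q a N w K L' : ℕ) (al cf : ℕ → ℝ), Q0 ≤ Q → Rg Q a N → lg Q ^ Cw0 ≤ w →
  w ≤ lg Q ^ Cw → (∀ k, 0 ≤ al k ∧ al k ≤ rr w k) →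
  (∀ k, al k ≠ 0 → K < k ∧ k ≤ 2 ^ (3 * u) * K) → Q ^ 3 ≤ (4 * K) ^ 5 →
  2 ^ (3 * u) * K * om Q ≤ Q → (∀ i, 0 ≤ cf i ∧ cf i ≤ 1) → Q ^ 2 ≤ K * L' * lg Q ^ CL →
  ApproxC a N w (N / lg Q ^ Ch) (cv al (fun l => rr w l * cf (l / L'))) (1 / (lg Q : ℝ) ^ A)

/-! ### The minor part -/

def T_Split : Prop := ∀ (a : ℕ) [NeZero a] (v : ZMod a → ℂ) (S : Set (ZMod a → ℂ)) (τ : ℝ),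
  0 < τ → (∀ φ ∈ S, ∀ y, ‖φ y‖ ≤ 1 ∧ (¬ IsUnit y → φ y = 0)) → (∀ y, ‖v y‖ ≤ 1) →
  (∀ y, ¬ IsUnit y → v y = 0) →
  ∃ (n : ℕ) (φ : ℕ → ZMod a → ℂ) (cf : ℕ → ℂ) (f : ZMod a → ℂ), (n : ℝ) ≤ 1 / τ ^ 2 ∧
    (∀ i, i < n → φ i ∈ S ∧ ‖cf i‖ ≤ 1) ∧ (∀ y, v y = f y + ∑ i ∈ range n, cf i * φ i y) ∧
    Mq f S τ (1 + n)

def T_Fej : Prop := ∀ (a : ℕ) [NeZero a] (R J : ℕ), 1 ≤ R → R ≤ a → 1 ≤ J →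
  ∃ (ω : ZMod a → ℝ) (fe : ℤ → ℂ), Ker R ω fe ∧
    ∑ z ∈ univ.filter (fun z : ZMod a => J ≤ z.val), ω z ≤ 4 * a / (R * J)

open Classical in
def T_PV : Prop := ∃ C : ℝ, 0 < C ∧ ∀ (a : ℕ) [NeZero a] (h : ZMod a → ℝ) (K : ℕ),
  ∑ l ∈ univ.filter IsUnit, (AA h K l - K * (∑ x, h x) / a) ^ 2 ≤
    C * a * a.divisors.card * (1 + Real.log a) ^ 2 * ∑ x, h x ^ 2

def T_HP : Prop := ∃ C : ℝ, 0 < C ∧ ∀ (a : ℕ) [NeZero a] (f : ZMod a → ℂ) (K L Y : ℕ) (s : ZMod a)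
  (Z : ℝ), (∀ y, ¬ IsUnit y → f y = 0) → ∑ y, ‖f y‖ ^ 2 ≤ a → Y ≤ a →
  C * (L + a) * a * a.divisors.card * (1 + Real.log a) ^ 2 ≤ Z →
  ∑ y ∈ range L, AA (fun x => ‖f x‖ * nl Y x) K (y + s) * AA (fun x => ‖f x‖) K (y + s) ≤
      L * (K : ℝ) ^ 2 * √(Y / a) + 2 * K * √(L * Z) + Z ∧
    ∑ y ∈ range L, AA (fun x => ‖f x‖) K (y + s) ^ 2 ≤ L * (K : ℝ) ^ 2 + 2 * K * √(L * Z) + Z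

def T_CSW : Prop := ∀ (a : ℕ) [NeZero a] (N K K2 J L : ℕ) (α β u : ℕ → ℂ) (f : ZMod a → ℂ)
  (ω : ZMod a → ℝ) (t H P : ℝ), 1 ≤ K → 1 ≤ N → K2 * J ≤ a → L = 2 * a * N / K + 1 →
  (∀ k, ‖α k‖ ≤ 1) → (∀ l, ‖β l‖ ≤ 1) → (∀ n, ‖u n‖ ≤ 1) → (∀ k, α k ≠ 0 → K < k ∧ k ≤ K2) →
  f 0 = 0 → (∀ z, 0 ≤ ω z) → ∑ z, ω z = 1 →
  ∑ z ∈ univ.filter (fun z : ZMod a => J ≤ z.val), ω z ≤ t →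
  (∀ s : ZMod a, ∑ y ∈ range L,
    AA (fun x => ‖f x‖ * nl (K2 * J) x) K2 (y + s) * AA (fun x => ‖f x‖) K2 (y + s) ≤ H) →
  (∀ s : ZMod a, ∑ y ∈ range L, AA (fun x => ‖f x‖) K2 (y + s) ^ 2 ≤ P) →
  ‖Bf a N (cv α β) u (fun b => f b)‖ ^ 2 ≤ L * (∑ k ∈ Icc 1 K2, ∑ k' ∈ Icc 1 K2, ∑ y ∈ range L,
    ‖∑ z, (ω z : ℂ) * ww f k k' (y + z)‖ + 4 * H + 2 * t * P)

def T_LH : Prop := ∀ (a : ℕ) [NeZero a] (c : ℤ → ℂ) (S : Finset ℤ) (R Y L : ℕ),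
  (∀ r ∈ S, |r| ≤ R) → 4 * R ≤ a →
  ∑ y ∈ range L, ‖∑ r ∈ S, c r * ZMod.stdAddChar ((r : ZMod a) * (y : ZMod a))‖ ^ 2 ≤
      (L + a) * ∑ r ∈ S, ‖c r‖ ^ 2 ∧
    (1 ≤ Y → (∀ r ∈ S, ∀ r' ∈ S, r ≠ r' → (Y : ℤ) ≤ |r - r'|) →
      ∑ y ∈ range L, ‖∑ r ∈ S, c r * ZMod.stdAddChar ((r : ZMod a) * (y : ZMod a))‖ ^ 2 ≤
        2 * (3 * L + (a / Y + 1) * (1 + Real.log (2 * a))) * ∑ r ∈ S, ‖c r‖ ^ 2)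

open Classical in
def T_Excl : Prop := (∃ C : ℝ, 0 < C ∧ ∀ K H1 H2 : ℕ,
    (((Icc 1 K ×ˢ Icc 1 K).filter fun p => Ex2 H1 H2 p.1 p.2).card : ℝ) ≤ C * K * H1 * (H1 + H2)) ∧
  ∀ (d Y k k' : ℕ) (r r' : ℤ), 1 ≤ d → ¬ Ex2 (2 * d ^ 2) (d ^ 2 * Y) k k' → Sp d k k' r →
    Sp d k k' r' → r ≠ r' → (Y : ℤ) ≤ |r - r'|

open Classical in
def T_L3 : Prop := ∃ C : ℝ, 0 < C ∧ ∀ (a : ℕ) [NeZero a] (x lam : ZMod a) (E ρ g : ℕ)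
  (P : Finset (ℤ × ℤ × ℤ)), 2 ≤ ρ → 3 * ρ * E < a →
  (∀ p ∈ P, |p.1| ≤ E ∧ |p.2.1| ≤ E ∧ |p.2.2| ≤ E ∧ (p.1 : ZMod a) = x * (p.2.1 : ZMod a) ∧
    (p.2.2 : ZMod a) = lam * (p.2.1 : ZMod a)) →
  (∀ p ∈ P, ∀ d : ℤ × ℤ × ℤ, d ≠ 0 → |d.1| ≤ ρ → |d.2.1| ≤ ρ → |d.2.2| ≤ ρ →
    d.1 * p.1 + d.2.1 * p.2.1 + d.2.2 * p.2.2 ≠ 0) →
  (∀ p0 ∈ P, (P.filter (fun p => par p0 p)).card ≤ g) →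
  (P.card : ℝ) ≤ g + C * ((E : ℝ) ^ 2 / (a * ρ) + E * (a : ℝ) ^ (1 / 3 : ℝ) / a + (E : ℝ) ^ 3 / (a : ℝ) ^ 2)

open Classical in
def T_Pair : Prop := ∀ K g0 : ℕ, 1 ≤ g0 →
  ((((Icc 1 K ×ˢ Icc 1 K).filter (fun p => g0 < Nat.gcd p.1 p.2)).card : ℝ) ≤ (K : ℝ) ^ 2 / g0) ∧
  ∀ (M : ℕ) [NeZero M] (h : ZMod M → ℝ) (B : ℝ), (∀ x, 0 ≤ h x ∧ h x ≤ B) →
    ∑ p ∈ Pc M K, h ((p.1 : ZMod M) * (p.2 : ZMod M)⁻¹) ≤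
      (g0 + 16 * (K : ℝ) ^ 2 / M) * ∑ x ∈ univ.filter IsUnit, h x + (K : ℝ) ^ 2 / g0 * B

def T_Mass : Prop := ∀ (a : ℕ) [NeZero a] (f : ZMod a → ℂ) (S : Set (ZMod a → ℂ)) (τ F : ℝ),
  Mq f S τ F → ∑ x, ∑ lam, Gm f x lam ≤ a ∧
    (∀ k k' R : ℕ, 2 * R < a → ∑ r ∈ Icc (-(R : ℤ)) R, G3 f k k' r ≤ F ^ 4) ∧
    ∀ (k k' : ℕ) (r : ℤ), k'.Coprime a →
      G3 f k k' r = Gm f ((k : ZMod a) * (k' : ZMod a)⁻¹) ((r : ZMod a) * (k' : ZMod a)⁻¹)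

open Classical in
def T_PlA : Prop := ∀ (M : ℕ) [NeZero M] (f1 f2 : ZMod M → ℂ) (B : ℝ),
  (∀ y, ¬ IsUnit y → f2 y = 0) →
  (∀ χ : DirichletCharacter ℂ M, ‖∑ z, f1 z * conj (χ z)‖ ≤ B) →
  ∑ x ∈ univ.filter IsUnit, ‖∑ y, f1 (x * y) * conj (f2 y)‖ ^ 2 ≤ B ^ 2 * ∑ y, ‖f2 y‖ ^ 2

def T_Plane : Prop := ∀ (a : ℕ) [NeZero a] (f : ZMod a → ℂ) (ρ K g0 R : ℕ) (τ F : ℝ)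
  (d1 d2 d3 : ℤ), Mq f (Fam a ρ) τ F → 1 ≤ g0 → |d1| ≤ ρ → d3 ≠ 0 → |d3| ≤ ρ →
  ∑ p ∈ Pc a K, ∑ r ∈ (Icc (-(R : ℤ)) R).filter (fun r => d1 * p.1 + d2 * p.2 + d3 * r = 0),
      G3 f p.1 p.2 r ≤ (g0 * ρ * a + 16 * (K : ℝ) ^ 2) * τ ^ 2 + (K : ℝ) ^ 2 / g0 * F ^ 4

open Classical in
def T_GamH : Prop := ∃ C : ℝ, 0 < C ∧ ∀ (a : ℕ) [NeZero a] (f : ZMod a → ℂ)
  (S : Set (ZMod a → ℂ)) (τ F : ℝ) (d K R g0 : ℕ), Mq f S τ F → 2 ≤ d → K ≤ R → 3 * d * R < a →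
  ∑ p ∈ (Pc a K).filter (fun p => Nat.gcd p.1 p.2 ≤ g0),
      ∑ r ∈ (Icc (-(R : ℤ)) R).filter (fun r => ¬ Sp d p.1 p.2 r), G3 f p.1 p.2 r ≤
    g0 * a + C * ((R : ℝ) ^ 2 / d + R * (a : ℝ) ^ (1 / 3 : ℝ) + (R : ℝ) ^ 3 / a)

def T_Gam : Prop := ∃ C : ℝ, 0 < C ∧ ∀ (a : ℕ) [NeZero a] (f : ZMod a → ℂ) (τ F : ℝ)
  (ρ K R g0 : ℕ), Mq f (Fam a ρ) τ F → 2 ≤ ρ → 1 ≤ g0 → 1 ≤ K → K ≤ R → 3 * ρ * R < a →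
  ∑ p ∈ Pc a K, ∑ r ∈ Icc (-(R : ℤ)) R, G3 f p.1 p.2 r ≤
    C * ((ρ : ℝ) ^ 3 * ((g0 * ρ * a + (K : ℝ) ^ 2) * τ ^ 2 + (K : ℝ) ^ 2 * F ^ 4 / g0 + K * F ^ 4) +
      g0 * a + (R : ℝ) ^ 2 / ρ + R * (a : ℝ) ^ (1 / 3 : ℝ) + (R : ℝ) ^ 3 / a)

open Classical in
def T_Win : Prop := ∃ C : ℝ, 0 < C ∧ ∀ (a : ℕ) [NeZero a] (f : ZMod a → ℂ) (S : Set (ZMod a → ℂ))
  (τ F G1 G2 : ℝ) (ω : ZMod a → ℝ) (fe : ℤ → ℂ) (K R L Y d g0 : ℕ), Mq f S τ F → Ker R ω fe →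
  4 * R ≤ a → 1 ≤ Y → 1 ≤ d → 1 ≤ g0 →
  ∑ p ∈ Pc a K, ∑ r ∈ Icc (-(R : ℤ)) R, G3 f p.1 p.2 r ≤ G1 →
  ∑ p ∈ (Pc a K).filter (fun p => Nat.gcd p.1 p.2 ≤ g0),
    ∑ r ∈ (Icc (-(R : ℤ)) R).filter (fun r => ¬ Sp d p.1 p.2 r), G3 f p.1 p.2 r ≤ G2 →
  ∑ k ∈ Icc 1 K, ∑ k' ∈ Icc 1 K, ∑ y ∈ range L, ‖∑ z, (ω z : ℂ) * ww f k k' (y + z)‖ ≤
    F ^ 2 * L * ((K : ℝ) ^ 2 / g0 + C * K * (d : ℝ) ^ 4 * Y) +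
      K * √(L * (2 * (3 * L + (a / Y + 1) * (1 + Real.log (2 * a)))) * G1) +
      K * √(L * (L + a) * G2)

def T_MinX : Prop := ∃ D : ℝ, 0 < D ∧ ∀ (a : ℕ) [NeZero a] (N K K2 T F Y : ℕ) (α β u : ℕ → ℂ)
  (f : ZMod a → ℂ), 1 ≤ K → 1 ≤ N → K ≤ K2 → 2 ≤ T → 1 ≤ F → 1 ≤ Y → K ≤ 2 * N * Y →
  4 * Y * K2 * T ^ 23 ≤ a → Y * F ^ 4 * T ^ 73 * a.divisors.card * a ≤ K2 ^ 2 →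
  F ^ 2 * T ^ 66 * Y ^ 5 ≤ K2 → 1 + Real.log (2 * a) ≤ T →
  (∀ k, ‖α k‖ ≤ 1) → (∀ l, ‖β l‖ ≤ 1) → (∀ n, ‖u n‖ ≤ 1) → (∀ k, α k ≠ 0 → K < k ∧ k ≤ K2) →
  Mq f (Fam a (T ^ 17)) (1 / (T : ℝ) ^ 28) F →
  ‖Bf a N (cv α β) u (fun b => f b)‖ ^ 2 ≤
    (3 * a * N / K : ℝ) ^ 2 * (D * ((K2 : ℝ) ^ 2 / (T : ℝ) ^ 2))

def T_Minor : Prop := ∀ A U : ℕ, ∃ B Cτ : ℕ, ∀ CF : ℕ, ∃ Q0 : ℕ, ∀ (Q a : ℕ) [NeZero a] (N K : ℕ)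
  (α β u : ℕ → ℂ) (f : ZMod a → ℂ), Q0 ≤ Q → Rg Q a N → Q ^ 13 ≤ (4 * K) ^ 20 →
  2 ^ U * K * om Q ≤ Q → (∀ k, ‖α k‖ ≤ 1) → (∀ l, ‖β l‖ ≤ 1) → (∀ n, ‖u n‖ ≤ 1) →
  (∀ k, α k ≠ 0 → K < k ∧ k ≤ 2 ^ U * K) →
  Mq f (Fam a (lg Q ^ B)) (1 / (lg Q : ℝ) ^ Cτ) ((lg Q : ℝ) ^ CF) →
  ‖Bf a N (cv α β) u (fun b => f b)‖ ≤ a * N / (lg Q : ℝ) ^ A

/-! ### The major part -/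

def T_Row : Prop := ∃ C : ℝ, 0 < C ∧ ∀ (a : ℕ) [NeZero a] (N w ρ R : ℕ) (c u : ℕ → ℂ)
  (B0 Z : ℝ) (φ : ZMod a → ℂ), φ ∈ Fam a ρ → ρ ≤ w → 2 ≤ a → 1 ≤ N → 1 ≤ R → R ≤ a →
  (∀ n, ‖u n‖ ≤ 1) → (∀ m, m ≤ 8 * (a * N) → ‖c m‖ ≤ B0) → (∀ m, c m ≠ 0 → rough w m) →
  (∀ (q : ℕ) (κ : DirichletCharacter ℂ (a * q)), 1 ≤ q → q ≤ ρ →
    ∑ x ∈ Ico (a * N) (2 * (a * N)),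
      ‖∑ j ∈ range R, c (x + j) * κ ((x + j : ℕ) : ZMod (a * q))‖ ≤ Z) →
  ‖Bf a N c u (fun b => φ b)‖ ≤ ρ * Z / R + C * B0 * ρ * R * N

def T_HM : Prop := ∀ (M P hh : ℕ) (T V : ℝ) (E : Finset ℕ)
  (χ : (r : ℕ) → DirichletCharacter ℂ r) (t : ℕ → ℝ), 1 ≤ hh → 1 ≤ P → 0 < V → 0 ≤ T →
  (∀ r ∈ E, 1 ≤ r ∧ r ≤ M ∧ (χ r).IsPrimitive ∧ |t r| ≤ T ∧
    V ≤ ‖∑ p ∈ PP P (2 * P), χ r p / (p : ℂ) * nit (t r) p‖) →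
  (hh : ℝ) ^ hh * (2 * (M : ℝ) ^ 2 * (1 + 2 * T * hh)) ≤ V ^ (2 * hh) * (P : ℝ) ^ hh →
  (E.card : ℝ) ≤ 2 * (2 * hh : ℝ) ^ hh / V ^ (2 * hh)

def T_Exc : Prop := ∀ u A B : ℕ, 1 ≤ u → ∃ C : ℕ, ∀ B3 : ℕ, ∃ N0 : ℕ, ∀ N : ℕ, N0 ≤ N →
  ∃ R : Finset ℕ, R.card ≤ lg N ^ C ∧ (∀ r ∈ R, lg N ^ B3 < r) ∧
    ∀ Q a : ℕ, Rg Q a N → (∀ r ∈ R, ¬ r ∣ a) → Gd2 u A B Q a

def T_Match : Prop := ∀ (β : ℕ → ℝ) (w L Λ L' M Y : ℕ) (t : ℝ), (∀ l, 0 ≤ β l ∧ β l ≤ rr w l) →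
  1 ≤ M → 1 ≤ w → (∀ l, β l ≠ 0 → L < l ∧ l ≤ Λ * L) → 1 ≤ L' → 2 * L' ≤ L → Λ * L + L' ≤ Y →
  ‖∑ l ∈ Icc 1 Y, (ga β w L' l : ℂ) * (1 : DirichletCharacter ℂ M) l / (l : ℂ) * nit t l‖ ≤
    16 * Λ * (1 + |t|) * L' / L + lg M * (1 + Real.log Y) / w

def T_Major : Prop := ∀ u A B : ℕ, 1 ≤ u → ∃ A' CL Cw Q0 : ℕ, ∀ (Q a : ℕ) [NeZero a] (N w : ℕ)
  (d : T2 u Q w) (L' : ℕ) (φ : ZMod a → ℂ) (v : ℕ → ℂ), Q0 ≤ Q → Rg Q a N → Gd2 u A' B Q a →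
  lg Q ^ Cw ≤ w → 1 ≤ L' → L' * lg Q ^ CL ≤ d.L → φ ∈ Fam a (lg Q ^ B) → (∀ n, ‖v n‖ ≤ 1) →
  ‖Bf a N (fun m => ((cv d.al (ga d.be w L') m : ℝ) : ℂ)) v (fun b => φ b)‖ ≤
    a * N / (lg Q : ℝ) ^ A

/-! ### Assembly -/

def T_Diff : Prop := ∀ u A : ℕ, 1 ≤ u → ∃ A' B CL Cw Q0 : ℕ, ∀ (Q a N w : ℕ) (d : T3 u Q w)
  (L' : ℕ), Q0 ≤ Q → Rg Q a N → Gd2 u A' B Q a → lg Q ^ Cw ≤ w → 1 ≤ L' →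
  L' * lg Q ^ CL ≤ d.L → SmallC a N (cv d.al (ga d.be w L')) (1 / (lg Q : ℝ) ^ A)

def T_II : Prop := ∀ u A : ℕ, 1 ≤ u → ∃ A' B Ch Cw0 : ℕ, ∀ Cw : ℕ, ∃ Q0 : ℕ,
  ∀ (Q a N w : ℕ) (S : Finset ℕ), Q0 ≤ Q → Rg Q a N → Gd2 u A' B Q a → lg Q ^ Cw0 ≤ w →
  w ≤ lg Q ^ Cw → S ∈ Pats2 u Q → ApproxC a N w (N / lg Q ^ Ch) (CS S) (1 / (lg Q : ℝ) ^ A)

def T_G : Prop := ∀ (ε : ℝ) (A : ℕ), 0 < ε → ∃ u A' B Ch Cw0 : ℕ, 1 ≤ u ∧ ∀ Cw : ℕ, ∃ Q0 : ℕ,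
  ∀ Q w : ℕ, Q0 ≤ Q → lg Q ^ Cw0 ≤ w → w ≤ lg Q ^ Cw → ∃ G err : ℕ → ℝ,
    (∀ m, 0 ≤ err m) ∧ ∑ m ∈ Ico 1 (4 * Q ^ 2), err m ≤ ε * (Q : ℝ) ^ 2 / lg Q ∧
    (∀ m, Q ^ 2 ≤ m → m < 4 * Q ^ 2 → |pr1 m - G m| ≤ err m) ∧
    ∀ a N : ℕ, Rg Q a N → Gd2 u A' B Q a →
      ApproxC a N w (N / lg Q ^ Ch) G (1 / (lg Q : ℝ) ^ A)

def T_KP : Prop := ∀ (ε : ℝ) (A : ℕ), 0 < ε → ∃ C Cw : ℕ, ∀ B3 : ℕ, ∃ N0 : ℕ, ∀ N : ℕ, N0 ≤ N →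
  ∃ (R : Finset ℕ) (w : ℕ), R.card ≤ lg N ^ C ∧ (∀ r ∈ R, lg N ^ B3 < r) ∧ lg N ^ 2 ≤ w ∧
    w ≤ lg N ^ Cw ∧ ∀ a : ℕ, N ≤ a → a ^ 2 ≤ N ^ 3 → (∀ r ∈ R, ¬ r ∣ a) → ∃ Bad : ℕ → ℝ,
      (∀ n, 0 ≤ Bad n) ∧ ∑ n ∈ Ico N (2 * N), Bad n ≤ ε * a * N / lg N ∧
      ∀ u v : ℕ → ℝ, (∀ n, 0 ≤ u n ∧ u n ≤ 1) → (∀ b, 0 ≤ v b ∧ v b ≤ 1) →
        (∀ b, v b ≠ 0 → b.Coprime a) → kap N w / 2 * Br a N (rr w) u v ≤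
          Br a N pr1 u v + a * N / (lg N : ℝ) ^ A + ∑ n ∈ Ico N (2 * N), u n * Bad n

open Classical in
def T_Main : Prop := ∀ k : ℕ, ∃ c : ℝ, 0 < c ∧ ∀ ε : ℝ, 0 < ε → ∃ C : ℕ, ∀ A : ℕ, ∃ Q0 : ℕ,
  ∀ Q : ℕ, Q0 ≤ Q → ∃ R : Finset ℕ, (R.card : ℝ) ≤ Real.log Q ^ C ∧
    (∀ r ∈ R, Real.log Q ^ A < r) ∧ ∀ a : Fin k → ℕ,
    (∀ i, Q ≤ a i ∧ a i ^ 2 ≤ Q ^ 3 ∧ ∀ r ∈ R, ¬ r ∣ a i) →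
    (((Fintype.piFinset fun i => Ico 1 (a i)).filter (fun b => Adm a b ∧
      (((Ico Q (2 * Q)).filter (fun n => ∀ i, (a i * n + b i).Prime)).card : ℝ) <
        c * (∏ i, (a i : ℝ) / (a i).totient) * Q / Real.log Q ^ k)).card : ℝ) ≤
      ε * ∏ i, ((a i).totient : ℝ)

end Pool.Agent.P.MP_746f10_nt.AP
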