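import Pool.Agent.P.MP_746f10_nt.AP.QBase

/-! The exceptional conductors. -/

namespace Pool.Agent.P.MP_746f10_nt.AP

open Finset Filter
open Pool.Agent.P.MP_a14ce1_nt.Ch (nit)

namespace QExcP

open Classical in
/-- the conductors of the primitive characters with a large sum on one box -/
noncomputable def Ex (A N j : ℕ) : Finset ℕ :=
  (Icc 1 (N ^ 3)).filter fun r => ∃ (χ : DirichletCharacter ℂ r) (t : ℝ), χ.IsPrimitive ∧
    |t| ≤ 4 * (N : ℝ) ^ 4 ∧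
    1 / (2 * (2 * lg N : ℝ) ^ A) ≤ ‖∑ p ∈ PP (2 ^ j) (2 * 2 ^ j), χ p / (p : ℂ) * nit t p‖

lemma natg {g u j : ℕ} (hu : 1 ≤ u) (hg : 2 * u ≤ g) (hj : g / u ≤ j) : g + 1 ≤ j * (2 * u) := by
  have e3 := Nat.lt_mul_div_succ g (b := u) hu
  have e4 := Nat.mul_le_mul_left u hj
  nlinarith

lemma num (u A : ℕ) (hu : 1 ≤ u) : ∃ N0 : ℕ, ∀ N, N0 ≤ N → 1 ≤ lg N ∧ ∀ j, lg N / u ≤ j →
    (30 * u) ^ (30 * u) * (2 * (N ^ 3) ^ 2 * (1 + 2 * (4 * N ^ 4) * (30 * u))) *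
      (2 * (2 * lg N) ^ A) ^ (2 * (30 * u)) ≤ (2 ^ j) ^ (30 * u) := by
  obtain ⟨N0, hN0⟩ := ev_lg ((ev_pow_le_two_pow
    ((30 * u) ^ (30 * u) * (18 * (30 * u)) * (2 * 2 ^ A) ^ (2 * (30 * u)))
    (A * (2 * (30 * u)))).and (eventually_ge_atTop (2 * u)))
  refine ⟨max N0 1, fun N hN => ?_⟩
  obtain ⟨h1, h2⟩ := hN0 N (le_of_max_le_left hN)
  have hN1 : 1 ≤ N := le_of_max_le_right hN
  refine ⟨by omega, fun j hj => ?_⟩
  have h3 : N ≤ 2 ^ (lg N + 1) := (lt_two_pow_lg N).le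
  have h6 := natg hu h2 hj
  generalize lg N = g at *
  have h4 : 1 + 2 * (4 * N ^ 4) * (30 * u) ≤ 9 * (30 * u) * N ^ 4 := by
    have : 1 ≤ N ^ 4 * u := Nat.mul_pos (pow_pos hN1 4) hu
    nlinarith
  have h5 : N ^ 10 ≤ 2 ^ ((g + 1) * 10) := by
    rw [pow_mul]
    exact Nat.pow_le_pow_left h3 10
  calc _ ≤ (30 * u) ^ (30 * u) * (2 * (N ^ 3) ^ 2 * (9 * (30 * u) * N ^ 4)) *
        (2 * (2 * g) ^ A) ^ (2 * (30 * u)) := by gcongr
    _ = (30 * u) ^ (30 * u) * (18 * (30 * u)) * (2 * 2 ^ A) ^ (2 * (30 * u)) *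
        g ^ (A * (2 * (30 * u))) * N ^ 10 := by
        rw [mul_pow 2 g, ← mul_assoc 2 (2 ^ A), mul_pow (2 * 2 ^ A), ← pow_mul g]
        generalize (2 * 2 ^ A) ^ (2 * (30 * u)) = x
        generalize g ^ (A * (2 * (30 * u))) = y
        generalize (30 * u) ^ (30 * u) = z
        ring
    _ ≤ 2 ^ g * 2 ^ ((g + 1) * 10) := Nat.mul_le_mul h1 h5
    _ = 2 ^ (g + (g + 1) * 10) := by rw [pow_add]
    _ ≤ 2 ^ (j * (30 * u)) := Nat.pow_le_pow_right (by norm_num) (by nlinarith)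
    _ = _ := by rw [pow_mul]

lemma card_Ex (h : T_HM) (u A : ℕ) (hu : 1 ≤ u) : ∃ N0 : ℕ, ∀ N, N0 ≤ N → ∀ j : ℕ,
    lg N / u ≤ j →
    (Ex A N j).card ≤ 2 * (2 * (30 * u)) ^ (30 * u) * (2 * (2 * lg N) ^ A) ^ (2 * (30 * u)) := by
  obtain ⟨N0, hN0⟩ := num u A hu
  refine ⟨N0, fun N hN j hj => ?_⟩
  obtain ⟨h1, h2⟩ := hN0 N hN
  have hg : (0 : ℝ) < lg N := by exact_mod_cast h1
  have key : ∀ r : ℕ, ∃ (χ : DirichletCharacter ℂ r) (t : ℝ), r ∈ Ex A N j → χ.IsPrimitive ∧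
      |t| ≤ 4 * (N : ℝ) ^ 4 ∧ 1 / (2 * (2 * lg N : ℝ) ^ A) ≤
        ‖∑ p ∈ PP (2 ^ j) (2 * 2 ^ j), χ p / (p : ℂ) * nit t p‖ := by
    intro r
    by_cases hr : r ∈ Ex A N j
    · classical
      obtain ⟨χ, t, H⟩ := (mem_filter.1 hr).2
      exact ⟨χ, t, fun _ => H⟩
    · exact ⟨1, 0, fun H => absurd H hr⟩
  choose χ t H using key
  have h3 := h (N ^ 3) (2 ^ j) (30 * u) (4 * (N : ℝ) ^ 4) (1 / (2 * (2 * lg N : ℝ) ^ A))
    (Ex A N j) χ t (by omega) (Nat.two_pow_pos j) (by positivity) (by positivity) (fun r hr => by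
      classical
      have h4 := mem_Icc.1 (mem_filter.1 hr).1
      exact ⟨h4.1, h4.2, H r hr⟩) (by
      have h6 : (((30 * u) ^ (30 * u) * (2 * (N ^ 3) ^ 2 * (1 + 2 * (4 * N ^ 4) * (30 * u))) *
          (2 * (2 * lg N) ^ A) ^ (2 * (30 * u)) : ℕ) : ℝ) ≤ (((2 ^ j) ^ (30 * u) : ℕ) : ℝ) := by
        exact_mod_cast h2 j hj
      rw [one_div, inv_pow, inv_mul_eq_div, le_div_iff₀ (by positivity)]
      push_cast at h6 ⊢
      exact h6)
  rw [one_div, inv_pow, div_inv_eq_mul] at h3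
  exact_mod_cast h3

lemma div_gcd_dvd {r a q : ℕ} (hq : 1 ≤ q) (h : r ∣ a * q) : r / r.gcd q ∣ a := by
  have hd : 0 < r.gcd q := Nat.gcd_pos_of_pos_right _ hq
  refine (Nat.coprime_div_gcd_div_gcd hd).dvd_of_dvd_mul_right
    (Nat.dvd_of_mul_dvd_mul_right hd ?_)
  rwa [Nat.div_mul_cancel (Nat.gcd_dvd_left r q), mul_assoc,
    Nat.div_mul_cancel (Nat.gcd_dvd_right r q)]

lemma pow_le_log {Q n c : ℕ} (hQ : 1 ≤ Q) (h : c * 2 ^ (n + 1) ≤ lg Q) :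
    (c : ℝ) * (lg Q : ℝ) ^ n ≤ Real.log Q ^ (n + 1) := by
  have l1 := lg_le_log hQ
  have l0 := Real.log_natCast_nonneg Q
  have h1 : (c : ℝ) * 2 ^ (n + 1) ≤ lg Q := by exact_mod_cast h
  rw [pow_succ] at h1
  calc (c : ℝ) * (lg Q : ℝ) ^ n ≤ c * (2 * Real.log Q) ^ n := by
        gcongr
        linarith
    _ = Real.log Q ^ n * (c * 2 ^ n) := by rw [mul_pow]; ring
    _ ≤ Real.log Q ^ n * Real.log Q := mul_le_mul_of_nonneg_left (by linarith) (by positivity)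
    _ = _ := by rw [pow_succ]

lemma lg_cube (Q : ℕ) (h : 2 ≤ lg Q) : lg (Q ^ 3) ≤ 4 * lg Q := by
  have h1 : Q ^ 3 < 2 ^ ((lg Q + 1) * 3) := by
    rw [pow_mul]
    exact Nat.pow_lt_pow_left (lt_two_pow_lg Q) (by norm_num)
  have h2 : lg (Q ^ 3) < (lg Q + 1) * 3 := Nat.log_lt_of_lt_pow' (by omega) h1
  omega

end QExcP

open QExcP in
theorem qExc (h1 : T_HM) (h2 : S_Box) : T_Exc := by
  classical
  intro u A B hu
  obtain ⟨N1, hN1⟩ := card_Ex h1 u A hu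
  obtain ⟨c0, hc0⟩ : ∃ c0 : ℕ,
    c0 = 2 * (2 * (30 * u)) ^ (30 * u) * (2 * 2 ^ A) ^ (2 * (30 * u)) := ⟨_, rfl⟩
  refine ⟨3 + A * (2 * (30 * u)) + B, fun B3 => ?_⟩
  obtain ⟨A2, Q0, hbox⟩ := h2 (B3 + B + 1) (A + 1) (2 * u) (by omega)
  obtain ⟨N2, hN2⟩ := ev_lg (p := fun g => (2 ^ B * g ^ B ≤ 2 ^ g ∧
      16 * g ^ (A + 1) ≤ 2 ^ (g / u)) ∧ (3 ≤ g ∧ c0 * 2 ^ B ≤ g ∧ 2 * u ≤ g ∧
      1 * 2 ^ (B3 + B + 1) ≤ g ∧ 2 * 2 ^ (A + 1) ≤ g)) (by
    filter_upwards [ev_pow_le_two_pow (2 ^ B) B, ev_pow_le_div 16 (A + 1) u hu,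
      eventually_ge_atTop 3, eventually_ge_atTop (c0 * 2 ^ B), eventually_ge_atTop (2 * u),
      eventually_ge_atTop (1 * 2 ^ (B3 + B + 1)), eventually_ge_atTop (2 * 2 ^ (A + 1))]
      with g a b c d e f i
    exact ⟨⟨a, b⟩, c, d, e, f, i⟩)
  refine ⟨max (max N1 N2) (max Q0 1), fun N hN => ?_⟩
  simp only [max_le_iff] at hN
  obtain ⟨⟨n1, n2⟩, n3, n4⟩ := hN
  obtain ⟨⟨a1, -⟩, a2, a3, -⟩ := hN2 N n2
  refine ⟨((((Icc (lg N / u) (2 * lg N)).biUnion (Ex A N)) ×ˢ Icc 1 ((2 * lg N) ^ B)).image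
    fun x => x.1 / x.1.gcd x.2).filter (lg N ^ B3 < ·), ?_, fun r hr => (mem_filter.1 hr).2, ?_⟩
  · refine (card_filter_le _ _).trans (card_image_le.trans ?_)
    have k1 : ((Icc (lg N / u) (2 * lg N)).biUnion (Ex A N)).card ≤
        lg N ^ 2 * (c0 * lg N ^ (A * (2 * (30 * u)))) := by
      refine (card_biUnion_le_card_mul _ _ _ fun j hj =>
        hN1 N n1 j (mem_Icc.1 hj).1).trans (Nat.mul_le_mul ?_ (le_of_eq ?_))
      · rw [Nat.card_Icc]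
        exact (Nat.sub_le _ _).trans (by nlinarith)
      · rw [hc0, mul_pow 2 (lg N), ← mul_assoc 2 (2 ^ A), mul_pow (2 * 2 ^ A), ← pow_mul (lg N),
          ← mul_assoc]
    rw [card_product, Nat.card_Icc, Nat.add_sub_cancel, mul_pow]
    calc _ ≤ lg N ^ 2 * (c0 * lg N ^ (A * (2 * (30 * u)))) * (2 ^ B * lg N ^ B) :=
          Nat.mul_le_mul_right _ k1
      _ = lg N ^ 2 * lg N ^ (A * (2 * (30 * u))) * lg N ^ B * (c0 * 2 ^ B) := by ac_rfl
      _ ≤ lg N ^ 2 * lg N ^ (A * (2 * (30 * u))) * lg N ^ B * lg N := Nat.mul_le_mul_left _ a3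
      _ = _ := by
          rw [← pow_add, ← pow_add, ← pow_succ]
          congr 1
          omega
  · intro Q a hR hnd q hq1 hq κ hκ j hj hj' t ht
    have hNQ : N ≤ Q := hR.2.2.2.2
    obtain ⟨⟨-, b1⟩, b2, -, b3, b4, b5⟩ := hN2 Q (n2.trans hNQ)
    have g1 := hR.lg_le
    have g2 := hR.lg_le_two (by omega)
    have hQ1 : 1 ≤ Q := n4.trans hNQ
    have ha1 : 1 ≤ a := n4.trans hR.2.2.1
    have haq : 1 ≤ a * q := Nat.mul_pos ha1 hq1
    have : NeZero (a * q) := ⟨by omega⟩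
    have : NeZero κ.conductor := ⟨κ.conductor_ne_zero⟩
    have hq2 : q ≤ (2 * lg N) ^ B := hq.trans (Nat.pow_le_pow_left g2 B)
    have hqN : q ≤ N := hq2.trans (by rw [mul_pow]; exact a1.trans (two_pow_lg_le n4))
    have hM : a * q ≤ N ^ 3 := (Nat.mul_le_mul hR.a_le hqN).trans_eq (pow_succ N 2).symm
    have jg : j + 1 ≤ lg Q := by
      have := hj'.trans_lt (lt_two_pow_lg Q)
      have := (Nat.pow_lt_pow_iff_right (by norm_num)).1 this
      omega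
    have g0 : (0 : ℝ) < lg Q := by exact_mod_cast (by omega : 0 < lg Q)
    rw [box, pow_succ']
    refine (box_cop haq (Nat.two_pow_pos j) (c := fun p => κ p)
      (c' := fun p => κ.primitiveCharacter p) (fun p => κ.norm_le_one _)
      (fun p => κ.primitiveCharacter.norm_le_one _) (fun p hp hd => ?_) t).trans ?_
    · have := κ.primitiveCharacter_apply_of_isCoprime (a := (p : ℤ))
        (Nat.isCoprime_iff_coprime.2 (hp.coprime_iff_not_dvd.2 hd))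
      simpa only [Int.cast_natCast] using this.symm
    have e1 : 2 * (lg (a * q) : ℝ) / ((2 ^ j : ℕ) : ℝ) ≤ 1 / (2 * (lg Q : ℝ) ^ A) := by
      have k1 : lg (a * q) ≤ 4 * lg Q :=
        (lg_mono (hM.trans (Nat.pow_le_pow_left hNQ 3))).trans (lg_cube Q (by omega))
      have k2 : 2 * lg (a * q) * (2 * lg Q ^ A) ≤ 1 * 2 ^ j := by
        calc 2 * lg (a * q) * (2 * lg Q ^ A) ≤ 2 * (4 * lg Q) * (2 * lg Q ^ A) := by gcongr
          _ = 16 * lg Q ^ (A + 1) := by ring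
          _ ≤ 2 ^ j := b1.trans (Nat.pow_le_pow_right (by norm_num) hj)
          _ = _ := (one_mul _).symm
      rw [div_le_div_iff₀ (by positivity) (by positivity)]
      exact_mod_cast k2
    have e2 : ‖∑ p ∈ PP (2 ^ j) (2 * 2 ^ j), κ.primitiveCharacter p / (p : ℂ) * nit t p‖ ≤
        1 / (2 * (lg Q : ℝ) ^ A) := by
      have hd := κ.conductor_dvd_level
      by_cases hs : lg N ^ B3 < κ.conductor / κ.conductor.gcd q
      · have k1 : 1 / (2 * (2 * lg N : ℝ) ^ A) ≤ 1 / (2 * (lg Q : ℝ) ^ A) := by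
          have : (lg Q : ℝ) ≤ 2 * lg N := by exact_mod_cast g2
          gcongr
        refine le_trans (le_of_not_ge fun H => hnd _ (mem_filter.2 ⟨mem_image.2
          ⟨(κ.conductor, q), mem_product.2 ⟨mem_biUnion.2 ⟨j, mem_Icc.2
            ⟨(Nat.div_le_div_right g1).trans hj, by omega⟩, mem_filter.2 ⟨mem_Icc.2
              ⟨NeZero.pos κ.conductor, (Nat.le_of_dvd haq hd).trans hM⟩, κ.primitiveCharacter, t,
                κ.primitiveCharacter_isPrimitive, ht.trans ?_, H⟩⟩, mem_Icc.2 ⟨hq1, hq2⟩⟩, rfl⟩,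
          hs⟩) (div_gcd_dvd hq1 hd)) k1
        have k2 : (Q : ℝ) ≤ (N : ℝ) ^ 2 := by exact_mod_cast hR.Q_le_sq
        calc 4 * (Q : ℝ) ^ 2 ≤ 4 * ((N : ℝ) ^ 2) ^ 2 := by gcongr
          _ = _ := by ring
      · have k1 : κ.conductor ≤ lg Q ^ (B3 + B) := by
          rw [← Nat.div_mul_cancel (Nat.gcd_dvd_left κ.conductor q), pow_add]
          exact Nat.mul_le_mul ((not_lt.1 hs).trans (Nat.pow_le_pow_left g1 _))
            ((Nat.gcd_le_right _ hq1).trans hq)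
        have k2 := pow_le_log hQ1 b4
        have k3 := pow_le_log hQ1 b5
        refine (hbox Q (n3.trans hNQ) κ.conductor κ.primitiveCharacter (2 ^ j) t
          (le_trans ?_ k2) ?_ (by rwa [← pow_succ']) ht (Or.inl fun H => hκ ?_)).trans ?_
        · rw [Nat.cast_one, one_mul]
          exact_mod_cast k1
        · refine (lt_two_pow_lg Q).le.trans ?_
          rw [← pow_mul]
          exact Nat.pow_le_pow_right (by norm_num) (natg hu b3 hj)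
        · rw [← κ.changeLevel_primitiveCharacter, H, map_one]
        · exact one_div_le_one_div_of_le (by positivity) (by exact_mod_cast k3)
    refine (add_le_add e2 e1).trans (le_of_eq ?_)
    field_simp
    norm_num

end Pool.Agent.P.MP_746f10_nt.AP
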