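import Pool.Agent.P.MP_746f10_nt.AP.QBase
import Pool.Agent.P.MP_746f10_nt.AP.L3

/-! Points of a three dimensional lattice in a box, general modulus. -/

namespace Pool.Agent.P.MP_746f10_nt.AP

open Finset

namespace QL3P

open L3P (pig dot_le)

theorem dv {a x y : ℤ} (h : a ∣ x) (e : y = x) : a ∣ y := e ▸ h

/-- a determinant -/
def dt (p q r : Fin 3 → ℤ) (i j k : Fin 3) : ℤ :=
  r i * (p j * q k - p k * q j) + r j * (p k * q i - p i * q k) + r k * (p i * q j - p j * q i)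

theorem dt_dvd {a : ℤ} {V p q r : Fin 3 → ℤ} {s t u : ℤ} (hp : ∀ l, a ∣ p l - V l * s)
    (hq : ∀ l, a ∣ q l - V l * t) (hr : ∀ l, a ∣ r l - V l * u) (i j k : Fin 3) :
    a ^ 2 ∣ dt p q r i j k := by
  choose x hx using hp
  choose y hy using hq
  choose z hz using hr
  have e1 : ∀ l, p l = V l * s + a * x l := fun l => by linarith [hx l]
  have e2 : ∀ l, q l = V l * t + a * y l := fun l => by linarith [hy l]
  have e3 : ∀ l, r l = V l * u + a * z l := fun l => by linarith [hz l]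
  refine ⟨s * dt V y z i j k + t * dt x V z i j k + u * dt x y V i j k + a * dt x y z i j k, ?_⟩
  simp only [dt]
  rw [e1 i, e1 j, e1 k, e2 i, e2 j, e2 k, e3 i, e3 j, e3 k]
  ring

open Classical in
theorem cnt {a : ℕ} [NeZero a] {b G : ℕ} (ha : a = b * G) {u : ℤ} (hu : IsCoprime (b : ℤ) u)
    (B : ℕ) : (univ.filter fun c : ZMod a =>
      ∃ z ∈ Icc (-(B : ℤ)) B, (b : ℤ) ∣ u * c.val - z).card ≤ (2 * B + 1) * G := by
  have hb : 0 < b := Nat.pos_of_ne_zero fun e => NeZero.ne a (by rw [ha, e, zero_mul])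
  have h1 : (univ.filter fun c : ZMod a => ∃ z ∈ Icc (-(B : ℤ)) B, (b : ℤ) ∣ u * c.val - z) ⊆
      (Icc (-(B : ℤ)) B).biUnion fun z => univ.filter fun c : ZMod a =>
        (b : ℤ) ∣ u * c.val - z := fun c hc => by
    obtain ⟨z, z1, z2⟩ := (mem_filter.1 hc).2
    exact mem_biUnion.2 ⟨z, z1, mem_filter.2 ⟨mem_univ _, z2⟩⟩
  refine (card_le_card h1).trans ((card_biUnion_le_card_mul _ _ G fun z _ => ?_).trans ?_)
  · rw [← card_range G]
    refine card_le_card_of_injOn (fun c => c.val / b) (fun c _ => ?_) fun c hc c' hc' e => ?_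
    · refine mem_coe.2 (mem_range.2 (Nat.div_lt_of_lt_mul ?_))
      rw [← ha]
      exact ZMod.val_lt c
    · have h2 := (mem_filter.1 (mem_coe.1 hc)).2
      have h3 := (mem_filter.1 (mem_coe.1 hc')).2
      have h4 : (b : ℤ) ∣ u * (c'.val - c.val) := dv (dvd_sub h3 h2) (by ring)
      have h5 : c.val % b = c'.val % b := (Nat.modEq_iff_dvd).2 (hu.dvd_of_dvd_mul_left h4)
      refine ZMod.val_injective a ?_
      rw [← Nat.div_add_mod c.val b, ← Nat.div_add_mod c'.val b, h5]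
      exact congrArg (fun n => b * n + c'.val % b) e
  · rw [Int.card_Icc, show ((B : ℤ) + 1 - -B).toNat = 2 * B + 1 by omega]

theorem short {a : ℕ} [NeZero a] {V p : Fin 3 → ℤ} {d : ℕ} (hd : 0 < d)
    (hm : ¬∃ x : Fin 3 → ℤ, x ≠ 0 ∧ ((x ⬝ᵥ V : ℤ) : ZMod a) = 0 ∧ ∀ l, |x l| < d)
    (hp : ∀ l, (a : ℤ) ∣ p l - V l * p 1) (p0 : p ≠ 0) {s : ℤ} (hs : ∀ l, |p l| ≤ s) :
    (d : ℤ) ^ 2 ≤ 7 * s := by
  classical
  obtain ⟨l0, hl⟩ := Function.ne_iff.1 p0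
  have hl : p l0 ≠ 0 := hl
  set G := Int.gcd a (p 1) with hG
  have a0 : (a : ℤ) ≠ 0 := by exact_mod_cast NeZero.ne a
  have G0 : 0 < G := Int.gcd_pos_of_ne_zero_left _ a0
  have G1 : (0 : ℤ) < G := by exact_mod_cast G0
  have g1 : (G : ℤ) ∣ a := Int.gcd_dvd_left _ _
  have g2 : (G : ℤ) ∣ p 1 := Int.gcd_dvd_right _ _
  have g3 : ∀ l, (G : ℤ) ∣ p l := fun l => by
    have := dvd_add (g1.trans (hp l)) (g2.mul_left (V l))
    rwa [sub_add_cancel] at this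
  choose q hq using g3
  obtain ⟨b, hb⟩ : G ∣ a := Int.natCast_dvd_natCast.1 g1
  have hb' : (a : ℤ) = G * b := by exact_mod_cast hb
  have cop : IsCoprime (b : ℤ) (q 1) := by
    rw [Int.isCoprime_iff_gcd_eq_one]
    refine Nat.eq_of_mul_eq_mul_left G0 ?_
    have := Int.gcd_mul_left (G : ℤ) b (q 1)
    rw [← hb', ← hq 1, ← hG, Int.natAbs_natCast] at this
    omega
  have q1 : ∀ l, (b : ℤ) ∣ q l - V l * q 1 := fun l => by
    refine (mul_dvd_mul_iff_left G1.ne').1 ?_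
    rw [← hb']
    exact dv (hp l) (by rw [hq l, hq 1]; ring)
  have s1 : (G : ℤ) ≤ s := (Int.le_of_dvd (abs_pos.2 hl) ((dvd_abs _ _).2 ⟨_, hq l0⟩)).trans (hs l0)
  obtain ⟨n, hn⟩ := Int.eq_ofNat_of_zero_le (Int.ediv_nonneg (G1.le.trans s1) G1.le)
  have q2 : ∀ l, |q l| ≤ n := fun l => by
    rw [← hn]
    refine Int.le_ediv_of_mul_le G1 ?_
    have := hs l
    rwa [hq l, abs_mul, abs_of_pos G1, mul_comm] at this
  have s2 : (n : ℤ) * G ≤ s := by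
    rw [← hn]
    exact Int.ediv_mul_le _ G1.ne'
  by_contra h
  refine hm (pig (fun x => ((x ⬝ᵥ V : ℤ) : ZMod a)) (fun x y => by
    rw [sub_dotProduct, Int.cast_sub]) d (univ.filter fun c : ZMod a =>
      ∃ z ∈ Icc (-((3 * (d * n) : ℕ) : ℤ)) (3 * (d * n) : ℕ), (b : ℤ) ∣ q 1 * c.val - z)
    (fun x hx => mem_filter.2 ⟨mem_univ _, x ⬝ᵥ q, mem_Icc.2 (abs_le.1 ?_), ?_⟩)
    ((cnt (hb.trans (mul_comm _ _)) cop _).trans_lt ?_))
  · exact_mod_cast dot_le (fun l => (hx l).le) q2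
  · have h1 : (a : ℤ) ∣ (((x ⬝ᵥ V : ℤ) : ZMod a).val : ℤ) - x ⬝ᵥ V :=
      (ZMod.intCast_eq_intCast_iff_dvd_sub _ _ _).1 (by simp)
    have h2 : (b : ℤ) ∣ ∑ l, x l * (q l - V l * q 1) := dvd_sum fun l _ => (q1 l).mul_left _
    have h3 := dvd_sub (((Dvd.intro_left _ hb'.symm).trans h1).mul_left (q 1)) h2
    refine dv h3 ?_
    simp only [dotProduct, Fin.sum_univ_three]
    ring
  · have d1 : (1 : ℤ) ≤ d := by exact_mod_cast hd
    have : ((2 * (3 * (d * n)) + 1) * G : ℤ) < d ^ 3 := by nlinarith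
    exact_mod_cast this

theorem bez {a : ℕ} {V Δ : Fin 3 → ℤ} {d : ℕ} (d1 : Δ ≠ 0)
    (d2 : ((Δ ⬝ᵥ V : ℤ) : ZMod a) = 0) (d3 : ∀ l, |Δ l| ≤ d)
    (hm : ¬∃ x : Fin 3 → ℤ, x ≠ 0 ∧ ((x ⬝ᵥ V : ℤ) : ZMod a) = 0 ∧ ∀ l, |x l| < d) :
    ∃ (u : ℤ) (z : Fin 3 → ℤ), Δ ⬝ᵥ (fun l => V l * u + a * z l) = a := by
  obtain ⟨s, hs⟩ := (ZMod.intCast_zmod_eq_zero_iff_dvd _ _).1 d2
  obtain ⟨z, hz⟩ := Finset.gcd_eq_sum_mul univ Δ
  have g1 : ∀ l, (Int.gcd s (univ.gcd Δ) : ℤ) ∣ Δ l := fun l =>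
    (Int.gcd_dvd_right _ _).trans (gcd_dvd (mem_univ l))
  have g2 : (Int.gcd s (univ.gcd Δ) : ℤ) ∣ s := Int.gcd_dvd_left _ _
  have g3 := Int.gcd_eq_gcd_ab s (univ.gcd Δ)
  generalize Int.gcdA s (univ.gcd Δ) = u at g3
  generalize Int.gcdB s (univ.gcd Δ) = u' at g3
  generalize Int.gcd s (univ.gcd Δ) = t at g1 g2 g3
  choose y hy using g1
  obtain ⟨s', hs'⟩ := g2
  have t0 : t ≠ 0 := fun e => d1 (funext fun l => by rw [hy l, e]; simp)
  have t1 : t = 1 := by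
    by_contra t1
    have t2 : (2 : ℤ) ≤ t := by omega
    obtain ⟨l0, hl⟩ := Function.ne_iff.1 d1
    have d0 : (0 : ℤ) < d := (abs_pos.2 hl).trans_le (d3 l0)
    refine hm ⟨y, fun e => d1 (funext fun l => by rw [hy l, e]; simp), ?_, fun l => ?_⟩
    · refine (ZMod.intCast_zmod_eq_zero_iff_dvd _ _).2 ⟨s', mul_left_cancel₀ (a := (t : ℤ))
        (by omega) ?_⟩
      simp only [dotProduct, Fin.sum_univ_three] at hs ⊢
      rw [hy 0, hy 1, hy 2, hs'] at hs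
      linarith
    · have := d3 l
      rw [hy l, abs_mul, abs_of_pos (by omega : (0 : ℤ) < t)] at this
      nlinarith [abs_nonneg (y l)]
  refine ⟨u, fun l => z l * u', ?_⟩
  rw [t1, hz] at g3
  simp only [dotProduct, Fin.sum_univ_three] at hs g3 ⊢
  push_cast at g3
  linear_combination u * hs - a * g3

theorem core (h : S_L2) {α : Type} (P : Finset α) (c : α → Fin 3 → ℤ) (hc : Function.Injective c)
    (a d E g : ℕ) (Λ : AddSubgroup (Fin 3 → ℤ)) (Δ : Fin 3 → ℤ) (i : Fin 3) (ha : 0 < a)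
    (hd : 0 < d) (h1 : ∀ l, |Δ l| ≤ d) (h2 : |Δ i| = d)
    (h3 : ∃ o ∈ Λ, Δ ⬝ᵥ o = a) (h4 : ∀ p ∈ Λ, (a : ℤ) ∣ Δ ⬝ᵥ p)
    (h5 : ∀ p ∈ Λ, ∀ q ∈ Λ, ∀ r ∈ Λ, ∀ i j k, (a : ℤ) ^ 2 ∣ dt p q r i j k)
    (h6 : ∀ p ∈ Λ, p ≠ 0 → Δ ⬝ᵥ p = 0 → ∀ s : ℤ, (∀ l, |p l| ≤ s) → (d : ℤ) ^ 2 ≤ 7 * s)
    (h7 : ∀ p ∈ P, c p ∈ Λ ∧ ∀ l, |c p l| ≤ E)
    (h8 : ∀ p ∈ P, ∀ S ⊆ P, (∀ q ∈ S, ∀ l l', c p l * c q l' = c p l' * c q l) → S.card ≤ g) :
    (P.card : ℝ) ≤ g + 16 * (E : ℝ) ^ 2 / (a * d) +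
      6 * d * E / a * (1 + 28 * E / d ^ 2 + 32 * (E : ℝ) ^ 2 / (a * d)) := by
  classical
  obtain ⟨j, k, e1, e2⟩ : ∃ j k : Fin 3, (∀ l, l = i ∨ l = j ∨ l = k) ∧
      ∀ p : Fin 3 → ℤ, Δ ⬝ᵥ p = Δ i * p i + Δ j * p j + Δ k * p k := by
    refine ⟨i + 1, i + 2, (by decide : ∀ i l : Fin 3, l = i ∨ l = i + 1 ∨ l = i + 2) i,
      fun p => ?_⟩
    rw [dotProduct, Fin.sum_univ_three]
    fin_cases i <;> simp <;> ring
  have i0 : Δ i ≠ 0 := fun e => by rw [e] at h2; simp at h2; omega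
  let L : AddSubgroup (ℤ × ℤ) :=
    { carrier := {z | ∃ p ∈ Λ, Δ ⬝ᵥ p = 0 ∧ z = (p j, p k)}
      add_mem' := by
        rintro _ _ ⟨p, p1, p2, rfl⟩ ⟨q, q1, q2, rfl⟩
        exact ⟨p + q, Λ.add_mem p1 q1, by rw [dotProduct_add, p2, q2, add_zero], rfl⟩
      zero_mem' := ⟨0, Λ.zero_mem, dotProduct_zero _, rfl⟩
      neg_mem' := by
        rintro _ ⟨p, p1, p2, rfl⟩
        exact ⟨-p, Λ.neg_mem p1, by rw [dotProduct_neg, p2, neg_zero], rfl⟩ }
  have w : ∀ p q : Fin 3 → ℤ, Δ ⬝ᵥ p = 0 → Δ ⬝ᵥ q = 0 →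
      (p j * q k - p k * q j) * Δ j = Δ i * (p k * q i - p i * q k) ∧
      (p j * q k - p k * q j) * Δ k = Δ i * (p i * q j - p j * q i) := fun p q hp hq => by
    rw [e2] at hp hq
    exact ⟨by linear_combination q k * hp - p k * hq, by linear_combination p j * hq - q j * hp⟩
  have hL := fun S (hS : S ⊆ P) => h L (a * d) E ((d : ℝ) ^ 2 / 14)
    (S.image fun p => (c p j, c p k)) (Nat.mul_pos ha hd) (by positivity) ?_ ?_ (fun z hz => by
      obtain ⟨p, hp, rfl⟩ := mem_image.1 hz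
      exact ⟨(h7 p (hS hp)).2 j, (h7 p (hS hp)).2 k⟩)
  rotate_left
  · rintro _ ⟨p, p1, p2, rfl⟩ _ ⟨q, q1, q2, rfl⟩
    obtain ⟨o, o1, o2⟩ := h3
    obtain ⟨t, ht⟩ := h5 p p1 q q1 o o1 i j k
    obtain ⟨w1, w2⟩ := w p q p2 q2
    have a0 : (a : ℤ) ≠ 0 := by exact_mod_cast ha.ne'
    have h9 : p j * q k - p k * q j = a * Δ i * t := by
      refine mul_left_cancel₀ a0 ?_
      rw [e2] at o2
      unfold dt at ht
      linear_combination (-(p j * q k - p k * q j)) * o2 + o j * w1 + o k * w2 + Δ i * ht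
    show ((a * d : ℕ) : ℤ) ∣ p j * q k - p k * q j
    rw [h9, Nat.cast_mul, ← h2]
    exact Dvd.dvd.mul_right (mul_dvd_mul_left _ ((abs_dvd _ _).2 dvd_rfl)) _
  · rintro _ ⟨p, p1, p2, rfl⟩ hp
    have b1 := le_max_left |p j| |p k|
    have b2 := le_max_right |p j| |p k|
    have h9 := h6 p p1 (fun e => hp (by rw [e]; rfl)) p2 (2 * max |p j| |p k|) fun l => by
      have := abs_nonneg (p j)
      rcases e1 l with rfl | rfl | rfl
      · rw [e2] at p2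
        have b3 : |Δ l * p l| ≤ |Δ j * p j| + |Δ k * p k| := by
          rw [show Δ l * p l = -(Δ j * p j + Δ k * p k) by linarith, abs_neg]
          exact abs_add_le _ _
        simp only [abs_mul, h2] at b3
        have b4 := mul_le_mul (h1 j) b1 (abs_nonneg _) (by positivity)
        have b5 := mul_le_mul (h1 k) b2 (abs_nonneg _) (by positivity)
        exact le_of_mul_le_mul_left (a := (d : ℤ)) (by linarith) (by positivity)
      · omega
      · omega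
    have h10 : ((d : ℝ)) ^ 2 ≤ 7 * (2 * ((max |p j| |p k| : ℤ) : ℝ)) := by exact_mod_cast h9
    linarith
  have hi : ∀ s : ℤ, ((P.filter fun p => Δ ⬝ᵥ c p / a = s).image fun p => (c p j, c p k)).card =
      (P.filter fun p => Δ ⬝ᵥ c p / a = s).card ∧ ∀ p ∈ P.filter fun p => Δ ⬝ᵥ c p / a = s,
        Δ ⬝ᵥ c p = s * a := fun s => by
    have b1 : ∀ p ∈ P.filter fun p => Δ ⬝ᵥ c p / a = s, Δ ⬝ᵥ c p = s * a := fun p hp => by
      rw [← (mem_filter.1 hp).2, Int.ediv_mul_cancel (h4 _ (h7 p (mem_filter.1 hp).1).1)]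
    refine ⟨card_image_of_injOn fun p hp q hq e => hc (funext fun l => ?_), b1⟩
    obtain ⟨b2, b3⟩ := Prod.mk.inj e
    have b4 := (b1 p hp).trans (b1 q hq).symm
    rw [e2, e2, b2, b3] at b4
    rcases e1 l with rfl | rfl | rfl
    exacts [mul_left_cancel₀ i0 (by linarith), b2, b3]
  set S := 3 * (d * E) / a with hS
  have hS' : (S : ℝ) ≤ 3 * (d * E) / a := by exact_mod_cast Nat.cast_div_le (α := ℝ)
  rw [card_eq_sum_card_fiberwise (f := fun p => Δ ⬝ᵥ c p / a) (t := Icc (-(S : ℤ)) S)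
    fun p hp => ?_, ← add_sum_erase _ _ (a := 0) (by simp), Nat.cast_add, Nat.cast_sum]
  · refine add_le_add ?_ ((sum_le_card_nsmul _ _
      (1 + 28 * E / d ^ 2 + 32 * (E : ℝ) ^ 2 / (a * d)) fun s _ => ?_).trans ?_)
    · rw [← (hi 0).1, ← Nat.cast_mul]
      refine (hL _ (filter_subset _ _)).2 g (fun z hz => ?_) fun z hz => ?_
      · obtain ⟨p, hp, rfl⟩ := mem_image.1 hz
        exact ⟨_, (h7 p (mem_filter.1 hp).1).1, ((hi 0).2 p hp).trans (zero_mul _), rfl⟩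
      rw [filter_image]
      refine card_image_le.trans ?_
      rcases eq_empty_or_nonempty ((P.filter fun p => Δ ⬝ᵥ c p / a = 0).filter
        fun p => z.1 * c p k = z.2 * c p j) with e | ⟨p, hp⟩
      · exact (congrArg card e).trans_le (Nat.zero_le _)
      refine h8 p (mem_filter.1 (mem_filter.1 hp).1).1 _
        ((filter_subset _ _).trans (filter_subset _ _)) fun q hq l l' => ?_
      obtain ⟨p1, p2⟩ := mem_filter.1 hp
      obtain ⟨q1, q2⟩ := mem_filter.1 hq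
      have b1 : c p j * c q k - c p k * c q j = 0 := by
        by_cases e : z.1 = 0
        · exact mul_left_cancel₀ (a := z.2) (fun e' => hz (Prod.ext e e'))
            (by linear_combination c p k * q2 - c q k * p2)
        · exact mul_left_cancel₀ e (by linear_combination c p j * q2 - c q j * p2)
      obtain ⟨b2, b3⟩ := w _ _ (((hi 0).2 p p1).trans (zero_mul _))
        (((hi 0).2 q q1).trans (zero_mul _))
      rw [b1, zero_mul, eq_comm, mul_eq_zero_iff_left i0] at b2 b3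
      rcases e1 l with rfl | rfl | rfl <;> rcases e1 l' with rfl | rfl | rfl <;> linarith
    · rw [← (hi s).1, ← Nat.cast_mul]
      refine ((hL _ (filter_subset _ _)).1 fun z hz z' hz' => ?_).trans (le_of_eq ?_)
      · obtain ⟨p, hp, rfl⟩ := mem_image.1 hz
        obtain ⟨q, hq, rfl⟩ := mem_image.1 hz'
        exact ⟨c p - c q, Λ.sub_mem (h7 p (mem_filter.1 hp).1).1 (h7 q (mem_filter.1 hq).1).1, by
          rw [dotProduct_sub, (hi s).2 p hp, (hi s).2 q hq, sub_self], rfl⟩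
      · field_simp
        ring
    · rw [card_erase_of_mem (by simp), Int.card_Icc, show ((S : ℤ) + 1 - -S).toNat - 1 = 2 * S by
        omega, nsmul_eq_mul]
      refine mul_le_mul_of_nonneg_right ?_ (by positivity)
      rw [show (6 : ℝ) * d * E / a = 2 * (3 * (d * E) / a) by ring]
      push_cast
      linarith
  · obtain ⟨s, hs⟩ := h4 _ (h7 p hp).1
    have b1 := dot_le h1 (h7 p hp).2
    have a0 : (0 : ℤ) < a := by exact_mod_cast ha
    rw [hs, abs_mul, abs_of_pos a0] at b1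
    have b2 : |s| ≤ S := by
      rw [hS]
      push_cast
      exact Int.le_ediv_of_mul_le a0 (by linarith)
    simp only [coe_Icc, Set.mem_Icc, hs, Int.mul_ediv_cancel_left _ a0.ne']
    exact abs_le.1 b2

end QL3P

open QL3P L3P in
theorem qL3 (h : S_L2) : T_L3 := by
  classical
  refine ⟨200, by norm_num, fun a ha x lam E ρ g P hρ hE h1 h2 h3 => ?_⟩
  rcases P.eq_empty_or_nonempty with rfl | ⟨p₀, hp₀⟩
  · rw [card_empty, Nat.cast_zero]; positivity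
  let V : Fin 3 → ℤ := ![x.val, 1, lam.val]
  let φ : (Fin 3 → ℤ) → ZMod a := fun Δ => ((Δ ⬝ᵥ V : ℤ) : ZMod a)
  let c : ℤ × ℤ × ℤ → Fin 3 → ℤ := fun p => ![p.1, p.2.1, p.2.2]
  let Λ : AddSubgroup (Fin 3 → ℤ) :=
    { carrier := {p | ∀ l, (a : ℤ) ∣ p l - V l * p 1}
      add_mem' := fun {p q} hp hq l => by
        refine dv (dvd_add (hp l) (hq l)) ?_
        rw [Pi.add_apply, Pi.add_apply]
        ring
      zero_mem' := fun l => by simp
      neg_mem' := fun {p} hp l => by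
        refine dv (hp l).neg_right ?_
        rw [Pi.neg_apply, Pi.neg_apply]
        ring }
  have hP : ∀ p ∈ P, c p ∈ Λ ∧ ∀ l, |c p l| ≤ E := fun p hp => by
    obtain ⟨b1, b2, b3, b4, b5⟩ := h1 p hp
    refine ⟨fun l => (ZMod.intCast_zmod_eq_zero_iff_dvd _ _).1 ?_, fun l => ?_⟩ <;> fin_cases l
    · simp [c, V, b4]
    · simp [c, V]
    · simp [c, V, b5]
    exacts [b1, b2, b3]
  have a0 : 0 < a := NeZero.pos a
  have ex : ∃ d : ℕ, ∃ Δ, Δ ≠ 0 ∧ φ Δ = 0 ∧ ∀ l, |Δ l| ≤ d :=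
    ⟨a, fun _ => a, fun e => a0.ne' (Int.natCast_eq_zero.1 (congrFun e 0)),
      by simp [φ, dotProduct], by simp⟩
  obtain ⟨Δ, d1, d2, d3⟩ := Nat.find_spec ex
  have hm : ¬∃ Δ', Δ' ≠ 0 ∧ φ Δ' = 0 ∧ ∀ l, |Δ' l| < Nat.find ex := fun ⟨Δ', b1, b2, b3⟩ => by
    have b4 := (abs_nonneg _).trans_lt (b3 0)
    exact Nat.find_min ex (m := Nat.find ex - 1) (by omega)
      ⟨Δ', b1, b2, fun l => by have := b3 l; omega⟩
  generalize Nat.find ex = d at d3 hm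
  obtain ⟨i, hi⟩ : ∃ i, |Δ i| = d := by_contra fun e =>
    hm ⟨Δ, d1, d2, fun l => (d3 l).lt_of_ne fun e' => e ⟨l, e'⟩⟩
  have h4 : ∀ p ∈ Λ, (a : ℤ) ∣ Δ ⬝ᵥ p := fun p hp => by
    have b1 := ((ZMod.intCast_zmod_eq_zero_iff_dvd _ _).1 d2).mul_right (p 1)
    have b2 : (a : ℤ) ∣ ∑ l, Δ l * (p l - V l * p 1) := dvd_sum fun l _ => (hp l).mul_left _
    refine dv (dvd_add b1 b2) ?_
    simp only [dotProduct, Fin.sum_univ_three]
    ring
  have d4 : d ^ 3 ≤ a := not_lt.1 fun e => hm (pig φ (fun x y => by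
    simp only [φ, sub_dotProduct, Int.cast_sub]) d univ
    (fun _ _ => mem_univ _) (by rwa [card_univ, ZMod.card]))
  have d5 : ρ < d := not_le.1 fun e => by
    have b1 : ∀ l, |Δ l| ≤ ρ := fun l => (d3 l).trans (by exact_mod_cast e)
    have b2 := dot_le b1 (hP p₀ hp₀).2
    have b3 := Int.eq_zero_of_abs_lt_dvd (h4 _ (hP p₀ hp₀).1)
      (b2.trans_lt (by exact_mod_cast (by rwa [← mul_assoc] : 3 * (ρ * E) < a)))
    refine h2 p₀ hp₀ (Δ 0, Δ 1, Δ 2) (fun e => d1 (funext fun l => ?_)) (b1 0) (b1 1) (b1 2)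
      (by rwa [dotProduct, Fin.sum_univ_three] at b3)
    simp only [Prod.mk_eq_zero] at e
    fin_cases l
    exacts [e.1, e.2.1, e.2.2]
  have h5 := QL3P.core h P c (fun p q e => Prod.ext (congrFun e 0) (Prod.ext (congrFun e 1)
    (congrFun e 2))) a d E g Λ Δ i a0 (by omega) d3 hi ?_ h4
    (fun p hp q hq r hr => dt_dvd hp hq hr)
    (fun p hp p0 _ s hs => short (by omega) hm hp p0 hs) hP fun p hp S hS hS' => ?_
  · refine h5.trans ?_
    have b1 : (ρ : ℝ) ≤ d := by exact_mod_cast d5.le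
    have b2 : (0 : ℝ) < ρ := by exact_mod_cast (by omega : 0 < ρ)
    have b3 : (d : ℝ) ≤ (a : ℝ) ^ (1 / 3 : ℝ) := by
      rw [one_div, Real.le_rpow_inv_iff_of_pos (by positivity) (by positivity) (by norm_num)]
      exact_mod_cast d4
    have b4 : (E : ℝ) ^ 2 / (a * d) ≤ (E : ℝ) ^ 2 / (a * ρ) := by gcongr
    have b5 : E * (d : ℝ) / a ≤ E * (a : ℝ) ^ (1 / 3 : ℝ) / a := by gcongr
    have b6 : 0 < (d : ℝ) := by linarith
    have b7 : 0 ≤ (E : ℝ) ^ 2 / (a * d) := by positivity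
    have b8 : 0 ≤ E * (d : ℝ) / a := by positivity
    have b9 : 0 ≤ (E : ℝ) ^ 3 / (a : ℝ) ^ 2 := by positivity
    have e : g + 16 * (E : ℝ) ^ 2 / (a * d) +
        6 * d * E / a * (1 + 28 * E / d ^ 2 + 32 * (E : ℝ) ^ 2 / (a * d)) =
        g + (184 * ((E : ℝ) ^ 2 / (a * d)) + 6 * (E * d / a) + 192 * (E ^ 3 / a ^ 2)) := by
      field_simp
      ring
    rw [e]
    linarith
  · obtain ⟨u, z, hz⟩ := bez d1 d2 d3 hm
    refine ⟨_, fun l => ⟨z l - V l * z 1, ?_⟩, hz⟩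
    show V l * u + a * z l - V l * (1 * u + a * z 1) = _
    ring
  · exact (card_le_card fun q hq => mem_filter.2 ⟨hS hq, hS' q hq 0 1, hS' q hq 0 2,
      hS' q hq 1 2⟩).trans (h3 p hp)

end Pool.Agent.P.MP_746f10_nt.AP
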