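import Pool.Agent.P.MP_746f10_nt.AP.QBase
import Pool.Agent.P.MP_746f10_nt.AP.Pos

/-! An admissible system of forms has many values without small prime factors, general moduli. -/

namespace Pool.Agent.P.MP_746f10_nt.AP

open Finset Filter

namespace QPosP

open PosP

/-- the local factor of one form -/
noncomputable def hh (a p : ℕ) : ℝ := if ¬ p ∣ a then 1 - 1 / (p : ℝ) else 1

lemma hh_bd (a : ℕ) {p : ℕ} (hp : (2 : ℝ) ≤ p) : 0 ≤ hh a p ∧ hh a p ≤ 1 := by
  unfold hh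
  split_ifs
  · exact ⟨zero_le_one, le_rfl⟩
  · exact ⟨(one_sub_inv_pos hp).le, sub_le_self _ (by positivity)⟩

variable {k : ℕ} {a b : Fin k → ℕ}

lemma rho_le' {p : ℕ} (hp : p.Prime) (h : Adm a b) :
    ∑ r ∈ range p, xx a b r p ≤ (univ.filter fun i => ¬ p ∣ a i).card := by
  calc ∑ r ∈ range p, xx a b r p
      ≤ ∑ r ∈ range p, ∑ i ∈ univ.filter fun i => ¬ p ∣ a i, dd (a i * r + b i) p := by
        refine sum_le_sum fun r _ => ?_
        unfold xx
        split_ifs with h1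
        · obtain ⟨i, hi⟩ := h1
          obtain ⟨n, hn⟩ := h p hp
          refine le_trans ?_ (single_le_sum (f := fun i => dd (a i * r + b i) p)
            (fun i _ => (dd_bd _ _).1) (mem_filter.2 ⟨mem_univ i, fun h2 => hn i ?_⟩))
          · simp [dd, hi]
          · exact dvd_add (h2.mul_right n) ((Nat.dvd_add_right (h2.mul_right r)).1 hi)
        · exact sum_nonneg fun i _ => (dd_bd _ _).1
    _ ≤ ∑ _i ∈ univ.filter fun i => ¬ p ∣ a i, (1 : ℝ) := by
        rw [sum_comm]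
        refine sum_le_sum fun i hi => ?_
        unfold dd
        rw [sum_boole, Nat.cast_le_one, card_le_one]
        intro r hr s hs
        obtain ⟨r1, r2⟩ := mem_filter.1 hr
        obtain ⟨s1, s2⟩ := mem_filter.1 hs
        have h1 : a i * r ≡ a i * s [MOD p] := Nat.ModEq.add_right_cancel' (b i)
          ((Nat.modEq_zero_iff_dvd.2 r2).trans (Nat.modEq_zero_iff_dvd.2 s2).symm)
        exact (h1.cancel_left_of_coprime ((Nat.Prime.coprime_iff_not_dvd hp).2
          (mem_filter.1 hi).2)).eq_of_lt_of_lt (mem_range.1 r1) (mem_range.1 s1)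
    _ = _ := by simp

lemma card_le (p : ℕ) : ((univ.filter fun i => ¬ p ∣ a i).card : ℝ) ≤ k := by
  exact_mod_cast (card_filter_le _ _).trans (by simp)

lemma loc_ge {p : ℕ} (hp : p.Prime) (h4 : (4 * k : ℝ) ≤ p) (h : Adm a b) :
    (∏ i, hh (a i) p) * Real.exp (-(2 * k ^ 2 * (1 / (p : ℝ) ^ 2))) ≤
      1 - (∑ r ∈ range p, xx a b r p) / p := by
  have h2 : (2 : ℝ) ≤ p := by exact_mod_cast hp.two_le
  have h3 := card_le (a := a) p
  have h5 := div_le_div_of_nonneg_right (rho_le' hp h) (Nat.cast_nonneg p)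
  have h6 := one_sub_ge (univ.filter fun i => ¬ p ∣ a i).card h2 (by linarith)
  have h7 := (one_sub_inv_pos h2).le
  unfold hh
  rw [← prod_filter, prod_const]
  refine le_trans ?_ (h6.trans (by linarith))
  gcongr

lemma vv_le {a w : ℕ} (ha : 1 ≤ a) (hw : 2 ≤ w) (hc : 2 * lg a ≤ w) (m : ℕ) :
    VV w * ((a : ℝ) / a.totient) ≤ 2 * ∏ p ∈ PP m w, hh a p := by
  have a0 : (0 : ℝ) < a := by exact_mod_cast ha
  have w0 : (2 : ℝ) ≤ w := by exact_mod_cast hw
  have hF : ∀ p ∈ a.primeFactors, (2 : ℝ) ≤ p := fun p hp => by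
    exact_mod_cast (Nat.prime_of_mem_primeFactors hp).two_le
  have e1 : (a.totient : ℝ) = a * ∏ p ∈ a.primeFactors, (1 - 1 / (p : ℝ)) := by
    have := congrArg (Rat.cast : ℚ → ℝ) (Nat.totient_eq_mul_prod_factors a)
    push_cast at this
    simpa only [one_div] using this
  have e2 : (PP 0 w).filter (fun p => ¬¬ p ∣ a) = a.primeFactors.filter (· ≤ w) := by
    ext p
    simp only [mem_filter, mem_PP, Nat.mem_primeFactors, not_not]
    exact ⟨fun h => ⟨⟨h.1.2.2, h.2, by omega⟩, h.1.2.1⟩,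
      fun h => ⟨⟨h.1.1.pos, h.2, h.1.1⟩, h.1.2.1⟩⟩
  have h1 : ∏ p ∈ (PP 0 w).filter (fun p => ¬ p ∣ a), (1 - 1 / (p : ℝ)) ≤
      ∏ p ∈ PP m w, hh a p := by
    rw [prod_filter]
    refine prod_le_prod_of_subset_of_le_one (f := hh a) (fun p hp => ?_)
      (fun p hp => (hh_bd a (PP_two hp)).1) fun p hp _ => (hh_bd a (PP_two hp)).2
    have := mem_PP.1 hp
    exact mem_PP.2 ⟨by omega, this.2⟩
  have h2 : 1 / 2 ≤ ∏ p ∈ a.primeFactors.filter (fun p => ¬ p ≤ w), (1 - 1 / (p : ℝ)) := by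
    have h3 : ((a.primeFactors.filter fun p => ¬ p ≤ w).card : ℝ) * 2 ≤ w := by
      have := (card_filter_le _ fun p => ¬ p ≤ w).trans (card_primeFactors_le_lg ha)
      exact_mod_cast (by omega)
    have h4 := one_add_mul_le_pow (a := -(1 / (w : ℝ)))
      (by linarith [one_sub_inv_pos w0]) (a.primeFactors.filter fun p => ¬ p ≤ w).card
    have h5 : ((a.primeFactors.filter fun p => ¬ p ≤ w).card : ℝ) * (1 / w) ≤ 1 / 2 := by
      rw [mul_one_div, div_le_div_iff₀ (by linarith) (by norm_num)]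
      linarith
    rw [← prod_const] at h4
    refine le_trans (by linarith) (h4.trans (prod_le_prod
      (fun _ _ => by linarith [one_sub_inv_pos w0]) fun p hp => ?_))
    have h6 : (w : ℝ) ≤ p := by exact_mod_cast (not_le.1 (mem_filter.1 hp).2).le
    linarith [one_div_le_one_div_of_le (by linarith) h6]
  have h7 : 0 < ∏ p ∈ a.primeFactors.filter (· ≤ w), (1 - 1 / (p : ℝ)) :=
    prod_pos fun p hp => one_sub_inv_pos (hF p (mem_filter.1 hp).1)
  have h8 : 0 ≤ ∏ p ∈ PP m w, hh a p := prod_nonneg fun p hp => (hh_bd a (PP_two hp)).1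
  rw [e1, VV, ← prod_filter_mul_prod_filter_not (PP 0 w) fun p => ¬ p ∣ a, e2,
    ← prod_filter_mul_prod_filter_not a.primeFactors (· ≤ w), ← mul_div_assoc,
    div_le_iff₀ (by positivity)]
  generalize ∏ p ∈ a.primeFactors.filter (· ≤ w), (1 - 1 / (p : ℝ)) = x at *
  generalize ∏ p ∈ a.primeFactors.filter (fun p => ¬ p ≤ w), (1 - 1 / (p : ℝ)) = y at *
  generalize ∏ p ∈ PP m w, hh a p = z at *
  calc _ ≤ z * x * a := by gcongr
    _ = 2 * z * (a * (x * (1 / 2))) := by ring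
    _ ≤ _ := by gcongr

lemma prod_ge' {w : ℕ} (hw : 2 ≤ w) (ha : ∀ i, 1 ≤ a i ∧ 2 * lg (a i) ≤ w) (h : Adm a b) :
    (VV w ^ k * ∏ i, ((a i : ℝ) / (a i).totient)) * Real.exp (-(2 * k ^ 2)) ≤
      2 ^ k * ∏ p ∈ PP (4 * k) w, (1 - (∑ r ∈ range p, xx a b r p) / p) := by
  have h1 : VV w ^ k * ∏ i, ((a i : ℝ) / (a i).totient) ≤
      2 ^ k * ∏ p ∈ PP (4 * k) w, ∏ i, hh (a i) p := by
    have h3 := prod_le_prod (s := univ)
      (fun i _ => mul_nonneg (VV_pos w).le (show (0 : ℝ) ≤ a i / (a i).totient by positivity))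
      fun i _ => vv_le (ha i).1 hw (ha i).2 (4 * k)
    rwa [prod_mul_distrib, prod_mul_distrib, prod_const, prod_const, card_univ, Fintype.card_fin,
      Finset.prod_comm] at h3
  have h0 : ∀ p ∈ PP (4 * k) w, 0 ≤ ∏ i, hh (a i) p := fun p hp =>
    prod_nonneg fun i _ => (hh_bd _ (PP_two hp)).1
  have h2 : ∑ p ∈ PP (4 * k) w, 1 / (p : ℝ) ^ 2 ≤ 1 := by
    refine le_trans (sum_le_sum_of_subset_of_nonneg (fun p hp => ?_) fun _ _ _ => by positivity)
      ((sum_PP_inv_sq_le 1 w le_rfl).trans (by simp))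
    have := mem_PP.1 hp
    exact mem_PP.2 ⟨this.2.2.one_lt, this.2⟩
  calc _ ≤ (2 ^ k * ∏ p ∈ PP (4 * k) w, ∏ i, hh (a i) p) *
        Real.exp (∑ p ∈ PP (4 * k) w, -(2 * k ^ 2 * (1 / (p : ℝ) ^ 2))) := by
        refine mul_le_mul h1 (Real.exp_le_exp.2 ?_) (Real.exp_pos _).le
          (mul_nonneg (by positivity) (prod_nonneg h0))
        rw [sum_neg_distrib, ← mul_sum, neg_le_neg_iff]
        exact mul_le_of_le_one_right (by positivity) h2
    _ ≤ _ := by
        rw [Real.exp_sum, mul_assoc, ← prod_mul_distrib]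
        refine mul_le_mul_of_nonneg_left (prod_le_prod
          (fun p hp => mul_nonneg (h0 p hp) (Real.exp_pos _).le) fun p hp => ?_) (by positivity)
        exact loc_ge (PP_prime hp) (by exact_mod_cast (mem_PP.1 hp).1.le) h

lemma lg_sq {N a : ℕ} (ha : 1 ≤ a) (h : a ≤ N ^ 2) : lg a ≤ 2 * lg N + 1 := by
  have h1 := (two_pow_lg_le ha).trans h
  have h2 := Nat.pow_lt_pow_left (lt_two_pow_lg N) two_ne_zero
  have h3 := h1.trans_lt h2
  rw [← pow_mul, Nat.pow_lt_pow_iff_right (by norm_num)] at h3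
  omega

end QPosP

open PosP QPosP in
theorem qPos : T_Pos := by
  classical
  intro k
  obtain ⟨k0, hk0⟩ := exists_sieve (k : ℝ) (Nat.cast_nonneg k)
  obtain ⟨W, hW⟩ : ∃ W, W = (4 * k).factorial := ⟨_, rfl⟩
  have W0 : 0 < W := hW ▸ Nat.factorial_pos _
  have W1 : (0 : ℝ) < W := by exact_mod_cast W0
  obtain ⟨E, hE⟩ : ∃ E, E = Real.exp (-(2 * (k : ℝ) ^ 2)) := ⟨_, rfl⟩
  have E0 : 0 < E := hE ▸ Real.exp_pos _
  obtain ⟨e, he⟩ : ∃ e, e = 4 * (k0 + 1) + 6 := ⟨_, rfl⟩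
  refine ⟨E / (4 * W * 2 ^ k), by positivity, fun Cw => ?_⟩
  obtain ⟨c, hc⟩ := exists_nat_ge (4 * W ^ 2 * CM ^ k / E)
  obtain ⟨Q0, hQ0⟩ := ev_lg ((ev_pow_le_two_pow c (Cw * (k + 2 * e))).and
    (eventually_ge_atTop 5))
  refine ⟨max Q0 1, fun Q w a b hQ hw0 hw' ha hadm => ?_⟩
  obtain ⟨g1, g2⟩ := hQ0 Q ((le_max_left _ _).trans hQ)
  have g3 := two_pow_lg_le ((le_max_right _ _).trans hQ)
  have g4 : 5 * lg Q ≤ w := le_trans (by rw [sq]; exact Nat.mul_le_mul_right _ g2) hw0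
  have hw : 2 ≤ w := by omega
  obtain ⟨s⟩ := hk0 1 w (PP (4 * k) w) hw fun p hp => ⟨PP_prime hp, (mem_PP.1 hp).2.1⟩
  rw [← he] at s
  obtain ⟨n0, hn0⟩ := exists_shift a b W0 hadm
  obtain ⟨μ, hμ⟩ : ∃ μ : ℕ → ℝ, μ = fun n => if n ≡ n0 [MOD W] then 1 else 0 := ⟨_, rfl⟩
  have μ0 : ∀ n, 0 ≤ μ n ∧ μ n ≤ 1 := fun n => by
    simp only [hμ]
    split_ifs <;> norm_num
  have μ1 : ∀ n, μ (n % W) = μ n := fun n => by simp [hμ, Nat.ModEq]
  have μ2 : ∑ r ∈ range W, μ r = 1 := by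
    rw [sum_eq_single (n0 % W) (fun r hr hne => by
      simp only [hμ]
      exact if_neg fun h1 => hne (by rw [← h1, Nat.mod_eq_of_lt (mem_range.1 hr)]))
      fun h1 => absurd (mem_range.2 (Nat.mod_lt _ W0)) h1]
    simp only [hμ]
    exact if_pos (Nat.mod_modEq _ _)
  have hg : ∀ p ∈ PP (4 * k) w, (∑ r ∈ range p, xx a b r p) / p ≤ k / p := fun p hp =>
    div_le_div_of_nonneg_right ((rho_le' (PP_prime hp) hadm).trans (card_le p)) (Nat.cast_nonneg p)
  have key := s.lower (fun p hp => PP_prime hp) (Ico Q (2 * Q)) μ (xx a b)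
    (fun p => (∑ r ∈ range p, xx a b r p) / p) (Q / W) (W * (w ^ e : ℕ)) (by positivity)
    (by positivity) (fun n _ => (μ0 n).1) (fun n _ p _ => xx_bd n p)
    (fun p hp => ⟨div_nonneg (sum_nonneg fun r _ => (xx_bd r p).1) (Nat.cast_nonneg p), hg p hp,
      (hg p hp).trans (by
        have h3 : (4 * k : ℝ) ≤ p := by exact_mod_cast (mem_PP.1 hp).1.le
        have h4 := PP_two hp
        rw [div_le_iff₀ (by linarith)]
        linarith)⟩) (fun T hT hD => by
      have h1 : ∀ p ∈ T, p.Prime ∧ ¬p ∣ W := fun p hp => ⟨PP_prime (hT hp), fun h => by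
        have h2 := (PP_prime (hT hp)).dvd_factorial.1 (hW ▸ h)
        have h3 := (mem_PP.1 (hT hp)).1
        omega⟩
      have h2 := sum_per (q := W * ∏ p ∈ T, p)
        (Nat.mul_pos W0 (prod_pos fun p hp => (h1 p hp).1.pos))
        (F := fun n => μ n * ∏ p ∈ T, xx a b n p) (fun n => by
          rw [mod_of_dvd (dvd_mul_right _ _) μ1]
          congr 1
          exact prod_congr rfl fun p h => mod_of_dvd ((dvd_prod_of_mem _ h).mul_left _)
            (F := fun n => xx a b n p) (fun n => xx_mod n p) n)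
        (fun n => by
          have h3 : 0 ≤ ∏ p ∈ T, xx a b n p := prod_nonneg fun p _ => (xx_bd n p).1
          rw [abs_of_nonneg (mul_nonneg (μ0 n).1 h3)]
          exact mul_le_one₀ (μ0 n).2 h3 (prod_le_one (fun p _ => (xx_bd n p).1)
            fun p _ => (xx_bd n p).2)) (show Q ≤ 2 * Q by omega)
      rw [sum_crt_prod W0 μ1 xx_mod T h1, μ2] at h2
      refine le_trans (le_of_eq ?_) (h2.trans ?_)
      · rw [prod_div_distrib]
        push_cast
        congr 2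
        ring
      · exact_mod_cast Nat.mul_le_mul_left W hD)
  have h1 := prod_ge k w hg
  have h8 := prod_ge' hw (fun i => ⟨(ha i).1, by
    have := lg_sq (ha i).1 (ha i).2
    omega⟩) hadm
  rw [← hE] at h1 h8
  have h2 : ∑ n ∈ Ico Q (2 * Q), μ n * ∏ p ∈ PP (4 * k) w, (1 - xx a b n p) ≤
      ∑ n ∈ Ico Q (2 * Q), ∏ i, rr w (a i * n + b i) := by
    refine sum_le_sum fun n _ => ?_
    by_cases h : μ n * ∏ p ∈ PP (4 * k) w, (1 - xx a b n p) = 0
    · rw [h]
      exact prod_nonneg fun i _ => (rr_bd _ _).1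
    have h3 : n ≡ n0 [MOD W] := by
      by_contra h3
      exact left_ne_zero_of_mul h (by simp only [hμ]; exact if_neg h3)
    rw [prod_eq_one fun i _ => rr_of_rough fun p hp hd => ?_]
    · exact mul_le_one₀ (μ0 n).2 (prod_nonneg fun p _ => by linarith [(xx_bd (a := a) (b := b) n p).2])
        (prod_le_one (fun p _ => by linarith [(xx_bd (a := a) (b := b) n p).2])
          fun p _ => by linarith [(xx_bd (a := a) (b := b) n p).1])
    by_contra h4
    by_cases h5 : p ≤ 4 * k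
    · exact hn0 p hp (hW ▸ hp.dvd_factorial.2 h5) n h3 i hd
    · refine right_ne_zero_of_mul h (prod_eq_zero (mem_PP.2 ⟨by omega, by omega, hp⟩) ?_)
      rw [xx, if_pos ⟨i, hd⟩, sub_self]
  have V0 := VV_pos w
  have w0 : (2 : ℝ) ≤ w := by exact_mod_cast hw
  have h3 : 1 ≤ CM * w * VV w := by
    have h4 := (inv_VV_le w hw).trans (mul_le_mul_of_nonneg_left
      (Real.log_le_self (Nat.cast_nonneg w)) (zero_le_one.trans one_le_CM))
    rwa [inv_le_iff_one_le_mul₀ V0] at h4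
  have h4 : (c : ℝ) * (w ^ k * (w ^ e) ^ 2) ≤ Q := by
    have : c * (w ^ k * (w ^ e) ^ 2) ≤ Q := by
      refine le_trans (Nat.mul_le_mul_left c ?_) (g1.trans g3)
      rw [← pow_mul, ← pow_add, pow_mul, mul_comm e 2]
      exact Nat.pow_le_pow_left hw' _
    exact_mod_cast this
  have h5 : (w ^ e : ℝ) * (W * w ^ e) ≤ E / (4 * W) * Q * VV w ^ k := by
    have h6 : 1 ≤ CM ^ k * w ^ k * VV w ^ k := by
      rw [← mul_pow, ← mul_pow]
      exact one_le_pow₀ h3
    rw [div_le_iff₀ E0] at hc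
    rw [div_mul_eq_mul_div, div_mul_eq_mul_div, le_div_iff₀ (by positivity)]
    calc (w ^ e : ℝ) * (W * w ^ e) * (4 * W) = 4 * W ^ 2 * (w ^ e) ^ 2 * 1 := by ring
      _ ≤ 4 * W ^ 2 * (w ^ e) ^ 2 * (CM ^ k * w ^ k * VV w ^ k) := by gcongr
      _ = 4 * W ^ 2 * CM ^ k * (w ^ k * (w ^ e) ^ 2 * VV w ^ k) := by ring
      _ ≤ c * E * (w ^ k * (w ^ e) ^ 2 * VV w ^ k) := by gcongr
      _ = E * (c * (w ^ k * (w ^ e) ^ 2)) * VV w ^ k := by ring
      _ ≤ E * Q * VV w ^ k := by gcongr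
  have h6 : Q / W * (VV w ^ k * E) ≤ Q / W * ∏ p ∈ PP (4 * k) w,
      (1 - (∑ r ∈ range p, xx a b r p) / p) := mul_le_mul_of_nonneg_left h1 (by positivity)
  have h7 : E / (4 * W) * Q * VV w ^ k = Q / W * (VV w ^ k * E) / 4 := by
    field_simp
  have h9 : E / (4 * W * 2 ^ k) * Q * VV w ^ k * ∏ i, ((a i : ℝ) / (a i).totient) ≤
      Q / W * (∏ p ∈ PP (4 * k) w, (1 - (∑ r ∈ range p, xx a b r p) / p)) / 4 := by
    calc _ = Q / (4 * W * 2 ^ k) * ((VV w ^ k * ∏ i, ((a i : ℝ) / (a i).totient)) * E) := by ring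
      _ ≤ Q / (4 * W * 2 ^ k) * (2 ^ k * ∏ p ∈ PP (4 * k) w,
          (1 - (∑ r ∈ range p, xx a b r p) / p)) := by gcongr
      _ = _ := by field_simp
  push_cast at key
  linarith

end Pool.Agent.P.MP_746f10_nt.AP
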