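import Pool.Agent.P.MP_746f10_nt.AP.VK

/-! The recursion of Linnik and Karatsuba for the Vinogradov system. -/

namespace Pool.Agent.P.MP_746f10_nt.AP

open Finset

namespace RecP

/-- the moment curve -/
def pw (k : ℕ) (x : ℕ) : Fin k → ℤ := fun j => (x : ℤ) ^ (j.val + 1)

/-- the residue class of `ξ` -/
def cl (N p ξ : ℕ) : Finset ℕ := (Icc 1 N).filter fun x => x % p = ξ

theorem mem_tup {r : ℕ} {S : Finset ℕ} {x : Fin r → ℕ} : x ∈ tup r S ↔ ∀ i, x i ∈ S := by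
  simp [tup, Fintype.mem_piFinset]

theorem pw_iff {ι : Type} [Fintype ι] {k : ℕ} (x y : ι → ℕ) :
    ∑ l, pw k (x l) = ∑ l, pw k (y l) ↔
      ∀ j ∈ Icc 1 k, ∑ i, (x i : ℤ) ^ j = ∑ i, (y i : ℤ) ^ j := by
  constructor
  · intro h j hj
    obtain ⟨h1, h2⟩ := mem_Icc.1 hj
    have := congrFun h ⟨j - 1, by omega⟩
    simpa only [Finset.sum_apply, pw, Nat.sub_add_cancel h1] using this
  · intro h
    funext j
    simpa only [Finset.sum_apply, pw] using h (j.val + 1) (mem_Icc.2 ⟨by omega, j.2⟩)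

theorem Jv_eq (s k N : ℕ) : Jv s k N = En (tup s (Icc 1 N)) fun x => ∑ l, pw k (x l) := by
  unfold Jv En
  congr 1
  ext p
  simp only [mem_filter, pw_iff]
  refine and_congr_right fun _ => forall₂_congr fun j _ => ?_
  exact_mod_cast Iff.rfl

theorem En_le {α β : Type} {k : ℕ} {A : Finset α} {B : Finset β} {φ : α → Fin k → ℤ}
    {ψ : β → Fin k → ℤ} (f : α → β) (h1 : ∀ x ∈ A, f x ∈ B)
    (h2 : ∀ x ∈ A, ∀ y ∈ A, f x = f y → x = y)
    (h3 : ∀ x ∈ A, ∀ y ∈ A, φ x = φ y → ψ (f x) = ψ (f y)) : En A φ ≤ En B ψ := by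
  unfold En
  refine card_le_card_of_injOn (fun p => (f p.1, f p.2)) (fun p hp => ?_) fun p hp q hq e => ?_
  · simp only [coe_filter, mem_product, Set.mem_ofPred_eq] at hp ⊢
    exact ⟨⟨h1 _ hp.1.1, h1 _ hp.1.2⟩, h3 _ hp.1.1 _ hp.1.2 hp.2⟩
  · simp only [coe_filter, mem_product, Set.mem_ofPred_eq] at hp hq
    exact Prod.ext (h2 _ hp.1.1 _ hq.1.1 (congrArg Prod.fst e))
      (h2 _ hp.1.2 _ hq.1.2 (congrArg Prod.snd e))

theorem aff {ι : Type} [Fintype ι] {k : ℕ} (a b : ι → ℤ) (c : ℤ)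
    (h : ∀ j ∈ Icc 1 k, ∑ i, a i ^ j = ∑ i, b i ^ j) :
    ∀ j ∈ Icc 1 k, ∑ i, (a i - c) ^ j = ∑ i, (b i - c) ^ j := by
  intro j hj
  have e : ∀ a : ι → ℤ, ∑ i, (a i - c) ^ j =
      ∑ m ∈ range (j + 1), (∑ i, a i ^ m) * ((-c) ^ (j - m) * (j.choose m : ℤ)) := by
    intro a
    simp only [sub_eq_add_neg, add_pow, sum_mul, mul_assoc]
    exact sum_comm
  rw [e, e]
  refine sum_congr rfl fun m hm => ?_
  rcases Nat.eq_zero_or_pos m with rfl | h0
  · simp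
  · rw [h m (mem_Icc.2 ⟨h0, by have := mem_range.1 hm; have := (mem_Icc.1 hj).2; omega⟩)]

theorem En_cl {r k N p ξ : ℕ} (hp : 0 < p) :
    En (tup r (cl N p ξ)) (fun x => ∑ l, pw k (x l)) ≤ Jv r k (N / p + 1) := by
  rw [Jv_eq]
  have e : ∀ x ∈ cl N p ξ, (x : ℤ) - (ξ - p) = p * ((x / p + 1 : ℕ) : ℤ) := by
    intro x hx
    have h1 := Nat.div_add_mod x p
    rw [(mem_filter.1 hx).2] at h1
    have h2 : (x : ℤ) = p * ((x / p : ℕ) : ℤ) + ξ := by exact_mod_cast h1.symm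
    rw [Nat.cast_add, Nat.cast_one]
    linear_combination h2
  refine En_le (fun x i => x i / p + 1) (fun x hx => ?_) (fun x hx y hy h => ?_)
    fun x hx y hy h => ?_
  · refine mem_tup.2 fun i => mem_Icc.2 ⟨Nat.le_add_left _ _, ?_⟩
    exact Nat.succ_le_succ (Nat.div_le_div_right (mem_Icc.1 (mem_filter.1 (mem_tup.1 hx i)).1).2)
  · funext i
    have h1 := e _ (mem_tup.1 hx i)
    have h2 := e _ (mem_tup.1 hy i)
    have h3 : x i / p + 1 = y i / p + 1 := congrFun h i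
    rw [h3, ← h2] at h1
    exact_mod_cast sub_left_injective h1
  · rw [pw_iff] at h ⊢
    intro j hj
    have h1 := aff _ _ ((ξ : ℤ) - p) h j hj
    have e2 : ∀ x ∈ tup r (cl N p ξ), ∑ i, ((x i : ℤ) - (ξ - p)) ^ j =
        (p : ℤ) ^ j * ∑ i, ((x i / p + 1 : ℕ) : ℤ) ^ j := by
      intro x hx
      rw [mul_sum]
      exact sum_congr rfl fun i _ => by rw [e _ (mem_tup.1 hx i), mul_pow]
    rw [e2 x hx, e2 y hy] at h1
    have hp' : (p : ℤ) ≠ 0 := by exact_mod_cast hp.ne'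
    exact mul_left_cancel₀ (pow_ne_zero _ hp') h1

theorem cover (h2 : S_EnSub) (h4 : S_AMGM) {α : Type} {k s N p : ℕ} (hs : 1 ≤ s) (D : Finset α)
    (φ : α → Fin k → ℤ) (S R : Finset ℕ) (hS : ∀ x ∈ S, x ∈ Icc 1 N ∧ x % p ∈ R) (B : ℝ)
    (hB : ∀ ξ, (En (D ×ˢ tup s (cl N p ξ)) (fun q => φ q.1 + ∑ l, pw k (q.2 l)) : ℝ) ≤ B) :
    √(En (D ×ˢ tup s S) (fun q => φ q.1 + ∑ l, pw k (q.2 l)) : ℝ) ≤ (#R : ℝ) ^ s * √B := by
  refine (h2 _ _ k _ (tup s R) (fun b => D ×ˢ Fintype.piFinset fun l => cl N p (b l)) _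
    fun x hx => ?_).trans ?_
  · obtain ⟨h1, h3⟩ := mem_product.1 hx
    refine ⟨fun l => x.2 l % p, mem_tup.2 fun l => (hS _ (mem_tup.1 h3 l)).2,
      mem_product.2 ⟨h1, Fintype.mem_piFinset.2 fun l => ?_⟩⟩
    exact mem_filter.2 ⟨(hS _ (mem_tup.1 h3 l)).1, rfl⟩
  · refine (sum_le_card_nsmul _ _ (√B) fun b _ => Real.sqrt_le_sqrt
      (h4 _ k s D φ (pw k) _ B hs fun l => hB _)).trans ?_
    rw [nsmul_eq_mul, tup, Fintype.card_piFinset_const]
    simp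

open Classical in
/-- tuples with distinct residues -/
noncomputable def dis (k N p : ℕ) : Finset (Fin k → ℕ) :=
  (tup k (Icc 1 N)).filter fun x => ∀ i i', x i ≡ x i' [MOD p] → i = i'

theorem En_good (h1 : S_Linnik) (h3 : S_EnShift) {k s N p : ℕ} (hp : p.Prime) (hk : k < p)
    (hN : N ≤ p ^ k) (ξ : ℕ) :
    En (dis k N p ×ˢ tup s (cl N p ξ)) (fun q => ∑ l, pw k (q.1 l) + ∑ l, pw k (q.2 l)) ≤
      k.factorial * p ^ (k * (k - 1) / 2) * N ^ k * Jv s k (N / p + 1) := by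
  classical
  let t : Finset ((Fin k → ℕ) × (Fin k → ℕ)) := (dis k N p ×ˢ dis k N p).filter fun q =>
    ∀ j ∈ Icc 1 k, ∑ i, ((q.1 i : ℤ) - ξ) ^ j ≡ ∑ i, ((q.2 i : ℤ) - ξ) ^ j [ZMOD (p : ℤ) ^ j]
  have hD : #(dis k N p) ≤ N ^ k := by
    refine (card_filter_le _ _).trans ?_
    rw [tup, Fintype.card_piFinset_const]
    simp
  have ht : #t ≤ k.factorial * p ^ (k * (k - 1) / 2) * N ^ k := by
    refine (card_le_mul_card_image_of_maps_to (f := Prod.snd) (t := dis k N p)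
      (fun q hq => (mem_product.1 (mem_filter.1 hq).1).2) _ fun y _ => ?_).trans
      (Nat.mul_le_mul_left _ hD)
    refine le_trans ?_ (h1 k p (fun j => ∑ i, ((y i : ℤ) - ξ) ^ j) ξ hp hk)
    refine card_le_card_of_injOn Prod.fst (fun q hq => ?_) fun q hq q' hq' e => ?_
    · obtain ⟨hq1, rfl⟩ := mem_filter.1 (mem_coe.1 hq)
      obtain ⟨hq2, hq3⟩ := mem_filter.1 hq1
      obtain ⟨hq4, hq5⟩ := mem_filter.1 (mem_product.1 hq2).1
      refine mem_coe.2 (mem_filter.2 ⟨mem_tup.2 fun i => ?_, hq5, hq3⟩)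
      have := mem_Icc.1 (mem_tup.1 hq4 i)
      exact mem_Icc.2 ⟨this.1, this.2.trans hN⟩
    · exact Prod.ext e ((mem_filter.1 (mem_coe.1 hq)).2.trans (mem_filter.1 (mem_coe.1 hq')).2.symm)
  have hd : ∀ z ∈ tup s (cl N p ξ), ∀ j, (p : ℤ) ^ j ∣ ∑ l, ((z l : ℤ) - ξ) ^ j := by
    intro z hz j
    refine dvd_sum fun l _ => pow_dvd_pow_of_dvd ?_ j
    have h4 := Nat.div_add_mod (z l) p
    rw [(mem_filter.1 (mem_tup.1 hz l)).2] at h4
    have h5 : (z l : ℤ) = p * ((z l / p : ℕ) : ℤ) + ξ := by exact_mod_cast h4.symm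
    exact ⟨_, sub_eq_of_eq_add h5⟩
  rw [mul_comm _ (Jv _ _ _)]
  unfold En
  refine (card_le_mul_card_image_of_maps_to (f := fun q => (q.1.1, q.2.1)) (t := t)
    (fun q hq => ?_) _ fun q _ => ?_).trans (Nat.mul_le_mul_left _ ht)
  · obtain ⟨hq1, hq2⟩ := mem_filter.1 hq
    obtain ⟨hq3, hq4⟩ := mem_product.1 hq1
    obtain ⟨a1, a2⟩ := mem_product.1 hq3
    obtain ⟨b1, b2⟩ := mem_product.1 hq4
    refine mem_filter.2 ⟨mem_product.2 ⟨a1, b1⟩, fun j hj => ?_⟩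
    have h4 : ∑ l, pw k (Sum.elim q.1.1 q.1.2 l) = ∑ l, pw k (Sum.elim q.2.1 q.2.2 l) := by
      rw [Fintype.sum_sum_type, Fintype.sum_sum_type]
      exact hq2
    have h5 := aff _ _ (ξ : ℤ) ((pw_iff _ _).1 h4) j hj
    rw [Fintype.sum_sum_type, Fintype.sum_sum_type] at h5
    simp only [Sum.elim_inl, Sum.elim_inr] at h5
    refine Int.modEq_iff_dvd.2 ?_
    have h6 := dvd_sub (hd _ a2 j) (hd _ b2 j)
    rwa [show ∑ l, ((q.1.2 l : ℤ) - ξ) ^ j - ∑ l, ((q.2.2 l : ℤ) - ξ) ^ j =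
      ∑ i, ((q.2.1 i : ℤ) - ξ) ^ j - ∑ i, ((q.1.1 i : ℤ) - ξ) ^ j by linear_combination h5] at h6
  · refine le_trans ?_ ((h3 _ k (tup s (cl N p ξ)) (fun x => ∑ l, pw k (x l))
      (∑ l, pw k (q.2 l) - ∑ l, pw k (q.1 l))).trans (En_cl hp.pos))
    refine card_le_card_of_injOn (fun u => (u.1.2, u.2.2)) (fun u hu => ?_) fun u hu u' hu' e => ?_
    · obtain ⟨hu1, rfl⟩ := mem_filter.1 (mem_coe.1 hu)
      obtain ⟨hu2, hu3⟩ := mem_filter.1 hu1
      obtain ⟨hu4, hu5⟩ := mem_product.1 hu2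
      refine mem_coe.2 (mem_filter.2 ⟨mem_product.2
        ⟨(mem_product.1 hu4).2, (mem_product.1 hu5).2⟩, ?_⟩)
      dsimp only at hu3 ⊢
      linear_combination hu3
    · have e1 := (mem_filter.1 (mem_coe.1 hu)).2.trans (mem_filter.1 (mem_coe.1 hu')).2.symm
      simp only [Prod.mk.injEq] at e e1
      exact Prod.ext (Prod.ext e1.1 e.1) (Prod.ext e1.2 e.2)

/-- tuples with all residues in `R` -/
def bad (r N p : ℕ) (R : Finset ℕ) : Finset (Fin r → ℕ) :=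
  tup r ((Icc 1 N).filter fun x => x % p ∈ R)

open Classical in
/-- tuples with distinct residues at the places `σ` -/
noncomputable def good (k s N p : ℕ) (σ : Fin k → Fin (k + s)) : Finset (Fin (k + s) → ℕ) :=
  (tup (k + s) (Icc 1 N)).filter fun x => ∀ i i', x (σ i) ≡ x (σ i') [MOD p] → i = i'

theorem bad_le (h2 : S_EnSub) (h4 : S_AMGM) {r k N p : ℕ} (hr : 1 ≤ r) (hp : 0 < p)
    (R : Finset ℕ) : √(En (bad r N p R) (fun x => ∑ l, pw k (x l)) : ℝ) ≤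
      (#R : ℝ) ^ r * √(Jv r k (N / p + 1) : ℝ) := by
  refine le_trans (Real.sqrt_le_sqrt (Nat.cast_le.2 ?_)) (cover h2 h4 (N := N) (p := p) hr {()}
    (fun _ => (0 : Fin k → ℤ)) _ R (fun x hx => mem_filter.1 hx) _ fun ξ => Nat.cast_le.2 ?_)
  · refine En_le (fun x => ((), x)) (fun x hx => mem_product.2 ⟨mem_singleton_self _, hx⟩)
      (fun x _ y _ e => congrArg Prod.snd e) fun x _ y _ e => ?_
    simpa only [zero_add] using e
  · refine le_trans (En_le Prod.snd (fun x hx => (mem_product.1 hx).2)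
      (fun x _ y _ e => Prod.ext rfl e) fun x _ y _ e => ?_) (En_cl hp)
    simpa only [zero_add] using e

theorem good_le {k s N p : ℕ} (σ : Fin k → Fin (k + s)) :
    En (good k s N p σ) (fun x => ∑ l, pw k (x l)) ≤
      En (dis k N p ×ˢ tup s (Icc 1 N)) (fun q => ∑ l, pw k (q.1 l) + ∑ l, pw k (q.2 l)) := by
  classical
  by_cases hσ : Function.Injective σ
  · obtain ⟨π, hπ⟩ := Equiv.Perm.exists_extending_pair _ _ (Fin.castAdd_injective k s) hσ
    have e : ∀ x : Fin (k + s) → ℕ, ∑ l, pw k (x l) =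
        ∑ l, pw k (x (π (Fin.castAdd s l))) + ∑ l, pw k (x (π (Fin.natAdd k l))) := by
      intro x
      rw [← Equiv.sum_comp π, Fin.sum_univ_add]
    refine En_le (fun x => (fun l => x (π (Fin.castAdd s l)), fun l => x (π (Fin.natAdd k l))))
      (fun x hx => ?_) (fun x _ y _ h => ?_) fun x _ y _ h => ?_
    · obtain ⟨a1, a2⟩ := mem_filter.1 hx
      refine mem_product.2 ⟨mem_filter.2 ⟨mem_tup.2 fun i => mem_tup.1 a1 _, fun i i' h => ?_⟩,
        mem_tup.2 fun i => mem_tup.1 a1 _⟩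
      dsimp only at h
      rw [hπ, hπ] at h
      exact a2 i i' h
    · funext l
      obtain ⟨m, rfl⟩ := π.surjective l
      simp only [Prod.mk.injEq] at h
      refine Fin.addCases (fun i => ?_) (fun i => ?_) m
      · exact congrFun h.1 i
      · exact congrFun h.2 i
    · dsimp only at h ⊢
      rw [← e, ← e, h]
  · have e : good k s N p σ = ∅ := by
      refine eq_empty_of_forall_notMem fun x hx => hσ fun i i' h => ?_
      exact (mem_filter.1 hx).2 i i' (by rw [h])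
    rw [e]
    simp [En]

theorem split {k s N p : ℕ} (hk : 1 ≤ k) (hp : k < p) {x : Fin (k + s) → ℕ}
    (hx : x ∈ tup (k + s) (Icc 1 N)) :
    (∃ R ∈ powersetCard (k - 1) (range p), x ∈ bad (k + s) N p R) ∨ ∃ σ, x ∈ good k s N p σ := by
  classical
  by_cases h : k ≤ #(univ.image fun i => x i % p)
  · right
    obtain ⟨t, ht, hc⟩ := exists_subset_card_eq h
    let e := t.equivFinOfCardEq hc
    have ex : ∀ i : Fin k, ∃ l, x l % p = (e.symm i : ℕ) := fun i => by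
      obtain ⟨l, -, hl⟩ := mem_image.1 (ht (e.symm i).2)
      exact ⟨l, hl⟩
    choose σ hσ using ex
    refine ⟨σ, mem_filter.2 ⟨hx, fun i i' h => e.symm.injective (Subtype.ext ?_)⟩⟩
    rw [← hσ, ← hσ]
    exact h
  · left
    obtain ⟨R, a1, a2, a3⟩ := exists_subsuperset_card_eq (s := univ.image fun i => x i % p)
      (t := range p) (n := k - 1) (fun y hy => by
        obtain ⟨l, -, rfl⟩ := mem_image.1 hy
        exact mem_range.2 (Nat.mod_lt _ (by omega))) (by omega) (by rw [card_range]; omega)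
    refine ⟨R, mem_powersetCard.2 ⟨a2, a3⟩, mem_tup.2 fun i => mem_filter.2 ⟨mem_tup.1 hx i, ?_⟩⟩
    exact a1 (mem_image.2 ⟨i, mem_univ _, rfl⟩)

end RecP

open RecP in
theorem pRec (h1 : S_Linnik) (h2 : S_EnSub) (h3 : S_EnShift) (h4 : S_AMGM) : S_Rec := by
  intro k s N p hp hk hkp hs hN
  rw [Jv_eq (k + s) k N]
  refine (h2 _ _ k _ ((powersetCard (k - 1) (range p)).disjSum (univ : Finset (Fin k → Fin (k + s))))
    (Sum.elim (bad (k + s) N p) (good k s N p)) _ fun x hx => ?_).trans ?_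
  · rcases split (by omega) hkp hx with ⟨R, a1, a2⟩ | ⟨σ, a⟩
    · exact ⟨.inl R, inl_mem_disjSum.2 a1, a2⟩
    · exact ⟨.inr σ, inr_mem_disjSum.2 (mem_univ _), a⟩
  rw [sum_disjSum]
  refine add_le_add ?_ ?_
  · refine (sum_le_card_nsmul _ _ ((k : ℝ) ^ (k + s) * √(Jv (k + s) k (N / p + 1) : ℝ))
      fun R hR => (bad_le h2 h4 (by omega) hp.pos R).trans ?_).trans ?_
    · rw [(mem_powersetCard.1 hR).2]
      gcongr
      omega
    · rw [nsmul_eq_mul, card_powersetCard, card_range, mul_assoc]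
      gcongr
      exact_mod_cast Nat.choose_le_pow p (k - 1)
  · refine (sum_le_card_nsmul _ _ ((p : ℝ) ^ s * √((k.factorial : ℝ) * (p : ℝ) ^ (k * (k - 1) / 2) *
      (N : ℝ) ^ k * (Jv s k (N / p + 1) : ℝ))) fun σ _ => ?_).trans ?_
    · refine (Real.sqrt_le_sqrt (Nat.cast_le.2 (good_le σ))).trans ?_
      refine (cover h2 h4 (N := N) (p := p) hs (dis k N p) (fun x => ∑ l, pw k (x l)) _ (range p)
        (fun x hx => ⟨hx, mem_range.2 (Nat.mod_lt _ hp.pos)⟩) _ fun ξ => ?_).trans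
        (by rw [card_range])
      exact_mod_cast En_good (s := s) h1 h3 hp hkp hN ξ
    · rw [nsmul_eq_mul, card_univ, ← mul_assoc]
      simp

end Pool.Agent.P.MP_746f10_nt.AP
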