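import Pool.Agent.P.MP_746f10_nt.Basic
import Pool.Agent.P.MP_0ad054_nt.An.Defs
import Pool.Agent.P.MP_a14ce1_nt.Ch.Defs

/-! Interface of the zero free region of Vinogradov and Korobov type (weak form). -/

namespace Pool.Agent.P.MP_746f10_nt.AP

open Finset Metric DirichletCharacter
open Pool.Agent.P.MP_0ad054_nt (e mn)
open Pool.Agent.P.MP_a14ce1_nt.Ch (nit)
open scoped ArithmeticFunction.vonMangoldt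

/-- tuples of length `r` with entries in `s` -/
def tup (r : ℕ) (s : Finset ℕ) : Finset (Fin r → ℕ) := Fintype.piFinset fun _ => s

/-- the number of solutions of the Vinogradov system -/
def Jv (s k N : ℕ) : ℕ := ((tup s (Icc 1 N) ×ˢ tup s (Icc 1 N)).filter
  (fun p => ∀ j ∈ Icc 1 k, ∑ i, p.1 i ^ j = ∑ i, p.2 i ^ j)).card

/-- the number of pairs with the same image -/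
def En {α : Type} {k : ℕ} (A : Finset α) (φ : α → Fin k → ℤ) : ℕ :=
  ((A ×ˢ A).filter (fun p => φ p.1 = φ p.2)).card

/-- sum of the bounds for geometric series -/
noncomputable def Ws (α : ℝ) (A : ℕ) : ℝ := ∑ m ∈ Icc (-(A : ℤ)) A, mn A (α * m)

/-- the width of the region with a bound for L -/
noncomputable def th (H : ℕ) (X : ℝ) : ℝ := H * Real.log (Real.log X) ^ 2 / Real.log X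

open Classical in
def S_Linnik : Prop := ∀ (k p : ℕ) (lam : ℕ → ℤ) (ξ : ℤ), p.Prime → k < p →
  ((tup k (Icc 1 (p ^ k))).filter (fun x => (∀ i i', x i ≡ x i' [MOD p] → i = i') ∧
    ∀ j ∈ Icc 1 k, ∑ i, ((x i : ℤ) - ξ) ^ j ≡ lam j [ZMOD (p : ℤ) ^ j])).card ≤
    k.factorial * p ^ (k * (k - 1) / 2)

def S_EnSub : Prop := ∀ (α ι : Type) (k : ℕ) (A : Finset α) (I : Finset ι) (B : ι → Finset α)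
  (φ : α → Fin k → ℤ), (∀ x ∈ A, ∃ i ∈ I, x ∈ B i) →
  √(En A φ : ℝ) ≤ ∑ i ∈ I, √(En (B i) φ : ℝ)

def S_EnShift : Prop := ∀ (α : Type) (k : ℕ) (A : Finset α) (φ : α → Fin k → ℤ) (m : Fin k → ℤ),
  ((A ×ˢ A).filter (fun p => φ p.1 = φ p.2 + m)).card ≤ En A φ

def S_AMGM : Prop := ∀ (α : Type) (k s : ℕ) (D : Finset α) (φ : α → Fin k → ℤ)
  (ψ : ℕ → Fin k → ℤ) (C : Fin s → Finset ℕ) (B : ℝ), 1 ≤ s →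
  (∀ i, (En (D ×ˢ tup s (C i)) (fun p => φ p.1 + ∑ l, ψ (p.2 l)) : ℝ) ≤ B) →
  (En (D ×ˢ Fintype.piFinset C) (fun p => φ p.1 + ∑ l, ψ (p.2 l)) : ℝ) ≤ B

def S_Rec : Prop := ∀ k s N p : ℕ, p.Prime → 2 ≤ k → k < p → 1 ≤ s → N ≤ p ^ k →
  √(Jv (k + s) k N : ℝ) ≤ (p : ℝ) ^ (k - 1) * (k : ℝ) ^ (k + s) * √(Jv (k + s) k (N / p + 1) : ℝ) +
    ((k + s : ℕ) : ℝ) ^ k * (p : ℝ) ^ s *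
      √((k.factorial : ℝ) * (p : ℝ) ^ (k * (k - 1) / 2) * (N : ℝ) ^ k * (Jv s k (N / p + 1) : ℝ))

def S_VMVT : Prop := ∃ C : ℝ, 0 < C ∧ ∀ k τ N : ℕ, 2 ≤ k → 1 ≤ τ → 1 ≤ N →
  (Jv (k * τ) k N : ℝ) ≤ Real.exp (C * (k : ℝ) ^ 3 * (τ : ℝ) ^ 2) *
    (N : ℝ) ^ (2 * (k : ℝ) * τ - (k : ℝ) * (k + 1) / 2 +
      (k : ℝ) * (k + 1) / 2 * (1 - 1 / (k : ℝ)) ^ (τ - 1))

def S_Kor : Prop := ∀ (k s Z : ℕ) (α : ℕ → ℝ), 1 ≤ s → 1 ≤ Z →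
  ‖∑ x ∈ Icc 1 Z, ∑ y ∈ Icc 1 Z, e (∑ j ∈ Icc 1 k, α j * (x : ℝ) ^ j * (y : ℝ) ^ j)‖ ^ (2 * s ^ 2) ≤
    (Z : ℝ) ^ (4 * s * (s - 1)) * (Jv s k Z : ℝ) ^ 2 * ∏ j ∈ Icc 1 k, Ws (α j) (s * Z ^ j)

def S_Ws : Prop := ∃ C : ℝ, 1 ≤ C ∧ ∀ (α : ℝ) (A : ℕ), 1 ≤ A → Ws α A ≤ 3 * (A : ℝ) ^ 2 ∧
  (α ≠ 0 → Ws α A ≤ C * (A * |α| + 1) * (A + (1 + Real.log A) / |α|))

def S_Exp : Prop := ∃ c C : ℝ, 0 < c ∧ 0 < C ∧ ∀ (k M N : ℕ) (u β : ℝ), 10 ≤ k → 1 ≤ M → M ≤ N →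
  N ≤ 2 * M → 0 ≤ β → β ≤ 1 → (M : ℝ) ^ k ≤ |u| → |u| ≤ (M : ℝ) ^ (k + 1) →
  ‖∑ m ∈ Ioc M N, nit u (m + β)‖ ≤
    Real.exp (C * (k : ℝ) ^ 5) * (1 + Real.log M) * (M : ℝ) ^ (1 - c / (k : ℝ) ^ 2)

def S_Piece : Prop := ∀ B H : ℕ, ∃ X0 : ℝ, ∀ X : ℝ, X0 ≤ X →
  ∀ (q : ℕ) [NeZero q] (ψ : DirichletCharacter ℂ q) (t : ℝ) (M N : ℕ),
  (q : ℝ) ≤ Real.log X ^ B → 1 ≤ |t| → |t| ≤ 10 * X → 1 ≤ M → M ≤ N → N ≤ 2 * M →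
  (M : ℝ) ≤ (q * (|t| + 2)) ^ 2 →
  ‖∑ n ∈ Ioc M N, ψ n * nit t n‖ ≤ Real.log X * (M : ℝ) ^ (1 - th H X)

def S_Lbd : Prop := ∀ B : ℕ, ∃ A0 : ℕ, ∀ H : ℕ, ∃ X0 : ℝ, ∀ X : ℝ, X0 ≤ X →
  ∀ (q : ℕ) [NeZero q] (ψ : DirichletCharacter ℂ q) (s : ℂ),
  (q : ℝ) ≤ Real.log X ^ B → 1 - th H X ≤ s.re → s.re ≤ 2 → 1 ≤ |s.im| → |s.im| ≤ 10 * X →
  ‖LFunction ψ s‖ ≤ Real.log X ^ A0

def S_Landau : Prop := ∃ C : ℝ, 0 < C ∧ ∀ (f : ℂ → ℂ) (c : ℂ) (r M : ℝ), 0 < r → 1 ≤ M →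
  DifferentiableOn ℂ f (ball c r) → f c ≠ 0 → (∀ s ∈ ball c r, ‖f s‖ ≤ Real.exp M * ‖f c‖) →
  (∀ s ∈ ball c r, f s = 0 → s.re ≤ c.re) →
  -(deriv f c / f c).re ≤ C * M / r ∧
    ∀ ρ : ℂ, f ρ = 0 → ‖ρ - c‖ ≤ r / 4 → -(deriv f c / f c).re ≤ C * M / r - (1 / (c - ρ)).re

def S_LogD : Prop := ∃ C : ℝ, 0 < C ∧ ∀ (f : ℂ → ℂ) (c : ℂ) (r M : ℝ), 0 < r → 1 ≤ M →
  DifferentiableOn ℂ f (ball c r) → (∀ s ∈ ball c r, f s ≠ 0) →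
  (∀ s ∈ ball c r, ‖f s‖ ≤ Real.exp M * ‖f c‖) →
  ∀ s ∈ closedBall c (r / 2), ‖deriv f s / f s‖ ≤ C * M / r

def S_ZF : Prop := ∀ B C1 : ℕ, ∃ X0 : ℝ, ∀ X : ℝ, X0 ≤ X →
  ∀ (q : ℕ) [NeZero q] (ψ : DirichletCharacter ℂ q) (s : ℂ),
  (q : ℝ) ≤ Real.log X ^ B → 1 - C1 * Real.log (Real.log X) / Real.log X ≤ s.re → s.re ≤ 2 →
  2 ≤ |s.im| → |s.im| ≤ 4 * X →
  LFunction ψ s ≠ 0 ∧ ‖deriv (LFunction ψ) s / LFunction ψ s‖ ≤ Real.log X ^ 2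

def S_VK : Prop := ∀ B A u : ℕ, 1 ≤ u → ∃ (A2 : ℕ) (X0 : ℝ), ∀ X : ℝ, X0 ≤ X →
  ∀ (q : ℕ) [NeZero q] (ψ : DirichletCharacter ℂ q) (P : ℕ) (t : ℝ),
  (q : ℝ) ≤ Real.log X ^ B → X ≤ (P : ℝ) ^ u → (P : ℝ) ≤ X → Real.log X ^ A2 ≤ |t| → |t| ≤ 3 * X →
  ‖∑ n ∈ Icc 1 P, (Λ n : ℂ) * ψ n * nit t n‖ ≤ P / Real.log X ^ A

def S_Box : Prop := ∀ B A u : ℕ, 1 ≤ u → ∃ A2 Q0 : ℕ, ∀ Q : ℕ, Q0 ≤ Q →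
  ∀ (q : ℕ) [NeZero q] (ψ : DirichletCharacter ℂ q) (P : ℕ) (t : ℝ),
  (q : ℝ) ≤ Real.log Q ^ B → Q ≤ P ^ u → 2 * P ≤ Q → |t| ≤ 4 * (Q : ℝ) ^ 2 →
  (ψ ≠ 1 ∨ Real.log Q ^ A2 ≤ |t|) →
  ‖∑ p ∈ PP P (2 * P), ψ p / (p : ℂ) * nit t p‖ ≤ 1 / Real.log Q ^ A

end Pool.Agent.P.MP_746f10_nt.AP
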