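import Pool.Agent.P.MP_746f10_nt.AP.VK

/-! The mean value theorem of Vinogradov from the recursion. -/

namespace Pool.Agent.P.MP_746f10_nt.AP

open Finset

namespace VMVTP

/-- the exponent -/
noncomputable def Del (k : ℝ) (t : ℕ) : ℝ :=
  2 * k * (t + 1) - k * (k + 1) / 2 + k * (k + 1) / 2 * (1 - 1 / k) ^ t

theorem Del_le {k : ℝ} (hk : 2 ≤ k) (t : ℕ) : Del k t ≤ 2 * k * (t + 1) := by
  have h0 : 0 < k := by linarith
  have h1 : 1 / k ≤ 1 := by rw [div_le_one h0]; linarith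
  have h2 : 0 ≤ 1 / k := by positivity
  have h3 : (1 - 1 / k) ^ t ≤ 1 := pow_le_one₀ (by linarith) (by linarith)
  have h4 : 0 ≤ k * (k + 1) / 2 := by positivity
  have := mul_le_mul_of_nonneg_left h3 h4
  unfold Del
  linarith

theorem Del_ge {k : ℝ} (hk : 2 ≤ k) (t : ℕ) : 2 * k * (t + 1) - (k + 1) * t / 2 ≤ Del k t := by
  have h0 : 0 < k := by linarith
  have h1 : 1 / k ≤ 1 := by rw [div_le_one h0]; linarith
  have h3 := one_add_mul_le_pow (a := -(1 / k)) (by linarith) t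
  have h4 : 0 ≤ k * (k + 1) / 2 := by positivity
  have h5 := mul_le_mul_of_nonneg_left h3 h4
  have e : k * (k + 1) / 2 * (1 + t * -(1 / k)) = k * (k + 1) / 2 - (k + 1) * t / 2 := by
    field_simp
    ring
  rw [e, ← sub_eq_add_neg] at h5
  unfold Del
  linarith

theorem Del_nonneg {k : ℝ} (hk : 2 ≤ k) (t : ℕ) : 0 ≤ Del k t := by
  have h := Del_ge hk t
  have ht : (0 : ℝ) ≤ t := Nat.cast_nonneg t
  nlinarith [mul_nonneg ht (show 0 ≤ k - 2 by linarith)]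

theorem Del_succ {k : ℝ} (hk : 2 ≤ k) (t : ℕ) :
    k * Del k (t + 1) = 2 * k * (t + 1) + k * (k - 1) / 2 + k ^ 2 + (k - 1) * Del k t := by
  have h0 : k ≠ 0 := by linarith
  unfold Del
  rw [pow_succ]
  generalize (1 - 1 / k) ^ t = r
  push_cast
  field_simp
  ring

theorem Jv_le (s k N : ℕ) : Jv s k N ≤ N ^ (2 * s) := by
  refine (card_filter_le _ _).trans (le_of_eq ?_)
  simp [tup, two_mul, pow_add]

theorem comb {J J1 W G A B : ℝ} (hJ1 : 0 ≤ J1) (hW : 0 ≤ W) (hG : 0 ≤ G)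
    (h : √J ≤ A * √J1 + B * √W) (h1 : 4 * A ^ 2 * J1 ≤ G) (h2 : 4 * B ^ 2 * W ≤ G) : J ≤ G := by
  have a1 : 2 * (A * √J1) ≤ √G := by
    refine Real.le_sqrt_of_sq_le ?_
    rw [mul_pow, mul_pow, Real.sq_sqrt hJ1]
    linarith
  have a2 : 2 * (B * √W) ≤ √G := by
    refine Real.le_sqrt_of_sq_le ?_
    rw [mul_pow, mul_pow, Real.sq_sqrt hW]
    linarith
  exact (Real.sqrt_le_sqrt_iff hG).1 (by linarith)

theorem exP {k N : ℕ} (hk : 2 ≤ k) (hN : (4 * k) ^ (4 * k) ≤ N) :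
    ∃ p : ℕ, p.Prime ∧ N ≤ p ^ k ∧ p ^ k ≤ 4 ^ k * N ∧ (4 * k) ^ 4 ≤ p ∧ p ≤ N := by
  have hex : ∃ y : ℕ, N ≤ y ^ k := ⟨N, Nat.le_self_pow (by omega) N⟩
  have h1 := Nat.find_spec hex
  have h2 : ∀ z, z < Nat.find hex → z ^ k < N := fun z hz => not_le.1 (Nat.find_min hex hz)
  generalize Nat.find hex = y at h1 h2
  have h3 : (4 * k) ^ 4 ≤ y := by
    rw [pow_mul] at hN
    exact (Nat.pow_le_pow_iff_left (by omega)).1 (hN.trans h1)
  have h4 : 8 ^ 4 ≤ (4 * k) ^ 4 := Nat.pow_le_pow_left (by omega) 4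
  obtain ⟨p, hp, h5, h6⟩ := Nat.exists_prime_lt_and_le_two_mul y (by omega)
  have h7 := h2 (y - 1) (by omega)
  have h8 : p ≤ 4 * (y - 1) := by omega
  refine ⟨p, hp, h1.trans (Nat.pow_le_pow_left h5.le k), ?_, by omega, ?_⟩
  · refine (Nat.pow_le_pow_left h8 k).trans ?_
    rw [mul_pow]
    exact Nat.mul_le_mul_left _ h7.le
  · have h9 : 4 * (y - 1) ≤ (y - 1) ^ 2 := by
      rw [sq]
      exact Nat.mul_le_mul_right _ (by omega)
    have h10 : (y - 1) ^ 2 ≤ (y - 1) ^ k := Nat.pow_le_pow_right (by omega) hk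
    omega

theorem pow_eq {x : ℝ} (hx : 0 < x) (m : ℕ) : x ^ m = Real.exp (m * Real.log x) := by
  rw [Real.exp_nat_mul, Real.exp_log hx]

theorem pow_le (m n : ℕ) : (m : ℝ) ^ n ≤ Real.exp (n * m) := by
  rw [Real.exp_nat_mul]
  exact pow_le_pow_left₀ (Nat.cast_nonneg m) (by linarith [Real.add_one_le_exp (m : ℝ)]) n

theorem ineq1 {k τ D a l u : ℝ} (hk : 2 ≤ k) (hτ : 1 ≤ τ) (hu : 0 ≤ u) (hl : 0 ≤ l)
    (ha : 8 * u + 4 * l ≤ a) (h1 : D ≤ 2 * k * (τ + 1))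
    (h2 : 2 * k * (τ + 1) - (k + 1) * τ / 2 ≤ D) :
    2 * u + 2 * ((k - 1) * a) + 2 * ((k + k * τ) * l) + D * u ≤ D * a := by
  have h3 : (k + k * τ) / 2 ≤ D - 2 * k + 2 := by
    nlinarith [mul_nonneg (show 0 ≤ k - 2 by linarith) (show 0 ≤ τ - 1 by linarith)]
  have h4 : 1 ≤ k + k * τ := by nlinarith
  have h5 : (k + k * τ) / 2 * (8 * u + 4 * l) ≤ (D - 2 * k + 2) * a :=
    mul_le_mul h3 ha (by positivity) (by linarith)
  have h6 := mul_le_mul_of_nonneg_right h1 hu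
  have h7 := mul_le_mul_of_nonneg_right h4 hu
  nlinarith

theorem ineq2 {k τ D D' a b : ℝ} (hk : 2 ≤ k) (hτ : 1 ≤ τ) (h0 : 0 ≤ D) (h1 : D ≤ 2 * k * τ)
    (ha : b ≤ a) (ha' : a ≤ b + 2)
    (e : k * D' = 2 * k * τ + k * (k - 1) / 2 + k ^ 2 + (k - 1) * D) :
    2 + 2 * (k * (k + k * τ)) + 2 * (k * τ * a) + k * k + k * (k - 1) / 2 * a + k * (k * b) +
      (32 * k ^ 3 * τ ^ 2 + (1 + k * b - a) * D) ≤ 32 * k ^ 3 * (τ + 1) ^ 2 + k * b * D' := by
  have h2 : 0 ≤ 2 * k * τ + k * (k - 1) / 2 := by nlinarith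
  have h3 := mul_le_mul_of_nonneg_left ha' h2
  have h4 := mul_le_mul_of_nonneg_left ha h0
  have h5 : k * b * D' = b * (2 * k * τ + k * (k - 1) / 2 + k ^ 2 + (k - 1) * D) := by
    rw [← e]; ring
  have k1 : k ≤ k ^ 2 := by nlinarith
  have k2 : k ^ 2 ≤ k ^ 3 := by nlinarith
  have k3 := mul_le_mul_of_nonneg_right k1 (show 0 ≤ τ by linarith)
  have k4 := mul_le_mul_of_nonneg_right k2 (show 0 ≤ τ by linarith)
  have k5 : 0 ≤ k * τ := by positivity
  rw [h5]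
  nlinarith

theorem step (h : S_Rec) {k : ℕ} (hk : 2 ≤ k) (t : ℕ)
    (ih : ∀ N : ℕ, 1 ≤ N → (Jv (k * (t + 1)) k N : ℝ) ≤
      Real.exp (32 * (k : ℝ) ^ 3 * ((t : ℝ) + 1) ^ 2 + Real.log N * Del k t)) (N : ℕ) :
    1 ≤ N → (Jv (k * (t + 1 + 1)) k N : ℝ) ≤
      Real.exp (32 * (k : ℝ) ^ 3 * ((t : ℝ) + 1 + 1) ^ 2 + Real.log N * Del k (t + 1)) := by
  induction N using Nat.strong_induction_on with
  | _ N ihN =>
  intro hN
  have hk' : (2 : ℝ) ≤ k := by exact_mod_cast hk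
  have ht : (0 : ℝ) ≤ t := Nat.cast_nonneg t
  have hN' : (1 : ℝ) ≤ N := by exact_mod_cast hN
  have hn : 0 ≤ Real.log N := Real.log_nonneg hN'
  have hD' := Del_nonneg hk' (t + 1)
  by_cases hs : N < (4 * k) ^ (4 * k)
  · have h1 : Jv (k * (t + 1 + 1)) k N ≤ (4 * k) ^ (4 * k * (2 * (k * (t + 1 + 1)))) := by
      rw [pow_mul]
      exact (Jv_le _ _ _).trans (Nat.pow_le_pow_left hs.le _)
    have h2 := pow_le (4 * k) (4 * k * (2 * (k * (t + 1 + 1))))
    have h3 : (Jv (k * (t + 1 + 1)) k N : ℝ) ≤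
        ((4 * k : ℕ) : ℝ) ^ (4 * k * (2 * (k * (t + 1 + 1)))) := by exact_mod_cast h1
    refine h3.trans (h2.trans (Real.exp_le_exp.2 ?_))
    push_cast
    have h4 := mul_nonneg hn hD'
    have h5 : 0 ≤ (k : ℝ) ^ 3 * ((t : ℝ) + 1 + 1) * (t + 1) := by positivity
    nlinarith
  obtain ⟨p, hp, p1, p2, p3, p4⟩ := exP hk (not_lt.1 hs)
  have q1 : 8 ^ 4 ≤ (4 * k) ^ 4 := Nat.pow_le_pow_left (by omega) 4
  have q2 : 4 * k ≤ (4 * k) ^ 4 := Nat.le_self_pow (by omega) _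
  have hp0 : (0 : ℝ) < p := by exact_mod_cast hp.pos
  have hk0 : (0 : ℝ) < k := by linarith
  have hM : ((N / p + 1 : ℕ) : ℝ) ≤ 2 * N / p := by
    have a1 : ((N / p : ℕ) : ℝ) ≤ N / p := Nat.cast_div_le
    have a2 : (1 : ℝ) ≤ N / p := by
      rw [le_div_iff₀ hp0, one_mul]
      exact_mod_cast p4
    rw [Nat.cast_succ, mul_div_assoc]
    linarith
  have hM1 : 1 ≤ N / p + 1 := Nat.le_add_left _ _
  have hMN : N / p + 1 < N := by
    have a1 : N / p ≤ N / 4 := Nat.div_le_div_left (by omega) (by omega)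
    omega
  have hlM : Real.log ((N / p + 1 : ℕ) : ℝ) ≤ Real.log 2 + Real.log N - Real.log p := by
    rw [← Real.log_mul two_ne_zero (by linarith), ← Real.log_div (by linarith) hp0.ne']
    exact Real.log_le_log (by exact_mod_cast hM1) hM
  have l2 : Real.log 2 ≤ 1 := by linarith [Real.log_le_sub_one_of_pos (show (0 : ℝ) < 2 by norm_num)]
  have l2' : 0 ≤ Real.log 2 := Real.log_nonneg (by norm_num)
  have l4 : Real.log 4 = 2 * Real.log 2 := by
    rw [show (4 : ℝ) = 2 ^ 2 by norm_num, Real.log_pow]; norm_num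
  have la1 : Real.log N ≤ k * Real.log p := by
    rw [← Real.log_pow]
    exact Real.log_le_log (by linarith) (by exact_mod_cast p1)
  have la2 : k * Real.log p ≤ k * Real.log 4 + Real.log N := by
    rw [← Real.log_pow, ← Real.log_pow, ← Real.log_mul (by positivity) (by linarith)]
    exact Real.log_le_log (by positivity) (by exact_mod_cast p2)
  have la3 : 8 * Real.log 2 + 4 * Real.log k ≤ Real.log p := by
    have a1 : Real.log ((4 * (k : ℝ)) ^ 4) ≤ Real.log p :=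
      Real.log_le_log (by positivity) (by exact_mod_cast p3)
    rw [Real.log_pow, Real.log_mul (by norm_num) hk0.ne', l4] at a1
    push_cast at a1
    linarith
  have hrec := h k (k * (t + 1)) N p hp hk (by omega) (Nat.mul_pos (by omega) (by omega)) p1
  have es : k + k * (t + 1) = k * (t + 1 + 1) := by ring
  have j1 := ihN _ hMN hM1
  have j2 := ih _ hM1
  rw [← es] at j1 ⊢
  have four : (4 : ℝ) = Real.exp (2 * Real.log 2) := by
    rw [← l4, Real.exp_log (by norm_num)]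
  refine comb (Nat.cast_nonneg _) (by positivity) (Real.exp_pos _).le hrec ?_ ?_
  · refine (mul_le_mul_of_nonneg_left j1 (by positivity)).trans ?_
    rw [four, pow_eq hp0, pow_eq hk0, ← Real.exp_add, ← Real.exp_nat_mul, ← Real.exp_add,
      ← Real.exp_add, Real.exp_le_exp, Nat.cast_sub (by omega)]
    have a1 := ineq1 hk' (show (1 : ℝ) ≤ t + 1 by linarith) l2'
      (Real.log_nonneg (by linarith)) la3 (by simpa using Del_le hk' (t + 1))
      (by simpa using Del_ge hk' (t + 1))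
    have a2 := mul_le_mul_of_nonneg_right hlM hD'
    push_cast at a2 ⊢
    linarith
  · have hD := Del_nonneg hk' t
    have b1 : ((k + k * (t + 1) : ℕ) : ℝ) ^ k ≤ _ := pow_le _ _
    have b2 : (k.factorial : ℝ) ≤ Real.exp (k * k) :=
      le_trans (by exact_mod_cast Nat.factorial_le_pow k) (pow_le k k)
    have b3 : (4 : ℝ) ≤ Real.exp 2 := by
      rw [four]
      exact Real.exp_le_exp.2 (by linarith)
    have b4 : ((k * (k - 1) / 2 : ℕ) : ℝ) = (k : ℝ) * (k - 1) / 2 := by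
      rw [← Nat.choose_two_right, Nat.cast_choose_two]
    refine le_trans (b := Real.exp 2 * (Real.exp (k * (k + k * (t + 1) : ℕ)) *
      (p : ℝ) ^ (k * (t + 1))) ^ 2 * (Real.exp (k * k) * (p : ℝ) ^ (k * (k - 1) / 2) *
        (N : ℝ) ^ k * Real.exp (32 * (k : ℝ) ^ 3 * ((t : ℝ) + 1) ^ 2 +
          Real.log ((N / p + 1 : ℕ) : ℝ) * Del k t))) (by gcongr) ?_
    rw [pow_eq hp0, pow_eq hp0, pow_eq (show (0 : ℝ) < N by linarith), ← Real.exp_add,
      ← Real.exp_nat_mul, ← Real.exp_add, ← Real.exp_add, ← Real.exp_add, ← Real.exp_add,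
      ← Real.exp_add, Real.exp_le_exp, b4]
    obtain ⟨b, hb⟩ : ∃ b : ℝ, Real.log N = k * b := ⟨Real.log N / k, by field_simp⟩
    rw [hb] at la1 la2 hlM ⊢
    have c1 : b ≤ Real.log p := le_of_mul_le_mul_left la1 hk0
    have c2 : Real.log p ≤ b + 2 := by
      refine le_of_mul_le_mul_left ?_ hk0
      have := mul_le_mul_of_nonneg_left l2 hk0.le
      rw [l4] at la2
      nlinarith
    have a1 := ineq2 hk' (show (1 : ℝ) ≤ t + 1 by linarith) hD (Del_le hk' t) c1 c2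
      (Del_succ hk' t)
    have a2 := mul_le_mul_of_nonneg_right (hlM.trans (show _ ≤ 1 + k * b - Real.log p by linarith)) hD
    push_cast at a2 ⊢
    linarith

theorem all (h : S_Rec) {k : ℕ} (hk : 2 ≤ k) : ∀ (t N : ℕ), 1 ≤ N → (Jv (k * (t + 1)) k N : ℝ) ≤
    Real.exp (32 * (k : ℝ) ^ 3 * ((t : ℝ) + 1) ^ 2 + Real.log N * Del k t)
  | 0 => by
    intro N hN
    have hN' : (1 : ℝ) ≤ N := by exact_mod_cast hN
    have h1 : (Jv (k * (0 + 1)) k N : ℝ) ≤ (N : ℝ) ^ (2 * (k * (0 + 1))) := by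
      exact_mod_cast Jv_le _ _ _
    refine h1.trans ?_
    rw [pow_eq (show (0 : ℝ) < N by linarith), Real.exp_le_exp]
    have h2 : (0 : ℝ) ≤ (k : ℝ) ^ 3 := by positivity
    simp only [Del]
    push_cast
    nlinarith
  | t + 1 => by
    intro N hN
    have := step h hk t (all h hk t) N hN
    push_cast
    exact this

end VMVTP

theorem pVMVT (h : S_Rec) : S_VMVT := by
  refine ⟨32, by norm_num, fun k τ N hk hτ hN => ?_⟩
  obtain ⟨t, rfl⟩ : ∃ t, τ = t + 1 := ⟨τ - 1, by omega⟩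
  have hN' : (1 : ℝ) ≤ N := by exact_mod_cast hN
  have h1 := VMVTP.all h hk t N hN
  rw [Real.rpow_def_of_pos (by linarith), ← Real.exp_add, Nat.add_sub_cancel]
  push_cast
  exact h1

end Pool.Agent.P.MP_746f10_nt.AP
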