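import Pool.Agent.P.MP_746f10_nt.AP.VK
import Pool.Agent.P.MP_0ad054_nt.An.LS

/-! The sum of the bounds for geometric series along an arithmetic progression. -/

namespace Pool.Agent.P.MP_746f10_nt.AP

open Finset
open Pool.Agent.P.MP_0ad054_nt (mn dn mn_le)

namespace WsP

theorem triv (α : ℝ) {A : ℕ} (hA : 1 ≤ A) : Ws α A ≤ 3 * (A : ℝ) ^ 2 := by
  have hA' : (1 : ℝ) ≤ A := by exact_mod_cast hA
  have h1 : Ws α A ≤ (Icc (-(A : ℤ)) A).card • (A : ℝ) :=
    sum_le_card_nsmul _ _ _ fun m _ => mn_le (by positivity) _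
  have h2 : (Icc (-(A : ℤ)) A).card = 2 * A + 1 := by
    rw [Int.card_Icc]
    omega
  rw [h2, nsmul_eq_mul] at h1
  push_cast at h1
  nlinarith

theorem dn_small {x : ℝ} (h : |x| < 1 / 2) : dn x = |x| := by
  have h1 := abs_lt.1 h
  have : round x = 0 := round_eq_zero_iff.2 ⟨by linarith [h1.1], h1.2⟩
  simp [dn, this]

/-- One block of consecutive integers. -/
theorem block {α : ℝ} {Q : ℕ} (hQ : 0 < Q) (h : 1 / (Q : ℝ) ≤ |α|) {Y : ℝ} (hY : 0 ≤ Y)
    (T : Finset ℤ) (b : ℤ) (hT : ∀ m ∈ T, ⌊2 * |α| * m⌋ = b) :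
    ∑ m ∈ T, mn Y (α * m) ≤ 2 * (3 * Y + Q * (1 + Real.log Q)) := by
  have key := Pool.Agent.P.MP_0ad054_nt.An.LSP.spaced T (fun m => α * m) hQ hY
    (fun s hs t ht hne => by
      have h1 := Int.floor_le (2 * |α| * s)
      have h2 := Int.lt_floor_add_one (2 * |α| * s)
      have h3 := Int.floor_le (2 * |α| * t)
      have h4 := Int.lt_floor_add_one (2 * |α| * t)
      rw [hT s hs] at h1 h2
      rw [hT t ht] at h3 h4
      have e : |α * s - α * t| = |α| * |(s : ℝ) - t| := by rw [← mul_sub, abs_mul]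
      have h5 : |α| * |(s : ℝ) - t| < 1 / 2 := by
        rcases abs_cases ((s : ℝ) - t) with h6 | h6 <;> rw [h6.1] <;> linarith
      have h6 : (1 : ℝ) ≤ |(s : ℝ) - t| := by
        exact_mod_cast Int.one_le_abs (sub_ne_zero.2 hne)
      rw [dn_small (e ▸ h5), e]
      nlinarith [abs_nonneg α]) 0
  simpa using key

theorem blocks {α : ℝ} {Q : ℕ} (hQ : 0 < Q) (h : 1 / (Q : ℝ) ≤ |α|) (A : ℕ) :
    Ws α A ≤ 4 * (A * |α| + 1) * (2 * (3 * A + Q * (1 + Real.log Q))) := by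
  set K : ℕ := ⌈2 * |α| * A⌉₊ with hK
  have h0 : 0 ≤ 2 * |α| * A := by positivity
  have h1 : 2 * |α| * A ≤ K := Nat.le_ceil _
  have h2 : (K : ℝ) < 2 * |α| * A + 1 := Nat.ceil_lt_add_one h0
  have hmap : ∀ m ∈ Icc (-(A : ℤ)) A, ⌊2 * |α| * m⌋ ∈ Icc (-(K : ℤ)) K := by
    intro m hm
    rw [mem_Icc] at hm ⊢
    have h3 : (-(A : ℝ)) ≤ m := by exact_mod_cast hm.1
    have h4 : (m : ℝ) ≤ A := by exact_mod_cast hm.2
    have h5 := abs_nonneg α
    constructor
    · rw [Int.le_floor]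
      push_cast
      nlinarith
    · have h6 : (⌊2 * |α| * m⌋ : ℝ) ≤ K := (Int.floor_le _).trans (by nlinarith)
      exact_mod_cast h6
  have hQ' : (1 : ℝ) ≤ Q := by exact_mod_cast hQ
  have hl := Real.log_nonneg hQ'
  rw [Ws, ← sum_fiberwise_of_maps_to hmap]
  refine (sum_le_card_nsmul _ _ _ fun b _ =>
    block hQ h (Nat.cast_nonneg A) _ b fun m hm => (mem_filter.1 hm).2).trans ?_
  have h3 : (Icc (-(K : ℤ)) K).card = 2 * K + 1 := by
    rw [Int.card_Icc]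
    omega
  rw [h3, nsmul_eq_mul]
  push_cast
  gcongr
  linarith

end WsP

theorem pWs : S_Ws := by
  refine ⟨40, by norm_num, fun α A hA => ⟨WsP.triv α hA, fun hα => ?_⟩⟩
  have hA' : (1 : ℝ) ≤ A := by exact_mod_cast hA
  have ha : 0 < |α| := abs_pos.2 hα
  have hl := Real.log_nonneg hA'
  have hd : (1 + Real.log A) / |α| = (1 + Real.log A) * (1 / |α|) := by ring
  have hi : 0 < 1 / |α| := by positivity
  have hp : 0 ≤ A * |α| := by positivity
  rw [hd]
  rcases le_or_gt (1 / |α|) ((A : ℝ) ^ 2) with h | h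
  · set Q : ℕ := ⌈1 / |α|⌉₊ with hQ
    have hQ0 : 0 < Q := Nat.ceil_pos.2 hi
    have hQ0' : (0 : ℝ) < Q := by exact_mod_cast hQ0
    have h1 : 1 / |α| ≤ Q := Nat.le_ceil _
    have h2 : (Q : ℝ) < 1 / |α| + 1 := Nat.ceil_lt_add_one hi.le
    have h3 : (Q : ℝ) ≤ (A : ℝ) ^ 2 := by
      have : Q ≤ A ^ 2 := Nat.ceil_le.2 (by exact_mod_cast h)
      exact_mod_cast this
    have h4 : Real.log Q ≤ 2 * Real.log A := by
      have := Real.log_le_log hQ0' h3
      rwa [Real.log_pow] at this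
    have h5 : 1 + Real.log A ≤ A := by
      linarith [Real.log_le_sub_one_of_pos (show (0 : ℝ) < A by linarith)]
    have h6 : Q * (1 + Real.log Q) ≤ (1 / |α| + 1) * (2 * (1 + Real.log A)) := by
      have := Real.log_natCast_nonneg Q
      gcongr
      linarith
    refine (WsP.blocks hQ0 ((one_div_le hQ0' ha).2 h1) A).trans ?_
    have h7 : 2 * (3 * A + Q * (1 + Real.log Q)) ≤
        10 * (A + (1 + Real.log A) * (1 / |α|)) := by
      nlinarith [mul_nonneg hl hi.le]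
    calc _ ≤ 4 * (A * |α| + 1) * (10 * (A + (1 + Real.log A) * (1 / |α|))) := by gcongr
      _ = _ := by ring
  · refine (WsP.triv α hA).trans ?_
    have h1 : (A : ℝ) ^ 2 ≤ A + (1 + Real.log A) * (1 / |α|) := by
      nlinarith [mul_nonneg hl hi.le]
    nlinarith [mul_nonneg hp ((sq_nonneg (A : ℝ)).trans h1)]

end Pool.Agent.P.MP_746f10_nt.AP
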