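import Pool.Agent.P.MP_746f10_nt.AP.VK
import Pool.Agent.P.MP_0ad054_nt.An.Lup

/-! Package ZF: from upper bounds for L to a zero free region, by the lemma of Landau. -/

namespace Pool.Agent.P.MP_746f10_nt.AP

open Finset Metric DirichletCharacter Complex LSeries
open Pool.Agent.P.MP_0ad054_nt
open scoped ArithmeticFunction.vonMangoldt ArithmeticFunction.Moebius

namespace ZFP

/-- real terms of a Dirichlet series -/
noncomputable def T (g : ℕ → ℝ) (σ : ℝ) (n : ℕ) : ℝ := if n = 0 then 0 else g n / (n : ℝ) ^ σ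

theorem T_nonneg {g : ℕ → ℝ} (hg : ∀ n, 0 ≤ g n) (σ : ℝ) (n : ℕ) : 0 ≤ T g σ n := by
  unfold T
  split_ifs
  · rfl
  · exact div_nonneg (hg n) (by positivity)

theorem term_eq (a : ℕ → ℂ) (g : ℕ → ℝ) (σ γ : ℝ) (n : ℕ) :
    term (fun n => a n * g n) (σ + γ * I) n = T g σ n * (a n * (n : ℂ) ^ (-(γ * I))) := by
  unfold T
  split_ifs with h
  · simp [h]
  · have h0 : (n : ℂ) ≠ 0 := Nat.cast_ne_zero.2 h
    rw [term_of_ne_zero h, cpow_add _ _ h0, cpow_neg, ofReal_div, ofReal_cpow (Nat.cast_nonneg n),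
      ofReal_natCast]
    ring

theorem norm_z {a : ℂ} (ha : ‖a‖ ≤ 1) (γ : ℝ) (n : ℕ) : ‖a * (n : ℂ) ^ (-(γ * I))‖ ≤ 1 := by
  rw [norm_mul]
  refine mul_le_one₀ ha (norm_nonneg _) ?_
  rcases Nat.eq_zero_or_pos n with rfl | h
  · by_cases e : -((γ : ℂ) * I) = 0
    · simp [e]
    · rw [Nat.cast_zero, zero_cpow e]
      simp
  · rw [norm_natCast_cpow_of_pos h]
    simp

theorem hasSum_T {g : ℕ → ℝ} {σ : ℝ} (h : LSeriesSummable (fun n => (g n : ℂ)) σ) :
    HasSum (T g σ) (LSeries (fun n => (g n : ℂ)) σ).re := by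
  have e : ∀ n, T g σ n = (term (fun n => (g n : ℂ)) σ n).re := fun n => by
    have := term_eq (fun _ => 1) g σ 0 n
    simp only [one_mul, ofReal_zero, zero_mul, add_zero, neg_zero, cpow_zero, mul_one] at this
    rw [this, ofReal_re]
  rw [funext e]
  exact hasSum_re h.hasSum

theorem norm_le {a : ℕ → ℂ} (ha : ∀ n, ‖a n‖ ≤ 1) {g : ℕ → ℝ} (hg : ∀ n, 0 ≤ g n) {s : ℂ}
    (h : LSeriesSummable (fun n => (g n : ℂ)) s.re) :
    ‖LSeries (fun n => a n * g n) s‖ ≤ (LSeries (fun n => (g n : ℂ)) s.re).re := by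
  refine tsum_of_norm_bounded (hasSum_T h) fun n => ?_
  conv_lhs => rw [← re_add_im s, term_eq, norm_mul, norm_real, Real.norm_of_nonneg (T_nonneg hg _ _)]
  exact mul_le_of_le_one_right (T_nonneg hg _ _) (norm_z (ha n) _ _)

variable {q : ℕ} [NeZero q]

theorem one_le (ψ : DirichletCharacter ℂ q) {c : ℂ} (hc : 1 < c.re) :
    1 ≤ (1 + 1 / (c.re - 1)) * ‖LFunction ψ c‖ := by
  have h1 := DirichletCharacter.LSeries.mul_mu_eq_one ψ hc
  have hc' : 1 < (c.re : ℂ).re := by simpa using hc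
  have h2 := norm_le (a := fun n => ψ n * (μ n : ℂ)) (g := fun _ => 1) (s := c) (fun n => by
    rw [norm_mul]
    refine mul_le_one₀ (norm_le_one ψ _) (norm_nonneg _) ?_
    exact_mod_cast ArithmeticFunction.abs_moebius_le_one) (fun _ => zero_le_one)
    (LSeriesSummable_one_iff.2 hc')
  have h3 := An.LupP.norm_L_le (1 : DirichletCharacter ℂ 1) hc'
  rw [LFunction_modOne_eq, ← LSeries_one_eq_riemannZeta hc', ofReal_re] at h3
  simp only [ofReal_one, mul_one] at h2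
  have h4 := h2.trans ((re_le_norm _).trans h3)
  have h5 := congrArg norm h1
  rw [norm_mul, norm_one, ← LFunction_eq_LSeries ψ hc] at h5
  exact h5.ge.trans ((mul_comm _ _).le.trans (mul_le_mul_of_nonneg_right h4 (norm_nonneg _)))

/-- the series of the von Mangoldt function at a real point -/
noncomputable def D (σ : ℝ) : ℝ := (LSeries (fun n => (Λ n : ℂ)) σ).re

theorem ld_eq (ψ : DirichletCharacter ℂ q) {s : ℂ} (hs : 1 < s.re) :
    -(deriv (LFunction ψ) s / LFunction ψ s) = LSeries (fun n => ψ n * (Λ n : ℂ)) s := by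
  rw [deriv_LFunction_eq_deriv_LSeries ψ hs, LFunction_eq_LSeries ψ hs, ← neg_div]
  exact (LSeries_twist_vonMangoldt_eq ψ hs).symm

theorem ld_le (ψ : DirichletCharacter ℂ q) {s : ℂ} (hs : 1 < s.re) :
    ‖deriv (LFunction ψ) s / LFunction ψ s‖ ≤ D s.re := by
  rw [← norm_neg, ld_eq ψ hs]
  exact norm_le (fun n => norm_le_one ψ _) (fun _ => ArithmeticFunction.vonMangoldt_nonneg)
    (ArithmeticFunction.LSeriesSummable_vonMangoldt (by simpa using hs))

theorem three41 (ψ : DirichletCharacter ℂ q) {σ : ℝ} (hσ : 1 < σ) (γ : ℝ) :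
    0 ≤ 3 * D σ + 4 * -(deriv (LFunction ψ) (σ + γ * I) / LFunction ψ (σ + γ * I)).re +
      -(deriv (LFunction (ψ ^ 2)) (σ + (2 * γ : ℝ) * I) /
        LFunction (ψ ^ 2) (σ + (2 * γ : ℝ) * I)).re := by
  have r : ∀ t : ℝ, 1 < ((σ : ℂ) + t * I).re := fun t => by simpa using hσ
  rw [← neg_re, ← neg_re, ld_eq ψ (r γ), ld_eq _ (r _)]
  have s0 := hasSum_T (g := fun n => Λ n) (σ := σ)
    (ArithmeticFunction.LSeriesSummable_vonMangoldt (by simpa using hσ))
  have s1 := hasSum_re (LSeriesSummable_twist_vonMangoldt ψ (r γ)).hasSum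
  have s2 := hasSum_re (LSeriesSummable_twist_vonMangoldt (ψ ^ 2) (r (2 * γ))).hasSum
  refine (((s0.mul_left 3).add (s1.mul_left 4)).add s2).nonneg fun n => ?_
  have e1 := term_eq (fun n => ψ n) (fun n => Λ n) σ γ n
  have e2 := term_eq (fun n => (ψ ^ 2) n) (fun n => Λ n) σ (2 * γ) n
  have e3 : (ψ ^ 2) (n : ZMod q) * (n : ℂ) ^ (-(((2 * γ : ℝ) : ℂ) * I)) =
      (ψ n * (n : ℂ) ^ (-(γ * I))) ^ 2 := by
    rw [mul_pow, MulChar.pow_apply' _ two_ne_zero, ← cpow_nat_mul]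
    congr 2
    push_cast
    ring
  have hz := norm_z (norm_le_one ψ (n : ZMod q)) γ n
  have hT := T_nonneg (g := fun n => Λ n) (fun _ => ArithmeticFunction.vonMangoldt_nonneg) σ n
  change 0 ≤ 3 * _ + 4 * (term (fun n : ℕ => ψ n * (Λ n : ℂ)) _ n).re +
    (term (fun n : ℕ => (ψ ^ 2) n * (Λ n : ℂ)) _ n).re
  rw [e1, e2, e3, re_ofReal_mul, re_ofReal_mul]
  generalize ψ n * (n : ℂ) ^ (-(γ * I)) = z at hz
  have h1 : z.re ^ 2 + z.im ^ 2 ≤ 1 := by
    have := Complex.sq_norm z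
    rw [normSq_apply] at this
    nlinarith [norm_nonneg z]
  have h2 : (z ^ 2).re = z.re ^ 2 - z.im ^ 2 := by
    rw [sq, mul_re]
    ring
  have h3 : 0 ≤ 3 + 4 * z.re + (z ^ 2).re := by nlinarith [sq_nonneg (z.re + 1)]
  nlinarith [mul_nonneg hT h3]

theorem D_le (h : An.S_Zfree) : ∃ C : ℝ, 1 ≤ C ∧ ∀ σ : ℝ, 1 < σ → σ ≤ 2 → D σ ≤ 1 / (σ - 1) + C := by
  obtain ⟨c, c0, c1, -, h⟩ := h 1 one_pos
  refine ⟨2 / c, by rw [le_div_iff₀ c0]; linarith, fun σ h1 h2 => ?_⟩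
  have hc : An.cond 1 (σ : ℂ) = 2 := by simp [An.cond]
  obtain ⟨-, h3⟩ := h σ (by
    have : 0 ≤ c * An.cond 1 (σ : ℂ) ^ (-1 : ℝ) := by rw [hc]; positivity
    rw [ofReal_re]
    linarith) (by simpa using h2)
  have r : 1 < (σ : ℂ).re := by simpa using h1
  have n1 : (σ : ℂ) ≠ 1 := fun e => by simp [e] at r
  have n2 : (σ : ℂ) - 1 ≠ 0 := sub_ne_zero.2 n1
  have n3 := riemannZeta_ne_zero_of_one_le_re r.le
  have e : deriv An.Zf σ = (σ - 1) * deriv riemannZeta σ + riemannZeta σ := by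
    rw [An.Zf, deriv_LFunctionTrivChar₁_apply_of_ne_one 1 n1, LFunctionTrivChar,
      LFunction_modOne_eq]
  have e2 : -deriv riemannZeta σ / riemannZeta σ =
      ((1 / (σ - 1) : ℝ) : ℂ) + -(deriv An.Zf σ / An.Zf σ) := by
    rw [e, An.LupP.Zf_eq n1]
    push_cast
    field_simp
    ring
  rw [hc, Real.rpow_one, ← norm_neg] at h3
  rw [D, ArithmeticFunction.LSeries_vonMangoldt_eq_deriv_riemannZeta_div r, e2, add_re, ofReal_re]
  linarith [re_le_norm (-(deriv An.Zf σ / An.Zf σ))]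

/-- the hypotheses of the lemmas of Landau on a disc -/
theorem disc (ψ : DirichletCharacter ℂ q) {θ X U W r : ℝ} {c : ℂ}
    (h : ∀ s : ℂ, 1 - θ ≤ s.re → s.re ≤ 2 → 1 ≤ |s.im| → |s.im| ≤ 10 * X → ‖LFunction ψ s‖ ≤ U)
    (r1 : r ≤ θ) (θ1 : θ ≤ 1 / 4) (c1 : 1 < c.re) (c2 : c.re ≤ 3 / 2)
    (c3 : 1 + 1 / (c.re - 1) ≤ W) (c4 : 5 / 4 ≤ |c.im|) (c5 : |c.im| ≤ 10 * X - 1) :
    DifferentiableOn ℂ (LFunction ψ) (ball c r) ∧ LFunction ψ c ≠ 0 ∧
      (∀ s ∈ ball c r, ‖LFunction ψ s‖ ≤ U * W * ‖LFunction ψ c‖) ∧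
      ∀ s ∈ ball c r, LFunction ψ s = 0 → s.re ≤ c.re := by
  have b : ∀ s ∈ ball c r, |s.re - c.re| < r ∧ |s.im - c.im| < r := fun s hs => by
    rw [mem_ball, dist_eq_norm] at hs
    exact ⟨(abs_re_le_norm (s - c)).trans_lt hs, (abs_im_le_norm (s - c)).trans_lt hs⟩
  have b2 : ∀ s ∈ ball c r, 1 ≤ |s.im| ∧ |s.im| ≤ 10 * X := fun s hs => by
    have a1 := abs_sub_abs_le_abs_sub s.im c.im
    have a2 := abs_sub_abs_le_abs_sub c.im s.im
    rw [abs_sub_comm c.im] at a2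
    have := (b s hs).2
    constructor <;> linarith
  have b3 : ∀ s ∈ ball c r, s ≠ 1 := fun s hs e => by
    have := (b2 s hs).1
    rw [e, one_im, abs_zero] at this
    linarith
  have o := one_le ψ c1
  refine ⟨fun s hs => (differentiableAt_LFunction ψ s (.inl (b3 s hs))).differentiableWithinAt,
    fun e => ?_, fun s hs => ?_, fun s hs e => ?_⟩
  · rw [e, norm_zero, mul_zero] at o
    linarith
  · have a := abs_lt.1 (b s hs).1
    have a1 := h s (by linarith) (by linarith) (b2 s hs).1 (b2 s hs).2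
    have a2 : 1 ≤ W * ‖LFunction ψ c‖ :=
      o.trans (mul_le_mul_of_nonneg_right c3 (norm_nonneg _))
    rw [mul_assoc]
    exact a1.trans (le_mul_of_one_le_right ((norm_nonneg _).trans a1) a2)
  · by_contra hc
    exact LFunction_ne_zero_of_one_le_re ψ (.inr (b3 s hs)) (by linarith) e

theorem large (E : ℝ) : ∃ X0 : ℝ, ∀ X : ℝ, X0 ≤ X → 2 ≤ X ∧ 1 ≤ Real.log (Real.log X) ∧
    E * Real.log (Real.log X) ^ 2 ≤ Real.log X := by
  have t := Real.tendsto_log_atTop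
  have a := (Real.isLittleO_pow_log_id_atTop (n := 2)).bound (c := (|E| + 1)⁻¹) (by positivity)
  have b := ((Filter.eventually_ge_atTop 2).and ((t.comp t).eventually_ge_atTop 1)).and
    ((t.eventually a).and (t.eventually_ge_atTop 0))
  obtain ⟨X0, h⟩ := Filter.eventually_atTop.1 b
  refine ⟨X0, fun X hX => ?_⟩
  obtain ⟨⟨h1, h2⟩, h3, h4⟩ := h X hX
  refine ⟨h1, h2, ?_⟩
  rw [Real.norm_of_nonneg (sq_nonneg _), id, Real.norm_of_nonneg h4,
    le_inv_mul_iff₀ (by positivity)] at h3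
  nlinarith [le_abs_self E, sq_nonneg (Real.log (Real.log X))]

/-- the choice of the parameters -/
theorem num {c A K H C CL CD L l : ℝ} (c1 : 1 ≤ c) (A1 : 2 ≤ A) (C1 : 1 ≤ C) (CL0 : 0 < CL)
    (CD0 : 0 < CD) (hK : K = (CL + 1) * A) (hH : 400 * K * c ≤ H) (l1 : 1 ≤ l)
    (l2 : (4 * H * C + CD * A) * l ^ 2 ≤ L) :
    13 ≤ L ∧ C ≤ L ∧ 0 < H * l ^ 2 / L ∧ H * l ^ 2 / L ≤ 1 / 4 ∧ 0 < c * l / L ∧
      1 / (c * l / L) ≤ L ∧ CD * (A * l) / (4 * (c * l / L)) ≤ L ^ 2 ∧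
      ∃ u : ℝ, 0 < u ∧ 400 * (c * l / L) ≤ u ∧ u ≤ H * l ^ 2 / L ∧ 1 / u ≤ L ∧ 3 * C ≤ 1 / u ∧
        CL * (A * l) / (H * l ^ 2 / L) ≤ 1 / u := by
  have K1 : 2 ≤ K := by rw [hK]; nlinarith
  have HK : 400 * K ≤ H := le_trans (le_mul_of_one_le_right (by linarith) c1) hH
  have H0 : 0 < H := by linarith
  have l3 : l ≤ l ^ 2 := by nlinarith
  have l0 : 1 ≤ l ^ 2 := by linarith
  have CA : 0 < CD * A := by positivity
  have HC : H ≤ H * C := le_mul_of_one_le_right H0.le C1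
  have HC' : C ≤ H * C := le_mul_of_one_le_left (by linarith) (by linarith)
  have a1 : CD * A ≤ CD * A * l ^ 2 := le_mul_of_one_le_right CA.le l0
  have a2 : H * C ≤ H * C * l ^ 2 := le_mul_of_one_le_right (by linarith) l0
  have a3 : H * l ^ 2 ≤ H * C * l ^ 2 := mul_le_mul_of_nonneg_right HC (by linarith)
  have a4 : H * C * l ≤ H * C * l ^ 2 := mul_le_mul_of_nonneg_left l3 (by linarith)
  have a5 : 4 * (H * C * l ^ 2) + CD * A * l ^ 2 ≤ L := by linarith
  have L1 : 13 ≤ L := by linarith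
  have L0 : 0 < L := by linarith
  have a6 : 1 ≤ c * l := one_le_mul_of_one_le_of_one_le c1 l1
  have a7 : K ≤ H * l := le_trans (by linarith) (le_mul_of_one_le_right H0.le l1)
  refine ⟨L1, by linarith, by positivity, by rw [div_le_iff₀ L0]; linarith, by positivity, ?_, ?_,
    H * l / (K * L), by positivity, ?_, ?_, ?_, ?_, ?_⟩
  · rw [one_div_div]
    exact div_le_self L0.le a6
  · rw [show CD * (A * l) / (4 * (c * l / L)) = CD * A / (4 * c) * L by field_simp, sq]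
    exact mul_le_mul_of_nonneg_right ((div_le_self CA.le (by linarith)).trans (by linarith)) L0.le
  · rw [show 400 * (c * l / L) = 400 * K * c * l / (K * L) by field_simp]
    gcongr
  · exact div_le_div₀ (by positivity) (mul_le_mul_of_nonneg_left l3 H0.le) L0
      (le_mul_of_one_le_left L0.le (by linarith))
  · rw [one_div_div, div_le_iff₀ (by positivity), mul_comm]
    exact mul_le_mul_of_nonneg_left a7 L0.le
  · rw [one_div_div, le_div_iff₀ (by positivity)]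
    have : L ≤ K * L := le_mul_of_one_le_left L0.le (by linarith)
    have : 0 ≤ H * C * l := by positivity
    linarith
  · rw [show CL * (A * l) / (H * l ^ 2 / L) = CL * A * (L / (H * l)) by field_simp,
      show 1 / (H * l / (K * L)) = K * (L / (H * l)) by field_simp, hK]
    gcongr
    linarith

/-- the zero free region -/
theorem zf (ψ : DirichletCharacter ℂ q) {C u : ℝ} (u0 : 0 < u) (u1 : u ≤ 1 / 4) (u4 : 3 * C ≤ 1 / u)
    (hD : ∀ σ : ℝ, 1 < σ → σ ≤ 2 → D σ ≤ 1 / (σ - 1) + C) {ρ : ℂ} (r1 : 1 - u / 100 ≤ ρ.re)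
    (r4 : ρ.re < 1)
    (k1 : -(deriv (LFunction ψ) ((1 + u / 12 : ℝ) + ρ.im * I) /
      LFunction ψ ((1 + u / 12 : ℝ) + ρ.im * I)).re ≤
        1 / u - (1 / (((1 + u / 12 : ℝ) : ℂ) + ρ.im * I - ρ)).re)
    (k2 : -(deriv (LFunction (ψ ^ 2)) ((1 + u / 12 : ℝ) + (2 * ρ.im : ℝ) * I) /
      LFunction (ψ ^ 2) ((1 + u / 12 : ℝ) + (2 * ρ.im : ℝ) * I)).re ≤ 1 / u) : False := by
  have e1 : ((1 + u / 12 : ℝ) : ℂ) + ρ.im * I - ρ = (1 + u / 12 - ρ.re : ℝ) := by
    apply Complex.ext <;> simp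
  rw [e1, ← ofReal_one, ← ofReal_div, ofReal_re] at k1
  have k3 := three41 ψ (σ := 1 + u / 12) (by linarith) ρ.im
  have k4 := hD (1 + u / 12) (by linarith) (by linarith)
  rw [add_sub_cancel_left, show 1 / (u / 12) = 12 * (1 / u) by field_simp] at k4
  have k5 : 1 / (u * (112 / 1200)) ≤ 1 / (1 + u / 12 - ρ.re) :=
    one_div_le_one_div_of_le (by linarith) (by linarith)
  rw [show 1 / (u * (112 / 1200)) = 1200 / 112 * (1 / u) by field_simp] at k5
  have k6 : 0 < 1 / u := by positivity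
  linarith

end ZFP

open ZFP

theorem pZF (h1 : S_Lbd) (h2 : S_Landau) (h3 : S_LogD) (h4 : An.S_Zfree) : S_ZF := by
  intro B C0
  obtain ⟨A0, h1⟩ := h1 B
  obtain ⟨CL, CL0, h2⟩ := h2
  obtain ⟨CD, CD0, h3⟩ := h3
  obtain ⟨C, C1, hD⟩ := D_le h4
  obtain ⟨c, hc⟩ : ∃ c : ℝ, c = C0 + 1 := ⟨_, rfl⟩
  have c1 : 1 ≤ c := by rw [hc]; linarith [Nat.cast_nonneg (α := ℝ) C0]
  obtain ⟨A, hA⟩ : ∃ A : ℝ, A = A0 + 2 := ⟨_, rfl⟩
  have A1 : 2 ≤ A := by rw [hA]; linarith [Nat.cast_nonneg (α := ℝ) A0]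
  obtain ⟨H, hH⟩ := exists_nat_ge (400 * ((CL + 1) * A) * c)
  obtain ⟨X1, g1⟩ := h1 H
  obtain ⟨X2, hX2⟩ := large (4 * H * C + CD * A)
  refine ⟨max X1 X2, fun X hX q _ ψ s hq s1 s2 s3 s4 => ?_⟩
  obtain ⟨X3, l1, l2⟩ := hX2 X (le_of_max_le_right hX)
  replace g1 := fun χ : DirichletCharacter ℂ q => fun s => g1 X (le_of_max_le_left hX) q χ s hq
  unfold th at g1
  obtain ⟨L1, CL1, θ0, θ1, η0, η2, η3, u, u0, u1, u2, u3, u4, u5⟩ :=
    num c1 A1 C1 CL0 CD0 rfl hH l1 l2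
  have s0 : 1 - c * Real.log (Real.log X) / Real.log X ≤ s.re := by
    refine le_trans ?_ s1
    rw [hc]
    gcongr
    linarith
  have eM : Real.exp (A * Real.log (Real.log X)) = Real.log X ^ A0 * Real.log X ^ 2 := by
    rw [← pow_add, hA, mul_comm, Real.exp_mul, Real.exp_log (by linarith)]
    exact_mod_cast Real.rpow_natCast (Real.log X) (A0 + 2)
  have M1 : 1 ≤ A * Real.log (Real.log X) := one_le_mul_of_one_le_of_one_le (by linarith) l1
  generalize c * Real.log (Real.log X) / Real.log X = η at *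
  generalize H * Real.log (Real.log X) ^ 2 / Real.log X = θ at *
  generalize A * Real.log (Real.log X) = M at *
  generalize Real.log X = L at *
  have L2 : 13 * L ≤ L ^ 2 := by nlinarith only [L1]
  have z : ∀ ρ : ℂ, 1 - 4 * η ≤ ρ.re → 3 / 2 ≤ |ρ.im| → |ρ.im| ≤ 4 * X + 1 →
      LFunction ψ ρ ≠ 0 := by
    intro ρ r1 r2 r3 e
    have r4 : ρ.re < 1 := by
      by_contra hc
      refine LFunction_ne_zero_of_one_le_re ψ (.inr fun e => ?_) (by linarith) e
      rw [e, one_im, abs_zero] at r2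
      linarith
    have key : ∀ (χ : DirichletCharacter ℂ q) (t : ℝ), 5 / 4 ≤ |t| → |t| ≤ 10 * X - 1 → _ :=
      fun χ t t1 t2 => by
        have re : (((1 + u / 12 : ℝ) : ℂ) + t * I).re = 1 + u / 12 := by simp
        have im : (((1 + u / 12 : ℝ) : ℂ) + t * I).im = t := by simp
        obtain ⟨d1, d2, d3, d4⟩ := disc χ (c := (1 + u / 12 : ℝ) + t * I) (W := L ^ 2) (g1 χ) le_rfl
          θ1 (by rw [re]; linarith) (by rw [re]; linarith) (by
            rw [re, add_sub_cancel_left, show 1 / (u / 12) = 12 * (1 / u) by field_simp]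
            linarith) (by rwa [im]) (by rwa [im])
        exact h2 _ _ θ M θ0 M1 d1 d2 (eM ▸ d3) d4
    have k1 := (key ψ ρ.im (by linarith) (by linarith)).2 ρ e (by
      have e1 : ((1 + u / 12 : ℝ) : ℂ) + ρ.im * I - ρ = (1 + u / 12 - ρ.re : ℝ) := by
        apply Complex.ext <;> simp
      rw [norm_sub_rev, e1, norm_real, Real.norm_of_nonneg (by linarith)]
      linarith)
    have k2 := (key (ψ ^ 2) (2 * ρ.im) (by rw [abs_mul, abs_two]; linarith)
      (by rw [abs_mul, abs_two]; linarith)).1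
    exact zf ψ u0 (by linarith) u4 hD (by linarith) r4 (k1.trans (by linarith)) (k2.trans u5)
  refine ⟨z s (by linarith) (by linarith) (by linarith), ?_⟩
  rcases le_total s.re (1 + 3 * η) with h | h
  · have re : (((1 + η : ℝ) : ℂ) + s.im * I).re = 1 + η := by simp
    have im : (((1 + η : ℝ) : ℂ) + s.im * I).im = s.im := by simp
    obtain ⟨d1, -, d3, -⟩ := disc ψ (c := (1 + η : ℝ) + s.im * I) (W := L ^ 2) (r := 4 * η) (g1 ψ)
      (by linarith) θ1 (by rw [re]; linarith) (by rw [re]; linarith)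
      (by rw [re, add_sub_cancel_left]; linarith) (by rw [im]; linarith) (by rw [im]; linarith)
    refine (h3 _ _ (4 * η) M (by linarith) M1 d1 (fun w hw => ?_) (eM ▸ d3) s ?_).trans η3
    · rw [mem_ball, dist_eq_norm] at hw
      have a1 := abs_lt.1 ((abs_re_le_norm _).trans_lt hw)
      have a2 := (abs_im_le_norm _).trans_lt hw
      rw [sub_re, re] at a1
      rw [sub_im, im] at a2
      have a3 := abs_sub_abs_le_abs_sub w.im s.im
      have a4 := abs_sub_abs_le_abs_sub s.im w.im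
      rw [abs_sub_comm s.im] at a4
      exact z w (by linarith) (by linarith) (by linarith)
    · have e1 : s - (((1 + η : ℝ) : ℂ) + s.im * I) = (s.re - (1 + η) : ℝ) := by
        apply Complex.ext <;> simp
      rw [mem_closedBall, dist_eq_norm, e1, norm_real, Real.norm_eq_abs, abs_le]
      constructor <;> linarith
  · have k1 := ld_le ψ (s := s) (by linarith)
    have k2 := hD s.re (by linarith) s2
    have k3 : 1 / (s.re - 1) ≤ 1 / η := one_div_le_one_div_of_le η0 (by linarith)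
    linarith

end Pool.Agent.P.MP_746f10_nt.AP
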