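import Pool.Agent.P.MP_746f10_nt.AP.Linnik
import Pool.Agent.P.MP_746f10_nt.AP.En
import Pool.Agent.P.MP_746f10_nt.AP.Rec
import Pool.Agent.P.MP_746f10_nt.AP.VMVT
import Pool.Agent.P.MP_746f10_nt.AP.Kor
import Pool.Agent.P.MP_746f10_nt.AP.Ws
import Pool.Agent.P.MP_746f10_nt.AP.Exp
import Pool.Agent.P.MP_746f10_nt.AP.Piece
import Pool.Agent.P.MP_746f10_nt.AP.Lbd
import Pool.Agent.P.MP_746f10_nt.AP.Landau
import Pool.Agent.P.MP_746f10_nt.AP.ZF
import Pool.Agent.P.MP_746f10_nt.AP.VKm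
import Pool.Agent.P.MP_746f10_nt.AP.Box
import Pool.Agent.P.MP_a14ce1_nt.Ch.VdC
import Pool.Agent.P.MP_0ad054_nt.An.Lup
import Pool.Agent.P.MP_0ad054_nt.An.Siegel
import Pool.Agent.P.MP_0ad054_nt.An.Zfree
import Pool.Agent.P.MP_0ad054_nt.An.Tauber
import Pool.Agent.P.MP_0ad054_nt.An.SW

/-! The zero free region and the prime sums without hypotheses. -/

namespace Pool.Agent.P.MP_746f10_nt.AP

open Pool.Agent.P.MP_0ad054_nt Pool.Agent.P.MP_a14ce1_nt

theorem vmvt_all : S_VMVT := pVMVT (pRec pLinnik pEnSub pEnShift pAMGM)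

theorem exp_all : S_Exp := pExp vmvt_all (pKor pEnShift) pWs

theorem zfree0 : An.S_Zfree := An.zfree An.lup (An.siegel An.lup)

theorem pnt0 : An.S_PNT := An.pnt An.lup zfree0 An.tauber

theorem zf_all : S_ZF := pZF (pLbd (pPiece exp_all Ch.vdc)) pLandau pLogD zfree0

theorem vk_all : S_VK := pVK zf_all An.tauber

theorem box_all : S_Box := pBox vk_all (An.sw zfree0 An.tauber)

end Pool.Agent.P.MP_746f10_nt.AP
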