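import Pool.Agent.P.MP_746f10_nt.AP.VK

/-! Twisted prime sums from the zero free region. -/

namespace Pool.Agent.P.MP_746f10_nt.AP

open Finset Filter Complex DirichletCharacter
open Pool.Agent.P.MP_0ad054_nt
open Pool.Agent.P.MP_a14ce1_nt.Ch (nit norm_nit)
open scoped ArithmeticFunction.vonMangoldt

namespace VKmP

theorem ev (k : ℕ) (c : ℝ) : ∀ᶠ X : ℝ in atTop, c ≤ Real.log X ∧ Real.log X ^ k ≤ X := by
  filter_upwards [Real.tendsto_log_atTop.eventually_ge_atTop c,
    Real.tendsto_log_atTop.eventually_ge_atTop ((k + 1).factorial : ℝ),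
    eventually_gt_atTop 0] with X h1 h2 h3
  refine ⟨h1, ?_⟩
  have h0 : (0 : ℝ) < (k + 1).factorial := by positivity
  have hL : 0 ≤ Real.log X := h0.le.trans h2
  have h4 := Real.pow_div_factorial_le_exp _ hL (k + 1)
  rw [Real.exp_log h3, div_le_iff₀ h0, pow_succ] at h4
  have h5 := mul_le_mul_of_nonneg_left h2 (pow_nonneg hL k)
  exact le_of_mul_le_mul_right (h5.trans h4) h0

theorem shift (f : ℕ → ℂ) (t : ℝ) (s : ℂ) :
    LSeries (fun n => f n * nit t n) s = LSeries f (s + t * I) := by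
  unfold LSeries
  congr 1
  funext n
  rcases eq_or_ne n 0 with rfl | hn
  · simp
  have h0 : (n : ℂ) ≠ 0 := Nat.cast_ne_zero.2 hn
  rw [LSeries.term_of_ne_zero hn, LSeries.term_of_ne_zero hn, cpow_add _ _ h0,
    cpow_def_of_ne_zero h0 (t * I), ← natCast_log]
  have e : nit t n = (exp ((Real.log n : ℂ) * (t * I)))⁻¹ := by
    rw [← exp_neg]
    unfold nit Pool.Agent.P.MP_a14ce1_nt.Ch.ex
    congr 1
    push_cast
    ring
  rw [e, div_eq_mul_inv, div_eq_mul_inv, mul_inv]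
  ring

theorem diff {q : ℕ} [NeZero q] (ψ : DirichletCharacter ℂ q) {s : ℂ} (hs : s ≠ 1) :
    DifferentiableAt ℂ (deriv (LFunction ψ)) s := by
  have h : DifferentiableOn ℂ (LFunction ψ) {1}ᶜ := fun z hz =>
    (differentiableAt_LFunction ψ z (Or.inl hz)).differentiableWithinAt
  exact (h.deriv isOpen_compl_singleton).differentiableAt (isOpen_compl_singleton.mem_nhds hs)

theorem num {C L P x y : ℝ} {A : ℕ} (hC : 0 < C) (h4 : 4 ≤ L) (hCL : 3 * C ≤ L)
    (hP : L ^ (A + 3) ≤ P) (hx : x ≤ 1 / L ^ (2 * A + 9)) (hy0 : 0 ≤ y)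
    (hy : y ≤ L) :
    C * (P * (1 / L ^ (A + 3) + (1 + L ^ 2) * (x + 1 / (L ^ (2 * A + 10) / 2)) /
      (1 / L ^ (A + 3))) + 1) * y ^ 2 ≤ P / L ^ A := by
  have hL : 0 < L := by linarith
  have hP0 : 0 < P := lt_of_lt_of_le (by positivity) hP
  have h1 : 1 / (L ^ (2 * A + 10) / 2) ≤ 1 / L ^ (2 * A + 9) := by
    refine one_div_le_one_div_of_le (by positivity) ?_
    rw [pow_succ L (2 * A + 9)]
    have : 0 < L ^ (2 * A + 9) := by positivity
    nlinarith
  have h2 : (1 + L ^ 2) * (x + 1 / (L ^ (2 * A + 10) / 2)) / (1 / L ^ (A + 3)) ≤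
      1 / L ^ (A + 3) := by
    calc _ ≤ (1 + L ^ 2) * (1 / L ^ (2 * A + 9) + 1 / L ^ (2 * A + 9)) / (1 / L ^ (A + 3)) := by
          gcongr
      _ ≤ (L ^ 3 / 2) * (1 / L ^ (2 * A + 9) + 1 / L ^ (2 * A + 9)) / (1 / L ^ (A + 3)) := by
          gcongr
          nlinarith
      _ = _ := by field_simp; ring
  have h3 : 1 ≤ P * (1 / L ^ (A + 3)) := by
    rw [mul_one_div, le_div_iff₀ (by positivity)]
    linarith
  calc _ ≤ C * (P * (1 / L ^ (A + 3) + 1 / L ^ (A + 3)) + P * (1 / L ^ (A + 3))) * L ^ 2 := by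
        gcongr
    _ = 3 * C * (P / L ^ (A + 1)) := by field_simp; ring
    _ ≤ L * (P / L ^ (A + 1)) := by gcongr
    _ = _ := by field_simp; ring

end VKmP

open VKmP

theorem pVK (h1 : S_ZF) (h2 : An.S_Tauber) : S_VK := by
  intro B A u hu
  obtain ⟨C, hC, hT⟩ := h2
  obtain ⟨X1, hZ⟩ := h1 B (u * (2 * A + 9))
  set C1 : ℝ := ((u * (2 * A + 9) : ℕ) : ℝ) with hC1
  have hu0 : (1 : ℝ) ≤ u := by exact_mod_cast hu
  have hC1' : C1 = u * ((2 * A + 9 : ℕ) : ℝ) := by rw [hC1]; push_cast; ring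
  have hC0 : 0 < C1 := by rw [hC1']; positivity
  obtain ⟨X0, hX0⟩ := eventually_atTop.1 ((((ev (2 * A + 10) 4).and (ev ((A + 3) * u) (3 * C))).and
    (Real.tendsto_log_atTop.eventually (ev 2 (2 * C1)))).and (eventually_ge_atTop X1))
  refine ⟨2 * A + 10, X0, fun X hX q _ ψ P t hq hP hPX ht htX => ?_⟩
  obtain ⟨⟨⟨⟨a1, a2⟩, a3, a4⟩, a5, a6⟩, a7⟩ := hX0 X hX
  set L := Real.log X with hL
  have hL0 : 0 < L := by linarith
  have hL1 : 1 ≤ L := by linarith
  have hl0 : 0 < Real.log L := by linarith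
  have hP1 : L ^ (A + 3) ≤ P := by
    refine (pow_le_pow_iff_left₀ (by positivity) (by positivity) (by omega : u ≠ 0)).1 ?_
    rw [← pow_mul]
    exact a4.trans hP
  have hP4 : (4 : ℝ) ≤ P := (a1.trans (le_self_pow₀ hL1 (by omega))).trans hP1
  have hP0 : (0 : ℝ) < P := by linarith
  have hX0' : 0 < X := by linarith
  have hT4 : 4 ≤ L ^ (2 * A + 10) := a1.trans (le_self_pow₀ hL1 (by omega))
  have hρ : C1 * Real.log L / L ≤ 1 / 2 := by
    rw [div_le_iff₀ hL0]
    nlinarith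
  have reg : ∀ s : ℂ, 1 - C1 * Real.log L / L ≤ s.re → s.re ≤ 2 →
      |s.im| ≤ L ^ (2 * A + 10) / 2 → s + t * I ≠ 1 ∧ LFunction ψ (s + t * I) ≠ 0 ∧
      ‖deriv (LFunction ψ) (s + t * I) / LFunction ψ (s + t * I)‖ ≤ L ^ 2 := by
    intro s b1 b2 b3
    have e1 : (s + t * I).re = s.re := by simp
    have e2 : (s + t * I).im = s.im + t := by simp
    have b4 : 2 ≤ |(s + t * I).im| := by
      have := abs_sub (s.im + t) s.im
      rw [add_sub_cancel_left] at this
      rw [e2]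
      linarith
    have b5 : |(s + t * I).im| ≤ 4 * X := by
      have := abs_add_le s.im t
      rw [e2]
      linarith
    refine ⟨fun h => ?_, hZ X a7 q ψ _ hq (by rw [e1]; exact b1) (by rw [e1]; exact b2) b4 b5⟩
    rw [h] at b4
    norm_num at b4
  have h := hT (fun n => (Λ n : ℂ) * ψ n * nit t n)
    (fun s => -(deriv (LFunction ψ) (s + t * I) / LFunction ψ (s + t * I)))
    (C1 * Real.log L / L) (L ^ (2 * A + 10) / 2) (L ^ 2) (1 / L ^ (A + 3)) P (fun n _ => ?_)
    (by positivity) hρ (by linarith) (by positivity) (by positivity)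
    (by rw [div_le_one (by positivity)]; exact one_le_pow₀ hL1)
    (by exact_mod_cast (show (3 : ℝ) ≤ P by linarith)) (fun s hs => ?_) (fun s hs => ?_)
    (fun s b1 b2 b3 => by rw [norm_neg]; exact (reg s b1 b2 b3).2.2)
  · refine h.trans (num hC a1 a3 hP1 ?_ (Real.log_nonneg (by linarith))
      (Real.log_le_log hP0 hPX))
    have b1 : L ≤ u * Real.log P := by
      rw [← Real.log_pow]
      exact Real.log_le_log hX0' hP
    rw [Real.rpow_def_of_pos hP0, one_div, ← Real.exp_log (pow_pos hL0 (2 * A + 9)),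
      ← Real.exp_neg, Real.exp_le_exp, Real.log_pow, mul_neg, neg_le_neg_iff, ← mul_div_assoc,
      le_div_iff₀ hL0, hC1']
    have := mul_le_mul_of_nonneg_left b1
      (show 0 ≤ ((2 * A + 9 : ℕ) : ℝ) * Real.log L by positivity)
    linarith
  · rw [norm_mul, norm_mul, norm_nit, mul_one, norm_real, Real.norm_eq_abs,
      abs_of_nonneg ArithmeticFunction.vonMangoldt_nonneg]
    have b1 := ψ.norm_le_one (n : ZMod q)
    have b2 := ArithmeticFunction.vonMangoldt_le_log (n := n)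
    have b3 := ArithmeticFunction.vonMangoldt_nonneg (n := n)
    nlinarith
  · obtain ⟨b1, b2, -⟩ := reg s hs.1 hs.2.1 hs.2.2
    have d0 : DifferentiableAt ℂ (fun s : ℂ => s + t * I) s := by fun_prop
    have d1 : DifferentiableAt ℂ (fun s : ℂ => deriv (LFunction ψ) (s + t * I)) s :=
      DifferentiableAt.comp (g := deriv (LFunction ψ)) s (diff ψ b1) d0
    have d2 : DifferentiableAt ℂ (fun s : ℂ => LFunction ψ (s + t * I)) s :=
      DifferentiableAt.comp (g := LFunction ψ) s (differentiableAt_LFunction ψ _ (Or.inl b1)) d0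
    exact (d1.div d2 b2).neg.differentiableWithinAt
  · have hs' : 1 < (s + t * I).re := by simpa using hs
    rw [shift, deriv_LFunction_eq_deriv_LSeries ψ hs', LFunction_eq_LSeries ψ hs', ← neg_div,
      ← LSeries_twist_vonMangoldt_eq ψ hs']
    congr 1
    funext n
    simp [mul_comm]

end Pool.Agent.P.MP_746f10_nt.AP
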